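import Pool.Agent.Run7.h657.RU

/-! The number of extensions of a labelling. -/

set_option linter.unusedSectionVars false

namespace Pool.Agent.Run7.h657.Res

open Finset

section count

variable {A B L K : Type*} [Fintype A] [Fintype B] [Fintype L] [DecidableEq A] [DecidableEq B]
  [DecidableEq L] [DecidableEq K]

/-- order of the stabilizer of a labelling -/
noncomputable def stN {X Z : Type*} (f : X → Z) : ℕ :=
  Nat.card {g : Equiv.Perm X // ∀ a, f (g a) = f a}

lemma stN_pos {X Z : Type*} [Finite X] (f : X → Z) : 0 < stN f := by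
  unfold stN
  have : Nonempty {g : Equiv.Perm X // ∀ a, f (g a) = f a} := ⟨⟨1, fun a => rfl⟩⟩
  exact Nat.card_pos

lemma fib_card {fA : A → K} {fB : B → K} {kL : L → K} {w0 : A ⊕ B ≃ L}
    (hw0 : w0 ∈ WW fA fB kL) :
    ((WW fA fB kL).filter fun w => ∀ a, w (Sum.inl a) = w0 (Sum.inl a)).card = stN fB := by
  classical
  unfold stN
  rw [Nat.card_eq_fintype_card, Fintype.card_subtype]
  symm
  rw [mem_WW] at hw0
  apply card_bij (fun (g : Equiv.Perm B) _ => (Equiv.sumCongr (Equiv.refl A) g).trans w0)
  · intro g hg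
    rw [mem_filter] at hg ⊢
    refine ⟨mem_WW.2 ⟨fun a => hw0.1 a, fun b => ?_⟩, fun a => rfl⟩
    show kL (w0 (Sum.inr (g b))) = fB b
    rw [hw0.2, hg.2]
  · intro g _ g' _ h
    ext b
    have h1 := Equiv.congr_fun h (Sum.inr b)
    have h2 : w0 (Sum.inr (g b)) = w0 (Sum.inr (g' b)) := h1
    exact Sum.inr_injective (w0.injective h2)
  · intro w hw
    rw [mem_filter, mem_WW] at hw
    obtain ⟨⟨hw1, hw2⟩, hw3⟩ := hw
    let p : Equiv.Perm (A ⊕ B) := w.trans w0.symm
    have hp : ∀ a, p (Sum.inl a) = Sum.inl a := by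
      intro a
      show w0.symm (w (Sum.inl a)) = Sum.inl a
      rw [hw3, Equiv.symm_apply_apply]
    have hm : p ∈ (Equiv.Perm.sumCongrHom A B).range := by
      apply Equiv.Perm.mem_sumCongrHom_range_of_perm_mapsTo_inl
      rintro _ ⟨a, rfl⟩
      exact ⟨a, (hp a).symm⟩
    obtain ⟨⟨g1, g2⟩, hg⟩ := hm
    have hg' : ∀ z, (Equiv.sumCongr g1 g2) z = p z := fun z => Equiv.congr_fun hg z
    have hb : ∀ b, w0 (Sum.inr (g2 b)) = w (Sum.inr b) := by
      intro b
      have h1 : Sum.inr (g2 b) = p (Sum.inr b) := hg' (Sum.inr b)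
      rw [h1]
      show w0 (w0.symm (w (Sum.inr b))) = w (Sum.inr b)
      rw [Equiv.apply_symm_apply]
    refine ⟨g2, ?_, ?_⟩
    · rw [mem_filter]
      refine ⟨mem_univ _, fun b => ?_⟩
      rw [← hw0.2, hb, hw2]
    · apply Equiv.ext
      rintro (a | b)
      · show w0 (Sum.inl a) = w (Sum.inl a)
        rw [hw3]
      · exact hb b

/-- each injective map has as many extensions as the stabilizer has elements -/
lemma count_card (fA : A → K) (fB : B → K) (kL : L → K)
    (h : ∀ χ, (univ.filter fun l => kL l = χ).card =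
      (univ.filter fun a => fA a = χ).card + (univ.filter fun b => fB b = χ).card)
    (M : Type*) [AddCommMonoid M] (F : (A → L) → M) :
    ∑ w ∈ WW fA fB kL, F (fun a => w (Sum.inl a)) = stN fB • ∑ σ ∈ TTs fA kL, F σ := by
  classical
  have h6 : ∀ w ∈ WW fA fB kL, (fun a => w (Sum.inl a)) ∈ TTs fA kL := by
    intro w hw
    rw [mem_TTs]
    refine ⟨fun a b hab => Sum.inl_injective (w.injective hab), (mem_WW.1 hw).1⟩
  rw [← sum_fiberwise_of_maps_to h6, smul_sum]
  apply sum_congr rfl
  intro σ hσ
  obtain ⟨w0, hw0, hw0'⟩ := extend fA fB kL h hσ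
  rw [← fib_card hw0, ← sum_const]
  have hset : (WW fA fB kL).filter (fun w => (fun a => w (Sum.inl a)) = σ) =
      (WW fA fB kL).filter (fun w => ∀ a, w (Sum.inl a) = w0 (Sum.inl a)) := by
    apply filter_congr
    intro w _
    constructor
    · intro h1 a
      rw [hw0', ← h1]
    · intro h1
      funext a
      rw [h1, hw0']
  rw [hset]
  apply sum_congr rfl
  intro w hw
  congr 1
  funext a
  rw [(mem_filter.1 hw).2, hw0']

lemma count_card' (fA : A → K) (fB : B → K) (kL : L → K)
    (h : ∀ χ, (univ.filter fun l => kL l = χ).card =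
      (univ.filter fun a => fA a = χ).card + (univ.filter fun b => fB b = χ).card)
    (M : Type*) [AddCommMonoid M] (F : (B → L) → M) :
    ∑ w ∈ WW fA fB kL, F (fun b => w (Sum.inr b)) = stN fA • ∑ σ ∈ TTs fB kL, F σ := by
  rw [← count_card fB fA kL (fun χ => by rw [h χ, add_comm]) M F]
  refine sum_nbij' (fun w => (Equiv.sumComm B A).trans w) (fun w => (Equiv.sumComm A B).trans w)
    ?_ ?_ ?_ ?_ ?_
  · intro w hw
    rw [mem_WW] at hw ⊢
    exact ⟨hw.2, hw.1⟩
  · intro w hw
    rw [mem_WW] at hw ⊢
    exact ⟨hw.2, hw.1⟩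
  · intro w _
    ext z
    rcases z with a | b <;> rfl
  · intro w _
    ext z
    rcases z with a | b <;> rfl
  · intro w _
    rfl

end count

section mf

variable {X Z : Type*} [DecidableEq X] [DecidableEq Z]

/-- product of the factorials of the multiplicities -/
def mf (R : Finset X) (f : X → Z) : ℕ :=
  ∏ z ∈ R.image f, ((R.filter fun r => f r = z).card).factorial

lemma mf_pos (R : Finset X) (f : X → Z) : 0 < mf R f :=
  prod_pos fun _ _ => Nat.factorial_pos _

lemma mf_empty (f : X → Z) : mf (∅ : Finset X) f = 1 := by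
  unfold mf
  rw [image_empty, prod_empty]

lemma mf_congr {R : Finset X} {f f' : X → Z} (h : ∀ r ∈ R, f r = f' r) : mf R f = mf R f' := by
  unfold mf
  rw [image_congr (fun r hr => h r hr)]
  apply prod_congr rfl
  intro z _
  congr 2
  apply filter_congr
  intro r hr
  rw [h r hr]

lemma mf_union {A Y : Finset X} {f : X → Z} (h : ∀ a ∈ A, ∀ y ∈ Y, f a ≠ f y) :
    mf (A ∪ Y) f = mf A f * mf Y f := by
  unfold mf
  rw [image_union, prod_union]
  · congr 1
    · apply prod_congr rfl
      intro z hz
      obtain ⟨a, ha, rfl⟩ := mem_image.1 hz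
      congr 2
      rw [filter_union]
      have : Y.filter (fun r => f r = f a) = ∅ := by
        rw [filter_eq_empty_iff]
        intro y hy h1
        exact h a ha y hy h1.symm
      rw [this, union_empty]
    · apply prod_congr rfl
      intro z hz
      obtain ⟨y, hy, rfl⟩ := mem_image.1 hz
      congr 2
      rw [filter_union]
      have : A.filter (fun r => f r = f y) = ∅ := by
        rw [filter_eq_empty_iff]
        intro a ha h1
        exact h a ha y hy h1
      rw [this, empty_union]
  · rw [disjoint_left]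
    intro z hz hz'
    obtain ⟨a, ha, rfl⟩ := mem_image.1 hz
    obtain ⟨y, hy, h1⟩ := mem_image.1 hz'
    exact h a ha y hy h1.symm

lemma mf_comp {Z' : Type*} [DecidableEq Z'] {R : Finset X} {f : X → Z} {j : Z → Z'}
    (hj : ∀ a ∈ R, ∀ b ∈ R, j (f a) = j (f b) → f a = f b) :
    mf R (fun r => j (f r)) = mf R f := by
  unfold mf
  have h1 : R.image (fun r => j (f r)) = (R.image f).image j := by
    rw [image_image]; rfl
  rw [h1, prod_image]
  · apply prod_congr rfl
    intro z hz
    obtain ⟨a, ha, rfl⟩ := mem_image.1 hz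
    congr 2
    apply filter_congr
    intro r hr
    exact ⟨fun h => hj r hr a ha h, fun h => congrArg j h⟩
  · intro z hz z' hz' h
    obtain ⟨a, ha, rfl⟩ := mem_image.1 hz
    obtain ⟨b, hb, rfl⟩ := mem_image.1 hz'
    exact hj a ha b hb h

lemma mf_map {X' : Type*} [DecidableEq X'] (R : Finset X') (e : X' ↪ X) (f : X → Z) :
    mf (R.map e) f = mf R (fun r => f (e r)) := by
  unfold mf
  rw [map_eq_image, image_image]
  apply prod_congr rfl
  intro z _
  rw [← map_eq_image, filter_map, card_map]
  rfl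

lemma stN_mf {X' : Type*} [Fintype X'] [DecidableEq X'] (f : X' → Z) :
    stN f = mf univ f := by
  unfold stN mf
  have h := DomMulAct.stabilizer_card' f
  rw [Nat.card_eq_fintype_card]
  have h2 : Fintype.card {g : Equiv.Perm X' // ∀ a, f (g a) = f a} =
      Fintype.card {g : Equiv.Perm X' // f ∘ g = f} := by
    apply Fintype.card_congr
    apply Equiv.subtypeEquivRight
    intro g
    exact ⟨fun h => funext h, fun h a => congrFun h a⟩
  rw [h2, h]
  apply prod_congr rfl
  intro z _
  rw [Fintype.card_subtype]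

lemma stN_coe {X : Type*} [DecidableEq X] (A : Finset X) (f : X → Z) :
    stN (fun a : A => f a.1) = mf A f := by
  rw [stN_mf]
  have h1 := mf_map (univ : Finset A) (Function.Embedding.subtype (· ∈ A)) f
  have h2 : (univ : Finset A).map (Function.Embedding.subtype (· ∈ A)) = A := by
    ext a
    rw [mem_map]
    constructor
    · rintro ⟨⟨b, hb⟩, _, rfl⟩
      exact hb
    · intro ha
      exact ⟨⟨a, ha⟩, mem_univ _, rfl⟩
  rw [h2] at h1
  exact h1.symm

end mf

end Pool.Agent.Run7.h657.Res
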