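import Mathlib

/-!
Definitions: framed quivers, points of Nakajima quiver varieties, torus weights, the vertex
function of a zero dimensional quiver variety.
-/

namespace Pool.Agent.Run7.h657.Vx

open Finset

variable {K V A W P : Type*} [Field K] [Fintype V] [Fintype A] [Fintype W] [Fintype P]
  [DecidableEq V]

/-- A finite framed quiver with vertices `V`, arrows `A` (from `tail e` to `head e`) and framing
basis `W`; the framing vector `f` sits at the vertex `fr f`. -/
structure FQuiver (V A W : Type*) where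
  tail : A → V
  head : A → V
  fr : W → V

/-- Equivariant parameters: `q = s ^ 2`, `ħ = h ^ 2`, arrow weights `τ`, framing weights `a`. -/
structure Par (K A W : Type*) [Field K] where
  s : Kˣ
  h : Kˣ
  τ : A → Kˣ
  a : W → Kˣ

/-- `q` -/
def Par.q (T : Par K A W) : Kˣ := T.s ^ 2

/-- `ħ` -/
def Par.hb (T : Par K A W) : Kˣ := T.h ^ 2

/-- A representation of the doubled framed quiver on the vector space with basis `P`, graded by
the colouring `c : P → V`: `X e` is the arrow `e`, `Y e` the opposite arrow, `I` and `J` the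
framing maps. The column index of a matrix is the source. -/
structure Rep (K A W P : Type*) where
  X : A → Matrix P P K
  Y : A → Matrix P P K
  I : Matrix P W K
  J : Matrix W P K

/-- Number of basis vectors of colour `i`: the dimension vector. -/
def dimv (c : P → V) (i : V) : ℕ := (univ.filter fun r => c r = i).card

/-- The framing dimension vector. -/
def dimw (Γ : FQuiver V A W) (i : V) : ℕ := (univ.filter fun f => Γ.fr f = i).card

/-- A stable solution of the moment map equation, for the stability parameter `(1,...,1)`: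
no proper graded subspace that contains the image of `I` is stable under all arrows. -/
structure IsPoint (Γ : FQuiver V A W) (c : P → V) (M : Rep K A W P) : Prop where
  suppX : ∀ e r' r, M.X e r' r ≠ 0 → c r = Γ.tail e ∧ c r' = Γ.head e
  suppY : ∀ e r' r, M.Y e r' r ≠ 0 → c r = Γ.head e ∧ c r' = Γ.tail e
  suppI : ∀ r f, M.I r f ≠ 0 → c r = Γ.fr f
  suppJ : ∀ f r, M.J f r ≠ 0 → c r = Γ.fr f
  moment : ∑ e, (M.X e * M.Y e - M.Y e * M.X e) + M.I * M.J = 0
  stable : ∀ U : Submodule K (P → K),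
    (∀ i, ∀ u ∈ U, (fun r => if c r = i then u r else 0) ∈ U) →
    (∀ f, (fun r => M.I r f) ∈ U) → (∀ e, ∀ u ∈ U, (M.X e).mulVec u ∈ U) →
    (∀ e, ∀ u ∈ U, (M.Y e).mulVec u ∈ U) → U = ⊤

/-- The variety has dimension zero:
`∑ v_{tail e} v_{head e} + ∑ v_i w_i - ∑ v_i ^ 2 = 0`. -/
def DimZero (Γ : FQuiver V A W) (c : P → V) : Prop :=
  ∑ e, dimv c (Γ.tail e) * dimv c (Γ.head e) + ∑ i, dimv c i * dimw Γ i = ∑ i, dimv c i ^ 2

/-- The point is fixed by the torus, which acts on the basis vector `r` of the tautological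
bundles with weight `x r`, the weights of each tautological bundle are distinct, and every matrix
coefficient of trivial torus weight is nonzero. -/
structure MultFree (Γ : FQuiver V A W) (T : Par K A W) (c : P → V) (x : P → Kˣ)
    (M : Rep K A W P) : Prop where
  distinct : ∀ r r', c r = c r' → x r = x r' → r = r'
  wtX : ∀ e r' r, M.X e r' r ≠ 0 ↔ (c r = Γ.tail e ∧ c r' = Γ.head e) ∧ T.τ e * x r' / x r = 1
  wtY : ∀ e r' r, M.Y e r' r ≠ 0 ↔
    (c r = Γ.head e ∧ c r' = Γ.tail e) ∧ T.hb * x r' / (T.τ e * x r) = 1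
  wtI : ∀ r f, M.I r f ≠ 0 ↔ c r = Γ.fr f ∧ x r / T.a f = 1
  wtJ : ∀ f r, M.J f r ≠ 0 ↔ c r = Γ.fr f ∧ T.hb * T.a f / x r = 1

/-- No nonzero power of `q` is a monomial in `ħ` and the arrow and framing weights. -/
def Generic (T : Par K A W) : Prop :=
  ∀ m : ℤ, m ≠ 0 → T.q ^ m ∉ Subgroup.closure ({T.hb} ∪ Set.range T.τ ∪ Set.range T.a)

/-- The torus fixed quasimaps nonsingular at infinity: `𝒱 = ⨁ 𝒪(δ r)` with all maps regular. -/
def Regular (M : Rep K A W P) (δ : P → ℤ) : Prop :=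
  (∀ e r' r, M.X e r' r ≠ 0 → δ r ≤ δ r') ∧ (∀ e r' r, M.Y e r' r ≠ 0 → δ r ≤ δ r') ∧
  (∀ r f, M.I r f ≠ 0 → 0 ≤ δ r) ∧ (∀ f r, M.J f r ≠ 0 → δ r ≤ 0)

/-- `(x; q)_d` for an integer `d`. -/
def qp (q x : K) : ℤ → K
  | Int.ofNat n => ∏ j ∈ range n, (1 - x * q ^ j)
  | Int.negSucc n => (∏ j ∈ range (n + 1), (1 - x * (q⁻¹) ^ (j + 1)))⁻¹

/-- `{w}_d = (ħ/w; q)_d / (q/w; q)_d (-q^{1/2} ħ^{-1/2})^d`. -/
def br (T : Par K A W) (w : Kˣ) (d : ℤ) : K :=
  qp (T.q : K) ((T.hb / w : Kˣ) : K) d / qp (T.q : K) ((T.q / w : Kˣ) : K) d *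
    (-((T.s : K) / T.h)) ^ d

/-- Degree of the canonical polarization
`T^{1/2} = ∑ Hom(𝒱_tail, 𝒱_head) + ∑ Hom(𝒲_i, 𝒱_i) - ∑ Hom(𝒱_i, 𝒱_i)`. -/
def degPol (Γ : FQuiver V A W) (c : P → V) (δ : P → ℤ) : ℤ :=
  (∑ e, ∑ r, ∑ r', if c r = Γ.tail e ∧ c r' = Γ.head e then δ r' - δ r else 0) +
    (∑ f, ∑ r, if c r = Γ.fr f then δ r else 0) -
    ∑ r, ∑ r', if c r = c r' then δ r' - δ r else 0

/-- The localization contribution `q^{deg T^{1/2} / 2} ∏_{w ∈ T^{1/2}} {w}_{d_w}`. -/
def contrib (Γ : FQuiver V A W) (T : Par K A W) (c : P → V) (x : P → Kˣ) (δ : P → ℤ) : K :=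
  (T.s : K) ^ degPol Γ c δ *
    (((∏ e, ∏ r, ∏ r', if c r = Γ.tail e ∧ c r' = Γ.head e then
      br T (T.τ e * x r' / x r) (δ r' - δ r) else 1) *
      ∏ f, ∏ r, if c r = Γ.fr f then br T (x r / T.a f) (δ r) else 1) /
      ∏ r, ∏ r', if c r = c r' then br T (x r' / x r) (δ r' - δ r) else 1)

/-- `a_i = ∑_{head e = i} v_{tail e} - ∑_{tail e = i} v_{head e} + w_i`. -/
def av (Γ : FQuiver V A W) (c : P → V) (i : V) : ℤ :=
  ∑ e with Γ.head e = i, (dimv c (Γ.tail e) : ℤ) - ∑ e with Γ.tail e = i, (dimv c (Γ.head e) : ℤ) +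
    dimw Γ i

/-- `b_i = v_i - ∑_{tail e = i} v_{head e}`. -/
def bv (Γ : FQuiver V A W) (c : P → V) (i : V) : ℤ :=
  dimv c i - ∑ e with Γ.tail e = i, (dimv c (Γ.head e) : ℤ)

/-- Coordinates of `μ = ∑ w_i ϖ_i - ∑ v_i α_i` in the fundamental weights. -/
def muv (Γ : FQuiver V A W) (c : P → V) (i : V) : ℤ :=
  dimw Γ i - (2 * dimv c i - ∑ e with Γ.head e = i, (dimv c (Γ.tail e) : ℤ) -
    ∑ e with Γ.tail e = i, (dimv c (Γ.head e) : ℤ))

/-- The vertex function after the substitution `z_i ↦ z_i (-ħ^{-1/2})^{a_i}`. -/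
noncomputable def vertex (Γ : FQuiver V A W) (T : Par K A W) (c : P → V) (x : P → Kˣ)
    (M : Rep K A W P) : MvPowerSeries V K := fun d =>
  (-(T.h : K)⁻¹) ^ (∑ i, av Γ c i * d i) *
    ∑ᶠ δ ∈ {δ : P → ℤ | Regular M δ ∧ ∀ i, ∑ r with c r = i, δ r = d i}, contrib Γ T c x δ

/-- The simple reflection `s_i` on the root lattice. -/
def reflect (Γ : FQuiver V A W) (i : V) (α : V → ℤ) : V → ℤ :=
  Function.update α i
    (∑ e with Γ.head e = i, α (Γ.tail e) + ∑ e with Γ.tail e = i, α (Γ.head e) - α i)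

/-- Real roots: the images of the simple roots under the Weyl group. -/
inductive IsRealRoot (Γ : FQuiver V A W) : (V → ℤ) → Prop
  | simple (i : V) : IsRealRoot Γ (Pi.single i 1)
  | refl (i : V) (α : V → ℤ) : IsRealRoot Γ α → IsRealRoot Γ (reflect Γ i α)

/-- `∑ α_i y_i`. -/
def pair (α : V →₀ ℕ) (y : V → ℤ) : ℤ := ∑ i, (α i : ℤ) * y i

/-- `Φ(X) = ∏_{i ≥ 0} (1 - X q^i) = ∑ (-1)^n q^{n(n-1)/2} X^n / (q; q)_n`. -/
noncomputable def Phi (q : K) : PowerSeries K := PowerSeries.mk fun n =>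
  (-1) ^ n * q ^ (n * (n - 1) / 2) / ∏ j ∈ range n, (1 - q ^ (j + 1))

/-- `Φ(u z^α)`. -/
noncomputable def PhiAt (q : K) (α : V →₀ ℕ) (u : K) : MvPowerSeries V K :=
  (Phi q).subst (MvPowerSeries.monomial α u)


/-- The point is fixed by the torus; the basis vector `r` of the tautological bundles has
weight `x r`. Every point of a zero dimensional variety is fixed and has such a basis. -/
structure TorusFixed (T : Par K A W) (x : P → Kˣ) (M : Rep K A W P) : Prop where
  wtX : ∀ e r' r, M.X e r' r ≠ 0 → T.τ e * x r' / x r = 1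
  wtY : ∀ e r' r, M.Y e r' r ≠ 0 → T.hb * x r' / (T.τ e * x r) = 1
  wtI : ∀ r f, M.I r f ≠ 0 → x r / T.a f = 1
  wtJ : ∀ f r, M.J f r ≠ 0 → T.hb * T.a f / x r = 1

/-- `q`, `ħ`, the arrow weights and the framing weights are multiplicatively independent. -/
def Independent (T : Par K A W) : Prop :=
  ∀ (j l : ℤ) (m : A → ℤ) (n : W → ℤ),
    T.q ^ j * T.hb ^ l * (∏ e, T.τ e ^ m e) * (∏ f, T.a f ^ n f) = 1 →
      j = 0 ∧ l = 0 ∧ m = 0 ∧ n = 0

/-- The weight `y = ħ^l ∏ τ_e^{m_e} ∏ a_f^{n_f}` has level `-2 l - ∑ m_e`, which is the number of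
arrows on the paths from the framing to the vectors of weight `y`. -/
def HasLevel (T : Par K A W) (y : Kˣ) (k : ℤ) : Prop :=
  ∃ (l : ℤ) (m : A → ℤ) (n : W → ℤ),
    y = T.hb ^ l * (∏ e, T.τ e ^ m e) * (∏ f, T.a f ^ n f) ∧ k = -2 * l - ∑ e, m e

/-- The basis is ordered by level. -/
def LevelOrder [LinearOrder P] (T : Par K A W) (x : P → Kˣ) : Prop :=
  ∀ r r' k k', r < r' → HasLevel T (x r) k → HasLevel T (x r') k' → k ≤ k'

/-- Iterated Laurent series over `K` in the variables `u r`, `r : P`, for the region where `u r`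
is small compared with `u r'` whenever `r < r'`. -/
abbrev Ser (P K : Type*) [LinearOrder P] [Zero K] := HahnSeries (Lex (P →₀ ℤ)) K

section residue

variable [LinearOrder P]

/-- The variable `u r`. -/
noncomputable def uvar (r : P) : Ser P K := HahnSeries.single (toLex (Finsupp.single r 1)) 1

/-- The iterated residue of `g ∏ du_r` at the origin: the coefficient of `∏ u_r ^ (-1)`. -/
noncomputable def iterRes (g : Ser P K) : K :=
  g.coeff (toLex (Finsupp.equivFunOnFinite.symm fun _ => -1))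

lemma one_add_uvar_ne (r : P) : (1 + uvar r : Ser P K) ≠ 0 := by
  intro h
  have h1 := congrArg (fun g : Ser P K => g.coeff 0) h
  have h2 : (uvar r : Ser P K).coeff 0 = 0 := by
    unfold uvar
    apply HahnSeries.coeff_single_of_ne
    intro h0
    have h3 := congrArg (fun γ : Lex (P →₀ ℤ) => (ofLex γ) r) h0
    simp at h3
  simp only [HahnSeries.coeff_add, HahnSeries.coeff_zero] at h1
  rw [h2, HahnSeries.coeff_one, if_pos rfl] at h1
  simp at h1

/-- The Chern root `X_r = x_r (1 + u_r)`, a formal neighbourhood of the weight `x_r`. -/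
noncomputable def chernRoot (x : P → Kˣ) (r : P) : (Ser P K)ˣ :=
  Units.map (HahnSeries.C : K →+* Ser P K).toMonoidHom (x r) * Units.mk0 _ (one_add_uvar_ne r)

/-- The equivariant parameters as constant series. -/
noncomputable def constPar (P : Type*) [LinearOrder P] (T : Par K A W) : Par (Ser P K) A W where
  s := Units.map (HahnSeries.C : K →+* Ser P K).toMonoidHom T.s
  h := Units.map (HahnSeries.C : K →+* Ser P K).toMonoidHom T.h
  τ e := Units.map (HahnSeries.C : K →+* Ser P K).toMonoidHom (T.τ e)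
  a f := Units.map (HahnSeries.C : K →+* Ser P K).toMonoidHom (T.a f)

/-- `(1 - w) (1 - ħ / w)` -/
def euler {L : Type*} [Field L] (T : Par L A W) (w : Lˣ) : L := (1 - w) * (1 - T.hb / w)

/-- `∏ (1 - w) (1 - ħ / w)` over the weights `w` of the representation space, in Chern roots. -/
def eulerMatter {L : Type*} [Field L] (Γ : FQuiver V A W) (T : Par L A W) (c : P → V)
    (X : P → Lˣ) : L :=
  (∏ e, ∏ r, ∏ r', if c r = Γ.tail e ∧ c r' = Γ.head e then
      euler T (T.τ e * X r' / X r) else 1) *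
    ∏ f, ∏ r, if c r = Γ.fr f then euler T (X r / T.a f) else 1

/-- The same product over the roots of the gauge group. -/
def eulerGauge {L : Type*} [Field L] (T : Par L A W) (c : P → V) (X : P → Lˣ) : L :=
  ∏ r, ∏ r', if c r = c r' ∧ r ≠ r' then euler T (X r' / X r) else 1

/-- The integrand of the residue formula for the contribution of the degree `δ`:
`∏ dX_r / X_r · ∏_{roots} (1 - w)(1 - ħ/w) / ∏_{matter} (1 - w)(1 - ħ/w) · contrib(δ)`
at `X_r = x_r (1 + u_r)`. -/
noncomputable def integrand (Γ : FQuiver V A W) (T : Par K A W) (c : P → V) (x : P → Kˣ)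
    (δ : P → ℤ) : Ser P K :=
  (∏ r, (1 + uvar r : Ser P K)⁻¹) *
    (eulerGauge (constPar P T) c (chernRoot x) / eulerMatter Γ (constPar P T) c (chernRoot x)) *
    contrib Γ (constPar P T) c (chernRoot x) δ

/-- The vertex function by the residue formula, normalised to have constant term `1`, after the
substitution `z_i ↦ z_i (-ħ^{-1/2})^{a_i}`: the coefficient of `z^d` is the sum over all degrees
`δ` of Chern roots with `∑_{c r = i} δ r = d i` of the iterated residues at the weights `x` of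
the tautological bundles. -/
noncomputable def resVertex (Γ : FQuiver V A W) (T : Par K A W) (c : P → V) (x : P → Kˣ) :
    MvPowerSeries V K := fun d =>
  (-(T.h : K)⁻¹) ^ (∑ i, av Γ c i * d i) *
    (∑ᶠ δ ∈ {δ : P → ℤ | ∀ i, ∑ r with c r = i, δ r = d i}, iterRes (integrand Γ T c x δ)) /
      iterRes (integrand Γ T c x 0)

end residue

end Pool.Agent.Run7.h657.Vx
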