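import Pool.Agent.Run7.h657.Def

/-! Further definitions: isomorphism of framed representations, the residue formula for the
vertex function with the order of the stabilizer in the Weyl group. -/

namespace Pool.Agent.Run7.h657.Vx

open Finset

section iso

variable {K V A W P : Type*} [Field K] [Fintype P]

/-- `M'` is the representation `M` written in another basis: the columns of the invertible, colour
preserving matrix `g` are the new basis vectors. Two stable solutions of the moment map equation
give the same point of the quiver variety if and only if they are isomorphic in this sense. -/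
def Iso (c : P → V) (M M' : Rep K A W P) : Prop :=
  ∃ g : Matrix P P K, (∀ u, g.mulVec u = 0 → u = 0) ∧ (∀ r' r, g r' r ≠ 0 → c r' = c r) ∧
    (∀ e, g * M'.X e = M.X e * g) ∧ (∀ e, g * M'.Y e = M.Y e * g) ∧ g * M'.I = M.I ∧
    M'.J = M.J * g

/-- The order of the stabilizer of the weights `x` in the Weyl group of the gauge group
`∏ GL(v_i)` (the permutations of the basis that preserve the colours). -/
noncomputable def stabOrder (c : P → V) (x : P → Kˣ) : ℕ :=
  Nat.card {σ : Equiv.Perm P // ∀ r, c (σ r) = c r ∧ x (σ r) = x r}

end iso

variable {K V A W P : Type*} [Field K] [Fintype V] [Fintype A] [Fintype W] [Fintype P]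
  [DecidableEq V] [LinearOrder P]

/-- The vertex function by the residue (contour integral) formula, after the substitution
`z_i ↦ z_i (-ħ^{-1/2})^{a_i}`: the coefficient of `z^d` is `(ħ - 1)^{∑ v_i} / |W_x|` times the sum
over all degrees `δ` of Chern roots with `∑_{c r = i} δ r = d i` of the iterated residues of the
integrand at the weights `x` of the tautological bundles; `W_x` is the stabilizer of `x` in the
Weyl group and the power of `ħ - 1` is the contribution of the zero weights of the gauge group. -/
noncomputable def intVertex (Γ : FQuiver V A W) (T : Par K A W) (c : P → V) (x : P → Kˣ) :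
    MvPowerSeries V K := fun d =>
  (-(T.h : K)⁻¹) ^ (∑ i, av Γ c i * d i) *
    (((T.hb : K) - 1) ^ Fintype.card P / stabOrder c x *
      ∑ᶠ δ ∈ {δ : P → ℤ | ∀ i, ∑ r with c r = i, δ r = d i}, iterRes (integrand Γ T c x δ))

end Pool.Agent.Run7.h657.Vx
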