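import Pool.Agent.Run7.h657.Glob

/-! The dimension inequality and the structure at a vertex. -/

set_option linter.unusedSectionVars false

namespace Pool.Agent.Run7.h657

open Finset Module

variable {K : Type*} [Field K]

lemma iso_dim {G : Type*} [AddCommGroup G] [Module K G] [FiniteDimensional K G] {N : Type*}
    [Fintype N] (φ1 φ2 : G →ₗ[K] (N → K))
    (hsym : ∀ g g', ∑ z, φ1 g z * φ2 g' z = ∑ z, φ1 g' z * φ2 g z)
    (hinj : ∀ g, φ1 g = 0 → φ2 g = 0 → g = 0) : finrank K G ≤ Fintype.card N := by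
  classical
  have h1 := LinearMap.finrank_range_add_finrank_ker φ1
  have h2 := Subspace.finrank_add_finrank_dualAnnihilator_eq (LinearMap.range φ1)
  rw [Module.finrank_fintype_fun_eq_card] at h2
  -- the map to the annihilator
  let Ψ : (N → K) →ₗ[K] Dual K (N → K) :=
    { toFun := fun n2 =>
        { toFun := fun n1 => ∑ z, n1 z * n2 z
          map_add' := fun a b => by simp [add_mul, sum_add_distrib]
          map_smul' := fun a b => by simp [mul_sum, mul_assoc] }
      map_add' := fun a b => by ext; simp [mul_add, sum_add_distrib]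
      map_smul' := fun a b => by
        apply LinearMap.ext
        intro n1
        simp only [LinearMap.coe_mk, AddHom.coe_mk, Pi.smul_apply, smul_eq_mul, RingHom.id_apply,
          LinearMap.smul_apply, mul_sum]
        apply sum_congr rfl
        intro z _
        ring }
  have hΨ : ∀ n2 n1, Ψ n2 n1 = ∑ z, n1 z * n2 z := fun _ _ => rfl
  have hΨinj : ∀ n2, Ψ n2 = 0 → n2 = 0 := by
    intro n2 h
    funext z
    have := congrArg (fun φ => φ (Pi.single z 1)) h
    simp only [hΨ, LinearMap.zero_apply] at this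
    rw [sum_eq_single z] at this
    · simpa using this
    · intro b _ hb
      simp [Pi.single_eq_of_ne hb]
    · simp
  let Θ : LinearMap.ker φ1 →ₗ[K] (LinearMap.range φ1).dualAnnihilator :=
    LinearMap.codRestrict _ (Ψ ∘ₗ φ2 ∘ₗ (LinearMap.ker φ1).subtype) (by
      intro g
      rw [Submodule.mem_dualAnnihilator]
      rintro _ ⟨g', rfl⟩
      simp only [LinearMap.comp_apply, hΨ, Submodule.subtype_apply]
      rw [hsym g' g.1]
      have : φ1 g.1 = 0 := g.2
      simp [this])
  have hΘ : Function.Injective Θ := by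
    rw [injective_iff_map_eq_zero]
    intro g hg
    have h3 : Ψ (φ2 g.1) = 0 := congrArg Subtype.val hg
    have h4 := hΨinj _ h3
    apply Subtype.ext
    exact hinj g.1 g.2 h4
  have h5 := LinearMap.finrank_le_finrank_of_injective hΘ
  omega

variable {I E F P A B Y : Type*} [Fintype I] [Fintype E] [Fintype F] [Fintype P] [Fintype A]
  [Fintype B] [Fintype Y] [DecidableEq I] [DecidableEq P] [DecidableEq A] [DecidableEq B]
  [DecidableEq Y] [DecidableEq E] [DecidableEq F]

/-- stability -/
def Stab (c : P → I) (Ma Mb : E → Matrix P P K) (Mi : Matrix P F K) : Prop :=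
  ∀ U : Submodule K (P → K),
    (∀ i, ∀ u ∈ U, (fun r => if c r = i then u r else 0) ∈ U) →
    (∀ f, (fun r => Mi r f) ∈ U) → (∀ e, ∀ u ∈ U, (Ma e).mulVec u ∈ U) →
    (∀ e, ∀ u ∈ U, (Mb e).mulVec u ∈ U) → U = ⊤

/-- supports of the matrices and the moment map equation -/
structure Mod (Q : QD K I E F) (c : P → I) (Ma Mb : E → Matrix P P K) (Mi : Matrix P F K)
    (Mj : Matrix F P K) : Prop where
  sa : ∀ e r' r, Ma e r' r ≠ 0 → c r' = Q.tgt e ∧ c r = Q.src e
  sb : ∀ e r' r, Mb e r' r ≠ 0 → c r' = Q.src e ∧ c r = Q.tgt e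
  si : ∀ r f, Mi r f ≠ 0 → c r = Q.cF f
  sj : ∀ f r, Mj f r ≠ 0 → c r = Q.cF f
  mom : ∑ e, (Ma e * Mb e - Mb e * Ma e) + Mi * Mj = 0
  st : Stab c Ma Mb Mi

/-- block matrices as a full matrix -/
def toM (c : P → I) : ({z : P × P // c z.1 = c z.2} → K) →ₗ[K] Matrix P P K where
  toFun g := Matrix.of fun r r' => if h : c r = c r' then g ⟨(r, r'), h⟩ else 0
  map_add' g g' := by
    ext r r'
    simp only [Matrix.of_apply, Matrix.add_apply, Pi.add_apply]
    split_ifs <;> simp
  map_smul' a g := by
    ext r r'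
    simp only [Matrix.of_apply, Matrix.smul_apply, Pi.smul_apply, RingHom.id_apply]
    split_ifs <;> simp

lemma toM_supp (c : P → I) (g : {z : P × P // c z.1 = c z.2} → K) {r r' : P}
    (h : toM c g r r' ≠ 0) : c r = c r' := by
  by_contra hne
  apply h
  show (if h : c r = c r' then g ⟨(r, r'), h⟩ else 0) = 0
  rw [dif_neg hne]

lemma toM_inj (c : P → I) (g : {z : P × P // c z.1 = c z.2} → K) (h : toM c g = 0) : g = 0 := by
  funext ⟨⟨r, r'⟩, hz⟩
  have h1 := congrFun (congrFun h r) r'
  have h2 : toM c g r r' = g ⟨(r, r'), hz⟩ := by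
    show (if h : c r = c r' then g ⟨(r, r'), h⟩ else 0) = _
    rw [dif_pos hz]
  rw [h2] at h1
  simpa using h1

lemma trace_id (g g' A B : Matrix P P K) :
    Matrix.trace ((g * A - A * g) * (g' * B - B * g')) -
      Matrix.trace ((g' * A - A * g') * (g * B - B * g)) =
    Matrix.trace ((g * g' - g' * g) * (A * B - B * A)) := by
  simp only [Matrix.sub_mul, Matrix.mul_sub, Matrix.trace_sub]
  have c1 : ∀ X Z : Matrix P P K, Matrix.trace (X * Z) = Matrix.trace (Z * X) :=
    fun X Z => Matrix.trace_mul_comm X Z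
  have e1 : Matrix.trace (A * g * (B * g')) = Matrix.trace (g' * A * (g * B)) := by
    rw [c1 (g' * A)]
    simp only [Matrix.mul_assoc]
    rw [c1 A]
    simp only [Matrix.mul_assoc]
  have e2 : Matrix.trace (A * g' * (B * g)) = Matrix.trace (g * A * (g' * B)) := by
    rw [c1 (g * A)]
    simp only [Matrix.mul_assoc]
    rw [c1 A]
    simp only [Matrix.mul_assoc]
  have e3 : Matrix.trace (g * A * (B * g')) = Matrix.trace (g' * g * (A * B)) := by
    rw [← Matrix.mul_assoc (g * A), c1 _ g']
    simp only [Matrix.mul_assoc]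
  have e4 : Matrix.trace (A * g * (g' * B)) = Matrix.trace (g * g' * (B * A)) := by
    rw [Matrix.mul_assoc A, c1 A]
    simp only [Matrix.mul_assoc]
  have e5 : Matrix.trace (g' * A * (B * g)) = Matrix.trace (g * g' * (A * B)) := by
    rw [← Matrix.mul_assoc (g' * A), c1 _ g]
    simp only [Matrix.mul_assoc]
  have e6 : Matrix.trace (A * g' * (g * B)) = Matrix.trace (g' * g * (B * A)) := by
    rw [Matrix.mul_assoc A, c1 A]
    simp only [Matrix.mul_assoc]
  rw [e1, e2, e3, e4, e5, e6]
  ring

/-- the index set of the arrows -/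
abbrev NI (Q : QD K I E F) (c : P → I) :=
  {z : E × P × P // c z.2.1 = Q.tgt z.1 ∧ c z.2.2 = Q.src z.1} ⊕
    {z : P × F // c z.1 = Q.cF z.2}

/-- first half of the infinitesimal action -/
def ph1 (Q : QD K I E F) (c : P → I) (Ma : E → Matrix P P K) (Mi : Matrix P F K) :
    ({z : P × P // c z.1 = c z.2} → K) →ₗ[K] (NI Q c → K) where
  toFun g z := match z with
    | Sum.inl z => (toM c g * Ma z.1.1 - Ma z.1.1 * toM c g) z.1.2.1 z.1.2.2
    | Sum.inr z => (toM c g * Mi) z.1.1 z.1.2
  map_add' g g' := by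
    funext z
    rcases z with z | z
    · simp only [map_add, Matrix.add_mul, Matrix.mul_add, Pi.add_apply, Matrix.sub_apply,
        Matrix.add_apply]
      ring
    · simp only [map_add, Matrix.add_mul, Pi.add_apply, Matrix.add_apply]
  map_smul' a g := by
    funext z
    rcases z with z | z
    · simp only [map_smul, Matrix.smul_mul, Matrix.mul_smul, Pi.smul_apply, Matrix.sub_apply,
        Matrix.smul_apply, RingHom.id_apply, smul_eq_mul]
      ring
    · simp only [map_smul, Matrix.smul_mul, Pi.smul_apply, Matrix.smul_apply, RingHom.id_apply]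

/-- second half of the infinitesimal action -/
def ph2 (Q : QD K I E F) (c : P → I) (Mb : E → Matrix P P K) (Mj : Matrix F P K) :
    ({z : P × P // c z.1 = c z.2} → K) →ₗ[K] (NI Q c → K) where
  toFun g z := match z with
    | Sum.inl z => (toM c g * Mb z.1.1 - Mb z.1.1 * toM c g) z.1.2.2 z.1.2.1
    | Sum.inr z => -(Mj * toM c g) z.1.2 z.1.1
  map_add' g g' := by
    funext z
    rcases z with z | z
    · simp only [map_add, Matrix.add_mul, Matrix.mul_add, Pi.add_apply, Matrix.sub_apply,
        Matrix.add_apply]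
      ring
    · simp only [map_add, Matrix.mul_add, Pi.add_apply, Matrix.add_apply]
      ring
  map_smul' a g := by
    funext z
    rcases z with z | z
    · simp only [map_smul, Matrix.smul_mul, Matrix.mul_smul, Pi.smul_apply, Matrix.sub_apply,
        Matrix.smul_apply, RingHom.id_apply, smul_eq_mul]
      ring
    · simp only [map_smul, Matrix.mul_smul, Pi.smul_apply, Matrix.smul_apply, RingHom.id_apply,
        smul_eq_mul]
      ring

lemma supp_ga {Q : QD K I E F} {c : P → I} {Ma Mb : E → Matrix P P K} {Mi : Matrix P F K}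
    {Mj : Matrix F P K} (h : Mod Q c Ma Mb Mi Mj) (g : {z : P × P // c z.1 = c z.2} → K) (e : E)
    (r' r : P) (hne : (toM c g * Ma e - Ma e * toM c g) r' r ≠ 0) :
    c r' = Q.tgt e ∧ c r = Q.src e := by
  by_contra hcon
  apply hne
  rw [Matrix.sub_apply, Matrix.mul_apply, Matrix.mul_apply, sub_eq_zero]
  rw [sum_eq_zero, sum_eq_zero]
  · intro s _
    by_contra h1
    have h2 := h.sa e r' s (left_ne_zero_of_mul h1)
    have h3 := toM_supp c g (right_ne_zero_of_mul h1)
    exact hcon ⟨h2.1, h3.symm.trans h2.2⟩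
  · intro s _
    by_contra h1
    have h2 := h.sa e s r (right_ne_zero_of_mul h1)
    have h3 := toM_supp c g (left_ne_zero_of_mul h1)
    exact hcon ⟨h3.trans h2.1, h2.2⟩

lemma supp_gb {Q : QD K I E F} {c : P → I} {Ma Mb : E → Matrix P P K} {Mi : Matrix P F K}
    {Mj : Matrix F P K} (h : Mod Q c Ma Mb Mi Mj) (g : {z : P × P // c z.1 = c z.2} → K) (e : E)
    (r' r : P) (hne : (toM c g * Mb e - Mb e * toM c g) r' r ≠ 0) :
    c r' = Q.src e ∧ c r = Q.tgt e := by
  by_contra hcon
  apply hne
  rw [Matrix.sub_apply, Matrix.mul_apply, Matrix.mul_apply, sub_eq_zero]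
  rw [sum_eq_zero, sum_eq_zero]
  · intro s _
    by_contra h1
    have h2 := h.sb e r' s (left_ne_zero_of_mul h1)
    have h3 := toM_supp c g (right_ne_zero_of_mul h1)
    exact hcon ⟨h2.1, h3.symm.trans h2.2⟩
  · intro s _
    by_contra h1
    have h2 := h.sb e s r (right_ne_zero_of_mul h1)
    have h3 := toM_supp c g (left_ne_zero_of_mul h1)
    exact hcon ⟨h3.trans h2.1, h2.2⟩

lemma supp_gi {Q : QD K I E F} {c : P → I} {Ma Mb : E → Matrix P P K} {Mi : Matrix P F K}
    {Mj : Matrix F P K} (h : Mod Q c Ma Mb Mi Mj) (g : {z : P × P // c z.1 = c z.2} → K)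
    (r : P) (f : F) (hne : (toM c g * Mi) r f ≠ 0) : c r = Q.cF f := by
  by_contra hcon
  apply hne
  rw [Matrix.mul_apply]
  apply sum_eq_zero
  intro s _
  by_contra h1
  exact hcon ((toM_supp c g (left_ne_zero_of_mul h1)).trans (h.si s f (right_ne_zero_of_mul h1)))

lemma ph_pair {Q : QD K I E F} {c : P → I} {Ma Mb : E → Matrix P P K} {Mi : Matrix P F K}
    {Mj : Matrix F P K} (h : Mod Q c Ma Mb Mi Mj) (g g' : {z : P × P // c z.1 = c z.2} → K) :
    ∑ z, ph1 Q c Ma Mi g z * ph2 Q c Mb Mj g' z =
      ∑ e, Matrix.trace ((toM c g * Ma e - Ma e * toM c g) *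
        (toM c g' * Mb e - Mb e * toM c g')) -
      Matrix.trace (toM c g * Mi * (Mj * toM c g')) := by
  rw [Fintype.sum_sum_type, sub_eq_add_neg]
  congr 1
  · have e1 := sum_sub (fun z : E × P × P => c z.2.1 = Q.tgt z.1 ∧ c z.2.2 = Q.src z.1)
      (fun z => (toM c g * Ma z.1 - Ma z.1 * toM c g) z.2.1 z.2.2 *
        (toM c g' * Mb z.1 - Mb z.1 * toM c g') z.2.2 z.2.1)
    refine e1.trans ?_
    rw [Fintype.sum_prod_type]
    apply sum_congr rfl; intro e _
    rw [Fintype.sum_prod_type, Matrix.trace]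
    apply sum_congr rfl; intro r' _
    rw [Matrix.diag_apply, Matrix.mul_apply]
    apply sum_congr rfl; intro r _
    split_ifs with hh
    · rfl
    · symm
      apply mul_eq_zero_of_left
      by_contra h1
      exact hh (supp_ga h g e r' r h1)
  · have e1 := sum_sub (fun z : P × F => c z.1 = Q.cF z.2)
      (fun z => (toM c g * Mi) z.1 z.2 * -(Mj * toM c g') z.2 z.1)
    refine e1.trans ?_
    rw [Fintype.sum_prod_type, Matrix.trace, ← sum_neg_distrib]
    apply sum_congr rfl; intro r _
    rw [Matrix.diag_apply, Matrix.mul_apply, ← sum_neg_distrib]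
    apply sum_congr rfl; intro f _
    split_ifs with hh
    · ring
    · symm
      rw [neg_eq_zero]
      apply mul_eq_zero_of_left
      by_contra h1
      exact hh (supp_gi h g r f h1)

lemma ph_sym {Q : QD K I E F} {c : P → I} {Ma Mb : E → Matrix P P K} {Mi : Matrix P F K}
    {Mj : Matrix F P K} (h : Mod Q c Ma Mb Mi Mj) (g g' : {z : P × P // c z.1 = c z.2} → K) :
    ∑ z, ph1 Q c Ma Mi g z * ph2 Q c Mb Mj g' z = ∑ z, ph1 Q c Ma Mi g' z * ph2 Q c Mb Mj g z := by
  rw [ph_pair h, ph_pair h, ← sub_eq_zero]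
  have e1 : Matrix.trace (toM c g * Mi * (Mj * toM c g')) =
      Matrix.trace (toM c g' * toM c g * (Mi * Mj)) := by
    rw [← Matrix.mul_assoc (toM c g * Mi), Matrix.trace_mul_comm _ (toM c g')]
    simp only [Matrix.mul_assoc]
  have e2 : Matrix.trace (toM c g' * Mi * (Mj * toM c g)) =
      Matrix.trace (toM c g * toM c g' * (Mi * Mj)) := by
    rw [← Matrix.mul_assoc (toM c g' * Mi), Matrix.trace_mul_comm _ (toM c g)]
    simp only [Matrix.mul_assoc]
  rw [e1, e2]
  have e3 : (∑ e, Matrix.trace ((toM c g * Ma e - Ma e * toM c g) *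
        (toM c g' * Mb e - Mb e * toM c g')) -
      Matrix.trace (toM c g' * toM c g * (Mi * Mj))) -
      (∑ e, Matrix.trace ((toM c g' * Ma e - Ma e * toM c g') *
        (toM c g * Mb e - Mb e * toM c g)) -
      Matrix.trace (toM c g * toM c g' * (Mi * Mj))) =
      Matrix.trace ((toM c g * toM c g' - toM c g' * toM c g) *
        (∑ e, (Ma e * Mb e - Mb e * Ma e) + Mi * Mj)) := by
    rw [Matrix.mul_add, Matrix.trace_add, Matrix.mul_sum, Matrix.trace_sum, Matrix.sub_mul _ _ (Mi * Mj),
      Matrix.trace_sub]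
    have : ∀ e, Matrix.trace ((toM c g * toM c g' - toM c g' * toM c g) *
        (Ma e * Mb e - Mb e * Ma e)) =
        Matrix.trace ((toM c g * Ma e - Ma e * toM c g) *
        (toM c g' * Mb e - Mb e * toM c g')) -
        Matrix.trace ((toM c g' * Ma e - Ma e * toM c g') *
        (toM c g * Mb e - Mb e * toM c g)) := fun e => (trace_id _ _ _ _).symm
    simp_rw [this]
    rw [sum_sub_distrib]
    ring
  rw [e3, h.mom, Matrix.mul_zero, Matrix.trace_zero]

lemma ph_inj {Q : QD K I E F} {c : P → I} {Ma Mb : E → Matrix P P K} {Mi : Matrix P F K}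
    {Mj : Matrix F P K} (h : Mod Q c Ma Mb Mi Mj) (g : {z : P × P // c z.1 = c z.2} → K)
    (h1 : ph1 Q c Ma Mi g = 0) (h2 : ph2 Q c Mb Mj g = 0) : g = 0 := by
  apply toM_inj
  have ha : ∀ e, toM c g * Ma e = Ma e * toM c g := by
    intro e
    rw [← sub_eq_zero]
    ext r' r
    by_contra hne
    have hs := supp_ga h g e r' r hne
    exact hne (congrFun h1 (Sum.inl ⟨(e, r', r), hs⟩))
  have hb : ∀ e, toM c g * Mb e = Mb e * toM c g := by
    intro e
    rw [← sub_eq_zero]
    ext r' r
    by_contra hne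
    have hs := supp_gb h g e r' r hne
    exact hne (congrFun h2 (Sum.inl ⟨(e, r, r'), hs.2, hs.1⟩))
  have hi : toM c g * Mi = 0 := by
    ext r f
    by_contra hne
    have hs := supp_gi h g r f hne
    exact hne (congrFun h1 (Sum.inr ⟨(r, f), hs⟩))
  have hU := h.st (LinearMap.ker (Matrix.mulVecLin (toM c g))) ?_ ?_ ?_ ?_
  · ext r r'
    have h3 : (Pi.single r' 1 : P → K) ∈ LinearMap.ker (Matrix.mulVecLin (toM c g)) := by
      rw [hU]; trivial
    rw [LinearMap.mem_ker, Matrix.mulVecLin_apply] at h3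
    have h4 := congrFun h3 r
    simpa using h4
  · intro i u hu
    rw [LinearMap.mem_ker, Matrix.mulVecLin_apply] at hu ⊢
    funext r
    have h3 := congrFun hu r
    simp only [Matrix.mulVec, dotProduct, Pi.zero_apply] at h3 ⊢
    by_cases hr : c r = i
    · rw [← h3]
      apply sum_congr rfl
      intro s _
      by_cases hs : c s = i
      · rw [if_pos hs]
      · rw [if_neg hs]
        have : toM c g r s = 0 := by
          by_contra h5
          exact hs ((toM_supp c g h5).symm.trans hr)
        rw [this]; ring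
    · apply sum_eq_zero
      intro s _
      by_cases hs : c s = i
      · have : toM c g r s = 0 := by
          by_contra h5
          exact hr ((toM_supp c g h5).trans hs)
        rw [this]; ring
      · rw [if_neg hs]; ring
  · intro f
    rw [LinearMap.mem_ker, Matrix.mulVecLin_apply]
    funext r
    have h3 := congrFun (congrFun hi r) f
    rw [Matrix.mul_apply] at h3
    simpa [Matrix.mulVec, dotProduct] using h3
  · intro e u hu
    rw [LinearMap.mem_ker, Matrix.mulVecLin_apply] at hu ⊢
    rw [Matrix.mulVec_mulVec, ha, ← Matrix.mulVec_mulVec, hu, Matrix.mulVec_zero]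
  · intro e u hu
    rw [LinearMap.mem_ker, Matrix.mulVecLin_apply] at hu ⊢
    rw [Matrix.mulVec_mulVec, hb, ← Matrix.mulVec_mulVec, hu, Matrix.mulVec_zero]

/-- dimension of a component -/
def dv (c : P → I) (i : I) : ℕ := (univ.filter fun r => c r = i).card

lemma card_pair {X Z : Type*} [Fintype X] [Fintype Z] (f : X → I) (g : Z → I) :
    Fintype.card {z : X × Z // f z.1 = g z.2} =
      ∑ i, (univ.filter fun r => f r = i).card * (univ.filter fun r => g r = i).card := by
  classical
  rw [Fintype.card_subtype]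
  have : (univ.filter fun z : X × Z => f z.1 = g z.2) =
      univ.biUnion fun i => (univ.filter fun r => f r = i) ×ˢ (univ.filter fun r => g r = i) := by
    ext z
    simp only [mem_filter, mem_univ, true_and, mem_biUnion, mem_product]
    constructor
    · intro h
      exact ⟨f z.1, rfl, h.symm⟩
    · rintro ⟨i, h1, h2⟩
      exact h1.trans h2.symm
  rw [this, card_biUnion]
  · simp only [card_product]
  · intro i _ j _ hij
    rw [Function.onFun, disjoint_left]
    intro z hz hz'
    simp only [mem_product, mem_filter, mem_univ, true_and] at hz hz'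
    exact hij (hz.1.symm.trans hz'.1)

lemma card_NI (Q : QD K I E F) (c : P → I) :
    Fintype.card (NI Q c) = ∑ e, dv c (Q.src e) * dv c (Q.tgt e) + ∑ f, dv c (Q.cF f) := by
  rw [Fintype.card_sum]
  congr 1
  · rw [Fintype.card_subtype]
    have : (univ.filter fun z : E × P × P => c z.2.1 = Q.tgt z.1 ∧ c z.2.2 = Q.src z.1).card =
        ∑ z : E × P × P, if c z.2.1 = Q.tgt z.1 ∧ c z.2.2 = Q.src z.1 then 1 else 0 := by
      rw [card_filter]
    rw [this, Fintype.sum_prod_type]
    apply sum_congr rfl; intro e _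
    rw [Fintype.sum_prod_type, mul_comm]
    unfold dv
    rw [card_filter, card_filter, sum_mul_sum]
    apply sum_congr rfl; intro r _
    apply sum_congr rfl; intro r' _
    split_ifs <;> simp_all
  · rw [Fintype.card_subtype, card_filter, Fintype.sum_prod_type, sum_comm]
    apply sum_congr rfl; intro f _
    unfold dv
    rw [card_filter]

/-- the dimension inequality -/
theorem dim_ineq {Q : QD K I E F} {c : P → I} {Ma Mb : E → Matrix P P K} {Mi : Matrix P F K}
    {Mj : Matrix F P K} (h : Mod Q c Ma Mb Mi Mj) :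
    ∑ i, dv c i * dv c i ≤ ∑ e, dv c (Q.src e) * dv c (Q.tgt e) + ∑ f, dv c (Q.cF f) := by
  have h1 := iso_dim (ph1 Q c Ma Mi) (ph2 Q c Mb Mj) (ph_sym h) (ph_inj h)
  rw [Module.finrank_fintype_fun_eq_card, card_NI, card_pair c c] at h1
  exact h1

end Pool.Agent.Run7.h657
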