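import Pool.Agent.Run7.h657.Ind

/-! The induction step and the product formula. -/

set_option linter.unusedSectionVars false

namespace Pool.Agent.Run7.h657

open Finset Module

variable {K : Type*} [Field K]
variable {I E F P : Type*} [Fintype I] [Fintype E] [Fintype F] [Fintype P] [DecidableEq I]
  [DecidableEq P] [DecidableEq E] [DecidableEq F]

variable {Q : QD K I E F} {p t : K} {c : P → I} {x : P → K} {Ma Mb : E → Matrix P P K}
  {Mi : Matrix P F K} {Mj : Matrix F P K}

open Classical in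
lemma dv_restrict (h : Good Q p t c x Ma Mb Mi Mj) (hl : ∀ e, Q.src e ≠ Q.tgt e)
    (hte : ∀ e, Q.te e ≠ 0) (ht : t ≠ 0) (i : I) :
    dv (fun r : VP c i Ma Mb Mj => c r.1) =
      Function.update (dv c) i (Fintype.card (VB Q t c x i)) := by
  funext j
  by_cases hj : j = i
  · subst hj
    rw [Function.update_self]
    unfold dv
    rw [← Fintype.card_subtype]
    apply Fintype.card_congr
    refine ⟨fun r => ⟨⟨r.1.1, r.2⟩, ?_⟩, fun b => ⟨⟨b.1.1, Or.inr ?_⟩, b.1.2⟩, ?_, ?_⟩
    · rcases r.1.2 with h1 | h1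
      · exact absurd r.2 h1
      · exact (h.out_l hl hte ht j ⟨r.1.1, r.2⟩).1 h1
    · exact (h.out_l hl hte ht j b.1).2 b.2
    · intro r; rfl
    · intro b; rfl
  · rw [Function.update_of_ne hj]
    unfold dv
    rw [← Fintype.card_subtype, ← Fintype.card_subtype]
    apply Fintype.card_congr
    refine ⟨fun r => ⟨r.1.1, r.2⟩, fun r => ⟨⟨r.1, Or.inl fun h' => hj (r.2.symm.trans h')⟩, r.2⟩,
      ?_, ?_⟩
    · intro r; rfl
    · intro b; rfl

/-- zero dimensionality -/
def ZD (Q : QD K I E F) (c : P → I) : Prop :=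
  ∑ e, dv c (Q.src e) * dv c (Q.tgt e) + ∑ f, dv c (Q.cF f) = ∑ i, dv c i * dv c i

open Classical in
/-- numerical consequences -/
lemma numerics (h : Good Q p t c x Ma Mb Mi Mj) (hl : ∀ e, Q.src e ≠ Q.tgt e)
    (hte : ∀ e, Q.te e ≠ 0) (ht : t ≠ 0) (i : I) (hz : ZD Q c) (hμ : muv Q c i < 0) :
    Fintype.card (VL Q c i) = Fintype.card (VA c i) + Fintype.card (VB Q t c x i) ∧
    ZD Q (fun r : VP c i Ma Mb Mj => c r.1) := by
  obtain ⟨R, S, T, hRST⟩ := euler_update Q hl i (dv c)
  have hid : Function.update (dv c) i (dv c i) = dv c := Function.update_eq_self _ _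
  have h1 := hRST (dv c i)
  rw [hid] at h1
  have h2 := hRST (Fintype.card (VB Q t c x i))
  rw [← dv_restrict h hl hte ht i] at h2
  have h3 := dim_ineq (h.restrict i).toMod
  have hN := card_VL Q hl c i
  have hA := card_VA c i
  obtain ⟨j, hj, _, _⟩ := h.inj hl hte ht i
  have h4 := Fintype.card_le_of_injective j hj
  rw [Fintype.card_sum, hA] at h4
  have h5 : Fintype.card (VB Q t c x i) ≤ Fintype.card (VA c i) :=
    Fintype.card_le_of_injective Subtype.val Subtype.val_injective
  rw [hA] at h5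
  unfold ZD at hz ⊢
  unfold muv at hμ
  rw [h1.1, h1.2.1, h1.2.2] at hz
  rw [h2.1, h2.2.1, h2.2.2] at h3 ⊢
  rw [hA]
  set k := dv c i with hk
  set k' := Fintype.card (VB Q t c x i) with hk'
  set EE := Et Q i (dv c) + Es Q i (dv c) with hEE
  set NF := (univ.filter fun f => Q.cF f = i).card with hNF
  rw [hN] at h4 ⊢
  have hμ' : NF + EE < 2 * k := by omega
  obtain ⟨s, hs⟩ := Nat.exists_eq_add_of_le h5
  have hs0 : 0 < s := by omega
  rw [hs] at hz h4 hμ' ⊢
  have h6 : s * (EE + NF) ≤ s * (2 * k' + s) := by nlinarith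
  have h7 : EE + NF ≤ 2 * k' + s := Nat.le_of_mul_le_mul_left h6 hs0
  have h8 : EE + NF = 2 * k' + s := by omega
  refine ⟨by omega, ?_⟩
  nlinarith

open Classical in
/-- the equivalence of the quotient with its parts -/
noncomputable def eVP (h : Good Q p t c x Ma Mb Mi Mj) (hl : ∀ e, Q.src e ≠ Q.tgt e)
    (hte : ∀ e, Q.te e ≠ 0) (ht : t ≠ 0) (i : I) :
    VB Q t c x i ⊕ VY c i ≃ VP c i Ma Mb Mj where
  toFun := Sum.elim (fun b => ⟨b.1.1, Or.inr ((h.out_l hl hte ht i b.1).2 b.2)⟩)
    (fun y => ⟨y.1, Or.inl y.2⟩)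
  invFun r := if hr : c r.1 = i then Sum.inl ⟨⟨r.1, hr⟩, by
      rcases r.2 with h1 | h1
      · exact absurd hr h1
      · exact (h.out_l hl hte ht i ⟨r.1, hr⟩).1 h1⟩
    else Sum.inr ⟨r.1, hr⟩
  left_inv := by
    rintro (b | y)
    · simp only [Sum.elim_inl]
      rw [dif_pos b.1.2]
    · simp only [Sum.elim_inr]
      rw [dif_neg y.2]
  right_inv := by
    intro r
    by_cases hr : c r.1 = i
    · simp only [dif_pos hr, Sum.elim_inl]
    · simp only [dif_neg hr, Sum.elim_inr]

lemma muv_restrict (Q : QD K I E F) {P' : Type*} [Fintype P'] (hl : ∀ e, Q.src e ≠ Q.tgt e)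
    (c : P → I) (c' : P' → I) (i : I) (k' : ℕ) (hdv : dv c' = Function.update (dv c) i k') (j : I) :
    muv Q c' j = muv Q c j + ((nE Q i j : ℤ) - if j = i then 2 else 0) * ((k' : ℤ) - dv c i) := by
  unfold muv
  rw [E_cast, E_cast, hdv]
  have h1 : ∀ l, ((Function.update (dv c) i k' l : ℕ) : ℤ) =
      (dv c l : ℤ) + if l = i then (k' : ℤ) - dv c i else 0 := by
    intro l
    by_cases hl' : l = i
    · subst hl'; simp
    · simp [Function.update_of_ne hl', hl']
  simp only [h1, mul_add, sum_add_distrib, mul_ite, mul_zero, sum_ite_eq', mem_univ, if_true]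
  rw [nE_symm Q j i]
  split_ifs <;> ring

lemma bv_restrict (Q : QD K I E F) {P' : Type*} [Fintype P'] (hl : ∀ e, Q.src e ≠ Q.tgt e)
    (c : P → I) (c' : P' → I) (i : I) (k' : ℕ) (hdv : dv c' = Function.update (dv c) i k') (j : I) :
    bv Q c' j = bv Q c j + ((if j = i then 1 else 0) -
      ((univ.filter fun e => Q.src e = j ∧ Q.tgt e = i).card : ℤ)) * ((k' : ℤ) - dv c i) := by
  unfold bv
  rw [Es_cast, Es_cast, hdv]
  have h1 : ∀ l, ((Function.update (dv c) i k' l : ℕ) : ℤ) =
      (dv c l : ℤ) + if l = i then (k' : ℤ) - dv c i else 0 := by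
    intro l
    by_cases hl' : l = i
    · subst hl'; simp
    · simp [Function.update_of_ne hl', hl']
  simp only [h1, mul_add, sum_add_distrib, mul_ite, mul_zero, sum_ite_eq', mem_univ, if_true]
  split_ifs <;> ring

lemma Et_cast (Q : QD K I E F) (i : I) (d : I → ℕ) :
    (Et Q i d : ℤ) =
      ∑ j, (d j : ℤ) * ((univ.filter fun e => Q.src e = j ∧ Q.tgt e = i).card : ℤ) := by
  unfold Et
  push_cast
  rw [sum_edge_in Q i (fun j => (d j : ℤ))]
  apply sum_congr rfl
  intro j _
  rw [mul_comm]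
  congr 3
  ext e
  simp only [mem_filter, mem_univ, true_and]
  tauto

open Classical in
/-- the induction step -/
theorem claim_step (ok : Ok p t) (h : Good Q p t c x Ma Mb Mi Mj)
    (hl : ∀ e, Q.src e ≠ Q.tgt e) (hte : ∀ e, Q.te e ≠ 0) (i : I) (hz : ZD Q c)
    (hμ : muv Q c i < 0)
    (ih : Claim Q p t (fun r : VP c i Ma Mb Mj => c r.1) (fun r => x r.1)) :
    Claim Q p t c x := by
  have ht := ok.ht
  obtain ⟨hcard, hz'⟩ := numerics h hl hte ht i hz hμ
  have hw := h.lab hl hte ht i hcard.le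
  have hdv := dv_restrict h hl hte ht i
  have hVL := card_VL Q hl c i
  have hVA := card_VA c i
  have hVB : Fintype.card (VB Q t c x i) ≤ Fintype.card (VA c i) :=
    Fintype.card_le_of_injective Subtype.val Subtype.val_injective
  -- the series step
  have hstep := Vs_step Q ok i hl hte (fun y : VY c i => c y.1) (fun y => y.2)
    (fun a : VA c i => x a.1) (fun y : VY c i => x y.1) (fun a => h.x0 _) (fun y => h.x0 _)
    Subtype.val hw
  have e1 : Vs Q p t (Sum.elim (fun _ : VA c i => i) (fun y : VY c i => c y.1))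
      (Sum.elim (fun a : VA c i => x a.1) (fun y : VY c i => x y.1)) = Vs Q p t c x := by
    have h1 := Vs_equiv Q p t c x (Equiv.sumCompl (fun r => c r = i))
    rw [← h1]
    congr 1
    · funext z
      rcases z with a | y
      · exact a.2.symm
      · rfl
    · funext z
      rcases z with a | y <;> rfl
  have e2 : Vs Q p t (Sum.elim (fun _ : VB Q t c x i => i) (fun y : VY c i => c y.1))
      (Sum.elim (fun b : VB Q t c x i => x b.1.1) (fun y : VY c i => x y.1)) =
      Vs Q p t (fun r : VP c i Ma Mb Mj => c r.1) (fun r => x r.1) := by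
    have h1 := Vs_equiv Q p t (fun r : VP c i Ma Mb Mj => c r.1) (fun r => x r.1)
      (eVP h hl hte ht i)
    rw [← h1]
    congr 1
    · funext z
      rcases z with b | y
      · exact b.1.2.symm
      · rfl
    · funext z
      rcases z with b | y <;> rfl
  rw [e1, e2, card_out Q hl c i] at hstep
  obtain ⟨R', hR', hV'⟩ := ih
  rw [hV'] at hstep
  set c' : VP c i Ma Mb Mj → I := fun r => c r.1 with hc'
  set k := Fintype.card (VA c i) with hk
  set k' := Fintype.card (VB Q t c x i) with hk'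
  have hmuv := muv_restrict Q hl c c' i k' hdv
  have hbv := bv_restrict Q hl c c' i k' hdv
  -- the weight at the vertex
  have hμk : muv Q c i = (k' : ℤ) - k := by
    unfold muv
    have h1 : (Fintype.card (VL Q c i) : ℤ) = (k : ℤ) + k' := by rw [hcard]; push_cast; ring
    rw [hVL] at h1
    push_cast at h1 ⊢
    rw [← hVA]
    linarith
  have hdk : (dv c i : ℤ) = k := by rw [hVA]
  have hnEi : (nE Q i i : ℤ) = 0 := by rw [nE_self Q hl]; rfl
  have hμi : muv Q c' i = -muv Q c i := by
    rw [hmuv, hnEi, if_pos rfl, hdk, hμk]; ring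
  have hμ' : ∀ β : I →₀ ℕ, (rQ Q hl i).C β →
      pr β (muv Q c') = pr ((rQ Q hl i).s β) (muv Q c) := by
    intro β hC
    rw [pr_s Q hl i _ hC, E_cast, hμk]
    unfold pr
    simp only [hmuv, hdk]
    simp only [mul_add, sum_add_distrib, sub_mul, mul_sub, ite_mul, zero_mul, mul_ite, mul_zero,
      sum_sub_distrib, sum_ite_eq', mem_univ, if_true, sum_mul]
    have h2 : ∀ u : ℤ, ∑ j, (β j : ℤ) * ((nE Q i j : ℤ) * u) =
        ∑ j, (nE Q i j : ℤ) * (β j : ℤ) * u := by
      intro u
      apply sum_congr rfl; intro j _; ring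
    rw [h2, h2]
    ring
  obtain ⟨hR1, hR2⟩ := root_step Q hl i (muv Q c) (muv Q c') hμ hμ' hμi R' hR'
  refine ⟨insert (Finsupp.single i 1) (R'.image (rQ Q hl i).s), hR2, ?_⟩
  rw [hstep]
  have hpf := PF_step Q ok hl i
    (chi Q i (Es Q i (dv c) : ℕ) k k') R'
    (fun α => (-pr α (muv Q c)).toNat) (fun α => (-pr α (muv Q c')).toNat) (bv Q c) (bv Q c')
    (fun β hβ => (hR1 β hβ).2)
    (fun β hβ => by rw [hμ' β (hR1 β hβ).2.1])
    (fun β hβ => by
      have hC := (hR1 β hβ).2.1
      rw [chi_apply, pr_s Q hl i _ hC]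
      have h1 : Et Q i ((rQ Q hl i).s β) + Es Q i ((rQ Q hl i).s β) = Et Q i β + Es Q i β :=
        (rQ Q hl i).E_s β
      have h2 : Es Q i ((rQ Q hl i).s β) = Es Q i β := by
        unfold Es
        apply sum_congr rfl
        intro e he
        rw [mem_filter] at he
        exact Rfl.s_ne _ _ (fun h => hl e (he.2.trans h.symm))
      have h3 : (((rQ Q hl i).s β i : ℕ) : ℤ) = (Et Q i β + Es Q i β : ℕ) - β i := by
        have h4 : (rQ Q hl i).s β i = (Et Q i β + Es Q i β) - β i := (rQ Q hl i).s_i β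
        have hC' : β i ≤ Et Q i β + Es Q i β := hC
        rw [h4, Nat.cast_sub hC']
      rw [h1, h2, h3]
      have h5 : pr β (bv Q c') = pr β (bv Q c) + ((β i : ℤ) - Et Q i β) * ((k' : ℤ) - k) := by
        unfold pr
        simp only [hbv, hdk]
        rw [Et_cast]
        simp only [mul_add, sum_add_distrib, sub_mul, mul_sub, ite_mul, zero_mul, one_mul, mul_ite,
          mul_zero, sum_sub_distrib, sum_ite_eq', mem_univ, if_true, sum_mul]
        have h6 : ∀ u : ℤ, ∑ j, (β j : ℤ) *
            (((univ.filter fun e => Q.src e = j ∧ Q.tgt e = i).card : ℤ) * u) =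
            ∑ j, (β j : ℤ) * ((univ.filter fun e => Q.src e = j ∧ Q.tgt e = i).card : ℤ) * u := by
          intro u
          apply sum_congr rfl; intro j _; ring
        rw [h6, h6]
      rw [h5]
      have h7 : bv Q c i = (k : ℤ) - Es Q i (dv c) := by
        unfold bv; rw [hdk]
      rw [h7]
      push_cast
      ring)
  rw [hpf]
  have hgg := ev_gG ok k' k i (Es Q i (dv c) : ℕ)
  rw [hgg]
  unfold PF
  rw [prod_insert]
  · congr 1
    have hsingle : ∀ ν : I → ℤ, pr (Finsupp.single i 1) ν = ν i := by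
      intro ν
      unfold pr
      rw [sum_eq_single i]
      · simp
      · intro j _ hj
        simp [Finsupp.single_apply, Ne.symm hj]
      · simp
    have h8 : (-pr (Finsupp.single i 1) (muv Q c)).toNat = k - k' := by
      rw [hsingle, hμk]; omega
    simp only [h8]
    apply prod_congr rfl
    intro l _
    congr 2
    rw [hsingle]
    unfold bv
    rw [hdk]
  · rw [mem_image]
    rintro ⟨β, hβ, hs⟩
    have h9 := (rQ Q hl i).C_s β
    rw [hs] at h9
    unfold Rfl.C at h9
    rw [rQ_E] at h9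
    have h10 : Et Q i (⇑(Finsupp.single i 1)) + Es Q i (⇑(Finsupp.single i 1)) = 0 := by
      unfold Et Es
      rw [Nat.add_eq_zero_iff]
      constructor
      · apply sum_eq_zero
        intro e he
        rw [mem_filter] at he
        rw [Finsupp.single_apply, if_neg (fun h => hl e (h.symm.trans he.2.symm))]
      · apply sum_eq_zero
        intro e he
        rw [mem_filter] at he
        rw [Finsupp.single_apply, if_neg (fun h => hl e (he.2.trans h))]
    rw [h10] at h9
    simp at h9

/-- a vertex with negative weight exists -/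
lemma exists_neg (h : Good Q p t c x Ma Mb Mi Mj) (hz : ZD Q c) (r0 : P) :
    ∃ i, muv Q c i < 0 := by
  by_contra hcon
  push Not at hcon
  obtain ⟨r, f, hrf⟩ := h.has_fr r0
  have hrf' := ((h.i_iff r f).1 hrf).1
  have h1 : ∑ i, (dv c i : ℤ) * muv Q c i = -∑ f, (dv c (Q.cF f) : ℤ) := by
    have h2 : ∀ i, (dv c i : ℤ) * muv Q c i =
        (dv c i : ℤ) * ((univ.filter fun f => Q.cF f = i).card : ℤ) +
        ((dv c i : ℤ) * (∑ e with Q.tgt e = i, (dv c (Q.src e) : ℤ)) +
        (dv c i : ℤ) * (∑ e with Q.src e = i, (dv c (Q.tgt e) : ℤ))) -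
        2 * ((dv c i : ℤ) * dv c i) := by
      intro i
      unfold muv Et Es
      push_cast
      ring
    simp_rw [h2]
    rw [sum_sub_distrib, sum_add_distrib, sum_add_distrib, ← mul_sum]
    have h3 : ∑ i, (dv c i : ℤ) * ∑ e with Q.tgt e = i, (dv c (Q.src e) : ℤ) =
        ∑ e, (dv c (Q.src e) : ℤ) * dv c (Q.tgt e) := by
      simp_rw [mul_sum, sum_filter]
      rw [sum_comm]
      apply sum_congr rfl
      intro e _
      rw [sum_ite_eq, if_pos (mem_univ _)]
      ring
    have h4 : ∑ i, (dv c i : ℤ) * ∑ e with Q.src e = i, (dv c (Q.tgt e) : ℤ) =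
        ∑ e, (dv c (Q.src e) : ℤ) * dv c (Q.tgt e) := by
      simp_rw [mul_sum, sum_filter]
      rw [sum_comm]
      apply sum_congr rfl
      intro e _
      rw [sum_ite_eq, if_pos (mem_univ _)]
    have h5 : ∑ i, (dv c i : ℤ) * ((univ.filter fun f => Q.cF f = i).card : ℤ) =
        ∑ f, (dv c (Q.cF f) : ℤ) := by
      have : ∀ i, (dv c i : ℤ) * ((univ.filter fun f => Q.cF f = i).card : ℤ) =
          ∑ f, if Q.cF f = i then (dv c i : ℤ) else 0 := by
        intro i
        rw [card_filter, Nat.cast_sum, mul_sum]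
        apply sum_congr rfl
        intro f _
        split_ifs <;> simp
      simp_rw [this]
      rw [sum_comm]
      apply sum_congr rfl
      intro f _
      rw [sum_ite_eq, if_pos (mem_univ _)]
    rw [h3, h4, h5]
    have h6 : (∑ e, (dv c (Q.src e) : ℤ) * dv c (Q.tgt e)) + ∑ f, (dv c (Q.cF f) : ℤ) =
        ∑ i, (dv c i : ℤ) * dv c i := by exact_mod_cast hz
    linarith
  have h2 : 0 ≤ ∑ i, (dv c i : ℤ) * muv Q c i :=
    sum_nonneg fun i _ => mul_nonneg (Int.natCast_nonneg _) (hcon i)
  have h3 : (1 : ℤ) ≤ ∑ f, (dv c (Q.cF f) : ℤ) := by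
    have h4 : (1 : ℤ) ≤ dv c (Q.cF f) := by
      have : 0 < dv c (Q.cF f) := card_pos.2 ⟨r, by simp [hrf']⟩
      exact_mod_cast this
    exact h4.trans (single_le_sum (f := fun f => (dv c (Q.cF f) : ℤ))
      (fun _ _ => Int.natCast_nonneg _) (mem_univ f))
  omega

/-- the product formula -/
theorem claim_all {Q : QD K I E F} {p t : K} (ok : Ok p t) (hl : ∀ e, Q.src e ≠ Q.tgt e)
    (hte : ∀ e, Q.te e ≠ 0) (N : ℕ) :
    ∀ (P : Type*) [Fintype P] [DecidableEq P] (c : P → I) (x : P → K)
      (Ma Mb : E → Matrix P P K) (Mi : Matrix P F K) (Mj : Matrix F P K),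
      Fintype.card P = N → Good Q p t c x Ma Mb Mi Mj → ZD Q c → Claim Q p t c x := by
  induction N using Nat.strong_induction_on with
  | _ N ih =>
  intro P _ _ c x Ma Mb Mi Mj hN h hz
  rcases isEmpty_or_nonempty P with hP | ⟨⟨r0⟩⟩
  · exact claim_empty Q p t c x
  · obtain ⟨i, hi⟩ := exists_neg h hz r0
    classical
    obtain ⟨hcard, hz'⟩ := numerics h hl hte ok.ht i hz hi
    refine claim_step ok h hl hte i hz hi ?_
    have hlt : Fintype.card (VP c i Ma Mb Mj) < N := by
      rw [← hN]
      by_contra hcon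
      push Not at hcon
      have h1 : Fintype.card (VP c i Ma Mb Mj) = Fintype.card P :=
        le_antisymm (Fintype.card_le_of_injective Subtype.val Subtype.val_injective) hcon
      have h2 : dv (fun r : VP c i Ma Mb Mj => c r.1) i = dv c i := by
        have h3 : Function.Bijective (Subtype.val : VP c i Ma Mb Mj → P) := by
          rw [Fintype.bijective_iff_injective_and_card]
          exact ⟨Subtype.val_injective, h1⟩
        unfold dv
        rw [← Fintype.card_subtype, ← Fintype.card_subtype]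
        apply Fintype.card_congr
        refine Equiv.ofBijective (fun r => ⟨r.1.1, r.2⟩) ⟨?_, ?_⟩
        · intro a b hab
          exact Subtype.ext (Subtype.ext (congrArg (fun z : {x // c x = i} => z.1) hab))
        · intro b
          obtain ⟨a, ha⟩ := h3.2 b.1
          exact ⟨⟨a, by show c a.1 = i; rw [ha]; exact b.2⟩, Subtype.ext ha⟩
      rw [dv_restrict h hl hte ok.ht i, Function.update_self] at h2
      have h4 := card_VL Q hl c i
      have h5 := card_VA c i
      unfold muv at hi
      omega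
    exact ih _ hlt (VP c i Ma Mb Mj) _ _ _ _ _ _ rfl (h.restrict i) hz'

end Pool.Agent.Run7.h657
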