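import Pool.Agent.Run7.h657.Poch

/-! The generic duality identity. -/

set_option linter.unusedSectionVars false

namespace Pool.Agent.Run7.h657

open Finset Polynomial

variable {K : Type*} [Field K]
variable {I J : Type*} [Fintype I] [Fintype J] [DecidableEq I] [DecidableEq J]

/-- genericity -/
structure Gen (p t : K) (x : I → K) (y : J → K) : Prop where
  hx : ∀ a, x a ≠ 0
  hy : ∀ b, y b ≠ 0
  xx : ∀ a a', a ≠ a' → ∀ l m : ℤ, x a ≠ x a' * t ^ l * p ^ m
  yy : ∀ b b', b ≠ b' → ∀ l m : ℤ, y b ≠ y b' * t ^ l * p ^ m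
  xy : ∀ a b a' b', (a, b) ≠ (a', b') → ∀ m : ℤ, x a * y b ≠ x a' * y b' * p ^ m

/-- no poles -/
def NV (p : K) (x : I → K) (y : J → K) : Prop := ∀ a b, ∀ l : ℕ, x a * y b * p ^ (l + 1) ≠ 1

/-- the difference of the coefficients of the two sides -/
noncomputable def idn (p t : K) (x : I → K) (y : J → K) (n : ℕ) : K :=
  (∑ z ∈ antidiagonal n, PowerSeries.coeff z.1 (gser p t (Fintype.card J)) * cf p t x y z.2) -
  (∑ z ∈ antidiagonal n, PowerSeries.coeff z.1 (gser p t (Fintype.card I)) * cf p t y x z.2)

lemma idn_eq (p t : K) (x : I → K) (y : J → K) (n : ℕ) :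
    idn p t x y n = PowerSeries.coeff n (gser p t (Fintype.card J) * ser p t x y) -
      PowerSeries.coeff n (gser p t (Fintype.card I) * ser p t y x) := by
  simp [idn, PowerSeries.coeff_mul, ser]

lemma Gen.symm {p t : K} {x : I → K} {y : J → K} (h : Gen p t x y) : Gen p t y x where
  hx := h.hy
  hy := h.hx
  xx := h.yy
  yy := h.xx
  xy := by
    intro b a b' a' hne m
    rw [mul_comm (y b), mul_comm (y b')]
    exact h.xy a b a' b' (by intro hh; apply hne; simp_all) m

lemma upd_pow (p : K) (x : I → K) (a0 : I) (j : ℕ) (a : I) :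
    ∃ e : ℤ, ∀ _ : p ≠ 0, Function.update x a0 (x a0 * p ^ j) a = x a * p ^ e := by
  by_cases h : a = a0
  · subst h; exact ⟨j, by intro _; simp⟩
  · exact ⟨0, by intro _; simp [h]⟩

lemma Gen.upd {p t : K} (hp : p ≠ 0) {x : I → K} {y : J → K} (h : Gen p t x y) (a0 : I) (b0 : J)
    (j : ℕ) :
    Gen p t (Function.update x a0 (x a0 * p ^ j)) (Function.update y b0 (y b0 * p ^ j)) where
  hx a := by
    obtain ⟨e, he⟩ := upd_pow p x a0 j a
    rw [he hp]; exact mul_ne_zero (h.hx a) (zpow_ne_zero _ hp)
  hy b := by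
    obtain ⟨e, he⟩ := upd_pow p y b0 j b
    rw [he hp]; exact mul_ne_zero (h.hy b) (zpow_ne_zero _ hp)
  xx a a' hne l m := by
    obtain ⟨e, he⟩ := upd_pow p x a0 j a
    obtain ⟨e', he'⟩ := upd_pow p x a0 j a'
    rw [he hp, he' hp]
    intro hh
    apply h.xx a a' hne l (e' + m - e)
    rw [zpow_sub₀ hp, zpow_add₀ hp]
    field_simp
    linear_combination hh
  yy a a' hne l m := by
    obtain ⟨e, he⟩ := upd_pow p y b0 j a
    obtain ⟨e', he'⟩ := upd_pow p y b0 j a'
    rw [he hp, he' hp]
    intro hh
    apply h.yy a a' hne l (e' + m - e)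
    rw [zpow_sub₀ hp, zpow_add₀ hp]
    field_simp
    linear_combination hh
  xy a b a' b' hne m := by
    obtain ⟨e, he⟩ := upd_pow p x a0 j a
    obtain ⟨e', he'⟩ := upd_pow p x a0 j a'
    obtain ⟨f, hf⟩ := upd_pow p y b0 j b
    obtain ⟨f', hf'⟩ := upd_pow p y b0 j b'
    rw [he hp, he' hp, hf hp, hf' hp]
    intro hh
    apply h.xy a b a' b' hne (e' + f' + m - e - f)
    rw [zpow_sub₀ hp, zpow_sub₀ hp, zpow_add₀ hp, zpow_add₀ hp]
    field_simp
    linear_combination hh

lemma Gen.scale {p t : K} {x : I → K} {y : J → K} (h : Gen p t x y) {l : K} (hl : l ≠ 0) :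
    Gen p t (fun a => l * x a) y where
  hx a := mul_ne_zero hl (h.hx a)
  hy := h.hy
  xx a a' hne u m hh := h.xx a a' hne u m (mul_left_cancel₀ hl (by linear_combination hh))
  yy := h.yy
  xy a b a' b' hne m hh := h.xy a b a' b' hne m (mul_left_cancel₀ hl (by linear_combination hh))

/-- after the shift there are no poles -/
lemma NV_upd {p t : K} (hp : p ≠ 0) (hpp : ∀ m : ℕ, 0 < m → p ^ m ≠ 1) {x : I → K} {y : J → K}
    (h : Gen p t x y) (a0 : I) (b0 : J) (j : ℕ) (h0 : x a0 * y b0 * p ^ j = 1) :
    NV p (Function.update x a0 (x a0 * p ^ j)) (Function.update y b0 (y b0 * p ^ j)) := by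
  intro a b l hh
  obtain ⟨e, he⟩ := upd_pow p x a0 j a
  obtain ⟨f, hf⟩ := upd_pow p y b0 j b
  by_cases hab : (a, b) = (a0, b0)
  · have h1 : a = a0 := congrArg Prod.fst hab
    have h2 : b = b0 := congrArg Prod.snd hab
    subst h1 h2
    simp only [Function.update_self] at hh
    apply hpp (j + (l + 1)) (by omega)
    rw [pow_add]
    linear_combination hh - p ^ j * p ^ (l + 1) * h0
  · rw [he hp, hf hp] at hh
    apply h.xy a b a0 b0 hab (j - (e + f + ((l + 1 : ℕ) : ℤ)))
    rw [zpow_sub₀ hp, zpow_add₀ hp, zpow_add₀ hp, zpow_natCast, zpow_natCast]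
    have := zpow_ne_zero e hp
    have := zpow_ne_zero f hp
    have := pow_ne_zero (l + 1) hp
    field_simp
    linear_combination hh - h0

/-- sums over the antidiagonal with entry at least `j` -/
lemma sum_shift {M : Type*} [AddCommMonoid M] (a0 : I) (j m : ℕ) (f : (I → ℕ) → M)
    (hf : ∀ d, d a0 < j → f d = 0) :
    ∑ d ∈ piAntidiag univ m, f d =
      if j ≤ m then ∑ d ∈ piAntidiag univ (m - j), f (sh d a0 j) else 0 := by
  have hsum : ∀ d : I → ℕ, ∑ a, sh d a0 j a = (∑ a, d a) + j := by
    intro d; simp [sh, sum_add_distrib]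
  split_ifs with hjm
  · symm
    apply Finset.sum_of_injOn (fun d => sh d a0 j)
    · intro d _ d' _ hdd
      funext a
      have := congrFun hdd a
      simp only [sh] at this
      omega
    · intro d hd
      rw [mem_coe, mem_piAntidiag] at hd ⊢
      refine ⟨?_, by simp⟩
      have h4 := hsum d
      have h5 : univ.sum d = ∑ a, d a := rfl
      have h7 := hd.1
      rw [h5] at h7
      show (∑ a, sh d a0 j a) = m
      omega
    · intro d hd hnot
      apply hf
      by_contra hlt
      push Not at hlt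
      apply hnot
      refine ⟨fun a => d a - if a = a0 then j else 0, ?_, ?_⟩
      · rw [mem_coe, mem_piAntidiag]
        refine ⟨?_, by simp⟩
        have h1 : sh (fun a => d a - if a = a0 then j else 0) a0 j = d := by
          funext a
          by_cases ha : a = a0
          · subst ha; simp [sh]; omega
          · simp [sh, ha]
        have h2 := hsum (fun a => d a - if a = a0 then j else 0)
        rw [h1] at h2
        have h3 := (mem_piAntidiag.1 hd).1
        have : univ.sum d = ∑ a, d a := rfl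
        show (∑ a, (d a - if a = a0 then j else 0)) = m - j
        omega
      · funext a
        by_cases ha : a = a0
        · subst ha; simp [sh]; omega
        · simp [sh, ha]
    · intro d _; rfl
  · apply sum_eq_zero
    intro d hd
    apply hf
    have h3 := (mem_piAntidiag.1 hd).1
    have : d a0 ≤ univ.sum d := single_le_sum (fun _ _ => Nat.zero_le _) (mem_univ a0)
    omega

lemma poch_pp {p : K} (hpp : ∀ m : ℕ, 0 < m → p ^ m ≠ 1) (m : ℕ) : poch p p m ≠ 0 := by
  apply poch_ne_zero
  intro j _
  rw [← pow_succ']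
  exact hpp _ (Nat.succ_pos _)

/-- sum of the cleared terms at a root -/
lemma sum_res {p t : K} (hp : p ≠ 0) (hpp : ∀ m : ℕ, 0 < m → p ^ m ≠ 1) {x : I → K} {y : J → K}
    (h : Gen p t x y) (a0 : I) (b0 : J) (j : ℕ) (hj : 1 ≤ j) (h0 : x a0 * y b0 * p ^ j = 1)
    (n m : ℕ) (hjn : j ≤ n) (hmn : m ≤ n) :
    ∑ d ∈ piAntidiag univ m, wt p t x d * cc p t n x y d =
      if j ≤ m then Cc p t n j x y a0 b0 * cf p t (Function.update x a0 (x a0 * p ^ j))
        (Function.update y b0 (y b0 * p ^ j)) (m - j) else 0 := by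
  rw [sum_shift a0 j m]
  · split_ifs with hjm
    · unfold cf
      rw [mul_sum]
      apply sum_congr rfl
      intro d hd
      have hs := (mem_piAntidiag.1 hd).1
      apply residue p t hp n x y h.hx a0 b0 j h0 d
      · intro a
        have : d a ≤ univ.sum d := single_le_sum (fun _ _ => Nat.zero_le _) (mem_univ a)
        by_cases ha : a = a0
        · subst ha; rw [sh_self]; omega
        · rw [sh_ne d ha]; omega
      · exact poch_pp hpp
      · intro a b hab
        apply poch_ne_zero
        intro l _ hh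
        apply h.xy a b a0 b0 hab (j - ((l + 1 : ℕ) : ℤ))
        rw [zpow_sub₀ hp, zpow_natCast, zpow_natCast]
        have := pow_ne_zero (l + 1) hp
        field_simp
        rw [pow_succ]
        linear_combination hh - h0
    · rfl
  · intro d hd
    have : cc p t n x y d = 0 := by
      unfold cc
      apply prod_eq_zero (mem_univ a0)
      apply prod_eq_zero (mem_univ b0)
      apply mul_eq_zero_of_right
      apply prod_eq_zero (i := j - 1)
      · rw [mem_Ico]; omega
      · obtain ⟨j', rfl⟩ : ∃ j', j = j' + 1 := ⟨j - 1, by omega⟩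
        rw [pow_succ] at h0
        simp only [Nat.add_sub_cancel]
        linear_combination -h0
    rw [this, mul_zero]

/-- polynomial version of a cleared term -/
noncomputable def ctp (p t : K) (n : ℕ) (x : I → K) (y : J → K) (d : I → ℕ) : K[X] :=
  C (wt p t x d) * ∏ a, ∏ b, ((∏ l ∈ range (d a), (1 - C (t * (x a * y b) * p ^ l) * X)) *
    ∏ l ∈ Ico (d a) n, (1 - C (p * (x a * y b) * p ^ l) * X))

lemma ctp_eval (p t : K) (n : ℕ) (x : I → K) (y : J → K) (d : I → ℕ) (l : K) :
    (ctp p t n x y d).eval l = wt p t x d * cc p t n (fun a => l * x a) y d := by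
  unfold ctp cc poch
  simp only [eval_mul, eval_C, eval_prod, eval_sub, eval_one, eval_X]
  congr 1
  apply prod_congr rfl; intro a _
  apply prod_congr rfl; intro b _
  congr 1 <;> (apply prod_congr rfl; intro i _; ring)

lemma ctp_eval' (p t : K) (n : ℕ) (x : I → K) (y : J → K) (d : I → ℕ) (l : K) :
    (ctp p t n x y d).eval l = wt p t x d * cc p t n x (fun b => l * y b) d := by
  unfold ctp cc poch
  simp only [eval_mul, eval_C, eval_prod, eval_sub, eval_one, eval_X]
  congr 1
  apply prod_congr rfl; intro a _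
  apply prod_congr rfl; intro b _
  congr 1 <;> (apply prod_congr rfl; intro i _; ring)

lemma natDegree_lin (c : K) : (1 - C c * X : K[X]).natDegree ≤ 1 := by
  compute_degree

lemma ctp_deg (p t : K) (n : ℕ) (x : I → K) (y : J → K) (d : I → ℕ) (hd : ∀ a, d a ≤ n) :
    (ctp p t n x y d).natDegree ≤ Fintype.card I * (Fintype.card J * n) := by
  unfold ctp
  refine (natDegree_C_mul_le _ _).trans ?_
  refine (natDegree_prod_le _ _).trans ?_
  refine (sum_le_card_nsmul _ _ (Fintype.card J * n) ?_).trans (by simp)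
  intro a _
  refine (natDegree_prod_le _ _).trans ?_
  refine (sum_le_card_nsmul _ _ n ?_).trans (by simp)
  intro b _
  refine (natDegree_mul_le).trans ?_
  have h1 : (∏ l ∈ range (d a), (1 - C (t * (x a * y b) * p ^ l) * X : K[X])).natDegree ≤ d a := by
    refine (natDegree_prod_le _ _).trans ?_
    refine (sum_le_card_nsmul _ _ 1 ?_).trans (by simp)
    intro l _; exact natDegree_lin _
  have h2 : (∏ l ∈ Ico (d a) n, (1 - C (p * (x a * y b) * p ^ l) * X : K[X])).natDegree ≤
      n - d a := by
    refine (natDegree_prod_le _ _).trans ?_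
    refine (sum_le_card_nsmul _ _ 1 ?_).trans (by simp)
    intro l _; exact natDegree_lin _
  have := hd a
  omega

/-- the denominator -/
noncomputable def den (p : K) (n : ℕ) (x : I → K) (y : J → K) : K[X] :=
  ∏ a, ∏ b, ∏ l ∈ range n, (1 - C (p * (x a * y b) * p ^ l) * X)

lemma den_eval (p : K) (n : ℕ) (x : I → K) (y : J → K) (l : K) :
    (den p n x y).eval l = ∏ a, ∏ b, poch p (p * (l * x a * y b)) n := by
  unfold den poch
  simp only [eval_mul, eval_C, eval_prod, eval_sub, eval_one, eval_X]
  apply prod_congr rfl; intro a _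
  apply prod_congr rfl; intro b _
  apply prod_congr rfl; intro i _; ring

lemma den_deg (p : K) (n : ℕ) (x : I → K) (y : J → K) :
    (den p n x y).natDegree ≤ Fintype.card I * (Fintype.card J * n) := by
  unfold den
  refine (natDegree_prod_le _ _).trans ?_
  refine (sum_le_card_nsmul _ _ (Fintype.card J * n) ?_).trans (by simp)
  intro a _
  refine (natDegree_prod_le _ _).trans ?_
  refine (sum_le_card_nsmul _ _ n ?_).trans (by simp)
  intro b _
  refine (natDegree_prod_le _ _).trans ?_
  refine (sum_le_card_nsmul _ _ 1 ?_).trans (by simp)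
  intro l _; exact natDegree_lin _

/-- the numerator -/
noncomputable def num (p t : K) (n : ℕ) (x : I → K) (y : J → K) : K[X] :=
  (∑ z ∈ antidiagonal n, C (PowerSeries.coeff z.1 (gser p t (Fintype.card J))) *
    ∑ d ∈ piAntidiag univ z.2, ctp p t n x y d) -
  (∑ z ∈ antidiagonal n, C (PowerSeries.coeff z.1 (gser p t (Fintype.card I))) *
    ∑ d ∈ piAntidiag univ z.2, ctp p t n y x d)

lemma le_of_mem_pi {n : ℕ} {z : ℕ × ℕ} (hz : z ∈ antidiagonal n) {d : I → ℕ}
    (hd : d ∈ piAntidiag univ z.2) (a : I) : d a ≤ n := by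
  have hs := (mem_piAntidiag.1 hd).1
  have : d a ≤ univ.sum d := single_le_sum (fun _ _ => Nat.zero_le _) (mem_univ a)
  have := HasAntidiagonal.mem_antidiagonal.1 hz
  omega

lemma num_deg (p t : K) (n : ℕ) (x : I → K) (y : J → K) :
    (num p t n x y).natDegree ≤ Fintype.card I * (Fintype.card J * n) := by
  unfold num
  refine (natDegree_sub_le _ _).trans (max_le ?_ ?_)
  · apply natDegree_sum_le_of_forall_le
    intro z hz
    refine (natDegree_C_mul_le _ _).trans ?_
    apply natDegree_sum_le_of_forall_le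
    intro d hd
    exact ctp_deg p t n x y d (le_of_mem_pi hz hd)
  · apply natDegree_sum_le_of_forall_le
    intro z hz
    refine (natDegree_C_mul_le _ _).trans ?_
    apply natDegree_sum_le_of_forall_le
    intro d hd
    have := ctp_deg p t n y x d (le_of_mem_pi hz hd)
    rwa [Nat.mul_left_comm] at this

lemma cf_eval (p t : K) (n m : ℕ) (x : I → K) (y : J → K) (hm : m ≤ n)
    (hn : ∀ a b, poch p (p * (x a * y b)) n ≠ 0) :
    ∑ d ∈ piAntidiag univ m, wt p t x d * cc p t n x y d =
      cf p t x y m * ∏ a, ∏ b, poch p (p * (x a * y b)) n := by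
  unfold cf trm
  rw [sum_mul]
  apply sum_congr rfl
  intro d hd
  rw [cc_eq p t n x y d _ hn]
  · ring
  · intro a
    have hs := (mem_piAntidiag.1 hd).1
    have : d a ≤ univ.sum d := single_le_sum (fun _ _ => Nat.zero_le _) (mem_univ a)
    omega

lemma num_eval (p t : K) (n : ℕ) (x : I → K) (y : J → K) (l : K) (hl : l ≠ 0) :
    (num p t n x y).eval l =
      (∑ z ∈ antidiagonal n, PowerSeries.coeff z.1 (gser p t (Fintype.card J)) *
        ∑ d ∈ piAntidiag univ z.2, wt p t (fun a => l * x a) d *
          cc p t n (fun a => l * x a) y d) -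
      (∑ z ∈ antidiagonal n, PowerSeries.coeff z.1 (gser p t (Fintype.card I)) *
        ∑ d ∈ piAntidiag univ z.2, wt p t y d * cc p t n y (fun a => l * x a) d) := by
  unfold num
  simp only [eval_sub, eval_finsetSum, eval_mul, eval_C, ctp_eval', ctp_eval p t n x y]
  simp only [wt_smul p t x l hl]

lemma nv_poch {p : K} {x : I → K} {y : J → K} (h : NV p x y) (n : ℕ) (a : I) (b : J) :
    poch p (p * (x a * y b)) n ≠ 0 := by
  apply poch_ne_zero
  intro l _ hh
  exact h a b l (by rw [pow_succ]; linear_combination hh)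

lemma num_eval_nv (p t : K) (n : ℕ) (x : I → K) (y : J → K) (l : K) (hl : l ≠ 0)
    (h : NV p (fun a => l * x a) y) :
    (num p t n x y).eval l = idn p t (fun a => l * x a) y n * (den p n x y).eval l := by
  rw [num_eval p t n x y l hl, den_eval, idn, sub_mul, sum_mul, sum_mul]
  congr 1
  · apply sum_congr rfl
    intro z hz
    rw [mul_assoc]
    congr 1
    exact cf_eval p t n z.2 _ _ (by have := HasAntidiagonal.mem_antidiagonal.1 hz; omega)
      (fun a b => nv_poch h n a b)
  · apply sum_congr rfl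
    intro z hz
    rw [mul_assoc]
    congr 1
    rw [cf_eval p t n z.2 y (fun a => l * x a) (by have := HasAntidiagonal.mem_antidiagonal.1 hz; omega)
      (fun b a => by have := nv_poch h n a b; rwa [mul_comm (l * x a)] at this)]
    congr 1
    rw [prod_comm]
    simp only [mul_comm (y _)]

/-- the induction hypothesis gives vanishing at the roots -/
lemma num_root {p t : K} (hp : p ≠ 0) (hpp : ∀ m : ℕ, 0 < m → p ^ m ≠ 1) (n : ℕ)
    {x : I → K} {y : J → K} (h : Gen p t x y) (l : K) (hl : l ≠ 0) (a0 : I) (b0 : J)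
    (j : ℕ) (hj : 1 ≤ j) (hjn : j ≤ n) (h0 : l * x a0 * y b0 * p ^ j = 1)
    (IH : idn p t (Function.update (fun a => l * x a) a0 (l * x a0 * p ^ j))
        (Function.update y b0 (y b0 * p ^ j)) (n - j) = 0) :
    (num p t n x y).eval l = 0 := by
  rw [num_eval p t n x y l hl]
  have hG := h.scale hl
  have hG' := hG.symm
  have key : ∀ (g : ℕ → K) (f : ℕ → K) (c : K),
      (∑ z ∈ antidiagonal n, g z.1 * (if j ≤ z.2 then c * f (z.2 - j) else 0)) =
        c * ∑ z ∈ antidiagonal (n - j), g z.1 * f z.2 := by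
    intro g f c
    rw [mul_sum]
    symm
    apply Finset.sum_of_injOn (fun z : ℕ × ℕ => (z.1, z.2 + j))
    · intro z _ z' _ hz
      simp only [Prod.mk.injEq] at hz
      ext <;> omega
    · intro z hz
      rw [mem_coe, HasAntidiagonal.mem_antidiagonal] at hz ⊢
      simp only
      omega
    · intro z hz hnot
      rw [if_neg, mul_zero]
      intro hle
      apply hnot
      refine ⟨(z.1, z.2 - j), ?_, ?_⟩
      · rw [mem_coe, HasAntidiagonal.mem_antidiagonal]
        have := HasAntidiagonal.mem_antidiagonal.1 hz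
        simp only; omega
      · ext
        · rfl
        · simp only; omega
    · intro z _
      simp only [Nat.le_add_left, if_true, Nat.add_sub_cancel]
      ring
  have e1 : ∑ z ∈ antidiagonal n, PowerSeries.coeff z.1 (gser p t (Fintype.card J)) *
        ∑ d ∈ piAntidiag univ z.2, wt p t (fun a => l * x a) d *
          cc p t n (fun a => l * x a) y d =
      Cc p t n j (fun a => l * x a) y a0 b0 *
        ∑ z ∈ antidiagonal (n - j), PowerSeries.coeff z.1 (gser p t (Fintype.card J)) *
          cf p t (Function.update (fun a => l * x a) a0 (l * x a0 * p ^ j))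
            (Function.update y b0 (y b0 * p ^ j)) z.2 := by
    rw [← key (fun i => PowerSeries.coeff i (gser p t (Fintype.card J)))
      (fun i => cf p t (Function.update (fun a => l * x a) a0 (l * x a0 * p ^ j))
            (Function.update y b0 (y b0 * p ^ j)) i)]
    apply sum_congr rfl
    intro z hz
    rw [sum_res hp hpp hG a0 b0 j hj h0 n z.2 hjn (by have := HasAntidiagonal.mem_antidiagonal.1 hz; omega)]
  have e2 : ∑ z ∈ antidiagonal n, PowerSeries.coeff z.1 (gser p t (Fintype.card I)) *
        ∑ d ∈ piAntidiag univ z.2, wt p t y d * cc p t n y (fun a => l * x a) d =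
      Cc p t n j (fun a => l * x a) y a0 b0 *
        ∑ z ∈ antidiagonal (n - j), PowerSeries.coeff z.1 (gser p t (Fintype.card I)) *
          cf p t (Function.update y b0 (y b0 * p ^ j))
            (Function.update (fun a => l * x a) a0 (l * x a0 * p ^ j)) z.2 := by
    rw [← key (fun i => PowerSeries.coeff i (gser p t (Fintype.card I)))
      (fun i => cf p t (Function.update y b0 (y b0 * p ^ j))
            (Function.update (fun a => l * x a) a0 (l * x a0 * p ^ j)) i)]
    apply sum_congr rfl
    intro z hz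
    rw [sum_res hp hpp hG' b0 a0 j hj (by linear_combination h0) n z.2 hjn
      (by have := HasAntidiagonal.mem_antidiagonal.1 hz; omega), Cc_symm]
  rw [e1, e2, ← mul_sub]
  have : idn p t (Function.update (fun a => l * x a) a0 (l * x a0 * p ^ j))
        (Function.update y b0 (y b0 * p ^ j)) (n - j) = 0 := IH
  unfold idn at this
  rw [this, mul_zero]

/-- the numerator is a constant multiple of the denominator -/
lemma num_eq_den {p t : K} (hp : p ≠ 0) (hpp : ∀ m : ℕ, 0 < m → p ^ m ≠ 1) (n : ℕ)
    {x : I → K} {y : J → K} (h : Gen p t x y)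
    (IH : ∀ m < n, ∀ (x : I → K) (y : J → K), Gen p t x y → NV p x y → idn p t x y m = 0) :
    num p t n x y = C ((num p t n x y).eval 0) * den p n x y := by
  rw [← sub_eq_zero]
  set f : Option (I × J × Fin n) → K := fun o => match o with
    | none => 0
    | some ⟨a, b, l⟩ => (p * (x a * y b) * p ^ (l : ℕ))⁻¹ with hf
  have hne : ∀ (a : I) (b : J) (l : ℕ), p * (x a * y b) * p ^ l ≠ 0 := fun a b l =>
    mul_ne_zero (mul_ne_zero hp (mul_ne_zero (h.hx a) (h.hy b))) (pow_ne_zero _ hp)
  apply Polynomial.eq_zero_of_natDegree_lt_card_of_eval_eq_zero (f := f)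
  · intro o o' hoo
    rcases o with _ | ⟨a, b, l⟩ <;> rcases o' with _ | ⟨a', b', l'⟩
    · rfl
    · exact absurd hoo.symm (inv_ne_zero (hne _ _ _))
    · exact absurd hoo (inv_ne_zero (hne _ _ _))
    · simp only [hf] at hoo
      have h1 := inv_injective hoo
      by_cases hab : (a, b) = (a', b')
      · have h2 : a = a' := congrArg Prod.fst hab
        have h3 : b = b' := congrArg Prod.snd hab
        subst h2 h3
        have h4 : p ^ (l : ℕ) = p ^ (l' : ℕ) := by
          apply mul_left_cancel₀ (mul_ne_zero hp (mul_ne_zero (h.hx a) (h.hy b))) h1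
        have h5 : (l : ℕ) = l' := by
          rcases lt_trichotomy (l : ℕ) l' with hlt | heq | hlt
          · exfalso
            apply hpp (l' - l) (by omega)
            apply mul_left_cancel₀ (pow_ne_zero (l : ℕ) hp)
            rw [← pow_add, mul_one, h4]; congr 1; omega
          · exact heq
          · exfalso
            apply hpp (l - l') (by omega)
            apply mul_left_cancel₀ (pow_ne_zero (l' : ℕ) hp)
            rw [← pow_add, mul_one, ← h4]; congr 1; omega
        have h6 : l = l' := Fin.ext h5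
        rw [h6]
      · exfalso
        apply h.xy a b a' b' hab ((l' : ℕ) - (l : ℕ) : ℤ)
        rw [zpow_sub₀ hp, zpow_natCast, zpow_natCast]
        have := pow_ne_zero (l : ℕ) hp
        field_simp
        apply mul_left_cancel₀ hp
        linear_combination h1
  · intro o
    rw [eval_sub, eval_mul, eval_C]
    rcases o with _ | ⟨a0, b0, l0⟩
    · simp only [hf]
      rw [den_eval]
      simp [poch]
    · have hden : (den p n x y).eval (f (some ⟨a0, b0, l0⟩)) = 0 := by
        rw [den_eval]
        apply prod_eq_zero (mem_univ a0)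
        apply prod_eq_zero (mem_univ b0)
        apply poch_eq_zero l0.2
        simp only [hf]
        have := hne a0 b0 l0
        rw [show p * ((p * (x a0 * y b0) * p ^ (l0 : ℕ))⁻¹ * x a0 * y b0) * p ^ (l0 : ℕ) =
          (p * (x a0 * y b0) * p ^ (l0 : ℕ))⁻¹ * (p * (x a0 * y b0) * p ^ (l0 : ℕ)) by ring,
          inv_mul_cancel₀ this]
      rw [hden, mul_zero, sub_zero]
      have hl : f (some ⟨a0, b0, l0⟩) ≠ 0 := by
        simp only [hf]; exact inv_ne_zero (hne _ _ _)
      have h0 : f (some ⟨a0, b0, l0⟩) * x a0 * y b0 * p ^ ((l0 : ℕ) + 1) = 1 := by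
        simp only [hf]
        have := hne a0 b0 l0
        rw [pow_succ, show (p * (x a0 * y b0) * p ^ (l0 : ℕ))⁻¹ * x a0 * y b0 *
          (p ^ (l0 : ℕ) * p) =
          (p * (x a0 * y b0) * p ^ (l0 : ℕ))⁻¹ * (p * (x a0 * y b0) * p ^ (l0 : ℕ)) by ring,
          inv_mul_cancel₀ this]
      apply num_root hp hpp n h _ hl a0 b0 ((l0 : ℕ) + 1) (by omega) (by have := l0.2; omega) h0
      apply IH (n - ((l0 : ℕ) + 1)) (by have := l0.2; omega)
      · exact (h.scale hl).upd hp a0 b0 _
      · exact NV_upd hp hpp (h.scale hl) a0 b0 _ h0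
  · refine lt_of_le_of_lt (natDegree_sub_le _ _) ?_
    rw [Fintype.card_option, Fintype.card_prod, Fintype.card_prod, Fintype.card_fin]
    apply Nat.lt_succ_of_le
    apply max_le (num_deg p t n x y)
    exact (natDegree_C_mul_le _ _).trans (den_deg p n x y)

/-- the value at `0` -/
lemma num_zero (p t : K) (n : ℕ) (x : I → K) (y : J → K) :
    (num p t n x y).eval 0 =
      (∑ z ∈ antidiagonal n, PowerSeries.coeff z.1 (gser p t (Fintype.card J)) *
        ∑ d ∈ piAntidiag univ z.2, wt p t x d) -
      (∑ z ∈ antidiagonal n, PowerSeries.coeff z.1 (gser p t (Fintype.card I)) *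
        ∑ d ∈ piAntidiag univ z.2, wt p t y d) := by
  unfold num ctp
  simp [eval_sub, eval_finsetSum, eval_mul, eval_C, eval_prod]

/-- the sums without cross terms are the coefficients of `gser` -/
def PA (p t : K) (x : I → K) : Prop :=
  ∀ m, ∑ d ∈ piAntidiag univ m, wt p t x d = PowerSeries.coeff m (gser p t (Fintype.card I))

lemma idn_step {p t : K} (hp : p ≠ 0) (hpp : ∀ m : ℕ, 0 < m → p ^ m ≠ 1) (n : ℕ)
    (IH : ∀ m < n, ∀ (x : I → K) (y : J → K), Gen p t x y → NV p x y → idn p t x y m = 0)
    (hz : ∀ (x : I → K) (y : J → K), Gen p t x y → (num p t n x y).eval 0 = 0) :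
    ∀ (x : I → K) (y : J → K), Gen p t x y → NV p x y → idn p t x y n = 0 := by
  intro x y h hnv
  have h1 := num_eq_den hp hpp n h IH
  rw [hz x y h] at h1
  have h2 := num_eval_nv p t n x y 1 one_ne_zero (by simpa using hnv)
  rw [h1] at h2
  simp only [map_zero, zero_mul, eval_zero, one_mul] at h2
  have h3 : (den p n x y).eval 1 ≠ 0 := by
    rw [den_eval]
    simp only [one_mul]
    exact prod_ne_zero_iff.2 fun a _ => prod_ne_zero_iff.2 fun b _ => nv_poch hnv n a b
  exact (mul_eq_zero.1 h2.symm).resolve_right h3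

lemma idn_of_zero {p t : K} (hp : p ≠ 0) (hpp : ∀ m : ℕ, 0 < m → p ^ m ≠ 1)
    (hz : ∀ n, ∀ (x : I → K) (y : J → K), Gen p t x y → (num p t n x y).eval 0 = 0) (n : ℕ) :
    ∀ (x : I → K) (y : J → K), Gen p t x y → NV p x y → idn p t x y n = 0 := by
  induction n using Nat.strong_induction_on with
  | _ n IH => exact idn_step hp hpp n IH (hz n)

lemma idn_of_PA {p t : K} (hp : p ≠ 0) (hpp : ∀ m : ℕ, 0 < m → p ^ m ≠ 1)
    (hI : ∀ x : I → K, (∀ a, x a ≠ 0) → (∀ a a', a ≠ a' → ∀ l m : ℤ, x a ≠ x a' * t ^ l * p ^ m) →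
      PA p t x)
    (hJ : ∀ x : J → K, (∀ a, x a ≠ 0) → (∀ a a', a ≠ a' → ∀ l m : ℤ, x a ≠ x a' * t ^ l * p ^ m) →
      PA p t x) (n : ℕ) :
    ∀ (x : I → K) (y : J → K), Gen p t x y → NV p x y → idn p t x y n = 0 := by
  apply idn_of_zero hp hpp
  intro n x y h
  rw [num_zero]
  simp only [hI x h.hx h.xx _, hJ y h.hy h.yy _]
  rw [← PowerSeries.coeff_mul, ← PowerSeries.coeff_mul, mul_comm, sub_self]

end Pool.Agent.Run7.h657
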