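import Pool.Agent.Run7.h657.LL

/-! The localised sum and the reflection step for its coefficients. -/

set_option linter.unusedSectionVars false

namespace Pool.Agent.Run7.h657

open Finset

variable {K : Type*} [Field K]

/-- a framed quiver with torus parameters -/
structure QD (K I E F : Type*) where
  src : E → I
  tgt : E → I
  te : E → K
  cF : F → I
  fa : F → K

variable {I E F P A B Y : Type*} [Fintype I] [Fintype E] [Fintype F] [Fintype P] [Fintype A]
  [Fintype B] [Fintype Y] [DecidableEq I] [DecidableEq P] [DecidableEq A] [DecidableEq B]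
  [DecidableEq Y] [DecidableEq E] [DecidableEq F]

/-- the summand -/
def Wt (Q : QD K I E F) (p t : K) (c : P → I) (x : P → K) (δ : P → ℕ) : K :=
  ((∏ e, ∏ r, ∏ r', if c r = Q.src e ∧ c r' = Q.tgt e then
      Qz p t (Q.te e * x r' / x r) ((δ r' : ℤ) - δ r) else 1) *
    ∏ f, ∏ r, if c r = Q.cF f then Qz p t (x r / Q.fa f) (δ r) else 1) /
    ∏ r, ∏ r', if c r = c r' then Qz p t (x r / x r') ((δ r : ℤ) - δ r') else 1

/-- the regularity constraints -/
def RR (Q : QD K I E F) (t : K) (c : P → I) (x : P → K) (δ : P → ℕ) : Prop :=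
  (∀ e r r', c r = Q.src e → c r' = Q.tgt e →
    (Q.te e * x r' = x r → δ r ≤ δ r') ∧ (x r = t * Q.te e * x r' → δ r' ≤ δ r)) ∧
  ∀ f r, c r = Q.cF f → Q.fa f = t * x r → δ r = 0

/-- the neighbours of a vertex -/
abbrev Lf (Q : QD K I E F) (i : I) (cY : Y → I) :=
  {q : E × Y // Q.tgt q.1 = i ∧ cY q.2 = Q.src q.1} ⊕
    ({q : E × Y // Q.src q.1 = i ∧ cY q.2 = Q.tgt q.1} ⊕ {f : F // Q.cF f = i})

/-- their weights -/
def Ly (Q : QD K I E F) (t : K) (i : I) (cY : Y → I) (xY : Y → K) : Lf Q i cY → K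
  | Sum.inl q => xY q.1.2 / Q.te q.1.1
  | Sum.inr (Sum.inl q) => t * Q.te q.1.1 * xY q.1.2
  | Sum.inr (Sum.inr f) => Q.fa f.1

/-- their degrees -/
def Le (Q : QD K I E F) (i : I) (cY : Y → I) (e : Y → ℕ) : Lf Q i cY → ℕ
  | Sum.inl q => e q.1.2
  | Sum.inr (Sum.inl q) => e q.1.2
  | Sum.inr (Sum.inr _) => 0

lemma prod_sub {X : Type*} [Fintype X] (P : X → Prop) [DecidablePred P] (f : X → K) :
    ∏ q : {q // P q}, f q.1 = ∏ q, if P q then f q else 1 := by
  rw [← prod_filter]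
  exact (Finset.prod_subtype (univ.filter P) (by simp) f).symm

lemma sum_sub {M X : Type*} [AddCommMonoid M] [Fintype X] (P : X → Prop) [DecidablePred P]
    (f : X → M) :
    ∑ q : {q // P q}, f q.1 = ∑ q, if P q then f q else 0 := by
  rw [← sum_filter]
  exact (Finset.sum_subtype (univ.filter P) (by simp) f).symm

/-- the factorisation of the summand at a vertex -/
lemma Wt_split (Q : QD K I E F) {p t : K} (ok : Ok p t) (i : I) (hl : ∀ e, Q.src e ≠ Q.tgt e)
    (hte : ∀ e, Q.te e ≠ 0) (cY : Y → I) (hc : ∀ r, cY r ≠ i)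
    (xA : A → K) (xY : Y → K) (hxA : ∀ a, xA a ≠ 0) (hxY : ∀ r, xY r ≠ 0)
    (δ : A → ℕ) (e : Y → ℕ) :
    Wt Q p t (Sum.elim (fun _ => i) cY) (Sum.elim xA xY) (Sum.elim δ e) =
      Wt Q p t cY xY e *
      ((p / t) ^ ((Fintype.card {q : E × Y // Q.src q.1 = i ∧ cY q.2 = Q.tgt q.1} : ℤ) *
          ∑ a, (δ a : ℤ) -
        (Fintype.card A : ℤ) *
          ∑ q : {q : E × Y // Q.src q.1 = i ∧ cY q.2 = Q.tgt q.1}, (e q.1.2 : ℤ)) *
        fullI p t xA (Ly Q t i cY xY) (Le Q i cY e) δ) := by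
  have hp := ok.hp
  have ht := ok.ht
  have hcc : p / t ≠ 0 := div_ne_zero hp ht
  -- the three groups of neighbours
  have g1 : ∀ a, ∏ q : {q : E × Y // Q.tgt q.1 = i ∧ cY q.2 = Q.src q.1},
      Qz p t (xA a / (xY q.1.2 / Q.te q.1.1)) ((δ a : ℤ) - e q.1.2) =
      ∏ b, ∏ r, if cY r = Q.src b ∧ i = Q.tgt b then
        Qz p t (Q.te b * xA a / xY r) ((δ a : ℤ) - e r) else 1 := by
    intro a
    rw [prod_sub (fun q : E × Y => Q.tgt q.1 = i ∧ cY q.2 = Q.src q.1)
      (fun q => Qz p t (xA a / (xY q.2 / Q.te q.1)) ((δ a : ℤ) - e q.2)), Fintype.prod_prod_type]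
    apply prod_congr rfl; intro b _
    apply prod_congr rfl; intro r _
    by_cases h : Q.tgt b = i ∧ cY r = Q.src b
    · rw [if_pos h, if_pos ⟨h.2, h.1.symm⟩]
      congr 1
      have := hte b
      have := hxY r
      field_simp
    · rw [if_neg h, if_neg (fun h' => h ⟨h'.2.symm, h'.1⟩)]
  have g2 : ∀ a, ∏ b, ∏ r, (if i = Q.src b ∧ cY r = Q.tgt b then
        Qz p t (Q.te b * xY r / xA a) ((e r : ℤ) - δ a) else 1) =
      ∏ q : {q : E × Y // Q.src q.1 = i ∧ cY q.2 = Q.tgt q.1},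
      ((p / t) ^ ((δ a : ℤ) - e q.1.2) *
        Qz p t (xA a / (t * Q.te q.1.1 * xY q.1.2)) ((δ a : ℤ) - e q.1.2)) := by
    intro a
    rw [prod_sub (fun q : E × Y => Q.src q.1 = i ∧ cY q.2 = Q.tgt q.1)
      (fun q => ((p / t) ^ ((δ a : ℤ) - e q.2) *
        Qz p t (xA a / (t * Q.te q.1 * xY q.2)) ((δ a : ℤ) - e q.2))), Fintype.prod_prod_type]
    apply prod_congr rfl; intro b _
    apply prod_congr rfl; intro r _
    by_cases h : Q.src b = i ∧ cY r = Q.tgt b
    · rw [if_pos h, if_pos ⟨h.1.symm, h.2⟩]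
      have h1 := hte b
      have h2 := hxY r
      have h3 := hxA a
      rw [← Qz_refl hp ht _ (div_ne_zero h3 (mul_ne_zero (mul_ne_zero ht h1) h2))]
      congr 1
      · field_simp
      · ring
    · rw [if_neg h, if_neg (fun h' => h ⟨h'.1.symm, h'.2⟩)]
  have g3 : ∀ a, ∏ f : {f : F // Q.cF f = i}, Qz p t (xA a / Q.fa f.1) (δ a : ℤ) =
      ∏ f, if i = Q.cF f then Qz p t (xA a / Q.fa f) (δ a : ℤ) else 1 := by
    intro a
    rw [prod_sub (fun f : F => Q.cF f = i) (fun f => Qz p t (xA a / Q.fa f) (δ a : ℤ))]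
    apply prod_congr rfl; intro f _
    simp only [eq_comm]
  have hf : fullI p t xA (Ly Q t i cY xY) (Le Q i cY e) δ =
      (∏ a, ((∏ b, ∏ r, if cY r = Q.src b ∧ i = Q.tgt b then
        Qz p t (Q.te b * xA a / xY r) ((δ a : ℤ) - e r) else 1) *
      ((∏ q : {q : E × Y // Q.src q.1 = i ∧ cY q.2 = Q.tgt q.1},
        Qz p t (xA a / (t * Q.te q.1.1 * xY q.1.2)) ((δ a : ℤ) - e q.1.2)) *
      ∏ f, if i = Q.cF f then Qz p t (xA a / Q.fa f) (δ a : ℤ) else 1))) /
      ∏ a, ∏ a', Qz p t (xA a / xA a') ((δ a : ℤ) - δ a') := by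
    unfold fullI
    congr 1
    apply prod_congr rfl; intro a _
    rw [Fintype.prod_sum_type, Fintype.prod_sum_type, ← g1, ← g3]
    simp [Ly, Le]
  have hedge : (∏ b, ∏ r, ∏ r', if (Sum.elim (fun _ : A => i) cY) r = Q.src b ∧
        (Sum.elim (fun _ : A => i) cY) r' = Q.tgt b then
      Qz p t (Q.te b * (Sum.elim xA xY) r' / (Sum.elim xA xY) r)
        (((Sum.elim δ e) r' : ℤ) - (Sum.elim δ e) r) else 1) =
      (∏ b, ∏ r, ∏ r', if cY r = Q.src b ∧ cY r' = Q.tgt b then
        Qz p t (Q.te b * xY r' / xY r) ((e r' : ℤ) - e r) else 1) *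
      ((∏ a, ∏ b, ∏ r, if cY r = Q.src b ∧ i = Q.tgt b then
        Qz p t (Q.te b * xA a / xY r) ((δ a : ℤ) - e r) else 1) *
      (∏ a, ∏ b, ∏ r, (if i = Q.src b ∧ cY r = Q.tgt b then
        Qz p t (Q.te b * xY r / xA a) ((e r : ℤ) - δ a) else 1))) := by
    have s1 : (∏ a, ∏ b, ∏ r, if cY r = Q.src b ∧ i = Q.tgt b then
        Qz p t (Q.te b * xA a / xY r) ((δ a : ℤ) - e r) else 1) =
        ∏ b, ∏ r, ∏ a, if cY r = Q.src b ∧ i = Q.tgt b then
        Qz p t (Q.te b * xA a / xY r) ((δ a : ℤ) - e r) else 1 := by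
      rw [prod_comm]
      apply prod_congr rfl; intro b _
      rw [prod_comm]
    have s2 : (∏ a, ∏ b, ∏ r, (if i = Q.src b ∧ cY r = Q.tgt b then
        Qz p t (Q.te b * xY r / xA a) ((e r : ℤ) - δ a) else 1)) =
        ∏ b, ∏ a, ∏ r, (if i = Q.src b ∧ cY r = Q.tgt b then
        Qz p t (Q.te b * xY r / xA a) ((e r : ℤ) - δ a) else 1) := by
      rw [prod_comm]
    rw [s1, s2, ← prod_mul_distrib, ← prod_mul_distrib]
    apply prod_congr rfl; intro b _
    rw [Fintype.prod_sum_type]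
    simp only [Fintype.prod_sum_type, Sum.elim_inl, Sum.elim_inr]
    rw [prod_mul_distrib, prod_mul_distrib]
    have z : (∏ a : A, ∏ a' : A, if i = Q.src b ∧ i = Q.tgt b then
        Qz p t (Q.te b * xA a' / xA a) ((δ a' : ℤ) - δ a) else 1) = 1 := by
      apply prod_eq_one; intro a _
      apply prod_eq_one; intro a' _
      rw [if_neg]
      rintro ⟨h1, h2⟩
      exact hl b (h1.symm.trans h2)
    rw [z]
    ring
  have hfr : (∏ f, ∏ r, if (Sum.elim (fun _ : A => i) cY) r = Q.cF f then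
      Qz p t ((Sum.elim xA xY) r / Q.fa f) ((Sum.elim δ e) r : ℤ) else 1) =
      (∏ f, ∏ r, if cY r = Q.cF f then Qz p t (xY r / Q.fa f) (e r : ℤ) else 1) *
      ∏ a, ∏ f, if i = Q.cF f then Qz p t (xA a / Q.fa f) (δ a : ℤ) else 1 := by
    rw [prod_comm (s := (univ : Finset A)), ← prod_mul_distrib]
    apply prod_congr rfl; intro f _
    rw [Fintype.prod_sum_type]
    simp only [Sum.elim_inl, Sum.elim_inr]
    ring
  have hden : (∏ r, ∏ r', if (Sum.elim (fun _ : A => i) cY) r = (Sum.elim (fun _ : A => i) cY) r'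
      then Qz p t ((Sum.elim xA xY) r / (Sum.elim xA xY) r')
        (((Sum.elim δ e) r : ℤ) - (Sum.elim δ e) r') else 1) =
      (∏ r, ∏ r', if cY r = cY r' then Qz p t (xY r / xY r') ((e r : ℤ) - e r') else 1) *
      ∏ a, ∏ a', Qz p t (xA a / xA a') ((δ a : ℤ) - δ a') := by
    rw [Fintype.prod_sum_type]
    simp only [Fintype.prod_sum_type, Sum.elim_inl, Sum.elim_inr]
    rw [prod_mul_distrib, prod_mul_distrib]
    have z1 : (∏ a : A, ∏ r : Y, if i = cY r then
        Qz p t (xA a / xY r) ((δ a : ℤ) - e r) else 1) = 1 := by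
      apply prod_eq_one; intro a _
      apply prod_eq_one; intro r _
      rw [if_neg (fun h => hc r h.symm)]
    have z2 : (∏ r : Y, ∏ a : A, if cY r = i then
        Qz p t (xY r / xA a) ((e r : ℤ) - δ a) else 1) = 1 := by
      apply prod_eq_one; intro r _
      apply prod_eq_one; intro a _
      rw [if_neg (hc r)]
    rw [z1, z2]
    simp only [if_true]
    ring
  unfold Wt
  rw [hedge, hfr, hden, hf]
  simp only [g2, prod_mul_distrib, zprod hcc]
  have hexp : (p / t) ^ ((Fintype.card {q : E × Y // Q.src q.1 = i ∧ cY q.2 = Q.tgt q.1} : ℤ) *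
          ∑ a, (δ a : ℤ) -
        (Fintype.card A : ℤ) *
          ∑ q : {q : E × Y // Q.src q.1 = i ∧ cY q.2 = Q.tgt q.1}, (e q.1.2 : ℤ)) =
      (p / t) ^ (∑ a : A, ∑ q : {q : E × Y // Q.src q.1 = i ∧ cY q.2 = Q.tgt q.1},
        ((δ a : ℤ) - e q.1.2)) := by
    congr 1
    simp only [sum_sub_distrib, sum_const, card_univ, nsmul_eq_mul, ← mul_sum]
  rw [hexp]
  rw [mul_div_mul_comm]
  ring

lemma RR_split (Q : QD K I E F) {t : K} (i : I) (hl : ∀ e, Q.src e ≠ Q.tgt e)
    (hte : ∀ e, Q.te e ≠ 0) (ht : t ≠ 0) (cY : Y → I) (hc : ∀ r, cY r ≠ i)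
    (xA : A → K) (xY : Y → K) (δ : A → ℕ) (e : Y → ℕ) :
    RR Q t (Sum.elim (fun _ => i) cY) (Sum.elim xA xY) (Sum.elim δ e) ↔
      RR Q t cY xY e ∧ Rc t xA (Ly Q t i cY xY) (Le Q i cY e) δ := by
  constructor
  · rintro ⟨h1, h2⟩
    refine ⟨⟨fun b r r' hr hr' => h1 b (Sum.inr r) (Sum.inr r') hr hr',
      fun f r hr => h2 f (Sum.inr r) hr⟩, ?_⟩
    intro a l
    rcases l with ⟨⟨b, r⟩, hb, hr⟩ | ⟨⟨b, r⟩, hb, hr⟩ | ⟨f, hf⟩
    · simp only at hb hr
      have h3 := h1 b (Sum.inr r) (Sum.inl a) hr hb.symm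
      simp only [Sum.elim_inl, Sum.elim_inr] at h3
      simp only [Ly, Le]
      refine ⟨fun hh => h3.1 ?_, fun hh => h3.2 ?_⟩
      · rw [← hh]; field_simp [hte b]
      · rw [div_eq_iff (hte b)] at hh; rw [hh]; ring
    · simp only at hb hr
      have h3 := h1 b (Sum.inl a) (Sum.inr r) hb.symm hr
      simp only [Sum.elim_inl, Sum.elim_inr] at h3
      simp only [Ly, Le]
      refine ⟨fun hh => h3.2 hh.symm, fun hh => h3.1 ?_⟩
      apply mul_left_cancel₀ ht
      rw [← hh]; ring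
    · simp only [Ly, Le]
      refine ⟨fun _ => Nat.zero_le _, fun hh => ?_⟩
      have h3 := h2 f (Sum.inl a) hf.symm
      simp only [Sum.elim_inl] at h3
      exact (h3 hh).le
  · rintro ⟨⟨h1, h2⟩, h3⟩
    constructor
    · intro b r r' hr hr'
      rcases r with a | r <;> rcases r' with a' | r'
      · exact absurd (hr.symm.trans hr') (hl b)
      · simp only [Sum.elim_inl, Sum.elim_inr] at hr hr' ⊢
        have h4 := h3 a (Sum.inr (Sum.inl ⟨(b, r'), hr.symm, hr'⟩))
        simp only [Ly, Le] at h4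
        refine ⟨fun hh => h4.2 ?_, fun hh => h4.1 hh.symm⟩
        rw [← hh]; ring
      · simp only [Sum.elim_inl, Sum.elim_inr] at hr hr' ⊢
        have h4 := h3 a' (Sum.inl ⟨(b, r), hr'.symm, hr⟩)
        simp only [Ly, Le] at h4
        refine ⟨fun hh => h4.1 ?_, fun hh => h4.2 ?_⟩
        · rw [← hh]; field_simp [hte b]
        · rw [hh]; field_simp [hte b]
      · exact h1 b r r' hr hr'
    · intro f r hr
      rcases r with a | r
      · simp only [Sum.elim_inl] at hr ⊢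
        have h4 := h3 a (Sum.inr (Sum.inr ⟨f, hr.symm⟩))
        simp only [Ly, Le] at h4
        intro hh
        have := h4.2 hh
        omega
      · exact h2 f r hr

/-- functions with given colour sums -/
def DS (c : P → I) (d : I → ℕ) : Finset (P → ℕ) :=
  (Fintype.piFinset fun r => range (d (c r) + 1)).filter fun δ => ∀ j, ∑ r with c r = j, δ r = d j

lemma mem_DS (c : P → I) (d : I → ℕ) (δ : P → ℕ) :
    δ ∈ DS c d ↔ ∀ j, ∑ r with c r = j, δ r = d j := by
  unfold DS
  rw [mem_filter, Fintype.mem_piFinset]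
  constructor
  · exact fun h => h.2
  · intro h
    refine ⟨fun r => ?_, h⟩
    rw [mem_range, Nat.lt_succ_iff, ← h (c r)]
    exact single_le_sum (f := δ) (fun _ _ => Nat.zero_le _) (by simp)

open Classical in
/-- the coefficient of the series -/
noncomputable def Vc (Q : QD K I E F) (p t : K) (c : P → I) (x : P → K) (d : I → ℕ) : K :=
  ∑ δ ∈ DS c d with RR Q t c x δ, Wt Q p t c x δ

lemma mem_DS_split (i : I) (cY : Y → I) (hc : ∀ r, cY r ≠ i) (d : I → ℕ) (δ : A → ℕ) (e : Y → ℕ) :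
    Sum.elim δ e ∈ DS (Sum.elim (fun _ => i) cY) d ↔
      δ ∈ piAntidiag univ (d i) ∧ e ∈ DS cY (Function.update d i 0) := by
  rw [mem_DS, mem_DS, mem_piAntidiag]
  simp only [mem_univ, implies_true, and_true]
  have key : ∀ j, ∑ r with (Sum.elim (fun _ : A => i) cY) r = j, (Sum.elim δ e) r =
      (if i = j then ∑ a, δ a else 0) + ∑ r with cY r = j, e r := by
    intro j
    rw [sum_filter, Fintype.sum_sum_type, sum_filter]
    simp only [Sum.elim_inl, Sum.elim_inr]
    congr 1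
    split_ifs <;> simp
  have hz : ∑ r with cY r = i, e r = 0 := by
    rw [sum_filter]
    apply sum_eq_zero
    intro r _
    rw [if_neg (hc r)]
  constructor
  · intro h
    refine ⟨?_, fun j => ?_⟩
    · have := h i
      rw [key, if_pos rfl, hz, add_zero] at this
      exact this
    · by_cases hj : j = i
      · subst hj
        rw [hz, Function.update_self]
      · have := h j
        rw [key, if_neg (fun h => hj h.symm), zero_add] at this
        rw [this, Function.update_of_ne hj]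
  · rintro ⟨h1, h2⟩ j
    rw [key]
    by_cases hj : j = i
    · subst hj
      rw [if_pos rfl, hz, add_zero]
      exact h1
    · rw [if_neg (fun h => hj h.symm), zero_add, h2, Function.update_of_ne hj]

/-- number of out-type neighbours -/
def Ns (Q : QD K I E F) (i : I) (cY : Y → I) : ℕ :=
  Fintype.card {q : E × Y // Q.src q.1 = i ∧ cY q.2 = Q.tgt q.1}

/-- out-type degree -/
def Es (Q : QD K I E F) (i : I) (d : I → ℕ) : ℕ := ∑ b with Q.src b = i, d (Q.tgt b)

/-- in-type degree -/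
def Et (Q : QD K I E F) (i : I) (d : I → ℕ) : ℕ := ∑ b with Q.tgt b = i, d (Q.src b)

lemma sum_out (Q : QD K I E F) (i : I) (hl : ∀ e, Q.src e ≠ Q.tgt e) (cY : Y → I) (d : I → ℕ)
    (e : Y → ℕ) (he : e ∈ DS cY (Function.update d i 0)) :
    ∑ q : {q : E × Y // Q.src q.1 = i ∧ cY q.2 = Q.tgt q.1}, e q.1.2 = Es Q i d := by
  rw [sum_sub (fun q : E × Y => Q.src q.1 = i ∧ cY q.2 = Q.tgt q.1) (fun q => e q.2),
    Fintype.sum_prod_type]
  unfold Es
  rw [sum_filter]
  apply sum_congr rfl; intro b _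
  by_cases hb : Q.src b = i
  · rw [if_pos hb]
    rw [mem_DS] at he
    have h1 := he (Q.tgt b)
    rw [Function.update_of_ne (fun h => hl b (hb.trans h.symm))] at h1
    rw [← h1, sum_filter]
    simp only [hb, true_and]
  · rw [if_neg hb]
    simp [hb]

lemma sum_in (Q : QD K I E F) (i : I) (hl : ∀ e, Q.src e ≠ Q.tgt e) (cY : Y → I) (d : I → ℕ)
    (e : Y → ℕ) (he : e ∈ DS cY (Function.update d i 0)) :
    ∑ q : {q : E × Y // Q.tgt q.1 = i ∧ cY q.2 = Q.src q.1}, e q.1.2 = Et Q i d := by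
  rw [sum_sub (fun q : E × Y => Q.tgt q.1 = i ∧ cY q.2 = Q.src q.1) (fun q => e q.2),
    Fintype.sum_prod_type]
  unfold Et
  rw [sum_filter]
  apply sum_congr rfl; intro b _
  by_cases hb : Q.tgt b = i
  · rw [if_pos hb]
    rw [mem_DS] at he
    have h1 := he (Q.src b)
    rw [Function.update_of_ne (fun h => hl b (h.trans hb.symm))] at h1
    rw [← h1, sum_filter]
    simp only [hb, true_and]
  · rw [if_neg hb]
    simp [hb]

lemma sum_Le (Q : QD K I E F) (i : I) (hl : ∀ e, Q.src e ≠ Q.tgt e) (cY : Y → I) (d : I → ℕ)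
    (e : Y → ℕ) (he : e ∈ DS cY (Function.update d i 0)) :
    ∑ l, Le Q i cY e l = Et Q i d + Es Q i d := by
  rw [Fintype.sum_sum_type, Fintype.sum_sum_type]
  simp only [Le, sum_const_zero, add_zero]
  rw [sum_out Q i hl cY d e he, sum_in Q i hl cY d e he]

open Classical in
lemma Vc_split (Q : QD K I E F) {p t : K} (ok : Ok p t) (i : I) (hl : ∀ e, Q.src e ≠ Q.tgt e)
    (hte : ∀ e, Q.te e ≠ 0) (cY : Y → I) (hc : ∀ r, cY r ≠ i)
    (xA : A → K) (xY : Y → K) (hxA : ∀ a, xA a ≠ 0) (hxY : ∀ r, xY r ≠ 0) (d : I → ℕ) :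
    Vc Q p t (Sum.elim (fun _ => i) cY) (Sum.elim xA xY) d =
      ∑ e ∈ DS cY (Function.update d i 0) with RR Q t cY xY e,
      Wt Q p t cY xY e * ((p / t) ^ ((Ns Q i cY : ℤ) * d i - (Fintype.card A : ℤ) * Es Q i d) *
        ∑ δ ∈ piAntidiag univ (d i) with Rc t xA (Ly Q t i cY xY) (Le Q i cY e) δ,
          fullI p t xA (Ly Q t i cY xY) (Le Q i cY e) δ) := by
  unfold Vc
  have hbij : ∑ δ ∈ DS (Sum.elim (fun _ : A => i) cY) d with
        RR Q t (Sum.elim (fun _ => i) cY) (Sum.elim xA xY) δ,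
        Wt Q p t (Sum.elim (fun _ => i) cY) (Sum.elim xA xY) δ =
      ∑ z ∈ ((DS cY (Function.update d i 0)) ×ˢ (piAntidiag (univ : Finset A) (d i))).filter
        (fun z => RR Q t cY xY z.1 ∧ Rc t xA (Ly Q t i cY xY) (Le Q i cY z.1) z.2),
        Wt Q p t (Sum.elim (fun _ => i) cY) (Sum.elim xA xY) (Sum.elim z.2 z.1) := by
    refine sum_nbij' (fun δ => (fun r => δ (Sum.inr r), fun a => δ (Sum.inl a)))
      (fun z => Sum.elim z.2 z.1) ?_ ?_ ?_ ?_ ?_
    · intro δ hδ
      have e1 : δ = Sum.elim (fun a => δ (Sum.inl a)) (fun r => δ (Sum.inr r)) := by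
        funext r; rcases r with a | r <;> rfl
      rw [mem_filter] at hδ
      rw [e1, mem_DS_split i cY hc, RR_split Q i hl hte ok.ht cY hc] at hδ
      rw [mem_filter, mem_product]
      exact ⟨⟨hδ.1.2, hδ.1.1⟩, hδ.2⟩
    · intro z hz
      rw [mem_filter, mem_product] at hz
      rw [mem_filter, mem_DS_split i cY hc, RR_split Q i hl hte ok.ht cY hc]
      exact ⟨⟨hz.1.2, hz.1.1⟩, hz.2⟩
    · intro δ _
      funext r; rcases r with a | r <;> rfl
    · intro z _
      rfl
    · intro δ _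
      congr 1
      funext r; rcases r with a | r <;> rfl
  rw [hbij]
  rw [sum_finset_product' _ ((DS cY (Function.update d i 0)).filter (fun e => RR Q t cY xY e))
    (fun e => (piAntidiag (univ : Finset A) (d i)).filter
      (fun δ => Rc t xA (Ly Q t i cY xY) (Le Q i cY e) δ))
    (f := fun e δ => Wt Q p t (Sum.elim (fun _ => i) cY) (Sum.elim xA xY) (Sum.elim δ e))]
  · apply sum_congr rfl
    intro e he
    rw [mem_filter] at he
    rw [mul_sum, mul_sum]
    apply sum_congr rfl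
    intro δ hδ
    rw [mem_filter, mem_piAntidiag] at hδ
    rw [Wt_split Q ok i hl hte cY hc xA xY hxA hxY]
    have h1 : ∑ a, (δ a : ℤ) = d i := by
      rw [← Nat.cast_sum]
      exact congrArg _ hδ.1.1
    have h2 : ∑ q : {q : E × Y // Q.src q.1 = i ∧ cY q.2 = Q.tgt q.1}, (e q.1.2 : ℤ) =
        Es Q i d := by
      rw [← Nat.cast_sum, sum_out Q i hl cY d e he.1]
    rw [h1, h2]
    rfl
  · intro z
    simp only [mem_filter, mem_product]
    tauto

open Classical in
/-- the reflection step for the coefficients -/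
theorem Vc_step (Q : QD K I E F) {p t : K} (ok : Ok p t) (i : I) (hl : ∀ e, Q.src e ≠ Q.tgt e)
    (hte : ∀ e, Q.te e ≠ 0) (cY : Y → I) (hc : ∀ r, cY r ≠ i)
    (xA : A → K) (xY : Y → K) (hxA : ∀ a, xA a ≠ 0) (hxY : ∀ r, xY r ≠ 0) (κ : B → A)
    (h0 : ∃ w : A ⊕ B ≃ Lf Q i cY, Lab p t xA (Ly Q t i cY xY) κ w) (d : I → ℕ) :
    Vc Q p t (Sum.elim (fun _ => i) cY) (Sum.elim xA xY) d =
      ∑ z ∈ antidiagonal (d i),
        PowerSeries.coeff z.1 (gG p t (Fintype.card B) (Fintype.card A)) *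
        ((p / t) ^ ((Ns Q i cY : ℤ) * z.1) *
        if z.2 ≤ Et Q i d + Es Q i d then
          (p / t) ^ (((2 * Ns Q i cY : ℤ) - Fintype.card A - Fintype.card B) * z.2 +
            ((Fintype.card A : ℤ) - Ns Q i cY) * (Et Q i d + Es Q i d : ℕ) -
            ((Fintype.card A : ℤ) - Fintype.card B) * Es Q i d) *
          Vc Q p t (Sum.elim (fun _ => i) cY) (Sum.elim (fun b => xA (κ b)) xY)
            (Function.update d i (Et Q i d + Es Q i d - z.2))
        else 0) := by
  have hcc : p / t ≠ 0 := div_ne_zero ok.hp ok.ht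
  rw [Vc_split Q ok i hl hte cY hc xA xY hxA hxY]
  have h1 : ∀ e ∈ (DS cY (Function.update d i 0)).filter (fun e => RR Q t cY xY e),
      Wt Q p t cY xY e * ((p / t) ^ ((Ns Q i cY : ℤ) * d i - (Fintype.card A : ℤ) * Es Q i d) *
        ∑ δ ∈ piAntidiag univ (d i) with Rc t xA (Ly Q t i cY xY) (Le Q i cY e) δ,
          fullI p t xA (Ly Q t i cY xY) (Le Q i cY e) δ) =
      ∑ z ∈ antidiagonal (d i),
        PowerSeries.coeff z.1 (gG p t (Fintype.card B) (Fintype.card A)) *
        ((p / t) ^ ((Ns Q i cY : ℤ) * z.1) *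
        if z.2 ≤ Et Q i d + Es Q i d then
          (p / t) ^ (((2 * Ns Q i cY : ℤ) - Fintype.card A - Fintype.card B) * z.2 +
            ((Fintype.card A : ℤ) - Ns Q i cY) * (Et Q i d + Es Q i d : ℕ) -
            ((Fintype.card A : ℤ) - Fintype.card B) * Es Q i d) *
          (Wt Q p t cY xY e * ((p / t) ^ ((Ns Q i cY : ℤ) * (Et Q i d + Es Q i d - z.2 : ℕ) -
            (Fintype.card B : ℤ) * Es Q i d) *
          ∑ δ ∈ piAntidiag univ (Et Q i d + Es Q i d - z.2) with
            Rc t (fun b => xA (κ b)) (Ly Q t i cY xY) (Le Q i cY e) δ,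
            fullI p t (fun b => xA (κ b)) (Ly Q t i cY xY) (Le Q i cY e) δ))
        else 0) := by
    intro e he
    rw [mem_filter] at he
    rw [LL_main ok h0, sum_Le Q i hl cY d e he.1]
    have hE : ∑ l, (Le Q i cY e l : ℤ) = (Et Q i d + Es Q i d : ℕ) := by
      rw [← Nat.cast_sum, sum_Le Q i hl cY d e he.1]
    rw [hE, mul_sum, mul_sum]
    apply sum_congr rfl
    intro z hz
    rw [HasAntidiagonal.mem_antidiagonal] at hz
    split_ifs with hle
    · rw [← hz]
      have e1 : ∀ (W G S : K) (a b c a' b' : ℤ), a + b = c + a' + b' →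
          W * ((p / t) ^ a * (G * ((p / t) ^ b * S))) =
          G * ((p / t) ^ c * ((p / t) ^ a' * (W * ((p / t) ^ b' * S)))) := by
        intro W G S a b c a' b' hh
        have : (p / t) ^ a * (p / t) ^ b = (p / t) ^ c * (p / t) ^ a' * (p / t) ^ b' := by
          rw [← zpow_add₀ hcc, ← zpow_add₀ hcc, ← zpow_add₀ hcc, hh]
        linear_combination W * G * S * this
      apply e1
      rw [Nat.cast_sub hle]
      push_cast
      ring
    · ring
  rw [sum_congr rfl h1, sum_comm]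
  apply sum_congr rfl
  intro z hz
  rw [← mul_sum, ← mul_sum]
  congr 2
  split_ifs with hle
  · rw [Vc_split Q ok i hl hte cY hc (fun b => xA (κ b)) xY (fun b => hxA _) hxY, ← mul_sum]
    congr 1
    have u1 : Function.update (Function.update d i (Et Q i d + Es Q i d - z.2)) i 0 =
      Function.update d i 0 := by simp
    have u2 : Es Q i (Function.update d i (Et Q i d + Es Q i d - z.2)) = Es Q i d := by
      unfold Es
      apply sum_congr rfl
      intro b hb
      rw [mem_filter] at hb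
      rw [Function.update_of_ne (fun h => hl b (hb.2.trans h.symm))]
    rw [u1, u2, Function.update_self]
  · simp

end Pool.Agent.Run7.h657
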