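import Pool.Agent.Run7.h657.Slot

/-! The induction. -/

set_option linter.unusedSectionVars false

namespace Pool.Agent.Run7.h657

open Finset Module

variable {K : Type*} [Field K]

section Equivalence

variable {I E F : Type*} [Fintype I] [Fintype E] [Fintype F] [DecidableEq I]
  [DecidableEq E] [DecidableEq F] {P P' : Type*} [Fintype P] [Fintype P'] [DecidableEq P]
  [DecidableEq P']

lemma Wt_equiv (Q : QD K I E F) (p t : K) (c : P → I) (x : P → K) (w : P' ≃ P) (δ : P → ℕ) :
    Wt Q p t (c ∘ w) (x ∘ w) (δ ∘ w) = Wt Q p t c x δ := by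
  unfold Wt
  congr 1
  · congr 1
    · apply prod_congr rfl; intro e _
      rw [← w.prod_comp]
      apply prod_congr rfl; intro r _
      rw [← w.prod_comp]
      rfl
    · apply prod_congr rfl; intro f _
      rw [← w.prod_comp]
      rfl
  · rw [← w.prod_comp]
    apply prod_congr rfl; intro r _
    rw [← w.prod_comp]
    rfl

lemma RR_equiv (Q : QD K I E F) (t : K) (c : P → I) (x : P → K) (w : P' ≃ P) (δ : P → ℕ) :
    RR Q t (c ∘ w) (x ∘ w) (δ ∘ w) ↔ RR Q t c x δ := by
  constructor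
  · rintro ⟨h1, h2⟩
    refine ⟨fun e r r' hr hr' => ?_, fun f r hr hh => ?_⟩
    · have := h1 e (w.symm r) (w.symm r') (by simpa using hr) (by simpa using hr')
      simpa using this
    · have := h2 f (w.symm r) (by simpa using hr) (by simpa using hh)
      simpa using this
  · rintro ⟨h1, h2⟩
    exact ⟨fun e r r' => h1 e (w r) (w r'), fun f r => h2 f (w r)⟩

lemma DS_equiv (c : P → I) (w : P' ≃ P) (d : I → ℕ) (δ : P → ℕ) :
    δ ∘ w ∈ DS (c ∘ w) d ↔ δ ∈ DS c d := by
  rw [mem_DS, mem_DS]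
  have : ∀ j, ∑ r with (c ∘ w) r = j, (δ ∘ w) r = ∑ r with c r = j, δ r := by
    intro j
    rw [sum_filter, sum_filter]
    exact w.sum_comp (fun r => if c r = j then δ r else 0)
  simp_rw [this]

lemma Vc_equiv (Q : QD K I E F) (p t : K) (c : P → I) (x : P → K) (w : P' ≃ P) (d : I → ℕ) :
    Vc Q p t (c ∘ w) (x ∘ w) d = Vc Q p t c x d := by
  classical
  unfold Vc
  symm
  refine sum_nbij' (fun δ => δ ∘ w) (fun δ => δ ∘ w.symm) ?_ ?_ ?_ ?_ ?_
  · intro δ hδ
    rw [mem_filter] at hδ ⊢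
    rwa [DS_equiv, RR_equiv]
  · intro δ hδ
    rw [mem_filter] at hδ ⊢
    have : (δ ∘ w.symm) ∘ w = δ := by funext r; simp
    rwa [← DS_equiv c w, ← RR_equiv Q t c x w, this]
  · intro δ _; funext r; simp
  · intro δ _; funext r; simp
  · intro δ _
    exact (Wt_equiv Q p t c x w δ).symm

lemma Vs_equiv (Q : QD K I E F) (p t : K) (c : P → I) (x : P → K) (w : P' ≃ P) :
    Vs Q p t (c ∘ w) (x ∘ w) = Vs Q p t c x := by
  ext d
  exact Vc_equiv Q p t c x w d

end Equivalence

variable {I E F P : Type*} [Fintype I] [Fintype E] [Fintype F] [Fintype P] [DecidableEq I]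
  [DecidableEq P] [DecidableEq E] [DecidableEq F]

/-- the product side -/
noncomputable def PF (p t : K) (R : Finset (I →₀ ℕ)) (m : (I →₀ ℕ) → ℕ) (b : I → ℤ) :
    MvPowerSeries I K :=
  ∏ α ∈ R, ∏ l ∈ range (m α), ev (rser p t 1) α ((p / t) ^ ((l : ℤ) + 1 - pr α b))

lemma ev_mul (F G : PowerSeries K) {β : I →₀ ℕ} (hβ : β ≠ 0) (u : K) :
    ev (F * G) β u = ev F β u * ev G β u := by
  unfold ev
  exact PowerSeries.subst_mul (hasSubst_mon hβ u) F G

lemma ev_one {β : I →₀ ℕ} (hβ : β ≠ 0) (u : K) : ev (1 : PowerSeries K) β u = 1 := by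
  unfold ev
  have := map_one (PowerSeries.substAlgHom (R := K) (hasSubst_mon hβ u))
  rwa [PowerSeries.coe_substAlgHom] at this

lemma ev_prod {ι : Type*} (S : Finset ι) (F : ι → PowerSeries K) {β : I →₀ ℕ} (hβ : β ≠ 0)
    (u : K) : ev (∏ a ∈ S, F a) β u = ∏ a ∈ S, ev (F a) β u := by
  classical
  induction S using Finset.induction_on with
  | empty => simpa using ev_one hβ u
  | insert a S ha ih => rw [prod_insert ha, prod_insert ha, ev_mul _ _ hβ, ih]

lemma ev_rser (p t s : K) {β : I →₀ ℕ} (hβ : β ≠ 0) (u : K) :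
    ev (rser p t s) β u = ev (rser p t 1) β (s * u) := by
  ext d
  by_cases hd : ∃ m : ℕ, d = m • β
  · obtain ⟨m, rfl⟩ := hd
    rw [coeff_ev_smul _ hβ, coeff_ev_smul _ hβ]
    simp only [rser, PowerSeries.coeff_mk, one_pow, mul_one, mul_pow]
    ring
  · push Not at hd
    rw [coeff_ev_not _ hβ _ _ hd, coeff_ev_not _ hβ _ _ hd]

lemma ev_gG {p t : K} (ok : Ok p t) (b k : ℕ) (i : I) (N : ℤ) :
    ev (gG p t b k) (Finsupp.single i 1) ((p / t) ^ N) =
      ∏ l ∈ range (k - b), ev (rser p t 1) (Finsupp.single i 1)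
        ((p / t) ^ ((l : ℤ) + 1 - (k - N))) := by
  unfold gG
  rw [ev_prod _ _ (single_ne i)]
  have hc : p / t ≠ 0 := div_ne_zero ok.hp ok.ht
  have h1 : ∀ j : ℕ, ev (rser p t ((t / p) ^ j)) (Finsupp.single i 1) ((p / t) ^ N) =
      ev (rser p t 1) (Finsupp.single i 1) ((p / t) ^ (N - j)) := by
    intro j
    rw [ev_rser p t _ (single_ne i)]
    congr 1
    rw [zpow_sub₀ hc, zpow_natCast, ← inv_div p t, inv_pow]
    field_simp
  simp_rw [h1]
  rw [Finset.prod_Ico_eq_prod_range]
  rw [← prod_range_reflect]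
  apply prod_congr rfl
  intro l hl
  rw [mem_range] at hl
  congr 2
  omega

/-- the entries of the weight -/
def muv (Q : QD K I E F) (c : P → I) (j : I) : ℤ :=
  ((univ.filter fun f => Q.cF f = j).card : ℤ) + (Et Q j (dv c) + Es Q j (dv c) : ℕ) -
    2 * (dv c j : ℤ)

/-- the exponents of the substitution -/
def bv (Q : QD K I E F) (c : P → I) (j : I) : ℤ := (dv c j : ℤ) - Es Q j (dv c)

/-- positive real roots -/
def PRt (Q : QD K I E F) (α : I →₀ ℕ) : Prop :=
  ∃ u i, act (nE Q) u (sr i) = fun j => (α j : ℤ)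

lemma nE_self (Q : QD K I E F) (hl : ∀ e, Q.src e ≠ Q.tgt e) (i : I) : nE Q i i = 0 := by
  unfold nE
  rw [Nat.add_eq_zero_iff]
  constructor
  · rw [card_eq_zero, filter_eq_empty_iff]
    rintro e _ ⟨h1, h2⟩
    exact hl e (h2.trans h1.symm)
  · rw [card_eq_zero, filter_eq_empty_iff]
    rintro e _ ⟨h1, h2⟩
    exact hl e (h1.trans h2.symm)

lemma nE_symm (Q : QD K I E F) (i j : I) : nE Q i j = nE Q j i := by
  unfold nE
  rw [add_comm]
  congr 1
  · congr 1
    ext e
    simp only [mem_filter, mem_univ, true_and]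
    tauto
  · congr 1
    ext e
    simp only [mem_filter, mem_univ, true_and]
    tauto

lemma PRt_single (Q : QD K I E F) (i : I) : PRt Q (Finsupp.single i 1) := by
  refine ⟨[], i, ?_⟩
  funext j
  by_cases hj : j = i
  · subst hj; simp [act]
  · simp [act, Finsupp.single_apply, Ne.symm hj, hj]

lemma PRt_ne (Q : QD K I E F) (hl : ∀ e, Q.src e ≠ Q.tgt e) {α : I →₀ ℕ} (h : PRt Q α) :
    α ≠ 0 := by
  rintro rfl
  obtain ⟨u, i, h1⟩ := h
  have h2 : act (nE Q) u (sr i) = (0 : ℤ) • sr i := by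
    rw [h1]; funext j; simp
  have := mult_one (nE_self Q hl) u i i 0 h2
  omega

/-- a simple reflection preserves the positive real roots other than the simple one -/
lemma PRt_refl (Q : QD K I E F) (hl : ∀ e, Q.src e ≠ Q.tgt e) (i : I) {α : I →₀ ℕ}
    (h : PRt Q α) (hne : α ≠ Finsupp.single i 1) :
    (rQ Q hl i).C α ∧ PRt Q ((rQ Q hl i).s α) := by
  obtain ⟨u, k, hu⟩ := h
  have hact : act (nE Q) (i :: u) (sr k) = rf (nE Q) i (fun j => (α j : ℤ)) := by
    show rf (nE Q) i (act (nE Q) u (sr k)) = _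
    rw [hu]
  have hE : ∑ j, (nE Q i j : ℤ) * (α j : ℤ) = ((Et Q i α + Es Q i α : ℕ) : ℤ) := by
    rw [E_cast]
  -- another coordinate is positive
  have hex : ∃ j, j ≠ i ∧ 0 < α j := by
    by_contra hcon
    push Not at hcon
    have h1 : act (nE Q) u (sr k) = (α i : ℤ) • sr i := by
      rw [hu]
      funext j
      by_cases hj : j = i
      · subst hj; simp
      · have := hcon j hj
        simp [Pi.single_eq_of_ne hj]
        omega
    have h2 := mult_one (nE_self Q hl) u k i _ h1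
    have h3 : α i = 1 := by
      have := Int.natAbs_dvd_natAbs.2 h2
      simpa using this
    apply hne
    ext j
    by_cases hj : j = i
    · subst hj; simp [h3]
    · have := hcon j hj
      simp [Finsupp.single_apply, Ne.symm hj]
      omega
  obtain ⟨j, hj, hpos⟩ := hex
  have hnn : 0 ≤ act (nE Q) (i :: u) (sr k) := by
    rcases dichotomy (nE_self Q hl) (nE_symm Q) (i :: u) k with h1 | h1
    · exact h1
    · exfalso
      have h2 := h1 j
      rw [hact, rf, Function.update_of_ne hj] at h2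
      simp only [Pi.zero_apply] at h2
      omega
  have hC : (rQ Q hl i).C α := by
    have h1 := hnn i
    rw [hact, rf, Function.update_self, hE] at h1
    simp only [Pi.zero_apply] at h1
    show α i ≤ Et Q i α + Es Q i α
    omega
  refine ⟨hC, i :: u, k, ?_⟩
  rw [hact]
  funext l
  by_cases hl' : l = i
  · subst hl'
    rw [rf, Function.update_self, hE]
    show _ = (((rQ Q hl l).s α (rQ Q hl l).i : ℕ) : ℤ)
    rw [Rfl.s_i, Nat.cast_sub hC]
    rfl
  · rw [rf, Function.update_of_ne hl', Rfl.s_ne _ _ hl']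

/-- the set of roots after one reflection -/
lemma root_step (Q : QD K I E F) (hl : ∀ e, Q.src e ≠ Q.tgt e) (i : I) (μ μ' : I → ℤ)
    (hμ : μ i < 0) (hμ' : ∀ β : I →₀ ℕ, (rQ Q hl i).C β → pr β μ' = pr ((rQ Q hl i).s β) μ)
    (hμi : μ' i = -μ i) (R' : Finset (I →₀ ℕ))
    (hR' : ∀ α, α ∈ R' ↔ PRt Q α ∧ pr α μ' < 0) :
    (∀ β ∈ R', β ≠ Finsupp.single i 1 ∧ (rQ Q hl i).C β ∧ β ≠ 0) ∧
    ∀ α, α ∈ insert (Finsupp.single i 1) (R'.image (rQ Q hl i).s) ↔ PRt Q α ∧ pr α μ < 0 := by
  have hsingle : ∀ ν : I → ℤ, pr (Finsupp.single i 1) ν = ν i := by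
    intro ν
    unfold pr
    rw [sum_eq_single i]
    · simp
    · intro j _ hj
      simp [Finsupp.single_apply, Ne.symm hj]
    · simp
  have h1 : ∀ β ∈ R', β ≠ Finsupp.single i 1 := by
    rintro β hβ rfl
    rw [hR', hsingle] at hβ
    omega
  refine ⟨fun β hβ => ⟨h1 β hβ, (PRt_refl Q hl i ((hR' β).1 hβ).1 (h1 β hβ)).1,
    PRt_ne Q hl ((hR' β).1 hβ).1⟩, ?_⟩
  intro α
  rw [mem_insert, mem_image]
  constructor
  · rintro (rfl | ⟨β, hβ, rfl⟩)
    · exact ⟨PRt_single Q i, by rw [hsingle]; exact hμ⟩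
    · have h2 := PRt_refl Q hl i ((hR' β).1 hβ).1 (h1 β hβ)
      refine ⟨h2.2, ?_⟩
      rw [← hμ' β h2.1]
      exact ((hR' β).1 hβ).2
  · rintro ⟨h2, h3⟩
    by_cases hne : α = Finsupp.single i 1
    · exact Or.inl hne
    · right
      have h4 := PRt_refl Q hl i h2 hne
      refine ⟨(rQ Q hl i).s α, ?_, Rfl.s_s _ h4.1⟩
      rw [hR']
      refine ⟨h4.2, ?_⟩
      rw [hμ' _ (Rfl.C_s _ _), Rfl.s_s _ h4.1]
      exact h3

/-- the twist of the product side -/
lemma PF_step (Q : QD K I E F) {p t : K} (ok : Ok p t) (hl : ∀ e, Q.src e ≠ Q.tgt e) (i : I)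
    (χ : (I →₀ ℕ) →+ ℤ) (R' : Finset (I →₀ ℕ)) (m m' : (I →₀ ℕ) → ℕ) (b b' : I → ℤ)
    (hR : ∀ β ∈ R', (rQ Q hl i).C β ∧ β ≠ 0)
    (hm : ∀ β ∈ R', m' β = m ((rQ Q hl i).s β))
    (hχ : ∀ β ∈ R', χ ((rQ Q hl i).s β) = pr β b' - pr ((rQ Q hl i).s β) b) :
    (rQ Q hl i).T (p / t) χ (PF p t R' m' b') =
      PF p t (R'.image (rQ Q hl i).s) m b := by
  have hc : p / t ≠ 0 := div_ne_zero ok.hp ok.ht
  unfold PF
  rw [((rQ Q hl i).T_prod hc χ R' _ (fun β hβ => ((rQ Q hl i).T_prod hc χ _ _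
    (fun l _ => (rQ Q hl i).Sup_ev _ (hR β hβ).2 (hR β hβ).1 _)).2)).1]
  rw [prod_image]
  · apply prod_congr rfl
    intro β hβ
    rw [((rQ Q hl i).T_prod hc χ _ _
      (fun l _ => (rQ Q hl i).Sup_ev _ (hR β hβ).2 (hR β hβ).1 _)).1, hm β hβ]
    apply prod_congr rfl
    intro l _
    rw [(rQ Q hl i).T_ev hc χ _ (hR β hβ).2 (hR β hβ).1, ← zpow_add₀ hc, hχ β hβ]
    congr 2
    ring
  · intro β hβ β' hβ' hh
    rw [← (rQ Q hl i).s_s (hR β hβ).1, ← (rQ Q hl i).s_s (hR β' hβ').1, hh]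

/-- the statement proved by induction -/
def Claim (Q : QD K I E F) (p t : K) (c : P → I) (x : P → K) : Prop :=
  ∃ R : Finset (I →₀ ℕ), (∀ α, α ∈ R ↔ PRt Q α ∧ pr α (muv Q c) < 0) ∧
    Vs Q p t c x = PF p t R (fun α => (-pr α (muv Q c)).toNat) (bv Q c)

lemma claim_empty (Q : QD K I E F) (p t : K) (c : P → I) (x : P → K) [IsEmpty P] :
    Claim Q p t c x := by
  have hdv : dv c = fun _ => 0 := by
    funext j
    unfold dv
    rw [card_eq_zero, filter_eq_empty_iff]
    intro r
    exact isEmptyElim r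
  have hmu : ∀ j, 0 ≤ muv Q c j := by
    intro j
    unfold muv
    rw [hdv]
    simp only [Nat.cast_zero, mul_zero, sub_zero]
    positivity
  refine ⟨∅, ?_, ?_⟩
  · intro α
    simp only [notMem_empty, false_iff, not_and, not_lt]
    intro _
    exact sum_nonneg fun j _ => mul_nonneg (Int.natCast_nonneg _) (hmu j)
  · unfold PF
    rw [prod_empty]
    ext d
    rw [coeff_Vs, MvPowerSeries.coeff_one]
    classical
    unfold Vc
    by_cases hd : d = 0
    · subst hd
      rw [if_pos rfl]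
      have hW : ∀ δ : P → ℕ, Wt Q p t c x δ = 1 := by
        intro δ
        unfold Wt
        simp
      simp only [hW]
      rw [sum_const, nsmul_eq_mul, mul_one]
      have : (filter (fun δ => RR Q t c x δ) (DS c (⇑(0 : I →₀ ℕ)))) = {fun r => isEmptyElim r} := by
        ext δ
        simp only [mem_filter, mem_DS, mem_singleton]
        constructor
        · intro _
          funext r
          exact isEmptyElim r
        · intro _
          refine ⟨fun j => ?_, ⟨fun e r => isEmptyElim r, fun f r => isEmptyElim r⟩⟩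
          rw [sum_eq_zero]
          · rfl
          · intro r
            exact isEmptyElim r
      rw [this, card_singleton, Nat.cast_one]
    · rw [if_neg hd]
      apply sum_eq_zero
      intro δ hδ
      exfalso
      apply hd
      rw [mem_filter, mem_DS] at hδ
      ext j
      rw [← hδ.1 j, sum_eq_zero]
      · rfl
      · intro r
        exact isEmptyElim r

lemma pr_s (Q : QD K I E F) (hl : ∀ e, Q.src e ≠ Q.tgt e) (i : I) (ν : I → ℤ) {β : I →₀ ℕ}
    (hC : (rQ Q hl i).C β) :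
    pr ((rQ Q hl i).s β) ν = pr β ν + (((Et Q i β + Es Q i β : ℕ) : ℤ) - 2 * β i) * ν i := by
  have h1 : ∀ j, (((rQ Q hl i).s β j : ℕ) : ℤ) =
      (β j : ℤ) + if j = i then (((Et Q i β + Es Q i β : ℕ) : ℤ) - 2 * β i) else 0 := by
    intro j
    by_cases hj : j = i
    · subst hj
      rw [if_pos rfl]
      have h2 : (rQ Q hl j).s β j = (Et Q j β + Es Q j β) - β j := (rQ Q hl j).s_i β
      have h3 : β j ≤ Et Q j β + Es Q j β := hC
      rw [h2, Nat.cast_sub h3]
      ring
    · rw [if_neg hj, Rfl.s_ne _ _ hj, add_zero]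
  unfold pr
  simp only [h1, add_mul, sum_add_distrib, ite_mul, zero_mul, sum_ite_eq', mem_univ, if_true]

/-- dependence of the Euler form on one entry -/
lemma euler_update (Q : QD K I E F) (hl : ∀ e, Q.src e ≠ Q.tgt e) (i : I) (v : I → ℕ) :
    ∃ R S T : ℕ, ∀ m : ℕ,
      ∑ e, (Function.update v i m) (Q.src e) * (Function.update v i m) (Q.tgt e) =
        R + m * (Et Q i v + Es Q i v) ∧
      ∑ f, (Function.update v i m) (Q.cF f) = S + m * (univ.filter fun f => Q.cF f = i).card ∧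
      ∑ j, (Function.update v i m) j * (Function.update v i m) j = T + m * m := by
  refine ⟨∑ e, (Function.update v i 0) (Q.src e) * (Function.update v i 0) (Q.tgt e),
    ∑ f, (Function.update v i 0) (Q.cF f),
    ∑ j, (Function.update v i 0) j * (Function.update v i 0) j, ?_⟩
  intro m
  refine ⟨?_, ?_, ?_⟩
  · unfold Et Es
    rw [sum_filter, sum_filter, ← sum_add_distrib, mul_sum, ← sum_add_distrib]
    apply sum_congr rfl; intro e _
    by_cases h1 : Q.tgt e = i
    · have h2 : Q.src e ≠ i := fun h => hl e (h.trans h1.symm)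
      rw [if_pos h1, if_neg h2, h1]
      simp [Function.update_of_ne h2]
      ring
    · by_cases h2 : Q.src e = i
      · rw [if_neg h1, if_pos h2, h2]
        simp [Function.update_of_ne h1]
      · rw [if_neg h1, if_neg h2]
        simp [Function.update_of_ne h1, Function.update_of_ne h2]
  · rw [card_filter, mul_sum, ← sum_add_distrib]
    apply sum_congr rfl; intro f _
    by_cases h1 : Q.cF f = i
    · rw [if_pos h1, h1]; simp
    · rw [if_neg h1]; simp [Function.update_of_ne h1]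
  · rw [← sum_erase_add _ _ (mem_univ i), ← sum_erase_add (a := i) (s := univ)
      (f := fun j => Function.update v i 0 j * Function.update v i 0 j) (mem_univ i)]
    simp only [Function.update_self, mul_zero, add_zero]
    congr 1
    apply sum_congr rfl
    intro j hj
    rw [Function.update_of_ne (ne_of_mem_erase hj), Function.update_of_ne (ne_of_mem_erase hj)]

lemma card_VA (c : P → I) (i : I) : Fintype.card (VA c i) = dv c i := by
  rw [Fintype.card_subtype]; rfl

end Pool.Agent.Run7.h657
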