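import Pool.Agent.Run7.h657.Loc

/-! The local duality at a vertex. -/

set_option linter.unusedSectionVars false

namespace Pool.Agent.Run7.h657

open Finset

variable {K : Type*} [Field K]
variable {A B L : Type*} [Fintype A] [Fintype B] [Fintype L] [DecidableEq A] [DecidableEq B]
  [DecidableEq L]

/-- the part of the summand at one vertex -/
def fullI (p t : K) (x : A → K) (y : L → K) (e : L → ℕ) (δ : A → ℕ) : K :=
  (∏ a, ∏ l, Qz p t (x a / y l) ((δ a : ℤ) - e l)) /
    ∏ a, ∏ a', Qz p t (x a / x a') ((δ a : ℤ) - δ a')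

/-- the regularity constraints at one vertex -/
def Rc (t : K) (x : A → K) (y : L → K) (e : L → ℕ) (δ : A → ℕ) : Prop :=
  ∀ a l, (y l = x a → e l ≤ δ a) ∧ (y l = t * x a → δ a ≤ e l)

/-- parameters in general position -/
structure Ok (p t : K) : Prop where
  hp : p ≠ 0
  ht : t ≠ 0
  hpp : ∀ m : ℕ, 0 < m → p ^ m ≠ 1
  htp : ∀ l : ℕ, t ≠ p ^ (l + 1)

/-- labelling of the neighbours of a vertex -/
structure Lab (p t : K) (x : A → K) (y : L → K) (κ : B → A) (w : A ⊕ B ≃ L) : Prop where
  x0 : ∀ a, x a ≠ 0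
  xinj : Function.Injective x
  κinj : Function.Injective κ
  fr : ∀ a a' (j : ℤ), j ≠ 0 → x a ≠ x a' * p ^ j
  frt : ∀ a a' (j : ℤ), j ≠ 0 → x a ≠ t * x a' * p ^ j
  hA : ∀ a, y (w (Sum.inl a)) = x a
  hB : ∀ b, y (w (Sum.inr b)) = t * x (κ b)
  soc : ∀ a a', x a' = t * x a → ∃ b, κ b = a

/-- the constant -/
def bas (p t : K) (x : A → K) (κ : B → A) (w : A ⊕ B ≃ L) (e : L → ℕ) : K :=
  ∏ a, ∏ b, Qz p t (x a / (t * x (κ b))) ((e (w (Sum.inl a)) : ℤ) - e (w (Sum.inr b)))

/-- shifted weights -/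
def xh (p : K) (x : A → K) (w : A ⊕ B ≃ L) (e : L → ℕ) (a : A) : K :=
  x a * p ^ (e (w (Sum.inl a)))

/-- shifted weights -/
def yh (p t : K) (x : A → K) (κ : B → A) (w : A ⊕ B ≃ L) (e : L → ℕ) (b : B) : K :=
  1 / (t * x (κ b) * p ^ (e (w (Sum.inr b))))

lemma ppow {p t : K} (ok : Ok p t) {m : ℤ} (hm : m ≠ 0) : p ^ m ≠ 1 := by
  intro h
  obtain ⟨n, rfl | rfl⟩ := Int.eq_nat_or_neg m
  · rw [zpow_natCast] at h
    exact ok.hpp n (by omega) h
  · rw [zpow_neg, zpow_natCast, inv_eq_one] at h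
    exact ok.hpp n (by omega) h

variable {p t : K} {x : A → K} {y : L → K} {κ : B → A} {w : A ⊕ B ≃ L}

lemma Lab.ne0 (h : Lab p t x y κ w) (ok : Ok p t) (b : B) : t * x (κ b) ≠ 0 :=
  mul_ne_zero ok.ht (h.x0 _)

lemma Qz_ne {p t : K} (hp : p ≠ 0) (u : K) (m : ℤ)
    (h : ∀ j : ℤ, (0 ≤ j ∧ j < m) ∨ (m ≤ j ∧ j < 0) → t * u * p ^ j ≠ 1 ∧ p * u * p ^ j ≠ 1) :
    Qz p t u m ≠ 0 := by
  obtain ⟨M, rfl | rfl⟩ := Int.eq_nat_or_neg m
  · rw [Qz_nat]
    apply ph_ne_zero
    · intro j hj
      have := (h j (Or.inl ⟨by omega, by omega⟩)).1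
      rwa [zpow_natCast] at this
    · intro j hj
      have := (h j (Or.inl ⟨by omega, by omega⟩)).2
      rwa [zpow_natCast] at this
  · rw [Qz_neg]
    apply inv_ne_zero
    apply ph_ne_zero
    · intro j hj hh
      apply (h ((j : ℤ) - M) (Or.inr ⟨by omega, by omega⟩)).1
      rw [zpow_sub₀ hp, zpow_natCast, zpow_natCast, div_eq_mul_inv]
      linear_combination hh
    · intro j hj hh
      apply (h ((j : ℤ) - M) (Or.inr ⟨by omega, by omega⟩)).2
      rw [zpow_sub₀ hp, zpow_natCast, zpow_natCast, div_eq_mul_inv]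
      linear_combination hh

lemma ratio_eq {p : K} (hp : p ≠ 0) {u v s : K} (hv : v ≠ 0) {j : ℤ}
    (h : s * (u / v) * p ^ j = 1) : v = s * u * p ^ j := by
  have : s * u * p ^ j = (s * (u / v) * p ^ j) * v := by field_simp
  rw [this, h, one_mul]

lemma ratio_eq' {p : K} (hp : p ≠ 0) {u v : K} (hv : v ≠ 0) {j : ℤ}
    (h : p * (u / v) * p ^ j = 1) : v = u * p ^ (j + 1) := by
  rw [ratio_eq hp hv h, zpow_add_one₀ hp]; ring

/-- nonvanishing for two elements at the vertex -/
lemma Lab.qne (h : Lab p t x y κ w) (ok : Ok p t) (a a' : A) (m : ℤ)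
    (hm : x a' = t * x a → m ≤ 0) (hm' : a = a' → 0 ≤ m) : Qz p t (x a / x a') m ≠ 0 := by
  apply Qz_ne ok.hp
  intro j hj
  constructor
  · intro hh
    have h1 := ratio_eq ok.hp (h.x0 a') hh
    by_cases hj0 : j = 0
    · subst hj0
      rw [zpow_zero, mul_one] at h1
      have := hm h1
      omega
    · exact h.frt a' a j hj0 h1
  · intro hh
    have h1 := ratio_eq' ok.hp (h.x0 a') hh
    by_cases hj0 : j + 1 = 0
    · rw [hj0, zpow_zero, mul_one] at h1
      have := hm' (h.xinj h1.symm)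
      omega
    · exact h.fr a' a _ hj0 h1

lemma full_x (ok : Ok p t) (h : Lab p t x y κ w) (e : L → ℕ)
    (ord : ∀ a b, x a = t * x (κ b) → e (w (Sum.inr b)) ≤ e (w (Sum.inl a)))
    (k : A → ℕ) (hup : ∀ b, e (w (Sum.inl (κ b))) + k (κ b) ≤ e (w (Sum.inr b))) :
    fullI p t x y e (fun a => e (w (Sum.inl a)) + k a) =
      bas p t x κ w e * trm p t (xh p x w e) (yh p t x κ w e) k := by
  have hp := ok.hp
  have ht := ok.ht
  -- nonvanishing of the denominators
  have hden : ∀ a a', Qz p t (x a / x a')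
      (((e (w (Sum.inl a)) + k a : ℕ) : ℤ) - ((e (w (Sum.inl a')) + k a' : ℕ) : ℤ)) ≠ 0 := by
    intro a a'
    apply h.qne ok
    · intro hh
      obtain ⟨b, rfl⟩ := h.soc a a' hh
      have := hup b
      have := ord a' b hh
      omega
    · rintro rfl
      omega
  have hspl : ∀ a, ∏ l, Qz p t (x a / y l) (((e (w (Sum.inl a)) + k a : ℕ) : ℤ) - e l) =
      (∏ a', Qz p t (x a / x a') (((e (w (Sum.inl a)) + k a : ℕ) : ℤ) - e (w (Sum.inl a')))) *
      ∏ b, Qz p t (x a / (t * x (κ b)))
        (((e (w (Sum.inl a)) + k a : ℕ) : ℤ) - e (w (Sum.inr b))) := by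
    intro a
    rw [← w.prod_comp, Fintype.prod_sum_type]
    simp only [h.hA, h.hB]
  have h1 : ∀ a a', Qz p t (x a / x a')
        (((e (w (Sum.inl a)) + k a : ℕ) : ℤ) - e (w (Sum.inl a'))) =
      Qz p t (x a / x a')
        (((e (w (Sum.inl a)) + k a : ℕ) : ℤ) - ((e (w (Sum.inl a')) + k a' : ℕ) : ℤ)) *
      ph p t ((xh p x w e a * p ^ k a) / (xh p x w e a' * p ^ k a')) (k a') := by
    intro a a'
    have e1 : (((e (w (Sum.inl a)) + k a : ℕ) : ℤ) - e (w (Sum.inl a'))) =
      (((e (w (Sum.inl a)) + k a : ℕ) : ℤ) - ((e (w (Sum.inl a')) + k a' : ℕ) : ℤ)) + (k a' : ℕ) := by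
      push_cast; ring
    rw [e1, Qz_add hp]
    · congr 2
      rw [zpow_sub₀ hp, zpow_natCast, zpow_natCast]
      unfold xh
      have := h.x0 a'
      rw [pow_add, pow_add]
      have := pow_ne_zero (e (w (Sum.inl a'))) hp
      have := pow_ne_zero (k a') hp
      field_simp
    · intro hm j hj1 hj2
      constructor
      · intro hh
        exact h.frt a' a j (by omega) (ratio_eq hp (h.x0 a') hh)
      · intro hh
        have h1 := ratio_eq' hp (h.x0 a') hh
        by_cases hj0 : j + 1 = 0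
        · rw [hj0, zpow_zero, mul_one] at h1
          have := h.xinj h1
          subst this
          omega
        · exact h.fr a' a _ hj0 h1
  have h2 : ∀ a b, Qz p t (x a / (t * x (κ b)))
        (((e (w (Sum.inl a)) + k a : ℕ) : ℤ) - e (w (Sum.inr b))) =
      Qz p t (x a / (t * x (κ b))) ((e (w (Sum.inl a)) : ℤ) - e (w (Sum.inr b))) *
      ph p t (xh p x w e a * yh p t x κ w e b) (k a) := by
    intro a b
    have e1 : (((e (w (Sum.inl a)) + k a : ℕ) : ℤ) - e (w (Sum.inr b))) =
      ((e (w (Sum.inl a)) : ℤ) - e (w (Sum.inr b))) + (k a : ℕ) := by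
      push_cast; ring
    rw [e1, Qz_add hp]
    · congr 2
      rw [zpow_sub₀ hp, zpow_natCast, zpow_natCast]
      unfold xh yh
      have := h.ne0 ok b
      have := pow_ne_zero (e (w (Sum.inr b))) hp
      field_simp
    · intro hm j hj1 hj2
      constructor
      · intro hh
        have h1 := ratio_eq hp (h.ne0 ok b) hh
        apply h.fr (κ b) a j (by omega)
        apply mul_left_cancel₀ ht
        linear_combination h1
      · intro hh
        have h1 := ratio_eq' hp (h.ne0 ok b) hh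
        by_cases hj0 : j + 1 = 0
        · rw [hj0, zpow_zero, mul_one] at h1
          have := ord a b h1.symm
          omega
        · apply h.frt a (κ b) (-(j + 1)) (by omega)
          rw [h1, zpow_neg]
          have := zpow_ne_zero (j + 1) hp
          field_simp
  unfold fullI
  simp only [hspl, h1, h2, prod_mul_distrib]
  unfold bas trm wt cr
  have hD : ∏ a, ∏ a', Qz p t (x a / x a')
      (((e (w (Sum.inl a)) + k a : ℕ) : ℤ) - ((e (w (Sum.inl a')) + k a' : ℕ) : ℤ)) ≠ 0 :=
    prod_ne_zero_iff.2 fun a _ => prod_ne_zero_iff.2 fun a' _ => hden a a'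
  rw [div_eq_iff hD]
  ring

lemma zprod {c : K} (hc : c ≠ 0) {ι : Type*} (s : Finset ι) (f : ι → ℤ) :
    ∏ i ∈ s, c ^ f i = c ^ ∑ i ∈ s, f i := by
  classical
  induction s using Finset.induction_on with
  | empty => simp
  | insert a s ha ih => rw [prod_insert ha, sum_insert ha, zpow_add₀ hc, ih]

lemma full_y (ok : Ok p t) (h : Lab p t x y κ w) (e : L → ℕ)
    (ord : ∀ a b, x a = t * x (κ b) → e (w (Sum.inr b)) ≤ e (w (Sum.inl a)))
    (k δ : B → ℕ) (hk : ∀ b, δ b + k b = e (w (Sum.inr b)))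
    (hlo : ∀ b, e (w (Sum.inl (κ b))) ≤ δ b) :
    fullI p t (fun b => x (κ b)) y e δ =
      (p / t) ^ ((Fintype.card B : ℤ) * ∑ l, (e l : ℤ) -
        ((Fintype.card A : ℤ) + Fintype.card B) * ∑ b, (δ b : ℤ)) *
      (bas p t x κ w e * trm p t (yh p t x κ w e) (xh p x w e) k) := by
  have hp := ok.hp
  have ht := ok.ht
  have hc : p / t ≠ 0 := div_ne_zero hp ht
  have hk' : ∀ b, (e (w (Sum.inr b)) : ℤ) = δ b + k b := fun b => by exact_mod_cast (hk b).symm
  have hden : ∀ b b', Qz p t (x (κ b) / x (κ b')) ((δ b : ℤ) - δ b') ≠ 0 := by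
    intro b b'
    apply h.qne ok
    · intro hh
      have := ord _ _ hh
      have := hlo b'
      have := hk b
      omega
    · intro hh
      have := h.κinj hh
      subst this
      omega
  have hspl : ∀ b, ∏ l, Qz p t (x (κ b) / y l) ((δ b : ℤ) - e l) =
      (∏ a, Qz p t (x (κ b) / x a) ((δ b : ℤ) - e (w (Sum.inl a)))) *
      ∏ b', Qz p t (x (κ b) / (t * x (κ b'))) ((δ b : ℤ) - e (w (Sum.inr b'))) := by
    intro b
    rw [← w.prod_comp, Fintype.prod_sum_type]
    simp only [h.hA, h.hB]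
  have h1 : ∀ b b', Qz p t (x (κ b) / (t * x (κ b'))) ((δ b : ℤ) - e (w (Sum.inr b'))) =
      (p / t) ^ ((e (w (Sum.inr b')) : ℤ) - δ b) *
      (Qz p t (x (κ b') / x (κ b)) ((δ b' : ℤ) - δ b) *
      ph p t ((yh p t x κ w e b * p ^ k b) / (yh p t x κ w e b' * p ^ k b')) (k b')) := by
    intro b b'
    have e1 : x (κ b) / (t * x (κ b')) = 1 / (t * (x (κ b') / x (κ b))) := by
      have := h.x0 (κ b)
      have := h.x0 (κ b')
      field_simp
    have e2 : ((δ b : ℤ) - e (w (Sum.inr b'))) = -((e (w (Sum.inr b')) : ℤ) - δ b) := by ring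
    rw [e1, e2, Qz_refl hp ht _ (div_ne_zero (h.x0 _) (h.x0 _))]
    have e3 : ((e (w (Sum.inr b')) : ℤ) - δ b) = ((δ b' : ℤ) - δ b) + (k b' : ℕ) := by
      rw [hk' b']; ring
    rw [e3, Qz_add hp]
    · congr 3
      rw [zpow_sub₀ hp, zpow_natCast, zpow_natCast]
      unfold yh
      rw [← hk b, ← hk b', pow_add, pow_add]
      have := h.x0 (κ b)
      have := h.x0 (κ b')
      have := pow_ne_zero (δ b) hp
      have := pow_ne_zero (k b) hp
      have := pow_ne_zero (δ b') hp
      have := pow_ne_zero (k b') hp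
      field_simp
    · intro hm j hj1 hj2
      constructor
      · intro hh
        exact h.frt _ _ j (by omega) (ratio_eq hp (h.x0 _) hh)
      · intro hh
        have h1 := ratio_eq' hp (h.x0 _) hh
        by_cases hj0 : j + 1 = 0
        · rw [hj0, zpow_zero, mul_one] at h1
          have := h.κinj (h.xinj h1)
          subst this
          omega
        · exact h.fr _ _ _ hj0 h1
  have h2 : ∀ b a, Qz p t (x (κ b) / x a) ((δ b : ℤ) - e (w (Sum.inl a))) =
      (p / t) ^ ((e (w (Sum.inl a)) : ℤ) - δ b) *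
      (Qz p t (x a / (t * x (κ b))) ((e (w (Sum.inl a)) : ℤ) - e (w (Sum.inr b))) *
      ph p t (yh p t x κ w e b * xh p x w e a) (k b)) := by
    intro b a
    have e1 : x (κ b) / x a = 1 / (t * (x a / (t * x (κ b)))) := by
      have := h.x0 (κ b)
      have := h.x0 a
      field_simp
    have e2 : ((δ b : ℤ) - e (w (Sum.inl a))) = -((e (w (Sum.inl a)) : ℤ) - δ b) := by ring
    rw [e1, e2, Qz_refl hp ht _ (div_ne_zero (h.x0 _) (h.ne0 ok b))]
    have e3 : ((e (w (Sum.inl a)) : ℤ) - δ b) =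
      ((e (w (Sum.inl a)) : ℤ) - e (w (Sum.inr b))) + (k b : ℕ) := by
      rw [hk' b]; ring
    have e4 : (p / t) ^ ((e (w (Sum.inl a)) : ℤ) - δ b) =
      (p / t) ^ (((e (w (Sum.inl a)) : ℤ) - e (w (Sum.inr b))) + (k b : ℕ)) := by rw [e3]
    rw [e4, e3, Qz_add hp]
    · congr 3
      rw [zpow_sub₀ hp, zpow_natCast, zpow_natCast]
      unfold xh yh
      have := h.ne0 ok b
      have := pow_ne_zero (e (w (Sum.inr b))) hp
      field_simp
    · intro hm j hj1 hj2
      constructor
      · intro hh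
        have h1 := ratio_eq hp (h.ne0 ok b) hh
        apply h.fr (κ b) a j (by omega)
        apply mul_left_cancel₀ ht
        linear_combination h1
      · intro hh
        have h1 := ratio_eq' hp (h.ne0 ok b) hh
        by_cases hj0 : j + 1 = 0
        · rw [hj0, zpow_zero, mul_one] at h1
          have := ord a b h1.symm
          omega
        · apply h.frt a (κ b) (-(j + 1)) (by omega)
          rw [h1, zpow_neg]
          have := zpow_ne_zero (j + 1) hp
          field_simp
  unfold fullI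
  simp only [hspl, h1, h2, prod_mul_distrib, zprod hc]
  unfold bas trm wt cr
  have hD : ∏ b, ∏ b', Qz p t (x (κ b) / x (κ b')) ((δ b : ℤ) - δ b') ≠ 0 :=
    prod_ne_zero_iff.2 fun a _ => prod_ne_zero_iff.2 fun a' _ => hden a a'
  rw [div_eq_iff hD]
  have hD2 : ∏ b, ∏ b', Qz p t (x (κ b') / x (κ b)) ((δ b' : ℤ) - δ b) =
    ∏ b, ∏ b', Qz p t (x (κ b) / x (κ b')) ((δ b : ℤ) - δ b') := prod_comm
  rw [hD2]
  have hD3 : ∏ b, ∏ a, Qz p t (x a / (t * x (κ b)))
      ((e (w (Sum.inl a)) : ℤ) - e (w (Sum.inr b))) =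
    ∏ a, ∏ b, Qz p t (x a / (t * x (κ b)))
      ((e (w (Sum.inl a)) : ℤ) - e (w (Sum.inr b))) := prod_comm
  rw [hD3]
  have hE : (∑ l, (e l : ℤ)) = ∑ a, (e (w (Sum.inl a)) : ℤ) + ∑ b, (e (w (Sum.inr b)) : ℤ) := by
    rw [← w.sum_comp, Fintype.sum_sum_type]
  have hx : (p / t) ^ ((Fintype.card B : ℤ) * ∑ l, (e l : ℤ) -
        ((Fintype.card A : ℤ) + Fintype.card B) * ∑ b, (δ b : ℤ)) =
      (p / t) ^ (∑ b, ∑ a, ((e (w (Sum.inl a)) : ℤ) - δ b)) *
      (p / t) ^ (∑ b, ∑ b', ((e (w (Sum.inr b')) : ℤ) - δ b)) := by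
    rw [← zpow_add₀ hc, hE]
    congr 1
    simp only [sum_sub_distrib, sum_const, card_univ, nsmul_eq_mul, ← mul_sum]
    ring
  rw [hx]
  ring

lemma Rc_x (h : Lab p t x y κ w) (ht : t ≠ 0) (e : L → ℕ)
    (ord : ∀ a b, x a = t * x (κ b) → e (w (Sum.inr b)) ≤ e (w (Sum.inl a))) (δ : A → ℕ) :
    Rc t x y e δ ↔ (∀ a, e (w (Sum.inl a)) ≤ δ a) ∧ ∀ b, δ (κ b) ≤ e (w (Sum.inr b)) := by
  constructor
  · intro hR
    exact ⟨fun a => (hR a (w (Sum.inl a))).1 (h.hA a),
      fun b => (hR (κ b) (w (Sum.inr b))).2 (h.hB b)⟩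
  · rintro ⟨h1, h2⟩ a l
    obtain ⟨l, rfl⟩ := w.surjective l
    rcases l with a' | b
    · constructor
      · intro hh
        rw [h.hA] at hh
        have := h.xinj hh
        subst this
        exact h1 _
      · intro hh
        rw [h.hA] at hh
        obtain ⟨b, rfl⟩ := h.soc _ _ hh
        exact ((h2 b).trans (ord _ _ hh)).trans (le_refl _)
    · constructor
      · intro hh
        rw [h.hB] at hh
        exact (ord _ _ hh.symm).trans (h1 _)
      · intro hh
        rw [h.hB] at hh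
        have := h.xinj (mul_left_cancel₀ ht hh)
        subst this
        exact h2 b

lemma Rc_y (h : Lab p t x y κ w) (ht : t ≠ 0) (e : L → ℕ)
    (ord : ∀ a b, x a = t * x (κ b) → e (w (Sum.inr b)) ≤ e (w (Sum.inl a))) (δ : B → ℕ) :
    Rc t (fun b => x (κ b)) y e δ ↔
      ∀ b, e (w (Sum.inl (κ b))) ≤ δ b ∧ δ b ≤ e (w (Sum.inr b)) := by
  constructor
  · intro hR b
    exact ⟨(hR b (w (Sum.inl (κ b)))).1 (h.hA _), (hR b (w (Sum.inr b))).2 (h.hB b)⟩
  · rintro h1 b l
    obtain ⟨l, rfl⟩ := w.surjective l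
    rcases l with a' | b'
    · constructor
      · intro hh
        rw [h.hA] at hh
        have := h.xinj hh
        subst this
        exact (h1 b).1
      · intro hh
        rw [h.hA] at hh
        exact ((h1 b).2.trans (ord _ _ hh))
    · constructor
      · intro hh
        rw [h.hB] at hh
        exact (ord _ _ hh.symm).trans (h1 _).1
      · intro hh
        rw [h.hB] at hh
        have := h.κinj (h.xinj (mul_left_cancel₀ ht hh))
        subst this
        exact (h1 _).2

lemma xy_eq (ok : Ok p t) (h : Lab p t x y κ w) (e : L → ℕ) (b : B)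
    (hle : e (w (Sum.inl (κ b))) ≤ e (w (Sum.inr b))) (m : ℕ)
    (hm : e (w (Sum.inr b)) < e (w (Sum.inl (κ b))) + m) :
    ph p t (xh p x w e (κ b) * yh p t x κ w e b) m = 0 := by
  have hp := ok.hp
  have ht := ok.ht
  unfold ph
  rw [poch_eq_zero (j := e (w (Sum.inr b)) - e (w (Sum.inl (κ b)))), zero_div]
  · omega
  · unfold xh yh
    obtain ⟨r, hr⟩ := Nat.exists_eq_add_of_le hle
    rw [hr, Nat.add_sub_cancel_left, pow_add]
    have := h.x0 (κ b)
    have := pow_ne_zero (e (w (Sum.inl (κ b)))) hp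
    have := pow_ne_zero r hp
    field_simp

lemma trm_x_zero (ok : Ok p t) (h : Lab p t x y κ w) (e : L → ℕ)
    (hle : ∀ b, e (w (Sum.inl (κ b))) ≤ e (w (Sum.inr b))) (k : A → ℕ)
    (hk : ¬ ∀ b, e (w (Sum.inl (κ b))) + k (κ b) ≤ e (w (Sum.inr b))) :
    trm p t (xh p x w e) (yh p t x κ w e) k = 0 := by
  push Not at hk
  obtain ⟨b, hb⟩ := hk
  unfold trm cr
  apply mul_eq_zero_of_right
  apply prod_eq_zero (mem_univ (κ b))
  exact prod_eq_zero (mem_univ b) (xy_eq ok h e b (hle b) _ hb)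

lemma trm_y_zero (ok : Ok p t) (h : Lab p t x y κ w) (e : L → ℕ)
    (hle : ∀ b, e (w (Sum.inl (κ b))) ≤ e (w (Sum.inr b))) (k : B → ℕ)
    (hk : ¬ ∀ b, e (w (Sum.inl (κ b))) + k b ≤ e (w (Sum.inr b))) :
    trm p t (yh p t x κ w e) (xh p x w e) k = 0 := by
  push Not at hk
  obtain ⟨b, hb⟩ := hk
  unfold trm cr
  apply mul_eq_zero_of_right
  apply prod_eq_zero (mem_univ b)
  apply prod_eq_zero (mem_univ (κ b))
  rw [mul_comm (yh p t x κ w e b)]
  exact xy_eq ok h e b (hle b) _ hb

open Classical in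
lemma sum_x (ok : Ok p t) (h : Lab p t x y κ w) (e : L → ℕ)
    (ord : ∀ a b, x a = t * x (κ b) → e (w (Sum.inr b)) ≤ e (w (Sum.inl a)))
    (hle : ∀ b, e (w (Sum.inl (κ b))) ≤ e (w (Sum.inr b))) (D : ℕ) :
    ∑ δ ∈ piAntidiag univ D with Rc t x y e δ, fullI p t x y e δ =
      if ∑ a, e (w (Sum.inl a)) ≤ D then
        bas p t x κ w e * cf p t (xh p x w e) (yh p t x κ w e) (D - ∑ a, e (w (Sum.inl a)))
      else 0 := by
  split_ifs with hD
  · unfold cf
    rw [mul_sum]
    have hfil : ∑ k ∈ piAntidiag univ (D - ∑ a, e (w (Sum.inl a))),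
        bas p t x κ w e * trm p t (xh p x w e) (yh p t x κ w e) k =
        ∑ k ∈ piAntidiag univ (D - ∑ a, e (w (Sum.inl a))) with
          ∀ b, e (w (Sum.inl (κ b))) + k (κ b) ≤ e (w (Sum.inr b)),
        bas p t x κ w e * trm p t (xh p x w e) (yh p t x κ w e) k := by
      rw [sum_filter]
      apply sum_congr rfl
      intro k _
      split_ifs with hk
      · rfl
      · rw [trm_x_zero ok h e hle k hk, mul_zero]
    rw [hfil]
    refine sum_nbij' (fun δ a => δ a - e (w (Sum.inl a))) (fun k a => e (w (Sum.inl a)) + k a)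
      ?_ ?_ ?_ ?_ ?_
    · intro δ hδ
      simp only [mem_filter, mem_piAntidiag, mem_univ, implies_true, and_true] at hδ ⊢
      obtain ⟨h1, h2⟩ := hδ
      rw [Rc_x h ok.ht e ord] at h2
      refine ⟨?_, ?_⟩
      · rw [← h1, Finset.sum_tsub_distrib _ (fun a _ => h2.1 a)]
      · intro b
        have := h2.1 (κ b)
        have := h2.2 b
        omega
    · intro k hk
      simp only [mem_filter, mem_piAntidiag, mem_univ, implies_true, and_true] at hk ⊢
      obtain ⟨h1, h2⟩ := hk
      rw [Rc_x h ok.ht e ord]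
      refine ⟨?_, fun a => Nat.le_add_right _ _, h2⟩
      rw [sum_add_distrib, h1]
      omega
    · intro δ hδ
      simp only [mem_filter, mem_piAntidiag, mem_univ, implies_true, and_true] at hδ
      obtain ⟨h1, h2⟩ := hδ
      rw [Rc_x h ok.ht e ord] at h2
      funext a
      have := h2.1 a
      dsimp only
      omega
    · intro k _
      funext a
      simp
    · intro δ hδ
      simp only [mem_filter, mem_piAntidiag, mem_univ, implies_true, and_true] at hδ
      obtain ⟨h1, h2⟩ := hδ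
      rw [Rc_x h ok.ht e ord] at h2
      have := full_x ok h e ord (fun a => δ a - e (w (Sum.inl a))) (by
        intro b
        have := h2.1 (κ b)
        have := h2.2 b
        omega)
      rw [← this]
      congr 1
      funext a
      have := h2.1 a
      show δ a = e (w (Sum.inl a)) + (δ a - e (w (Sum.inl a)))
      omega
  · apply sum_eq_zero
    intro δ hδ
    exfalso
    apply hD
    simp only [mem_filter, mem_piAntidiag, mem_univ, implies_true, and_true] at hδ
    obtain ⟨h1, h2⟩ := hδ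
    rw [Rc_x h ok.ht e ord] at h2
    rw [← h1]
    exact sum_le_sum fun a _ => h2.1 a

lemma mul2 {ι : Type*} (C b : K) (s : Finset ι) (f : ι → K) :
    C * (b * ∑ k ∈ s, f k) = ∑ k ∈ s, C * (b * f k) := by rw [mul_sum, mul_sum]

open Classical in
lemma sum_y (ok : Ok p t) (h : Lab p t x y κ w) (e : L → ℕ)
    (ord : ∀ a b, x a = t * x (κ b) → e (w (Sum.inr b)) ≤ e (w (Sum.inl a)))
    (hle : ∀ b, e (w (Sum.inl (κ b))) ≤ e (w (Sum.inr b))) (D : ℕ) :
    ∑ δ ∈ piAntidiag univ D with Rc t (fun b => x (κ b)) y e δ,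
        fullI p t (fun b => x (κ b)) y e δ =
      (p / t) ^ ((Fintype.card B : ℤ) * ∑ l, (e l : ℤ) -
        ((Fintype.card A : ℤ) + Fintype.card B) * (D : ℤ)) *
      if D ≤ ∑ b, e (w (Sum.inr b)) then
        bas p t x κ w e * cf p t (yh p t x κ w e) (xh p x w e) (∑ b, e (w (Sum.inr b)) - D)
      else 0 := by
  split_ifs with hD
  · unfold cf
    rw [mul2]
    have hfil : ∑ k ∈ piAntidiag univ (∑ b, e (w (Sum.inr b)) - D),
        (p / t) ^ ((Fintype.card B : ℤ) * ∑ l, (e l : ℤ) -
          ((Fintype.card A : ℤ) + Fintype.card B) * (D : ℤ)) *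
          (bas p t x κ w e * trm p t (yh p t x κ w e) (xh p x w e) k) =
        ∑ k ∈ piAntidiag univ (∑ b, e (w (Sum.inr b)) - D) with
          ∀ b, e (w (Sum.inl (κ b))) + k b ≤ e (w (Sum.inr b)),
        (p / t) ^ ((Fintype.card B : ℤ) * ∑ l, (e l : ℤ) -
          ((Fintype.card A : ℤ) + Fintype.card B) * (D : ℤ)) *
        (bas p t x κ w e * trm p t (yh p t x κ w e) (xh p x w e) k) := by
      rw [sum_filter]
      apply sum_congr rfl
      intro k _
      split_ifs with hk
      · rfl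
      · rw [trm_y_zero ok h e hle k hk, mul_zero, mul_zero]
    rw [hfil]
    refine sum_nbij' (fun δ b => e (w (Sum.inr b)) - δ b) (fun k b => e (w (Sum.inr b)) - k b)
      ?_ ?_ ?_ ?_ ?_
    · intro δ hδ
      simp only [mem_filter, mem_piAntidiag, mem_univ, implies_true, and_true] at hδ ⊢
      obtain ⟨h1, h2⟩ := hδ
      rw [Rc_y h ok.ht e ord] at h2
      refine ⟨?_, ?_⟩
      · rw [← h1, Finset.sum_tsub_distrib _ (fun a _ => (h2 a).2)]
      · intro b
        have := h2 b
        omega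
    · intro k hk
      simp only [mem_filter, mem_piAntidiag, mem_univ, implies_true, and_true] at hk ⊢
      obtain ⟨h1, h2⟩ := hk
      rw [Rc_y h ok.ht e ord]
      refine ⟨?_, fun b => ⟨by have := h2 b; omega, Nat.sub_le _ _⟩⟩
      rw [Finset.sum_tsub_distrib _ (fun b _ => by have := h2 b; omega), h1]
      omega
    · intro δ hδ
      simp only [mem_filter, mem_piAntidiag, mem_univ, implies_true, and_true] at hδ
      obtain ⟨h1, h2⟩ := hδ
      rw [Rc_y h ok.ht e ord] at h2
      funext b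
      have := h2 b
      dsimp only
      omega
    · intro k hk
      simp only [mem_filter, mem_piAntidiag, mem_univ, implies_true, and_true] at hk
      funext b
      have := hk.2 b
      dsimp only
      omega
    · intro δ hδ
      simp only [mem_filter, mem_piAntidiag, mem_univ, implies_true, and_true] at hδ
      obtain ⟨h1, h2⟩ := hδ
      rw [Rc_y h ok.ht e ord] at h2
      have := full_y ok h e ord (fun b => e (w (Sum.inr b)) - δ b) δ (by
        intro b
        have := h2 b
        omega) (fun b => (h2 b).1)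
      rw [this]
      congr 4
      rw [← h1]
      push_cast
      rfl
  · rw [mul_zero]
    apply sum_eq_zero
    intro δ hδ
    exfalso
    apply hD
    simp only [mem_filter, mem_piAntidiag, mem_univ, implies_true, and_true] at hδ
    obtain ⟨h1, h2⟩ := hδ
    rw [Rc_y h ok.ht e ord] at h2
    rw [← h1]
    exact sum_le_sum fun a _ => (h2 a).2

/-- the quotient of the two prefactors -/
noncomputable def gG (p t : K) (b k : ℕ) : PowerSeries K := ∏ j ∈ Ico b k, rser p t ((t / p) ^ j)

lemma gser_split (p t : K) {b k : ℕ} (h : b ≤ k) : gser p t k = gser p t b * gG p t b k := by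
  unfold gser gG
  rw [← prod_range_mul_prod_Ico _ h]

lemma Lab.reg (ok : Ok p t) (h : Lab p t x y κ w) (e : L → ℕ)
    (ord : ∀ a b, x a = t * x (κ b) → e (w (Sum.inr b)) ≤ e (w (Sum.inl a))) :
    Reg p (xh p x w e) (yh p t x κ w e) := by
  have hp := ok.hp
  have ht := ok.ht
  have key : ∀ a a' : A, a ≠ a' → ∀ (u v : ℕ) (m : ℤ), x a * p ^ u ≠ x a' * p ^ v * p ^ m := by
    intro a a' hne u v m hh
    have h1 : x a = x a' * p ^ ((v : ℤ) + m - u) := by
      rw [zpow_sub₀ hp, zpow_add₀ hp, zpow_natCast, zpow_natCast]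
      have := pow_ne_zero u hp
      field_simp
      linear_combination hh
    by_cases hj : (v : ℤ) + m - u = 0
    · rw [hj, zpow_zero, mul_one] at h1
      exact hne (h.xinj h1)
    · exact h.fr _ _ _ hj h1
  refine ⟨fun a => mul_ne_zero (h.x0 a) (pow_ne_zero _ hp),
    fun b => one_div_ne_zero (mul_ne_zero (h.ne0 ok b) (pow_ne_zero _ hp)), ?_, ?_, ?_⟩
  · intro a a' hne m
    exact key a a' hne _ _ m
  · intro b b' hne m hh
    unfold yh at hh
    apply key (κ b') (κ b) (fun h2 => hne (h.κinj h2).symm) (e (w (Sum.inr b')))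
      (e (w (Sum.inr b))) m
    have h1 := h.x0 (κ b)
    have h2 := h.x0 (κ b')
    have h3 := pow_ne_zero (e (w (Sum.inr b))) hp
    have h4 := pow_ne_zero (e (w (Sum.inr b'))) hp
    field_simp at hh
    linear_combination hh
  · intro a b l hh
    unfold xh yh at hh
    have h1 : x a = t * x (κ b) * p ^ ((e (w (Sum.inr b)) : ℤ) - e (w (Sum.inl a)) - (l + 1)) := by
      rw [zpow_sub₀ hp, zpow_sub₀ hp, zpow_natCast, zpow_natCast, zpow_add_one₀ hp, zpow_natCast]
      rw [pow_succ] at hh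
      have h1 := h.x0 (κ b)
      have h3 := pow_ne_zero (e (w (Sum.inr b))) hp
      have h4 := pow_ne_zero (e (w (Sum.inl a))) hp
      have h5 := pow_ne_zero l hp
      field_simp at hh ⊢
      linear_combination hh
    by_cases hj : ((e (w (Sum.inr b)) : ℤ) - e (w (Sum.inl a)) - (l + 1)) = 0
    · rw [hj, zpow_zero, mul_one] at h1
      have := ord a b h1
      omega
    · exact h.frt _ _ _ hj h1

lemma cf_dual (ok : Ok p t) (h : Lab p t x y κ w) (e : L → ℕ)
    (ord : ∀ a b, x a = t * x (κ b) → e (w (Sum.inr b)) ≤ e (w (Sum.inl a))) (n : ℕ) :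
    cf p t (xh p x w e) (yh p t x κ w e) n = ∑ z ∈ antidiagonal n,
      PowerSeries.coeff z.1 (gG p t (Fintype.card B) (Fintype.card A)) *
        cf p t (yh p t x κ w e) (xh p x w e) z.2 := by
  have hBA : Fintype.card B ≤ Fintype.card A := Fintype.card_le_of_injective κ h.κinj
  have h1 : gser p t (Fintype.card B) * ser p t (xh p x w e) (yh p t x κ w e) =
      gser p t (Fintype.card A) * ser p t (yh p t x κ w e) (xh p x w e) := by
    ext m
    have := idn_spec ok.hp ok.hpp ok.ht ok.htp _ _ (h.reg ok e ord) m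
    rw [idn_eq] at this
    exact sub_eq_zero.1 this
  rw [gser_split p t hBA, mul_assoc] at h1
  have h2 := mul_left_cancel₀ (gser_ne_zero p t _) h1
  have h3 := congrArg (PowerSeries.coeff n) h2
  rw [PowerSeries.coeff_mul] at h3
  simpa [ser] using h3

open Classical in
lemma LL_aux (ok : Ok p t) (h : Lab p t x y κ w) (e : L → ℕ)
    (ord : ∀ a b, x a = t * x (κ b) → e (w (Sum.inr b)) ≤ e (w (Sum.inl a))) (D : ℕ) :
    ∑ δ ∈ piAntidiag univ D with Rc t x y e δ, fullI p t x y e δ =
      ∑ z ∈ antidiagonal D, PowerSeries.coeff z.1 (gG p t (Fintype.card B) (Fintype.card A)) *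
        if z.2 ≤ ∑ l, e l then
          (p / t) ^ ((Fintype.card A : ℤ) * ∑ l, (e l : ℤ) -
            ((Fintype.card A : ℤ) + Fintype.card B) * (z.2 : ℤ)) *
          ∑ δ ∈ piAntidiag univ (∑ l, e l - z.2) with Rc t (fun b => x (κ b)) y e δ,
            fullI p t (fun b => x (κ b)) y e δ
        else 0 := by
  have hc : p / t ≠ 0 := div_ne_zero ok.hp ok.ht
  by_cases hle : ∀ b, e (w (Sum.inl (κ b))) ≤ e (w (Sum.inr b))
  · have hE : (∑ l, e l) = ∑ a, e (w (Sum.inl a)) + ∑ b, e (w (Sum.inr b)) := by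
      rw [← w.sum_comp, Fintype.sum_sum_type]
    rw [sum_x ok h e ord hle]
    simp_rw [sum_y ok h e ord hle]
    set EA := ∑ a, e (w (Sum.inl a)) with hEA
    set EB := ∑ b, e (w (Sum.inr b)) with hEB
    have hterm : ∀ z ∈ antidiagonal D,
        (PowerSeries.coeff z.1 (gG p t (Fintype.card B) (Fintype.card A)) *
        if z.2 ≤ ∑ l, e l then
          (p / t) ^ ((Fintype.card A : ℤ) * ∑ l, (e l : ℤ) -
            ((Fintype.card A : ℤ) + Fintype.card B) * (z.2 : ℤ)) *
          ((p / t) ^ ((Fintype.card B : ℤ) * ∑ l, (e l : ℤ) -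
            ((Fintype.card A : ℤ) + Fintype.card B) * ((∑ l, e l - z.2 : ℕ) : ℤ)) *
            if ∑ l, e l - z.2 ≤ EB then
              bas p t x κ w e * cf p t (yh p t x κ w e) (xh p x w e) (EB - (∑ l, e l - z.2))
            else 0)
        else 0) =
        (if EA ≤ z.2 then PowerSeries.coeff z.1 (gG p t (Fintype.card B) (Fintype.card A)) *
          (bas p t x κ w e * cf p t (yh p t x κ w e) (xh p x w e) (z.2 - EA)) else 0) := by
      intro z _
      by_cases h1 : z.2 ≤ ∑ l, e l
      · rw [if_pos h1]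
        by_cases h2 : EA ≤ z.2
        · rw [if_pos h2, if_pos (by omega)]
          congr 1
          rw [← mul_assoc, ← zpow_add₀ hc]
          have e1 : ((Fintype.card A : ℤ) * ∑ l, (e l : ℤ) -
            ((Fintype.card A : ℤ) + Fintype.card B) * (z.2 : ℤ)) +
            ((Fintype.card B : ℤ) * ∑ l, (e l : ℤ) -
            ((Fintype.card A : ℤ) + Fintype.card B) * ((∑ l, e l - z.2 : ℕ) : ℤ)) = 0 := by
            rw [Nat.cast_sub h1]
            push_cast
            ring
          rw [e1, zpow_zero, one_mul]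
          congr 2
          omega
        · rw [if_neg h2, if_neg (by omega), mul_zero, mul_zero, mul_zero]
      · rw [if_neg h1, mul_zero, if_pos (by omega)]
        have : cf p t (yh p t x κ w e) (xh p x w e) (z.2 - EA) = 0 := by
          unfold cf
          apply sum_eq_zero
          intro k hk
          apply trm_y_zero ok h e hle
          intro hk2
          simp only [mem_piAntidiag, mem_univ, implies_true, and_true] at hk
          have : ∑ b, k b ≤ EB := by
            rw [hEB]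
            exact sum_le_sum fun b _ => by have := hk2 b; omega
          have hk1 : ∑ b, k b = z.2 - EA := hk
          omega
        rw [this, mul_zero, mul_zero]
    rw [sum_congr rfl hterm]
    by_cases hD : EA ≤ D
    · rw [if_pos hD, cf_dual ok h e ord, mul_sum]
      rw [← sum_filter]
      refine sum_nbij' (fun z => (z.1, z.2 + EA)) (fun z => (z.1, z.2 - EA)) ?_ ?_ ?_ ?_ ?_
      · intro z hz
        rw [HasAntidiagonal.mem_antidiagonal] at hz
        rw [mem_filter, HasAntidiagonal.mem_antidiagonal]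
        simp only
        omega
      · intro z hz
        rw [mem_filter, HasAntidiagonal.mem_antidiagonal] at hz
        rw [HasAntidiagonal.mem_antidiagonal]
        simp only
        omega
      · intro z _
        simp
      · intro z hz
        rw [mem_filter] at hz
        ext
        · rfl
        · simp only
          omega
      · intro z _
        simp only [Nat.add_sub_cancel]
        ring
    · rw [if_neg hD]
      symm
      apply sum_eq_zero
      intro z hz
      rw [HasAntidiagonal.mem_antidiagonal] at hz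
      rw [if_neg (by omega)]
  · have h1 : ∀ δ, ¬ Rc t x y e δ := by
      intro δ hR
      rw [Rc_x h ok.ht e ord] at hR
      exact hle fun b => (hR.1 _).trans (hR.2 b)
    have h2 : ∀ δ, ¬ Rc t (fun b => x (κ b)) y e δ := by
      intro δ hR
      rw [Rc_y h ok.ht e ord] at hR
      exact hle fun b => (hR b).1.trans (hR b).2
    simp [h1, h2]

lemma exists_ord (e : L → ℕ) (h0 : ∃ w : A ⊕ B ≃ L, Lab p t x y κ w) :
    ∃ w : A ⊕ B ≃ L, Lab p t x y κ w ∧
      ∀ a b, x a = t * x (κ b) → e (w (Sum.inr b)) ≤ e (w (Sum.inl a)) := by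
  classical
  haveI : Nonempty {w : A ⊕ B ≃ L // Lab p t x y κ w} := by
    obtain ⟨w, hw⟩ := h0
    exact ⟨⟨w, hw⟩⟩
  obtain ⟨⟨w, hw⟩, hmax⟩ := Finite.exists_max
    (fun w : {w : A ⊕ B ≃ L // Lab p t x y κ w} => ∑ a, e (w.1 (Sum.inl a)))
  refine ⟨w, hw, ?_⟩
  intro a b hab
  by_contra hlt
  push Not at hlt
  have hA' : ∀ a', ((Equiv.swap (Sum.inl a) (Sum.inr b)).trans w) (Sum.inl a') =
      if a' = a then w (Sum.inr b) else w (Sum.inl a') := by
    intro a'
    rw [Equiv.trans_apply]
    split_ifs with h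
    · rw [h, Equiv.swap_apply_left]
    · rw [Equiv.swap_apply_of_ne_of_ne (by simpa using h) (by simp)]
  have hB' : ∀ b', ((Equiv.swap (Sum.inl a) (Sum.inr b)).trans w) (Sum.inr b') =
      if b' = b then w (Sum.inl a) else w (Sum.inr b') := by
    intro b'
    rw [Equiv.trans_apply]
    split_ifs with h
    · rw [h, Equiv.swap_apply_right]
    · rw [Equiv.swap_apply_of_ne_of_ne (by simp) (by simpa using h)]
  have hw' : Lab p t x y κ ((Equiv.swap (Sum.inl a) (Sum.inr b)).trans w) := by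
    refine ⟨hw.x0, hw.xinj, hw.κinj, hw.fr, hw.frt, ?_, ?_, hw.soc⟩
    · intro a'
      rw [hA']
      split_ifs with h
      · rw [h, hw.hB, hab]
      · exact hw.hA a'
    · intro b'
      rw [hB']
      split_ifs with h
      · rw [h, hw.hA, hab]
      · exact hw.hB b'
  have h1 := hmax ⟨_, hw'⟩
  simp only [hA'] at h1
  have h2 : ∑ a', e (w (Sum.inl a')) < ∑ a', e (if a' = a then w (Sum.inr b) else
      w (Sum.inl a')) := by
    apply sum_lt_sum
    · intro a' _
      split_ifs with h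
      · rw [h]; exact hlt.le
      · exact le_refl _
    · exact ⟨a, mem_univ a, by rw [if_pos rfl]; exact hlt⟩
  omega

open Classical in
/-- the local duality at a vertex -/
theorem LL_main (ok : Ok p t) (h0 : ∃ w : A ⊕ B ≃ L, Lab p t x y κ w) (e : L → ℕ) (D : ℕ) :
    ∑ δ ∈ piAntidiag univ D with Rc t x y e δ, fullI p t x y e δ =
      ∑ z ∈ antidiagonal D, PowerSeries.coeff z.1 (gG p t (Fintype.card B) (Fintype.card A)) *
        if z.2 ≤ ∑ l, e l then
          (p / t) ^ ((Fintype.card A : ℤ) * ∑ l, (e l : ℤ) -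
            ((Fintype.card A : ℤ) + Fintype.card B) * (z.2 : ℤ)) *
          ∑ δ ∈ piAntidiag univ (∑ l, e l - z.2) with Rc t (fun b => x (κ b)) y e δ,
            fullI p t (fun b => x (κ b)) y e δ
        else 0 := by
  obtain ⟨w, hw, ord⟩ := exists_ord e h0
  exact LL_aux ok hw e ord D

end Pool.Agent.Run7.h657
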