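import Pool.Agent.Run7.h657.Spec

/-! Integer Pochhammer ratios and the local duality at a vertex. -/

set_option linter.unusedSectionVars false

namespace Pool.Agent.Run7.h657

open Finset

variable {K : Type*} [Field K]

/-- `(t w; p)_d / (p w; p)_d` for an integer `d` -/
def Qz (p t w : K) : ℤ → K
  | Int.ofNat n => ph p t w n
  | Int.negSucc n => (ph p t (w * (p ^ (n + 1))⁻¹) (n + 1))⁻¹

lemma Qz_nat (p t w : K) (n : ℕ) : Qz p t w n = ph p t w n := rfl

@[simp] lemma Qz_zero (p t w : K) : Qz p t w 0 = 1 := by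
  have : (0 : ℤ) = ((0 : ℕ) : ℤ) := rfl
  rw [this, Qz_nat, ph_zero]

lemma Qz_neg (p t w : K) (n : ℕ) : Qz p t w (-(n : ℤ)) = (ph p t (w * (p ^ n)⁻¹) n)⁻¹ := by
  cases n with
  | zero => simp
  | succ n => rfl

lemma ph_ne_zero {p t u : K} {n : ℕ} (h1 : ∀ j < n, t * u * p ^ j ≠ 1)
    (h2 : ∀ j < n, p * u * p ^ j ≠ 1) : ph p t u n ≠ 0 :=
  div_ne_zero (poch_ne_zero h1) (poch_ne_zero h2)

/-- the cocycle rule -/
lemma Qz_add {p t : K} (hp : p ≠ 0) (w : K) (m : ℤ) (n : ℕ)
    (h : m < 0 → ∀ j : ℤ, m ≤ j → j < 0 → t * w * p ^ j ≠ 1 ∧ p * w * p ^ j ≠ 1) :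
    Qz p t w (m + n) = Qz p t w m * ph p t (w * p ^ m) n := by
  obtain ⟨M, rfl | rfl⟩ := Int.eq_nat_or_neg m
  · rw [← Nat.cast_add, Qz_nat, Qz_nat, ph_add, zpow_natCast]
  · rcases Nat.eq_zero_or_pos M with rfl | hM
    · simp [Qz_nat]
    · have hneg : (-(M : ℤ)) < 0 := by omega
      have hne : ph p t (w * (p ^ M)⁻¹) M ≠ 0 := by
        apply ph_ne_zero
        · intro j hj hh
          apply (h hneg ((j : ℤ) - M) (by omega) (by omega)).1
          rw [zpow_sub₀ hp, zpow_natCast, zpow_natCast, div_eq_mul_inv]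
          linear_combination hh
        · intro j hj hh
          apply (h hneg ((j : ℤ) - M) (by omega) (by omega)).2
          rw [zpow_sub₀ hp, zpow_natCast, zpow_natCast, div_eq_mul_inv]
          linear_combination hh
      have hz : p ^ (-(M : ℤ)) = (p ^ M)⁻¹ := by rw [zpow_neg, zpow_natCast]
      rw [Qz_neg, hz]
      rcases le_or_gt n M with hle | hlt
      · obtain ⟨r, rfl⟩ := Nat.exists_eq_add_of_le hle
        have e1 : (-((n + r : ℕ) : ℤ) + n) = -(r : ℤ) := by push_cast; ring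
        rw [e1, Qz_neg]
        have e2 : w * (p ^ (n + r))⁻¹ * p ^ n = w * (p ^ r)⁻¹ := by
          rw [pow_add]
          have := pow_ne_zero n hp
          have := pow_ne_zero r hp
          field_simp
        rw [ph_add, e2] at hne ⊢
        have h3 := left_ne_zero_of_mul hne
        rw [mul_inv, mul_comm (ph p t (w * (p ^ (n + r))⁻¹) n)⁻¹, mul_assoc, inv_mul_cancel₀ h3,
          mul_one]
      · obtain ⟨r, rfl⟩ := Nat.exists_eq_add_of_le hlt.le
        have e1 : (-(M : ℤ) + ((M + r : ℕ) : ℤ)) = (r : ℤ) := by push_cast; ring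
        rw [e1, Qz_nat, ph_add]
        have e2 : w * (p ^ M)⁻¹ * p ^ M = w := by
          have := pow_ne_zero M hp
          field_simp
        rw [e2, ← mul_assoc, inv_mul_cancel₀ hne, one_mul]

lemma ph_refl' {p t : K} (hp : p ≠ 0) (ht : t ≠ 0) (v : K) (hv : v ≠ 0) (d : ℕ) :
    ph p t (1 / (v * p ^ d)) d = (t / p) ^ d * (ph p t (v / t) d)⁻¹ := by
  have e1 : poch p (t * (1 / (v * p ^ d))) d =
      (∏ i ∈ range d, (-(t / (v * p ^ (i + 1))))) * poch p (p * (v / t)) d := by
    unfold poch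
    rw [← prod_mul_distrib, ← prod_range_reflect]
    apply prod_congr rfl
    intro i hi
    have hi := mem_range.1 hi
    have : p ^ d = p ^ (d - 1 - i) * p ^ (i + 1) := by rw [← pow_add]; congr 1; omega
    rw [this]
    have := pow_ne_zero (d - 1 - i) hp
    have := pow_ne_zero (i + 1) hp
    field_simp
    ring
  have e2 : poch p (p * (1 / (v * p ^ d))) d =
      (∏ i ∈ range d, (-(1 / (v * p ^ i)))) * poch p (t * (v / t)) d := by
    unfold poch
    rw [← prod_mul_distrib, ← prod_range_reflect]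
    apply prod_congr rfl
    intro i hi
    have hi := mem_range.1 hi
    have : p ^ d = p * p ^ (d - 1 - i) * p ^ i := by
      rw [mul_assoc, ← pow_add, ← pow_succ']; congr 1; omega
    rw [this]
    have := pow_ne_zero (d - 1 - i) hp
    have := pow_ne_zero i hp
    field_simp
    ring
  have n3 : (∏ i ∈ range d, (-(1 / (v * p ^ i)))) ≠ 0 := by
    apply prod_ne_zero_iff.2
    intro i _
    exact neg_ne_zero.2 (one_div_ne_zero (mul_ne_zero hv (pow_ne_zero _ hp)))
  have e3 : (∏ i ∈ range d, (-(t / (v * p ^ (i + 1))))) =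
      (t / p) ^ d * (∏ i ∈ range d, (-(1 / (v * p ^ i)))) := by
    have e4 : (t / p) ^ d = ∏ _i ∈ range d, (t / p) := by rw [prod_const, card_range]
    rw [e4, ← prod_mul_distrib]
    apply prod_congr rfl
    intro i _
    have := pow_ne_zero i hp
    rw [pow_succ]
    field_simp
  unfold ph
  rw [e1, e2, e3, inv_div, mul_assoc, mul_div_assoc, mul_div_mul_left _ _ n3]

/-- the reflection rule -/
lemma Qz_refl {p t : K} (hp : p ≠ 0) (ht : t ≠ 0) (w : K) (hw : w ≠ 0) (d : ℤ) :
    Qz p t (1 / (t * w)) (-d) = (p / t) ^ d * Qz p t w d := by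
  obtain ⟨n, rfl | rfl⟩ := Int.eq_nat_or_neg d
  · rw [Qz_neg, Qz_nat, zpow_natCast]
    have h := ph_refl' hp ht (t * w) (mul_ne_zero ht hw) n
    have e1 : 1 / (t * w) * (p ^ n)⁻¹ = 1 / (t * w * p ^ n) := by
      rw [one_div, one_div, mul_inv (t * w)]
    have e2 : t * w / t = w := by field_simp
    rw [e2] at h
    rw [e1, h, mul_inv, inv_inv, ← inv_pow, inv_div]
  · rw [neg_neg, Qz_neg, Qz_nat, zpow_neg, zpow_natCast]
    have h := ph_refl' hp ht (1 / w) (one_div_ne_zero hw) n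
    have e1 : 1 / (1 / w * p ^ n) = w * (p ^ n)⁻¹ := by
      have := pow_ne_zero n hp
      field_simp
    have e2 : 1 / w / t = 1 / (t * w) := by field_simp
    rw [e1, e2] at h
    rw [h, mul_inv, inv_inv, ← inv_pow, inv_div, ← mul_assoc, ← inv_pow, inv_div, ← mul_pow]
    have : t / p * (p / t) = 1 := by field_simp
    rw [this, one_pow, one_mul]

end Pool.Agent.Run7.h657
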