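import Pool.Agent.Run7.h657.Qbin
import Pool.Agent.Run7.h657.Def

/-! The multiplicity free case. -/

namespace Pool.Agent.Run7.h657.Vx

open Finset

variable {K V A W P : Type*} [Field K] [Fintype V] [Fintype A] [Fintype W] [Fintype P]
  [DecidableEq V]

open Pool.Agent.Run7.h657 in
lemma qp_ratio (q hb w : Kˣ) (d : ℤ) :
    qp (q : K) ((hb / w : Kˣ) : K) d / qp (q : K) ((q / w : Kˣ) : K) d * ((q : K) / hb) ^ d =
      Qz (q : K)⁻¹ (hb : K)⁻¹ (w : K) d := by
  have hq := q.ne_zero
  have hh := hb.ne_zero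
  have hw := w.ne_zero
  obtain ⟨n, rfl | rfl⟩ := Int.eq_nat_or_neg d
  · rw [Qz_nat, zpow_natCast]
    show (∏ j ∈ range n, (1 - ((hb / w : Kˣ) : K) * (q : K) ^ j)) /
      (∏ j ∈ range n, (1 - ((q / w : Kˣ) : K) * (q : K) ^ j)) * _ = _
    unfold ph poch
    rw [← prod_div_distrib, ← prod_div_distrib]
    have : ((q : K) / hb) ^ n = ∏ _j ∈ range n, ((q : K) / hb) := by
      rw [prod_const, card_range]
    rw [this, ← prod_mul_distrib]
    apply prod_congr rfl
    intro j _
    rw [Units.val_div_eq_div_val, Units.val_div_eq_div_val]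
    have h7 := pow_ne_zero j hq
    have e1 : (1 - (hb : K) / w * (q : K) ^ j) =
        (-((hb : K) * (q : K) ^ j / w)) * (1 - (hb : K)⁻¹ * w * ((q : K)⁻¹) ^ j) := by
      rw [inv_pow]; field_simp; ring
    have e2 : (1 - (q : K) / w * (q : K) ^ j) =
        (-((q : K) * (q : K) ^ j / w)) * (1 - (q : K)⁻¹ * w * ((q : K)⁻¹) ^ j) := by
      rw [inv_pow]; field_simp; ring
    rw [e1, e2, mul_div_mul_comm]
    have e3 : -((hb : K) * (q : K) ^ j / w) / -((q : K) * (q : K) ^ j / w) * ((q : K) / hb) = 1 := by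
      field_simp
    linear_combination ((1 - (hb : K)⁻¹ * w * ((q : K)⁻¹) ^ j) /
      (1 - (q : K)⁻¹ * w * ((q : K)⁻¹) ^ j)) * e3
  · rcases n with _ | n
    · simp [qp]
    · rw [Qz_neg]
      show (∏ j ∈ range (n + 1), (1 - ((hb / w : Kˣ) : K) * ((q : K)⁻¹) ^ (j + 1)))⁻¹ /
        (∏ j ∈ range (n + 1), (1 - ((q / w : Kˣ) : K) * ((q : K)⁻¹) ^ (j + 1)))⁻¹ * _ = _
      rw [inv_div_inv, zpow_neg, zpow_natCast, ← inv_pow, inv_div]
      unfold ph poch
      rw [inv_div, ← prod_range_reflect (fun j => 1 - (q : K)⁻¹ * _ * _),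
        ← prod_range_reflect (fun j => 1 - (hb : K)⁻¹ * _ * _),
        ← prod_div_distrib, ← prod_div_distrib]
      have : ((hb : K) / q) ^ (n + 1) = ∏ _j ∈ range (n + 1), ((hb : K) / q) := by
        rw [prod_const, card_range]
      rw [this, ← prod_mul_distrib]
      apply prod_congr rfl
      intro j hj
      rw [mem_range] at hj
      rw [Units.val_div_eq_div_val, Units.val_div_eq_div_val]
      have h7 := pow_ne_zero j hq
      have e0 : (w : K) * (((q : K)⁻¹) ^ (n + 1))⁻¹ * ((q : K)⁻¹) ^ (n + 1 - 1 - j) =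
          w * (q : K) ^ (j + 1) := by
        have h8 := pow_ne_zero (n + 1 - 1 - j) hq
        have h9 : (q : K) ^ (n + 1) = (q : K) ^ (n + 1 - 1 - j) * (q : K) ^ (j + 1) := by
          rw [← pow_add]; congr 1; omega
        rw [inv_pow, inv_inv, inv_pow, h9]
        field_simp
      have e1 : (1 - (q : K)⁻¹ * ((w : K) * (((q : K)⁻¹) ^ (n + 1))⁻¹) *
          ((q : K)⁻¹) ^ (n + 1 - 1 - j)) = 1 - (q : K)⁻¹ * (w * (q : K) ^ (j + 1)) := by
        rw [← e0]; ring
      have e2 : (1 - (hb : K)⁻¹ * ((w : K) * (((q : K)⁻¹) ^ (n + 1))⁻¹) *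
          ((q : K)⁻¹) ^ (n + 1 - 1 - j)) = 1 - (hb : K)⁻¹ * (w * (q : K) ^ (j + 1)) := by
        rw [← e0]; ring
      rw [e1, e2]
      have e3 : (1 - (q : K) / w * ((q : K)⁻¹) ^ (j + 1)) =
          (-(1 / (w * (q : K) ^ j))) * (1 - (q : K)⁻¹ * (w * (q : K) ^ (j + 1))) := by
        rw [inv_pow, pow_succ]; field_simp; ring
      have e4 : (1 - (hb : K) / w * ((q : K)⁻¹) ^ (j + 1)) =
          (-((hb : K) / (w * (q : K) ^ (j + 1)))) * (1 - (hb : K)⁻¹ * (w * (q : K) ^ (j + 1))) := by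
        rw [inv_pow]; field_simp; ring
      rw [e3, e4, mul_div_mul_comm]
      have e5 : -(1 / ((w : K) * (q : K) ^ j)) / -((hb : K) / (w * (q : K) ^ (j + 1))) *
          ((hb : K) / q) = 1 := by
        rw [pow_succ]; field_simp
      linear_combination ((1 - (q : K)⁻¹ * (w * (q : K) ^ (j + 1))) /
        (1 - (hb : K)⁻¹ * (w * (q : K) ^ (j + 1)))) * e5

open Pool.Agent.Run7.h657

/-- the data of the helper files -/
def QQ (Γ : FQuiver V A W) (T : Par K A W) : QD K V A W :=
  ⟨Γ.tail, Γ.head, fun e => (T.τ e : K), Γ.fr, fun f => (T.a f : K)⟩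

section point

variable {Γ : FQuiver V A W} {T : Par K A W} {c : P → V} {x : P → Kˣ}
  {M : Rep K A W P}

lemma x_mem (hM : IsPoint Γ c M) (hx : MultFree Γ T c x M) (r0 : P) :
    x r0 ∈ Subgroup.closure ({T.hb} ∪ Set.range T.τ ∪ Set.range T.a) := by
  classical
  set G := Subgroup.closure ({T.hb} ∪ Set.range T.τ ∪ Set.range T.a) with hG
  have gh : T.hb ∈ G := Subgroup.subset_closure (Or.inl (Or.inl rfl))
  have gτ : ∀ e, T.τ e ∈ G := fun e => Subgroup.subset_closure (Or.inl (Or.inr ⟨e, rfl⟩))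
  have ga : ∀ f, T.a f ∈ G := fun f => Subgroup.subset_closure (Or.inr ⟨f, rfl⟩)
  let U : Submodule K (P → K) :=
    { carrier := {u | ∀ r, x r ∉ G → u r = 0}
      add_mem' := fun {a b} ha hb r hr => by simp [ha r hr, hb r hr]
      zero_mem' := fun r _ => rfl
      smul_mem' := fun k a ha r hr => by simp [ha r hr] }
  have hU : U = ⊤ := by
    apply hM.stable
    · intro i u hu r hr
      show (if c r = i then u r else 0) = 0
      rw [hu r hr]; simp
    · intro f r hr
      by_contra hne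
      apply hr
      have h1 := ((hx.wtI r f).1 hne).2
      rw [div_eq_one] at h1
      rw [h1]; exact ga f
    · intro e u hu r hr
      show ∑ s, M.X e r s * u s = 0
      apply sum_eq_zero
      intro s _
      by_cases hne : M.X e r s = 0
      · rw [hne, zero_mul]
      · have h1 := ((hx.wtX e r s).1 hne).2
        rw [div_eq_one] at h1
        rw [hu s, mul_zero]
        intro hs
        apply hr
        have : x r = (T.τ e)⁻¹ * x s := by rw [← h1]; simp
        rw [this]
        exact G.mul_mem (G.inv_mem (gτ e)) hs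
    · intro e u hu r hr
      show ∑ s, M.Y e r s * u s = 0
      apply sum_eq_zero
      intro s _
      by_cases hne : M.Y e r s = 0
      · rw [hne, zero_mul]
      · have h1 := ((hx.wtY e r s).1 hne).2
        rw [div_eq_one] at h1
        rw [hu s, mul_zero]
        intro hs
        apply hr
        have : x r = T.hb⁻¹ * (T.τ e * x s) := by rw [← h1]; simp
        rw [this]
        exact G.mul_mem (G.inv_mem gh) (G.mul_mem (gτ e) hs)
  have h1 : (Pi.single r0 1 : P → K) ∈ U := by rw [hU]; trivial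
  by_contra hcon
  have := h1 r0 hcon
  simp at this

lemma ok (hT : Generic T) : Ok (T.q : K)⁻¹ (T.hb : K)⁻¹ where
  hp := inv_ne_zero T.q.ne_zero
  ht := inv_ne_zero T.hb.ne_zero
  hpp := by
    intro m hm hh
    apply hT m (by omega)
    have : T.q ^ (m : ℤ) = 1 := by
      rw [zpow_natCast]
      apply Units.ext
      rw [inv_pow, inv_eq_one] at hh
      simpa using hh
    rw [this]
    exact Subgroup.one_mem _
  htp := by
    intro l hh
    apply hT ((l : ℤ) + 1) (by omega)
    have : T.q ^ ((l : ℤ) + 1) = T.hb := by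
      apply Units.ext
      rw [inv_pow, inv_inj] at hh
      rw [hh]
      norm_cast
    rw [this]
    exact Subgroup.subset_closure (Or.inl (Or.inl rfl))

lemma good (hM : IsPoint Γ c M) (hx : MultFree Γ T c x M) (hT : Generic T) :
    Good (QQ Γ T) (T.q : K)⁻¹ (T.hb : K)⁻¹ c (fun r => (x r : K)) M.X M.Y M.I M.J where
  x0 r := (x r).ne_zero
  thin r r' h1 h2 := hx.distinct r r' h1 (Units.ext h2)
  a_iff e r' r := by
    rw [hx.wtX, div_eq_one, Units.ext_iff, Units.val_mul]
    exact and_congr_left fun _ => and_comm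
  b_iff e r' r := by
    rw [hx.wtY, div_eq_one, Units.ext_iff, Units.val_mul, Units.val_mul]
    refine and_congr and_comm ?_
    have := T.hb.ne_zero
    constructor
    · intro h
      show (x r' : K) = (T.hb : K)⁻¹ * T.τ e * x r
      rw [mul_assoc, ← h]; field_simp
    · intro h
      have h' : (x r' : K) = (T.hb : K)⁻¹ * T.τ e * x r := h
      rw [h']; field_simp
  i_iff r f := by
    rw [hx.wtI, div_eq_one, Units.ext_iff]
    rfl
  j_iff f r := by
    rw [hx.wtJ, div_eq_one, Units.ext_iff, Units.val_mul]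
    refine and_congr Iff.rfl ?_
    have := T.hb.ne_zero
    constructor
    · intro h
      show (T.a f : K) = (T.hb : K)⁻¹ * x r
      rw [← h]; field_simp
    · intro h
      have h' : (T.a f : K) = (T.hb : K)⁻¹ * x r := h
      rw [h']; field_simp
  mom := hM.moment
  st := hM.stable
  fr r r' _ j hj hh := by
    apply hT (-j) (by omega)
    have : T.q ^ (-j) = x r * (x r')⁻¹ := by
      apply Units.ext
      rw [Units.val_mul, Units.val_inv_eq_inv_val, hh, Units.val_zpow_eq_zpow_val, zpow_neg,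
        inv_zpow]
      have := (x r').ne_zero
      field_simp
    rw [this]
    exact Subgroup.mul_mem _ (x_mem hM hx r) (Subgroup.inv_mem _ (x_mem hM hx r'))
  frt r r' _ j hj hh := by
    apply hT (-j) (by omega)
    have : T.q ^ (-j) = T.hb * (x r * (x r')⁻¹) := by
      apply Units.ext
      rw [Units.val_mul, Units.val_mul, Units.val_inv_eq_inv_val, hh, Units.val_zpow_eq_zpow_val,
        zpow_neg, inv_zpow]
      have := (x r').ne_zero
      have := T.hb.ne_zero
      field_simp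
    rw [this]
    exact Subgroup.mul_mem _ (Subgroup.subset_closure (Or.inl (Or.inl rfl)))
      (Subgroup.mul_mem _ (x_mem hM hx r) (Subgroup.inv_mem _ (x_mem hM hx r')))

/-- degrees of fixed quasimaps are nonnegative -/
lemma reg_nonneg (hM : IsPoint Γ c M) {δ : P → ℤ} (hδ : Regular M δ) (r0 : P) : 0 ≤ δ r0 := by
  classical
  let U : Submodule K (P → K) :=
    { carrier := {u | ∀ r, δ r < 0 → u r = 0}
      add_mem' := fun {a b} ha hb r hr => by simp [ha r hr, hb r hr]
      zero_mem' := fun r _ => rfl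
      smul_mem' := fun k a ha r hr => by simp [ha r hr] }
  have hU : U = ⊤ := by
    apply hM.stable
    · intro i u hu r hr
      show (if c r = i then u r else 0) = 0
      rw [hu r hr]; simp
    · intro f r hr
      by_contra hne
      have := hδ.2.2.1 r f hne
      omega
    · intro e u hu r hr
      show ∑ s, M.X e r s * u s = 0
      apply sum_eq_zero
      intro s _
      by_cases hne : M.X e r s = 0
      · rw [hne, zero_mul]
      · have := hδ.1 e r s hne
        rw [hu s (by omega), mul_zero]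
    · intro e u hu r hr
      show ∑ s, M.Y e r s * u s = 0
      apply sum_eq_zero
      intro s _
      by_cases hne : M.Y e r s = 0
      · rw [hne, zero_mul]
      · have := hδ.2.1 e r s hne
        rw [hu s (by omega), mul_zero]
  have h1 : (Pi.single r0 1 : P → K) ∈ U := by rw [hU]; trivial
  by_contra hcon
  push Not at hcon
  have := h1 r0 hcon
  simp at this

/-- the constraints in the two forms -/
lemma reg_iff (hx : MultFree Γ T c x M) (δ : P → ℕ) :
    Regular M (fun r => (δ r : ℤ)) ↔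
      RR (QQ Γ T) (T.hb : K)⁻¹ c (fun r => (x r : K)) δ := by
  have hh := T.hb.ne_zero
  constructor
  · rintro ⟨h1, h2, _, h4⟩
    refine ⟨fun e r r' hr hr' => ⟨fun hw => ?_, fun hw => ?_⟩, fun f r hr hw => ?_⟩
    · have : M.X e r' r ≠ 0 := by
        rw [hx.wtX, div_eq_one, Units.ext_iff, Units.val_mul]
        exact ⟨⟨hr, hr'⟩, hw⟩
      exact Int.ofNat_le.1 (h1 e r' r this)
    · have : M.Y e r r' ≠ 0 := by
        rw [hx.wtY, div_eq_one, Units.ext_iff, Units.val_mul, Units.val_mul]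
        refine ⟨⟨hr', hr⟩, ?_⟩
        have h' : (x r : K) = (T.hb : K)⁻¹ * T.τ e * x r' := hw
        rw [h']; field_simp
      exact Int.ofNat_le.1 (h2 e r r' this)
    · have : M.J f r ≠ 0 := by
        rw [hx.wtJ, div_eq_one, Units.ext_iff, Units.val_mul]
        refine ⟨hr, ?_⟩
        have h' : (T.a f : K) = (T.hb : K)⁻¹ * x r := hw
        rw [h']; field_simp
      have h5 : (δ r : ℤ) ≤ 0 := h4 f r this
      omega
  · rintro ⟨h1, h2⟩
    refine ⟨fun e r' r hne => ?_, fun e r' r hne => ?_, fun r f _ => Int.natCast_nonneg _,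
      fun f r hne => ?_⟩
    · rw [hx.wtX, div_eq_one, Units.ext_iff, Units.val_mul] at hne
      exact Int.ofNat_le.2 ((h1 e r r' hne.1.1 hne.1.2).1 hne.2)
    · rw [hx.wtY, div_eq_one, Units.ext_iff, Units.val_mul, Units.val_mul] at hne
      have h3 : (x r' : K) = (T.hb : K)⁻¹ * T.τ e * x r := by
        rw [mul_assoc, ← hne.2]; field_simp
      exact Int.ofNat_le.2 ((h1 e r' r hne.1.2 hne.1.1).2 h3)
    · rw [hx.wtJ, div_eq_one, Units.ext_iff, Units.val_mul] at hne
      have h3 : (T.a f : K) = (T.hb : K)⁻¹ * x r := by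
        rw [← hne.2]; field_simp
      have h5 := h2 f r hne.1 h3
      show (δ r : ℤ) ≤ 0
      omega

end point

section coefficients

variable (Γ : FQuiver V A W) (T : Par K A W) (c : P → V) (x : P → Kˣ) (M : Rep K A W P)

lemma zprod' {k : K} (hk : k ≠ 0) {ι : Type*} (s : Finset ι) (f : ι → ℤ) :
    ∏ i ∈ s, k ^ f i = k ^ ∑ i ∈ s, f i := by
  classical
  induction s using Finset.induction_on with
  | empty => simp
  | insert a s ha ih => rw [prod_insert ha, sum_insert ha, zpow_add₀ hk, ih]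

lemma br_eq (w : Kˣ) (d : ℤ) :
    br T w d = Qz (T.q : K)⁻¹ (T.hb : K)⁻¹ (w : K) d * (-((T.h : K) / T.s)) ^ d := by
  have hs := T.s.ne_zero
  have hh := T.h.ne_zero
  rw [← qp_ratio]
  unfold br
  rw [mul_assoc, ← mul_zpow]
  congr 2
  show -((T.s : K) / T.h) = ((T.s ^ 2 : Kˣ) : K) / ((T.h ^ 2 : Kˣ) : K) * -((T.h : K) / T.s)
  push_cast
  field_simp

/-- the summand in the two normalisations -/
lemma contrib_eq (δ : P → ℕ) :
    contrib Γ T c x (fun r => (δ r : ℤ)) =
      (-(T.h : K)) ^ degPol Γ c (fun r => (δ r : ℤ)) *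
        Wt (QQ Γ T) (T.q : K)⁻¹ (T.hb : K)⁻¹ c (fun r => (x r : K)) δ := by
  have hs := T.s.ne_zero
  have hh := T.h.ne_zero
  have hk : -((T.h : K) / T.s) ≠ 0 := neg_ne_zero.2 (div_ne_zero hh hs)
  unfold contrib Wt
  have e1 : (∏ e, ∏ r, ∏ r', if c r = Γ.tail e ∧ c r' = Γ.head e then
      br T (T.τ e * x r' / x r) ((δ r' : ℤ) - δ r) else 1) =
      (∏ e, ∏ r, ∏ r', if c r = Γ.tail e ∧ c r' = Γ.head e then
      Qz (T.q : K)⁻¹ (T.hb : K)⁻¹ ((T.τ e : K) * x r' / x r) ((δ r' : ℤ) - δ r) else 1) *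
      (-((T.h : K) / T.s)) ^ (∑ e, ∑ r, ∑ r', if c r = Γ.tail e ∧ c r' = Γ.head e then
        (δ r' : ℤ) - δ r else 0) := by
    rw [← zprod' hk, ← prod_mul_distrib]
    apply prod_congr rfl; intro e _
    rw [← zprod' hk, ← prod_mul_distrib]
    apply prod_congr rfl; intro r _
    rw [← zprod' hk, ← prod_mul_distrib]
    apply prod_congr rfl; intro r' _
    split_ifs with h
    · rw [br_eq, Units.val_div_eq_div_val, Units.val_mul]
    · simp
  have e2 : (∏ f, ∏ r, if c r = Γ.fr f then br T (x r / T.a f) (δ r : ℤ) else 1) =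
      (∏ f, ∏ r, if c r = Γ.fr f then
        Qz (T.q : K)⁻¹ (T.hb : K)⁻¹ ((x r : K) / T.a f) (δ r : ℤ) else 1) *
      (-((T.h : K) / T.s)) ^ (∑ f, ∑ r, if c r = Γ.fr f then (δ r : ℤ) else 0) := by
    rw [← zprod' hk, ← prod_mul_distrib]
    apply prod_congr rfl; intro f _
    rw [← zprod' hk, ← prod_mul_distrib]
    apply prod_congr rfl; intro r _
    split_ifs with h
    · rw [br_eq, Units.val_div_eq_div_val]
    · simp
  have e3 : (∏ r, ∏ r', if c r = c r' then br T (x r' / x r) ((δ r' : ℤ) - δ r) else 1) =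
      (∏ r, ∏ r', if c r = c r' then
        Qz (T.q : K)⁻¹ (T.hb : K)⁻¹ ((x r : K) / x r') ((δ r : ℤ) - δ r') else 1) *
      (-((T.h : K) / T.s)) ^ (∑ r, ∑ r', if c r = c r' then (δ r' : ℤ) - δ r else 0) := by
    rw [prod_comm (f := fun r r' => if c r = c r' then
        Qz (T.q : K)⁻¹ (T.hb : K)⁻¹ ((x r : K) / x r') ((δ r : ℤ) - δ r') else 1)]
    rw [← zprod' hk, ← prod_mul_distrib]
    apply prod_congr rfl; intro r _
    rw [← zprod' hk, ← prod_mul_distrib]
    apply prod_congr rfl; intro r' _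
    by_cases h : c r = c r'
    · rw [if_pos h, if_pos h, if_pos h.symm, br_eq, Units.val_div_eq_div_val]
    · rw [if_neg h, if_neg h, if_neg (fun h' => h h'.symm)]
      simp
  rw [e1, e2, e3]
  set a1 := (∑ e, ∑ r, ∑ r', if c r = Γ.tail e ∧ c r' = Γ.head e then
        (δ r' : ℤ) - δ r else 0) with ha1
  set a2 := (∑ f, ∑ r, if c r = Γ.fr f then (δ r : ℤ) else 0) with ha2
  set a3 := (∑ r, ∑ r', if c r = c r' then (δ r' : ℤ) - δ r else 0) with ha3
  have hdeg : degPol Γ c (fun r => (δ r : ℤ)) = a1 + a2 - a3 := rfl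
  rw [hdeg]
  have e4 : ∀ m : ℤ, (-(T.h : K)) ^ m = (T.s : K) ^ m * (-((T.h : K) / T.s)) ^ m := by
    intro m
    rw [← mul_zpow]
    congr 1
    field_simp
  rw [e4, zpow_sub₀ hk, zpow_add₀ hk]
  have key : ∀ E1 E2 D b1 b2 b3 S : K, S * ((E1 * b1) * (E2 * b2) / (D * b3)) =
      S * (b1 * b2 / b3) * ((E1 * E2) / D) := by
    intro E1 E2 D b1 b2 b3 S
    simp only [div_eq_mul_inv, mul_inv]
    ring
  exact key _ _ _ _ _ _ _

/-- the degree of the polarization in terms of the degree -/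
lemma deg_eq (δ : P → ℤ) (d : V → ℤ) (hd : ∀ i, ∑ r with c r = i, δ r = d i) :
    degPol Γ c δ = ∑ i, av Γ c i * d i := by
  have hcard : ∀ i, ((dimv c i : ℕ) : ℤ) = ∑ r, if c r = i then (1 : ℤ) else 0 := by
    intro i
    unfold dimv
    rw [card_filter]
    push_cast
    rfl
  have hpair : ∀ i j, (∑ r, ∑ r', if c r = i ∧ c r' = j then δ r' - δ r else 0) =
      (dimv c i : ℤ) * d j - (dimv c j : ℤ) * d i := by
    intro i j
    rw [hcard, hcard, ← hd, ← hd, sum_filter, sum_filter, sum_mul_sum, sum_mul_sum]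
    rw [sum_comm (f := fun a b => (if c a = j then (1 : ℤ) else 0) * (if c b = i then δ b else 0))]
    rw [← sum_sub_distrib]
    apply sum_congr rfl; intro r _
    rw [← sum_sub_distrib]
    apply sum_congr rfl; intro r' _
    by_cases h1 : c r = i <;> by_cases h2 : c r' = j <;> simp [h1, h2]
  have h3 : (∑ r, ∑ r', if c r = c r' then δ r' - δ r else 0) = 0 := by
    have h4 : (∑ r, ∑ r', if c r = c r' then δ r' - δ r else 0) =
        -(∑ r, ∑ r', if c r = c r' then δ r' - δ r else 0) := by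
      conv_lhs => rw [sum_comm]
      rw [← sum_neg_distrib]
      apply sum_congr rfl; intro r _
      rw [← sum_neg_distrib]
      apply sum_congr rfl; intro r' _
      by_cases h1 : c r = c r'
      · rw [if_pos h1, if_pos h1.symm]; ring
      · rw [if_neg h1, if_neg (fun h => h1 h.symm)]; simp
    omega
  have h2 : (∑ f, ∑ r, if c r = Γ.fr f then δ r else 0) = ∑ i, (dimw Γ i : ℤ) * d i := by
    have : ∀ f, (∑ r, if c r = Γ.fr f then δ r else 0) = d (Γ.fr f) := by
      intro f
      rw [← hd, sum_filter]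
    simp_rw [this]
    have h5 : ∀ i, (dimw Γ i : ℤ) * d i = ∑ f, if Γ.fr f = i then d (Γ.fr f) else 0 := by
      intro i
      unfold dimw
      rw [card_filter, Nat.cast_sum, sum_mul]
      apply sum_congr rfl; intro f _
      by_cases h : Γ.fr f = i
      · simp [h]
      · simp [h]
    simp_rw [h5]
    rw [sum_comm]
    apply sum_congr rfl; intro f _
    simp
  unfold degPol
  rw [h3, h2, sub_zero]
  simp_rw [hpair]
  unfold av
  simp only [add_mul, sub_mul, sum_add_distrib, sum_sub_distrib]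
  congr 1
  congr 1
  · simp_rw [sum_filter, sum_mul]
    rw [sum_comm]
    apply sum_congr rfl; intro e _
    simp
  · simp_rw [sum_filter, sum_mul]
    rw [sum_comm]
    apply sum_congr rfl; intro e _
    simp

end coefficients

section final

variable {Γ : FQuiver V A W} {T : Par K A W} {c : P → V} {x : P → Kˣ} {M : Rep K A W P}

open Classical in
lemma coeff_vertex (hM : IsPoint Γ c M) (hx : MultFree Γ T c x M) (d : V →₀ ℕ) :
    MvPowerSeries.coeff d (vertex Γ T c x M) =
      Vc (QQ Γ T) (T.q : K)⁻¹ (T.hb : K)⁻¹ c (fun r => (x r : K)) d := by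
  have hh := T.h.ne_zero
  show (-(T.h : K)⁻¹) ^ (∑ i, av Γ c i * (d i : ℤ)) *
    ∑ᶠ δ ∈ {δ : P → ℤ | Regular M δ ∧ ∀ i, ∑ r with c r = i, δ r = d i}, contrib Γ T c x δ = _
  have hset : {δ : P → ℤ | Regular M δ ∧ ∀ i, ∑ r with c r = i, δ r = d i} =
      ↑(((DS c d).filter fun δ => RR (QQ Γ T) (T.hb : K)⁻¹ c (fun r => (x r : K)) δ).image
        (fun δ : P → ℕ => fun r => (δ r : ℤ))) := by
    ext δ
    simp only [Set.mem_setOf_eq, coe_image, coe_filter, Set.mem_image, mem_DS]
    constructor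
    · rintro ⟨h1, h2⟩
      have h3 : ∀ r, ((δ r).toNat : ℤ) = δ r := fun r => Int.toNat_of_nonneg (reg_nonneg hM h1 r)
      refine ⟨fun r => (δ r).toNat, ⟨fun i => ?_, ?_⟩, funext h3⟩
      · have h4 : ∑ r with c r = i, (((δ r).toNat : ℕ) : ℤ) = d i := by
          rw [← h2 i]
          exact sum_congr rfl fun r _ => h3 r
        exact_mod_cast h4
      · rw [← reg_iff hx]
        have h4 : (fun r => (((δ r).toNat : ℕ) : ℤ)) = δ := funext h3
        rw [h4]
        exact h1
    · rintro ⟨δ', ⟨h1, h2⟩, rfl⟩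
      refine ⟨(reg_iff hx δ').2 h2, fun i => ?_⟩
      show ∑ r with c r = i, ((δ' r : ℕ) : ℤ) = d i
      exact_mod_cast h1 i
  rw [hset, finsum_mem_coe_finset, sum_image]
  · unfold Vc
    rw [mul_sum]
    apply sum_congr rfl
    intro δ hδ
    rw [mem_filter, mem_DS] at hδ
    rw [contrib_eq, deg_eq Γ c (fun r => (δ r : ℤ)) (fun i => (d i : ℤ))
      (fun i => by exact_mod_cast hδ.1 i), ← mul_assoc, ← mul_zpow]
    have : -(T.h : K)⁻¹ * -(T.h : K) = 1 := by field_simp
    rw [this, one_zpow, one_mul]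
  · intro δ _ δ' _ hh
    funext r
    exact Int.ofNat.inj (congrFun hh r)

lemma rf_eq (i : V) (α : V → ℤ) : rf (nE (QQ Γ T)) i α = reflect Γ i α := by
  classical
  unfold rf reflect
  congr 1
  have h1 := sum_edge_in (QQ Γ T) i α
  have h2 := sum_edge_out (QQ Γ T) i α
  have h3 : ∑ j, (nE (QQ Γ T) i j : ℤ) * α j =
      ∑ e with Γ.head e = i, α (Γ.tail e) + ∑ e with Γ.tail e = i, α (Γ.head e) := by
    have h4 : ∑ b with (QQ Γ T).tgt b = i, α ((QQ Γ T).src b) =
      ∑ e with Γ.head e = i, α (Γ.tail e) := rfl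
    have h5 : ∑ b with (QQ Γ T).src b = i, α ((QQ Γ T).tgt b) =
      ∑ e with Γ.tail e = i, α (Γ.head e) := rfl
    rw [← h4, ← h5, h1, h2, ← sum_add_distrib]
    apply sum_congr rfl
    intro j _
    unfold nE
    push_cast
    ring
  rw [h3]

lemma root_iff (α : V →₀ ℕ) :
    PRt (QQ Γ T) α ↔ IsRealRoot Γ (fun i => (α i : ℤ)) := by
  constructor
  · rintro ⟨u, i, h⟩
    rw [← h]
    clear h
    induction u with
    | nil => exact IsRealRoot.simple i
    | cons j u ih =>
      show IsRealRoot Γ (rf (nE (QQ Γ T)) j (act (nE (QQ Γ T)) u (sr i)))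
      rw [rf_eq]
      exact IsRealRoot.refl j _ ih
  · intro h
    have key : ∀ β : V → ℤ, IsRealRoot Γ β → ∃ u i, act (nE (QQ Γ T)) u (sr i) = β := by
      intro β hβ
      induction hβ with
      | simple i => exact ⟨[], i, rfl⟩
      | refl j β _ ih =>
        obtain ⟨u, i, hu⟩ := ih
        refine ⟨j :: u, i, ?_⟩
        show rf (nE (QQ Γ T)) j (act (nE (QQ Γ T)) u (sr i)) = _
        rw [hu, rf_eq]
    exact key _ h

lemma mu_eq (i : V) : Pool.Agent.Run7.h657.muv (QQ Γ T) c i = muv Γ c i := by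
  unfold Pool.Agent.Run7.h657.muv muv dimw Et Es dv dimv
  push_cast
  simp only [QQ]
  ring

lemma bv_eq (i : V) : Pool.Agent.Run7.h657.bv (QQ Γ T) c i = bv Γ c i := by
  unfold Pool.Agent.Run7.h657.bv bv Es dv dimv
  push_cast
  simp only [QQ]

lemma zd (hd : DimZero Γ c) : ZD (QQ Γ T) c := by
  unfold DimZero at hd
  unfold ZD
  have h1 : ∑ f, dv c ((QQ Γ T).cF f) = ∑ i, dimv c i * dimw Γ i := by
    have h5 : ∀ i, dimv c i * dimw Γ i = ∑ f, if Γ.fr f = i then dimv c (Γ.fr f) else 0 := by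
      intro i
      unfold dimw
      rw [card_filter, mul_sum]
      apply sum_congr rfl; intro f _
      by_cases h : Γ.fr f = i
      · simp [h]
      · simp [h]
    simp_rw [h5]
    rw [sum_comm]
    apply sum_congr rfl; intro f _
    simp [QQ, dv, dimv]
  rw [h1]
  simp only [pow_two] at hd
  exact hd

end final

/-- **Product formula.** For a point of a zero dimensional quiver variety (loop free quiver, any
framing) with multiplicity free torus weights, the vertex function is the product over the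
positive real roots `α` with `(α, μ) < 0` (finitely many) of
`∏_{i < -(α, μ)} Φ(ħ (ħ/q)^i e^α) / Φ((ħ/q)^i e^α)`. -/
theorem mf_result (Γ : FQuiver V A W) (hl : ∀ e, Γ.tail e ≠ Γ.head e) (T : Par K A W)
    (hT : Generic T) (c : P → V) (x : P → Kˣ) (M : Rep K A W P) (hM : IsPoint Γ c M)
    (hd : DimZero Γ c) (hx : MultFree Γ T c x M) :
    (∀ δ, Regular M δ → ∀ r, 0 ≤ δ r) ∧
    ∃ R : Finset (V →₀ ℕ),
      (∀ α, α ∈ R ↔ IsRealRoot Γ (fun i => (α i : ℤ)) ∧ pair α (muv Γ c) < 0) ∧
      vertex Γ T c x M *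
        ∏ α ∈ R, ∏ i ∈ range (-pair α (muv Γ c)).toNat,
          PhiAt (T.q : K) α (((T.hb : K) / T.q) ^ i * ((T.q : K) / T.hb) ^ pair α (bv Γ c)) =
        ∏ α ∈ R, ∏ i ∈ range (-pair α (muv Γ c)).toNat,
          PhiAt (T.q : K) α
            (T.hb * (((T.hb : K) / T.q) ^ i * ((T.q : K) / T.hb) ^ pair α (bv Γ c))) := by
  classical
  refine ⟨fun δ hδ r => reg_nonneg hM hδ r, ?_⟩
  have hok := ok hT
  have hq0 := T.q.ne_zero
  have hh0 := T.hb.ne_zero
  have hq : ∀ m : ℕ, 0 < m → (T.q : K) ^ m ≠ 1 := by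
    intro m hm hh
    apply hok.hpp m hm
    rw [inv_pow, hh, inv_one]
  obtain ⟨R, hR, hV⟩ := claim_all (Q := QQ Γ T) hok hl (fun e => (T.τ e).ne_zero)
    (Fintype.card P) P c (fun r => (x r : K)) M.X M.Y M.I M.J rfl (good hM hx hT) (zd hd)
  have hmu : Pool.Agent.Run7.h657.muv (QQ Γ T) c = muv Γ c := funext mu_eq
  have hbv : Pool.Agent.Run7.h657.bv (QQ Γ T) c = bv Γ c := funext bv_eq
  have hpr : ∀ (α : V →₀ ℕ) (y : V → ℤ), pr α y = pair α y := fun _ _ => rfl
  rw [hmu] at hR
  rw [hmu, hbv] at hV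
  refine ⟨R, ?_, ?_⟩
  · intro α
    rw [hR, root_iff]
    rfl
  · have hvs : vertex Γ T c x M = Vs (QQ Γ T) (T.q : K)⁻¹ (T.hb : K)⁻¹ c
        (fun r => (x r : K)) := by
      ext d
      rw [coeff_vertex hM hx, coeff_Vs]
    rw [hvs, hV]
    unfold PF
    rw [← prod_mul_distrib]
    apply prod_congr rfl
    intro α hα
    have hα0 : α ≠ 0 := PRt_ne (QQ Γ T) hl ((hR α).1 hα).1
    simp only [hpr]
    rw [← prod_mul_distrib]
    apply prod_congr rfl
    intro i _
    have e1 : ((T.q : K)⁻¹ / (T.hb : K)⁻¹) ^ ((i : ℤ) + 1 - pair α (bv Γ c)) =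
        ((T.q : K)⁻¹ / (T.hb : K)⁻¹) *
          (((T.hb : K) / T.q) ^ i * ((T.q : K) / T.hb) ^ pair α (bv Γ c)) := by
      have h1 : (T.q : K)⁻¹ / (T.hb : K)⁻¹ = (T.hb : K) / T.q := by field_simp
      have h2 : (T.hb : K) / T.q ≠ 0 := div_ne_zero hh0 hq0
      rw [h1, zpow_sub₀ h2, zpow_add_one₀ h2, zpow_natCast]
      have h3 : ((T.q : K) / T.hb) ^ pair α (bv Γ c) =
          (((T.hb : K) / T.q) ^ pair α (bv Γ c))⁻¹ := by
        rw [← inv_zpow, inv_div]
      rw [h3]
      have := zpow_ne_zero (pair α (bv Γ c)) h2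
      field_simp
    rw [e1]
    exact ev_factor hq0 hh0 hq hα0 _

end Pool.Agent.Run7.h657.Vx
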