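import Pool.Agent.Run7.h657.Gen

/-! The sums without cross terms. -/

set_option linter.unusedSectionVars false

namespace Pool.Agent.Run7.h657

open Finset Polynomial

variable {K : Type*} [Field K]

lemma rescale_rser (p t c c' : K) : PowerSeries.rescale c (rser p t c') = rser p t (c * c') := by
  ext n
  simp [rser, PowerSeries.coeff_rescale, mul_pow]
  ring

lemma gser_succ (p t : K) (k : ℕ) :
    gser p t (k + 1) = gser p t 1 * PowerSeries.rescale (t / p) (gser p t k) := by
  unfold gser
  rw [prod_range_succ', map_prod, prod_range_one, mul_comm]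
  congr 1
  apply prod_congr rfl
  intro j _
  rw [rescale_rser, pow_succ']

lemma coeff_gser_one (p t : K) (m : ℕ) : PowerSeries.coeff m (gser p t 1) = ph p t 1 m := by
  simp [gser, rser]

lemma gser_ne_zero (p t : K) (k : ℕ) : gser p t k ≠ 0 := by
  intro h
  have h1 : PowerSeries.constantCoeff (gser p t k) = 1 := by
    unfold gser
    rw [map_prod]
    apply prod_eq_one
    intro j _
    rw [← PowerSeries.coeff_zero_eq_constantCoeff_apply]
    simp [rser]
  rw [h] at h1
  simp at h1

/-- functions on `Unit` with given sum -/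
lemma sum_unit {M : Type*} [AddCommMonoid M] (m : ℕ) (f : (Unit → ℕ) → M) :
    ∑ d ∈ piAntidiag univ m, f d = f (fun _ => m) := by
  have : (piAntidiag (univ : Finset Unit) m) = {fun _ => m} := by
    ext d
    rw [mem_piAntidiag, mem_singleton]
    constructor
    · rintro ⟨h, _⟩
      funext a
      simpa using h
    · rintro rfl
      simp
  rw [this, sum_singleton]

lemma sum_cons {M : Type*} [AddCommMonoid M] (k m : ℕ) (f : (Fin (k + 1) → ℕ) → M)
    (hf : ∀ d, d 0 ≠ 0 → f d = 0) :
    ∑ d ∈ piAntidiag univ m, f d = ∑ d ∈ piAntidiag univ m, f (Fin.cons 0 d) := by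
  symm
  apply Finset.sum_of_injOn (fun d : Fin k → ℕ => (Fin.cons 0 d : Fin (k + 1) → ℕ))
  · intro d _ d' _ h
    exact (Fin.cons_right_injective (α := fun _ => ℕ) 0) h
  · intro d hd
    rw [mem_coe, mem_piAntidiag] at hd ⊢
    refine ⟨?_, by simp⟩
    rw [← hd.1, Fin.sum_univ_succ]
    simp
  · intro d hd hnot
    apply hf
    intro h0
    apply hnot
    refine ⟨Fin.tail d, ?_, ?_⟩
    · rw [mem_coe, mem_piAntidiag]
      refine ⟨?_, by simp⟩
      rw [← (mem_piAntidiag.1 hd).1, Fin.sum_univ_succ, h0]
      simp [Fin.tail]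
    · show Fin.cons 0 (Fin.tail d) = d
      conv_rhs => rw [← Fin.cons_self_tail d, h0]
  · intro d _; rfl

lemma wt_unit (p t : K) (x : Unit → K) (hx : x () ≠ 0) (hp : p ≠ 0) (m : ℕ) :
    wt p t x (fun _ => m) = ph p t 1 m := by
  unfold wt
  simp only [univ_unique, PUnit.default_eq_unit, prod_singleton]
  rw [div_self (mul_ne_zero hx (pow_ne_zero _ hp))]

/-- a reflection of Pochhammer symbols -/
lemma ph_refl {p t : K} (hp : p ≠ 0) (ht : t ≠ 0) (v : K) (hv : v ≠ 0) (d : ℕ)
    (h1 : ∀ i < d, v * p ^ i ≠ 1) (h2 : ∀ i < d, v * p ^ (i + 1) ≠ t) :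
    ph p t (1 / (v * p ^ d)) d * ph p t (v / t) d = (t / p) ^ d := by
  have e1 : poch p (t * (1 / (v * p ^ d))) d =
      (∏ i ∈ range d, (-(t / (v * p ^ (i + 1))))) * poch p (p * (v / t)) d := by
    unfold poch
    rw [← prod_mul_distrib, ← prod_range_reflect]
    apply prod_congr rfl
    intro i hi
    have hi := mem_range.1 hi
    have : p ^ d = p ^ (d - 1 - i) * p ^ (i + 1) := by rw [← pow_add]; congr 1; omega
    rw [this]
    have := pow_ne_zero (d - 1 - i) hp
    have := pow_ne_zero (i + 1) hp
    field_simp
    ring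
  have e2 : poch p (p * (1 / (v * p ^ d))) d =
      (∏ i ∈ range d, (-(1 / (v * p ^ i)))) * poch p (t * (v / t)) d := by
    unfold poch
    rw [← prod_mul_distrib, ← prod_range_reflect]
    apply prod_congr rfl
    intro i hi
    have hi := mem_range.1 hi
    have : p ^ d = p * p ^ (d - 1 - i) * p ^ i := by
      rw [mul_assoc, ← pow_add, ← pow_succ']; congr 1; omega
    rw [this]
    have := pow_ne_zero (d - 1 - i) hp
    have := pow_ne_zero i hp
    field_simp
    ring
  have n1 : poch p (p * (v / t)) d ≠ 0 := by
    apply poch_ne_zero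
    intro j hj h
    apply h2 j hj
    rw [pow_succ]
    field_simp at h
    linear_combination h
  have n2 : poch p (t * (v / t)) d ≠ 0 := by
    apply poch_ne_zero
    intro j hj h
    apply h1 j hj
    field_simp at h
    linear_combination h
  have n3 : (∏ i ∈ range d, (-(1 / (v * p ^ i)))) ≠ 0 := by
    apply prod_ne_zero_iff.2
    intro i _
    exact neg_ne_zero.2 (one_div_ne_zero (mul_ne_zero hv (pow_ne_zero _ hp)))
  have e3 : (∏ i ∈ range d, (-(t / (v * p ^ (i + 1))))) =
      (t / p) ^ d * (∏ i ∈ range d, (-(1 / (v * p ^ i)))) := by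
    have e4 : (t / p) ^ d = ∏ _i ∈ range d, (t / p) := by rw [prod_const, card_range]
    rw [e4, ← prod_mul_distrib]
    apply prod_congr rfl
    intro i _
    have := pow_ne_zero i hp
    rw [pow_succ]
    field_simp
  unfold ph
  rw [e1, e2, e3, div_mul_div_comm, div_eq_iff (mul_ne_zero (mul_ne_zero n3 n2) n1)]
  ring

/-- the series at the special point -/
lemma cf_special {p t : K} (hp : p ≠ 0) (ht : t ≠ 0) (k : ℕ) (x : Fin (k + 1) → K)
    (y : Unit → K) (h : Gen p t x y) (h0 : t * (x 0 * y ()) = 1) (m : ℕ) :
    cf p t x y m = (t / p) ^ m * ∑ d ∈ piAntidiag univ m, wt p t (fun a => x (Fin.succ a)) d := by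
  unfold cf
  rw [sum_cons]
  · rw [mul_sum]
    apply sum_congr rfl
    intro d hd
    have hs : ∑ a, d a = m := (mem_piAntidiag.1 hd).1
    unfold trm wt cr
    simp only [Fin.prod_univ_succ, Fin.cons_zero, Fin.cons_succ, ph_zero, one_mul, pow_zero,
      mul_one, univ_unique, prod_singleton, PUnit.default_eq_unit]
    have key : (∏ a : Fin k, ph p t (x 0 / (x a.succ * p ^ d a)) (d a)) *
        (∏ a : Fin k, ph p t (x a.succ * y ()) (d a)) = (t / p) ^ m := by
      rw [← hs, ← prod_pow_eq_pow_sum, ← prod_mul_distrib]
      apply prod_congr rfl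
      intro a _
      have hx0 := h.hx 0
      have hxa := h.hx a.succ
      have hy : y () = 1 / (t * x 0) := by
        rw [eq_div_iff (mul_ne_zero ht hx0)]; linear_combination h0
      have e := ph_refl hp ht (x a.succ / x 0) (div_ne_zero hxa hx0) (d a) (by
        intro i _ hh
        apply h.xx a.succ 0 (Fin.succ_ne_zero a) 0 (-(i : ℤ))
        rw [zpow_neg, zpow_natCast, zpow_zero]
        have := pow_ne_zero i hp
        field_simp at hh ⊢
        linear_combination hh) (by
        intro i _ hh
        apply h.xx a.succ 0 (Fin.succ_ne_zero a) 1 (-((i + 1 : ℕ) : ℤ))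
        rw [zpow_neg, zpow_natCast, zpow_one]
        have := pow_ne_zero (i + 1) hp
        field_simp at hh ⊢
        linear_combination hh)
      rw [← e, hy]
      congr 2
      · have := pow_ne_zero (d a) hp
        field_simp
      · field_simp
    rw [← key]
    ring
  · intro d hd
    unfold trm cr
    apply mul_eq_zero_of_right
    apply prod_eq_zero (mem_univ 0)
    apply prod_eq_zero (mem_univ ())
    unfold ph
    rw [h0, poch_eq_zero (j := 0) (Nat.pos_of_ne_zero hd) (by simp), zero_div]

lemma PA_zero (p t : K) (x : Fin 0 → K) : PA p t x := by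
  intro m
  rcases Nat.eq_zero_or_pos m with rfl | hm
  · simp [wt, gser]
  · have : (piAntidiag (univ : Finset (Fin 0)) m) = ∅ := by
      ext d
      simp [mem_piAntidiag]
      omega
    rw [this, sum_empty]
    simp only [Fintype.card_fin, gser, range_zero, prod_empty]
    rw [PowerSeries.coeff_one, if_neg (by omega)]

theorem PA_fin {p t : K} (hp : p ≠ 0) (hpp : ∀ m : ℕ, 0 < m → p ^ m ≠ 1) (ht : t ≠ 0)
    (htp : ∀ l : ℕ, t ≠ p ^ (l + 1)) : ∀ (k : ℕ) (x : Fin k → K), (∀ a, x a ≠ 0) →
      (∀ a a', a ≠ a' → ∀ l m : ℤ, x a ≠ x a' * t ^ l * p ^ m) → PA p t x := by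
  intro k
  induction k with
  | zero => intro x _ _; exact PA_zero p t x
  | succ k IHk =>
    -- the identity for `Fin (k+1)` and `Unit`
    have hmain : ∀ n, (∀ (x : Fin (k + 1) → K) (y : Unit → K), Gen p t x y →
        (num p t n x y).eval 0 = 0) ∧
        (∀ (x : Fin (k + 1) → K) (y : Unit → K), Gen p t x y → NV p x y →
          idn p t x y n = 0) := by
      intro n
      induction n using Nat.strong_induction_on with
      | _ n IH =>
        have hZ : ∀ (x : Fin (k + 1) → K) (y : Unit → K), Gen p t x y →
            (num p t n x y).eval 0 = 0 := by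
          intro x y h
          have h1 := num_eq_den hp hpp n h (fun m hm => (IH m hm).2)
          set l : K := (t * (x 0 * y ()))⁻¹ with hl
          have hne : t * (x 0 * y ()) ≠ 0 := mul_ne_zero ht (mul_ne_zero (h.hx 0) (h.hy ()))
          have hl0 : l ≠ 0 := inv_ne_zero hne
          have hG := h.scale hl0
          have h0 : t * (l * x 0 * y ()) = 1 := by
            rw [hl, show t * ((t * (x 0 * y ()))⁻¹ * x 0 * y ()) =
              (t * (x 0 * y ()))⁻¹ * (t * (x 0 * y ())) by ring, inv_mul_cancel₀ hne]
          have hnv : NV p (fun a => l * x a) y := by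
            intro a b i hh
            by_cases ha : a = 0
            · subst ha
              apply htp i
              have h3 : t * (l * x 0 * y ()) * p ^ (i + 1) = t := by
                have : l * x 0 * y () * p ^ (i + 1) = 1 := hh
                linear_combination t * this
              rw [h0, one_mul] at h3
              exact h3.symm
            · apply h.xx a 0 ha 1 (-((i + 1 : ℕ) : ℤ))
              rw [zpow_neg, zpow_natCast, zpow_one]
              have h4 := pow_ne_zero (i + 1) hp
              rw [eq_mul_inv_iff_mul_eq₀ h4]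
              have hh' : l * x a * y () * p ^ (i + 1) = 1 := hh
              have h5 : l * y () ≠ 0 := mul_ne_zero hl0 (h.hy ())
              apply mul_left_cancel₀ h5
              linear_combination hh' - h0
          have h2 := num_eval_nv p t n x y l hl0 hnv
          have h3 : idn p t (fun a => l * x a) y n = 0 := by
            rw [idn_eq]
            have e1 : ser p t (fun a => l * x a) y =
                PowerSeries.rescale (t / p) (gser p t k) := by
              ext m
              rw [ser, PowerSeries.coeff_mk, cf_special hp ht k _ y hG h0 m,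
                PowerSeries.coeff_rescale]
              congr 1
              have := IHk (fun a => l * x a.succ) (fun a => mul_ne_zero hl0 (h.hx _))
                (fun a a' hne => hG.xx a.succ a'.succ (by
                  intro hh; exact hne (Fin.succ_injective _ hh))) m
              rw [this, Fintype.card_fin]
            have e2 : ser p t y (fun a => l * x a) = 1 := by
              ext m
              rw [ser, PowerSeries.coeff_mk, cf, sum_unit, PowerSeries.coeff_one]
              split_ifs with hm
              · subst hm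
                simp [trm, wt, cr]
              · unfold trm cr
                apply mul_eq_zero_of_right
                apply prod_eq_zero (mem_univ ())
                apply prod_eq_zero (mem_univ 0)
                unfold ph
                rw [show t * (y () * (l * x 0)) = t * (l * x 0 * y ()) by ring, h0,
                  poch_eq_zero (j := 0) (Nat.pos_of_ne_zero hm) (by simp), zero_div]
            rw [e1, e2, mul_one, Fintype.card_fin, Fintype.card_unit, ← gser_succ, sub_self]
          rw [h3, zero_mul, h1, eval_mul, eval_C] at h2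
          have h4 : (den p n x y).eval l ≠ 0 := by
            rw [den_eval]
            exact prod_ne_zero_iff.2 fun a _ => prod_ne_zero_iff.2 fun b _ => nv_poch hnv n a b
          exact (mul_eq_zero.1 h2).resolve_right h4
        exact ⟨hZ, idn_step hp hpp n (fun m hm => (IH m hm).2) hZ⟩
    intro x hx hxx
    have hG : Gen p t x (fun _ : Unit => (1 : K)) := by
      refine ⟨hx, fun _ => one_ne_zero, hxx, ?_, ?_⟩
      · intro b b' hbb; exact absurd (Subsingleton.elim b b') hbb
      · intro a b a' b' hne m
        rw [mul_one, mul_one]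
        have := hxx a a' (by intro hh; apply hne; rw [hh]) 0 m
        simpa using this
    have hser : PowerSeries.mk (fun m => ∑ d ∈ piAntidiag univ m, wt p t x d) =
        gser p t (k + 1) := by
      apply mul_left_cancel₀ (gser_ne_zero p t 1)
      ext n
      have h1 := (hmain n).1 x _ hG
      rw [num_zero, sub_eq_zero] at h1
      rw [PowerSeries.coeff_mul, mul_comm (gser p t 1), PowerSeries.coeff_mul]
      simp only [PowerSeries.coeff_mk]
      rw [Fintype.card_unit, Fintype.card_fin] at h1
      rw [h1]
      apply sum_congr rfl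
      intro z _
      rw [sum_unit, wt_unit p t _ one_ne_zero hp, coeff_gser_one]
    intro m
    have := congrArg (PowerSeries.coeff m) hser
    rw [PowerSeries.coeff_mk] at this
    rw [this, Fintype.card_fin]

/-- reindexing -/
lemma PA_equiv {p t : K} {I I' : Type*} [Fintype I] [Fintype I'] [DecidableEq I] [DecidableEq I']
    (e : I' ≃ I) (x : I → K) (h : PA p t (x ∘ e)) : PA p t x := by
  intro m
  have h1 := h m
  rw [Fintype.card_congr e] at h1
  rw [← h1]
  symm
  apply Finset.sum_bij (fun (d : I' → ℕ) _ => d ∘ e.symm)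
  · intro d hd
    rw [mem_piAntidiag] at hd ⊢
    refine ⟨?_, by simp⟩
    rw [← hd.1]
    exact Equiv.sum_comp e.symm d
  · intro d _ d' _ h
    funext a
    have := congrFun h (e a)
    simpa using this
  · intro d hd
    refine ⟨d ∘ e, ?_, by funext a; simp⟩
    rw [mem_piAntidiag] at hd ⊢
    refine ⟨?_, by simp⟩
    rw [← hd.1]
    exact Equiv.sum_comp e d
  · intro d _
    unfold wt
    rw [← Equiv.prod_comp e]
    apply prod_congr rfl; intro a _
    rw [← Equiv.prod_comp e]
    apply prod_congr rfl; intro a' _
    simp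

theorem PA_all {p t : K} (hp : p ≠ 0) (hpp : ∀ m : ℕ, 0 < m → p ^ m ≠ 1) (ht : t ≠ 0)
    (htp : ∀ l : ℕ, t ≠ p ^ (l + 1)) {I : Type*} [Fintype I] [DecidableEq I]
    (x : I → K) (hx : ∀ a, x a ≠ 0)
    (hxx : ∀ a a', a ≠ a' → ∀ l m : ℤ, x a ≠ x a' * t ^ l * p ^ m) : PA p t x := by
  apply PA_equiv (Fintype.equivFin I).symm
  apply PA_fin hp hpp ht htp
  · intro a; exact hx _
  · intro a a' hne
    exact hxx _ _ (fun h => hne ((Fintype.equivFin I).symm.injective h))

theorem idn_gen {p t : K} (hp : p ≠ 0) (hpp : ∀ m : ℕ, 0 < m → p ^ m ≠ 1) (ht : t ≠ 0)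
    (htp : ∀ l : ℕ, t ≠ p ^ (l + 1)) {I J : Type*} [Fintype I] [DecidableEq I]
    [Fintype J] [DecidableEq J] (x : I → K) (y : J → K) (h : Gen p t x y) (hnv : NV p x y)
    (n : ℕ) : idn p t x y n = 0 :=
  idn_of_PA hp hpp (fun x => PA_all hp hpp ht htp x) (fun x => PA_all hp hpp ht htp x) n x y h hnv

end Pool.Agent.Run7.h657
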