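import Mathlib

/-! q-Pochhammer products and the normalised summand of the Kajihara-Noumi type series. -/

namespace Pool.Agent.Run7.h657

open Finset

variable {K : Type*} [Field K]

/-- `(x;p)_n` -/
def poch (p x : K) (n : ℕ) : K := ∏ j ∈ range n, (1 - x * p ^ j)

@[simp] lemma poch_zero (p x : K) : poch p x 0 = 1 := by simp [poch]

lemma poch_succ (p x : K) (n : ℕ) : poch p x (n + 1) = poch p x n * (1 - x * p ^ n) := by
  simp [poch, prod_range_succ]

lemma poch_add (p x : K) (m n : ℕ) : poch p x (m + n) = poch p x m * poch p (x * p ^ m) n := by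
  simp only [poch, prod_range_add]
  congr 1
  apply prod_congr rfl
  intro j _
  ring

lemma poch_ne_zero {p x : K} {n : ℕ} (h : ∀ j < n, x * p ^ j ≠ 1) : poch p x n ≠ 0 := by
  simp only [poch, ne_eq, prod_eq_zero_iff, mem_range, not_exists, not_and]
  intro j hj hh
  exact h j hj (by linear_combination -hh)

lemma poch_eq_zero {p x : K} {n j : ℕ} (hj : j < n) (h : x * p ^ j = 1) : poch p x n = 0 := by
  simp only [poch, prod_eq_zero_iff, mem_range]
  exact ⟨j, hj, by rw [h]; ring⟩

/-- the quotient `(t u; p)_m / (p u; p)_m` -/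
def ph (p t u : K) (m : ℕ) : K := poch p (t * u) m / poch p (p * u) m

@[simp] lemma ph_zero (p t u : K) : ph p t u 0 = 1 := by simp [ph]

lemma ph_add (p t u : K) (m n : ℕ) : ph p t u (m + n) = ph p t u m * ph p t (u * p ^ m) n := by
  unfold ph
  rw [poch_add, poch_add, mul_div_mul_comm, mul_assoc, mul_assoc]

lemma ph_comm (p t u : K) (m n : ℕ) :
    ph p t u m * ph p t (u * p ^ m) n = ph p t u n * ph p t (u * p ^ n) m := by
  rw [← ph_add, ← ph_add, add_comm]

variable {I J : Type*} [Fintype I] [Fintype J]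

/-- the part of the summand depending only on `x` -/
def wt (p t : K) (x : I → K) (d : I → ℕ) : K :=
  ∏ a, ∏ a', ph p t ((x a * p ^ d a) / (x a' * p ^ d a')) (d a')

/-- the cross part -/
def cr (p t : K) (x : I → K) (y : J → K) (d : I → ℕ) : K :=
  ∏ a, ∏ b, ph p t (x a * y b) (d a)

/-- the summand -/
def trm (p t : K) (x : I → K) (y : J → K) (d : I → ℕ) : K := wt p t x d * cr p t x y d

/-- coefficient of the series -/
def cf [DecidableEq I] (p t : K) (x : I → K) (y : J → K) (n : ℕ) : K :=
  ∑ d ∈ piAntidiag univ n, trm p t x y d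

/-- the series -/
noncomputable def ser [DecidableEq I] (p t : K) (x : I → K) (y : J → K) : PowerSeries K :=
  PowerSeries.mk fun n => cf p t x y n

/-- the `q`-binomial series in `c X` -/
noncomputable def rser (p t c : K) : PowerSeries K :=
  PowerSeries.mk fun n => ph p t 1 n * c ^ n

/-- the product of `k` of them -/
noncomputable def gser (p t : K) (k : ℕ) : PowerSeries K := ∏ j ∈ range k, rser p t ((t / p) ^ j)

lemma wt_smul (p t : K) (x : I → K) (l : K) (hl : l ≠ 0) (d : I → ℕ) :
    wt p t (fun a => l * x a) d = wt p t x d := by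
  unfold wt
  apply prod_congr rfl; intro a _
  apply prod_congr rfl; intro a' _
  congr 1
  rw [show l * x a * p ^ d a = l * (x a * p ^ d a) by ring,
      show l * x a' * p ^ d a' = l * (x a' * p ^ d a') by ring, mul_div_mul_left _ _ hl]

/-- cleared cross part -/
def cc (p t : K) (n : ℕ) (x : I → K) (y : J → K) (d : I → ℕ) : K :=
  ∏ a, ∏ b, (poch p (t * (x a * y b)) (d a) * ∏ l ∈ Ico (d a) n, (1 - p * (x a * y b) * p ^ l))

lemma poch_split (p u : K) {m n : ℕ} (h : m ≤ n) :
    poch p u n = poch p u m * ∏ l ∈ Ico m n, (1 - u * p ^ l) := by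
  unfold poch
  rw [← prod_range_mul_prod_Ico _ h]

lemma clr (p t u : K) {m n : ℕ} (h : m ≤ n) (hn : poch p (p * u) n ≠ 0) :
    poch p (t * u) m * ∏ l ∈ Ico m n, (1 - p * u * p ^ l) = ph p t u m * poch p (p * u) n := by
  have h1 := poch_split p (p * u) h
  have h2 : poch p (p * u) m ≠ 0 := by
    intro h3; rw [h3, zero_mul] at h1; exact hn h1
  rw [h1, ph, div_mul_eq_mul_div, eq_div_iff h2]
  ring

/-- regular cleared cross part -/
lemma cc_eq (p t : K) (n : ℕ) (x : I → K) (y : J → K) (d : I → ℕ) (hd : ∀ a, d a ≤ n)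
    (hn : ∀ a b, poch p (p * (x a * y b)) n ≠ 0) :
    cc p t n x y d = cr p t x y d * ∏ a, ∏ b, poch p (p * (x a * y b)) n := by
  unfold cc cr
  rw [← prod_mul_distrib]
  apply prod_congr rfl; intro a _
  rw [← prod_mul_distrib]
  apply prod_congr rfl; intro b _
  exact clr p t _ (hd a) (hn a b)

variable [DecidableEq I] [DecidableEq J]

/-- the constant of the residue -/
def Cc (p t : K) (n j : ℕ) (x : I → K) (y : J → K) (a0 : I) (b0 : J) : K :=
  poch p (t * (x a0 * y b0)) j * ph p t 1 j * poch p p (n - j) *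
    ((∏ a ∈ univ.erase a0, ∏ b ∈ univ.erase b0, poch p (p * (x a * y b)) n) *
    (∏ a ∈ univ.erase a0, poch p (p * (x a * y b0)) n) *
    (∏ b ∈ univ.erase b0, poch p (p * (x a0 * y b)) n)) *
    ((∏ a ∈ univ.erase a0, ph p t (x a * y b0) j) * (∏ b ∈ univ.erase b0, ph p t (x a0 * y b) j))

lemma Cc_symm (p t : K) (n j : ℕ) (x : I → K) (y : J → K) (a0 : I) (b0 : J) :
    Cc p t n j x y a0 b0 = Cc p t n j y x b0 a0 := by
  unfold Cc
  rw [prod_comm (s := univ.erase b0) (t := univ.erase a0)]
  simp only [mul_comm (y _) (x _)]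
  ring

/-- raise the entry `a0` by `j` -/
def sh (d : I → ℕ) (a0 : I) (j : ℕ) : I → ℕ := fun a => d a + if a = a0 then j else 0

lemma sh_self (d : I → ℕ) (a0 : I) (j : ℕ) : sh d a0 j a0 = d a0 + j := by simp [sh]

lemma sh_ne (d : I → ℕ) {a0 a : I} (h : a ≠ a0) (j : ℕ) : sh d a0 j a = d a := by simp [sh, h]

lemma wt_tilde (p t : K) (hp : p ≠ 0) (x : I → K) (hx : ∀ a, x a ≠ 0) (y0 : K) (a0 : I) (j : ℕ)
    (h0 : x a0 * y0 * p ^ j = 1) (d : I → ℕ) :
    wt p t x (sh d a0 j) = wt p t (Function.update x a0 (x a0 * p ^ j)) d *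
      ∏ a, ph p t (x a * p ^ (sh d a0 j a) * y0) j := by
  have hX : ∀ a, Function.update x a0 (x a0 * p ^ j) a * p ^ d a =
      x a * p ^ (sh d a0 j a) := by
    intro a
    by_cases ha : a = a0
    · subst ha; rw [sh_self, Function.update_self, pow_add]; ring
    · rw [sh_ne d ha, Function.update_of_ne ha]
  unfold wt
  rw [← prod_mul_distrib]
  apply prod_congr rfl; intro a _
  simp only [hX]
  rw [← mul_prod_erase univ _ (mem_univ a0), ← mul_prod_erase univ _ (mem_univ a0),
    mul_right_comm]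
  congr 1
  · rw [sh_self, ph_add]
    congr 2
    have hne : x a0 ≠ 0 := hx a0
    have : y0 = 1 / (x a0 * p ^ j) := by
      rw [eq_div_iff (mul_ne_zero hne (pow_ne_zero _ hp))]
      linear_combination h0
    rw [this, pow_add]
    field_simp
  · apply prod_congr rfl; intro a' ha'
    have : a' ≠ a0 := ne_of_mem_erase ha'
    rw [sh_ne d this]

/-- the residue lemma -/
lemma residue (p t : K) (hp : p ≠ 0) (n : ℕ) (x : I → K) (y : J → K) (hx : ∀ a, x a ≠ 0)
    (a0 : I) (b0 : J) (j : ℕ)
    (h0 : x a0 * y b0 * p ^ j = 1) (d : I → ℕ) (hd : ∀ a, sh d a0 j a ≤ n)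
    (hpp : ∀ m, poch p p m ≠ 0)
    (hn : ∀ a b, (a, b) ≠ (a0, b0) → poch p (p * (x a * y b)) n ≠ 0) :
    wt p t x (sh d a0 j) * cc p t n x y (sh d a0 j) =
      Cc p t n j x y a0 b0 * trm p t (Function.update x a0 (x a0 * p ^ j))
        (Function.update y b0 (y b0 * p ^ j)) d := by
  rw [wt_tilde p t hp x hx (y b0) a0 j h0 d]
  have hd0 : d a0 + j ≤ n := by have := hd a0; rwa [sh_self] at this
  -- the special pair
  have hs : (∏ l ∈ Ico (d a0 + j) n, (1 - p * (x a0 * y b0) * p ^ l)) * poch p p (d a0) =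
      poch p p (n - j) := by
    rw [poch_split p p (show d a0 ≤ n - j by omega), mul_comm]
    congr 1
    rw [Finset.prod_Ico_eq_prod_range, Finset.prod_Ico_eq_prod_range]
    rw [show n - (d a0 + j) = n - j - d a0 by omega]
    apply prod_congr rfl
    intro l _
    have : p ^ (d a0 + j + l) = p ^ j * p ^ (d a0 + l) := by rw [← pow_add]; congr 1; omega
    rw [this]
    linear_combination (-p * p ^ (d a0 + l)) * h0
  -- decompose cc
  have hcc : cc p t n x y (sh d a0 j) =
      (poch p (t * (x a0 * y b0)) (d a0 + j) *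
        ∏ l ∈ Ico (d a0 + j) n, (1 - p * (x a0 * y b0) * p ^ l)) *
      (∏ b ∈ univ.erase b0, (ph p t (x a0 * y b) (d a0 + j) * poch p (p * (x a0 * y b)) n)) *
      ((∏ a ∈ univ.erase a0, (ph p t (x a * y b0) (d a) * poch p (p * (x a * y b0)) n)) *
      (∏ a ∈ univ.erase a0, ∏ b ∈ univ.erase b0,
        (ph p t (x a * y b) (d a) * poch p (p * (x a * y b)) n))) := by
    unfold cc
    rw [← mul_prod_erase univ _ (mem_univ a0), ← mul_prod_erase univ _ (mem_univ b0),
      ← prod_mul_distrib]
    congr 1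
    · rw [sh_self]
      congr 1
      apply prod_congr rfl; intro b hb
      exact clr p t _ hd0 (hn a0 b (by
        intro h; exact ne_of_mem_erase hb (by simpa using h)))
    · apply prod_congr rfl; intro a ha
      have hne := ne_of_mem_erase ha
      have hda : d a ≤ n := by have := hd a; rwa [sh_ne d hne] at this
      rw [← mul_prod_erase univ _ (mem_univ b0), sh_ne d hne]
      congr 1
      · exact clr p t _ hda (hn a b0 (by intro h; exact hne (by simpa using h)))
      · apply prod_congr rfl; intro b hb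
        exact clr p t _ hda (hn a b (by
          intro h; exact hne (congrArg Prod.fst h)))
  have hcr : cr p t (Function.update x a0 (x a0 * p ^ j)) (Function.update y b0 (y b0 * p ^ j)) d =
      ph p t (p ^ j) (d a0) *
      (∏ b ∈ univ.erase b0, ph p t (x a0 * y b * p ^ j) (d a0)) *
      ((∏ a ∈ univ.erase a0, ph p t (x a * y b0 * p ^ j) (d a)) *
      (∏ a ∈ univ.erase a0, ∏ b ∈ univ.erase b0, ph p t (x a * y b) (d a))) := by
    unfold cr
    rw [← mul_prod_erase univ _ (mem_univ a0), ← mul_prod_erase univ _ (mem_univ b0),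
      ← prod_mul_distrib]
    congr 1
    · congr 1
      · congr 1
        simp only [Function.update_self]
        linear_combination (p ^ j) * h0
      · apply prod_congr rfl; intro b hb
        rw [Function.update_self, Function.update_of_ne (ne_of_mem_erase hb)]
        congr 1; ring
    · apply prod_congr rfl; intro a ha
      rw [← mul_prod_erase univ _ (mem_univ b0), Function.update_of_ne (ne_of_mem_erase ha)]
      congr 1
      · rw [Function.update_self]; congr 1; ring
      · apply prod_congr rfl; intro b hb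
        rw [Function.update_of_ne (ne_of_mem_erase hb)]
  have hprod : ∏ a, ph p t (x a * p ^ (sh d a0 j a) * y b0) j =
      ph p t (p ^ d a0) j * ∏ a ∈ univ.erase a0, ph p t (x a * y b0 * p ^ d a) j := by
    rw [← mul_prod_erase univ _ (mem_univ a0)]
    congr 1
    · congr 1
      rw [sh_self, pow_add]
      linear_combination (p ^ d a0) * h0
    · apply prod_congr rfl; intro a ha
      rw [sh_ne d (ne_of_mem_erase ha)]
      congr 1; ring
  have hA : (∏ a ∈ univ.erase a0, ph p t (x a * y b0) (d a)) *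
      (∏ a ∈ univ.erase a0, ph p t (x a * y b0 * p ^ d a) j) =
      (∏ a ∈ univ.erase a0, ph p t (x a * y b0) j) *
      (∏ a ∈ univ.erase a0, ph p t (x a * y b0 * p ^ j) (d a)) := by
    rw [← prod_mul_distrib, ← prod_mul_distrib]
    exact prod_congr rfl fun a _ => ph_comm _ _ _ _ _
  have hB : (∏ b ∈ univ.erase b0, ph p t (x a0 * y b) (d a0 + j)) =
      (∏ b ∈ univ.erase b0, ph p t (x a0 * y b) j) *
      (∏ b ∈ univ.erase b0, ph p t (x a0 * y b * p ^ j) (d a0)) := by
    rw [← prod_mul_distrib]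
    refine prod_congr rfl fun b _ => ?_
    rw [add_comm, ph_add]
  have hC : poch p (t * (x a0 * y b0)) (d a0 + j) =
      poch p (t * (x a0 * y b0)) j * poch p t (d a0) := by
    rw [add_comm, poch_add]
    congr 2
    linear_combination t * h0
  have hD : poch p t (d a0) * (∏ l ∈ Ico (d a0 + j) n, (1 - p * (x a0 * y b0) * p ^ l)) *
      ph p t (p ^ d a0) j = ph p t 1 j * ph p t (p ^ j) (d a0) * poch p p (n - j) := by
    have h1 := ph_comm p t 1 (d a0) j
    simp only [one_mul] at h1
    rw [← h1, ← hs, show ph p t 1 (d a0) = poch p t (d a0) / poch p p (d a0) by simp [ph]]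
    have := hpp (d a0)
    field_simp
  rw [hcc, hprod]
  unfold trm
  rw [hcr]
  unfold Cc
  simp only [prod_mul_distrib]
  rw [hB, hC]
  set A1 := ∏ a ∈ univ.erase a0, ph p t (x a * y b0) (d a)
  set A2 := ∏ a ∈ univ.erase a0, ph p t (x a * y b0 * p ^ d a) j
  set A3 := ∏ a ∈ univ.erase a0, ph p t (x a * y b0) j
  set A4 := ∏ a ∈ univ.erase a0, ph p t (x a * y b0 * p ^ j) (d a)
  set L := ∏ l ∈ Ico (d a0 + j) n, (1 - p * (x a0 * y b0) * p ^ l)
  set W := wt p t (Function.update x a0 (x a0 * p ^ j)) d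
  linear_combination (W * poch p (t * (x a0 * y b0)) j *
    (∏ b ∈ univ.erase b0, ph p t (x a0 * y b) j) *
    (∏ b ∈ univ.erase b0, ph p t (x a0 * y b * p ^ j) (d a0)) *
    (∏ b ∈ univ.erase b0, poch p (p * (x a0 * y b)) n) *
    (∏ a ∈ univ.erase a0, poch p (p * (x a * y b0)) n) *
    (∏ a ∈ univ.erase a0, ∏ b ∈ univ.erase b0, ph p t (x a * y b) (d a)) *
    (∏ a ∈ univ.erase a0, ∏ b ∈ univ.erase b0, poch p (p * (x a * y b)) n)) *
    (A1 * A2 * hD + ph p t 1 j * ph p t (p ^ j) (d a0) * poch p p (n - j) * hA)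

end Pool.Agent.Run7.h657
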