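import Pool.Agent.Run7.h657.Fin

/-! The q-binomial identity and the passage between the two normalisations. -/

set_option linter.unusedSectionVars false

namespace Pool.Agent.Run7.h657

open Finset

variable {K : Type*} [Field K]

/-- Euler series -/
noncomputable def phi (q : K) : PowerSeries K := PowerSeries.mk fun n =>
  (-1) ^ n * q ^ (n * (n - 1) / 2) / ∏ j ∈ range n, (1 - q ^ (j + 1))

lemma coeff_one_sub_mul (a : K) (F : PowerSeries K) (n : ℕ) :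
    PowerSeries.coeff (n + 1) ((1 - PowerSeries.C a * PowerSeries.X) * F) =
      PowerSeries.coeff (n + 1) F - a * PowerSeries.coeff n F := by
  rw [sub_mul, one_mul, map_sub, mul_assoc, PowerSeries.coeff_C_mul, PowerSeries.coeff_succ_X_mul]

lemma constantCoeff_one_sub_mul (a : K) (F : PowerSeries K) :
    PowerSeries.coeff 0 ((1 - PowerSeries.C a * PowerSeries.X) * F) = PowerSeries.coeff 0 F := by
  rw [sub_mul, one_mul, map_sub, mul_assoc, PowerSeries.coeff_C_mul, PowerSeries.coeff_zero_X_mul,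
    mul_zero, sub_zero]

/-- uniqueness -/
lemma unique_fe {q a : K} (hq : ∀ m : ℕ, 0 < m → q ^ m ≠ 1) {F G : PowerSeries K}
    (hF : F = (1 - PowerSeries.C a * PowerSeries.X) * PowerSeries.rescale q F)
    (hG : G = (1 - PowerSeries.C a * PowerSeries.X) * PowerSeries.rescale q G)
    (h0 : PowerSeries.coeff 0 F = PowerSeries.coeff 0 G) : F = G := by
  ext n
  induction n with
  | zero => exact h0
  | succ n ih =>
    have h1 := congrArg (PowerSeries.coeff (n + 1)) hF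
    have h2 := congrArg (PowerSeries.coeff (n + 1)) hG
    rw [coeff_one_sub_mul, PowerSeries.coeff_rescale, PowerSeries.coeff_rescale] at h1 h2
    have h3 : (1 - q ^ (n + 1)) ≠ 0 := sub_ne_zero.2 (hq (n + 1) (by omega)).symm
    apply mul_left_cancel₀ h3
    rw [ih] at h1
    linear_combination h1 - h2

lemma phi_fe {q : K} (hq : ∀ m : ℕ, 0 < m → q ^ m ≠ 1) :
    phi q = (1 - PowerSeries.C 1 * PowerSeries.X) * PowerSeries.rescale q (phi q) := by
  ext n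
  rcases n with _ | n
  · rw [constantCoeff_one_sub_mul, PowerSeries.coeff_rescale]
    simp
  · rw [coeff_one_sub_mul, PowerSeries.coeff_rescale, PowerSeries.coeff_rescale]
    unfold phi
    rw [PowerSeries.coeff_mk, PowerSeries.coeff_mk, prod_range_succ]
    have h3 : (1 - q ^ (n + 1)) ≠ 0 := sub_ne_zero.2 (hq (n + 1) (by omega)).symm
    have h4 : ∏ j ∈ range n, (1 - q ^ (j + 1)) ≠ 0 :=
      prod_ne_zero_iff.2 fun j _ => sub_ne_zero.2 (hq (j + 1) (by omega)).symm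
    have h5 : (n + 1) * (n + 1 - 1) / 2 = n * (n - 1) / 2 + n := by
      rw [Nat.add_sub_cancel]
      have : (n + 1) * n = n * (n - 1) + n * 2 := by
        rcases n with _ | n
        · rfl
        · rw [Nat.add_sub_cancel]; ring
      rw [this, Nat.add_mul_div_right _ _ (by norm_num)]
    rw [h5, pow_add q (n * (n - 1) / 2) n]
    field_simp
    ring

/-- the ratio of consecutive coefficients -/
lemma psi_step {q hb : K} (hq0 : q ≠ 0) (hh0 : hb ≠ 0) (hq : ∀ m : ℕ, 0 < m → q ^ m ≠ 1) (n : ℕ) :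
    (1 - q ^ (n + 1)) * (ph q⁻¹ hb⁻¹ 1 (n + 1) * (q⁻¹ / hb⁻¹) ^ (n + 1)) =
      (1 - hb * q ^ n) * (ph q⁻¹ hb⁻¹ 1 n * (q⁻¹ / hb⁻¹) ^ n) := by
  unfold ph
  rw [poch_succ, poch_succ]
  have h3 : (1 - q ^ (n + 1)) ≠ 0 := sub_ne_zero.2 (hq (n + 1) (by omega)).symm
  have h5 : poch q⁻¹ (q⁻¹ * 1) n ≠ 0 := by
    apply poch_ne_zero
    intro j _ hh
    apply hq (j + 1) (by omega)
    rw [mul_one, inv_pow, ← mul_inv, ← pow_succ'] at hh
    exact inv_eq_one.1 hh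
  have h6 : 1 - q⁻¹ * 1 * q⁻¹ ^ n ≠ 0 := by
    intro hh
    apply hq (n + 1) (by omega)
    rw [mul_one, inv_pow, ← mul_inv, ← pow_succ', sub_eq_zero] at hh
    exact inv_eq_one.1 hh.symm
  have h7 := pow_ne_zero n hq0
  have e1 : (1 - hb⁻¹ * 1 * q⁻¹ ^ n) * (q⁻¹ / hb⁻¹) * (1 - q ^ (n + 1)) =
      (1 - hb * q ^ n) * (1 - q⁻¹ * 1 * q⁻¹ ^ n) := by
    rw [inv_pow, pow_succ]
    field_simp
    ring
  rw [pow_succ (q⁻¹ / hb⁻¹) n]
  have e2 : (1 - q ^ (n + 1)) * (poch q⁻¹ (hb⁻¹ * 1) n * (1 - hb⁻¹ * 1 * q⁻¹ ^ n) /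
      (poch q⁻¹ (q⁻¹ * 1) n * (1 - q⁻¹ * 1 * q⁻¹ ^ n)) * ((q⁻¹ / hb⁻¹) ^ n * (q⁻¹ / hb⁻¹))) =
      poch q⁻¹ (hb⁻¹ * 1) n / poch q⁻¹ (q⁻¹ * 1) n * (q⁻¹ / hb⁻¹) ^ n *
      (((1 - hb⁻¹ * 1 * q⁻¹ ^ n) * (q⁻¹ / hb⁻¹) * (1 - q ^ (n + 1))) /
        (1 - q⁻¹ * 1 * q⁻¹ ^ n)) := by
    rw [div_mul_eq_mul_div, div_mul_eq_mul_div, div_mul_div_comm, mul_div_assoc']
    congr 1
    ring
  rw [e2, e1, mul_div_cancel_right₀ _ h6]
  ring

lemma psi_fe {q hb : K} (hq0 : q ≠ 0) (hh0 : hb ≠ 0) (hq : ∀ m : ℕ, 0 < m → q ^ m ≠ 1) :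
    (1 - PowerSeries.C 1 * PowerSeries.X) *
      PowerSeries.rescale (q⁻¹ / hb⁻¹) (rser q⁻¹ hb⁻¹ 1) =
    (1 - PowerSeries.C hb * PowerSeries.X) *
      PowerSeries.rescale q (PowerSeries.rescale (q⁻¹ / hb⁻¹) (rser q⁻¹ hb⁻¹ 1)) := by
  ext n
  rcases n with _ | n
  · rw [constantCoeff_one_sub_mul, constantCoeff_one_sub_mul]
    simp only [PowerSeries.coeff_rescale, pow_zero, one_mul]
  · rw [coeff_one_sub_mul, coeff_one_sub_mul]
    simp only [PowerSeries.coeff_rescale, rser, PowerSeries.coeff_mk, one_pow, mul_one]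
    have := psi_step hq0 hh0 hq n
    linear_combination this

/-- the q-binomial theorem -/
theorem qbinomial {q hb : K} (hq0 : q ≠ 0) (hh0 : hb ≠ 0) (hq : ∀ m : ℕ, 0 < m → q ^ m ≠ 1) :
    PowerSeries.rescale (q⁻¹ / hb⁻¹) (rser q⁻¹ hb⁻¹ 1) * phi q =
      PowerSeries.rescale hb (phi q) := by
  apply unique_fe (a := hb) hq
  · conv_lhs => rw [phi_fe hq]
    rw [map_mul]
    linear_combination (PowerSeries.rescale q (phi q)) * psi_fe hq0 hh0 hq
  · conv_lhs => rw [phi_fe hq]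
    rw [map_mul, map_sub, map_mul, map_one]
    congr 1
    · congr 1
      ext n
      rcases n with _ | _ | n
      · simp
      · simp [PowerSeries.coeff_X]
      · simp [PowerSeries.coeff_X, PowerSeries.coeff_rescale]
    · ext n
      simp only [PowerSeries.coeff_rescale]
      ring
  · rw [PowerSeries.coeff_mul]
    simp [rser, phi]

lemma ev_rescale {I : Type*} [Fintype I] [DecidableEq I] (F : PowerSeries K) (s : K)
    {β : I →₀ ℕ} (hβ : β ≠ 0) (u : K) :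
    ev (PowerSeries.rescale s F) β u = ev F β (s * u) := by
  ext d
  by_cases hd : ∃ m : ℕ, d = m • β
  · obtain ⟨m, rfl⟩ := hd
    rw [coeff_ev_smul _ hβ, coeff_ev_smul _ hβ, PowerSeries.coeff_rescale, mul_pow]
    ring
  · push Not at hd
    rw [coeff_ev_not _ hβ _ _ hd, coeff_ev_not _ hβ _ _ hd]

/-- one factor -/
lemma ev_factor {I : Type*} [Fintype I] [DecidableEq I] {q hb : K} (hq0 : q ≠ 0) (hh0 : hb ≠ 0)
    (hq : ∀ m : ℕ, 0 < m → q ^ m ≠ 1) {β : I →₀ ℕ} (hβ : β ≠ 0) (u : K) :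
    ev (rser q⁻¹ hb⁻¹ 1) β ((q⁻¹ / hb⁻¹) * u) * ev (phi q) β u = ev (phi q) β (hb * u) := by
  rw [← ev_rescale _ _ hβ, ← ev_rescale _ _ hβ, ← ev_mul _ _ hβ, qbinomial hq0 hh0 hq]

end Pool.Agent.Run7.h657
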