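import Mathlib

/-! Filtrations of Hahn series by the exponents. -/

set_option linter.unusedSectionVars false

namespace Pool.Agent.Run7.h657.Res

open Finset

section Abs

variable {Γ K : Type*} [AddCommGroup Γ] [LinearOrder Γ] [IsOrderedAddMonoid Γ] [Field K]

/-- all exponents of `f` have value at least `M` -/
def Fil (φ : Γ →+ ℤ) (M : ℤ) (f : HahnSeries Γ K) : Prop := ∀ γ, f.coeff γ ≠ 0 → M ≤ φ γ

variable {φ : Γ →+ ℤ} {M N : ℤ} {f g : HahnSeries Γ K}

lemma Fil.mono (h : Fil φ M f) (hMN : N ≤ M) : Fil φ N f := fun γ hγ => hMN.trans (h γ hγ)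

lemma Fil.zero (φ : Γ →+ ℤ) (M : ℤ) : Fil φ M (0 : HahnSeries Γ K) := fun _ hγ => absurd rfl hγ

lemma Fil.add (hf : Fil φ M f) (hg : Fil φ M g) : Fil φ M (f + g) := by
  intro γ hγ
  by_cases h : f.coeff γ = 0
  · apply hg
    intro h'
    apply hγ
    simp [h, h']
  · exact hf γ h

lemma Fil.neg (hf : Fil φ M f) : Fil φ M (-f) := by
  intro γ hγ
  apply hf
  intro h'
  apply hγ
  simp [h']

lemma Fil.sub (hf : Fil φ M f) (hg : Fil φ M g) : Fil φ M (f - g) := by
  rw [sub_eq_add_neg]; exact hf.add hg.neg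

lemma Fil.sum {α : Type*} (s : Finset α) (F : α → HahnSeries Γ K) (h : ∀ a ∈ s, Fil φ M (F a)) :
    Fil φ M (∑ a ∈ s, F a) := by
  classical
  induction s using Finset.induction_on with
  | empty => simpa using Fil.zero φ M
  | insert a s ha ih =>
    rw [sum_insert ha]
    exact (h a (mem_insert_self a s)).add (ih fun i hi => h i (mem_insert_of_mem hi))

lemma Fil.mul (hf : Fil φ M f) (hg : Fil φ N g) : Fil φ (M + N) (f * g) := by
  intro γ hγ
  have h1 : γ ∈ (f * g).support := hγ
  have h2 := HahnSeries.support_mul_subset h1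
  rw [Set.mem_add] at h2
  obtain ⟨a, ha, b, hb, rfl⟩ := h2
  rw [map_add]
  exact add_le_add (hf a ha) (hg b hb)

lemma Fil.single (φ : Γ →+ ℤ) (γ : Γ) (r : K) : Fil φ (φ γ) (HahnSeries.single γ r) := by
  intro δ hδ
  by_cases h : δ = γ
  · rw [h]
  · exact absurd (HahnSeries.coeff_single_of_ne h) hδ

lemma Fil.const (φ : Γ →+ ℤ) (r : K) : Fil φ 0 (HahnSeries.C r : HahnSeries Γ K) := by
  have := Fil.single φ (0 : Γ) r
  rwa [map_zero] at this

lemma Fil.one (φ : Γ →+ ℤ) : Fil φ 0 (1 : HahnSeries Γ K) := by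
  have := Fil.const (Γ := Γ) φ (1 : K)
  rwa [HahnSeries.C_one] at this

lemma Fil.mul0 (hf : Fil φ 0 f) (hg : Fil φ 0 g) : Fil φ 0 (f * g) := by
  simpa using hf.mul hg

lemma Fil.prod {α : Type*} (s : Finset α) (F : α → HahnSeries Γ K) (m : α → ℤ)
    (h : ∀ a ∈ s, Fil φ (m a) (F a)) : Fil φ (∑ a ∈ s, m a) (∏ a ∈ s, F a) := by
  classical
  induction s using Finset.induction_on with
  | empty => simpa using Fil.one φ
  | insert a s ha ih =>
    rw [sum_insert ha, prod_insert ha]
    exact (h a (mem_insert_self a s)).mul (ih fun i hi => h i (mem_insert_of_mem hi))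

lemma Fil.prod0 {α : Type*} (s : Finset α) (F : α → HahnSeries Γ K)
    (h : ∀ a ∈ s, Fil φ 0 (F a)) : Fil φ 0 (∏ a ∈ s, F a) := by
  have := Fil.prod s F (fun _ => 0) h
  simpa using this

lemma Fil.pow (hf : Fil φ M f) (n : ℕ) : Fil φ (n * M) (f ^ n) := by
  induction n with
  | zero => simpa using Fil.one φ
  | succ n ih =>
    rw [pow_succ]
    have := ih.mul hf
    refine this.mono ?_
    push_cast; linarith

lemma Fil.pow0 (hf : Fil φ 0 f) (n : ℕ) : Fil φ 0 (f ^ n) := by
  simpa using hf.pow n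

lemma Fil.inv (h0 : f ≠ 0) (hf : Fil φ (φ f.order) f) : Fil φ (-φ f.order) f⁻¹ := by
  by_contra hcon
  unfold Fil at hcon
  push Not at hcon
  set g := f⁻¹ with hg
  set S : Set Γ := {β | g.coeff β ≠ 0 ∧ φ β < -φ f.order} with hS
  have hne : S.Nonempty := by
    obtain ⟨γ, h1, h2⟩ := hcon
    exact ⟨γ, h1, h2⟩
  have hwf : S.IsWF := g.isWF_support.mono (fun β hβ => hβ.1)
  set β := hwf.min hne with hβ
  have hmem : β ∈ S := hwf.min_mem hne
  have hmin : ∀ γ ∈ S, ¬ γ < β := fun γ hγ => hwf.not_lt_min hne hγ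
  have h1 : (f * g).coeff (f.order + β) = f.coeff f.order * g.coeff β := by
    rw [HahnSeries.coeff_mul]
    rw [sum_eq_single (f.order, β)]
    · intro ij hij hne'
      exfalso
      apply hne'
      rw [Finset.mem_antidiagonal] at hij
      obtain ⟨ha, hb, hab⟩ := hij
      have hle : f.order ≤ ij.1 := HahnSeries.order_le_of_coeff_ne_zero ha
      rcases hle.eq_or_lt with heq | hlt
      · have : ij.2 = β := by
          rw [← heq] at hab
          exact add_left_cancel hab
        exact Prod.ext heq.symm this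
      · exfalso
        have hlt2 : ij.2 < β := by
          by_contra hge
          push Not at hge
          have := add_lt_add_of_lt_of_le hlt hge
          rw [hab] at this
          exact lt_irrefl _ this
        refine hmin ij.2 ⟨hb, ?_⟩ hlt2
        have h2 := congrArg φ hab
        rw [map_add, map_add] at h2
        have h3 := hf ij.1 ha
        have h4 := hmem.2
        omega
    · intro hnot
      rw [Finset.mem_antidiagonal] at hnot
      exfalso
      apply hnot
      refine ⟨?_, hmem.1, rfl⟩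
      show f.coeff f.order ≠ 0
      rw [Ne, HahnSeries.coeff_order_eq_zero]
      exact h0
  have h2 : f.coeff f.order * g.coeff β ≠ 0 := by
    apply mul_ne_zero
    · rw [Ne, HahnSeries.coeff_order_eq_zero]
      exact h0
    · exact hmem.1
  rw [hg, mul_inv_cancel₀ h0] at h1
  rw [← hg] at h1
  rw [← h1, HahnSeries.coeff_one] at h2
  have h3 : f.order + β = 0 := by
    by_contra h
    rw [if_neg h] at h2
    exact h2 rfl
  have h4 := congrArg φ h3
  rw [map_add, map_zero] at h4
  have h5 := hmem.2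
  omega

/-- the order of a series with known leading exponent -/
lemma order_eq_of (g0 : Γ) (h0 : f.coeff g0 ≠ 0) (h : ∀ γ, f.coeff γ ≠ 0 → g0 ≤ γ) :
    f ≠ 0 ∧ f.order = g0 := by
  have h1 : f ≠ 0 := HahnSeries.ne_zero_of_coeff_ne_zero h0
  refine ⟨h1, le_antisymm (HahnSeries.order_le_of_coeff_ne_zero h0) ?_⟩
  apply h
  rw [Ne, HahnSeries.coeff_order_eq_zero]
  exact h1

lemma Fil.inv' (g0 : Γ) (h0 : f.coeff g0 ≠ 0) (h : ∀ γ, f.coeff γ ≠ 0 → g0 ≤ γ)
    (hf : Fil φ (φ g0) f) : Fil φ (-φ g0) f⁻¹ := by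
  obtain ⟨h1, h2⟩ := order_eq_of g0 h0 h
  have := Fil.inv (φ := φ) (f := f) h1 (by rw [h2]; exact hf)
  rwa [h2] at this

/-- the inverse of an element of a `zero-graded` subfield -/
lemma Fil.inv_both (φ : Γ →+ ℤ) (hf : Fil φ 0 f) (hf' : Fil (-φ) 0 f) : Fil φ 0 f⁻¹ := by
  by_cases h0 : f = 0
  · rw [h0, inv_zero]; exact Fil.zero φ 0
  have h1 : f.coeff f.order ≠ 0 := by
    rw [Ne, HahnSeries.coeff_order_eq_zero]; exact h0
  have h2 : φ f.order = 0 := by
    have a := hf _ h1
    have b := hf' _ h1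
    simp only [AddMonoidHom.neg_apply] at b
    omega
  have := Fil.inv (φ := φ) h0 (by rw [h2]; exact hf)
  rwa [h2, neg_zero] at this

end Abs

end Pool.Agent.Run7.h657.Res
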