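import Pool.Agent.Run7.h657.RA

/-! The field of iterated Laurent series and the coefficient functional. -/

set_option linter.unusedSectionVars false

namespace Pool.Agent.Run7.h657.Res

open Finset

/-- exponents -/
abbrev Ex (ι : Type*) := Lex (ι →₀ ℤ)

/-- the field -/
abbrev HH (ι K : Type*) [Zero K] [LinearOrder ι] := HahnSeries (Ex ι) K

variable {ι K : Type*} [LinearOrder ι] [Field K]

/-- unit exponent -/
noncomputable def ee (p : ι) : Ex ι := toLex (Finsupp.single p 1)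

/-- a coordinate of the exponent -/
def ev (a : ι) : Ex ι →+ ℤ where
  toFun γ := (ofLex γ) a
  map_zero' := rfl
  map_add' _ _ := rfl

/-- total degree of the exponent -/
def dg : Ex ι →+ ℤ where
  toFun γ := (ofLex γ).sum fun _ n => n
  map_zero' := Finsupp.sum_zero_index
  map_add' _ _ := Finsupp.sum_add_index' (fun _ => rfl) (fun _ _ _ => rfl)

lemma ev_ee (a p : ι) : ev a (ee p) = if p = a then 1 else 0 := by
  show (Finsupp.single p (1 : ℤ)) a = _
  rw [Finsupp.single_apply]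

lemma dg_ee (p : ι) : dg (ee p) = 1 := by
  show (Finsupp.single p (1 : ℤ)).sum (fun _ n => n) = 1
  rw [Finsupp.sum_single_index]
  rfl

lemma ee_lt_aux {a b : ι} (h : a < b) : ee b < ee a := by
  rw [Finsupp.Lex.lt_iff]
  refine ⟨a, fun j hj => ?_, ?_⟩
  · show (Finsupp.single b (1 : ℤ)) j = (Finsupp.single a (1 : ℤ)) j
    rw [Finsupp.single_apply, Finsupp.single_apply, if_neg (hj.trans h).ne', if_neg hj.ne']
  · show (Finsupp.single b (1 : ℤ)) a < (Finsupp.single a (1 : ℤ)) a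
    rw [Finsupp.single_apply, Finsupp.single_apply, if_neg h.ne', if_pos rfl]
    omega

lemma ee_lt {a b : ι} : ee b < ee a ↔ a < b := by
  refine ⟨fun h => ?_, ee_lt_aux⟩
  rcases lt_trichotomy a b with h1 | h1 | h1
  · exact h1
  · rw [h1] at h; exact absurd h (lt_irrefl _)
  · exact absurd (h.trans (ee_lt_aux h1)) (lt_irrefl _)

lemma ee_inj {a b : ι} (h : ee a = ee b) : a = b := by
  have := congrArg (ev a) h
  rw [ev_ee, ev_ee, if_pos rfl] at this
  by_contra hne
  rw [if_neg (fun h => hne h.symm)] at this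
  omega

/-- the variables -/
noncomputable def u (p : ι) : HH ι K := HahnSeries.single (ee p) 1

lemma u_ne (p : ι) : (u p : HH ι K) ≠ 0 := HahnSeries.single_ne_zero one_ne_zero

lemma u_coeff (p : ι) (γ : Ex ι) : (u p : HH ι K).coeff γ = if γ = ee p then 1 else 0 := by
  unfold u
  rw [HahnSeries.coeff_single]
  congr

lemma u_injective : Function.Injective (u : ι → HH ι K) := by
  intro a b h
  have h1 := congrArg (fun f : HH ι K => f.coeff (ee a)) h
  simp only [u_coeff, if_true] at h1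
  by_contra hne
  rw [if_neg (fun h => hne (ee_inj h))] at h1
  exact one_ne_zero h1

/-- independence of a variable -/
def Fr (a : ι) (f : HH ι K) : Prop := Fil (ev a) 0 f ∧ Fil (-ev a) 0 f

/-- regularity in a variable -/
def Rg (a : ι) (f : HH ι K) : Prop := Fil (ev a) 0 f

lemma Fr.rg {a : ι} {f : HH ι K} (h : Fr a f) : Rg a f := h.1

lemma Fr.zero (a : ι) : Fr a (0 : HH ι K) := ⟨Fil.zero _ _, Fil.zero _ _⟩

lemma Fr.one (a : ι) : Fr a (1 : HH ι K) := ⟨Fil.one _, Fil.one _⟩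

lemma Fr.const (a : ι) (r : K) : Fr a (HahnSeries.C r : HH ι K) := ⟨Fil.const _ _, Fil.const _ _⟩

lemma Fr.add {a : ι} {f g : HH ι K} (hf : Fr a f) (hg : Fr a g) : Fr a (f + g) :=
  ⟨hf.1.add hg.1, hf.2.add hg.2⟩

lemma Fr.sub {a : ι} {f g : HH ι K} (hf : Fr a f) (hg : Fr a g) : Fr a (f - g) :=
  ⟨hf.1.sub hg.1, hf.2.sub hg.2⟩

lemma Fr.neg {a : ι} {f : HH ι K} (hf : Fr a f) : Fr a (-f) := ⟨hf.1.neg, hf.2.neg⟩

lemma Fr.mul {a : ι} {f g : HH ι K} (hf : Fr a f) (hg : Fr a g) : Fr a (f * g) :=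
  ⟨hf.1.mul0 hg.1, hf.2.mul0 hg.2⟩

lemma Fr.inv {a : ι} {f : HH ι K} (hf : Fr a f) : Fr a f⁻¹ := by
  refine ⟨Fil.inv_both _ hf.1 hf.2, Fil.inv_both _ hf.2 ?_⟩
  rw [neg_neg]; exact hf.1

lemma Fr.div {a : ι} {f g : HH ι K} (hf : Fr a f) (hg : Fr a g) : Fr a (f / g) := by
  rw [div_eq_mul_inv]; exact hf.mul hg.inv

lemma Fr.pow {a : ι} {f : HH ι K} (hf : Fr a f) (n : ℕ) : Fr a (f ^ n) :=
  ⟨hf.1.pow0 n, hf.2.pow0 n⟩

lemma Fr.zpow {a : ι} {f : HH ι K} (hf : Fr a f) (n : ℤ) : Fr a (f ^ n) := by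
  obtain ⟨m, rfl | rfl⟩ := Int.eq_nat_or_neg n
  · rw [zpow_natCast]; exact hf.pow m
  · rw [zpow_neg, zpow_natCast]; exact (hf.pow m).inv

lemma Fr.prod {a : ι} {α : Type*} (s : Finset α) (F : α → HH ι K) (h : ∀ b ∈ s, Fr a (F b)) :
    Fr a (∏ b ∈ s, F b) :=
  ⟨Fil.prod0 s F fun b hb => (h b hb).1, Fil.prod0 s F fun b hb => (h b hb).2⟩

lemma Fr.sum {a : ι} {α : Type*} (s : Finset α) (F : α → HH ι K) (h : ∀ b ∈ s, Fr a (F b)) :
    Fr a (∑ b ∈ s, F b) :=
  ⟨Fil.sum s F fun b hb => (h b hb).1, Fil.sum s F fun b hb => (h b hb).2⟩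

lemma Fr.u {a p : ι} (h : p ≠ a) : Fr a (u p : HH ι K) := by
  constructor
  · have := Fil.single (K := K) (ev a) (ee p) 1
    rwa [ev_ee, if_neg h] at this
  · have := Fil.single (K := K) (-ev a) (ee p) 1
    rwa [AddMonoidHom.neg_apply, ev_ee, if_neg h, neg_zero] at this

lemma Rg.u (a p : ι) : Rg a (u p : HH ι K) := by
  have := Fil.single (K := K) (ev a) (ee p) 1
  refine this.mono ?_
  rw [ev_ee]; split_ifs <;> omega

/-- the exponent with all entries `-1` on `R` -/
noncomputable def mo (R : Finset ι) : Ex ι := -∑ p ∈ R, ee p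

lemma mo_insert {a : ι} {R : Finset ι} (h : a ∉ R) : mo (insert a R) = mo R - ee a := by
  unfold mo
  rw [sum_insert h]
  abel

lemma ev_mo (a : ι) (R : Finset ι) : ev a (mo R) = if a ∈ R then -1 else 0 := by
  unfold mo
  rw [map_neg, map_sum]
  simp only [ev_ee]
  rw [sum_ite_eq' R a]
  split_ifs <;> simp

lemma dg_mo (R : Finset ι) : dg (mo R) = -(R.card : ℤ) := by
  unfold mo
  rw [map_neg, map_sum]
  simp [dg_ee]

/-- the coefficient functional -/
noncomputable def cf (R : Finset ι) (f : HH ι K) : K := f.coeff (mo R)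

lemma cf_add (R : Finset ι) (f g : HH ι K) : cf R (f + g) = cf R f + cf R g :=
  HahnSeries.coeff_add

lemma cf_sub (R : Finset ι) (f g : HH ι K) : cf R (f - g) = cf R f - cf R g :=
  HahnSeries.coeff_sub

lemma cf_zero (R : Finset ι) : cf R (0 : HH ι K) = 0 := rfl

lemma cf_sum (R : Finset ι) {α : Type*} (s : Finset α) (F : α → HH ι K) :
    cf R (∑ b ∈ s, F b) = ∑ b ∈ s, cf R (F b) := by
  classical
  induction s using Finset.induction_on with
  | empty => simp [cf_zero]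
  | insert a s ha ih => rw [sum_insert ha, sum_insert ha, cf_add, ih]

lemma cf_C (R : Finset ι) (r : K) (f : HH ι K) : cf R (HahnSeries.C r * f) = r * cf R f := by
  unfold cf
  rw [HahnSeries.C_mul_eq_smul, HahnSeries.coeff_smul, smul_eq_mul]

lemma cf_kill {R : Finset ι} {f : HH ι K} {φ : Ex ι →+ ℤ} {M : ℤ} (h : Fil φ M f)
    (hM : φ (mo R) < M) : cf R f = 0 := by
  by_contra hne
  have := h _ hne
  omega

lemma cf_rg {R : Finset ι} {f : HH ι K} {a : ι} (ha : a ∈ R) (h : Rg a f) : cf R f = 0 := by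
  apply cf_kill h
  rw [ev_mo, if_pos ha]
  omega

lemma cf_dg {R : Finset ι} {f : HH ι K} {M : ℤ} (h : Fil dg M f) (hM : -(R.card : ℤ) < M) :
    cf R f = 0 := by
  apply cf_kill h
  rw [dg_mo]
  exact hM

/-- positions below a letter -/
def Low (a : ι) (z : HH ι K) : Prop := z = 0 ∨ ∃ p, p < a ∧ z = u p

lemma Low.fr {a : ι} {z : HH ι K} (h : Low a z) : Fr a z := by
  rcases h with rfl | ⟨p, hp, rfl⟩
  · exact Fr.zero a
  · exact Fr.u hp.ne

lemma low_lead {a : ι} {z : HH ι K} (h : Low a z) :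
    (u a - z).coeff (ee a) ≠ 0 ∧ ∀ γ, (u a - z).coeff γ ≠ 0 → ee a ≤ γ := by
  rcases h with rfl | ⟨p, hp, rfl⟩
  · rw [sub_zero]
    refine ⟨by rw [u_coeff, if_pos rfl]; exact one_ne_zero, ?_⟩
    intro γ hγ
    rw [u_coeff] at hγ
    by_cases h : γ = ee a
    · rw [h]
    · rw [if_neg h] at hγ; exact absurd rfl hγ
  · constructor
    · rw [HahnSeries.coeff_sub, u_coeff, u_coeff, if_pos rfl, if_neg, sub_zero]
      · exact one_ne_zero
      · intro h; exact hp.ne (ee_inj h).symm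
    · intro γ hγ
      rw [HahnSeries.coeff_sub, u_coeff, u_coeff] at hγ
      by_cases h : γ = ee a
      · rw [h]
      · by_cases h' : γ = ee p
        · rw [h']; exact (ee_lt.2 hp).le
        · rw [if_neg h, if_neg h', sub_zero] at hγ; exact absurd rfl hγ

lemma low_ne {a : ι} {z : HH ι K} (h : Low a z) : (u a : HH ι K) - z ≠ 0 :=
  HahnSeries.ne_zero_of_coeff_ne_zero (low_lead h).1

lemma low_inv {a : ι} {z : HH ι K} (h : Low a z) : Fil (-ev a) 1 (u a - z)⁻¹ := by
  have h1 := low_lead h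
  have h2 : Fil (-ev a) ((-ev a) (ee a)) (u a - z) := by
    apply Fil.sub
    · exact Fil.single _ _ _
    · refine h.fr.2.mono ?_
      rw [AddMonoidHom.neg_apply, ev_ee, if_pos rfl]; omega
  have h3 := Fil.inv' (ee a) h1.1 h1.2 h2
  rwa [AddMonoidHom.neg_apply, ev_ee, if_pos rfl, neg_neg] at h3

lemma low_fr {a b : ι} {z : HH ι K} (hb : b ≠ a) (hz : Fr b z) :
    Fr b (u a - z)⁻¹ := ((Fr.u hb.symm).sub hz).inv

/-- regularity of the factors of the other type -/
lemma high_inv {a p : ι} (h : a < p) : Rg a ((u p : HH ι K) - u a)⁻¹ := by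
  have hL : Low p (u a : HH ι K) := Or.inr ⟨a, h, rfl⟩
  have h1 := low_lead hL
  have h2 : Fil (ev a) ((ev a) (ee p)) (u p - u a : HH ι K) := by
    rw [ev_ee, if_neg h.ne']
    exact (Rg.u a p).sub (Rg.u a a)
  have h3 := Fil.inv' (ee p) h1.1 h1.2 h2
  rwa [ev_ee, if_neg h.ne', neg_zero] at h3

lemma u_inv (a : ι) : (u a : HH ι K)⁻¹ = HahnSeries.single (-ee a) 1 := by
  apply inv_eq_of_mul_eq_one_left
  unfold u
  rw [HahnSeries.single_mul_single, neg_add_cancel, one_mul]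
  rfl

/-- removal of one letter -/
lemma peel {a : ι} {R : Finset ι} (ha : a ∉ R) {H z : HH ι K} (hH : Fr a H) (hz : Low a z) :
    cf (insert a R) (H * (u a - z)⁻¹) = cf R H := by
  have hu := u_ne (K := K) a
  have hne := low_ne hz
  have e1 : (u a - z)⁻¹ = (u a)⁻¹ + z * ((u a)⁻¹ * (u a - z)⁻¹) := by
    field_simp
    ring
  rw [e1, mul_add, cf_add]
  have e2 : cf (insert a R) (H * (z * ((u a)⁻¹ * (u a - z)⁻¹))) = 0 := by
    have h1 : Fil (-ev a) 1 (u a : HH ι K)⁻¹ := by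
      have := low_inv (K := K) (a := a) (z := 0) (Or.inl rfl)
      rwa [sub_zero] at this
    have h2 := hH.2.mul (hz.fr.2.mul (h1.mul (low_inv hz)))
    apply cf_kill h2
    rw [AddMonoidHom.neg_apply, ev_mo, if_pos (mem_insert_self a R)]
    omega
  rw [e2, add_zero, u_inv]
  unfold cf
  rw [HahnSeries.coeff_mul_single, mul_one, mo_insert ha]
  congr 1
  abel

/-- one-letter residues -/
def RES (a : ι) (g c : HH ι K) : Prop :=
  ∀ (H : HH ι K) (R : Finset ι), Fr a H → a ∉ R → cf (insert a R) (H * g) = cf R (H * c)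

lemma RES.add {a : ι} {g c g' c' : HH ι K} (h : RES a g c) (h' : RES a g' c') :
    RES a (g + g') (c + c') := by
  intro H R hH ha
  rw [mul_add, mul_add, cf_add, cf_add, h H R hH ha, h' H R hH ha]

lemma RES.zero (a : ι) : RES a (0 : HH ι K) 0 := by
  intro H R _ _
  rw [mul_zero, cf_zero, cf_zero]

lemma RES.sum {a : ι} {α : Type*} (s : Finset α) (g c : α → HH ι K)
    (h : ∀ b ∈ s, RES a (g b) (c b)) : RES a (∑ b ∈ s, g b) (∑ b ∈ s, c b) := by
  classical
  induction s using Finset.induction_on with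
  | empty => simpa using RES.zero a
  | insert b s hb ih =>
    rw [sum_insert hb, sum_insert hb]
    exact (h b (mem_insert_self b s)).add (ih fun i hi => h i (mem_insert_of_mem hi))

lemma RES.mul {a : ι} {g c f : HH ι K} (h : RES a g c) (hf : Fr a f) :
    RES a (f * g) (f * c) := by
  intro H R hH ha
  rw [← mul_assoc, ← mul_assoc]
  exact h (H * f) R (hH.mul hf) ha

lemma RES.rg {a : ι} {g : HH ι K} (h : Rg a g) : RES a g 0 := by
  intro H R hH _
  rw [mul_zero, cf_zero]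
  exact cf_rg (mem_insert_self a R) (hH.1.mul0 h)

lemma RES.pole {a : ι} {z : HH ι K} (hz : Low a z) : RES a (u a - z)⁻¹ 1 := by
  intro H R hH ha
  rw [peel ha hH hz, mul_one]

/-- several letters -/
lemma RES.multi (A : Finset ι) (g c : ι → HH ι K) (h : ∀ a ∈ A, RES a (g a) (c a))
    (hg : ∀ a ∈ A, ∀ b ∈ A, b ≠ a → Fr a (g b)) (hc : ∀ a ∈ A, ∀ b ∈ A, Fr a (c b))
    (H : HH ι K) (hH : ∀ a ∈ A, Fr a H) (R : Finset ι) (hR : Disjoint A R) :
    cf (A ∪ R) (H * ∏ a ∈ A, g a) = cf R (H * ∏ a ∈ A, c a) := by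
  classical
  induction A using Finset.induction_on generalizing H with
  | empty => simp
  | insert a A ha ih =>
    rw [disjoint_insert_left] at hR
    rw [prod_insert ha, prod_insert ha, insert_union]
    have h1 : H * (g a * ∏ b ∈ A, g b) = (H * ∏ b ∈ A, g b) * g a := by ring
    rw [h1, h a (mem_insert_self a A)]
    · have h2 : (H * ∏ b ∈ A, g b) * c a = (H * c a) * ∏ b ∈ A, g b := by ring
      rw [h2, ih (fun b hb => h b (mem_insert_of_mem hb))
        (fun b hb b' hb' => hg b (mem_insert_of_mem hb) b' (mem_insert_of_mem hb'))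
        (fun b hb b' hb' => hc b (mem_insert_of_mem hb) b' (mem_insert_of_mem hb'))
        (H * c a) (fun b hb => (hH b (mem_insert_of_mem hb)).mul
          (hc b (mem_insert_of_mem hb) a (mem_insert_self a A))) hR.2, mul_assoc]
    · apply (hH a (mem_insert_self a A)).mul
      apply Fr.prod
      intro b hb
      exact hg a (mem_insert_self a A) b (mem_insert_of_mem hb) (fun h => ha (h ▸ hb))
    · rw [mem_union, not_or]
      exact ⟨ha, hR.1⟩

/-- partial fractions -/
lemma pf {L Λ : Type*} [Field L] [DecidableEq Λ] (S : Finset Λ) (hS : S.Nonempty) (y : Λ → L)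
    (hy : Set.InjOn y S) (z : L) (hz : ∀ l ∈ S, z - y l ≠ 0) :
    (∏ l ∈ S, (z - y l))⁻¹ =
      ∑ l ∈ S, (∏ l' ∈ S.erase l, (y l - y l'))⁻¹ * (z - y l)⁻¹ := by
  have h1 := Lagrange.sum_basis hy hS
  have h2 := congrArg (Polynomial.eval z) h1
  rw [Polynomial.eval_finsetSum, Polynomial.eval_one] at h2
  have h3 : ∀ l ∈ S, (Lagrange.basis S y l).eval z =
      (∏ l' ∈ S, (z - y l')) * ((∏ l' ∈ S.erase l, (y l - y l'))⁻¹ * (z - y l)⁻¹) := by
    intro l hl
    unfold Lagrange.basis Lagrange.basisDivisor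
    rw [Polynomial.eval_prod]
    simp only [Polynomial.eval_mul, Polynomial.eval_C, Polynomial.eval_sub, Polynomial.eval_X]
    rw [prod_mul_distrib, prod_inv_distrib, ← mul_prod_erase S _ hl]
    have := hz l hl
    field_simp
  rw [sum_congr rfl h3, ← mul_sum] at h2
  rw [inv_eq_of_mul_eq_one_right h2]

end Pool.Agent.Run7.h657.Res
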