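import Pool.Agent.Run7.h657.RB

/-! Residues of one letter and of a set of letters with poles at given positions. -/

set_option linter.unusedSectionVars false

namespace Pool.Agent.Run7.h657.Res

open Finset

variable {ι K Λ : Type*} [LinearOrder ι] [Field K] [DecidableEq Λ]

/-- pole positions of a letter -/
structure Pos (a : ι) (I O : Finset Λ) (y : Λ → HH ι K) : Prop where
  low : ∀ l ∈ I, Low a (y l)
  high : ∀ l ∈ O, ∃ p, a < p ∧ y l = u p
  inj : Set.InjOn y (↑(I ∪ O))
  dis : Disjoint I O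

/-- pole factor -/
noncomputable def phi (I O : Finset Λ) (y : Λ → HH ι K) (z : HH ι K) : HH ι K :=
  (∏ l ∈ I, (z - y l))⁻¹ * (∏ l ∈ O, (y l - z))⁻¹

/-- residue at a pole -/
noncomputable def wI (I O : Finset Λ) (y : Λ → HH ι K) (l : Λ) : HH ι K :=
  (∏ l' ∈ I.erase l, (y l - y l'))⁻¹ * (∏ l' ∈ O, (y l' - y l))⁻¹

/-- minus the residue at a pole of the other type -/
noncomputable def wO (I O : Finset Λ) (y : Λ → HH ι K) (l : Λ) : HH ι K :=
  (∏ l' ∈ I, (y l - y l'))⁻¹ * (∏ l' ∈ O.erase l, (y l' - y l))⁻¹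

lemma prod_swap_sub {L : Type*} [Field L] (O : Finset Λ) (y : Λ → L) (z : L) :
    ∏ l ∈ O, (y l - z) = (-1) ^ O.card * ∏ l ∈ O, (z - y l) := by
  rw [← prod_const, ← prod_mul_distrib]
  apply prod_congr rfl
  intro l _
  ring

/-- partial fractions for the pole factor -/
lemma phi_pf {a : ι} {I O : Finset Λ} {y : Λ → HH ι K} (h : Pos a I O y)
    (hne : (I ∪ O).Nonempty) :
    phi I O y (u a) = ∑ l ∈ I, wI I O y l * (u a - y l)⁻¹ +
      ∑ l ∈ O, wO I O y l * (y l - u a)⁻¹ := by
  have hz : ∀ l ∈ I ∪ O, (u a : HH ι K) - y l ≠ 0 := by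
    intro l hl
    rw [mem_union] at hl
    rcases hl with hl | hl
    · exact low_ne (h.low l hl)
    · obtain ⟨p, hp, hp'⟩ := h.high l hl
      rw [hp']
      intro h0
      exact hp.ne (u_injective (sub_eq_zero.1 h0))
  have h1 := pf (I ∪ O) hne y h.inj (u a) hz
  have hs : ((-1 : HH ι K) ^ O.card)⁻¹ * ((-1 : HH ι K) ^ O.card)⁻¹ = 1 := by
    rw [← mul_inv, ← mul_pow]; simp
  have h2 : phi I O y (u a) = ((-1 : HH ι K) ^ O.card)⁻¹ * (∏ l ∈ I ∪ O, (u a - y l))⁻¹ := by
    unfold phi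
    rw [prod_union h.dis, prod_swap_sub O y (u a), mul_inv, mul_inv]
    ring
  rw [h2, h1, mul_sum, sum_union h.dis]
  congr 1
  · apply sum_congr rfl
    intro l hl
    have hlO : l ∉ O := fun h' => (disjoint_left.1 h.dis) hl h'
    have : (I ∪ O).erase l = I.erase l ∪ O := by
      rw [erase_union_distrib, erase_eq_of_notMem hlO]
    rw [this, prod_union (h.dis.mono_left (erase_subset _ _)), mul_inv]
    unfold wI
    rw [prod_swap_sub O y (y l), mul_inv]
    ring
  · apply sum_congr rfl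
    intro l hl
    have hlI : l ∉ I := fun h' => (disjoint_left.1 h.dis) h' hl
    have : (I ∪ O).erase l = I ∪ O.erase l := by
      rw [erase_union_distrib, erase_eq_of_notMem hlI]
    rw [this, prod_union (h.dis.mono_right (erase_subset _ _)), mul_inv]
    unfold wO
    rw [prod_swap_sub (O.erase l) y (y l), mul_inv, card_erase_of_mem hl]
    have hc : O.card = (O.card - 1) + 1 := by
      have := card_pos.2 ⟨l, hl⟩
      omega
    have e2 : (y l - u a)⁻¹ = -(u a - y l)⁻¹ := by
      have hn := hz l (mem_union_right _ hl)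
      have hn' : y l - u a ≠ 0 := fun h0 => hn (by rw [← neg_sub, h0, neg_zero])
      rw [eq_neg_iff_add_eq_zero]
      field_simp
      ring
    rw [e2]
    nth_rewrite 1 [hc]
    rw [pow_succ, mul_inv]
    have : ((-1 : HH ι K))⁻¹ = -1 := by norm_num
    rw [this]
    ring

lemma Pos.frI {a : ι} {I O : Finset Λ} {y : Λ → HH ι K} (h : Pos a I O y) {l : Λ} (hl : l ∈ I ∪ O) :
    Fr a (y l) := by
  rw [mem_union] at hl
  rcases hl with hl | hl
  · exact (h.low l hl).fr
  · obtain ⟨p, hp, hp'⟩ := h.high l hl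
    rw [hp']
    exact Fr.u hp.ne'

lemma fr_wI {b : ι} {I O : Finset Λ} {y : Λ → HH ι K} (hy : ∀ l ∈ I ∪ O, Fr b (y l)) {l : Λ}
    (hl : l ∈ I ∪ O) : Fr b (wI I O y l) := by
  unfold wI
  apply Fr.mul
  · apply Fr.inv
    apply Fr.prod
    intro l' hl'
    exact (hy l hl).sub (hy l' (mem_union_left _ (mem_of_mem_erase hl')))
  · apply Fr.inv
    apply Fr.prod
    intro l' hl'
    exact (hy l' (mem_union_right _ hl')).sub (hy l hl)

lemma fr_wO {b : ι} {I O : Finset Λ} {y : Λ → HH ι K} (hy : ∀ l ∈ I ∪ O, Fr b (y l)) {l : Λ}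
    (hl : l ∈ I ∪ O) : Fr b (wO I O y l) := by
  unfold wO
  apply Fr.mul
  · apply Fr.inv
    apply Fr.prod
    intro l' hl'
    exact (hy l hl).sub (hy l' (mem_union_left _ hl'))
  · apply Fr.inv
    apply Fr.prod
    intro l' hl'
    exact (hy l' (mem_union_right _ (mem_of_mem_erase hl'))).sub (hy l hl)

lemma fr_phi {b : ι} {I O : Finset Λ} {y : Λ → HH ι K} (hy : ∀ l ∈ I ∪ O, Fr b (y l))
    {z : HH ι K} (hz : Fr b z) : Fr b (phi I O y z) := by
  unfold phi
  apply Fr.mul
  · apply Fr.inv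
    apply Fr.prod
    intro l' hl'
    exact hz.sub (hy l' (mem_union_left _ hl'))
  · apply Fr.inv
    apply Fr.prod
    intro l' hl'
    exact (hy l' (mem_union_right _ hl')).sub hz

lemma geom_rg {a : ι} {z : HH ι K} (hz : Fr a z) (hne : (u a : HH ι K) - z ≠ 0) (n : ℕ) :
    Rg a ((u a ^ n - z ^ n) * (u a - z)⁻¹) := by
  have h1 : (u a ^ n - z ^ n) * (u a - z)⁻¹ = ∑ i ∈ range n, u a ^ i * z ^ (n - 1 - i) := by
    rw [← (Commute.all (u a) z).geom_sum₂_mul n, mul_assoc, mul_inv_cancel₀ hne, mul_one]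
  rw [h1]
  apply Fil.sum
  intro i _
  exact (Fil.pow0 (Rg.u a a) i).mul0 (hz.1.pow0 _)

/-- the residue of a power of the variable -/
lemma RES.phi {a : ι} {I O : Finset Λ} {y : Λ → HH ι K} (h : Pos a I O y) (n : ℕ) :
    RES a (u a ^ n * phi I O y (u a)) (∑ l ∈ I, y l ^ n * wI I O y l) := by
  rcases (I ∪ O).eq_empty_or_nonempty with hne | hne
  · rw [union_eq_empty] at hne
    rw [hne.1, hne.2, sum_empty]
    apply RES.rg
    unfold Res.phi
    simp only [prod_empty, inv_one, mul_one]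
    exact Fil.pow0 (Rg.u a a) n
  rw [phi_pf h hne, mul_add, mul_sum, mul_sum]
  have h0 : (∑ l ∈ I, y l ^ n * wI I O y l) =
      (∑ l ∈ I, y l ^ n * wI I O y l) + ∑ l ∈ O, (0 : HH ι K) := by simp
  rw [h0]
  apply RES.add
  · apply RES.sum
    intro l hl
    have hlow := h.low l hl
    have hne' := low_ne hlow
    have hfr := h.frI (mem_union_left O hl)
    have hw : Fr a (wI I O y l) := fr_wI (fun l' hl' => h.frI hl') (mem_union_left O hl)
    have e1 : u a ^ n * (wI I O y l * (u a - y l)⁻¹) =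
        (y l ^ n * wI I O y l) * (u a - y l)⁻¹ +
        wI I O y l * ((u a ^ n - y l ^ n) * (u a - y l)⁻¹) := by ring
    rw [e1]
    have e2 : y l ^ n * wI I O y l = (y l ^ n * wI I O y l) * 1 + wI I O y l * 0 := by ring
    rw [e2]
    apply RES.add
    · rw [mul_zero, add_zero, mul_one]
      have := (RES.pole hlow).mul ((hfr.pow n).mul hw)
      rwa [mul_one] at this
    · exact (RES.rg (geom_rg hfr hne' n)).mul hw
  · apply RES.sum
    intro l hl
    obtain ⟨p, hp, hp'⟩ := h.high l hl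
    have hw : Fr a (wO I O y l) := fr_wO (fun l' hl' => h.frI hl') (mem_union_right I hl)
    apply RES.rg
    apply Fil.mul0 (Fil.pow0 (Rg.u a a) n)
    apply Fil.mul0 hw.1
    rw [hp']
    exact high_inv hp

/-- substitution of positions for letters -/
noncomputable def sbs (A : Finset ι) (y : Λ → HH ι K) (σ : ι → Λ) (p : ι) : HH ι K :=
  if p ∈ A then y (σ p) else u p

/-- elimination of a set of letters from a monomial times pole factors -/
lemma elim_mono (A : Finset ι) (I O : ι → Finset Λ) (y : Λ → HH ι K)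
    (h : ∀ a ∈ A, Pos a (I a) (O a) y) (hy : ∀ a ∈ A, ∀ b ∈ A, ∀ l ∈ I a ∪ O a, Fr b (y l))
    (H : HH ι K) (hH : ∀ a ∈ A, Fr a H) (R : Finset ι) (hR : Disjoint A R) (n : ι → ℕ) :
    cf (A ∪ R) (H * ∏ a ∈ A, (u a ^ n a * phi (I a) (O a) y (u a))) =
      cf R (H * ∏ a ∈ A, ∑ l ∈ I a, y l ^ n a * wI (I a) (O a) y l) := by
  apply RES.multi A _ _ (fun a ha => RES.phi (h a ha) (n a)) _ _ H hH R hR
  · intro a ha b hb hne
    exact ((Fr.u hne).pow _).mul (fr_phi (fun l hl => hy b hb a ha l hl) (Fr.u hne))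
  · intro a ha b hb
    apply Fr.sum
    intro l hl
    have hl' : l ∈ I b ∪ O b := mem_union_left _ hl
    exact ((hy b hb a ha l hl').pow _).mul (fr_wI (fun l' hl'' => hy b hb a ha l' hl'') hl')

lemma fr_H_mono (A : Finset ι) (d : ι →₀ ℕ) (a : ι) (ha : a ∈ A) :
    Fr a (∏ p ∈ d.support \ A, (u p : HH ι K) ^ d p) := by
  apply Fr.prod
  intro p hp
  rw [mem_sdiff] at hp
  exact (Fr.u (fun h => hp.2 (by rw [h]; exact ha))).pow _

/-- values on a monomial -/
lemma prod_support_split {L : Type*} [CommMonoid L] (A : Finset ι) (d : ι →₀ ℕ) (s : ι → L) :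
    ∏ p ∈ d.support, s p ^ d p = (∏ p ∈ d.support \ A, s p ^ d p) * ∏ a ∈ A, s a ^ d a := by
  have h1 : ∏ a ∈ A, s a ^ d a = ∏ a ∈ d.support ∩ A, s a ^ d a := by
    symm
    apply prod_subset inter_subset_right
    intro a ha hna
    have : d a = 0 := by
      by_contra h
      exact hna (mem_inter.2 ⟨Finsupp.mem_support_iff.2 h, ha⟩)
    rw [this, pow_zero]
  rw [h1, mul_comm, prod_inter_mul_prod_sdiff]

open Classical in
/-- elimination of a set of letters from a polynomial times pole factors -/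
theorem elimA (A : Finset ι) (I O : ι → Finset Λ) (y : Λ → HH ι K)
    (h : ∀ a ∈ A, Pos a (I a) (O a) y) (hy : ∀ a ∈ A, ∀ b ∈ A, ∀ l ∈ I a ∪ O a, Fr b (y l))
    (H : HH ι K) (hH : ∀ a ∈ A, Fr a H) (R : Finset ι) (hR : Disjoint A R)
    (P : MvPolynomial ι K) :
    cf (A ∪ R) (H * (MvPolynomial.aeval (fun p => (u p : HH ι K)) P *
        ∏ a ∈ A, phi (I a) (O a) y (u a))) =
      cf R (H * ∑ σ ∈ Fintype.piFinset (fun a : A => I a.1),
        MvPolynomial.aeval (fun p => if hp : p ∈ A then y (σ ⟨p, hp⟩) else (u p : HH ι K)) P *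
        ∏ a : A, wI (I a.1) (O a.1) y (σ a)) := by
  induction P using MvPolynomial.induction_on' with
  | monomial d r =>
    have e1 : ∀ s : ι → HH ι K, MvPolynomial.aeval s (MvPolynomial.monomial d r) =
        HahnSeries.C r * ((∏ p ∈ d.support \ A, s p ^ d p) * ∏ a ∈ A, s a ^ d a) := by
      intro s
      rw [MvPolynomial.aeval_monomial, HahnSeries.C_eq_algebraMap, Finsupp.prod,
        prod_support_split A d s]
    rw [e1]
    have e2 : H * (HahnSeries.C r * ((∏ p ∈ d.support \ A, (u p : HH ι K) ^ d p) *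
        ∏ a ∈ A, u a ^ d a) * ∏ a ∈ A, phi (I a) (O a) y (u a)) =
        (H * (HahnSeries.C r * ∏ p ∈ d.support \ A, (u p : HH ι K) ^ d p)) *
        ∏ a ∈ A, (u a ^ d a * phi (I a) (O a) y (u a)) := by
      rw [prod_mul_distrib]; ring
    rw [e2, elim_mono A I O y h hy _ _ R hR]
    · congr 1
      rw [mul_assoc]
      congr 1
      rw [← prod_attach A, ← univ_eq_attach, prod_univ_sum, mul_sum]
      apply sum_congr rfl
      intro σ _
      rw [e1]
      have e3 : ∏ p ∈ d.support \ A, (if hp : p ∈ A then y (σ ⟨p, hp⟩) else (u p : HH ι K)) ^ d p =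
          ∏ p ∈ d.support \ A, (u p : HH ι K) ^ d p := by
        apply prod_congr rfl
        intro p hp
        rw [dif_neg (mem_sdiff.1 hp).2]
      have e4 : ∏ a ∈ A, (if hp : a ∈ A then y (σ ⟨a, hp⟩) else (u a : HH ι K)) ^ d a =
          ∏ a : A, y (σ a) ^ d a.1 := by
        rw [← prod_attach A, ← univ_eq_attach]
        apply prod_congr rfl
        intro a _
        rw [dif_pos a.2]
      rw [e3, e4, prod_mul_distrib]
      ring
    · intro a ha
      exact (hH a ha).mul ((Fr.const a r).mul (fr_H_mono A d a ha))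
  | add p q hp hq =>
    have e1 : H * (MvPolynomial.aeval (fun p => (u p : HH ι K)) (p + q) *
        ∏ a ∈ A, phi (I a) (O a) y (u a)) =
        H * (MvPolynomial.aeval (fun p => (u p : HH ι K)) p * ∏ a ∈ A, phi (I a) (O a) y (u a)) +
        H * (MvPolynomial.aeval (fun p => (u p : HH ι K)) q *
          ∏ a ∈ A, phi (I a) (O a) y (u a)) := by
      rw [map_add]; ring
    rw [e1, cf_add, hp, hq, ← cf_add, ← mul_add, ← sum_add_distrib]
    congr 2
    apply sum_congr rfl
    intro σ _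
    rw [map_add]; ring

end Pool.Agent.Run7.h657.Res
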