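import Pool.Agent.Run7.h657.RC

/-! Polynomials: merging of letters, division, the coefficient at infinity. -/

set_option linter.unusedSectionVars false

namespace Pool.Agent.Run7.h657.Res

open Finset MvPolynomial

section weights

variable {F Λ : Type*} [Field F] [DecidableEq Λ]

/-- Lagrange weights -/
def wt (S : Finset Λ) (y : Λ → F) (l : Λ) : F := (∏ l' ∈ S.erase l, (y l - y l'))⁻¹

lemma wt_coeff (S : Finset Λ) (y : Λ → F) {l : Λ} (hl : l ∈ S) :
    (Lagrange.basis S y l).coeff (S.card - 1) = wt S y l := by
  unfold Lagrange.basis Lagrange.basisDivisor wt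
  rw [prod_mul_distrib, ← map_prod, Polynomial.coeff_C_mul, prod_inv_distrib]
  have h1 : (∏ j ∈ S.erase l, (Polynomial.X - Polynomial.C (y j))).natDegree = S.card - 1 := by
    rw [Polynomial.natDegree_finsetProd_X_sub_C_eq_card, card_erase_of_mem hl]
  have h2 : (∏ j ∈ S.erase l, (Polynomial.X - Polynomial.C (y j))).coeff (S.card - 1) = 1 := by
    have := (Polynomial.monic_prod_of_monic (S.erase l)
      (fun j => Polynomial.X - Polynomial.C (y j)) (fun j _ => Polynomial.monic_X_sub_C _))
    rw [Polynomial.Monic, Polynomial.leadingCoeff, h1] at this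
    exact this
  rw [h2, mul_one]

/-- the sum of residues -/
lemma sum_wt (S : Finset Λ) (y : Λ → F) (hy : Set.InjOn y S) (G : Polynomial F)
    (hG : G.degree < S.card) : ∑ l ∈ S, G.eval (y l) * wt S y l = G.coeff (S.card - 1) := by
  have h1 := Lagrange.eq_interpolate hy hG
  have h2 : G.coeff (S.card - 1) = _ :=
    congrArg (fun f : Polynomial F => f.coeff (S.card - 1)) h1
  rw [h2, Lagrange.interpolate_apply, Polynomial.finsetSum_coeff]
  apply sum_congr rfl
  intro l hl
  rw [Polynomial.coeff_C_mul, wt_coeff S y hl]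

lemma sum_wt_monic (S : Finset Λ) (y : Λ → F) (hy : Set.InjOn y S) (G : Polynomial F)
    (hG : G.Monic) (hd : G.natDegree + 1 = S.card) : ∑ l ∈ S, G.eval (y l) * wt S y l = 1 := by
  rw [sum_wt S y hy G]
  · have : S.card - 1 = G.natDegree := by omega
    rw [this]
    exact hG
  · rw [Polynomial.degree_eq_natDegree hG.ne_zero]
    exact_mod_cast (by omega : G.natDegree < S.card)

lemma sum_wt_zero (S : Finset Λ) (y : Λ → F) (hy : Set.InjOn y S) (h : 1 < S.card) :
    ∑ l ∈ S, wt S y l = 0 := by
  have h1 := sum_wt S y hy (1 : Polynomial F) (by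
    rw [Polynomial.degree_one]; exact_mod_cast (by omega))
  simp only [Polynomial.eval_one, one_mul] at h1
  rw [h1, Polynomial.coeff_one, if_neg (by omega)]

lemma wt_insert {S : Finset Λ} {y : Λ → F} {l0 l : Λ} (h0 : l0 ∉ S) (hl : l ∈ S)
    (hne : y l - y l0 ≠ 0) : (y l - y l0) * wt (insert l0 S) y l = wt S y l := by
  have hne' : l0 ≠ l := fun h => h0 (h ▸ hl)
  unfold wt
  rw [erase_insert_of_ne hne', prod_insert (fun h => h0 (mem_of_mem_erase h)), mul_inv]
  field_simp

/-- complete symmetric functions as residues at infinity -/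
lemma exD {R' L : Type*} [CommRing R'] [Field L] (S : Finset Λ) (z : Λ → R') :
    ∃ D : ℕ → R', ∀ g : R' →+* L, Set.InjOn (fun l => g (z l)) S →
      ∀ n, g (D n) = ∑ l ∈ S, g (z l) ^ n * wt S (fun l => g (z l)) l := by
  classical
  induction S using Finset.induction_on with
  | empty => exact ⟨fun _ => 0, fun g _ n => by simp⟩
  | insert l0 S h0 ih =>
    obtain ⟨D', hD'⟩ := ih
    refine ⟨fun n => Nat.rec (if S = ∅ then 1 else 0) (fun n d => z l0 * d + D' n) n, ?_⟩
    intro g hg n
    have hg' : Set.InjOn (fun l => g (z l)) S := hg.mono (by simp)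
    induction n with
    | zero =>
      simp only [pow_zero, one_mul]
      by_cases hS : S = ∅
      · subst hS
        simp [wt]
      · rw [if_neg hS]
        show g 0 = _
        rw [map_zero, sum_wt_zero _ _ hg]
        rw [card_insert_of_notMem h0]
        have := card_pos.2 (nonempty_iff_ne_empty.2 hS)
        omega
    | succ n ih2 =>
      simp only at ih2 ⊢
      rw [map_add, map_mul, ih2, hD' g hg', mul_sum, sum_insert h0, sum_insert h0]
      have h3 : ∀ l ∈ S, g (z l) ^ (n + 1) * wt (insert l0 S) (fun l => g (z l)) l =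
          g (z l0) * (g (z l) ^ n * wt (insert l0 S) (fun l => g (z l)) l) +
          g (z l) ^ n * wt S (fun l => g (z l)) l := by
        intro l hl
        have hne : g (z l) - g (z l0) ≠ 0 := by
          intro h
          have h4 := hg (by simp [hl]) (by simp) (sub_eq_zero.1 h)
          exact h0 (h4 ▸ hl)
        have h5 := wt_insert (y := fun l => g (z l)) h0 hl hne
        rw [← h5]
        ring
      rw [sum_congr rfl h3, sum_add_distrib]
      ring

end weights

section poly

variable {ι K : Type*} [DecidableEq ι] [Field K]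

/-- merging of one letter with another -/
def mg1 (a l : ι) : ι → ι := Function.update id a l

/-- merging of two letters with a third -/
def mg2 (a b l : ι) : ι → ι := Function.update (Function.update id a l) b l

/-- vanishing under a map of the letters -/
def Van (f : ι → ι) (P : MvPolynomial ι K) : Prop := rename f P = 0

lemma Van.mul {f : ι → ι} {P : MvPolynomial ι K} (h : Van f P) (Q : MvPolynomial ι K) :
    Van f (P * Q) := by
  unfold Van at *
  rw [map_mul, h, zero_mul]

lemma Van.mul' {f : ι → ι} {P : MvPolynomial ι K} (h : Van f P) (Q : MvPolynomial ι K) :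
    Van f (Q * P) := by
  unfold Van at *
  rw [map_mul, h, mul_zero]

lemma van_X {f : ι → ι} {a b : ι} (h : f a = f b) :
    Van f (X a - X b : MvPolynomial ι K) := by
  unfold Van
  rw [map_sub, rename_X, rename_X, h, sub_self]

lemma van_of_mul {f : ι → ι} {P Q : MvPolynomial ι K} (h : Van f (P * Q)) (hP : ¬ Van f P) :
    Van f Q := by
  unfold Van at *
  rw [map_mul] at h
  exact (mul_eq_zero.1 h).resolve_left hP

lemma not_van_X {f : ι → ι} {a b : ι} (h : f a ≠ f b) :
    ¬ Van f (X a - X b : MvPolynomial ι K) := by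
  unfold Van
  rw [map_sub, rename_X, rename_X, sub_eq_zero]
  intro h'
  exact h (X_injective h')

lemma Van.eval {A : Type*} [CommRing A] [Algebra K A] {f : ι → ι} {P : MvPolynomial ι K}
    (h : Van f P) {s : ι → A} (hs : s ∘ f = s) : aeval s P = 0 := by
  have := aeval_rename f s P
  rw [hs] at this
  rw [← this, h, map_zero]

lemma div_aux (a l : ι) (P : MvPolynomial ι K) :
    P - rename (mg1 a l) P ∈ Ideal.span {(X a - X l : MvPolynomial ι K)} := by
  induction P using MvPolynomial.induction_on with
  | C r => simp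
  | add p q hp hq =>
    rw [map_add]
    have : p + q - (rename (mg1 a l) p + rename (mg1 a l) q) =
      (p - rename (mg1 a l) p) + (q - rename (mg1 a l) q) := by ring
    rw [this]
    exact Ideal.add_mem _ hp hq
  | mul_X p i hp =>
    rw [map_mul, rename_X]
    have : p * X i - rename (mg1 a l) p * X (mg1 a l i) =
      (p - rename (mg1 a l) p) * X i + rename (mg1 a l) p * (X i - X (mg1 a l i)) := by ring
    rw [this]
    apply Ideal.add_mem _ (Ideal.mul_mem_right _ _ hp)
    apply Ideal.mul_mem_left
    unfold mg1
    by_cases h : i = a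
    · subst h
      rw [Function.update_self]
      exact Ideal.subset_span rfl
    · rw [Function.update_of_ne h]
      simp

lemma Van.div {a l : ι} {P : MvPolynomial ι K} (h : Van (mg1 a l) P) :
    ∃ P1, P = (X a - X l) * P1 := by
  have h1 := div_aux a l P
  unfold Van at h
  rw [h, sub_zero, Ideal.mem_span_singleton'] at h1
  obtain ⟨P1, hP1⟩ := h1
  exact ⟨P1, by rw [← hP1]; ring⟩

/-- successive division -/
lemma Van.divs (c : ι) (T : Finset ι) (hc : c ∉ T) (P : MvPolynomial ι K)
    (h : ∀ a ∈ T, Van (mg1 a c) P) :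
    ∃ P1, P = (∏ a ∈ T, (X c - X a)) * P1 ∧
      ∀ f : ι → ι, Van f P → (∀ a ∈ T, f c ≠ f a) → Van f P1 := by
  induction T using Finset.induction_on with
  | empty => exact ⟨P, by simp, fun f hf _ => hf⟩
  | insert a T ha ih =>
    rw [mem_insert, not_or] at hc
    obtain ⟨P1, h1, h2⟩ := ih hc.2 (fun b hb => h b (mem_insert_of_mem hb))
    have h3 : Van (mg1 a c) P1 := by
      apply h2 _ (h a (mem_insert_self a T))
      intro b hb
      unfold mg1
      rw [Function.update_of_ne hc.1, Function.update_of_ne (fun h' => ha (by rw [← h']; exact hb))]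
      intro h'
      have h'' : c = b := h'
      exact hc.2 (by rw [h'']; exact hb)
    obtain ⟨P2, h4⟩ := h3.div
    refine ⟨-P2, ?_, ?_⟩
    · rw [prod_insert ha, h1, h4]; ring
    · intro f hf hne
      have h5 := h2 f hf (fun b hb => hne b (mem_insert_of_mem hb))
      rw [h4] at h5
      have h6 := van_of_mul h5 (not_van_X (hne a (mem_insert_self a T)).symm)
      unfold Van at *
      rw [map_neg, h6, neg_zero]

/-- a polynomial as a polynomial in one letter -/
noncomputable def Th (c : ι) : MvPolynomial ι K →ₐ[K] Polynomial (MvPolynomial ι K) :=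
  aeval fun p => if p = c then Polynomial.X else Polynomial.C (X p)

/-- the coefficient at infinity -/
noncomputable def topx (c : ι) (D : ℕ → MvPolynomial ι K) (P : MvPolynomial ι K) :
    MvPolynomial ι K := (Th c P).sum fun n k => k * D n

lemma Th_eval {A : Type*} [CommRing A] [Algebra K A] (c : ι) (s : ι → A) (y : A)
    (P : MvPolynomial ι K) :
    Polynomial.eval₂ (aeval s : MvPolynomial ι K →ₐ[K] A).toRingHom y (Th c P) =
      aeval (Function.update s c y) P := by
  induction P using MvPolynomial.induction_on with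
  | C r =>
    rw [← MvPolynomial.algebraMap_eq, AlgHom.commutes, AlgHom.commutes]
    rw [Polynomial.algebraMap_apply, Polynomial.eval₂_C]
    show (aeval s) (algebraMap K (MvPolynomial ι K) r) = _
    rw [AlgHom.commutes]
  | add p q hp hq => rw [map_add, map_add, Polynomial.eval₂_add, hp, hq]
  | mul_X p i hp =>
    rw [map_mul, map_mul, Polynomial.eval₂_mul, hp, aeval_X]
    congr 1
    unfold Th
    rw [aeval_X]
    by_cases h : i = c
    · subst h
      rw [if_pos rfl, Polynomial.eval₂_X, Function.update_self]
    · rw [if_neg h, Polynomial.eval₂_C, Function.update_of_ne h]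
      show aeval s (X i) = _
      rw [aeval_X]

lemma Th_rename (c : ι) (f : ι → ι) (hf : f c = c) (hf' : ∀ p, p ≠ c → f p ≠ c)
    (P : MvPolynomial ι K) :
    Polynomial.map (rename f : MvPolynomial ι K →ₐ[K] MvPolynomial ι K).toRingHom (Th c P) =
      Th c (rename f P) := by
  induction P using MvPolynomial.induction_on with
  | C r =>
    rw [rename_C, ← MvPolynomial.algebraMap_eq, AlgHom.commutes]
    rw [Polynomial.algebraMap_apply, Polynomial.map_C]
    congr 1
    exact AlgHom.commutes (rename f) r
  | add p q hp hq => rw [map_add, map_add, map_add, Polynomial.map_add, hp, hq]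
  | mul_X p i hp =>
    rw [map_mul, map_mul, map_mul, Polynomial.map_mul, hp, rename_X]
    congr 1
    unfold Th
    rw [aeval_X, aeval_X]
    by_cases h : i = c
    · subst h
      rw [if_pos rfl, hf, if_pos rfl, Polynomial.map_X]
    · rw [if_neg h, if_neg (hf' i h), Polynomial.map_C]
      congr 1
      exact rename_X f i

lemma Van.topx {c : ι} {f : ι → ι} (hf : f c = c) (hf' : ∀ p, p ≠ c → f p ≠ c)
    {P : MvPolynomial ι K} (h : Van f P) (D : ℕ → MvPolynomial ι K) : Van f (topx c D P) := by
  unfold Van Res.topx
  rw [Polynomial.sum, map_sum]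
  apply sum_eq_zero
  intro n _
  rw [map_mul]
  have h1 := Th_rename c f hf hf' P
  unfold Van at h
  rw [h, map_zero] at h1
  have h2 := congrArg (fun q : Polynomial (MvPolynomial ι K) => q.coeff n) h1
  simp only [Polynomial.coeff_map, Polynomial.coeff_zero] at h2
  have h3 : rename f ((Th c P).coeff n) = 0 := h2
  rw [h3, zero_mul]

/-- values of the coefficient at infinity -/
lemma topx_eval {A Λ : Type*} [Field A] [Algebra K A] [DecidableEq Λ] (c : ι) (s : ι → A)
    (S : Finset Λ) (y : Λ → A) (D : ℕ → MvPolynomial ι K)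
    (hD : ∀ n, aeval s (D n) = ∑ l ∈ S, y l ^ n * wt S y l) (P : MvPolynomial ι K) :
    aeval s (topx c D P) = ∑ l ∈ S, aeval (Function.update s c (y l)) P * wt S y l := by
  unfold Res.topx
  rw [Polynomial.sum, map_sum]
  simp_rw [map_mul, hD, mul_sum]
  rw [sum_comm]
  apply sum_congr rfl
  intro l _
  rw [← Th_eval c s (y l) P, Polynomial.eval₂_eq_sum, Polynomial.sum, sum_mul]
  apply sum_congr rfl
  intro n _
  show aeval s ((Th c P).coeff n) * _ = aeval s ((Th c P).coeff n) * _ * _
  ring

end poly

end Pool.Agent.Run7.h657.Res
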