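import Pool.Agent.Run7.h657.RD
import Pool.Agent.Run7.h657.Fin

/-! Letter systems: the poles of the integrand and their splitting at a vertex. -/

set_option linter.unusedSectionVars false

namespace Pool.Agent.Run7.h657.Res

open Finset

variable {ι K I E F : Type*} [LinearOrder ι] [Field K] [Fintype I] [Fintype E] [Fintype F]
  [DecidableEq I] [DecidableEq E] [DecidableEq F] [DecidableEq K]

/-- parameters in general position -/
structure Sep (Q : QD K I E F) (t : K) : Prop where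
  hl : ∀ e, Q.src e ≠ Q.tgt e
  te0 : ∀ e, Q.te e ≠ 0
  t0 : t ≠ 0
  tt : ∀ k : ℕ, 0 < k → t ^ k ≠ 1
  ee : ∀ e e', Q.src e = Q.src e' → Q.tgt e = Q.tgt e' → Q.te e = Q.te e' → e = e'
  eo : ∀ e e', Q.src e = Q.tgt e' → Q.tgt e = Q.src e' → t * Q.te e * Q.te e' ≠ 1
  ff : ∀ f f', Q.cF f = Q.cF f' → Q.fa f = Q.fa f' → f = f'

lemma Sep.t1 {Q : QD K I E F} {t : K} (h : Sep Q t) : t ≠ 1 := by
  have := h.tt 1 one_pos
  rwa [pow_one] at this

/-- letters with colours and weights, ordered compatibly with the arrows -/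
structure LS (Q : QD K I E F) (t : K) (c : ι → I) (x : ι → K) : Prop where
  x0 : ∀ p, x p ≠ 0
  mf : ∀ e r p, c r = Q.src e → c p = Q.tgt e → Q.te e * x p = x r → r < p
  mb : ∀ e r p, c r = Q.src e → c p = Q.tgt e → x r = t * Q.te e * x p → p < r
  nofr : ∀ f p, c p = Q.cF f → Q.fa f ≠ t * x p
  fresh : ∀ p (R : Finset ι), ∃ d, d ∉ R ∧ c d = c p ∧ x d = x p
  sf : ∀ e r, c r = Q.src e → ∃ p, c p = Q.tgt e ∧ Q.te e * x p = x r
  sb : ∀ e p, c p = Q.tgt e → ∃ r, c r = Q.src e ∧ x r = t * Q.te e * x p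
  sr : ∀ f, ∃ p, c p = Q.cF f ∧ x p = Q.fa f

/-- arrows between letters -/
def Ar (Q : QD K I E F) (t : K) (c : ι → I) (x : ι → K) (r p : ι) : Prop :=
  ∃ e, (c r = Q.src e ∧ c p = Q.tgt e ∧ Q.te e * x p = x r) ∨
    (c r = Q.tgt e ∧ c p = Q.src e ∧ x p = t * Q.te e * x r)

/-- half edges ending in letters, and framings -/
abbrev Lam (ι E F : Type*) := (E × ι) ⊕ ((E × ι) ⊕ F)

/-- neighbours of a vertex -/
def Ls (Q : QD K I E F) (c : ι → I) (i : I) (Y : Finset ι) : Finset (Lam ι E F) :=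
  (((univ : Finset E) ×ˢ Y).filter fun q => Q.tgt q.1 = i ∧ c q.2 = Q.src q.1).disjSum
    ((((univ : Finset E) ×ˢ Y).filter fun q => Q.src q.1 = i ∧ c q.2 = Q.tgt q.1).disjSum
      (univ.filter fun f => Q.cF f = i))

/-- weights of the neighbours -/
def kap (Q : QD K I E F) (t : K) (x : ι → K) : Lam ι E F → K
  | Sum.inl q => x q.2 / Q.te q.1
  | Sum.inr (Sum.inl q) => t * Q.te q.1 * x q.2
  | Sum.inr (Sum.inr f) => Q.fa f

/-- positions of the neighbours -/
noncomputable def yy : Lam ι E F → HH ι K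
  | Sum.inl q => u q.2
  | Sum.inr (Sum.inl q) => u q.2
  | Sum.inr (Sum.inr _) => 0

/-- positions as polynomials -/
noncomputable def zp : Lam ι E F → MvPolynomial ι K
  | Sum.inl q => MvPolynomial.X q.2
  | Sum.inr (Sum.inl q) => MvPolynomial.X q.2
  | Sum.inr (Sum.inr _) => 0

/-- neighbours of a given weight -/
def In (Q : QD K I E F) (t : K) (c : ι → I) (x : ι → K) (i : I) (Y : Finset ι) (χ : K) :
    Finset (Lam ι E F) := (Ls Q c i Y).filter fun l => kap Q t x l = χ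

/-- products over pairs of letters joined by an edge -/
def TT {M : Type*} [CommMonoid M] (Q : QD K I E F) (c : ι → I) (R : Finset ι)
    (G : E → ι → ι → M) (Gf : F → ι → M) : M :=
  (∏ e, ∏ r ∈ R, ∏ p ∈ R, if c r = Q.src e ∧ c p = Q.tgt e then G e r p else 1) *
    ∏ f, ∏ r ∈ R, if c r = Q.cF f then Gf f r else 1

/-- the same at a vertex -/
def Gv {M : Type*} (G : E → ι → ι → M) (Gf : F → ι → M) : Lam ι E F → ι → M
  | Sum.inl q, a => G q.1 q.2 a
  | Sum.inr (Sum.inl q), a => G q.1 a q.2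
  | Sum.inr (Sum.inr f), a => Gf f a

lemma prod_Ls {M : Type*} [CommMonoid M] (Q : QD K I E F) (c : ι → I) (i : I) (Y : Finset ι)
    (g : Lam ι E F → M) :
    ∏ l ∈ Ls Q c i Y, g l =
      (∏ e, ∏ r ∈ Y, if Q.tgt e = i ∧ c r = Q.src e then g (Sum.inl (e, r)) else 1) *
      ((∏ e, ∏ r ∈ Y, if Q.src e = i ∧ c r = Q.tgt e then g (Sum.inr (Sum.inl (e, r))) else 1) *
      ∏ f, if Q.cF f = i then g (Sum.inr (Sum.inr f)) else 1) := by
  unfold Ls
  rw [prod_disjSum, prod_disjSum, prod_filter, prod_filter, prod_filter, prod_product,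
    prod_product]

lemma TT_split {M : Type*} [CommMonoid M] (Q : QD K I E F) (hl : ∀ e, Q.src e ≠ Q.tgt e)
    (c : ι → I) (i : I) (A Y : Finset ι) (hA : ∀ a ∈ A, c a = i) (hY : ∀ r ∈ Y, c r ≠ i)
    (G : E → ι → ι → M) (Gf : F → ι → M) :
    TT Q c (A ∪ Y) G Gf = TT Q c Y G Gf * ∏ a ∈ A, ∏ l ∈ Ls Q c i Y, Gv G Gf l a := by
  have hd : Disjoint A Y := by
    rw [disjoint_left]
    intro a ha ha'
    exact hY a ha' (hA a ha)
  simp_rw [prod_Ls Q c i Y, Gv, prod_mul_distrib]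
  unfold TT
  have h1 : ∏ e, ∏ r ∈ A ∪ Y, ∏ p ∈ A ∪ Y,
        (if c r = Q.src e ∧ c p = Q.tgt e then G e r p else 1) =
      (∏ e, ∏ r ∈ Y, ∏ p ∈ Y, if c r = Q.src e ∧ c p = Q.tgt e then G e r p else 1) *
      ((∏ a ∈ A, ∏ e, ∏ r ∈ Y, if Q.tgt e = i ∧ c r = Q.src e then G e r a else 1) *
      (∏ a ∈ A, ∏ e, ∏ r ∈ Y, if Q.src e = i ∧ c r = Q.tgt e then G e a r else 1)) := by
    rw [prod_comm (s := A), prod_comm (s := A), ← prod_mul_distrib, ← prod_mul_distrib]
    apply prod_congr rfl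
    intro e _
    rw [prod_union hd]
    have h2 : ∏ r ∈ A, ∏ p ∈ A ∪ Y, (if c r = Q.src e ∧ c p = Q.tgt e then G e r p else 1) =
        ∏ a ∈ A, ∏ r ∈ Y, if Q.src e = i ∧ c r = Q.tgt e then G e a r else 1 := by
      apply prod_congr rfl
      intro a ha
      rw [prod_union hd]
      have h3 : ∏ p ∈ A, (if c a = Q.src e ∧ c p = Q.tgt e then G e a p else 1) = 1 := by
        apply prod_eq_one
        intro p hp
        rw [if_neg]
        rintro ⟨h4, h5⟩
        rw [hA a ha] at h4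
        rw [hA p hp] at h5
        exact hl e (h4.symm.trans h5)
      rw [h3, one_mul]
      apply prod_congr rfl
      intro p _
      simp only [hA a ha, eq_comm]
    have h6 : ∏ r ∈ Y, ∏ p ∈ A ∪ Y, (if c r = Q.src e ∧ c p = Q.tgt e then G e r p else 1) =
        (∏ r ∈ Y, ∏ p ∈ Y, if c r = Q.src e ∧ c p = Q.tgt e then G e r p else 1) *
        ∏ a ∈ A, ∏ r ∈ Y, if Q.tgt e = i ∧ c r = Q.src e then G e r a else 1 := by
      rw [prod_comm (s := A), ← prod_mul_distrib]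
      apply prod_congr rfl
      intro r _
      rw [prod_union hd, mul_comm]
      congr 1
      apply prod_congr rfl
      intro a ha
      rw [hA a ha]
      by_cases h7 : Q.tgt e = i
      · by_cases h8 : c r = Q.src e
        · rw [if_pos ⟨h8, h7.symm⟩, if_pos ⟨h7, h8⟩]
        · rw [if_neg (fun h => h8 h.1), if_neg (fun h => h8 h.2)]
      · rw [if_neg (fun h => h7 h.2.symm), if_neg (fun h => h7 h.1)]
    rw [h2, h6, mul_comm]
    rw [mul_assoc]
  have h9 : ∏ f, ∏ r ∈ A ∪ Y, (if c r = Q.cF f then Gf f r else 1) =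
      (∏ f, ∏ r ∈ Y, if c r = Q.cF f then Gf f r else 1) *
      ∏ a ∈ A, ∏ f, if Q.cF f = i then Gf f a else 1 := by
    rw [prod_comm (s := A), ← prod_mul_distrib]
    apply prod_congr rfl
    intro f _
    rw [prod_union hd, mul_comm]
    congr 1
    apply prod_congr rfl
    intro a ha
    simp only [hA a ha, eq_comm]
  rw [h1, h9, mul_mul_mul_comm, mul_assoc, mul_assoc, mul_assoc]

/-- the poles of a pair -/
noncomputable def pg (Q : QD K I E F) (t : K) (x : ι → K) (e : E) (r p : ι) : HH ι K :=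
  (if Q.te e * x p = x r then (u p - u r)⁻¹ else 1) *
    (if x r = t * Q.te e * x p then (u r - u p)⁻¹ else 1)

/-- the poles of a framing -/
noncomputable def pf' (Q : QD K I E F) (x : ι → K) (f : F) (r : ι) : HH ι K :=
  if Q.fa f = x r then (u r)⁻¹ else 1

/-- all poles -/
noncomputable def PiR (Q : QD K I E F) (t : K) (c : ι → I) (x : ι → K) (R : Finset ι) :
    HH ι K := TT Q c R (pg Q t x) (pf' Q x)

/-- the poles of one letter -/
noncomputable def ph1 (Q : QD K I E F) (t : K) (c : ι → I) (x : ι → K) (i : I) (Y : Finset ι)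
    (a : ι) : HH ι K := phi (In Q t c x i Y (x a)) (In Q t c x i Y (t * x a)) yy (u a)

variable {Q : QD K I E F} {t : K} {c : ι → I} {x : ι → K}

lemma mem_Ls_inl {i : I} {Y : Finset ι} {e : E} {p : ι} :
    (Sum.inl (e, p) : Lam ι E F) ∈ Ls Q c i Y ↔ p ∈ Y ∧ Q.tgt e = i ∧ c p = Q.src e := by
  unfold Ls
  rw [inl_mem_disjSum, mem_filter, mem_product]
  simp

lemma mem_Ls_inr {i : I} {Y : Finset ι} {e : E} {p : ι} :
    (Sum.inr (Sum.inl (e, p)) : Lam ι E F) ∈ Ls Q c i Y ↔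
      p ∈ Y ∧ Q.src e = i ∧ c p = Q.tgt e := by
  unfold Ls
  rw [inr_mem_disjSum, inl_mem_disjSum, mem_filter, mem_product]
  simp

lemma mem_Ls_fr {i : I} {Y : Finset ι} {f : F} :
    (Sum.inr (Sum.inr f) : Lam ι E F) ∈ Ls Q c i Y ↔ Q.cF f = i := by
  unfold Ls
  rw [inr_mem_disjSum, inr_mem_disjSum, mem_filter]
  simp

/-- the equations of the neighbours -/
lemma kap_inl (hs : Sep Q t) (e : E) (p a : ι) :
    (kap Q t x (Sum.inl (e, p)) = x a ↔ Q.te e * x a = x p) ∧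
    (kap Q t x (Sum.inl (e, p)) = t * x a ↔ x p = t * Q.te e * x a) := by
  have := hs.te0 e
  simp only [kap]
  rw [div_eq_iff this, div_eq_iff this]
  constructor
  · constructor
    · intro h; rw [h]; ring
    · intro h; rw [← h]; ring
  · constructor
    · intro h; rw [h]; ring
    · intro h; rw [h]; ring

lemma kap_inr (hs : Sep Q t) (e : E) (p a : ι) :
    (kap Q t x (Sum.inr (Sum.inl (e, p))) = x a ↔ x a = t * Q.te e * x p) ∧
    (kap Q t x (Sum.inr (Sum.inl (e, p))) = t * x a ↔ Q.te e * x p = x a) := by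
  have := hs.t0
  simp only [kap]
  refine ⟨eq_comm, ?_⟩
  rw [mul_assoc, mul_right_inj' this]

lemma Gv_pg (hs : Sep Q t) (hL : LS Q t c x) {i : I} {Y : Finset ι} {a : ι} (ha : c a = i)
    {l : Lam ι E F} (hl : l ∈ Ls Q c i Y) :
    Gv (pg Q t x) (pf' Q x) l a =
      (if kap Q t x l = x a then (u a - yy l)⁻¹ else 1) *
      (if kap Q t x l = t * x a then (yy l - u a)⁻¹ else 1) := by
  rcases l with ⟨e, p⟩ | ⟨e, p⟩ | f
  · simp only [Gv, pg, yy, (kap_inl hs e p a).1, (kap_inl hs e p a).2]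
  · simp only [Gv, pg, yy, (kap_inr hs e p a).1, (kap_inr hs e p a).2]
    rw [mul_comm]
  · rw [mem_Ls_fr] at hl
    simp only [Gv, pf', yy, kap, sub_zero, zero_sub]
    rw [if_neg (hL.nofr f a (ha.trans hl.symm)), mul_one]

lemma prod_Gv_pg (hs : Sep Q t) (hL : LS Q t c x) {i : I} (Y : Finset ι) {a : ι} (ha : c a = i) :
    ∏ l ∈ Ls Q c i Y, Gv (pg Q t x) (pf' Q x) l a = ph1 Q t c x i Y a := by
  rw [prod_congr rfl (fun l hl => Gv_pg hs hL ha hl), prod_mul_distrib]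
  unfold ph1 phi In
  rw [← prod_filter, ← prod_filter, prod_inv_distrib, prod_inv_distrib]

/-- splitting of the poles at a vertex -/
lemma PiR_split (hs : Sep Q t) (hL : LS Q t c x) (i : I) (A Y : Finset ι)
    (hA : ∀ a ∈ A, c a = i) (hY : ∀ r ∈ Y, c r ≠ i) :
    PiR Q t c x (A ∪ Y) = PiR Q t c x Y * ∏ a ∈ A, ph1 Q t c x i Y a := by
  unfold PiR
  rw [TT_split Q hs.hl c i A Y hA hY]
  congr 1
  apply prod_congr rfl
  intro a ha
  exact prod_Gv_pg hs hL Y (hA a ha)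

lemma fr_pg {b r p : ι} (hr : r ≠ b) (hp : p ≠ b) (e : E) : Fr b (pg Q t x e r p) := by
  unfold pg
  apply Fr.mul
  · split_ifs
    · exact ((Fr.u hp).sub (Fr.u hr)).inv
    · exact Fr.one b
  · split_ifs
    · exact ((Fr.u hr).sub (Fr.u hp)).inv
    · exact Fr.one b

lemma fr_PiR {b : ι} {Y : Finset ι} (hb : b ∉ Y) : Fr b (PiR Q t c x Y) := by
  unfold PiR TT
  apply Fr.mul
  · apply Fr.prod; intro e _
    apply Fr.prod; intro r hr
    apply Fr.prod; intro p hp
    split_ifs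
    · exact fr_pg (fun h => hb (by rw [← h]; exact hr)) (fun h => hb (by rw [← h]; exact hp)) e
    · exact Fr.one b
  · apply Fr.prod; intro f _
    apply Fr.prod; intro r hr
    split_ifs
    · unfold pf'
      split_ifs
      · exact (Fr.u (fun h => hb (by rw [← h]; exact hr))).inv
      · exact Fr.one b
    · exact Fr.one b

lemma mem_In {i : I} {Y : Finset ι} {χ : K} {l : Lam ι E F} :
    l ∈ In Q t c x i Y χ ↔ l ∈ Ls Q c i Y ∧ kap Q t x l = χ := by
  unfold In
  rw [mem_filter]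

/-- neighbours of a letter are letters or framings -/
lemma In_cases (hs : Sep Q t) (hL : LS Q t c x) {i : I} {Y : Finset ι} {a : ι} (ha : c a = i)
    {l : Lam ι E F} (hl : l ∈ In Q t c x i Y (x a)) :
    (yy l = (0 : HH ι K) ∧ zp l = (0 : MvPolynomial ι K) ∧ ∃ f, l = Sum.inr (Sum.inr f)) ∨
    ∃ p, p ∈ Y ∧ yy l = (u p : HH ι K) ∧ zp l = (MvPolynomial.X p : MvPolynomial ι K) ∧
      Ar Q t c x p a ∧ p < a := by
  rw [mem_In] at hl
  obtain ⟨h1, h2⟩ := hl
  rcases l with ⟨e, p⟩ | ⟨e, p⟩ | f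
  · right
    rw [mem_Ls_inl] at h1
    rw [(kap_inl hs e p a).1] at h2
    refine ⟨p, h1.1, rfl, rfl, ⟨e, Or.inl ⟨h1.2.2, ha.trans h1.2.1.symm, h2⟩⟩, ?_⟩
    exact hL.mf e p a h1.2.2 (ha.trans h1.2.1.symm) h2
  · right
    rw [mem_Ls_inr] at h1
    rw [(kap_inr hs e p a).1] at h2
    refine ⟨p, h1.1, rfl, rfl, ⟨e, Or.inr ⟨h1.2.2, ha.trans h1.2.1.symm, h2⟩⟩, ?_⟩
    exact hL.mb e a p (ha.trans h1.2.1.symm) h1.2.2 h2
  · left
    exact ⟨rfl, rfl, f, rfl⟩

lemma Out_cases (hs : Sep Q t) (hL : LS Q t c x) {i : I} {Y : Finset ι} {a : ι} (ha : c a = i)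
    {l : Lam ι E F} (hl : l ∈ In Q t c x i Y (t * x a)) :
    ∃ p, p ∈ Y ∧ yy l = (u p : HH ι K) ∧ zp l = (MvPolynomial.X p : MvPolynomial ι K) ∧
      Ar Q t c x a p ∧ a < p := by
  rw [mem_In] at hl
  obtain ⟨h1, h2⟩ := hl
  rcases l with ⟨e, p⟩ | ⟨e, p⟩ | f
  · rw [mem_Ls_inl] at h1
    rw [(kap_inl hs e p a).2] at h2
    refine ⟨p, h1.1, rfl, rfl, ⟨e, Or.inr ⟨ha.trans h1.2.1.symm, h1.2.2, h2⟩⟩, ?_⟩
    exact hL.mb e p a h1.2.2 (ha.trans h1.2.1.symm) h2
  · rw [mem_Ls_inr] at h1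
    rw [(kap_inr hs e p a).2] at h2
    refine ⟨p, h1.1, rfl, rfl, ⟨e, Or.inl ⟨ha.trans h1.2.1.symm, h1.2.2, h2⟩⟩, ?_⟩
    exact hL.mf e a p (ha.trans h1.2.1.symm) h1.2.2 h2
  · rw [mem_Ls_fr] at h1
    exact absurd h2 (hL.nofr f a (ha.trans h1.symm))

/-- arrows give neighbours -/
lemma Ar_Out (hs : Sep Q t) {i : I} {Y : Finset ι} {a p : ι} (ha : c a = i) (hp : p ∈ Y)
    (h : Ar Q t c x a p) :
    ∃ l ∈ In Q t c x i Y (t * x a), zp l = (MvPolynomial.X p : MvPolynomial ι K) := by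
  obtain ⟨e, ⟨h1, h2, h3⟩ | ⟨h1, h2, h3⟩⟩ := h
  · refine ⟨Sum.inr (Sum.inl (e, p)), ?_, rfl⟩
    rw [mem_In, mem_Ls_inr, (kap_inr hs e p a).2]
    exact ⟨⟨hp, h1.symm.trans ha, h2⟩, h3⟩
  · refine ⟨Sum.inl (e, p), ?_, rfl⟩
    rw [mem_In, mem_Ls_inl, (kap_inl hs e p a).2]
    exact ⟨⟨hp, h1.symm.trans ha, h2⟩, h3⟩

lemma yy_inj (hs : Sep Q t) (hx : ∀ p, x p ≠ 0) {i : I} {Y : Finset ι} {l l' : Lam ι E F}
    (hl : l ∈ Ls Q c i Y) (hl' : l' ∈ Ls Q c i Y) (hk : kap Q t x l = kap Q t x l')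
    (h : yy l = (yy l' : HH ι K)) : l = l' := by
  have hu : ∀ p : ι, (u p : HH ι K) ≠ 0 := u_ne
  rcases l with ⟨e, p⟩ | ⟨e, p⟩ | f <;> rcases l' with ⟨e', p'⟩ | ⟨e', p'⟩ | f'
  · simp only [yy] at h
    have hp := u_injective h
    subst hp
    rw [mem_Ls_inl] at hl hl'
    simp only [kap] at hk
    have h1 : Q.te e = Q.te e' := by
      have := hs.te0 e; have := hs.te0 e'; have := hx p
      field_simp at hk
      exact hk.symm
    rw [hs.ee e e' (hl.2.2.symm.trans hl'.2.2) (hl.2.1.trans hl'.2.1.symm) h1]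
  · exfalso
    simp only [yy] at h
    have hp := u_injective h
    subst hp
    rw [mem_Ls_inl] at hl
    rw [mem_Ls_inr] at hl'
    simp only [kap] at hk
    apply hs.eo e e' (hl.2.2.symm.trans hl'.2.2) (hl.2.1.trans hl'.2.1.symm)
    have := hs.te0 e; have := hx p
    field_simp at hk
    rw [mul_right_comm]
    linear_combination -hk
  · exact absurd h (hu p)
  · exfalso
    simp only [yy] at h
    have hp := u_injective h
    subst hp
    rw [mem_Ls_inl] at hl'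
    rw [mem_Ls_inr] at hl
    simp only [kap] at hk
    apply hs.eo e' e (hl'.2.2.symm.trans hl.2.2) (hl'.2.1.trans hl.2.1.symm)
    have := hs.te0 e'; have := hx p
    field_simp at hk
    linear_combination hk
  · simp only [yy] at h
    have hp := u_injective h
    subst hp
    rw [mem_Ls_inr] at hl hl'
    simp only [kap] at hk
    have h1 : Q.te e = Q.te e' := by
      have := hs.t0; have := hx p
      have h2 := mul_right_cancel₀ this hk
      exact mul_left_cancel₀ hs.t0 h2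
    rw [hs.ee e e' (hl.2.1.trans hl'.2.1.symm) (hl.2.2.symm.trans hl'.2.2) h1]
  · exact absurd h (hu p)
  · exact absurd h.symm (hu p')
  · exact absurd h.symm (hu p')
  · rw [mem_Ls_fr] at hl hl'
    simp only [kap] at hk
    rw [hs.ff f f' (hl.trans hl'.symm) hk]

/-- pole positions of a letter -/
lemma pos_of (hs : Sep Q t) (hL : LS Q t c x) {i : I} (Y : Finset ι) {a : ι} (ha : c a = i) :
    Pos a (In Q t c x i Y (x a)) (In Q t c x i Y (t * x a)) (yy : Lam ι E F → HH ι K) where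
  low l hl := by
    rcases In_cases hs hL ha hl with h | ⟨p, _, h2, _, _, h3⟩
    · exact Or.inl h.1
    · exact Or.inr ⟨p, h3, h2⟩
  high l hl := by
    obtain ⟨p, _, h2, _, _, h3⟩ := Out_cases hs hL ha hl
    exact ⟨p, h3, h2⟩
  inj := by
    intro l hl l' hl' h
    rw [mem_coe, mem_union] at hl hl'
    have key : ∀ m m', m ∈ In Q t c x i Y (x a) → m' ∈ In Q t c x i Y (t * x a) →
        yy m ≠ (yy m' : HH ι K) := by
      intro m m' hm hm' hh
      obtain ⟨p', _, h2', _, _, h3'⟩ := Out_cases hs hL ha hm'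
      rcases In_cases hs hL ha hm with h | ⟨p, _, h2, _, _, h3⟩
      · rw [h.1, h2'] at hh
        exact u_ne p' hh.symm
      · rw [h2, h2'] at hh
        have := u_injective hh
        subst this
        exact lt_irrefl _ (h3.trans h3')
    rcases hl with hl | hl <;> rcases hl' with hl' | hl'
    · have h1 := mem_In.1 hl; have h2 := mem_In.1 hl'
      exact yy_inj hs hL.x0 h1.1 h2.1 (h1.2.trans h2.2.symm) h
    · exact absurd h (key l l' hl hl')
    · exact absurd h.symm (key l' l hl' hl)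
    · have h1 := mem_In.1 hl; have h2 := mem_In.1 hl'
      exact yy_inj hs hL.x0 h1.1 h2.1 (h1.2.trans h2.2.symm) h
  dis := by
    rw [disjoint_left]
    intro l h1 h2
    have h3 := (mem_In.1 h1).2
    have h4 := (mem_In.1 h2).2
    rw [h3] at h4
    apply hs.t1
    have := hL.x0 a
    apply mul_right_cancel₀ this
    rw [one_mul, ← h4]

lemma fr_yy {i : I} {Y : Finset ι} {b : ι} (hb : b ∉ Y) {l : Lam ι E F} (hl : l ∈ Ls Q c i Y) :
    Fr b (yy l : HH ι K) := by
  rcases l with ⟨e, p⟩ | ⟨e, p⟩ | f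
  · rw [mem_Ls_inl] at hl
    exact Fr.u (fun h => hb (by rw [← h]; exact hl.1))
  · rw [mem_Ls_inr] at hl
    exact Fr.u (fun h => hb (by rw [← h]; exact hl.1))
  · exact Fr.zero b

/-- the residue functional -/
noncomputable def J (Q : QD K I E F) (t : K) (c : ι → I) (x : ι → K) (R : Finset ι)
    (P : MvPolynomial ι K) : K :=
  cf R (MvPolynomial.aeval (fun p => (u p : HH ι K)) P * PiR Q t c x R)

open Classical in
/-- positions after all letters of a set are moved to neighbours -/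
noncomputable def tie (A : Finset ι) (σ : A → Lam ι E F) (p : ι) : HH ι K :=
  if hp : p ∈ A then yy (σ ⟨p, hp⟩) else u p

/-- elimination of some letters of one colour -/
theorem elimJ (hs : Sep Q t) (hL : LS Q t c x) (i : I) (A Y : Finset ι)
    (hA : ∀ a ∈ A, c a = i) (hY : ∀ r ∈ Y, c r ≠ i) (H : HH ι K) (hH : ∀ a ∈ A, Fr a H)
    (R : Finset ι) (hR : Disjoint A R) (P : MvPolynomial ι K) :
    cf (A ∪ R) (H * (MvPolynomial.aeval (fun p => (u p : HH ι K)) P *
        ∏ a ∈ A, ph1 Q t c x i Y a)) =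
      cf R (H * ∑ σ ∈ Fintype.piFinset (fun a : A => In Q t c x i Y (x a.1)),
        MvPolynomial.aeval (tie A σ) P *
        ∏ a : A, wI (In Q t c x i Y (x a.1)) (In Q t c x i Y (t * x a.1)) yy (σ a)) := by
  have hnot : ∀ b ∈ A, b ∉ Y := fun b hb hb' => hY b hb' (hA b hb)
  have := elimA A (fun a => In Q t c x i Y (x a)) (fun a => In Q t c x i Y (t * x a))
    (yy : Lam ι E F → HH ι K) (fun a ha => pos_of hs hL Y (hA a ha))
    (by
      intro a ha b hb l hl
      rw [mem_union] at hl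
      rcases hl with hl | hl
      · exact fr_yy (hnot b hb) (mem_In.1 hl).1
      · exact fr_yy (hnot b hb) (mem_In.1 hl).1) H hH R hR P
  unfold ph1 tie
  convert this using 3

end Pool.Agent.Run7.h657.Res
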