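import Pool.Agent.Run7.h657.RE

/-! The class of numerators and the addition of a letter. -/

set_option linter.unusedSectionVars false

namespace Pool.Agent.Run7.h657.Res

open Finset MvPolynomial

section cut

variable {ι K : Type*} [DecidableEq ι] [Field K]

/-- restriction to a set of letters -/
noncomputable def cut (R : Finset ι) : MvPolynomial ι K →ₐ[K] MvPolynomial ι K :=
  aeval fun p => if p ∈ R then X p else 0

lemma cut_X (R : Finset ι) (p : ι) : cut R (X p : MvPolynomial ι K) = if p ∈ R then X p else 0 := by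
  unfold cut
  rw [aeval_X]

lemma cut_eval {A : Type*} [CommRing A] [Algebra K A] (R : Finset ι) (s : ι → A)
    (P : MvPolynomial ι K) :
    aeval s (cut R P) = aeval (fun p => if p ∈ R then s p else 0) P := by
  unfold cut
  rw [← AlgHom.comp_apply, comp_aeval]
  congr 2
  funext p
  split_ifs <;> simp

lemma cut_cut {R R' : Finset ι} (h : R ⊆ R') (P : MvPolynomial ι K) :
    cut R' (cut R P) = cut R P := by
  have h1 := cut_eval (A := MvPolynomial ι K) R
    (fun p => if p ∈ R' then (X p : MvPolynomial ι K) else 0) P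
  show aeval _ (cut R P) = _
  rw [h1]
  unfold cut
  congr 2
  funext p
  by_cases hp : p ∈ R
  · rw [if_pos hp, if_pos (h hp), if_pos hp]
  · rw [if_neg hp, if_neg hp]

lemma cut_rename (R : Finset ι) (f : ι → ι) (h1 : ∀ p ∈ R, f p ∈ R) (h2 : ∀ p, p ∉ R → f p ∉ R)
    (P : MvPolynomial ι K) : rename f (cut R P) = cut R (rename f P) := by
  have e1 : rename f (cut R P) = aeval (fun p => (X (f p) : MvPolynomial ι K)) (cut R P) := by
    rw [← aeval_X_left_apply (rename f (cut R P)), aeval_rename]
    rfl
  rw [e1, cut_eval]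
  unfold cut
  rw [aeval_rename]
  congr 2
  funext p
  simp only [Function.comp]
  by_cases hp : p ∈ R
  · rw [if_pos hp, if_pos (h1 p hp)]
  · rw [if_neg hp, if_neg (h2 p hp)]

end cut

variable {ι K I E F : Type*} [LinearOrder ι] [Field K] [Fintype I] [Fintype E] [Fintype F]
  [DecidableEq I] [DecidableEq E] [DecidableEq F] [DecidableEq K]

lemma Fr.aeval {b : ι} {s : ι → HH ι K} (h : ∀ p, Fr b (s p)) (P : MvPolynomial ι K) :
    Fr b (MvPolynomial.aeval s P) := by
  induction P using MvPolynomial.induction_on with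
  | C r =>
    rw [← MvPolynomial.algebraMap_eq, AlgHom.commutes, ← HahnSeries.C_eq_algebraMap]
    exact Fr.const b r
  | add p q hp hq => rw [map_add]; exact hp.add hq
  | mul_X p i hp => rw [map_mul, aeval_X]; exact hp.mul (h i)

lemma fr_cut {b : ι} {R : Finset ι} (hb : b ∉ R) {P : MvPolynomial ι K} (hP : cut R P = P) :
    Fr b (MvPolynomial.aeval (fun p => (u p : HH ι K)) P) := by
  rw [← hP, cut_eval]
  apply Fr.aeval
  intro p
  split_ifs with h
  · exact Fr.u (fun h' => hb (by rw [← h']; exact h))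
  · exact Fr.zero b

/-- polynomials with coefficients independent of a letter -/
def FrP (a : ι) (G : Polynomial (HH ι K)) : Prop := ∀ n, Fr a (G.coeff n)

lemma FrP.mul {a : ι} {G G' : Polynomial (HH ι K)} (h : FrP a G) (h' : FrP a G') :
    FrP a (G * G') := by
  intro n
  rw [Polynomial.coeff_mul]
  exact Fr.sum _ _ fun z _ => (h z.1).mul (h' z.2)

lemma FrP.X (a : ι) : FrP a (Polynomial.X : Polynomial (HH ι K)) := by
  intro n
  rw [Polynomial.coeff_X]
  split_ifs
  · exact Fr.one a
  · exact Fr.zero a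

lemma FrP.C {a : ι} {z : HH ι K} (h : Fr a z) : FrP a (Polynomial.C z) := by
  intro n
  rw [Polynomial.coeff_C]
  split_ifs
  · exact h
  · exact Fr.zero a

lemma FrP.sub {a : ι} {G G' : Polynomial (HH ι K)} (h : FrP a G) (h' : FrP a G') :
    FrP a (G - G') := by
  intro n
  rw [Polynomial.coeff_sub]
  exact (h n).sub (h' n)

lemma FrP.one (a : ι) : FrP a (1 : Polynomial (HH ι K)) := by
  have := FrP.C (K := K) (Fr.one a)
  rwa [Polynomial.C_1] at this

lemma FrP.prod {a : ι} {α : Type*} (s : Finset α) (G : α → Polynomial (HH ι K))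
    (h : ∀ b ∈ s, FrP a (G b)) : FrP a (∏ b ∈ s, G b) := by
  classical
  induction s using Finset.induction_on with
  | empty => simpa using FrP.one a
  | insert b s hb ih =>
    rw [prod_insert hb]
    exact (h b (mem_insert_self b s)).mul (ih fun i hi => h i (mem_insert_of_mem hi))

lemma FrP.pow {a : ι} {G : Polynomial (HH ι K)} (h : FrP a G) (n : ℕ) : FrP a (G ^ n) := by
  induction n with
  | zero => simpa using FrP.one a
  | succ n ih => rw [pow_succ]; exact ih.mul h

/-- residues of polynomials times pole factors -/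
lemma RES.poly {Λ : Type*} [DecidableEq Λ] {a : ι} {I' O : Finset Λ} {y : Λ → HH ι K}
    (h : Pos a I' O y) {G : Polynomial (HH ι K)} (hG : FrP a G) :
    RES a (G.eval (u a) * Res.phi I' O y (u a)) (∑ l ∈ I', G.eval (y l) * wI I' O y l) := by
  have h1 : G.eval (u a) * Res.phi I' O y (u a) = ∑ n ∈ range (G.natDegree + 1),
      G.coeff n * (u a ^ n * Res.phi I' O y (u a)) := by
    rw [Polynomial.eval_eq_sum_range, sum_mul]
    apply sum_congr rfl; intro n _; ring
  have h2 : (∑ l ∈ I', G.eval (y l) * wI I' O y l) = ∑ n ∈ range (G.natDegree + 1),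
      G.coeff n * ∑ l ∈ I', y l ^ n * wI I' O y l := by
    simp_rw [mul_sum]
    rw [sum_comm]
    apply sum_congr rfl; intro l _
    rw [Polynomial.eval_eq_sum_range, sum_mul]
    apply sum_congr rfl; intro n _; ring
  rw [h1, h2]
  exact RES.sum _ _ _ fun n _ => (RES.phi h n).mul (hG n)

/-- numerators -/
structure PP (Q : QD K I E F) (t : K) (c : ι → I) (x : ι → K) (R : Finset ι)
    (P : MvPolynomial ι K) : Prop where
  sup : cut R P = P
  V : ∀ r ∈ R, ∀ p ∈ R, p ≠ r → c p = c r → x p = x r → Van (mg1 p r) P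
  W : ∀ a ∈ R, ∀ b ∈ R, ∀ l ∈ R, c a = c b → x b = t * x a → Ar Q t c x a l → Ar Q t c x l b →
    Van (mg2 a b l) P

variable {Q : QD K I E F} {t : K} {c : ι → I} {x : ι → K}

/-- letters of one colour -/
def RA (c : ι → I) (R : Finset ι) (i : I) : Finset ι := R.filter fun r => c r = i

/-- letters of the other colours -/
def RY (c : ι → I) (R : Finset ι) (i : I) : Finset ι := R.filter fun r => c r ≠ i

lemma mem_RA {R : Finset ι} {i : I} {r : ι} : r ∈ RA c R i ↔ r ∈ R ∧ c r = i := by
  unfold RA; rw [mem_filter]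

lemma mem_RY {R : Finset ι} {i : I} {r : ι} : r ∈ RY c R i ↔ r ∈ R ∧ c r ≠ i := by
  unfold RY; rw [mem_filter]

lemma RA_union (c : ι → I) (R : Finset ι) (i : I) : RA c R i ∪ RY c R i = R := by
  ext r
  rw [mem_union, mem_RA, mem_RY]
  tauto

lemma RA_disj (c : ι → I) (R : Finset ι) (i : I) : Disjoint (RA c R i) (RY c R i) := by
  rw [disjoint_left]
  intro r h h'
  exact (mem_RY.1 h').2 (mem_RA.1 h).2

lemma RY_insert {R : Finset ι} {d : ι} : RY c (insert d R) (c d) = RY c R (c d) := by
  ext r
  rw [mem_RY, mem_RY, mem_insert]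
  constructor
  · rintro ⟨rfl | h, h2⟩
    · exact absurd rfl h2
    · exact ⟨h, h2⟩
  · rintro ⟨h, h2⟩
    exact ⟨Or.inr h, h2⟩

lemma RA_insert {R : Finset ι} {d : ι} : RA c (insert d R) (c d) = insert d (RA c R (c d)) := by
  ext r
  rw [mem_RA, mem_insert, mem_insert, mem_RA]
  constructor
  · rintro ⟨rfl | h, h2⟩
    · exact Or.inl rfl
    · exact Or.inr ⟨h, h2⟩
  · rintro (rfl | h)
    · exact ⟨Or.inl rfl, rfl⟩
    · exact ⟨Or.inr h.1, h.2⟩

/-- poles after adding one letter -/
lemma PiR_insert (hs : Sep Q t) (hL : LS Q t c x) {R : Finset ι} {d : ι} (hd : d ∉ R) :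
    PiR Q t c x (insert d R) =
      PiR Q t c x R * ph1 Q t c x (c d) (RY c R (c d)) d := by
  have h1 : insert d R = insert d (RA c R (c d)) ∪ RY c R (c d) := by
    rw [insert_union, RA_union]
  have hdA : d ∉ RA c R (c d) := fun h => hd (mem_RA.1 h).1
  rw [h1, PiR_split hs hL (c d) _ _ (by
    intro a ha
    rw [mem_insert] at ha
    rcases ha with rfl | ha
    · rfl
    · exact (mem_RA.1 ha).2) (fun r hr => (mem_RY.1 hr).2), prod_insert hdA]
  have h2 : PiR Q t c x R = PiR Q t c x (RY c R (c d)) *
      ∏ a ∈ RA c R (c d), ph1 Q t c x (c d) (RY c R (c d)) a := by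
    rw [← PiR_split hs hL (c d) _ _ (fun a ha => (mem_RA.1 ha).2) (fun r hr => (mem_RY.1 hr).2),
      RA_union]
  rw [h2]
  ring

/-- the factor added with a new letter -/
noncomputable def upf (Q : QD K I E F) (t : K) (c : ι → I) (x : ι → K) (R : Finset ι) (d : ι)
    (k : ℕ) : MvPolynomial ι K :=
  X d ^ k * (∏ a ∈ (RA c R (c d)).filter (fun a => x a = x d), (X d - X a)) *
    (∏ a ∈ (RA c R (c d)).filter (fun a => t * x a = x d), (X d - X a)) *
    ∏ l ∈ In Q t c x (c d) (RY c R (c d)) (t * x d), (zp l - X d)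

lemma up_PP (hs : Sep Q t) (hL : LS Q t c x) {R : Finset ι} {d : ι}
    {P : MvPolynomial ι K} (hP : PP Q t c x R P) (k : ℕ) :
    PP Q t c x (insert d R) (P * upf Q t c x R d k) where
  sup := by
    have h0 : cut (insert d R) P = P := by
      rw [← hP.sup, cut_cut (subset_insert d R)]
    unfold upf
    rw [map_mul, map_mul, map_mul, map_mul, map_pow, map_prod, map_prod, map_prod, h0]
    have hXd : cut (insert d R) (X d : MvPolynomial ι K) = X d := by
      rw [cut_X, if_pos (mem_insert_self d R)]
    have h1 : ∀ a ∈ RA c R (c d), cut (insert d R) (X d - X a : MvPolynomial ι K) = X d - X a := by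
      intro a ha
      rw [map_sub, hXd, cut_X, if_pos (mem_insert_of_mem (mem_RA.1 ha).1)]
    rw [hXd]
    congr 1
    congr 1
    · congr 1
      · congr 1
        exact prod_congr rfl fun a ha => h1 a (mem_filter.1 ha).1
      · exact prod_congr rfl fun a ha => h1 a (mem_filter.1 ha).1
    · apply prod_congr rfl
      intro l hl
      obtain ⟨p, hp, _, h3, _⟩ := Out_cases hs hL rfl hl
      rw [map_sub, hXd, h3, cut_X, if_pos (mem_insert_of_mem (mem_RY.1 hp).1)]
  V := by
    have key : ∀ (f : ι → ι) (a : ι), a ∈ R → c a = c d → x a = x d → f d = f a →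
        Van f (P * upf Q t c x R d k) := by
      intro f a ha hca hxa hf
      apply Van.mul'
      unfold upf
      apply Van.mul
      apply Van.mul
      apply Van.mul'
      rw [← mul_prod_erase _ _ (mem_filter.2 ⟨mem_RA.2 ⟨ha, hca⟩, hxa⟩ :
        a ∈ (RA c R (c d)).filter (fun a => x a = x d))]
      exact (van_X hf).mul _
    intro r hr p hp hne hc hx
    rw [mem_insert] at hr hp
    rcases hr with rfl | hr <;> rcases hp with rfl | hp
    · exact absurd rfl hne
    · apply key _ p hp hc hx
      unfold mg1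
      rw [Function.update_self, Function.update_of_ne (Ne.symm hne)]
      rfl
    · apply key _ r hr hc.symm hx.symm
      unfold mg1
      rw [Function.update_self, Function.update_of_ne (Ne.symm hne)]
      rfl
    · exact (hP.V r hr p hp hne hc hx).mul _
  W := by
    have keyO : ∀ (f : ι → ι) (l : ι), l ∈ R → c l ≠ c d → Ar Q t c x d l → f l = f d →
        Van f (P * upf Q t c x R d k) := by
      intro f l hlR hlc har hf
      apply Van.mul'
      unfold upf
      apply Van.mul'
      obtain ⟨l', hl', hz⟩ := Ar_Out hs (Y := RY c R (c d)) rfl (mem_RY.2 ⟨hlR, hlc⟩) har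
      rw [← mul_prod_erase _ _ hl', hz]
      exact (van_X hf).mul _
    have hAc : ∀ r p, Ar Q t c x r p → c r ≠ c p := by
      rintro r p ⟨e, ⟨h1, h2, _⟩ | ⟨h1, h2, _⟩⟩ h
      · exact hs.hl e (h1.symm.trans (h.trans h2))
      · exact hs.hl e (h2.symm.trans (h.symm.trans h1))
    have hml : ∀ a b l : ι, mg2 a b l l = l := by
      intro a b l
      unfold mg2
      by_cases hb : l = b
      · subst hb; rw [Function.update_self]
      · rw [Function.update_of_ne hb]
        by_cases ha : l = a
        · subst ha; rw [Function.update_self]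
        · rw [Function.update_of_ne ha]; rfl
    have hmb : ∀ a b l : ι, mg2 a b l b = l := by
      intro a b l
      unfold mg2
      rw [Function.update_self]
    have hma : ∀ a b l : ι, mg2 a b l a = l := by
      intro a b l
      unfold mg2
      by_cases hb : a = b
      · subst hb; rw [Function.update_self]
      · rw [Function.update_of_ne hb, Function.update_self]
    intro a ha b hb l hl hc hx h1 h2
    by_cases had : a = d
    · subst had
      have hlR : l ∈ R := by
        rw [mem_insert] at hl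
        rcases hl with rfl | hl
        · exact absurd rfl (hAc _ _ h1)
        · exact hl
      exact keyO _ l hlR (hAc _ _ h1).symm h1 ((hml _ _ _).trans (hma _ _ _).symm)
    by_cases hbd : b = d
    · subst hbd
      have haR : a ∈ R := by
        rw [mem_insert] at ha
        exact ha.resolve_left had
      apply Van.mul'
      unfold upf
      apply Van.mul
      apply Van.mul'
      rw [← mul_prod_erase _ _ (mem_filter.2 ⟨mem_RA.2 ⟨haR, hc⟩, hx.symm⟩ :
        a ∈ (RA c R (c b)).filter (fun a => t * x a = x b))]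
      exact (van_X ((hmb _ _ _).trans (hma _ _ _).symm)).mul _
    by_cases hld : l = d
    · subst hld
      have hbR : b ∈ R := by
        rw [mem_insert] at hb
        exact hb.resolve_left hbd
      exact keyO _ b hbR (hAc _ _ h2).symm h2 ((hmb _ _ _).trans (hml _ _ _).symm)
    · rw [mem_insert] at ha hb hl
      exact (hP.W a (ha.resolve_left had) b (hb.resolve_left hbd) l (hl.resolve_left hld)
        hc hx h1 h2).mul _

lemma wI_empty {Λ : Type*} [DecidableEq Λ] (S : Finset Λ) (y : Λ → HH ι K) (l : Λ) :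
    wI S ∅ y l = wt S y l := by
  unfold wI wt
  simp

/-- adding a letter -/
theorem up_J (hs : Sep Q t) (hL : LS Q t c x) {R : Finset ι} {d : ι} (hd : d ∉ R)
    {P : MvPolynomial ι K} (hP : cut R P = P) (k : ℕ)
    (hk : (In Q t c x (c d) (RY c R (c d)) (x d)).card =
      ((RA c R (c d)).filter (fun a => x a = x d)).card +
      ((RA c R (c d)).filter (fun a => t * x a = x d)).card + 1 + k) :
    J Q t c x (insert d R) (P * upf Q t c x R d k) = J Q t c x R P := by
  unfold J
  set Y := RY c R (c d) with hY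
  set A1 := (RA c R (c d)).filter (fun a => x a = x d) with hA1
  set A2 := (RA c R (c d)).filter (fun a => t * x a = x d) with hA2
  set G : Polynomial (HH ι K) :=
    Polynomial.X ^ k * (∏ a ∈ A1, (Polynomial.X - Polynomial.C (u a))) *
      ∏ a ∈ A2, (Polynomial.X - Polynomial.C (u a)) with hG
  have hdR : ∀ a ∈ RA c R (c d), a ≠ d := fun a ha h => hd (h ▸ (mem_RA.1 ha).1)
  have hpos := pos_of hs hL (i := c d) Y (a := d) rfl
  have hpos' : Pos d (In Q t c x (c d) Y (x d)) ∅ (yy : Lam ι E F → HH ι K) := by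
    refine ⟨hpos.low, by simp, ?_, by simp⟩
    apply hpos.inj.mono
    simp
  have hFG : FrP d G := by
    apply FrP.mul
    · apply FrP.mul
      · exact (FrP.X d).pow k
      · apply FrP.prod
        intro a ha
        exact (FrP.X d).sub (FrP.C (Fr.u (hdR a (mem_filter.1 ha).1)))
    · apply FrP.prod
      intro a ha
      exact (FrP.X d).sub (FrP.C (Fr.u (hdR a (mem_filter.1 ha).1)))
  have hmon1 : ∀ S : Finset ι, (∏ a ∈ S, (Polynomial.X - Polynomial.C (u a : HH ι K))).Monic :=
    fun S => Polynomial.monic_prod_of_monic S _ (fun a _ => Polynomial.monic_X_sub_C _)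
  have hdeg1 : ∀ S : Finset ι,
      (∏ a ∈ S, (Polynomial.X - Polynomial.C (u a : HH ι K))).natDegree = S.card :=
    fun S => Polynomial.natDegree_finsetProd_X_sub_C_eq_card _ _
  have hmon : G.Monic := ((Polynomial.monic_X_pow k).mul (hmon1 A1)).mul (hmon1 A2)
  have hdeg : G.natDegree = k + A1.card + A2.card := by
    rw [hG, ((Polynomial.monic_X_pow k).mul (hmon1 A1)).natDegree_mul (hmon1 A2),
      (Polynomial.monic_X_pow k).natDegree_mul (hmon1 A1), Polynomial.natDegree_X_pow, hdeg1, hdeg1]
  have hGe : G.eval (u d) = u d ^ k * (∏ a ∈ A1, (u d - u a)) * ∏ a ∈ A2, (u d - u a) := by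
    rw [hG]
    simp [Polynomial.eval_prod]
  have e1 : MvPolynomial.aeval (fun p => (u p : HH ι K)) (P * upf Q t c x R d k) *
      PiR Q t c x (insert d R) =
      (MvPolynomial.aeval (fun p => (u p : HH ι K)) P * PiR Q t c x R) *
      (G.eval (u d) * phi (In Q t c x (c d) Y (x d)) ∅ yy (u d)) := by
    rw [PiR_insert hs hL hd, map_mul, hGe]
    unfold upf ph1 phi
    rw [map_mul, map_mul, map_mul, map_pow, map_prod, map_prod, map_prod, aeval_X]
    simp only [map_sub, aeval_X]
    have e2 : ∏ l ∈ In Q t c x (c d) Y (t * x d),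
        (MvPolynomial.aeval (fun p => (u p : HH ι K)) (zp l : MvPolynomial ι K) - u d) =
        ∏ l ∈ In Q t c x (c d) Y (t * x d), (yy l - u d : HH ι K) := by
      apply prod_congr rfl
      intro l hl
      obtain ⟨p, _, h2, h3, _⟩ := Out_cases hs hL rfl hl
      rw [h2, h3, aeval_X]
    have e3 : ∏ l ∈ In Q t c x (c d) Y (t * x d), (yy l - u d : HH ι K) ≠ 0 := by
      rw [prod_ne_zero_iff]
      intro l hl
      obtain ⟨p, hp, hp'⟩ := hpos.high l hl
      rw [hp']
      intro h0
      exact hp.ne' (u_injective (K := K) (sub_eq_zero.1 h0))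
    rw [← hY, ← hA1, ← hA2, e2, prod_empty, inv_one, mul_one]
    field_simp
  rw [e1]
  have h4 := RES.poly hpos' hFG _ R ((fr_cut hd hP).mul (fr_PiR (Q := Q) (t := t) (c := c)
    (x := x) hd)) hd
  rw [h4]
  have h5 : ∑ l ∈ In Q t c x (c d) Y (x d), G.eval (yy l) *
      wI (In Q t c x (c d) Y (x d)) ∅ yy l = 1 := by
    simp_rw [wI_empty]
    apply sum_wt_monic _ _ (by simpa using hpos'.inj) G hmon
    rw [hdeg, hk]
    omega
  rw [h5, mul_one]

end Pool.Agent.Run7.h657.Res
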