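import Pool.Agent.Run7.h657.RF

/-! Removal of a letter. -/

set_option linter.unusedSectionVars false

namespace Pool.Agent.Run7.h657.Res

open Finset MvPolynomial

variable {ι K I E F : Type*} [LinearOrder ι] [Field K] [Fintype I] [Fintype E] [Fintype F]
  [DecidableEq I] [DecidableEq E] [DecidableEq F] [DecidableEq K]

variable {Q : QD K I E F} {t : K} {c : ι → I} {x : ι → K}

lemma wI_wt {Λ : Type*} [DecidableEq Λ] {I' O : Finset Λ} (hd : Disjoint I' O) (y : Λ → HH ι K)
    {l : Λ} (hl : l ∈ I') : wI I' O y l = (-1) ^ O.card * wt (I' ∪ O) y l := by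
  have hlO : l ∉ O := fun h' => (disjoint_left.1 hd) hl h'
  have h1 : (I' ∪ O).erase l = I'.erase l ∪ O := by
    rw [erase_union_distrib, erase_eq_of_notMem hlO]
  unfold wI wt
  rw [h1, prod_union (hd.mono_left (erase_subset _ _)), prod_swap_sub O y (y l), mul_inv, mul_inv]
  have hs : ((-1 : HH ι K) ^ O.card)⁻¹ = (-1) ^ O.card := by
    rw [← inv_pow]; norm_num
  rw [hs]
  ring

/-- the polynomial which vanishes at the free positions -/
noncomputable def Qp (Q : QD K I E F) (t : K) (c : ι → I) (x : ι → K) (R : Finset ι) (c0 : ι) :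
    Polynomial (MvPolynomial ι K) :=
  (∏ l ∈ In Q t c x (c c0) (RY c R (c c0)) (t * x c0), (Polynomial.X - Polynomial.C (zp l))) /ₘ
    ∏ a ∈ (RA c R (c c0)).filter (fun a => x a = t * x c0), (Polynomial.X - Polynomial.C (X a))

lemma prod_XC_monic {A α : Type*} [CommRing A] (S : Finset α) (z : α → A) :
    (∏ l ∈ S, (Polynomial.X - Polynomial.C (z l))).Monic :=
  Polynomial.monic_prod_of_monic S _ (fun _ _ => Polynomial.monic_X_sub_C _)

lemma Qp_map {A : Type*} [CommRing A] (R : Finset ι) (c0 : ι) (g : MvPolynomial ι K →+* A) :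
    (Qp Q t c x R c0).map g =
      (∏ l ∈ In Q t c x (c c0) (RY c R (c c0)) (t * x c0),
        (Polynomial.X - Polynomial.C (g (zp l)))) /ₘ
      ∏ a ∈ (RA c R (c c0)).filter (fun a => x a = t * x c0),
        (Polynomial.X - Polynomial.C (g (X a))) := by
  unfold Qp
  rw [Polynomial.map_divByMonic _ (prod_XC_monic _ _), Polynomial.map_prod, Polynomial.map_prod]
  simp

lemma Qp_monic (R : Finset ι) (c0 : ι)
    (h1 : ((RA c R (c c0)).filter (fun a => x a = t * x c0)).card ≤
      (In Q t c x (c c0) (RY c R (c c0)) (t * x c0)).card) :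
    (Qp Q t c x R c0).Monic ∧ (Qp Q t c x R c0).natDegree =
      (In Q t c x (c c0) (RY c R (c c0)) (t * x c0)).card -
      ((RA c R (c c0)).filter (fun a => x a = t * x c0)).card := by
  constructor
  · unfold Qp
    rw [Polynomial.Monic, Polynomial.leadingCoeff_divByMonic_of_monic (prod_XC_monic _ _)]
    · exact prod_XC_monic _ _
    · rw [Polynomial.degree_eq_natDegree (prod_XC_monic _ _).ne_zero,
        Polynomial.degree_eq_natDegree (prod_XC_monic _ _).ne_zero,
        Polynomial.natDegree_finsetProd_X_sub_C_eq_card,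
        Polynomial.natDegree_finsetProd_X_sub_C_eq_card]
      exact_mod_cast h1
  · unfold Qp
    rw [Polynomial.natDegree_divByMonic _ (prod_XC_monic _ _),
      Polynomial.natDegree_finsetProd_X_sub_C_eq_card,
      Polynomial.natDegree_finsetProd_X_sub_C_eq_card]

/-- vanishing at a free position -/
lemma div_eval_zero {L Λ α : Type*} [Field L] [DecidableEq Λ] (S : Finset Λ) (T : Finset α)
    (y : Λ → L) (hy : Set.InjOn y S) (σ : α → Λ) (hσ : Set.InjOn σ T) (hT : ∀ a ∈ T, σ a ∈ S)
    {l : Λ} (hl : l ∈ S) (hn : ∀ a ∈ T, σ a ≠ l) :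
    ((∏ l' ∈ S, (Polynomial.X - Polynomial.C (y l'))) /ₘ
      ∏ a ∈ T, (Polynomial.X - Polynomial.C (y (σ a)))).eval (y l) = 0 := by
  classical
  set N : Polynomial L := ∏ l' ∈ S, (Polynomial.X - Polynomial.C (y l')) with hN
  set M : Polynomial L := ∏ a ∈ T, (Polynomial.X - Polynomial.C (y (σ a))) with hM
  have hMm : M.Monic := prod_XC_monic T _
  have hdvd : M ∣ N := by
    have h1 : M = ∏ l' ∈ T.image σ, (Polynomial.X - Polynomial.C (y l')) := by
      rw [prod_image hσ]
    rw [h1]
    apply prod_dvd_prod_of_subset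
    intro l' hl'
    rw [mem_image] at hl'
    obtain ⟨a, ha, rfl⟩ := hl'
    exact hT a ha
  have h2 := Polynomial.modByMonic_add_div N M
  rw [(Polynomial.modByMonic_eq_zero_iff_dvd hMm).2 hdvd, zero_add] at h2
  have h3 := congrArg (Polynomial.eval (y l)) h2
  rw [Polynomial.eval_mul] at h3
  have h4 : N.eval (y l) = 0 := by
    rw [hN, Polynomial.eval_prod]
    apply prod_eq_zero hl
    simp
  have h5 : M.eval (y l) ≠ 0 := by
    rw [hM, Polynomial.eval_prod, prod_ne_zero_iff]
    intro a ha h6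
    rw [Polynomial.eval_sub, Polynomial.eval_X, Polynomial.eval_C, sub_eq_zero] at h6
    exact hn a ha (hy (hT a ha) hl h6.symm)
  rw [h4] at h3
  exact (mul_eq_zero.1 h3).resolve_left h5

end Pool.Agent.Run7.h657.Res
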