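import Pool.Agent.Run7.h657.RG

/-! Removal of a letter: the identity. -/

set_option linter.unusedSectionVars false

namespace Pool.Agent.Run7.h657.Res

open Finset MvPolynomial

variable {ι K I E F : Type*} [LinearOrder ι] [Field K] [Fintype I] [Fintype E] [Fintype F]
  [DecidableEq I] [DecidableEq E] [DecidableEq F] [DecidableEq K]

variable {Q : QD K I E F} {t : K} {c : ι → I} {x : ι → K}

/-- the complete symmetric polynomials attached to a letter -/
lemma exDc (Q : QD K I E F) (t : K) (c : ι → I) (x : ι → K) (Y : Finset ι) (a : ι) :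
    ∃ D : ℕ → MvPolynomial ι K, ∀ g : MvPolynomial ι K →+* HH ι K,
      Set.InjOn (fun l => g (zp l))
        (↑(In Q t c x (c a) Y (x a) ∪ In Q t c x (c a) Y (t * x a)) : Set (Lam ι E F)) →
      ∀ n, g (D n) = ∑ l ∈ In Q t c x (c a) Y (x a) ∪ In Q t c x (c a) Y (t * x a),
        g (zp l) ^ n * wt (In Q t c x (c a) Y (x a) ∪ In Q t c x (c a) Y (t * x a))
          (fun l => g (zp l)) l :=
  exD _ _

/-- the coefficient at infinity in one letter, as an operation on numerators -/
noncomputable def dn (Q : QD K I E F) (t : K) (c : ι → I) (x : ι → K) (R : Finset ι) (a : ι)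
    (P : MvPolynomial ι K) : MvPolynomial ι K :=
  cut (R.erase a) (topx a (exDc Q t c x (RY c R (c a)) a).choose
    (C ((-1) ^ (In Q t c x (c a) (RY c R (c a)) (t * x a)).card) * P))

lemma van_dn {R : Finset ι} {a : ι} {f : ι → ι} (hfa : f a = a) (hf : ∀ p, p ≠ a → f p ≠ a)
    (h1 : ∀ p ∈ R.erase a, f p ∈ R.erase a) (h2 : ∀ p, p ∉ R.erase a → f p ∉ R.erase a)
    {P : MvPolynomial ι K} (h : Van f P) : Van f (dn Q t c x R a P) := by
  unfold dn Van
  rw [cut_rename _ f h1 h2]
  have := Van.topx hfa hf (h.mul' (C ((-1) ^ (In Q t c x (c a) (RY c R (c a)) (t * x a)).card)))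
    (exDc Q t c x (RY c R (c a)) a).choose
  unfold Van at this
  rw [this, map_zero]

lemma mg1_props {R : Finset ι} {a p r : ι} (hp : p ∈ R.erase a) (hr : r ∈ R.erase a) :
    mg1 p r a = a ∧ (∀ q, q ≠ a → mg1 p r q ≠ a) ∧ (∀ q ∈ R.erase a, mg1 p r q ∈ R.erase a) ∧
    (∀ q, q ∉ R.erase a → mg1 p r q ∉ R.erase a) := by
  have hpa := ne_of_mem_erase hp
  have hra := ne_of_mem_erase hr
  unfold mg1
  refine ⟨by rw [Function.update_of_ne hpa.symm]; rfl, ?_, ?_, ?_⟩
  · intro q hq
    by_cases h : q = p
    · subst h; rw [Function.update_self]; exact hra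
    · rw [Function.update_of_ne h]; exact hq
  · intro q hq
    by_cases h : q = p
    · subst h; rw [Function.update_self]; exact hr
    · rw [Function.update_of_ne h]; exact hq
  · intro q hq
    by_cases h : q = p
    · subst h; exact absurd hp hq
    · rw [Function.update_of_ne h]; exact hq

lemma mg2_props {R : Finset ι} {a p b l : ι} (hp : p ∈ R.erase a) (hb : b ∈ R.erase a)
    (hl : l ∈ R.erase a) :
    mg2 p b l a = a ∧ (∀ q, q ≠ a → mg2 p b l q ≠ a) ∧
    (∀ q ∈ R.erase a, mg2 p b l q ∈ R.erase a) ∧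
    (∀ q, q ∉ R.erase a → mg2 p b l q ∉ R.erase a) := by
  have hpa := ne_of_mem_erase hp
  have hba := ne_of_mem_erase hb
  have hla := ne_of_mem_erase hl
  unfold mg2
  refine ⟨by rw [Function.update_of_ne hba.symm, Function.update_of_ne hpa.symm]; rfl,
    ?_, ?_, ?_⟩
  · intro q hq
    by_cases h : q = b
    · subst h; rw [Function.update_self]; exact hla
    · rw [Function.update_of_ne h]
      by_cases h' : q = p
      · subst h'; rw [Function.update_self]; exact hla
      · rw [Function.update_of_ne h']; exact hq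
  · intro q hq
    by_cases h : q = b
    · subst h; rw [Function.update_self]; exact hl
    · rw [Function.update_of_ne h]
      by_cases h' : q = p
      · subst h'; rw [Function.update_self]; exact hl
      · rw [Function.update_of_ne h']; exact hq
  · intro q hq
    by_cases h : q = b
    · subst h; exact absurd hb hq
    · rw [Function.update_of_ne h]
      by_cases h' : q = p
      · subst h'; exact absurd hp hq
      · rw [Function.update_of_ne h']; exact hq

/-- the operation preserves the class -/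
lemma dn_PP {R : Finset ι} {a : ι} {P : MvPolynomial ι K}
    (hV : ∀ r ∈ R.erase a, ∀ p ∈ R.erase a, p ≠ r → c p = c r → x p = x r → Van (mg1 p r) P)
    (hW : ∀ p ∈ R.erase a, ∀ b ∈ R.erase a, ∀ l ∈ R.erase a, c p = c b → x b = t * x p →
      Ar Q t c x p l → Ar Q t c x l b → Van (mg2 p b l) P) :
    PP Q t c x (R.erase a) (dn Q t c x R a P) where
  sup := by unfold dn; rw [cut_cut (subset_refl _)]
  V r hr p hp hne hc hx := by
    obtain ⟨h1, h2, h3, h4⟩ := mg1_props hp hr
    exact van_dn h1 h2 h3 h4 (hV r hr p hp hne hc hx)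
  W p hp b hb l hl hc hx ha1 ha2 := by
    obtain ⟨h1, h2, h3, h4⟩ := mg2_props hp hb hl
    exact van_dn h1 h2 h3 h4 (hW p hp b hb l hl hc hx ha1 ha2)

/-- values of the operation at positions `s` -/
lemma dn_eval (hs : Sep Q t) (hL : LS Q t c x) {R : Finset ι} {a : ι} {P : MvPolynomial ι K}
    (hP : cut R P = P) (s : ι → HH ι K) (hsY : ∀ p ∈ RY c R (c a), s p = u p) :
    aeval s (dn Q t c x R a P) =
      ∑ l ∈ In Q t c x (c a) (RY c R (c a)) (x a),
        aeval (Function.update s a (yy l)) P *
          wI (In Q t c x (c a) (RY c R (c a)) (x a)) (In Q t c x (c a) (RY c R (c a)) (t * x a))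
            yy l -
      ∑ l ∈ In Q t c x (c a) (RY c R (c a)) (t * x a),
        aeval (Function.update s a (yy l)) P *
          wO (In Q t c x (c a) (RY c R (c a)) (x a)) (In Q t c x (c a) (RY c R (c a)) (t * x a))
            yy l := by
  classical
  set Y := RY c R (c a) with hY
  set A0 := In Q t c x (c a) Y (x a) with hA0
  set O := In Q t c x (c a) Y (t * x a) with hO
  have hpos := pos_of hs hL (i := c a) Y (a := a) rfl
  set s1 : ι → HH ι K := fun p => if p ∈ R.erase a then s p else 0 with hs1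
  have hYR : ∀ p ∈ Y, p ∈ R.erase a := by
    intro p hp
    rw [mem_RY] at hp
    exact mem_erase.2 ⟨fun h => hp.2 (by rw [h]), hp.1⟩
  have hz : ∀ l ∈ A0 ∪ O, aeval s1 (zp l : MvPolynomial ι K) = yy l := by
    intro l hl
    rw [mem_union] at hl
    have key : ∀ p ∈ Y, aeval s1 (X p : MvPolynomial ι K) = u p := by
      intro p hp
      rw [aeval_X, hs1]
      simp only
      rw [if_pos (hYR p hp), hsY p hp]
    rcases hl with hl | hl
    · rcases In_cases hs hL rfl hl with ⟨h1, h2, _⟩ | ⟨p, h1, h2, h3, _⟩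
      · rw [h1, h2, map_zero]
      · rw [h2, h3]; exact key p h1
    · obtain ⟨p, h1, h2, h3, _⟩ := Out_cases hs hL rfl hl
      rw [h2, h3]; exact key p h1
  have hinj : Set.InjOn (fun l => (aeval s1 : MvPolynomial ι K →ₐ[K] HH ι K).toRingHom (zp l))
      (↑(A0 ∪ O) : Set (Lam ι E F)) := by
    intro l hl l' hl' h
    have h1 : aeval s1 (zp l : MvPolynomial ι K) = aeval s1 (zp l') := h
    rw [hz l hl, hz l' hl'] at h1
    exact hpos.inj hl hl' h1
  have hD := (exDc Q t c x Y a).choose_spec (aeval s1 : MvPolynomial ι K →ₐ[K] HH ι K).toRingHom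
    hinj
  have hD' : ∀ n, aeval s1 ((exDc Q t c x Y a).choose n) =
      ∑ l ∈ A0 ∪ O, yy l ^ n * wt (A0 ∪ O) yy l := by
    intro n
    have h1 : aeval s1 ((exDc Q t c x Y a).choose n) = _ := hD n
    rw [h1]
    apply sum_congr rfl
    intro l hl
    have h2 : (aeval s1 : MvPolynomial ι K →ₐ[K] HH ι K).toRingHom (zp l) = yy l := hz l hl
    rw [h2]
    congr 1
    unfold wt
    congr 1
    apply prod_congr rfl
    intro l' hl'
    have h3 : (aeval s1 : MvPolynomial ι K →ₐ[K] HH ι K).toRingHom (zp l') = yy l' :=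
      hz l' (mem_of_mem_erase hl')
    show (aeval s1 : MvPolynomial ι K →ₐ[K] HH ι K).toRingHom (zp l) -
      (aeval s1 : MvPolynomial ι K →ₐ[K] HH ι K).toRingHom (zp l') = _
    rw [h2, h3]
  have hup : ∀ z : HH ι K, ∀ P' : MvPolynomial ι K, cut R P' = P' →
      aeval (Function.update s1 a z) P' = aeval (Function.update s a z) P' := by
    intro z P' hP'
    rw [← hP', cut_eval, cut_eval]
    congr 2
    funext p
    by_cases hp : p ∈ R
    · rw [if_pos hp, if_pos hp]
      by_cases hpa : p = a
      · subst hpa; rw [Function.update_self, Function.update_self]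
      · rw [Function.update_of_ne hpa, Function.update_of_ne hpa, hs1]
        simp only
        rw [if_pos (mem_erase.2 ⟨hpa, hp⟩)]
    · rw [if_neg hp, if_neg hp]
  unfold dn
  rw [cut_eval]
  change aeval s1 (topx a (exDc Q t c x Y a).choose (C ((-1) ^ O.card) * P)) = _
  rw [topx_eval a s1 (A0 ∪ O) yy _ hD', sum_union hpos.dis]
  have hCP : cut R (C ((-1) ^ O.card) * P) = C ((-1) ^ O.card) * P := by
    rw [map_mul, hP]
    congr 1
    rw [← MvPolynomial.algebraMap_eq, AlgHom.commutes]
  have hval : ∀ z : HH ι K, aeval (Function.update s1 a z) (C ((-1) ^ O.card) * P) =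
      (-1) ^ O.card * aeval (Function.update s a z) P := by
    intro z
    rw [hup z _ hCP, map_mul]
    congr 1
    rw [← MvPolynomial.algebraMap_eq, AlgHom.commutes]
    simp
  simp_rw [hval]
  rw [sub_eq_add_neg, ← sum_neg_distrib]
  congr 1
  · apply sum_congr rfl
    intro l hl
    rw [wI_wt hpos.dis yy hl]
    ring
  · apply sum_congr rfl
    intro l hl
    have h1 : wO A0 O (yy : Lam ι E F → HH ι K) l = -((-1) ^ O.card * wt (A0 ∪ O) yy l) := by
      have hlI : l ∉ A0 := fun h' => (disjoint_left.1 hpos.dis) h' hl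
      have h2 : (A0 ∪ O).erase l = A0 ∪ O.erase l := by
        rw [erase_union_distrib, erase_eq_of_notMem hlI]
      unfold wO wt
      rw [h2, prod_union (hpos.dis.mono_right (erase_subset _ _)),
        prod_swap_sub (O.erase l) yy (yy l), mul_inv, mul_inv, card_erase_of_mem hl]
      have hs2 : ∀ n : ℕ, ((-1 : HH ι K) ^ n)⁻¹ = (-1 : HH ι K) ^ n := by
        intro n; rw [← inv_pow]; norm_num
      have hc : O.card = (O.card - 1) + 1 := (Nat.sub_add_cancel (card_pos.2 ⟨l, hl⟩)).symm
      rw [hs2]
      nth_rewrite 2 [hc]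
      rw [pow_succ]
      ring
    rw [h1]
    ring

end Pool.Agent.Run7.h657.Res
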