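import Pool.Agent.Run7.h657.RH

/-! Removal of a letter: the theorem. -/

set_option linter.unusedSectionVars false

namespace Pool.Agent.Run7.h657.Res

open Finset MvPolynomial

variable {ι K I E F : Type*} [LinearOrder ι] [Field K] [Fintype I] [Fintype E] [Fintype F]
  [DecidableEq I] [DecidableEq E] [DecidableEq F] [DecidableEq K]

variable {Q : QD K I E F} {t : K} {c : ι → I} {x : ι → K}

lemma tie_of {A : Finset ι} (σ : A → Lam ι E F) {p : ι} (hp : p ∈ A) :
    tie A σ p = (yy (σ ⟨p, hp⟩) : HH ι K) := by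
  unfold tie
  rw [dif_pos hp]

lemma tie_not {A : Finset ι} (σ : A → Lam ι E F) {p : ι} (hp : p ∉ A) :
    tie A σ p = (u p : HH ι K) := by
  unfold tie
  rw [dif_neg hp]

/-- elimination of all letters of one colour -/
lemma J_elim (hs : Sep Q t) (hL : LS Q t c x) (i : I) (A Y : Finset ι)
    (hA : ∀ a ∈ A, c a = i) (hY : ∀ r ∈ Y, c r ≠ i) (P : MvPolynomial ι K) :
    J Q t c x (A ∪ Y) P = cf Y (PiR Q t c x Y *
      ∑ σ ∈ Fintype.piFinset (fun a : A => In Q t c x i Y (x a.1)),
        MvPolynomial.aeval (tie A σ) P *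
        ∏ a : A, wI (In Q t c x i Y (x a.1)) (In Q t c x i Y (t * x a.1)) yy (σ a)) := by
  unfold J
  rw [PiR_split hs hL i A Y hA hY]
  have h1 : MvPolynomial.aeval (fun p => (u p : HH ι K)) P *
      (PiR Q t c x Y * ∏ a ∈ A, ph1 Q t c x i Y a) =
      PiR Q t c x Y * (MvPolynomial.aeval (fun p => (u p : HH ι K)) P *
        ∏ a ∈ A, ph1 Q t c x i Y a) := by ring
  rw [h1]
  exact elimJ hs hL i A Y hA hY _ (fun a ha => fr_PiR (fun h => hY a h (hA a ha))) Y
    (by rw [disjoint_left]; exact fun a ha ha' => hY a ha' (hA a ha)) P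

lemma tie_mg1 {A : Finset ι} {σ : A → Lam ι E F} {a b : A} (h : σ a = σ b) :
    (tie A σ : ι → HH ι K) ∘ mg1 a.1 b.1 = tie A σ := by
  funext p
  simp only [Function.comp, mg1]
  by_cases hp : p = a.1
  · subst hp
    rw [Function.update_self, tie_of σ b.2, tie_of σ a.2, h]
  · rw [Function.update_of_ne hp]
    rfl

/-- too many letters of one weight -/
lemma J_pigeon (hs : Sep Q t) (hL : LS Q t c x) {R : Finset ι} {P : MvPolynomial ι K}
    (hP : PP Q t c x R P) {i : I} {χ : K}
    (h : (In Q t c x i (RY c R i) χ).card < ((RA c R i).filter (fun a => x a = χ)).card) :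
    J Q t c x R P = 0 := by
  classical
  have h1 := J_elim hs hL i (RA c R i) (RY c R i) (fun a ha => (mem_RA.1 ha).2)
    (fun r hr => (mem_RY.1 hr).2) P
  rw [RA_union] at h1
  rw [h1]
  have h2 : ∑ σ ∈ Fintype.piFinset (fun a : RA c R i => In Q t c x i (RY c R i) (x a.1)),
        MvPolynomial.aeval (tie (RA c R i) σ) P *
        ∏ a : RA c R i, wI (In Q t c x i (RY c R i) (x a.1))
          (In Q t c x i (RY c R i) (t * x a.1)) yy (σ a) = (0 : HH ι K) := by
    apply sum_eq_zero
    intro σ hσ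
    rw [Fintype.mem_piFinset] at hσ
    have hc : (In Q t c x i (RY c R i) χ).card <
        ((RA c R i).attach.filter (fun a => x a.1 = χ)).card := by
      have h4 := Finset.filter_attach (fun a => x a = χ) (RA c R i)
      have h5 := congrArg card h4
      rw [card_map, card_attach] at h5
      rw [h5]
      exact h
    obtain ⟨a, ha, b, hb, hab, hσab⟩ := exists_ne_map_eq_of_card_lt_of_maps_to hc
      (f := σ) (by
        intro a ha
        have h3 := (mem_filter.1 ha).2
        have := hσ a
        rwa [h3] at this)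
    have ha1 := (mem_filter.1 ha).2
    have hb1 := (mem_filter.1 hb).2
    have hne : a.1 ≠ b.1 := fun h => hab (Subtype.ext h)
    have hv := hP.V b.1 (mem_RA.1 b.2).1 a.1 (mem_RA.1 a.2).1 hne
      ((mem_RA.1 a.2).2.trans (mem_RA.1 b.2).2.symm) (ha1.trans hb1.symm)
    rw [hv.eval (tie_mg1 hσab), zero_mul]
  rw [h2, mul_zero, cf_zero]

/-- removal of one letter from a numerator whose other residues vanish -/
lemma J_dn (hs : Sep Q t) (hL : LS Q t c x) {R : Finset ι} {a : ι} (ha : a ∈ R)
    {N : MvPolynomial ι K} (hN : cut R N = N)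
    (hv : ∀ σ : ((RA c R (c a)).erase a : Finset ι) → Lam ι E F,
      (∀ b, σ b ∈ In Q t c x (c a) (RY c R (c a)) (x b.1)) →
      ∀ l ∈ In Q t c x (c a) (RY c R (c a)) (t * x a),
        aeval (Function.update (tie ((RA c R (c a)).erase a) σ) a (yy l : HH ι K)) N = 0) :
    J Q t c x R N = J Q t c x (R.erase a) (dn Q t c x R a N) := by
  classical
  have haA : a ∈ RA c R (c a) := mem_RA.2 ⟨ha, rfl⟩
  have haY : a ∉ RY c R (c a) := fun h => (mem_RY.1 h).2 rfl
  have hA' : ∀ b ∈ (RA c R (c a)).erase a, c b = c a := fun b hb =>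
    (mem_RA.1 (mem_of_mem_erase hb)).2
  have hY' : ∀ r ∈ RY c R (c a), c r ≠ c a := fun r hr => (mem_RY.1 hr).2
  have hR : R = (RA c R (c a)).erase a ∪ insert a (RY c R (c a)) := by
    rw [union_insert, ← insert_union, insert_erase haA, RA_union]
  have hR' : R.erase a = (RA c R (c a)).erase a ∪ RY c R (c a) := by
    have h1 : R.erase a = (RA c R (c a) ∪ RY c R (c a)).erase a := by rw [RA_union]
    rw [h1, erase_union_distrib, erase_eq_of_notMem haY]
  -- left side
  have e1 : J Q t c x R N = cf ((RA c R (c a)).erase a ∪ insert a (RY c R (c a)))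
      ((PiR Q t c x (RY c R (c a)) * ph1 Q t c x (c a) (RY c R (c a)) a) *
        (MvPolynomial.aeval (fun p => (u p : HH ι K)) N *
        ∏ b ∈ (RA c R (c a)).erase a, ph1 Q t c x (c a) (RY c R (c a)) b)) := by
    unfold J
    rw [← hR]
    congr 1
    have h2 : PiR Q t c x R = PiR Q t c x (RY c R (c a)) *
        ∏ b ∈ RA c R (c a), ph1 Q t c x (c a) (RY c R (c a)) b := by
      rw [← PiR_split hs hL (c a) _ _ (fun b hb => (mem_RA.1 hb).2) hY', RA_union]
    rw [h2, ← mul_prod_erase _ _ haA]
    ring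
  have hfrH : ∀ b ∈ (RA c R (c a)).erase a, Fr b (PiR Q t c x (RY c R (c a)) *
      ph1 Q t c x (c a) (RY c R (c a)) a) := by
    intro b hb
    have hbY : b ∉ RY c R (c a) := fun h => hY' b h (hA' b hb)
    apply (fr_PiR hbY).mul
    unfold ph1
    apply fr_phi
    · intro l hl
      rw [mem_union] at hl
      rcases hl with hl | hl
      · exact fr_yy hbY (mem_In.1 hl).1
      · exact fr_yy hbY (mem_In.1 hl).1
    · exact Fr.u (ne_of_mem_erase hb).symm
  have hdis : Disjoint ((RA c R (c a)).erase a) (insert a (RY c R (c a))) := by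
    rw [disjoint_insert_right]
    refine ⟨fun h => (ne_of_mem_erase h) rfl, ?_⟩
    rw [disjoint_left]
    intro b hb hb'
    exact hY' b hb' (hA' b hb)
  rw [e1, elimJ hs hL (c a) _ _ hA' hY' _ hfrH _ hdis N]
  rw [hR', J_elim hs hL (c a) _ _ hA' hY']
  have e2 : ∀ H : HH ι K, ∀ f g : (((RA c R (c a)).erase a : Finset ι) → Lam ι E F) → HH ι K,
      H * ∑ σ ∈ Fintype.piFinset (fun b : ((RA c R (c a)).erase a : Finset ι) =>
        In Q t c x (c a) (RY c R (c a)) (x b.1)), f σ * g σ =
      ∑ σ ∈ Fintype.piFinset (fun b : ((RA c R (c a)).erase a : Finset ι) =>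
        In Q t c x (c a) (RY c R (c a)) (x b.1)), H * (f σ * g σ) := by
    intro H f g
    rw [mul_sum]
  rw [e2, e2, cf_sum, cf_sum]
  apply sum_congr rfl
  intro σ hσ
  rw [Fintype.mem_piFinset] at hσ
  set W : HH ι K := ∏ b : ((RA c R (c a)).erase a : Finset ι),
    wI (In Q t c x (c a) (RY c R (c a)) (x b.1)) (In Q t c x (c a) (RY c R (c a)) (t * x b.1))
      yy (σ b) with hW
  set s : ι → HH ι K := tie ((RA c R (c a)).erase a) σ with hs'
  have hsa : s a = u a := tie_not σ (fun h => (ne_of_mem_erase h) rfl)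
  have hsY : ∀ p ∈ RY c R (c a), s p = u p := by
    intro p hp
    exact tie_not σ (fun h => hY' p hp (hA' p h))
  set G : Polynomial (HH ι K) :=
    (Th a N).map (aeval (Function.update s a 0) : MvPolynomial ι K →ₐ[K] HH ι K).toRingHom with hG
  have hGe : ∀ z : HH ι K, G.eval z = aeval (Function.update s a z) N := by
    intro z
    rw [hG, Polynomial.eval_map, Th_eval, Function.update_idem]
  have hfrs : ∀ p, Fr a (Function.update s a (0 : HH ι K) p) := by
    intro p
    by_cases hp : p = a
    · subst hp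
      rw [Function.update_self]
      exact Fr.zero _
    · rw [Function.update_of_ne hp]
      by_cases hpA : p ∈ (RA c R (c a)).erase a
      · rw [hs', tie_of σ hpA]
        exact fr_yy haY (mem_In.1 (hσ ⟨p, hpA⟩)).1
      · rw [hs', tie_not σ hpA]
        exact Fr.u hp
  have hFG : FrP a G := by
    intro n
    rw [hG, Polynomial.coeff_map]
    exact Fr.aeval hfrs _
  have hpos := pos_of hs hL (i := c a) (RY c R (c a)) (a := a) rfl
  have hres := RES.poly hpos hFG (PiR Q t c x (RY c R (c a)) * W) (RY c R (c a)) (by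
    apply (fr_PiR haY).mul
    rw [hW]
    apply Fr.prod
    intro b _
    apply fr_wI
    · intro l hl
      rw [mem_union] at hl
      rcases hl with hl | hl
      · exact fr_yy haY (mem_In.1 hl).1
      · exact fr_yy haY (mem_In.1 hl).1
    · exact mem_union_left _ (hσ b)) haY
  have hdn := dn_eval hs hL (a := a) hN s hsY
  rw [sum_eq_zero (fun l hl => by rw [hv σ hσ l hl, zero_mul] :
    ∀ l ∈ In Q t c x (c a) (RY c R (c a)) (t * x a),
      aeval (Function.update s a (yy l)) N *
          wO (In Q t c x (c a) (RY c R (c a)) (x a)) (In Q t c x (c a) (RY c R (c a)) (t * x a))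
            yy l = 0), sub_zero] at hdn
  have e3 : PiR Q t c x (RY c R (c a)) * ph1 Q t c x (c a) (RY c R (c a)) a *
      (aeval s N * W) = PiR Q t c x (RY c R (c a)) * W *
      (G.eval (u a) * phi (In Q t c x (c a) (RY c R (c a)) (x a))
        (In Q t c x (c a) (RY c R (c a)) (t * x a)) yy (u a)) := by
    rw [hGe, ← hsa, Function.update_eq_self, hsa]
    unfold ph1
    ring
  rw [e3, hres, hdn]
  congr 1
  simp_rw [hGe]
  ring

end Pool.Agent.Run7.h657.Res
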