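import Pool.Agent.Run7.h657.RI

/-! Removal of a letter from a class: the theorem. -/

set_option linter.unusedSectionVars false

namespace Pool.Agent.Run7.h657.Res

open Finset MvPolynomial

variable {ι K I E F : Type*} [LinearOrder ι] [Field K] [Fintype I] [Fintype E] [Fintype F]
  [DecidableEq I] [DecidableEq E] [DecidableEq F] [DecidableEq K]

variable {Q : QD K I E F} {t : K} {c : ι → I} {x : ι → K}

lemma J_sum (R : Finset ι) {α : Type*} (s : Finset α) (P : α → MvPolynomial ι K) :
    J Q t c x R (∑ b ∈ s, P b) = ∑ b ∈ s, J Q t c x R (P b) := by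
  unfold J
  rw [map_sum, sum_mul, cf_sum]

/-- the decomposition of a numerator along a class -/
lemma dec_class {R : Finset ι} {P : MvPolynomial ι K} (hP : PP Q t c x R P) {c0 : ι}
    (Aψ : Finset ι) (hAψ : Aψ = (RA c R (c c0)).filter (fun a => x a = x c0))
    (G : Polynomial (MvPolynomial ι K)) (hG : G.Monic) (hGd : G.natDegree + 1 = Aψ.card) :
    ∃ Pc : ι → MvPolynomial ι K,
      (∀ c' ∈ Aψ, P = (∏ a ∈ Aψ.erase c', (X c' - X a)) * Pc c' ∧
        ∀ f : ι → ι, Van f P → (∀ a ∈ Aψ.erase c', f c' ≠ f a) → Van f (Pc c')) ∧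
      J Q t c x R P = ∑ c' ∈ Aψ, J Q t c x R (Pc c' * G.eval (X c')) := by
  classical
  have h1 : ∀ c' ∈ Aψ, ∃ P1, P = (∏ a ∈ Aψ.erase c', (X c' - X a)) * P1 ∧
      ∀ f : ι → ι, Van f P → (∀ a ∈ Aψ.erase c', f c' ≠ f a) → Van f P1 := by
    intro c' hc'
    apply Van.divs c' (Aψ.erase c') (fun h => (ne_of_mem_erase h) rfl) P
    intro a ha
    have ha' := mem_of_mem_erase ha
    rw [hAψ, mem_filter, mem_RA] at ha' hc'
    exact hP.V c' hc'.1.1 a ha'.1.1 (ne_of_mem_erase ha) (ha'.1.2.trans hc'.1.2.symm)
      (ha'.2.trans hc'.2.symm)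
  choose! Pc hPc using h1
  refine ⟨Pc, hPc, ?_⟩
  unfold J
  rw [← cf_sum, ← sum_mul]
  congr 2
  set g : MvPolynomial ι K →+* HH ι K :=
    (aeval (fun p => (u p : HH ι K)) : MvPolynomial ι K →ₐ[K] HH ι K).toRingHom with hg
  have hinj : Set.InjOn (fun p => (u p : HH ι K)) Aψ := fun a _ b _ h => u_injective h
  have h2 := sum_wt_monic Aψ (fun p => (u p : HH ι K)) hinj (G.map g) (hG.map g) (by
    rw [hG.natDegree_map g]; exact hGd)
  have h3 : ∀ c', (G.map g).eval (u c') = g (G.eval (X c')) := by
    intro c'
    have : g (X c') = u c' := by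
      rw [hg]
      show aeval (fun p => (u p : HH ι K)) (X c') = _
      rw [aeval_X]
    rw [Polynomial.eval_map, ← this, Polynomial.eval₂_hom]
  have h4 : aeval (fun p => (u p : HH ι K)) P = g P := rfl
  rw [h4]
  calc g P = g P * 1 := (mul_one _).symm
    _ = ∑ c' ∈ Aψ, g P * ((G.map g).eval (u c') * wt Aψ (fun p => (u p : HH ι K)) c') := by
        rw [← h2, mul_sum]
    _ = _ := by
        apply sum_congr rfl
        intro c' hc'
        rw [h3]
        have h5 : g P = (∏ a ∈ Aψ.erase c', (u c' - u a)) * g (Pc c') := by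
          have h6 := congrArg g (hPc c' hc').1
          rw [map_mul, map_prod] at h6
          rw [h6]
          congr 1
          apply prod_congr rfl
          intro a _
          rw [map_sub]
          have : ∀ q, g (X q) = u q := by
            intro q
            show aeval (fun p => (u p : HH ι K)) (X q) = _
            rw [aeval_X]
          rw [this, this]
        have h7 : (∏ a ∈ Aψ.erase c', (u c' - u a : HH ι K)) ≠ 0 := by
          rw [prod_ne_zero_iff]
          intro a ha h0
          exact (ne_of_mem_erase ha) (u_injective (K := K) (sub_eq_zero.1 h0)).symm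
        rw [h5]
        unfold wt
        show _ = g (Pc c' * G.eval (X c'))
        rw [map_mul]
        field_simp

lemma mg2_at {a b l : ι} : mg2 a b l a = l ∧ mg2 a b l b = l ∧
    ∀ q, q ≠ a → q ≠ b → mg2 a b l q = q := by
  unfold mg2
  refine ⟨?_, Function.update_self _ _ _, ?_⟩
  · by_cases hb : a = b
    · subst hb; rw [Function.update_self]
    · rw [Function.update_of_ne hb, Function.update_self]
  · intro q h1 h2
    rw [Function.update_of_ne h2, Function.update_of_ne h1]
    rfl

lemma J_dn' (hs : Sep Q t) (hL : LS Q t c x) {R : Finset ι} {a : ι} (ha : a ∈ R) {i : I}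
    (hi : c a = i) {N : MvPolynomial ι K} (hN : cut R N = N)
    (hv : ∀ σ : ((RA c R i).erase a : Finset ι) → Lam ι E F,
      (∀ b, σ b ∈ In Q t c x i (RY c R i) (x b.1)) →
      ∀ l ∈ In Q t c x i (RY c R i) (t * x a),
        aeval (Function.update (tie ((RA c R i).erase a) σ) a (yy l : HH ι K)) N = 0) :
    J Q t c x R N = J Q t c x (R.erase a) (dn Q t c x R a N) := by
  subst hi
  exact J_dn hs hL ha hN hv

/-- removal of a letter from a class -/
theorem down (hs : Sep Q t) (hL : LS Q t c x) {R : Finset ι} {P : MvPolynomial ι K}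
    (hP : PP Q t c x R P) {c0 : ι}
    (h1 : ((RA c R (c c0)).filter (fun a => x a = t * x c0)).card ≤
      (In Q t c x (c c0) (RY c R (c c0)) (t * x c0)).card)
    (h2 : (In Q t c x (c c0) (RY c R (c c0)) (t * x c0)).card <
      ((RA c R (c c0)).filter (fun a => x a = t * x c0)).card +
      ((RA c R (c c0)).filter (fun a => x a = x c0)).card)
    (hZ : ∀ a ∈ (RA c R (c c0)).filter (fun a => x a = x c0), ∀ P' : MvPolynomial ι K,
      PP Q t c x (R.erase a) P' → J Q t c x (R.erase a) P' = 0) :
    J Q t c x R P = 0 := by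
  classical
  have hA : ∀ a ∈ RA c R (c c0), a ∈ R ∧ c a = c c0 := fun a ha => mem_RA.1 ha
  have hY : ∀ p ∈ RY c R (c c0), p ∈ R ∧ c p ≠ c c0 := fun p hp => mem_RY.1 hp
  obtain ⟨hQm, hQd⟩ := Qp_monic (Q := Q) (t := t) (c := c) (x := x) R c0 h1
  set m := ((RA c R (c c0)).filter (fun a => x a = x c0)).card - 1 -
    ((In Q t c x (c c0) (RY c R (c c0)) (t * x c0)).card -
      ((RA c R (c c0)).filter (fun a => x a = t * x c0)).card) with hm
  have hGm : (Qp Q t c x R c0 * Polynomial.X ^ m).Monic := hQm.mul (Polynomial.monic_X_pow m)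
  have hGd : (Qp Q t c x R c0 * Polynomial.X ^ m).natDegree + 1 =
      ((RA c R (c c0)).filter (fun a => x a = x c0)).card := by
    rw [hQm.natDegree_mul (Polynomial.monic_X_pow m), hQd, Polynomial.natDegree_X_pow, hm]
    omega
  obtain ⟨Pc, hPc, hJ⟩ := dec_class hP _ rfl _ hGm hGd
  rw [hJ]
  apply sum_eq_zero
  intro a haψ
  have ha := mem_filter.1 haψ
  have haR := (hA a ha.1).1
  have hca := (hA a ha.1).2
  have hxa : x a = x c0 := ha.2
  obtain ⟨hPa, hva⟩ := hPc a haψ
  -- the vanishing properties of the quotient
  have hV1 : ∀ r ∈ R, ∀ p ∈ R, p ≠ r → c p = c r → x p = x r → p ≠ a → r ≠ a →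
      Van (mg1 p r) (Pc a) := by
    intro r hr p hp hne hc hx hpa hra
    apply hva _ (hP.V r hr p hp hne hc hx)
    intro b hb
    have hba := ne_of_mem_erase hb
    unfold mg1
    rw [Function.update_of_ne hpa.symm]
    by_cases hbp : b = p
    · subst hbp
      rw [Function.update_self]
      exact hra.symm
    · rw [Function.update_of_ne hbp]
      exact hba.symm
  have hAr : ∀ {r p : ι}, Ar Q t c x r p → c r ≠ c p := by
    rintro r p ⟨e, ⟨h1, h2, _⟩ | ⟨h1, h2, _⟩⟩ h
    · exact hs.hl e (h1.symm.trans (h.trans h2))
    · exact hs.hl e (h2.symm.trans (h.symm.trans h1))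
  have hV2 : ∀ p ∈ R, ∀ b ∈ R, ∀ l ∈ R, c p = c b → x b = t * x p → Ar Q t c x p l →
      Ar Q t c x l b → l ≠ a → b ≠ a → Van (mg2 p b l) (Pc a) := by
    intro p hp b hb l hl hc hx har har' hla hba
    apply hva _ (hP.W p hp b hb l hl hc hx har har')
    intro q hq
    have hqa := ne_of_mem_erase hq
    have hq' := mem_filter.1 (mem_of_mem_erase hq)
    obtain ⟨m1, m2, m3⟩ := mg2_at (a := p) (b := b) (l := l)
    by_cases hpa : p = a
    · -- the letter itself is merged
      rw [← hpa, m1]
      by_cases hqb : q = b
      · exfalso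
        subst hqb
        rw [hpa, hxa] at hx
        rw [hq'.2] at hx
        apply hs.t1
        have h0 := hL.x0 c0
        exact (mul_right_cancel₀ h0 (by rw [one_mul]; exact hx)).symm
      · rw [m3 q (by rw [hpa]; exact hqa) hqb]
        intro h
        apply hAr har
        rw [h, hpa, hca, (hA q hq'.1).2]
    · rw [m3 a (Ne.symm hpa) (Ne.symm hba)]
      by_cases hqp : q = p
      · rw [hqp, m1]; exact hla.symm
      · by_cases hqb : q = b
        · rw [hqb, m2]; exact hla.symm
        · rw [m3 q hqp hqb]; exact hqa.symm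
  have hcut : cut R (Pc a) = Pc a := by
    have h3 : (∏ b ∈ ((RA c R (c c0)).filter (fun a => x a = x c0)).erase a,
        (X a - X b : MvPolynomial ι K)) ≠ 0 := by
      rw [prod_ne_zero_iff]
      intro b hb h0
      exact (ne_of_mem_erase hb) (X_injective (sub_eq_zero.1 h0)).symm
    have h4 := hP.sup
    rw [hPa, map_mul, map_prod] at h4
    have h5 : ∏ b ∈ ((RA c R (c c0)).filter (fun a => x a = x c0)).erase a,
        cut R (X a - X b : MvPolynomial ι K) =
        ∏ b ∈ ((RA c R (c c0)).filter (fun a => x a = x c0)).erase a,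
        (X a - X b : MvPolynomial ι K) := by
      apply prod_congr rfl
      intro b hb
      have hbR := (hA b (mem_filter.1 (mem_of_mem_erase hb)).1).1
      rw [map_sub, cut_X, cut_X, if_pos haR, if_pos hbR]
    rw [h5] at h4
    exact mul_left_cancel₀ h3 h4
  have hzcut : ∀ l ∈ In Q t c x (c c0) (RY c R (c c0)) (t * x c0),
      cut R (zp l : MvPolynomial ι K) = zp l := by
    intro l hl
    have hl' : l ∈ In Q t c x (c a) (RY c R (c a)) (t * x a) := by rw [hca, hxa]; exact hl
    obtain ⟨p, hp, _, h4, _⟩ := Out_cases hs hL rfl hl'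
    rw [h4, cut_X, if_pos]
    exact (mem_RY.1 hp).1
  have hQcut : (Qp Q t c x R c0).map (cut R : MvPolynomial ι K →ₐ[K] MvPolynomial ι K).toRingHom =
      Qp Q t c x R c0 := by
    rw [Qp_map]
    unfold Qp
    congr 1
    · apply prod_congr rfl
      intro l hl
      have : (cut R : MvPolynomial ι K →ₐ[K] MvPolynomial ι K).toRingHom (zp l) = zp l :=
        hzcut l hl
      rw [this]
    · apply prod_congr rfl
      intro b hb
      have : (cut R : MvPolynomial ι K →ₐ[K] MvPolynomial ι K).toRingHom (X b) = X b := by
        show cut R (X b) = X b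
        rw [cut_X, if_pos (hA b (mem_filter.1 hb).1).1]
      rw [this]
  have hNcut : cut R (Pc a * (Qp Q t c x R c0 * Polynomial.X ^ m).eval (X a)) =
      Pc a * (Qp Q t c x R c0 * Polynomial.X ^ m).eval (X a) := by
    rw [map_mul, hcut]
    congr 1
    rw [Polynomial.eval_mul, Polynomial.eval_pow, Polynomial.eval_X, map_mul, map_pow, cut_X,
      if_pos haR]
    congr 1
    have h6 := Polynomial.eval₂_hom
      (cut R : MvPolynomial ι K →ₐ[K] MvPolynomial ι K).toRingHom (X a) (p := Qp Q t c x R c0)
    have h7 : (cut R : MvPolynomial ι K →ₐ[K] MvPolynomial ι K).toRingHom (X a) = X a := by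
      show cut R (X a) = X a
      rw [cut_X, if_pos haR]
    rw [h7, ← Polynomial.eval_map, hQcut] at h6
    exact h6.symm
  rw [J_dn' hs hL haR hca hNcut]
  · apply hZ a haψ
    apply dn_PP
    · intro r hr p hp hne hc hx
      exact (hV1 r (mem_of_mem_erase hr) p (mem_of_mem_erase hp) hne hc hx
        (ne_of_mem_erase hp) (ne_of_mem_erase hr)).mul _
    · intro p hp b hb l hl hc hx har har'
      exact (hV2 p (mem_of_mem_erase hp) b (mem_of_mem_erase hb) l (mem_of_mem_erase hl)
        hc hx har har' (ne_of_mem_erase hl) (ne_of_mem_erase hb)).mul _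
  · -- vanishing of the other residues
    intro σ hσ l hl
    obtain ⟨p, hp, hyl, _, harap, _⟩ := Out_cases hs hL hca hl
    have hpa : p ≠ a := by
      intro h
      exact (hY p hp).2 (by rw [h]; exact hca)
    have hpA : p ∉ (RA c R (c c0)).erase a := fun h =>
      (hY p hp).2 (hA p (mem_of_mem_erase h)).2
    set s' : ι → HH ι K := Function.update (tie ((RA c R (c c0)).erase a) σ) a (yy l) with hs'
    have hs'a : s' a = yy l := Function.update_self _ _ _
    have hs'p : s' p = yy l := by
      rw [hs', Function.update_of_ne hpa, tie_not σ hpA, hyl]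
    have hs't : ∀ (b : ι) (hb : b ∈ (RA c R (c c0)).erase a), s' b = yy (σ ⟨b, hb⟩) := by
      intro b hb
      rw [hs', Function.update_of_ne (ne_of_mem_erase hb), tie_of σ hb]
    rw [map_mul]
    by_cases hex : ∃ b : ((RA c R (c c0)).erase a : Finset ι), x b.1 = t * x c0 ∧ σ b = l
    · -- a wheel
      obtain ⟨b, hxb, hσb⟩ := hex
      have hbA := mem_of_mem_erase b.2
      have hbne : b.1 ≠ a := ne_of_mem_erase b.2
      have hIn := hσ b
      rw [hσb] at hIn
      have harpb : Ar Q t c x p b.1 := by
        rcases In_cases hs hL (hA b.1 hbA).2 hIn with ⟨h3, _⟩ | ⟨p', hp', h3, _, h4, _⟩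
        · exfalso
          rw [hyl] at h3
          exact u_ne p h3
        · rw [hyl] at h3
          rw [u_injective h3]
          exact h4
      have hv := hV2 a haR b.1 (hA b.1 hbA).1 p (hY p hp).1 (hca.trans (hA b.1 hbA).2.symm)
        (by rw [hxb, hxa]) harap harpb hpa hbne
      have hcomp : s' ∘ mg2 a b.1 p = s' := by
        obtain ⟨m1, m2, m3⟩ := mg2_at (a := a) (b := b.1) (l := p)
        funext q
        simp only [Function.comp]
        by_cases hqa : q = a
        · rw [hqa, m1, hs'p, hs'a]
        · by_cases hqb : q = b.1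
          · rw [hqb, m2, hs'p, hs't b.1 b.2, hσb]
          · rw [m3 q hqa hqb]
      rw [hv.eval hcomp, zero_mul]
    · push Not at hex
      by_cases hinj : Set.InjOn (fun b : ι => s' b)
          (↑((RA c R (c c0)).filter (fun a => x a = t * x c0)) : Set ι)
      · -- a root of the auxiliary polynomial
        have hroot : aeval s' ((Qp Q t c x R c0 * Polynomial.X ^ m).eval (X a)) = 0 := by
          rw [Polynomial.eval_mul, map_mul]
          have h6 := Polynomial.eval₂_hom
            (aeval s' : MvPolynomial ι K →ₐ[K] HH ι K).toRingHom (X a) (p := Qp Q t c x R c0)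
          have h7 : (aeval s' : MvPolynomial ι K →ₐ[K] HH ι K).toRingHom (X a) = yy l := by
            show aeval s' (X a) = _
            rw [aeval_X, hs'a]
          have h8 : (aeval s' : MvPolynomial ι K →ₐ[K] HH ι K).toRingHom
              ((Qp Q t c x R c0).eval (X a)) = aeval s' ((Qp Q t c x R c0).eval (X a)) := rfl
          rw [h7, ← Polynomial.eval_map, Qp_map, h8] at h6
          rw [← h6]
          have hmemA' : ∀ b ∈ (RA c R (c c0)).filter (fun a => x a = t * x c0),
              b ∈ (RA c R (c c0)).erase a := by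
            intro b hb
            rw [mem_filter] at hb
            refine mem_erase.2 ⟨?_, hb.1⟩
            intro h
            rw [h, hxa] at hb
            apply hs.t1
            have h0 := hL.x0 c0
            exact (mul_right_cancel₀ h0 (by rw [one_mul]; exact hb.2)).symm
          set σ' : ι → Lam ι E F := fun b => if hb : b ∈ (RA c R (c c0)).erase a then σ ⟨b, hb⟩
            else l with hσ'
          have hσ'e : ∀ (b : ι) (hb : b ∈ (RA c R (c c0)).erase a), σ' b = σ ⟨b, hb⟩ := by
            intro b hb
            rw [hσ']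
            simp only
            rw [dif_pos hb]
          have e1 : ∏ l' ∈ In Q t c x (c c0) (RY c R (c c0)) (t * x c0),
              (Polynomial.X - Polynomial.C
                ((aeval s' : MvPolynomial ι K →ₐ[K] HH ι K).toRingHom (zp l'))) =
              ∏ l' ∈ In Q t c x (c c0) (RY c R (c c0)) (t * x c0),
                (Polynomial.X - Polynomial.C (yy l' : HH ι K)) := by
            apply prod_congr rfl
            intro l' hl'
            have hl'' : l' ∈ In Q t c x (c c0) (RY c R (c c0)) (t * x a) := by
              rw [hxa]; exact hl'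
            obtain ⟨p', hp', h3, h4, _⟩ := Out_cases hs hL hca hl''
            have : (aeval s' : MvPolynomial ι K →ₐ[K] HH ι K).toRingHom (zp l') = yy l' := by
              show aeval s' (zp l') = _
              rw [h3, h4, aeval_X, hs', Function.update_of_ne, tie_not]
              · exact fun h => (hY p' hp').2 (hA p' (mem_of_mem_erase h)).2
              · intro h
                exact (hY p' hp').2 (by rw [h]; exact hca)
            rw [this]
          have e2 : ∏ b ∈ (RA c R (c c0)).filter (fun a => x a = t * x c0),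
              (Polynomial.X - Polynomial.C
                ((aeval s' : MvPolynomial ι K →ₐ[K] HH ι K).toRingHom (X b))) =
              ∏ b ∈ (RA c R (c c0)).filter (fun a => x a = t * x c0),
                (Polynomial.X - Polynomial.C (yy (σ' b) : HH ι K)) := by
            apply prod_congr rfl
            intro b hb
            have : (aeval s' : MvPolynomial ι K →ₐ[K] HH ι K).toRingHom (X b) = yy (σ' b) := by
              show aeval s' (X b) = _
              rw [aeval_X, hs't b (hmemA' b hb), hσ'e b (hmemA' b hb)]
            rw [this]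
          rw [e1, e2]
          have hl' : l ∈ In Q t c x (c c0) (RY c R (c c0)) (t * x c0) := by
            rw [← hxa]; exact hl
          rw [div_eval_zero (In Q t c x (c c0) (RY c R (c c0)) (t * x c0))
            ((RA c R (c c0)).filter (fun a => x a = t * x c0)) yy _ σ' _ _ hl' _, zero_mul]
          · intro l1 h1' l2 h2' h12
            have hh := (pos_of hs hL (i := c c0) (RY c R (c c0)) (a := a) hca).inj
            apply hh _ _ h12
            · rw [mem_coe, mem_union, hxa]; exact Or.inr h1'
            · rw [mem_coe, mem_union, hxa]; exact Or.inr h2'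
          · intro b1 hb1 b2 hb2 h12
            apply hinj hb1 hb2
            show s' b1 = s' b2
            rw [hs't b1 (hmemA' b1 hb1), hs't b2 (hmemA' b2 hb2), ← hσ'e b1 (hmemA' b1 hb1),
              ← hσ'e b2 (hmemA' b2 hb2), h12]
          · intro b hb
            rw [hσ'e b (hmemA' b hb)]
            have := hσ ⟨b, hmemA' b hb⟩
            rwa [(mem_filter.1 hb).2] at this
          · intro b hb
            rw [hσ'e b (hmemA' b hb)]
            exact hex ⟨b, hmemA' b hb⟩ (mem_filter.1 hb).2
        rw [hroot, mul_zero]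
      · -- two letters at the same position
        unfold Set.InjOn at hinj
        push Not at hinj
        obtain ⟨b1, hb1, b2, hb2, hss, hne⟩ := hinj
        rw [mem_coe, mem_filter] at hb1 hb2
        have hna : ∀ b, b ∈ RA c R (c c0) → x b = t * x c0 → b ≠ a := by
          intro b _ hxb h
          rw [h, hxa] at hxb
          apply hs.t1
          have h0 := hL.x0 c0
          exact (mul_right_cancel₀ h0 (by rw [one_mul]; exact hxb)).symm
        have hv := hV1 b2 (hA b2 hb2.1).1 b1 (hA b1 hb1.1).1 hne
          ((hA b1 hb1.1).2.trans (hA b2 hb2.1).2.symm) (hb1.2.trans hb2.2.symm)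
          (hna b1 hb1.1 hb1.2) (hna b2 hb2.1 hb2.2)
        have hcomp : s' ∘ mg1 b1 b2 = s' := by
          funext q
          simp only [Function.comp, mg1]
          by_cases hq : q = b1
          · rw [hq, Function.update_self]
            exact hss.symm
          · rw [Function.update_of_ne hq]
            rfl
        rw [hv.eval hcomp, zero_mul]

end Pool.Agent.Run7.h657.Res
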