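import Pool.Agent.Run7.h657.RJ

/-! Vanishing of residues for dimension vectors whose reflection is a dimension vector with
vanishing residues. -/

set_option linter.unusedSectionVars false

namespace Pool.Agent.Run7.h657.Res

open Finset MvPolynomial

section comb

variable {K : Type*} [Field K] [DecidableEq K]

/-- negative part -/
noncomputable def Ng (f : K →₀ ℤ) : ℤ := f.sum fun _ n => max (-n) 0

lemma Ng_eq (f : K →₀ ℤ) (S : Finset K) (h : f.support ⊆ S) :
    Ng f = ∑ k ∈ S, max (-(f k)) 0 := by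
  unfold Ng
  exact Finsupp.sum_of_support_subset f h _ (by simp)

lemma Ng_add (f : K →₀ ℤ) (χ : K) :
    Ng (f + Finsupp.single χ 1) = Ng f - max (-(f χ)) 0 + max (-(f χ + 1)) 0 := by
  classical
  set S := insert χ (f.support ∪ (f + Finsupp.single χ 1).support) with hS
  have h1 : f.support ⊆ S := (subset_union_left).trans (subset_insert _ _)
  have h2 : (f + Finsupp.single χ 1).support ⊆ S := (subset_union_right).trans (subset_insert _ _)
  rw [Ng_eq f S h1, Ng_eq _ S h2]
  have hmem : χ ∈ S := mem_insert_self _ _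
  rw [← add_sum_erase S _ hmem, ← add_sum_erase S _ hmem]
  have h3 : ∑ k ∈ S.erase χ, max (-((f + Finsupp.single χ 1 : K →₀ ℤ) k)) 0 =
      ∑ k ∈ S.erase χ, max (-(f k)) 0 := by
    apply sum_congr rfl
    intro k hk
    rw [Finsupp.add_apply, Finsupp.single_apply, if_neg (ne_of_mem_erase hk).symm, add_zero]
  rw [h3, Finsupp.add_apply, Finsupp.single_apply, if_pos rfl]
  ring

lemma Ng_neg {f : K →₀ ℤ} {χ : K} (h : f χ < 0) : Ng (f + Finsupp.single χ 1) = Ng f - 1 := by
  rw [Ng_add, max_eq_left (by omega), max_eq_left (by omega)]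
  ring

lemma Ng_nonneg {f : K →₀ ℤ} {χ : K} (h : 0 ≤ f χ) : Ng (f + Finsupp.single χ 1) = Ng f := by
  rw [Ng_add, max_eq_right (by omega), max_eq_right (by omega)]
  ring

lemma Ng_ge (f : K →₀ ℤ) : -(f.sum fun _ n => n) ≤ Ng f := by
  unfold Ng Finsupp.sum
  rw [← sum_neg_distrib]
  apply sum_le_sum
  intro k _
  exact le_max_left _ _

lemma Ng_choice {f : K →₀ ℤ} {q : K} (hq : ∀ k : ℕ, 0 < k → q ^ k ≠ 1) (hq0 : q ≠ 0)
    (h0 : f 0 = 0) (h : 0 < Ng f) : ∃ χ, χ ≠ 0 ∧ f χ < 0 ∧ 0 ≤ f (q * χ) := by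
  classical
  obtain ⟨χ0, hχ0⟩ : ∃ χ, f χ < 0 := by
    by_contra hcon
    push Not at hcon
    have : Ng f = 0 := by
      unfold Ng Finsupp.sum
      apply sum_eq_zero
      intro k _
      exact max_eq_right (by have := hcon k; omega)
    omega
  have hne : χ0 ≠ 0 := by
    rintro rfl
    omega
  have hinj : Function.Injective (fun k : ℕ => q ^ k * χ0) := by
    intro a b hab
    have h1 : q ^ a = q ^ b := mul_right_cancel₀ hne hab
    rcases lt_trichotomy a b with h2 | h2 | h2
    · exfalso
      apply hq (b - a) (by omega)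
      have h3 : q ^ b = q ^ a * q ^ (b - a) := by rw [← pow_add]; congr 1; omega
      rw [h3] at h1
      exact (mul_left_cancel₀ (pow_ne_zero a hq0) (by rw [mul_one]; exact h1)).symm
    · exact h2
    · exfalso
      apply hq (a - b) (by omega)
      have h3 : q ^ a = q ^ b * q ^ (a - b) := by rw [← pow_add]; congr 1; omega
      rw [h3] at h1
      exact mul_left_cancel₀ (pow_ne_zero b hq0) (by rw [mul_one]; exact h1)
  have hex : ∃ k : ℕ, 0 ≤ f (q ^ k * χ0) := by
    by_contra hcon
    push Not at hcon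
    have h1 : ∀ k : ℕ, q ^ k * χ0 ∈ f.support := by
      intro k
      rw [Finsupp.mem_support_iff]
      exact (hcon k).ne
    exact (Set.infinite_range_of_injective hinj)
      (f.support.finite_toSet.subset (by rintro _ ⟨k, rfl⟩; exact h1 k))
  set k := Nat.find hex with hk
  have hk1 : 0 ≤ f (q ^ k * χ0) := Nat.find_spec hex
  have hk0 : k ≠ 0 := by
    intro h'
    rw [h', pow_zero, one_mul] at hk1
    omega
  obtain ⟨j, hj⟩ := Nat.exists_eq_succ_of_ne_zero hk0
  have hj1 : ¬ 0 ≤ f (q ^ j * χ0) := Nat.find_min hex (by omega)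
  refine ⟨q ^ j * χ0, mul_ne_zero (pow_ne_zero j hq0) hne, by omega, ?_⟩
  rw [hj, pow_succ] at hk1
  rwa [← mul_assoc, mul_comm q]

end comb

variable {ι K I E F : Type*} [LinearOrder ι] [Field K] [Fintype I] [Fintype E] [Fintype F]
  [DecidableEq I] [DecidableEq E] [DecidableEq F] [DecidableEq K]

variable {Q : QD K I E F} {t : K} {c : ι → I} {x : ι → K}

/-- ranks of the graded complex at a vertex -/
noncomputable def rk (Q : QD K I E F) (t : K) (c : ι → I) (x : ι → K) (i : I) (A Y : Finset ι) :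
    K →₀ ℤ :=
  (∑ l ∈ Ls Q c i Y, Finsupp.single (kap Q t x l) 1) - (∑ a ∈ A, Finsupp.single (x a) 1) -
    ∑ a ∈ A, Finsupp.single (t * x a) 1

lemma rk_apply (i : I) (A Y : Finset ι) (χ : K) :
    rk Q t c x i A Y χ = (In Q t c x i Y χ).card - (A.filter (fun a => x a = χ)).card -
      (A.filter (fun a => t * x a = χ)).card := by
  unfold rk In
  rw [Finsupp.sub_apply, Finsupp.sub_apply, Finsupp.finsetSum_apply, Finsupp.finsetSum_apply,
    Finsupp.finsetSum_apply]
  simp only [Finsupp.single_apply]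
  rw [← sum_filter, ← sum_filter, ← sum_filter]
  simp

lemma rk_sum (i : I) (A Y : Finset ι) :
    ((rk Q t c x i A Y).sum fun _ n => n) = (Ls Q c i Y).card - 2 * (A.card : ℤ) := by
  have h1 : ∀ f : K →₀ ℤ, (f.sum fun _ n => n) = Finsupp.degree f := fun f => rfl
  rw [h1]
  unfold rk
  rw [map_sub, map_sub, map_sum, map_sum, map_sum]
  simp only [Finsupp.degree_single, sum_const, nsmul_eq_mul, mul_one]
  ring

lemma rk_erase (i : I) {A Y : Finset ι} {a : ι} (ha : a ∈ A) :
    rk Q t c x i (A.erase a) Y =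
      rk Q t c x i A Y + Finsupp.single (x a) 1 + Finsupp.single (t * x a) 1 := by
  unfold rk
  rw [← add_sum_erase A (fun a => Finsupp.single (x a) (1 : ℤ)) ha,
    ← add_sum_erase A (fun a => Finsupp.single (t * x a) (1 : ℤ)) ha]
  abel

lemma rk_insert (i : I) {A Y : Finset ι} {a : ι} (ha : a ∉ A) :
    -rk Q t c x i (insert a A) Y =
      -rk Q t c x i A Y + Finsupp.single (x a) 1 + Finsupp.single (t * x a) 1 := by
  unfold rk
  rw [sum_insert ha, sum_insert ha]
  abel

lemma kap_ne (hs : Sep Q t) (hx : ∀ p, x p ≠ 0) (hfa : ∀ f, Q.fa f ≠ 0) (l : Lam ι E F) :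
    kap Q t x l ≠ 0 := by
  rcases l with ⟨e, p⟩ | ⟨e, p⟩ | f
  · exact div_ne_zero (hx p) (hs.te0 e)
  · exact mul_ne_zero (mul_ne_zero hs.t0 (hs.te0 e)) (hx p)
  · exact hfa f

lemma LS.fa0 (hL : LS Q t c x) (f : F) : Q.fa f ≠ 0 := by
  obtain ⟨p, _, h2⟩ := hL.sr f
  rw [← h2]
  exact hL.x0 p

lemma rk_zero (hs : Sep Q t) (hL : LS Q t c x) (i : I) (A Y : Finset ι) :
    rk Q t c x i A Y 0 = 0 := by
  rw [rk_apply]
  have h1 : In Q t c x i Y 0 = ∅ := by
    unfold In
    rw [filter_eq_empty_iff]
    intro l _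
    exact kap_ne hs hL.x0 hL.fa0 l
  have h2 : A.filter (fun a => x a = 0) = ∅ := by
    rw [filter_eq_empty_iff]
    intro a _
    exact hL.x0 a
  have h3 : A.filter (fun a => t * x a = 0) = ∅ := by
    rw [filter_eq_empty_iff]
    intro a _
    exact mul_ne_zero hs.t0 (hL.x0 a)
  rw [h1, h2, h3]
  simp

lemma RA_of {i : I} {A Y : Finset ι} (hA : ∀ a ∈ A, c a = i) (hY : ∀ r ∈ Y, c r ≠ i) :
    RA c (A ∪ Y) i = A := by
  ext r
  rw [mem_RA, mem_union]
  constructor
  · rintro ⟨h | h, h2⟩
    · exact h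
    · exact absurd h2 (hY r h)
  · intro h
    exact ⟨Or.inl h, hA r h⟩

lemma RY_of {i : I} {A Y : Finset ι} (hA : ∀ a ∈ A, c a = i) (hY : ∀ r ∈ Y, c r ≠ i) :
    RY c (A ∪ Y) i = Y := by
  ext r
  rw [mem_RY, mem_union]
  constructor
  · rintro ⟨h | h, h2⟩
    · exact absurd (hA r h) h2
    · exact h
  · intro h
    exact ⟨Or.inr h, hY r h⟩

/-- a fresh letter in a class with neighbours -/
lemma exists_letter (hL : LS Q t c x) {i : I} {Y : Finset ι} {χ : K}
    (h : (In Q t c x i Y χ).Nonempty) (hs : Sep Q t) (R : Finset ι) :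
    ∃ d, d ∉ R ∧ c d = i ∧ x d = χ := by
  have h1 : ∃ p, c p = i ∧ x p = χ := by
    obtain ⟨l, hl⟩ := h
    rw [mem_In] at hl
    obtain ⟨hl, hk⟩ := hl
    rcases l with ⟨e, r⟩ | ⟨e, p⟩ | f
    · rw [mem_Ls_inl] at hl
      obtain ⟨p, h1, h2⟩ := hL.sf e r hl.2.2
      refine ⟨p, h1.trans hl.2.1, ?_⟩
      rw [← hk]
      simp only [kap]
      rw [eq_div_iff (hs.te0 e), ← h2]
      ring
    · rw [mem_Ls_inr] at hl
      obtain ⟨r, h1, h2⟩ := hL.sb e p hl.2.2
      exact ⟨r, h1.trans hl.2.1, h2.trans hk⟩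
    · rw [mem_Ls_fr] at hl
      obtain ⟨p, h1, h2⟩ := hL.sr f
      exact ⟨p, h1.trans hl, h2.trans hk⟩
  obtain ⟨p, h2, h3⟩ := h1
  obtain ⟨d, h4, h5, h6⟩ := hL.fresh p R
  exact ⟨d, h4, h5.trans h2, h6.trans h3⟩

lemma Z_down (hs : Sep Q t) (hL : LS Q t c x) {i : I} {n' : ℕ} {Y : Finset ι}
    (hY : ∀ r ∈ Y, c r ≠ i)
    (hZ : ∀ A : Finset ι, (∀ a ∈ A, c a = i) → A.card = n' → ∀ P : MvPolynomial ι K,
      PP Q t c x (A ∪ Y) P → J Q t c x (A ∪ Y) P = 0) :
    ∀ (m : ℕ) (A : Finset ι), (∀ a ∈ A, c a = i) → A.card = n' + m →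
      (m : ℤ) ≤ Ng (rk Q t c x i A Y) → ∀ P : MvPolynomial ι K,
      PP Q t c x (A ∪ Y) P → J Q t c x (A ∪ Y) P = 0 := by
  intro m
  induction m with
  | zero =>
    intro A hA hc _ P hP
    exact hZ A hA (by omega) P hP
  | succ m ih =>
    intro A hA hc hN P hP
    have htinv : ∀ k : ℕ, 0 < k → t⁻¹ ^ k ≠ 1 := by
      intro k hk h
      rw [inv_pow, inv_eq_one] at h
      exact hs.tt k hk h
    obtain ⟨χ, hχ0, hχ1, hχ2⟩ := Ng_choice htinv (inv_ne_zero hs.t0) (rk_zero hs hL i A Y)
      (by push_cast at hN; omega)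
    have hRA := RA_of hA hY
    have hRY := RY_of hA hY
    by_cases hpig : (In Q t c x i Y χ).card < (A.filter (fun a => x a = χ)).card
    · apply J_pigeon hs hL hP (i := i) (χ := χ)
      rw [hRA, hRY]
      exact hpig
    · have hrk := rk_apply (Q := Q) (t := t) (c := c) (x := x) i A Y χ
      have hne : (A.filter (fun a => t * x a = χ)).Nonempty := by
        rw [← card_pos]
        omega
      obtain ⟨c0, hc0⟩ := hne
      rw [mem_filter] at hc0
      have hci : c c0 = i := hA c0 hc0.1
      have hcls : A.filter (fun a => t * x a = χ) = A.filter (fun a => x a = x c0) := by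
        apply filter_congr
        intro a _
        rw [← hc0.2, mul_right_inj' hs.t0]
      apply down hs hL hP (c0 := c0)
      · rw [hci, hRA, hRY, hc0.2]; omega
      · rw [hci, hRA, hRY, hc0.2, ← hcls]; omega
      · intro a ha P' hP'
        rw [hci, hRA, mem_filter] at ha
        have hca := hA a ha.1
        have haY : a ∉ Y := fun h => hY a h hca
        have he : (A ∪ Y).erase a = A.erase a ∪ Y := by
          rw [erase_union_distrib, erase_eq_of_notMem haY]
        rw [he] at hP' ⊢
        apply ih (A.erase a) (fun b hb => hA b (mem_of_mem_erase hb)) _ _ P' hP'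
        · rw [card_erase_of_mem ha.1]; omega
        · have hta : t * x a = χ := by rw [ha.2, hc0.2]
          have hxa : x a = t⁻¹ * χ := by rw [← hta, inv_mul_cancel_left₀ hs.t0]
          rw [rk_erase i ha.1, hta, Ng_neg, Ng_nonneg]
          · push_cast at hN; omega
          · rw [hxa]; exact hχ2
          · rw [Finsupp.add_apply, Finsupp.single_apply, if_neg, add_zero]
            · exact hχ1
            · intro h
              rw [← hta] at h
              apply hs.t1
              have h0 := hL.x0 a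
              exact (mul_right_cancel₀ h0 (by rw [one_mul]; exact h)).symm

lemma Z_up (hs : Sep Q t) (hL : LS Q t c x) {i : I} {n' : ℕ} {Y : Finset ι}
    (hY : ∀ r ∈ Y, c r ≠ i)
    (hZ : ∀ A : Finset ι, (∀ a ∈ A, c a = i) → A.card = n' → ∀ P : MvPolynomial ι K,
      PP Q t c x (A ∪ Y) P → J Q t c x (A ∪ Y) P = 0) :
    ∀ (m : ℕ) (A : Finset ι), (∀ a ∈ A, c a = i) → A.card + m = n' →
      (m : ℤ) ≤ Ng (-rk Q t c x i A Y) → ∀ P : MvPolynomial ι K,
      PP Q t c x (A ∪ Y) P → J Q t c x (A ∪ Y) P = 0 := by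
  intro m
  induction m with
  | zero =>
    intro A hA hc _ P hP
    exact hZ A hA (by omega) P hP
  | succ m ih =>
    intro A hA hc hN P hP
    obtain ⟨χ, hχ0, hχ1, hχ2⟩ := Ng_choice hs.tt hs.t0
      (by rw [Finsupp.neg_apply, rk_zero hs hL i A Y, neg_zero])
      (by push_cast at hN; omega)
    have hRA := RA_of hA hY
    have hRY := RY_of hA hY
    have hrk := rk_apply (Q := Q) (t := t) (c := c) (x := x) i A Y χ
    rw [Finsupp.neg_apply] at hχ1
    obtain ⟨d, hdR, hcd, hxd⟩ := exists_letter hL (i := i) (Y := Y) (χ := χ)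
      (by rw [← card_pos]; omega) hs (A ∪ Y)
    obtain ⟨k, hk⟩ : ∃ k, (In Q t c x i Y χ).card = (A.filter (fun a => x a = χ)).card +
        (A.filter (fun a => t * x a = χ)).card + 1 + k := by
      refine ⟨(In Q t c x i Y χ).card - ((A.filter (fun a => x a = χ)).card +
        (A.filter (fun a => t * x a = χ)).card + 1), ?_⟩
      omega
    have hup := up_J hs hL hdR hP.sup k (by rw [hcd, hRA, hRY, hxd]; exact hk)
    rw [← hup]
    have hdA : d ∉ A := fun h => hdR (mem_union_left _ h)
    have he : insert d (A ∪ Y) = insert d A ∪ Y := by rw [insert_union]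
    have hPP := up_PP hs hL (d := d) hP k
    rw [he] at hPP ⊢
    apply ih (insert d A) _ _ _ _ hPP
    · intro a ha
      rw [mem_insert] at ha
      rcases ha with rfl | ha
      · exact hcd
      · exact hA a ha
    · rw [card_insert_of_notMem hdA]; omega
    · rw [rk_insert i hdA, add_right_comm, hxd, Ng_neg, Ng_nonneg]
      · push_cast at hN; omega
      · exact hχ2
      · rw [Finsupp.add_apply, Finsupp.neg_apply, Finsupp.single_apply, if_neg, add_zero]
        · exact hχ1
        · intro h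
          apply hs.t1
          exact mul_right_cancel₀ hχ0 (by rw [one_mul]; exact h)

/-- vanishing of all residues for a dimension vector -/
def Zst (Q : QD K I E F) (t : K) (c : ι → I) (x : ι → K) (D : I → ℤ) : Prop :=
  ∀ R : Finset ι, (∀ j, ((RA c R j).card : ℤ) = D j) → ∀ P : MvPolynomial ι K,
    PP Q t c x R P → J Q t c x R P = 0

/-- vacuous case -/
lemma Zst_neg {D : I → ℤ} {j : I} (h : D j < 0) : Zst Q t c x D := by
  intro R hR
  have := hR j
  omega

lemma card_Ls (hs : Sep Q t) (i : I) (R : Finset ι) :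
    ((Ls Q c i (RY c R i)).card : ℤ) =
      (∑ e, ((if Q.tgt e = i then ((RA c R (Q.src e)).card : ℤ) else 0) +
        (if Q.src e = i then ((RA c R (Q.tgt e)).card : ℤ) else 0))) +
      (univ.filter fun f => Q.cF f = i).card := by
  unfold Ls
  rw [card_disjSum, card_disjSum]
  push_cast
  rw [sum_add_distrib, add_assoc]
  congr 1
  · rw [card_filter, sum_product]
    push_cast
    apply sum_congr rfl
    intro e _
    split_ifs with h
    · have h1 : RA c R (Q.src e) = (RY c R i).filter fun r => c r = Q.src e := by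
        ext r
        rw [mem_RA, mem_filter, mem_RY]
        constructor
        · rintro ⟨h2, h3⟩
          exact ⟨⟨h2, by rw [h3, ← h]; exact hs.hl e⟩, h3⟩
        · rintro ⟨h2, h3⟩
          exact ⟨h2.1, h3⟩
      rw [h1, card_filter]
      push_cast
      apply sum_congr rfl
      intro r _
      simp [h]
    · apply sum_eq_zero
      intro r _
      simp [h]
  · congr 1
    rw [card_filter, sum_product]
    push_cast
    apply sum_congr rfl
    intro e _
    split_ifs with h
    · have h1 : RA c R (Q.tgt e) = (RY c R i).filter fun r => c r = Q.tgt e := by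
        ext r
        rw [mem_RA, mem_filter, mem_RY]
        constructor
        · rintro ⟨h2, h3⟩
          exact ⟨⟨h2, by rw [h3, ← h]; exact (hs.hl e).symm⟩, h3⟩
        · rintro ⟨h2, h3⟩
          exact ⟨h2.1, h3⟩
      rw [h1, card_filter]
      push_cast
      apply sum_congr rfl
      intro r _
      simp [h]
    · apply sum_eq_zero
      intro r _
      simp [h]

/-- the vanishing property is invariant under reflections -/
theorem Zst_refl (hs : Sep Q t) (hL : LS Q t c x) (i : I) {D D' : I → ℤ}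
    (h1 : ∀ j, j ≠ i → D' j = D j)
    (h2 : D' i = (∑ e, ((if Q.tgt e = i then D (Q.src e) else 0) +
        (if Q.src e = i then D (Q.tgt e) else 0))) +
      (univ.filter fun f => Q.cF f = i).card - D i) (hZ : Zst Q t c x D') : Zst Q t c x D := by
  classical
  intro R hR P hP
  have hA : ∀ a ∈ RA c R i, c a = i := fun a ha => (mem_RA.1 ha).2
  have hY : ∀ r ∈ RY c R i, c r ≠ i := fun r hr => (mem_RY.1 hr).2
  have hcL : ((Ls Q c i (RY c R i)).card : ℤ) = D' i + (RA c R i).card := by
    rw [card_Ls hs, h2, hR i]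
    simp_rw [hR]
    ring
  by_cases hneg : D' i < 0
  · -- more letters than neighbours
    have hlt : (Ls Q c i (RY c R i)).card < (RA c R i).card := by omega
    have : ∃ χ, (In Q t c x i (RY c R i) χ).card <
        ((RA c R i).filter (fun a => x a = χ)).card := by
      by_contra hcon
      push Not at hcon
      have e1 : (RA c R i).card = ∑ χ ∈ (RA c R i).image x,
          ((RA c R i).filter (fun a => x a = χ)).card :=
        card_eq_sum_card_fiberwise (fun a ha => mem_coe.2 (mem_image_of_mem x ha))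
      have e2 : ∑ χ ∈ (RA c R i).image x, (In Q t c x i (RY c R i) χ).card ≤
          (Ls Q c i (RY c R i)).card := by
        unfold In
        rw [← card_biUnion]
        · apply card_le_card
          intro l hl
          rw [mem_biUnion] at hl
          obtain ⟨χ, _, hl⟩ := hl
          exact (mem_filter.1 hl).1
        · intro χ _ χ' _ hne
          rw [Function.onFun, disjoint_left]
          intro l hl hl'
          exact hne ((mem_filter.1 hl).2.symm.trans (mem_filter.1 hl').2)
      have e3 := sum_le_sum (fun χ (_ : χ ∈ (RA c R i).image x) => hcon χ)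
      omega
    obtain ⟨χ, hχ⟩ := this
    exact J_pigeon hs hL hP hχ
  · obtain ⟨n', hn'⟩ := Int.eq_ofNat_of_zero_le (not_lt.1 hneg)
    have hZ' : ∀ A : Finset ι, (∀ a ∈ A, c a = i) → A.card = n' → ∀ P : MvPolynomial ι K,
        PP Q t c x (A ∪ RY c R i) P → J Q t c x (A ∪ RY c R i) P = 0 := by
      intro A hA' hc P hP
      apply hZ _ _ P hP
      intro j
      by_cases hj : j = i
      · subst hj
        rw [RA_of hA' hY, hc, hn']
      · rw [h1 j hj, ← hR j]
        congr 2
        ext r
        rw [mem_RA, mem_RA, mem_union, mem_RY]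
        constructor
        · rintro ⟨h | h, h3⟩
          · exact absurd (h3.symm.trans (hA' r h)) hj
          · exact ⟨h.1, h3⟩
        · rintro ⟨h, h3⟩
          exact ⟨Or.inr ⟨h, by rw [h3]; exact hj⟩, h3⟩
    have hsum := rk_sum (Q := Q) (t := t) (c := c) (x := x) i (RA c R i) (RY c R i)
    rw [← RA_union c R i] at hP ⊢
    rcases le_total n' (RA c R i).card with hle | hle
    · obtain ⟨m, hm⟩ := Nat.exists_eq_add_of_le hle
      apply Z_down hs hL hY hZ' m (RA c R i) hA hm _ P hP
      have := Ng_ge (rk Q t c x i (RA c R i) (RY c R i))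
      rw [hsum] at this
      omega
    · obtain ⟨m, hm⟩ := Nat.exists_eq_add_of_le hle
      apply Z_up hs hL hY hZ' m (RA c R i) hA hm.symm _ P hP
      have := Ng_ge (-rk Q t c x i (RA c R i) (RY c R i))
      have h3 : ((-rk Q t c x i (RA c R i) (RY c R i)).sum fun _ n => n) =
          -((Ls Q c i (RY c R i)).card - 2 * ((RA c R i).card : ℤ)) := by
        rw [← hsum]
        have h4 : ∀ f : K →₀ ℤ, (f.sum fun _ n => n) = Finsupp.degree f := fun f => rfl
        rw [h4, h4, map_neg]
      rw [h3] at this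
      omega

end Pool.Agent.Run7.h657.Res
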