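import Pool.Agent.Run7.h657.RK

/-! Approximation by polynomials. -/

set_option linter.unusedSectionVars false

namespace Pool.Agent.Run7.h657.Res

open Finset MvPolynomial

variable {ι K : Type*} [LinearOrder ι] [Field K]

/-- admissible substitutions -/
def Sb (s : ι → HH ι K) : Prop := ∀ p, s p = 0 ∨ ∃ r, s p = u r

lemma Sb.u : Sb (fun p => (u p : HH ι K)) := fun p => Or.inr ⟨p, rfl⟩

lemma Sb.fil {s : ι → HH ι K} (h : Sb s) (p : ι) : Fil dg 1 (s p) := by
  rcases h p with h | ⟨r, h⟩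
  · rw [h]; exact Fil.zero _ _
  · rw [h]
    have := Fil.single (K := K) dg (ee r) 1
    rwa [dg_ee] at this

lemma Sb.fil0 {s : ι → HH ι K} (h : Sb s) (P : MvPolynomial ι K) : Fil dg 0 (aeval s P) := by
  induction P using MvPolynomial.induction_on with
  | C r =>
    rw [← MvPolynomial.algebraMap_eq, AlgHom.commutes, ← HahnSeries.C_eq_algebraMap]
    exact Fil.const _ _
  | add p q hp hq => rw [map_add]; exact hp.add hq
  | mul_X p i hp =>
    rw [map_mul, aeval_X]
    exact (hp.mul (h.fil i)).mono (by omega)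

lemma Sb.fil1 {s : ι → HH ι K} (h : Sb s) {P : MvPolynomial ι K}
    (hP : MvPolynomial.constantCoeff P = 0) : Fil dg 1 (aeval s P) := by
  rw [MvPolynomial.as_sum P, map_sum]
  apply Fil.sum
  intro d hd
  rw [aeval_monomial]
  have hd0 : d ≠ 0 := by
    rintro rfl
    rw [mem_support_iff] at hd
    exact hd hP
  obtain ⟨a, ha⟩ := Finsupp.ne_iff.1 hd0
  have ha' : a ∈ d.support := Finsupp.mem_support_iff.2 ha
  rw [Finsupp.prod, ← mul_prod_erase _ _ ha']
  have h1 : Fil dg 1 (s a ^ d a) := by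
    refine ((h.fil a).pow (d a)).mono ?_
    have : 1 ≤ d a := Nat.one_le_iff_ne_zero.2 ha
    have : (1 : ℤ) ≤ d a := by exact_mod_cast this
    omega
  have h2 : Fil dg 0 (∏ x ∈ d.support.erase a, s x ^ d x) := by
    apply Fil.prod0
    intro b _
    exact ((h.fil b).mono (by omega)).pow0 _
  have h3 : Fil dg 0 (algebraMap K (HH ι K) (coeff d P)) := by
    rw [← HahnSeries.C_eq_algebraMap]
    exact Fil.const _ _
  exact (h3.mul (h1.mul h2)).mono (by omega)

/-- the inverse of a series with nonzero leading constant -/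
lemma inv_unit {h : HH ι K} (hh : Fil dg 1 h) (h0 : ∀ γ : Ex ι, h.coeff γ ≠ 0 → 0 ≤ γ) :
    (1 - h) ≠ 0 ∧ Fil dg 0 (1 - h)⁻¹ := by
  have hc : h.coeff 0 = 0 := by
    by_contra hne
    have := hh 0 hne
    rw [map_zero] at this
    omega
  have h1 : (1 - h).coeff 0 ≠ 0 := by
    rw [HahnSeries.coeff_sub, hc, HahnSeries.coeff_one, if_pos rfl, sub_zero]
    exact one_ne_zero
  have h2 : ∀ γ : Ex ι, (1 - h).coeff γ ≠ 0 → 0 ≤ γ := by
    intro γ hγ
    rw [HahnSeries.coeff_sub, HahnSeries.coeff_one] at hγ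
    by_cases hg : γ = 0
    · rw [hg]
    · rw [if_neg hg, zero_sub, neg_ne_zero] at hγ
      exact h0 γ hγ
  refine ⟨HahnSeries.ne_zero_of_coeff_ne_zero h1, ?_⟩
  have h3 := Fil.inv' (φ := dg) (0 : Ex ι) h1 h2 (by
    rw [map_zero]; exact (Fil.one _).sub (hh.mono (by omega)))
  rwa [map_zero, neg_zero] at h3

lemma Sb.nonneg {s : ι → HH ι K} (h : Sb s) (P : MvPolynomial ι K) (γ : Ex ι)
    (hγ : (aeval s P).coeff γ ≠ 0) : 0 ≤ γ := by
  have hmul : ∀ f g : HH ι K, (∀ γ, f.coeff γ ≠ 0 → (0 : Ex ι) ≤ γ) →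
      (∀ γ, g.coeff γ ≠ 0 → (0 : Ex ι) ≤ γ) → ∀ γ, (f * g).coeff γ ≠ 0 → (0 : Ex ι) ≤ γ := by
    intro f g hf hg γ hγ
    have h1 : γ ∈ (f * g).support := hγ
    have h2 := HahnSeries.support_mul_subset h1
    rw [Set.mem_add] at h2
    obtain ⟨a, ha, b, hb, rfl⟩ := h2
    exact add_nonneg (hf a ha) (hg b hb)
  have hu : ∀ p, ∀ γ, (s p).coeff γ ≠ 0 → (0 : Ex ι) ≤ γ := by
    intro p γ hγ
    rcases h p with h1 | ⟨r, h1⟩
    · rw [h1] at hγ; exact absurd rfl hγ
    · rw [h1, u_coeff] at hγ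
      by_cases hg : γ = ee r
      · rw [hg]
        have : (0 : Ex ι) < ee r := by
          rw [Finsupp.Lex.lt_iff]
          refine ⟨r, fun j hj => ?_, ?_⟩
          · show (0 : ℤ) = (Finsupp.single r (1 : ℤ)) j
            rw [Finsupp.single_apply, if_neg hj.ne']
          · show (0 : ℤ) < (Finsupp.single r (1 : ℤ)) r
            rw [Finsupp.single_apply, if_pos rfl]
            omega
        exact this.le
      · rw [if_neg hg] at hγ; exact absurd rfl hγ
  revert γ
  induction P using MvPolynomial.induction_on with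
  | C r =>
    intro γ hγ
    rw [← MvPolynomial.algebraMap_eq, AlgHom.commutes, ← HahnSeries.C_eq_algebraMap] at hγ
    by_cases hg : γ = 0
    · rw [hg]
    · rw [HahnSeries.C_apply, HahnSeries.coeff_single_of_ne hg] at hγ
      exact absurd rfl hγ
  | add p q hp hq =>
    intro γ hγ
    rw [map_add, HahnSeries.coeff_add] at hγ
    by_cases h1 : (aeval s p).coeff γ = 0
    · rw [h1, zero_add] at hγ
      exact hq γ hγ
    · exact hp γ h1
  | mul_X p i hp =>
    rw [map_mul, aeval_X]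
    exact hmul _ _ hp (hu i)

/-- functions of the positions which are approximated by polynomials -/
def Apx (R : Finset ι) (Z : Set (ι → ι)) (U : (ι → HH ι K) → HH ι K) : Prop :=
  ∀ M : ℕ, ∃ P : MvPolynomial ι K, cut R P = P ∧ (∀ f ∈ Z, Van f P) ∧
    ∀ s, Sb s → Fil dg M (U s - aeval s P)

variable {R R' : Finset ι} {Z Z' : Set (ι → ι)} {U U' : (ι → HH ι K) → HH ι K}

lemma Apx.fil0 (h : Apx R Z U) {s : ι → HH ι K} (hs : Sb s) : Fil dg 0 (U s) := by
  obtain ⟨P, _, _, h1⟩ := h 0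
  have h2 := (h1 s hs).add ((hs.fil0 P).mono (by simp : ((0 : ℕ) : ℤ) ≤ 0))
  rw [sub_add_cancel] at h2
  exact_mod_cast h2

lemma Apx.mono (h : Apx R Z U) (hR : R ⊆ R') (hZ : Z' ⊆ Z) : Apx R' Z' U := by
  intro M
  obtain ⟨P, h1, h2, h3⟩ := h M
  refine ⟨P, ?_, fun f hf => h2 f (hZ hf), h3⟩
  rw [← h1, cut_cut hR]

lemma Apx.congr (h : Apx R Z U) (hU : ∀ s, Sb s → U' s = U s) : Apx R Z U' := by
  intro M
  obtain ⟨P, h1, h2, h3⟩ := h M
  exact ⟨P, h1, h2, fun s hs => by rw [hU s hs]; exact h3 s hs⟩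

lemma Apx.poly {P : MvPolynomial ι K} (h1 : cut R P = P) (h2 : ∀ f ∈ Z, Van f P) :
    Apx R Z (fun s : ι → HH ι K => (aeval s P : HH ι K)) := by
  intro M
  exact ⟨P, h1, h2, fun s _ => by rw [sub_self]; exact Fil.zero _ _⟩

lemma Apx.const (R : Finset ι) (r : K) : Apx R ∅ (fun _ => (HahnSeries.C r : HH ι K)) := by
  have h := Apx.poly (R := R) (Z := (∅ : Set (ι → ι))) (P := C r) (by
    rw [← MvPolynomial.algebraMap_eq, AlgHom.commutes]) (by simp)
  refine h.congr ?_
  intro s _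
  rw [← MvPolynomial.algebraMap_eq, AlgHom.commutes, HahnSeries.C_eq_algebraMap]

lemma Apx.mul (h : Apx R Z U) (h' : Apx R Z' U') : Apx R (Z ∪ Z') (fun s => U s * U' s) := by
  intro M
  obtain ⟨P, h1, h2, h3⟩ := h M
  obtain ⟨P', h1', h2', h3'⟩ := h' M
  refine ⟨P * P', by rw [map_mul, h1, h1'], ?_, ?_⟩
  · intro f hf
    rcases hf with hf | hf
    · exact (h2 f hf).mul P'
    · exact (h2' f hf).mul' P
  · intro s hs
    have e : U s * U' s - aeval s (P * P') =
        (U s - aeval s P) * U' s + aeval s P * (U' s - aeval s P') := by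
      rw [map_mul]; ring
    rw [e]
    apply Fil.add
    · simpa using (h3 s hs).mul (h'.fil0 hs)
    · simpa using (hs.fil0 P).mul (h3' s hs)

lemma Apx.mul0 (h : Apx R ∅ U) (h' : Apx R Z' U') : Apx R Z' (fun s => U s * U' s) := by
  have := h.mul h'
  rwa [Set.empty_union] at this

lemma Apx.mul1 (h : Apx R Z U) (h' : Apx R ∅ U') : Apx R Z (fun s => U s * U' s) := by
  have := h.mul h'
  rwa [Set.union_empty] at this

lemma Apx.prod {α : Type*} (S : Finset α) (Z : α → Set (ι → ι))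
    (U : α → (ι → HH ι K) → HH ι K) (h : ∀ b ∈ S, Apx R (Z b) (U b)) :
    Apx R {f | ∃ b ∈ S, f ∈ Z b} (fun s => ∏ b ∈ S, U b s) := by
  classical
  induction S using Finset.induction_on with
  | empty =>
    have h0 := Apx.const (K := K) R 1
    refine (h0.mono (subset_refl R) ?_).congr ?_
    · rintro f ⟨b, hb, _⟩
      simp at hb
    · intro s _
      simp
  | insert b S hb ih =>
    have h1 := (h b (mem_insert_self b S)).mul (ih fun i hi => h i (mem_insert_of_mem hi))
    refine (h1.mono (subset_refl R) ?_).congr ?_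
    · rintro f ⟨b', hb', hf⟩
      rw [mem_insert] at hb'
      rcases hb' with rfl | hb'
      · exact Or.inl hf
      · exact Or.inr ⟨b', hb', hf⟩
    · intro s _
      rw [prod_insert hb]

lemma Apx.prod0 {α : Type*} (S : Finset α)
    (U : α → (ι → HH ι K) → HH ι K) (h : ∀ b ∈ S, Apx R ∅ (U b)) :
    Apx R ∅ (fun s => ∏ b ∈ S, U b s) :=
  (Apx.prod S (fun _ => ∅) U h).mono (subset_refl R) (by simp)

lemma Apx.inv {g : MvPolynomial ι K} (h1 : cut R g = g)
    (h0 : MvPolynomial.constantCoeff g ≠ 0) : Apx R ∅ (fun s : ι → HH ι K => (aeval s g : HH ι K)⁻¹) := by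
  intro M
  set g0 := MvPolynomial.constantCoeff g with hg0
  set h : MvPolynomial ι K := 1 - C g0⁻¹ * g with hh
  have hcc : MvPolynomial.constantCoeff h = 0 := by
    rw [hh, map_sub, map_one, map_mul, constantCoeff_C, inv_mul_cancel₀ h0, sub_self]
  have hcut : cut R h = h := by
    rw [hh, map_sub, map_one, map_mul, h1]
    congr 2
    rw [← MvPolynomial.algebraMap_eq, AlgHom.commutes]
  refine ⟨C g0⁻¹ * ∑ k ∈ range M, h ^ k, ?_, by simp, ?_⟩
  · rw [map_mul, map_sum]
    congr 1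
    · rw [← MvPolynomial.algebraMap_eq, AlgHom.commutes]
    · apply sum_congr rfl
      intro k _
      rw [map_pow, hcut]
  · intro s hs
    have hf1 := hs.fil1 hcc
    obtain ⟨hne, hinv⟩ := inv_unit hf1 (hs.nonneg h)
    have hgs : aeval s g = HahnSeries.C g0 * (1 - aeval s h) := by
      rw [hh, map_sub, map_mul, map_one, sub_sub_cancel]
      have : aeval s (C g0⁻¹ : MvPolynomial ι K) = HahnSeries.C g0⁻¹ := by
        rw [← MvPolynomial.algebraMap_eq, AlgHom.commutes, HahnSeries.C_eq_algebraMap]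
      rw [this, ← mul_assoc, ← map_mul, mul_inv_cancel₀ h0, map_one, one_mul]
    have hCi : (HahnSeries.C g0 : HH ι K)⁻¹ = HahnSeries.C g0⁻¹ := by
      rw [map_inv₀]
    have e : (aeval s g)⁻¹ - aeval s (C g0⁻¹ * ∑ k ∈ range M, h ^ k) =
        HahnSeries.C g0⁻¹ * ((1 - aeval s h)⁻¹ * (aeval s h) ^ M) := by
      rw [hgs, mul_inv, hCi, map_mul, map_sum]
      have : aeval s (C g0⁻¹ : MvPolynomial ι K) = HahnSeries.C g0⁻¹ := by
        rw [← MvPolynomial.algebraMap_eq, AlgHom.commutes, HahnSeries.C_eq_algebraMap]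
      rw [this, ← mul_sub]
      congr 1
      simp only [map_pow]
      have hgeo := mul_neg_geom_sum (aeval s h) M
      have : ∑ k ∈ range M, (aeval s h) ^ k = (1 - aeval s h)⁻¹ * (1 - (aeval s h) ^ M) := by
        rw [← hgeo, ← mul_assoc, inv_mul_cancel₀ hne, one_mul]
      rw [this]
      ring
    rw [e]
    have h2 : Fil dg M ((aeval s h) ^ M) := by
      have := hf1.pow M
      rwa [mul_one] at this
    simpa using (Fil.const (Γ := Ex ι) dg g0⁻¹).mul (hinv.mul h2)

end Pool.Agent.Run7.h657.Res
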