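import Pool.Agent.Run7.h657.RL

/-! The factors of the integrand. -/

set_option linter.unusedSectionVars false

namespace Pool.Agent.Run7.h657.Res

open Finset MvPolynomial

section field

variable {F : Type*} [Field F]

/-- the factor of a pair of tautological weights -/
def Kz (p t w : F) : ℤ → F
  | Int.ofNat 0 => (1 - w) * (1 - 1 / (t * w))
  | Int.ofNat (n + 1) => -((1 - w) / (t * w)) * (poch p (p * w) (n + 1) / poch p (t * p * w) n)
  | Int.negSucc n => (1 - 1 / (t * w)) * (poch p (t * (w * (p ^ (n + 1))⁻¹)) (n + 1) /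
      poch p (p * (w * (p ^ (n + 1))⁻¹)) n)

lemma Kz_eq {p t w : F} (hp : p ≠ 0) (ht : t ≠ 0) (hw : w ≠ 0) (h1 : w ≠ 1) (h2 : t * w ≠ 1)
    (d : ℤ) : Kz p t w d = (1 - w) * (1 - 1 / (t * w)) / Qz p t w d := by
  have h2' : 1 - t * w ≠ 0 := fun h => h2 (sub_eq_zero.1 h).symm
  have h1' : 1 - w ≠ 0 := fun h => h1 (sub_eq_zero.1 h).symm
  rcases d with n | n
  · rcases n with _ | n
    · show (1 - w) * (1 - 1 / (t * w)) = (1 - w) * (1 - 1 / (t * w)) / ph p t w 0
      rw [ph_zero, div_one]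
    · show -((1 - w) / (t * w)) * (poch p (p * w) (n + 1) / poch p (t * p * w) n) =
        (1 - w) * (1 - 1 / (t * w)) / ph p t w (n + 1)
      have e1 : poch p (t * w) (n + 1) = (1 - t * w) * poch p (t * p * w) n := by
        rw [add_comm, poch_add, pow_one]
        congr 1
        · simp [poch]
        · congr 1; ring
      unfold ph
      rw [e1]
      have e2 : 1 - 1 / (t * w) = -((1 - t * w) / (t * w)) := by
        field_simp
        ring
      rw [e2, div_div_eq_mul_div]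
      by_cases h3 : poch p (t * p * w) n = 0
      · rw [h3]; simp
      · rw [eq_div_iff (mul_ne_zero h2' h3)]
        generalize poch p (t * p * w) n = Q at *
        field_simp
  · show (1 - 1 / (t * w)) * (poch p (t * (w * (p ^ (n + 1))⁻¹)) (n + 1) /
      poch p (p * (w * (p ^ (n + 1))⁻¹)) n) =
      (1 - w) * (1 - 1 / (t * w)) / (ph p t (w * (p ^ (n + 1))⁻¹) (n + 1))⁻¹
    have e1 : poch p (p * (w * (p ^ (n + 1))⁻¹)) (n + 1) =
        poch p (p * (w * (p ^ (n + 1))⁻¹)) n * (1 - w) := by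
      rw [poch_succ]
      congr 2
      have := pow_ne_zero (n + 1) hp
      rw [pow_succ] at this ⊢
      have h4 := pow_ne_zero n hp
      field_simp
    unfold ph
    rw [e1, div_inv_eq_mul]
    by_cases h3 : poch p (p * (w * (p ^ (n + 1))⁻¹)) n = 0
    · rw [h3]; simp
    · field_simp

lemma inv_swap (a b : F) : (a - b)⁻¹ = -(b - a)⁻¹ := by
  rw [← neg_sub, inv_neg]

end field

variable {ι K : Type*} [LinearOrder ι] [Field K]

/-- the ratio of two weights -/
noncomputable def wv (ρ : K) (z1 z2 : HH ι K) : HH ι K := HahnSeries.C ρ * (1 + z1) / (1 + z2)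

/-- a position given by a polynomial -/
def Pl (R : Finset ι) (g : MvPolynomial ι K) : Prop :=
  cut R g = g ∧ MvPolynomial.constantCoeff g = 0

lemma Pl.X {R : Finset ι} {a : ι} (h : a ∈ R) : Pl R (X a : MvPolynomial ι K) := by
  constructor
  · rw [cut_X, if_pos h]
  · simp

lemma Pl.zero (R : Finset ι) : Pl R (0 : MvPolynomial ι K) := ⟨map_zero _, map_zero _⟩

lemma cut_C (R : Finset ι) (r : K) : cut R (C r : MvPolynomial ι K) = C r := by
  rw [← MvPolynomial.algebraMap_eq, AlgHom.commutes]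

lemma aeval_C' (s : ι → HH ι K) (r : K) :
    aeval s (C r : MvPolynomial ι K) = HahnSeries.C r := by
  rw [← MvPolynomial.algebraMap_eq, AlgHom.commutes, HahnSeries.C_eq_algebraMap]

lemma one_add_ne {s : ι → HH ι K} (hs : Sb s) {R : Finset ι} {g : MvPolynomial ι K}
    (hg : Pl R g) : (1 : HH ι K) + aeval s g ≠ 0 := by
  have h1 := (inv_unit (h := aeval s (-g)) (hs.fil1 (by rw [map_neg, hg.2, neg_zero]))
    (hs.nonneg (-g))).1
  rwa [map_neg, sub_neg_eq_add] at h1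

variable {R : Finset ι} {g1 g2 : MvPolynomial ι K}

/-- the numerator of a linear factor -/
noncomputable def nlin (g1 g2 : MvPolynomial ι K) (r : K) : MvPolynomial ι K :=
  (1 + g2) - C r * (1 + g1)

lemma nlin_cut (h1 : Pl R g1) (h2 : Pl R g2) (r : K) : cut R (nlin g1 g2 r) = nlin g1 g2 r := by
  unfold nlin
  rw [map_sub, map_add, map_one, map_mul, map_add, map_one, cut_C, h1.1, h2.1]

lemma nlin_cc (h1 : Pl R g1) (h2 : Pl R g2) (r : K) :
    MvPolynomial.constantCoeff (nlin g1 g2 r) = 1 - r := by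
  unfold nlin
  rw [map_sub, map_add, map_one, map_mul, map_add, map_one, constantCoeff_C, h1.2, h2.2]
  ring

lemma lin_eq (h2 : Pl R g2) (ρ c : K) {s : ι → HH ι K} (hs : Sb s) :
    1 - HahnSeries.C c * wv ρ (aeval s g1) (aeval s g2) =
      aeval s (nlin g1 g2 (c * ρ)) * (aeval s (1 + g2))⁻¹ := by
  have h := one_add_ne hs h2
  unfold wv nlin
  rw [map_sub, map_add, map_one, map_mul, map_add, map_one, aeval_C', map_mul]
  field_simp

lemma Apx_inv1 (h2 : Pl R g2) :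
    Apx R ∅ (fun s : ι → HH ι K => (aeval s (1 + g2) : HH ι K)⁻¹) := by
  apply Apx.inv
  · rw [map_add, map_one, h2.1]
  · rw [map_add, map_one, h2.2, add_zero]; exact one_ne_zero

lemma Apx_one_add (h2 : Pl R g2) (Z : Set (ι → ι)) (hZ : Z = ∅) :
    Apx R Z (fun s : ι → HH ι K => (1 + aeval s g2 : HH ι K)) := by
  subst hZ
  refine (Apx.poly (P := 1 + g2) (by rw [map_add, map_one, h2.1]) (by simp)).congr ?_
  intro s _
  rw [map_add, map_one]

lemma Apx_w (h1 : Pl R g1) (h2 : Pl R g2) (ρ : K) :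
    Apx R ∅ (fun s : ι → HH ι K => wv ρ (aeval s g1) (aeval s g2)) := by
  have h3 : Apx R ∅ (fun s : ι → HH ι K => (aeval s (C ρ * (1 + g1)) : HH ι K)) :=
    Apx.poly (by rw [map_mul, cut_C, map_add, map_one, h1.1]) (by simp)
  refine (h3.mul0 (Apx_inv1 h2)).congr ?_
  intro s _
  unfold wv
  rw [map_mul, aeval_C', map_add, map_one, map_add, map_one, div_eq_mul_inv]

lemma Apx_w_inv (h1 : Pl R g1) (h2 : Pl R g2) {ρ : K} (hρ : ρ ≠ 0) :
    Apx R ∅ (fun s : ι → HH ι K => (wv ρ (aeval s g1) (aeval s g2))⁻¹) := by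
  have h3 : Apx R ∅ (fun s : ι → HH ι K => (aeval s (1 + g2) : HH ι K)) :=
    Apx.poly (by rw [map_add, map_one, h2.1]) (by simp)
  have h4 : Apx R ∅ (fun s : ι → HH ι K => (aeval s (C ρ * (1 + g1)) : HH ι K)⁻¹) :=
    Apx.inv (by rw [map_mul, cut_C, map_add, map_one, h1.1]) (by
      rw [map_mul, constantCoeff_C, map_add, map_one, h1.2, add_zero, mul_one]; exact hρ)
  refine (h3.mul0 h4).congr ?_
  intro s _
  unfold wv
  rw [map_mul, aeval_C', map_add, map_one, map_add, map_one, inv_div, div_eq_mul_inv]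

lemma Apx_lin (h1 : Pl R g1) (h2 : Pl R g2) (ρ c : K) :
    Apx R ∅ (fun s : ι → HH ι K => 1 - HahnSeries.C c * wv ρ (aeval s g1) (aeval s g2)) := by
  have h3 : Apx R ∅ (fun s : ι → HH ι K => (aeval s (nlin g1 g2 (c * ρ)) : HH ι K)) :=
    Apx.poly (nlin_cut h1 h2 _) (by simp)
  exact (h3.mul0 (Apx_inv1 h2)).congr fun s hs => lin_eq h2 ρ c hs

lemma Apx_lin_zero (h1 : Pl R g1) (h2 : Pl R g2) {ρ c : K} (hc : c * ρ = 1) :
    Apx R {f | rename f g1 = rename f g2}
      (fun s : ι → HH ι K => 1 - HahnSeries.C c * wv ρ (aeval s g1) (aeval s g2)) := by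
  have h3 : Apx R {f | rename f g1 = rename f g2}
      (fun s : ι → HH ι K => (aeval s (nlin g1 g2 (c * ρ)) : HH ι K)) := by
    apply Apx.poly (nlin_cut h1 h2 _)
    intro f hf
    unfold Van nlin
    rw [hc, map_sub, map_mul, map_add, map_add, map_one, rename_C, C_1, one_mul]
    rw [show rename f g1 = rename f g2 from hf, sub_self]
  exact (h3.mul1 (Apx_inv1 h2)).congr fun s hs => lin_eq h2 ρ c hs

lemma Apx_lin_inv (h1 : Pl R g1) (h2 : Pl R g2) {ρ c : K} (hc : c * ρ ≠ 1) :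
    Apx R ∅ (fun s : ι → HH ι K =>
      (1 - HahnSeries.C c * wv ρ (aeval s g1) (aeval s g2))⁻¹) := by
  have h3 : Apx R ∅ (fun s : ι → HH ι K => (aeval s (nlin g1 g2 (c * ρ)) : HH ι K)⁻¹) := by
    apply Apx.inv (nlin_cut h1 h2 _)
    rw [nlin_cc h1 h2]
    exact fun h => hc (sub_eq_zero.1 h).symm
  have h4 : Apx R ∅ (fun s : ι → HH ι K => (aeval s (1 + g2) : HH ι K)) :=
    Apx.poly (by rw [map_add, map_one, h2.1]) (by simp)
  refine (h3.mul0 h4).congr ?_
  intro s hs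
  rw [lin_eq h2 ρ c hs, mul_inv, inv_inv]

lemma poch_C (p c : K) (w : HH ι K) (n : ℕ) :
    poch (HahnSeries.C p) (HahnSeries.C c * w) n =
      ∏ j ∈ range n, (1 - HahnSeries.C (c * p ^ j) * w) := by
  unfold poch
  apply prod_congr rfl
  intro j _
  rw [map_mul, map_pow]
  ring

lemma Apx_poch (h1 : Pl R g1) (h2 : Pl R g2) (ρ p c : K) (n : ℕ) :
    Apx R ∅ (fun s : ι → HH ι K => poch (HahnSeries.C p)
      (HahnSeries.C c * wv ρ (aeval s g1) (aeval s g2)) n) := by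
  refine (Apx.prod0 (range n) _ (fun j _ => Apx_lin h1 h2 ρ (c * p ^ j))).congr ?_
  intro s _
  rw [poch_C]

lemma Apx_poch_zero (h1 : Pl R g1) (h2 : Pl R g2) {ρ p c : K} {n j : ℕ} (hj : j < n)
    (hc : c * p ^ j * ρ = 1) :
    Apx R {f | rename f g1 = rename f g2} (fun s : ι → HH ι K => poch (HahnSeries.C p)
      (HahnSeries.C c * wv ρ (aeval s g1) (aeval s g2)) n) := by
  refine ((Apx.prod0 ((range n).erase j) _
    (fun j _ => Apx_lin h1 h2 ρ (c * p ^ j))).mul0 (Apx_lin_zero h1 h2 hc)).congr ?_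
  intro s _
  rw [poch_C, ← mul_prod_erase _ _ (mem_range.2 hj), mul_comm]

lemma Apx_poch_inv (h1 : Pl R g1) (h2 : Pl R g2) {ρ p c : K} {n : ℕ}
    (hc : ∀ j < n, c * p ^ j * ρ ≠ 1) :
    Apx R ∅ (fun s : ι → HH ι K => (poch (HahnSeries.C p)
      (HahnSeries.C c * wv ρ (aeval s g1) (aeval s g2)) n)⁻¹) := by
  refine (Apx.prod0 (range n) _ (fun j hj => Apx_lin_inv h1 h2 (ρ := ρ) (c := c * p ^ j)
    (hc j (mem_range.1 hj)))).congr ?_
  intro s _
  rw [poch_C, prod_inv_distrib]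

/-- a ratio in general position -/
structure Gn (p t ρ : K) : Prop where
  p0 : p ≠ 0
  t0 : t ≠ 0
  ρ0 : ρ ≠ 0
  g1 : ∀ m : ℤ, m ≠ 0 → ρ * p ^ m ≠ 1
  g2 : ∀ m : ℤ, m ≠ 0 → t * ρ * p ^ m ≠ 1

lemma Gn.a {p t ρ : K} (h : Gn p t ρ) (j : ℕ) : p * p ^ j * ρ ≠ 1 := by
  have := h.g1 (j + 1) (by omega)
  intro h'
  apply this
  rw [zpow_add_one₀ h.p0, zpow_natCast, ← h']
  ring

lemma Gn.b {p t ρ : K} (h : Gn p t ρ) {j n : ℕ} (hj : j < n) :
    t * (p ^ n)⁻¹ * p ^ j * ρ ≠ 1 := by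
  have := h.g2 (j - n) (by omega)
  intro h'
  apply this
  rw [zpow_sub₀ h.p0, zpow_natCast, zpow_natCast, ← h']
  have := pow_ne_zero n h.p0
  field_simp

lemma Gn.c {p t ρ : K} (h : Gn p t ρ) (j : ℕ) : t * p * p ^ j * ρ ≠ 1 := by
  have := h.g2 (j + 1) (by omega)
  intro h'
  apply this
  rw [zpow_add_one₀ h.p0, zpow_natCast, ← h']
  ring

lemma Gn.d {p t ρ : K} (h : Gn p t ρ) {j n : ℕ} (hj : j < n) :
    p * (p ^ (n + 1))⁻¹ * p ^ j * ρ ≠ 1 := by
  have := h.g1 (j - n) (by omega)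
  intro h'
  apply this
  rw [zpow_sub₀ h.p0, zpow_natCast, zpow_natCast, ← h', pow_succ]
  have := pow_ne_zero n h.p0
  have := h.p0
  field_simp

lemma C_shift (c : K) (n : ℕ) (p : K) (w : HH ι K) :
    HahnSeries.C c * (w * ((HahnSeries.C p : HH ι K) ^ n)⁻¹) =
      HahnSeries.C (c * (p ^ n)⁻¹) * w := by
  rw [map_mul, map_inv₀, map_pow]
  ring

lemma Apx_Qz (h1 : Pl R g1) (h2 : Pl R g2) {p t ρ : K} (hg : Gn p t ρ) (d : ℤ) :
    Apx R {f | rename f g1 = rename f g2 ∧ ((ρ = 1 ∧ d < 0) ∨ (t * ρ = 1 ∧ 0 < d))}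
      (fun s : ι → HH ι K => Qz (HahnSeries.C p) (HahnSeries.C t)
        (wv ρ (aeval s g1) (aeval s g2)) d) := by
  rcases d with n | n
  · have hden : Apx R ∅ (fun s : ι → HH ι K => (poch (HahnSeries.C p)
        (HahnSeries.C p * wv ρ (aeval s g1) (aeval s g2)) n)⁻¹) :=
      Apx_poch_inv h1 h2 (fun j _ => hg.a j)
    have heq : ∀ s : ι → HH ι K, Qz (HahnSeries.C p) (HahnSeries.C t)
        (wv ρ (aeval s g1) (aeval s g2)) (Int.ofNat n) =
        poch (HahnSeries.C p) (HahnSeries.C t * wv ρ (aeval s g1) (aeval s g2)) n *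
        (poch (HahnSeries.C p) (HahnSeries.C p * wv ρ (aeval s g1) (aeval s g2)) n)⁻¹ := by
      intro s
      exact div_eq_mul_inv _ _
    by_cases hz : t * ρ = 1 ∧ 0 < n
    · have hnum := Apx_poch_zero h1 h2 (ρ := ρ) (p := p) (c := t) hz.2
        (by rw [pow_zero, mul_one]; exact hz.1)
      refine ((hnum.mul1 hden).mono (subset_refl R) ?_).congr fun s _ => heq s
      rintro f ⟨hf, _⟩; exact hf
    · have hnum := Apx_poch h1 h2 ρ p t n
      refine ((hnum.mul0 hden).mono (subset_refl R) ?_).congr fun s _ => heq s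
      rintro f ⟨hf, h3⟩
      exfalso
      rcases h3 with h3 | h3
      · have := h3.2
        simp only [Int.ofNat_eq_natCast] at this
        omega
      · apply hz
        refine ⟨h3.1, ?_⟩
        have := h3.2
        simp only [Int.ofNat_eq_natCast] at this
        omega
  · have hden : Apx R ∅ (fun s : ι → HH ι K => (poch (HahnSeries.C p)
        (HahnSeries.C (t * (p ^ (n + 1))⁻¹) * wv ρ (aeval s g1) (aeval s g2)) (n + 1))⁻¹) :=
      Apx_poch_inv h1 h2 (fun j hj => hg.b hj)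
    have heq : ∀ s : ι → HH ι K, Qz (HahnSeries.C p) (HahnSeries.C t)
        (wv ρ (aeval s g1) (aeval s g2)) (Int.negSucc n) =
        poch (HahnSeries.C p)
          (HahnSeries.C (p * (p ^ (n + 1))⁻¹) * wv ρ (aeval s g1) (aeval s g2)) (n + 1) *
        (poch (HahnSeries.C p)
          (HahnSeries.C (t * (p ^ (n + 1))⁻¹) * wv ρ (aeval s g1) (aeval s g2)) (n + 1))⁻¹ := by
      intro s
      show (ph _ _ _ _)⁻¹ = _
      unfold ph
      rw [C_shift t, C_shift p, inv_div, div_eq_mul_inv]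
    by_cases hz : ρ = 1
    · have hnum := Apx_poch_zero h1 h2 (ρ := ρ) (p := p) (c := p * (p ^ (n + 1))⁻¹)
        (Nat.lt_succ_self n) (by
          rw [hz, mul_one, mul_right_comm, ← pow_succ']
          exact mul_inv_cancel₀ (pow_ne_zero _ hg.p0))
      refine ((hnum.mul1 hden).mono (subset_refl R) ?_).congr fun s _ => heq s
      rintro f ⟨hf, _⟩; exact hf
    · have hnum := Apx_poch h1 h2 ρ p (p * (p ^ (n + 1))⁻¹) (n + 1)
      refine ((hnum.mul0 hden).mono (subset_refl R) ?_).congr fun s _ => heq s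
      rintro f ⟨hf, h3⟩
      exfalso
      rcases h3 with h3 | h3
      · exact hz h3.1
      · have := h3.2
        have := Int.negSucc_lt_zero n
        omega

lemma Apx_oneinv (h1 : Pl R g1) (h2 : Pl R g2) {t ρ : K} (ht : t ≠ 0) (hρ : ρ ≠ 0)
    (Z : Set (ι → ι))
    (hZ : Apx R Z (fun s : ι → HH ι K => 1 - HahnSeries.C t * wv ρ (aeval s g1) (aeval s g2))) :
    Apx R Z (fun s : ι → HH ι K =>
      1 - 1 / (HahnSeries.C t * wv ρ (aeval s g1) (aeval s g2))) := by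
  have h3 := (Apx.const (K := K) R (-t⁻¹)).mul0 (Apx_w_inv h1 h2 hρ)
  refine (hZ.mul1 h3).congr ?_
  intro s hs
  have hw : wv ρ (aeval s g1) (aeval s g2) ≠ (0 : HH ι K) := by
    unfold wv
    apply div_ne_zero (mul_ne_zero _ (one_add_ne hs h1)) (one_add_ne hs h2)
    rw [Ne, map_eq_zero]
    exact hρ
  have hC : (HahnSeries.C t : HH ι K) ≠ 0 := by
    rw [Ne, map_eq_zero]
    exact ht
  rw [map_neg, map_inv₀]
  field_simp
  ring

lemma Apx_Kz (h1 : Pl R g1) (h2 : Pl R g2) {p t ρ : K} (hg : Gn p t ρ) (d : ℤ) :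
    Apx R {f | rename f g1 = rename f g2 ∧ ((ρ = 1 ∧ 0 ≤ d) ∨ (t * ρ = 1 ∧ d ≤ 0))}
      (fun s : ι → HH ι K => Kz (HahnSeries.C p) (HahnSeries.C t)
        (wv ρ (aeval s g1) (aeval s g2)) d) := by
  have hA : Apx R {f | rename f g1 = rename f g2 ∧ ρ = 1}
      (fun s : ι → HH ι K => 1 - wv ρ (aeval s g1) (aeval s g2)) := by
    by_cases hz : ρ = 1
    · have := Apx_lin_zero h1 h2 (ρ := ρ) (c := 1) (by rw [one_mul]; exact hz)
      refine (this.mono (subset_refl R) ?_).congr ?_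
      · rintro f ⟨hf, _⟩; exact hf
      · intro s _; rw [map_one, one_mul]
    · have := Apx_lin h1 h2 ρ 1
      refine (this.mono (subset_refl R) ?_).congr ?_
      · rintro f ⟨_, hf⟩; exact absurd hf hz
      · intro s _; rw [map_one, one_mul]
  have hB : Apx R {f | rename f g1 = rename f g2 ∧ t * ρ = 1}
      (fun s : ι → HH ι K => 1 - 1 / (HahnSeries.C t * wv ρ (aeval s g1) (aeval s g2))) := by
    apply Apx_oneinv h1 h2 hg.t0 hg.ρ0
    by_cases hz : t * ρ = 1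
    · refine (Apx_lin_zero h1 h2 hz).mono (subset_refl R) ?_
      rintro f ⟨hf, _⟩; exact hf
    · refine (Apx_lin h1 h2 ρ t).mono (subset_refl R) ?_
      rintro f ⟨_, hf⟩; exact absurd hf hz
  rcases d with n | n
  · rcases n with _ | n
    · refine ((hA.mul hB).mono (subset_refl R) ?_)
      rintro f ⟨hf, h3 | h3⟩
      · exact Or.inl ⟨hf, h3.1⟩
      · exact Or.inr ⟨hf, h3.1⟩
    · have h3 := (Apx.const (K := K) R (-t⁻¹)).mul0 (Apx_w_inv h1 h2 hg.ρ0)
      have h4 := Apx_poch h1 h2 ρ p p (n + 1)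
      have h5 : Apx R ∅ (fun s : ι → HH ι K => (poch (HahnSeries.C p)
          (HahnSeries.C (t * p) * wv ρ (aeval s g1) (aeval s g2)) n)⁻¹) :=
        Apx_poch_inv h1 h2 (fun j _ => hg.c j)
      refine (((hA.mul1 h3).mul1 (h4.mul0 h5)).mono (subset_refl R) ?_).congr ?_
      · rintro f ⟨hf, h3 | h3⟩
        · exact ⟨hf, h3.1⟩
        · exfalso
          have := h3.2
          simp only [Int.ofNat_eq_natCast] at this
          omega
      · intro s _
        show -((1 - wv ρ (aeval s g1) (aeval s g2)) /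
          (HahnSeries.C t * wv ρ (aeval s g1) (aeval s g2))) *
          (poch (HahnSeries.C p) (HahnSeries.C p * wv ρ (aeval s g1) (aeval s g2)) (n + 1) /
          poch (HahnSeries.C p) (HahnSeries.C t * HahnSeries.C p *
            wv ρ (aeval s g1) (aeval s g2)) n) = _
        rw [map_neg, map_inv₀, map_mul, div_eq_mul_inv, div_eq_mul_inv, mul_inv]
        ring
  · have h4 := Apx_poch h1 h2 ρ p (t * (p ^ (n + 1))⁻¹) (n + 1)
    have h5 : Apx R ∅ (fun s : ι → HH ι K => (poch (HahnSeries.C p)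
        (HahnSeries.C (p * (p ^ (n + 1))⁻¹) * wv ρ (aeval s g1) (aeval s g2)) n)⁻¹) :=
      Apx_poch_inv h1 h2 (fun j hj => hg.d hj)
    refine ((hB.mul1 (h4.mul0 h5)).mono (subset_refl R) ?_).congr ?_
    · rintro f ⟨hf, h3 | h3⟩
      · exfalso
        have := h3.2
        have := Int.negSucc_lt_zero n
        omega
      · exact ⟨hf, h3.1⟩
    · intro s _
      show (1 - 1 / (HahnSeries.C t * wv ρ (aeval s g1) (aeval s g2))) *
        (poch (HahnSeries.C p) (HahnSeries.C t * (wv ρ (aeval s g1) (aeval s g2) *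
          (HahnSeries.C p ^ (n + 1))⁻¹)) (n + 1) /
        poch (HahnSeries.C p) (HahnSeries.C p * (wv ρ (aeval s g1) (aeval s g2) *
          (HahnSeries.C p ^ (n + 1))⁻¹)) n) = _
      rw [C_shift t, C_shift p]
      exact congrArg _ (div_eq_mul_inv _ _)

/-- the regular part of the measure of a pair -/
noncomputable def mr [DecidableEq K] (t ρ : K) (z1 z2 : HH ι K) : HH ι K :=
  if ρ = 1 then -(1 + z2) * (1 - 1 / (HahnSeries.C t * wv ρ z1 z2))⁻¹
  else if t * ρ = 1 then -(1 + z1) * (1 - wv ρ z1 z2)⁻¹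
  else ((1 - wv ρ z1 z2) * (1 - 1 / (HahnSeries.C t * wv ρ z1 z2)))⁻¹

lemma Apx_oi_inv (h1 : Pl R g1) (h2 : Pl R g2) {t ρ : K} (ht : t ≠ 0) (hρ : ρ ≠ 0)
    (hn : t * ρ ≠ 1) :
    Apx R ∅ (fun s : ι → HH ι K =>
      (1 - 1 / (HahnSeries.C t * wv ρ (aeval s g1) (aeval s g2)))⁻¹) := by
  have h3 := (Apx.const (K := K) R (-t)).mul0 (Apx_w h1 h2 ρ)
  refine (h3.mul0 (Apx_lin_inv h1 h2 hn)).congr ?_
  intro s hs
  have hw : wv ρ (aeval s g1) (aeval s g2) ≠ (0 : HH ι K) := by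
    unfold wv
    apply div_ne_zero (mul_ne_zero _ (one_add_ne hs h1)) (one_add_ne hs h2)
    rw [Ne, map_eq_zero]
    exact hρ
  have hC : (HahnSeries.C t : HH ι K) ≠ 0 := by
    rw [Ne, map_eq_zero]
    exact ht
  have e1 : 1 - 1 / (HahnSeries.C t * wv ρ (aeval s g1) (aeval s g2)) =
      (1 - HahnSeries.C t * wv ρ (aeval s g1) (aeval s g2)) *
        (-(HahnSeries.C t * wv ρ (aeval s g1) (aeval s g2)))⁻¹ := by
    field_simp
    ring
  rw [e1, mul_inv, inv_inv, map_neg]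
  ring

lemma Apx_mr [DecidableEq K] (h1 : Pl R g1) (h2 : Pl R g2) {t ρ : K} (ht : t ≠ 0) (ht1 : t ≠ 1)
    (hρ : ρ ≠ 0) :
    Apx R ∅ (fun s : ι → HH ι K => mr t ρ (aeval s g1) (aeval s g2)) := by
  unfold mr
  have hm := Apx.const (K := K) R (-1)
  by_cases hz : ρ = 1
  · have hn : t * ρ ≠ 1 := by rw [hz, mul_one]; exact ht1
    refine ((hm.mul0 (Apx_one_add h2 ∅ rfl)).mul0 (Apx_oi_inv h1 h2 ht hρ hn)).congr ?_
    intro s _
    rw [if_pos hz, map_neg, map_one]
    ring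
  · have hw : Apx R ∅ (fun s : ι → HH ι K => (1 - wv ρ (aeval s g1) (aeval s g2))⁻¹) := by
      refine (Apx_lin_inv h1 h2 (ρ := ρ) (c := 1) (by rw [one_mul]; exact hz)).congr ?_
      intro s _; rw [map_one, one_mul]
    by_cases hz' : t * ρ = 1
    · refine ((hm.mul0 (Apx_one_add h1 ∅ rfl)).mul0 hw).congr ?_
      intro s _
      rw [if_neg hz, if_pos hz', map_neg, map_one]
      ring
    · refine (hw.mul0 (Apx_oi_inv h1 h2 ht hρ hz')).congr ?_
      intro s _
      rw [if_neg hz, if_neg hz', mul_inv]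

/-- the measure of a pair -/
lemma mr_pole [DecidableEq K] {t ρ : K} {z1 z2 : HH ι K} (hz : ρ = 1 ∨ t * ρ = 1 → z1 ≠ z2)
    (h1 : 1 + z1 ≠ 0) (h2 : 1 + z2 ≠ 0) (ht1 : t ≠ 1) :
    mr t ρ z1 z2 * ((if ρ = 1 then (z1 - z2)⁻¹ else 1) * (if t * ρ = 1 then (z2 - z1)⁻¹ else 1)) =
      ((1 - wv ρ z1 z2) * (1 - 1 / (HahnSeries.C t * wv ρ z1 z2)))⁻¹ := by
  unfold mr
  by_cases h3 : ρ = 1
  · have hz' : z1 - z2 ≠ 0 := sub_ne_zero.2 (hz (Or.inl h3))
    have hz'' : z2 - z1 ≠ 0 := sub_ne_zero.2 (hz (Or.inl h3)).symm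
    have hn : t * ρ ≠ 1 := by rw [h3, mul_one]; exact ht1
    rw [if_pos h3, if_pos h3, if_neg hn, mul_one, mul_inv]
    have e1 : (1 - wv ρ z1 z2) = (z2 - z1) * (1 + z2)⁻¹ := by
      unfold wv
      rw [h3, map_one, one_mul]
      field_simp
      ring
    rw [e1, mul_inv, inv_inv]
    have e2 : (z1 - z2)⁻¹ = -(z2 - z1)⁻¹ := inv_swap z1 z2
    rw [e2]
    ring
  · by_cases h4 : t * ρ = 1
    · have hz' : z1 - z2 ≠ 0 := sub_ne_zero.2 (hz (Or.inr h4))
      have hz'' : z2 - z1 ≠ 0 := sub_ne_zero.2 (hz (Or.inr h4)).symm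
      rw [if_neg h3, if_pos h4, if_neg h3, if_pos h4, one_mul, mul_inv]
      have e1 : (1 - 1 / (HahnSeries.C t * wv ρ z1 z2)) = (z1 - z2) * (1 + z1)⁻¹ := by
        have e0 : HahnSeries.C t * wv ρ z1 z2 = (1 + z1) / (1 + z2) := by
          unfold wv
          rw [mul_div_assoc', ← mul_assoc, ← map_mul, h4, map_one, one_mul]
        rw [e0, one_div_div]
        field_simp
        ring
      rw [e1, mul_inv (z1 - z2), inv_inv]
      have e2 : (z1 - z2)⁻¹ = -(z2 - z1)⁻¹ := inv_swap z1 z2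
      rw [e2]
      ring
    · rw [if_neg h3, if_neg h4, if_neg h3, if_neg h4]
      ring

end Pool.Agent.Run7.h657.Res
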