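import Pool.Agent.Run7.h657.RM

/-! The integrand. -/

set_option linter.unusedSectionVars false

namespace Pool.Agent.Run7.h657.Res

open Finset MvPolynomial

variable {ι K I E F : Type*} [LinearOrder ι] [Field K] [Fintype I] [Fintype E] [Fintype F]
  [DecidableEq I] [DecidableEq E] [DecidableEq F] [DecidableEq K]

/-- a multiplicative set of weights with no power of `p` -/
structure GS (p : K) (S : Set K) : Prop where
  p0 : p ≠ 0
  ne : ∀ a ∈ S, a ≠ 0
  mul : ∀ a ∈ S, ∀ b ∈ S, a * b ∈ S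
  inv : ∀ a ∈ S, a⁻¹ ∈ S
  pw : ∀ m : ℤ, m ≠ 0 → p ^ m ∉ S

/-- all parameters and weights lie in such a set -/
structure Gq (Q : QD K I E F) (p t : K) (x : ι → K) (S : Set K) : Prop where
  gs : GS p S
  tS : t ∈ S
  eS : ∀ e, Q.te e ∈ S
  fS : ∀ f, Q.fa f ∈ S
  xS : ∀ r, x r ∈ S

lemma GS.div {p : K} {S : Set K} (h : GS p S) {a b : K} (ha : a ∈ S) (hb : b ∈ S) :
    a / b ∈ S := by
  rw [div_eq_mul_inv]
  exact h.mul _ ha _ (h.inv _ hb)

lemma Gq.gn {Q : QD K I E F} {p t : K} {x : ι → K} {S : Set K} (h : Gq Q p t x S) {ρ : K}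
    (hρ : ρ ∈ S) : Gn p t ρ where
  p0 := h.gs.p0
  t0 := h.gs.ne _ h.tS
  ρ0 := h.gs.ne _ hρ
  g1 m hm hh := by
    apply h.gs.pw m hm
    have h0 := h.gs.ne _ hρ
    have : p ^ m = ρ⁻¹ := by
      field_simp
      linear_combination hh
    rw [this]
    exact h.gs.inv _ hρ
  g2 m hm hh := by
    apply h.gs.pw m hm
    have h0 := h.gs.ne _ hρ
    have h1 := h.gs.ne _ h.tS
    have : p ^ m = (t * ρ)⁻¹ := by
      field_simp
      linear_combination hh
    rw [this]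
    exact h.gs.inv _ (h.gs.mul _ h.tS _ hρ)

/-- the factor of a pair of letters joined by an edge -/
noncomputable def fe (Q : QD K I E F) (p t : K) (x : ι → K) (δ : ι → ℤ) (s : ι → HH ι K) (e : E)
    (r q : ι) : HH ι K :=
  Qz (HahnSeries.C p) (HahnSeries.C t) (wv (Q.te e * x q / x r) (s q) (s r)) (δ q - δ r) *
    mr t (Q.te e * x q / x r) (s q) (s r)

/-- the factor of a letter and a framing -/
noncomputable def fw (Q : QD K I E F) (p t : K) (x : ι → K) (δ : ι → ℤ) (s : ι → HH ι K) (f : F)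
    (r : ι) : HH ι K :=
  Qz (HahnSeries.C p) (HahnSeries.C t) (wv (x r / Q.fa f) (s r) 0) (δ r) *
    mr t (x r / Q.fa f) (s r) 0

/-- the factor of a pair of letters of the same colour -/
noncomputable def kk (p t : K) (x : ι → K) (δ : ι → ℤ) (s : ι → HH ι K) (a b : ι) : HH ι K :=
  Kz (HahnSeries.C p) (HahnSeries.C t) (wv (x a / x b) (s a) (s b)) (δ a - δ b)

/-- the regular part of the integrand -/
noncomputable def UU (Q : QD K I E F) (p t : K) (c : ι → I) (x : ι → K) (R : Finset ι)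
    (δ : ι → ℤ) (s : ι → HH ι K) : HH ι K :=
  TT Q c R (fe Q p t x δ s) (fw Q p t x δ s) *
    (∏ a ∈ R, ∏ b ∈ R, if c a = c b ∧ a ≠ b then kk p t x δ s a b else 1) *
    ∏ r ∈ R, (1 + s r)⁻¹

variable {Q : QD K I E F} {p t : K} {c : ι → I} {x : ι → K} {S : Set K}

lemma rename_X_eq {f : ι → ι} {a b : ι} (h : f a = f b) :
    rename f (X a : MvPolynomial ι K) = rename f (X b) := by
  rw [rename_X, rename_X, h]

lemma Apx_ite {R : Finset ι} {Z : Set (ι → ι)} {U : (ι → HH ι K) → HH ι K} (P : Prop)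
    [Decidable P] (h : P → Apx R Z U) :
    Apx R {f | P ∧ f ∈ Z} (fun s => if P then U s else 1) := by
  by_cases hP : P
  · refine ((h hP).mono (subset_refl R) ?_).congr ?_
    · rintro f ⟨_, hf⟩; exact hf
    · intro s _; rw [if_pos hP]
  · have h0 := Apx.const (K := K) R 1
    refine (h0.mono (subset_refl R) ?_).congr ?_
    · rintro f ⟨hf, _⟩; exact absurd hf hP
    · intro s _; rw [if_neg hP, map_one]

lemma Apx_fe (hq : Gq Q p t x S) (ht1 : t ≠ 1) {R : Finset ι} (δ : ι → ℤ) (e : E) {r q : ι}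
    (hr : r ∈ R) (hq' : q ∈ R) :
    Apx R {f | f q = f r ∧ ((Q.te e * x q = x r ∧ δ q < δ r) ∨
      (x r = t * Q.te e * x q ∧ δ r < δ q))} (fun s => fe Q p t x δ s e r q) := by
  have hρ : Q.te e * x q / x r ∈ S :=
    hq.gs.div (hq.gs.mul _ (hq.eS e) _ (hq.xS q)) (hq.xS r)
  have h0 := hq.gs.ne _ (hq.xS r)
  have h1 := Apx_Qz (Pl.X (K := K) hq') (Pl.X hr) (hq.gn hρ) (δ q - δ r)
  have h2 := Apx_mr (Pl.X (K := K) hq') (Pl.X hr) (hq.gs.ne _ hq.tS) ht1 (hq.gs.ne _ hρ)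
  refine ((h1.mul1 h2).mono (subset_refl R) ?_).congr ?_
  · rintro f ⟨hf, h3⟩
    refine ⟨rename_X_eq hf, ?_⟩
    rcases h3 with h3 | h3
    · left
      refine ⟨?_, by omega⟩
      rw [h3.1, div_self h0]
    · right
      refine ⟨?_, by omega⟩
      rw [← mul_div_assoc, ← mul_assoc, ← h3.1, div_self h0]
  · intro s _
    unfold fe
    simp only [aeval_X]

lemma Apx_fw (hq : Gq Q p t x S) (ht1 : t ≠ 1) {R : Finset ι} (δ : ι → ℤ) (f : F) {r : ι}
    (hr : r ∈ R) : Apx R ∅ (fun s => fw Q p t x δ s f r) := by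
  have hρ : x r / Q.fa f ∈ S := hq.gs.div (hq.xS r) (hq.fS f)
  have h1 := Apx_Qz (Pl.X (K := K) hr) (Pl.zero R) (hq.gn hρ) (δ r)
  have h2 := Apx_mr (Pl.X (K := K) hr) (Pl.zero R) (hq.gs.ne _ hq.tS) ht1 (hq.gs.ne _ hρ)
  refine ((h1.mul1 h2).mono (subset_refl R) (Set.empty_subset _)).congr ?_
  intro s _
  unfold fw
  simp only [aeval_X, map_zero]

lemma Apx_kk (hq : Gq Q p t x S) {R : Finset ι} (δ : ι → ℤ) {a b : ι}
    (ha : a ∈ R) (hb : b ∈ R) :
    Apx R {f | f a = f b ∧ ((x a = x b ∧ δ b ≤ δ a) ∨ (x b = t * x a ∧ δ a ≤ δ b))}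
      (fun s => kk p t x δ s a b) := by
  have hρ : x a / x b ∈ S := hq.gs.div (hq.xS a) (hq.xS b)
  have h0 := hq.gs.ne _ (hq.xS b)
  have h1 := Apx_Kz (Pl.X (K := K) ha) (Pl.X hb) (hq.gn hρ) (δ a - δ b)
  refine (h1.mono (subset_refl R) ?_).congr ?_
  · rintro f ⟨hf, h3⟩
    refine ⟨rename_X_eq hf, ?_⟩
    rcases h3 with h3 | h3
    · left
      refine ⟨?_, by omega⟩
      rw [h3.1, div_self h0]
    · right
      refine ⟨?_, by omega⟩
      rw [← mul_div_assoc, ← h3.1, div_self h0]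
  · intro s _
    unfold kk
    simp only [aeval_X]

lemma Apx_UU (hq : Gq Q p t x S) (ht1 : t ≠ 1) (R : Finset ι) (δ : ι → ℤ) :
    Apx R ({f | ∃ e, ∃ r ∈ R, ∃ q ∈ R, (c r = Q.src e ∧ c q = Q.tgt e) ∧
        f q = f r ∧ ((Q.te e * x q = x r ∧ δ q < δ r) ∨ (x r = t * Q.te e * x q ∧ δ r < δ q))} ∪
      {f | ∃ a ∈ R, ∃ b ∈ R, (c a = c b ∧ a ≠ b) ∧
        f a = f b ∧ ((x a = x b ∧ δ b ≤ δ a) ∨ (x b = t * x a ∧ δ a ≤ δ b))})
      (fun s => UU Q p t c x R δ s) := by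
  have h1 := Apx.prod (R := R) (K := K) (univ : Finset E) _
    (fun e s => ∏ r ∈ R, ∏ q ∈ R,
      if c r = Q.src e ∧ c q = Q.tgt e then fe Q p t x δ s e r q else 1)
    (fun e _ => Apx.prod R _ _ (fun r hr => Apx.prod R _ _ (fun q hq' =>
      Apx_ite (c r = Q.src e ∧ c q = Q.tgt e) (fun _ => Apx_fe hq ht1 δ e hr hq'))))
  have h2 : Apx R ∅ (fun s : ι → HH ι K => ∏ f, ∏ r ∈ R,
      if c r = Q.cF f then fw Q p t x δ s f r else 1) := by
    apply Apx.prod0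
    intro f _
    apply Apx.prod0
    intro r hr
    exact (Apx_ite (c r = Q.cF f) (fun _ => Apx_fw hq ht1 δ f hr)).mono (subset_refl R)
      (Set.empty_subset _)
  have h3 := Apx.prod (R := R) (K := K) R _
    (fun a s => ∏ b ∈ R, if c a = c b ∧ a ≠ b then kk p t x δ s a b else 1)
    (fun a ha => Apx.prod R _ _ (fun b hb =>
      Apx_ite (c a = c b ∧ a ≠ b) (fun _ => Apx_kk hq δ ha hb)))
  have h4 : Apx R ∅ (fun s : ι → HH ι K => ∏ r ∈ R, (1 + s r)⁻¹) := by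
    apply Apx.prod0
    intro r hr
    refine (Apx_inv1 (K := K) (Pl.X hr)).congr ?_
    intro s _
    rw [map_add, map_one, aeval_X]
  refine (((h1.mul1 h2).mul h3).mul1 h4).mono (subset_refl R) ?_
  rintro f (⟨e, r, hr, q, hq', hc, hf⟩ | ⟨a, ha, b, hb, hc, hf⟩)
  · exact Or.inl ⟨e, mem_univ e, r, hr, q, hq', hc, hf⟩
  · exact Or.inr ⟨a, ha, b, hb, hc, hf⟩

/-- the regular part is approximated by numerators -/
theorem UU_PP (hs : Sep Q t) (hq : Gq Q p t x S) (R : Finset ι) (δ : ι → ℤ) (M : ℕ) :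
    ∃ P : MvPolynomial ι K, PP Q t c x R P ∧
      ∀ s, Sb s → Fil dg M (UU Q p t c x R δ s - aeval s P) := by
  obtain ⟨P, h1, h2, h3⟩ := Apx_UU (c := c) hq hs.t1 R δ M
  refine ⟨P, ⟨h1, ?_, ?_⟩, h3⟩
  · intro r hr p' hp' hne hc hx
    apply h2
    right
    have hm1 : mg1 p' r p' = r := by unfold mg1; rw [Function.update_self]
    have hm2 : mg1 p' r r = r := by
      unfold mg1; rw [Function.update_of_ne hne.symm]; rfl
    rcases le_total (δ r) (δ p') with h | h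
    · exact ⟨p', hp', r, hr, ⟨hc, hne⟩, hm1.trans hm2.symm, Or.inl ⟨hx, h⟩⟩
    · exact ⟨r, hr, p', hp', ⟨hc.symm, hne.symm⟩, hm2.trans hm1.symm, Or.inl ⟨hx.symm, h⟩⟩
  · intro a ha b hb l hl hc hx har har'
    apply h2
    obtain ⟨m1, m2, m3⟩ := mg2_at (a := a) (b := b) (l := l)
    have hAr : ∀ {r p : ι}, Ar Q t c x r p → c r ≠ c p := by
      rintro r p ⟨e, ⟨h1, h2, _⟩ | ⟨h1, h2, _⟩⟩ h
      · exact hs.hl e (h1.symm.trans (h.trans h2))
      · exact hs.hl e (h2.symm.trans (h.symm.trans h1))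
    have hla : l ≠ a := fun h => hAr har (by rw [h])
    have hlb : l ≠ b := fun h => hAr har' (by rw [h])
    have ml := m3 l hla hlb
    have key : ∀ r q : ι, r ∈ R → q ∈ R → Ar Q t c x r q → δ q < δ r →
        mg2 a b l r = mg2 a b l q → mg2 a b l ∈ {f : ι → ι | ∃ e, ∃ r ∈ R, ∃ q ∈ R,
          (c r = Q.src e ∧ c q = Q.tgt e) ∧ f q = f r ∧ ((Q.te e * x q = x r ∧ δ q < δ r) ∨
          (x r = t * Q.te e * x q ∧ δ r < δ q))} := by
      rintro r q hr hq' ⟨e, ⟨h4, h5, h6⟩ | ⟨h4, h5, h6⟩⟩ hd hm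
      · exact ⟨e, r, hr, q, hq', ⟨h4, h5⟩, hm.symm, Or.inl ⟨h6, hd⟩⟩
      · exact ⟨e, q, hq', r, hr, ⟨h5, h4⟩, hm, Or.inr ⟨h6, hd⟩⟩
    by_cases hd : δ a ≤ δ b
    · right
      refine ⟨a, ha, b, hb, ⟨hc, ?_⟩, m1.trans m2.symm, Or.inr ⟨hx, hd⟩⟩
      intro h
      rw [← h] at hx
      apply hs.t1
      have h0 := hq.gs.ne _ (hq.xS a)
      exact (mul_right_cancel₀ h0 (by rw [one_mul]; exact hx)).symm
    · left
      by_cases hd' : δ l < δ a
      · exact key a l ha hl har hd' (m1.trans ml.symm)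
      · exact key l b hl hb har' (by omega) (ml.trans m2.symm)

lemma eq_zero_of_fil {f : HH ι K} (h : ∀ M : ℕ, Fil dg M f) : f = 0 := by
  by_contra hne
  have h1 : f.coeff f.order ≠ 0 := by
    rw [Ne, HahnSeries.coeff_order_eq_zero]; exact hne
  have h2 := h ((dg f.order).toNat + 1) f.order h1
  push_cast at h2
  omega

/-- vanishing of the integrand at positions invariant under a vanishing map -/
lemma UU_zero (hs : Sep Q t) (hq : Gq Q p t x S) {R : Finset ι} {δ : ι → ℤ} {s : ι → HH ι K}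
    (hS : Sb s) {a b : ι} (ha : a ∈ R) (hb : b ∈ R) (hne : a ≠ b) (hc : c a = c b)
    (hx : x a = x b) (hab : s a = s b) : UU Q p t c x R δ s = 0 := by
  apply eq_zero_of_fil
  intro M
  obtain ⟨P, h1, h2⟩ := UU_PP (c := c) hs hq R δ M
  have h3 := h2 s hS
  have h4 := (h1.V b hb a ha hne hc hx).eval (s := s) (by
    funext q
    simp only [Function.comp, mg1]
    by_cases hq : q = a
    · rw [hq, Function.update_self]; exact hab.symm
    · rw [Function.update_of_ne hq]; rfl)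
  rwa [h4, sub_zero] at h3

/-- bounded below in total degree -/
def Bd (f : HH ι K) : Prop := ∃ N : ℕ, Fil dg (-(N : ℤ)) f

lemma Bd.mul {f g : HH ι K} (hf : Bd f) (hg : Bd g) : Bd (f * g) := by
  obtain ⟨N, hN⟩ := hf
  obtain ⟨M, hM⟩ := hg
  refine ⟨N + M, (hN.mul hM).mono ?_⟩
  push_cast
  omega

lemma Bd.one : Bd (1 : HH ι K) := ⟨0, by simpa using Fil.one _⟩

lemma Bd.prod {α : Type*} (s : Finset α) (g : α → HH ι K) (h : ∀ b ∈ s, Bd (g b)) :
    Bd (∏ b ∈ s, g b) := by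
  classical
  induction s using Finset.induction_on with
  | empty => simpa using Bd.one
  | insert b s hb ih =>
    rw [prod_insert hb]
    exact (h b (mem_insert_self b s)).mul (ih fun i hi => h i (mem_insert_of_mem hi))

/-- homogeneous of degree one -/
def Hm (f : HH ι K) : Prop := Fil dg 1 f ∧ Fil (-dg) (-1) f

lemma Hm.u (p : ι) : Hm (u p : HH ι K) := by
  constructor
  · have := Fil.single (K := K) dg (ee p) 1
    rwa [dg_ee] at this
  · have := Fil.single (K := K) (-dg) (ee p) 1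
    rwa [AddMonoidHom.neg_apply, dg_ee] at this

lemma Hm.zero : Hm (0 : HH ι K) := ⟨Fil.zero _ _, Fil.zero _ _⟩

lemma Hm.sub {f g : HH ι K} (hf : Hm f) (hg : Hm g) : Hm (f - g) :=
  ⟨hf.1.sub hg.1, hf.2.sub hg.2⟩

lemma Hm.inv {f : HH ι K} (hf : Hm f) : Bd f⁻¹ := by
  by_cases h0 : f = 0
  · rw [h0, inv_zero]; exact ⟨0, Fil.zero _ _⟩
  have h1 : f.coeff f.order ≠ 0 := by
    rw [Ne, HahnSeries.coeff_order_eq_zero]; exact h0
  have h2 : dg f.order = 1 := by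
    have a := hf.1 _ h1
    have b := hf.2 _ h1
    simp only [AddMonoidHom.neg_apply] at b
    omega
  have := Fil.inv (φ := dg) h0 (by rw [h2]; exact hf.1)
  rw [h2] at this
  exact ⟨1, this⟩

lemma Hm.yy (l : Lam ι E F) : Hm (yy l : HH ι K) := by
  rcases l with q | q | f
  · exact Hm.u _
  · exact Hm.u _
  · exact Hm.zero

lemma Bd.PiR (R : Finset ι) : Bd (PiR Q t c x R) := by
  unfold Res.PiR TT
  apply Bd.mul
  · apply Bd.prod; intro e _
    apply Bd.prod; intro r _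
    apply Bd.prod; intro q _
    split_ifs
    · unfold pg
      apply Bd.mul
      · split_ifs
        · exact ((Hm.u q).sub (Hm.u r)).inv
        · exact Bd.one
      · split_ifs
        · exact ((Hm.u r).sub (Hm.u q)).inv
        · exact Bd.one
    · exact Bd.one
  · apply Bd.prod; intro f _
    apply Bd.prod; intro r _
    split_ifs
    · unfold pf'
      split_ifs
      · exact (Hm.u r).inv
      · exact Bd.one
    · exact Bd.one

lemma Bd.inv_prod {Λ : Type*} (s : Finset Λ) (g : Λ → HH ι K) (h : ∀ l ∈ s, Hm (g l)) :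
    Bd (∏ l ∈ s, g l)⁻¹ := by
  rw [← prod_inv_distrib]
  exact Bd.prod s _ fun l hl => (h l hl).inv

lemma Bd.wI (A0 O : Finset (Lam ι E F)) (l : Lam ι E F) :
    Bd (wI A0 O (yy : Lam ι E F → HH ι K) l) := by
  unfold Res.wI
  exact (Bd.inv_prod _ _ fun l' _ => (Hm.yy l).sub (Hm.yy l')).mul
    (Bd.inv_prod _ _ fun l' _ => (Hm.yy l').sub (Hm.yy l))

lemma Bd.wO (A0 O : Finset (Lam ι E F)) (l : Lam ι E F) :
    Bd (wO A0 O (yy : Lam ι E F → HH ι K) l) := by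
  unfold Res.wO
  exact (Bd.inv_prod _ _ fun l' _ => (Hm.yy l).sub (Hm.yy l')).mul
    (Bd.inv_prod _ _ fun l' _ => (Hm.yy l').sub (Hm.yy l))

lemma cf_small {R : Finset ι} {f g : HH ι K} {N M : ℕ} (hf : Fil dg M f)
    (hg : Fil dg (-(N : ℤ)) g) (h : N < M + R.card + 1 ∧ N < M) : cf R (f * g) = 0 := by
  apply cf_dg (hf.mul hg)
  omega

/-- identities for numerators pass to the integrand -/
lemma transfer {R Y : Finset ι} {U : (ι → HH ι K) → HH ι K}
    (hU : ∀ M : ℕ, ∃ P : MvPolynomial ι K, PP Q t c x R P ∧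
      ∀ s, Sb s → Fil dg M (U s - aeval s P))
    {α : Type*} (T : Finset α) (sσ : α → ι → HH ι K) (hsσ : ∀ σ ∈ T, Sb (sσ σ))
    (W : α → HH ι K) (hW : ∀ σ ∈ T, Bd (W σ)) (P0 : HH ι K) (hP0 : Bd P0)
    (h : ∀ P : MvPolynomial ι K, PP Q t c x R P →
      cf R (aeval (fun p => (u p : HH ι K)) P * P0) = cf Y (∑ σ ∈ T, aeval (sσ σ) P * W σ)) :
    cf R (U (fun p => u p) * P0) = cf Y (∑ σ ∈ T, U (sσ σ) * W σ) := by
  obtain ⟨N0, hN0⟩ := hP0
  have hN : ∃ N : ℕ, ∀ σ ∈ T, Fil dg (-(N : ℤ)) (W σ) := by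
    choose! n hn using hW
    refine ⟨T.sup n, fun σ hσ => (hn σ hσ).mono ?_⟩
    have := le_sup (f := n) hσ
    omega
  obtain ⟨N, hN⟩ := hN
  obtain ⟨P, hP, hPa⟩ := hU (N0 + N + 1)
  have e1 : U (fun p => u p) * P0 = aeval (fun p => (u p : HH ι K)) P * P0 +
      (U (fun p => u p) - aeval (fun p => (u p : HH ι K)) P) * P0 := by ring
  have e2 : ∀ σ, U (sσ σ) * W σ = aeval (sσ σ) P * W σ + (U (sσ σ) - aeval (sσ σ) P) * W σ :=
    fun σ => by ring
  rw [e1, cf_add, h P hP, cf_small (hPa _ Sb.u) hN0 (by constructor <;> omega), add_zero]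
  simp_rw [e2]
  rw [sum_add_distrib, cf_add]
  have e3 : cf Y (∑ σ ∈ T, (U (sσ σ) - aeval (sσ σ) P) * W σ) = 0 := by
    rw [cf_sum]
    apply sum_eq_zero
    intro σ hσ
    exact cf_small (hPa _ (hsσ σ hσ)) (hN σ hσ) (by constructor <;> omega)
  rw [e3, add_zero]

end Pool.Agent.Run7.h657.Res
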