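import Pool.Agent.Run7.h657.RN

/-! The residues at a vertex computed with the poles of the other type. -/

set_option linter.unusedSectionVars false

namespace Pool.Agent.Run7.h657.Res

open Finset MvPolynomial

variable {ι K I E F : Type*} [LinearOrder ι] [Field K] [Fintype I] [Fintype E] [Fintype F]
  [DecidableEq I] [DecidableEq E] [DecidableEq F] [DecidableEq K]

lemma prod_coe_split {M : Type*} [CommMonoid M] {A : Finset ι} {b : ι} (hb : b ∈ A)
    (G : A → M) : ∏ a : A, G a = G ⟨b, hb⟩ *
      ∏ a : (A.erase b : Finset ι), G ⟨a.1, mem_of_mem_erase a.2⟩ := by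
  classical
  set G' : ι → M := fun p => if h : p ∈ A then G ⟨p, h⟩ else 1 with hG'
  have h1 : ∏ a : A, G a = ∏ p ∈ A, G' p := by
    rw [← prod_coe_sort A G']
    apply prod_congr rfl
    intro a _
    rw [hG']
    simp only
    rw [dif_pos a.2]
  have h2 : ∏ a : (A.erase b : Finset ι), G ⟨a.1, mem_of_mem_erase a.2⟩ =
      ∏ p ∈ A.erase b, G' p := by
    rw [← prod_coe_sort (A.erase b) G']
    apply prod_congr rfl
    intro a _
    rw [hG']
    simp only
    rw [dif_pos (mem_of_mem_erase a.2)]
  rw [h1, h2, ← mul_prod_erase A G' hb]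
  congr 1
  rw [hG']
  simp only
  rw [dif_pos hb]

/-- splitting off one letter -/
lemma pi_split {A : Finset ι} {b : ι} (hb : b ∈ A) (T : ι → Finset (Lam ι E F))
    (g : (ι → HH ι K) → HH ι K) (W : ι → Lam ι E F → HH ι K) :
    ∑ σ ∈ Fintype.piFinset (fun a : A => T a.1), g (tie A σ) * ∏ a : A, W a.1 (σ a) =
      ∑ σ ∈ Fintype.piFinset (fun a : (A.erase b : Finset ι) => T a.1),
        (∑ l ∈ T b, g (Function.update (tie (A.erase b) σ) b (yy l)) * W b l) *
          ∏ a : (A.erase b : Finset ι), W a.1 (σ a) := by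
  classical
  have h1 : ∀ σ : ↥(A.erase b) → Lam ι E F,
      (∑ l ∈ T b, g (Function.update (tie (A.erase b) σ) b (yy l)) * W b l) *
          ∏ a : (A.erase b : Finset ι), W a.1 (σ a) =
      ∑ l ∈ T b, g (Function.update (tie (A.erase b) σ) b (yy l)) * W b l *
          ∏ a : (A.erase b : Finset ι), W a.1 (σ a) := by
    intro σ
    rw [sum_mul]
  simp_rw [h1]
  rw [← sum_product']
  refine sum_nbij' (fun σ => (fun a => σ ⟨a.1, mem_of_mem_erase a.2⟩, σ ⟨b, hb⟩))
    (fun z a => if h : a.1 = b then z.2 else z.1 ⟨a.1, mem_erase.2 ⟨h, a.2⟩⟩) ?_ ?_ ?_ ?_ ?_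
  · intro σ hσ
    rw [Fintype.mem_piFinset] at hσ
    rw [mem_product, Fintype.mem_piFinset]
    exact ⟨fun a => hσ _, hσ _⟩
  · intro z hz
    rw [mem_product, Fintype.mem_piFinset] at hz
    rw [Fintype.mem_piFinset]
    intro a
    by_cases h : a.1 = b
    · simp only [h, dif_pos]
      exact hz.2
    · rw [dif_neg h]
      exact hz.1 _
  · intro σ _
    funext a
    by_cases h : a.1 = b
    · simp only [h, dif_pos]
      congr 1
      exact Subtype.ext h.symm
    · simp only [dif_neg h]
  · intro z _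
    ext1
    · funext a
      simp only [dif_neg (ne_of_mem_erase a.2)]
    · simp
  · intro σ _
    rw [prod_coe_split hb (fun a => W a.1 (σ a))]
    have h2 : Function.update (tie (A.erase b) (fun a => σ ⟨a.1, mem_of_mem_erase a.2⟩)) b
        (yy (σ ⟨b, hb⟩) : HH ι K) = tie A σ := by
      funext q
      by_cases hq : q = b
      · subst hq
        rw [Function.update_self, tie_of σ hb]
      · rw [Function.update_of_ne hq]
        by_cases hqA : q ∈ A
        · rw [tie_of σ hqA, tie_of _ (mem_erase.2 ⟨hq, hqA⟩)]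
        · rw [tie_not σ hqA, tie_not _ (fun h => hqA (mem_of_mem_erase h))]
    simp only
    rw [h2]
    ring

variable {Q : QD K I E F} {p t : K} {c : ι → I} {x : ι → K} {S : Set K}

/-- the set of poles used for a letter -/
def SX (Q : QD K I E F) (t : K) (c : ι → I) (x : ι → K) (i : I) (Y C : Finset ι) (a : ι) :
    Finset (Lam ι E F) := if a ∈ C then In Q t c x i Y (t * x a) else In Q t c x i Y (x a)

/-- the weights -/
noncomputable def wX (Q : QD K I E F) (t : K) (c : ι → I) (x : ι → K) (i : I) (Y C : Finset ι)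
    (a : ι) (l : Lam ι E F) : HH ι K :=
  if a ∈ C then wO (In Q t c x i Y (x a)) (In Q t c x i Y (t * x a)) yy l
  else wI (In Q t c x i Y (x a)) (In Q t c x i Y (t * x a)) yy l

/-- mixed sums of residues -/
noncomputable def Mx (Q : QD K I E F) (t : K) (c : ι → I) (x : ι → K) (i : I) (Y A C : Finset ι)
    (P : MvPolynomial ι K) : K :=
  cf Y (PiR Q t c x Y * ∑ σ ∈ Fintype.piFinset (fun a : A => SX Q t c x i Y C a.1),
    MvPolynomial.aeval (tie A σ) P * ∏ a : A, wX Q t c x i Y C a.1 (σ a))

theorem Mx_eq (hs : Sep Q t) (hL : LS Q t c x) {i : I} {Y : Finset ι} {n' : ℕ}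
    (hY : ∀ r ∈ Y, c r ≠ i)
    (hZ : ∀ A : Finset ι, (∀ a ∈ A, c a = i) → A.card < n' → ∀ P : MvPolynomial ι K,
      PP Q t c x (A ∪ Y) P → J Q t c x (A ∪ Y) P = 0) (C : Finset ι) :
    ∀ A : Finset ι, (∀ a ∈ A, c a = i) → A.card ≤ n' → ∀ P : MvPolynomial ι K,
      PP Q t c x (A ∪ Y) P → Mx Q t c x i Y A C P = J Q t c x (A ∪ Y) P := by
  classical
  induction C using Finset.induction_on with
  | empty =>
    intro A hA _ P _
    rw [J_elim hs hL i A Y hA hY P]
    unfold Mx SX wX
    simp
  | insert b C hb ih =>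
    intro A hA hn P hP
    by_cases hbA : b ∈ A
    · have hcb := hA b hbA
      have hbY : b ∉ Y := fun h => hY b h hcb
      have he : (A ∪ Y).erase b = A.erase b ∪ Y := by
        rw [erase_union_distrib, erase_eq_of_notMem hbY]
      have hA' : ∀ a ∈ A.erase b, c a = i := fun a ha => hA a (mem_of_mem_erase ha)
      have hcard : (A.erase b).card < A.card := card_erase_lt_of_mem hbA
      have hdn : PP Q t c x (A.erase b ∪ Y) (dn Q t c x (A ∪ Y) b P) := by
        rw [← he]
        apply dn_PP
        · intro r hr q hq hne hc hx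
          exact hP.V r (mem_of_mem_erase hr) q (mem_of_mem_erase hq) hne hc hx
        · intro q hq b' hb' l hl hc hx h1 h2
          exact hP.W q (mem_of_mem_erase hq) b' (mem_of_mem_erase hb') l (mem_of_mem_erase hl)
            hc hx h1 h2
      have h1 := ih A hA hn P hP
      have h2 := ih (A.erase b) hA' (by omega) _ hdn
      rw [hZ (A.erase b) hA' (by omega) _ hdn] at h2
      have hSX : ∀ a : (A.erase b : Finset ι), SX Q t c x i Y (insert b C) a.1 =
          SX Q t c x i Y C a.1 := by
        intro a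
        unfold SX
        have : a.1 ≠ b := ne_of_mem_erase a.2
        simp [mem_insert, this]
      have hwX : ∀ (a : (A.erase b : Finset ι)) l, wX Q t c x i Y (insert b C) a.1 l =
          (wX Q t c x i Y C a.1 l : HH ι K) := by
        intro a l
        unfold wX
        have : a.1 ≠ b := ne_of_mem_erase a.2
        simp [mem_insert, this]
      have e1 := pi_split hbA (SX Q t c x i Y (insert b C)) (fun s => aeval s P)
        (wX Q t c x i Y (insert b C))
      have e2 := pi_split hbA (SX Q t c x i Y C) (fun s => aeval s P) (wX Q t c x i Y C)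
      have hRA : RY c (A ∪ Y) i = Y := RY_of hA hY
      have key : Mx Q t c x i Y A (insert b C) P =
          Mx Q t c x i Y A C P - Mx Q t c x i Y (A.erase b) C (dn Q t c x (A ∪ Y) b P) := by
        unfold Mx
        rw [e1, e2, ← cf_sub, ← mul_sub, ← sum_sub_distrib]
        congr 2
        simp_rw [hSX, hwX]
        apply sum_congr rfl
        intro σ hσ
        rw [← sub_mul]
        congr 1
        have h3 := dn_eval hs hL (R := A ∪ Y) (a := b) hP.sup (tie (A.erase b) σ) (by
          intro q hq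
          rw [hcb, hRA] at hq
          exact tie_not σ (fun h => hY q hq (hA' q h)))
        rw [hcb, hRA] at h3
        rw [h3]
        unfold SX wX
        simp only [mem_insert_self, if_true, if_neg hb]
        ring
      rw [key, h1, h2, sub_zero]
    · have : Mx Q t c x i Y A (insert b C) P = Mx Q t c x i Y A C P := by
        unfold Mx
        have hSX : ∀ a : A, SX Q t c x i Y (insert b C) a.1 = SX Q t c x i Y C a.1 := by
          intro a
          unfold SX
          have : a.1 ≠ b := fun h => hbA (by rw [← h]; exact a.2)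
          simp [mem_insert, this]
        have hwX : ∀ (a : A) l, wX Q t c x i Y (insert b C) a.1 l =
            (wX Q t c x i Y C a.1 l : HH ι K) := by
          intro a l
          unfold wX
          have : a.1 ≠ b := fun h => hbA (by rw [← h]; exact a.2)
          simp [mem_insert, this]
        simp_rw [hSX, hwX]
      rw [this]
      exact ih A hA hn P hP

lemma tie_Sb {A : Finset ι} (σ : A → Lam ι E F) : Sb (tie A σ : ι → HH ι K) := by
  intro q
  by_cases hq : q ∈ A
  · rw [tie_of σ hq]
    rcases σ ⟨q, hq⟩ with z | z | f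
    · exact Or.inr ⟨z.2, rfl⟩
    · exact Or.inr ⟨z.2, rfl⟩
    · exact Or.inl rfl
  · rw [tie_not σ hq]
    exact Or.inr ⟨q, rfl⟩

/-- the residue of the integrand -/
noncomputable def JU (Q : QD K I E F) (p t : K) (c : ι → I) (x : ι → K) (R : Finset ι)
    (δ : ι → ℤ) : K :=
  cf R (UU Q p t c x R δ (fun q => u q) * PiR Q t c x R)

/-- poles of the first type -/
theorem JU_in (hs : Sep Q t) (hL : LS Q t c x) (hq : Gq Q p t x S) {i : I} {A Y : Finset ι}
    (hA : ∀ a ∈ A, c a = i) (hY : ∀ r ∈ Y, c r ≠ i) (δ : ι → ℤ) :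
    JU Q p t c x (A ∪ Y) δ = cf Y (∑ σ ∈ Fintype.piFinset
      (fun a : A => In Q t c x i Y (x a.1)), UU Q p t c x (A ∪ Y) δ (tie A σ) *
        (PiR Q t c x Y *
          ∏ a : A, wI (In Q t c x i Y (x a.1)) (In Q t c x i Y (t * x a.1)) yy (σ a))) := by
  unfold JU
  apply transfer (UU_PP hs hq (A ∪ Y) δ) _ _ (fun σ _ => tie_Sb σ)
  · intro σ _
    exact (Bd.PiR Y).mul (Bd.prod _ _ fun a _ => Bd.wI _ _ _)
  · exact Bd.PiR _
  · intro P _
    have h1 := J_elim hs hL i A Y hA hY P
    unfold J at h1
    rw [h1, mul_sum]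
    congr 1
    apply sum_congr rfl
    intro σ _
    ring

/-- poles of the second type -/
theorem JU_out (hs : Sep Q t) (hL : LS Q t c x) (hq : Gq Q p t x S) {i : I} {A Y : Finset ι}
    (hA : ∀ a ∈ A, c a = i) (hY : ∀ r ∈ Y, c r ≠ i)
    (hZ : ∀ A' : Finset ι, (∀ a ∈ A', c a = i) → A'.card < A.card → ∀ P : MvPolynomial ι K,
      PP Q t c x (A' ∪ Y) P → J Q t c x (A' ∪ Y) P = 0) (δ : ι → ℤ) :
    JU Q p t c x (A ∪ Y) δ = cf Y (∑ σ ∈ Fintype.piFinset
      (fun a : A => In Q t c x i Y (t * x a.1)), UU Q p t c x (A ∪ Y) δ (tie A σ) *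
        (PiR Q t c x Y *
          ∏ a : A, wO (In Q t c x i Y (x a.1)) (In Q t c x i Y (t * x a.1)) yy (σ a))) := by
  unfold JU
  apply transfer (UU_PP hs hq (A ∪ Y) δ) _ _ (fun σ _ => tie_Sb σ)
  · intro σ _
    exact (Bd.PiR Y).mul (Bd.prod _ _ fun a _ => Bd.wO _ _ _)
  · exact Bd.PiR _
  · intro P hP
    have h1 := Mx_eq hs hL hY hZ A A hA le_rfl P hP
    unfold J at h1
    rw [← h1]
    unfold Mx
    have hSX : ∀ a : A, SX Q t c x i Y A a.1 = In Q t c x i Y (t * x a.1) := by
      intro a
      unfold SX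
      rw [if_pos a.2]
    have hwX : ∀ (a : A) l, wX Q t c x i Y A a.1 l =
        (wO (In Q t c x i Y (x a.1)) (In Q t c x i Y (t * x a.1)) yy l : HH ι K) := by
      intro a l
      unfold wX
      rw [if_pos a.2]
    simp_rw [hSX, hwX]
    rw [mul_sum]
    congr 1
    apply sum_congr rfl
    intro σ _
    ring

end Pool.Agent.Run7.h657.Res
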