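import Pool.Agent.Run7.h657.LL

/-! The duality at a vertex for positions in general position. -/

set_option linter.unusedSectionVars false

namespace Pool.Agent.Run7.h657

open Finset

variable {G : Type*} [Field G]
variable {A B L : Type*} [Fintype A] [Fintype B] [Fintype L] [DecidableEq A] [DecidableEq B]
  [DecidableEq L]

/-- the part of the summand at one vertex, integer degrees -/
def fullZ (p t : G) (x : A → G) (y : L → G) (e : L → ℤ) (δ : A → ℤ) : G :=
  (∏ a, ∏ l, Qz p t (x a / y l) (δ a - e l)) / ∏ a, ∏ a', Qz p t (x a / x a') (δ a - δ a')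

/-- positions in general position -/
structure Gz (p t : G) (Z : L → G) : Prop where
  z0 : ∀ l, Z l ≠ 0
  n1 : ∀ l l', l ≠ l' → ∀ j : ℤ, p * (Z l / Z l') * p ^ j ≠ 1
  n2 : ∀ l l', l ≠ l' → ∀ j : ℤ, t * (Z l / Z l') * p ^ j ≠ 1

/-- the constant -/
def basG (p t : G) (Z : L → G) (w : A ⊕ B ≃ L) (e : L → ℕ) : G :=
  ∏ a, ∏ b, Qz p t (Z (w (Sum.inl a)) / Z (w (Sum.inr b)))
    ((e (w (Sum.inl a)) : ℤ) - e (w (Sum.inr b)))

/-- shifted weights -/
def xg (p : G) (Z : L → G) (w : A ⊕ B ≃ L) (e : L → ℕ) (a : A) : G :=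
  Z (w (Sum.inl a)) * p ^ (e (w (Sum.inl a)))

/-- shifted weights -/
def yg (p : G) (Z : L → G) (w : A ⊕ B ≃ L) (e : L → ℕ) (b : B) : G :=
  1 / (Z (w (Sum.inr b)) * p ^ (e (w (Sum.inr b))))

variable {p t : G} {Z : L → G}

lemma Gz.ne (h : Gz p t Z) (hp : p ≠ 0) {l l' : L} (hl : l ≠ l') (m : ℤ) :
    Qz p t (Z l / Z l') m ≠ 0 :=
  Qz_ne hp _ _ fun j _ => ⟨h.n2 l l' hl j, h.n1 l l' hl j⟩

lemma w_inl {w : A ⊕ B ≃ L} {a a' : A} (h : a ≠ a') : w (Sum.inl a) ≠ w (Sum.inl a') :=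
  fun h' => h (Sum.inl_injective (w.injective h'))

lemma w_inr {w : A ⊕ B ≃ L} {b b' : B} (h : b ≠ b') : w (Sum.inr b) ≠ w (Sum.inr b') :=
  fun h' => h (Sum.inr_injective (w.injective h'))

lemma w_lr {w : A ⊕ B ≃ L} {a : A} {b : B} : w (Sum.inl a) ≠ w (Sum.inr b) :=
  fun h' => absurd (w.injective h') (by simp)

lemma full_xg (ok : Ok p t) (h : Gz p t Z) (w : A ⊕ B ≃ L) (e : L → ℕ) (k : A → ℕ) :
    fullZ p t (fun a => Z (w (Sum.inl a))) Z (fun l => (e l : ℤ))
        (fun a => ((e (w (Sum.inl a)) + k a : ℕ) : ℤ)) =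
      basG p t Z w e * trm p t (xg p Z w e) (yg p Z w e) k := by
  have hp := ok.hp
  have ht := ok.ht
  have hden : ∀ a a', Qz p t (Z (w (Sum.inl a)) / Z (w (Sum.inl a')))
      (((e (w (Sum.inl a)) + k a : ℕ) : ℤ) - ((e (w (Sum.inl a')) + k a' : ℕ) : ℤ)) ≠ 0 := by
    intro a a'
    by_cases haa : a = a'
    · subst haa
      rw [sub_self, Qz_zero]
      exact one_ne_zero
    · exact h.ne hp (w_inl haa) _
  have hspl : ∀ a, ∏ l, Qz p t (Z (w (Sum.inl a)) / Z l)
      (((e (w (Sum.inl a)) + k a : ℕ) : ℤ) - e l) =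
      (∏ a', Qz p t (Z (w (Sum.inl a)) / Z (w (Sum.inl a')))
        (((e (w (Sum.inl a)) + k a : ℕ) : ℤ) - e (w (Sum.inl a')))) *
      ∏ b, Qz p t (Z (w (Sum.inl a)) / Z (w (Sum.inr b)))
        (((e (w (Sum.inl a)) + k a : ℕ) : ℤ) - e (w (Sum.inr b))) := by
    intro a
    rw [← w.prod_comp, Fintype.prod_sum_type]
  have h1 : ∀ a a', Qz p t (Z (w (Sum.inl a)) / Z (w (Sum.inl a')))
        (((e (w (Sum.inl a)) + k a : ℕ) : ℤ) - e (w (Sum.inl a'))) =
      Qz p t (Z (w (Sum.inl a)) / Z (w (Sum.inl a')))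
        (((e (w (Sum.inl a)) + k a : ℕ) : ℤ) - ((e (w (Sum.inl a')) + k a' : ℕ) : ℤ)) *
      ph p t ((xg p Z w e a * p ^ k a) / (xg p Z w e a' * p ^ k a')) (k a') := by
    intro a a'
    have e1 : (((e (w (Sum.inl a)) + k a : ℕ) : ℤ) - e (w (Sum.inl a'))) =
      (((e (w (Sum.inl a)) + k a : ℕ) : ℤ) - ((e (w (Sum.inl a')) + k a' : ℕ) : ℤ)) + (k a' : ℕ) := by
      push_cast; ring
    rw [e1, Qz_add hp]
    · congr 2
      rw [zpow_sub₀ hp, zpow_natCast, zpow_natCast]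
      unfold xg
      have := h.z0 (w (Sum.inl a'))
      rw [pow_add, pow_add]
      have := pow_ne_zero (e (w (Sum.inl a'))) hp
      have := pow_ne_zero (k a') hp
      field_simp
    · intro hm j hj1 hj2
      by_cases haa : a = a'
      · subst haa; omega
      · exact ⟨h.n2 _ _ (w_inl haa) j, h.n1 _ _ (w_inl haa) j⟩
  have h2 : ∀ a b, Qz p t (Z (w (Sum.inl a)) / Z (w (Sum.inr b)))
        (((e (w (Sum.inl a)) + k a : ℕ) : ℤ) - e (w (Sum.inr b))) =
      Qz p t (Z (w (Sum.inl a)) / Z (w (Sum.inr b)))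
        ((e (w (Sum.inl a)) : ℤ) - e (w (Sum.inr b))) *
      ph p t (xg p Z w e a * yg p Z w e b) (k a) := by
    intro a b
    have e1 : (((e (w (Sum.inl a)) + k a : ℕ) : ℤ) - e (w (Sum.inr b))) =
      ((e (w (Sum.inl a)) : ℤ) - e (w (Sum.inr b))) + (k a : ℕ) := by
      push_cast; ring
    rw [e1, Qz_add hp]
    · congr 2
      rw [zpow_sub₀ hp, zpow_natCast, zpow_natCast]
      unfold xg yg
      have := h.z0 (w (Sum.inr b))
      have := pow_ne_zero (e (w (Sum.inr b))) hp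
      field_simp
    · intro hm j hj1 hj2
      exact ⟨h.n2 _ _ w_lr j, h.n1 _ _ w_lr j⟩
  unfold fullZ
  simp only [hspl, h1, h2, prod_mul_distrib]
  unfold basG trm wt cr
  have hD : ∏ a, ∏ a', Qz p t (Z (w (Sum.inl a)) / Z (w (Sum.inl a')))
      (((e (w (Sum.inl a)) + k a : ℕ) : ℤ) - ((e (w (Sum.inl a')) + k a' : ℕ) : ℤ)) ≠ 0 :=
    prod_ne_zero_iff.2 fun a _ => prod_ne_zero_iff.2 fun a' _ => hden a a'
  rw [div_eq_iff hD]
  ring

lemma full_yg (ok : Ok p t) (h : Gz p t Z) (w : A ⊕ B ≃ L) (e : L → ℕ)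
    (k : B → ℕ) (δ : B → ℤ) (hk : ∀ b, δ b = (e (w (Sum.inr b)) : ℤ) - k b) :
    fullZ p t (fun b => Z (w (Sum.inr b)) / t) Z (fun l => (e l : ℤ)) δ =
      (p / t) ^ ((Fintype.card B : ℤ) * ∑ l, (e l : ℤ) -
        ((Fintype.card A : ℤ) + Fintype.card B) * ∑ b, δ b) *
      (basG p t Z w e * trm p t (yg p Z w e) (xg p Z w e) k) := by
  have hp := ok.hp
  have ht := ok.ht
  have hc : p / t ≠ 0 := div_ne_zero hp ht
  have hk' : ∀ b, (e (w (Sum.inr b)) : ℤ) = δ b + k b := fun b => by rw [hk b]; ring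
  have hcan : ∀ b b', Z (w (Sum.inr b)) / t / (Z (w (Sum.inr b')) / t) =
      Z (w (Sum.inr b)) / Z (w (Sum.inr b')) := by
    intro b b'
    field_simp
  have hden : ∀ b b', Qz p t (Z (w (Sum.inr b)) / Z (w (Sum.inr b'))) (δ b - δ b') ≠ 0 := by
    intro b b'
    by_cases hbb : b = b'
    · subst hbb
      rw [sub_self, Qz_zero]
      exact one_ne_zero
    · exact h.ne hp (w_inr hbb) _
  have hspl : ∀ b, ∏ l, Qz p t (Z (w (Sum.inr b)) / t / Z l) (δ b - e l) =
      (∏ a, Qz p t (Z (w (Sum.inr b)) / t / Z (w (Sum.inl a))) (δ b - e (w (Sum.inl a)))) *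
      ∏ b', Qz p t (Z (w (Sum.inr b)) / t / Z (w (Sum.inr b'))) (δ b - e (w (Sum.inr b'))) := by
    intro b
    rw [← w.prod_comp, Fintype.prod_sum_type]
  have h1 : ∀ b b', Qz p t (Z (w (Sum.inr b)) / t / Z (w (Sum.inr b')))
        (δ b - e (w (Sum.inr b'))) =
      (p / t) ^ ((e (w (Sum.inr b')) : ℤ) - δ b) *
      (Qz p t (Z (w (Sum.inr b')) / Z (w (Sum.inr b))) (δ b' - δ b) *
      ph p t ((yg p Z w e b * p ^ k b) / (yg p Z w e b' * p ^ k b')) (k b')) := by
    intro b b'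
    have z1 := h.z0 (w (Sum.inr b))
    have z2 := h.z0 (w (Sum.inr b'))
    have e1 : Z (w (Sum.inr b)) / t / Z (w (Sum.inr b')) =
        1 / (t * (Z (w (Sum.inr b')) / Z (w (Sum.inr b)))) := by
      field_simp
    have e2 : (δ b - e (w (Sum.inr b'))) = -((e (w (Sum.inr b')) : ℤ) - δ b) := by ring
    rw [e1, e2, Qz_refl hp ht _ (div_ne_zero z2 z1)]
    have e3 : ((e (w (Sum.inr b')) : ℤ) - δ b) = (δ b' - δ b) + (k b' : ℕ) := by
      rw [hk' b']; ring
    rw [e3, Qz_add hp]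
    · congr 3
      unfold yg
      have e4 : p ^ (δ b' - δ b) = (p ^ e (w (Sum.inr b')) * p ^ k b) /
          (p ^ e (w (Sum.inr b)) * p ^ k b') := by
        rw [hk b, hk b', ← pow_add, ← pow_add, ← zpow_natCast, ← zpow_natCast, ← zpow_sub₀ hp]
        congr 1
        push_cast
        ring
      rw [e4]
      have := pow_ne_zero (e (w (Sum.inr b))) hp
      have := pow_ne_zero (k b) hp
      have := pow_ne_zero (e (w (Sum.inr b'))) hp
      have := pow_ne_zero (k b') hp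
      field_simp
    · intro hm j hj1 hj2
      by_cases hbb : b' = b
      · subst hbb; omega
      · exact ⟨h.n2 _ _ (w_inr hbb) j, h.n1 _ _ (w_inr hbb) j⟩
  have h2 : ∀ b a, Qz p t (Z (w (Sum.inr b)) / t / Z (w (Sum.inl a)))
        (δ b - e (w (Sum.inl a))) =
      (p / t) ^ ((e (w (Sum.inl a)) : ℤ) - δ b) *
      (Qz p t (Z (w (Sum.inl a)) / Z (w (Sum.inr b)))
        ((e (w (Sum.inl a)) : ℤ) - e (w (Sum.inr b))) *
      ph p t (yg p Z w e b * xg p Z w e a) (k b)) := by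
    intro b a
    have z1 := h.z0 (w (Sum.inr b))
    have z2 := h.z0 (w (Sum.inl a))
    have e1 : Z (w (Sum.inr b)) / t / Z (w (Sum.inl a)) =
        1 / (t * (Z (w (Sum.inl a)) / Z (w (Sum.inr b)))) := by
      field_simp
    have e2 : (δ b - e (w (Sum.inl a))) = -((e (w (Sum.inl a)) : ℤ) - δ b) := by ring
    rw [e1, e2, Qz_refl hp ht _ (div_ne_zero z2 z1)]
    have e3 : ((e (w (Sum.inl a)) : ℤ) - δ b) =
      ((e (w (Sum.inl a)) : ℤ) - e (w (Sum.inr b))) + (k b : ℕ) := by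
      rw [hk' b]; ring
    have e4 : (p / t) ^ ((e (w (Sum.inl a)) : ℤ) - δ b) =
      (p / t) ^ (((e (w (Sum.inl a)) : ℤ) - e (w (Sum.inr b))) + (k b : ℕ)) := by rw [e3]
    rw [e4, e3, Qz_add hp]
    · congr 3
      rw [zpow_sub₀ hp, zpow_natCast, zpow_natCast]
      unfold xg yg
      have := pow_ne_zero (e (w (Sum.inr b))) hp
      field_simp
    · intro hm j hj1 hj2
      exact ⟨h.n2 _ _ w_lr j, h.n1 _ _ w_lr j⟩
  unfold fullZ
  simp only [hspl, h1, h2, hcan, prod_mul_distrib, zprod hc]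
  unfold basG trm wt cr
  have hD : ∏ b, ∏ b', Qz p t (Z (w (Sum.inr b)) / Z (w (Sum.inr b'))) (δ b - δ b') ≠ 0 :=
    prod_ne_zero_iff.2 fun a _ => prod_ne_zero_iff.2 fun a' _ => hden a a'
  rw [div_eq_iff hD]
  have hD2 : ∏ b, ∏ b', Qz p t (Z (w (Sum.inr b')) / Z (w (Sum.inr b))) (δ b' - δ b) =
    ∏ b, ∏ b', Qz p t (Z (w (Sum.inr b)) / Z (w (Sum.inr b'))) (δ b - δ b') := prod_comm
  rw [hD2]
  have hD3 : ∏ b, ∏ a, Qz p t (Z (w (Sum.inl a)) / Z (w (Sum.inr b)))
      ((e (w (Sum.inl a)) : ℤ) - e (w (Sum.inr b))) =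
    ∏ a, ∏ b, Qz p t (Z (w (Sum.inl a)) / Z (w (Sum.inr b)))
      ((e (w (Sum.inl a)) : ℤ) - e (w (Sum.inr b))) := prod_comm
  rw [hD3]
  have hE : (∑ l, (e l : ℤ)) = ∑ a, (e (w (Sum.inl a)) : ℤ) + ∑ b, (e (w (Sum.inr b)) : ℤ) := by
    rw [← w.sum_comp, Fintype.sum_sum_type]
  have hx : (p / t) ^ ((Fintype.card B : ℤ) * ∑ l, (e l : ℤ) -
        ((Fintype.card A : ℤ) + Fintype.card B) * ∑ b, δ b) =
      (p / t) ^ (∑ b, ∑ a, ((e (w (Sum.inl a)) : ℤ) - δ b)) *
      (p / t) ^ (∑ b, ∑ b', ((e (w (Sum.inr b')) : ℤ) - δ b)) := by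
    rw [← zpow_add₀ hc, hE]
    congr 1
    simp only [sum_sub_distrib, sum_const, card_univ, nsmul_eq_mul, ← mul_sum]
    ring
  rw [hx]
  ring

lemma Qz_one_neg {p t : G} (hp : p ≠ 0) {m : ℤ} (hm : m < 0) : Qz p t 1 m = 0 := by
  obtain ⟨n, rfl⟩ : ∃ n : ℕ, m = Int.negSucc n := by
    rcases m with n | n
    · simp only [Int.ofNat_eq_natCast] at hm; omega
    · exact ⟨n, rfl⟩
  show (ph p t (1 * (p ^ (n + 1))⁻¹) (n + 1))⁻¹ = 0
  unfold ph
  rw [poch_eq_zero (p := p) (x := p * (1 * (p ^ (n + 1))⁻¹)) (j := n) (Nat.lt_succ_self n),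
    div_zero, inv_zero]
  rw [one_mul, mul_right_comm, ← pow_succ']
  exact mul_inv_cancel₀ (pow_ne_zero _ hp)

lemma Qz_t_pos {p t : G} (ht : t ≠ 0) {m : ℤ} (hm : 0 < m) : Qz p t (1 / t) m = 0 := by
  obtain ⟨n, rfl⟩ : ∃ n : ℕ, m = (n + 1 : ℕ) := ⟨(m - 1).toNat, by omega⟩
  rw [Qz_nat]
  unfold ph
  rw [poch_eq_zero (j := 0) (Nat.succ_pos n), zero_div]
  field_simp

lemma full_x_zero (ok : Ok p t) (h : Gz p t Z) (w : A ⊕ B ≃ L) (e : L → ℤ) (δ : A → ℤ) {a : A}
    (ha : δ a < e (w (Sum.inl a))) : fullZ p t (fun a => Z (w (Sum.inl a))) Z e δ = 0 := by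
  unfold fullZ
  rw [prod_eq_zero (mem_univ a), zero_div]
  apply prod_eq_zero (mem_univ (w (Sum.inl a)))
  rw [div_self (h.z0 _)]
  exact Qz_one_neg ok.hp (by omega)

lemma full_y_zero (ok : Ok p t) (h : Gz p t Z) (w : A ⊕ B ≃ L) (e : L → ℤ) (δ : B → ℤ) {b : B}
    (hb : e (w (Sum.inr b)) < δ b) : fullZ p t (fun b => Z (w (Sum.inr b)) / t) Z e δ = 0 := by
  unfold fullZ
  rw [prod_eq_zero (mem_univ b), zero_div]
  apply prod_eq_zero (mem_univ (w (Sum.inr b)))
  have := h.z0 (w (Sum.inr b))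
  have e1 : Z (w (Sum.inr b)) / t / Z (w (Sum.inr b)) = 1 / t := by field_simp
  rw [e1]
  exact Qz_t_pos ok.ht (by omega)

lemma sum_xg (ok : Ok p t) (h : Gz p t Z) (w : A ⊕ B ≃ L) (e : L → ℕ) (D : ℕ) :
    ∑ δ ∈ piAntidiag univ D, fullZ p t (fun a => Z (w (Sum.inl a))) Z (fun l => (e l : ℤ))
      (fun a => (δ a : ℤ)) =
      if ∑ a, e (w (Sum.inl a)) ≤ D then
        basG p t Z w e * cf p t (xg p Z w e) (yg p Z w e) (D - ∑ a, e (w (Sum.inl a)))
      else 0 := by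
  have hfil : ∑ δ ∈ piAntidiag univ D, fullZ p t (fun a => Z (w (Sum.inl a))) Z
      (fun l => (e l : ℤ)) (fun a => (δ a : ℤ)) =
      ∑ δ ∈ piAntidiag univ D with ∀ a, e (w (Sum.inl a)) ≤ δ a,
        fullZ p t (fun a => Z (w (Sum.inl a))) Z (fun l => (e l : ℤ)) (fun a => (δ a : ℤ)) := by
    rw [sum_filter]
    apply sum_congr rfl
    intro δ _
    split_ifs with hk
    · rfl
    · push Not at hk
      obtain ⟨a, ha⟩ := hk
      exact full_x_zero ok h w _ _ (a := a) (by exact_mod_cast ha)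
  rw [hfil]
  split_ifs with hD
  · unfold cf
    rw [mul_sum]
    refine sum_nbij' (fun δ a => δ a - e (w (Sum.inl a))) (fun k a => e (w (Sum.inl a)) + k a)
      ?_ ?_ ?_ ?_ ?_
    · intro δ hδ
      simp only [mem_filter, mem_piAntidiag, mem_univ, implies_true, and_true] at hδ ⊢
      rw [← hδ.1, Finset.sum_tsub_distrib _ (fun a _ => hδ.2 a)]
    · intro k hk
      simp only [mem_filter, mem_piAntidiag, mem_univ, implies_true, and_true] at hk ⊢
      refine ⟨?_, fun a => Nat.le_add_right _ _⟩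
      rw [sum_add_distrib, hk]
      omega
    · intro δ hδ
      simp only [mem_filter] at hδ
      funext a
      have := hδ.2 a
      dsimp only
      omega
    · intro k _
      funext a
      simp
    · intro δ hδ
      simp only [mem_filter] at hδ
      rw [← full_xg ok h w e]
      congr 1
      funext a
      have := hδ.2 a
      show (δ a : ℤ) = ((e (w (Sum.inl a)) + (δ a - e (w (Sum.inl a))) : ℕ) : ℤ)
      congr 1
      omega
  · apply sum_eq_zero
    intro δ hδ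
    exfalso
    apply hD
    simp only [mem_filter, mem_piAntidiag, mem_univ, implies_true, and_true] at hδ
    rw [← hδ.1]
    exact sum_le_sum fun a _ => hδ.2 a

lemma Gz.reg (h : Gz p t Z) (hp : p ≠ 0) (w : A ⊕ B ≃ L) (e : L → ℕ) :
    Reg p (xg p Z w e) (yg p Z w e) := by
  have key : ∀ l l' : L, l ≠ l' → ∀ (u v : ℕ) (m : ℤ), Z l * p ^ u ≠ Z l' * p ^ v * p ^ m := by
    intro l l' hne u v m hh
    apply h.n1 l l' hne ((u : ℤ) - v - m - 1)
    have z1 := h.z0 l'
    rw [zpow_sub₀ hp, zpow_sub₀ hp, zpow_sub₀ hp, zpow_natCast, zpow_natCast, zpow_one]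
    have := pow_ne_zero v hp
    have := zpow_ne_zero m hp
    field_simp
    linear_combination hh
  refine ⟨fun a => mul_ne_zero (h.z0 _) (pow_ne_zero _ hp),
    fun b => one_div_ne_zero (mul_ne_zero (h.z0 _) (pow_ne_zero _ hp)), ?_, ?_, ?_⟩
  · intro a a' hne m
    exact key _ _ (w_inl hne) _ _ m
  · intro b b' hne m hh
    unfold yg at hh
    apply key _ _ (w_inr (w := w) (Ne.symm hne)) (e (w (Sum.inr b')))
      (e (w (Sum.inr b))) m
    have h1 := h.z0 (w (Sum.inr b))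
    have h2 := h.z0 (w (Sum.inr b'))
    have h3 := pow_ne_zero (e (w (Sum.inr b))) hp
    have h4 := pow_ne_zero (e (w (Sum.inr b'))) hp
    field_simp at hh
    linear_combination hh
  · intro a b l hh
    unfold xg yg at hh
    apply key _ _ (w_lr (w := w) (a := a) (b := b)) (e (w (Sum.inl a)) + (l + 1))
      (e (w (Sum.inr b))) 0
    have h2 := h.z0 (w (Sum.inr b))
    have h4 := pow_ne_zero (e (w (Sum.inr b))) hp
    rw [zpow_zero, mul_one, pow_add]
    field_simp at hh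
    linear_combination hh

lemma cf_dualG (ok : Ok p t) (h : Gz p t Z) (hBA : Fintype.card B ≤ Fintype.card A)
    (w : A ⊕ B ≃ L) (e : L → ℕ) (n : ℕ) :
    cf p t (xg p Z w e) (yg p Z w e) n = ∑ z ∈ antidiagonal n,
      PowerSeries.coeff z.1 (gG p t (Fintype.card B) (Fintype.card A)) *
        cf p t (yg p Z w e) (xg p Z w e) z.2 := by
  have h1 : gser p t (Fintype.card B) * ser p t (xg p Z w e) (yg p Z w e) =
      gser p t (Fintype.card A) * ser p t (yg p Z w e) (xg p Z w e) := by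
    ext m
    have := idn_spec ok.hp ok.hpp ok.ht ok.htp _ _ (h.reg ok.hp w e) m
    rw [idn_eq] at this
    exact sub_eq_zero.1 this
  rw [gser_split p t hBA, mul_assoc] at h1
  have h2 := mul_left_cancel₀ (gser_ne_zero p t _) h1
  have h3 := congrArg (PowerSeries.coeff n) h2
  rw [PowerSeries.coeff_mul] at h3
  simpa [ser] using h3

/-- a box of integer degrees -/
noncomputable def Box (B : Type*) [Fintype B] [DecidableEq B] (M : ℕ) (n : ℤ) : Finset (B → ℤ) :=
  (Fintype.piFinset fun _ : B => Icc (-(M : ℤ)) M).filter fun δ => ∑ b, δ b = n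

lemma sum_yg (ok : Ok p t) (h : Gz p t Z) (w : A ⊕ B ≃ L) (e : L → ℕ) (z2 M : ℕ)
    (hM : ∑ l, e l + z2 ≤ M) :
    (p / t) ^ ((Fintype.card A : ℤ) * ∑ l, (e l : ℤ) -
            ((Fintype.card A : ℤ) + Fintype.card B) * (z2 : ℤ)) *
      ∑ δ ∈ Box B M (∑ l, (e l : ℤ) - z2),
        fullZ p t (fun b => Z (w (Sum.inr b)) / t) Z (fun l => (e l : ℤ)) δ =
      if ∑ a, e (w (Sum.inl a)) ≤ z2 then
        basG p t Z w e * cf p t (yg p Z w e) (xg p Z w e) (z2 - ∑ a, e (w (Sum.inl a)))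
      else 0 := by
  have hc : p / t ≠ 0 := div_ne_zero ok.hp ok.ht
  have hE : (∑ l, e l) = ∑ a, e (w (Sum.inl a)) + ∑ b, e (w (Sum.inr b)) := by
    rw [← w.sum_comp, Fintype.sum_sum_type]
  have hEz : (∑ l, (e l : ℤ)) = ∑ a, (e (w (Sum.inl a)) : ℤ) + ∑ b, (e (w (Sum.inr b)) : ℤ) := by
    rw [← w.sum_comp, Fintype.sum_sum_type]
  have hfil : ∑ δ ∈ Box B M (∑ l, (e l : ℤ) - z2),
        fullZ p t (fun b => Z (w (Sum.inr b)) / t) Z (fun l => (e l : ℤ)) δ =
      ∑ δ ∈ (Box B M (∑ l, (e l : ℤ) - z2)).filter (fun δ => ∀ b, δ b ≤ (e (w (Sum.inr b)) : ℤ)),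
        fullZ p t (fun b => Z (w (Sum.inr b)) / t) Z (fun l => (e l : ℤ)) δ := by
    rw [sum_filter]
    apply sum_congr rfl
    intro δ _
    split_ifs with hk
    · rfl
    · push Not at hk
      obtain ⟨b, hb⟩ := hk
      exact full_y_zero ok h w _ _ (b := b) hb
  set Cst : G := (p / t) ^ ((Fintype.card A : ℤ) * ∑ l, (e l : ℤ) -
            ((Fintype.card A : ℤ) + Fintype.card B) * (z2 : ℤ)) with hCst
  rw [hfil, mul_sum]
  split_ifs with hD
  · unfold cf
    rw [mul_sum]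
    refine sum_nbij' (fun (δ : B → ℤ) (b : B) => ((e (w (Sum.inr b)) : ℤ) - δ b).toNat)
      (fun (k : B → ℕ) (b : B) => (e (w (Sum.inr b)) : ℤ) - k b) ?_ ?_ ?_ ?_ ?_
    · intro δ hδ
      unfold Box at hδ
      simp only [mem_filter, Fintype.mem_piFinset, mem_Icc] at hδ
      simp only [mem_piAntidiag, mem_univ, implies_true, and_true]
      zify [hD]
      have h1 : ∀ b, ((((e (w (Sum.inr b)) : ℤ) - δ b).toNat : ℕ) : ℤ) =
          (e (w (Sum.inr b)) : ℤ) - δ b := by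
        intro b
        exact Int.toNat_of_nonneg (by have := hδ.2 b; omega)
      simp_rw [h1]
      rw [sum_sub_distrib, hδ.1.2, hEz]
      ring
    · intro k hk
      simp only [mem_piAntidiag, mem_univ, implies_true, and_true] at hk
      unfold Box
      simp only [mem_filter, Fintype.mem_piFinset, mem_Icc]
      have hkb : ∀ b, k b ≤ z2 := by
        intro b
        have h7 := single_le_sum (f := k) (fun _ _ => Nat.zero_le _) (mem_univ b)
        have h8 : ∑ x, k x = z2 - ∑ a, e (w (Sum.inl a)) := hk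
        omega
      have heb : ∀ b, e (w (Sum.inr b)) ≤ ∑ l, e l := fun b =>
        single_le_sum (f := e) (fun _ _ => Nat.zero_le _) (mem_univ _)
      refine ⟨⟨fun b => ?_, ?_⟩, fun b => by omega⟩
      · have := hkb b
        have := heb b
        constructor <;> omega
      · rw [sum_sub_distrib, hEz]
        have : (∑ b, (k b : ℤ)) = (z2 : ℤ) - ∑ a, (e (w (Sum.inl a)) : ℤ) := by
          zify [hD] at hk
          exact hk
        rw [this]
        ring
    · intro δ hδ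
      simp only [mem_filter] at hδ
      funext b
      have := hδ.2 b
      dsimp only
      omega
    · intro k _
      funext b
      simp
    · intro δ hδ
      unfold Box at hδ
      simp only [mem_filter] at hδ
      rw [full_yg ok h w e (fun b => ((e (w (Sum.inr b)) : ℤ) - δ b).toNat) δ (by
        intro b
        have := hδ.2 b
        omega), hδ.1.2, hCst, ← mul_assoc, ← zpow_add₀ hc]
      have e1 : ((Fintype.card A : ℤ) * ∑ l, (e l : ℤ) -
            ((Fintype.card A : ℤ) + Fintype.card B) * (z2 : ℤ)) +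
            ((Fintype.card B : ℤ) * ∑ l, (e l : ℤ) -
            ((Fintype.card A : ℤ) + Fintype.card B) * (∑ l, (e l : ℤ) - z2)) = 0 := by
        ring
      rw [e1, zpow_zero, one_mul]
  · apply sum_eq_zero
    intro δ hδ
    exfalso
    apply hD
    unfold Box at hδ
    simp only [mem_filter] at hδ
    have h1 : ∑ b, δ b ≤ ∑ b, (e (w (Sum.inr b)) : ℤ) := sum_le_sum fun b _ => hδ.2 b
    rw [hδ.1.2, hEz] at h1
    zify
    linarith

/-- the duality for one labelling of the neighbours -/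
theorem LLg (ok : Ok p t) (h : Gz p t Z) (hBA : Fintype.card B ≤ Fintype.card A)
    (w : A ⊕ B ≃ L) (e : L → ℕ) (D M : ℕ) (hM : ∑ l, e l + D ≤ M) :
    ∑ δ ∈ piAntidiag univ D, fullZ p t (fun a => Z (w (Sum.inl a))) Z (fun l => (e l : ℤ))
      (fun a => (δ a : ℤ)) =
      ∑ z ∈ antidiagonal D, PowerSeries.coeff z.1 (gG p t (Fintype.card B) (Fintype.card A)) *
        ((p / t) ^ ((Fintype.card A : ℤ) * ∑ l, (e l : ℤ) -
            ((Fintype.card A : ℤ) + Fintype.card B) * (z.2 : ℤ)) *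
          ∑ δ ∈ Box B M (∑ l, (e l : ℤ) - z.2),
            fullZ p t (fun b => Z (w (Sum.inr b)) / t) Z (fun l => (e l : ℤ)) δ) := by
  rw [sum_xg ok h]
  have h1 : ∀ z ∈ antidiagonal D,
      (PowerSeries.coeff z.1 (gG p t (Fintype.card B) (Fintype.card A)) *
        ((p / t) ^ ((Fintype.card A : ℤ) * ∑ l, (e l : ℤ) -
            ((Fintype.card A : ℤ) + Fintype.card B) * (z.2 : ℤ)) *
          ∑ δ ∈ Box B M (∑ l, (e l : ℤ) - z.2),
            fullZ p t (fun b => Z (w (Sum.inr b)) / t) Z (fun l => (e l : ℤ)) δ)) =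
      (if ∑ a, e (w (Sum.inl a)) ≤ z.2 then
        PowerSeries.coeff z.1 (gG p t (Fintype.card B) (Fintype.card A)) *
        (basG p t Z w e * cf p t (yg p Z w e) (xg p Z w e) (z.2 - ∑ a, e (w (Sum.inl a))))
        else 0) := by
    intro z hz
    rw [HasAntidiagonal.mem_antidiagonal] at hz
    rw [sum_yg ok h w e z.2 M (by omega)]
    split_ifs
    · rfl
    · rw [mul_zero]
  rw [sum_congr rfl h1]
  set EA := ∑ a, e (w (Sum.inl a)) with hEA
  by_cases hD : EA ≤ D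
  · rw [if_pos hD, cf_dualG ok h hBA, mul_sum, ← sum_filter]
    refine sum_nbij' (fun z => (z.1, z.2 + EA)) (fun z => (z.1, z.2 - EA)) ?_ ?_ ?_ ?_ ?_
    · intro z hz
      rw [HasAntidiagonal.mem_antidiagonal] at hz
      rw [mem_filter, HasAntidiagonal.mem_antidiagonal]
      simp only
      omega
    · intro z hz
      rw [mem_filter, HasAntidiagonal.mem_antidiagonal] at hz
      rw [HasAntidiagonal.mem_antidiagonal]
      simp only
      omega
    · intro z _
      simp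
    · intro z hz
      rw [mem_filter] at hz
      ext
      · rfl
      · simp only
        omega
    · intro z _
      simp only [Nat.add_sub_cancel]
      ring
  · rw [if_neg hD]
    symm
    apply sum_eq_zero
    intro z hz
    rw [HasAntidiagonal.mem_antidiagonal] at hz
    rw [if_neg (by omega)]

end Pool.Agent.Run7.h657
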