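import Pool.Agent.Run7.h657.RO
import Pool.Agent.Run7.h657.RT

/-! Values of the integrand at the poles. -/

set_option linter.unusedSectionVars false

namespace Pool.Agent.Run7.h657.Res

open Finset MvPolynomial

section field

variable {G : Type*} [Field G] {A B L : Type*} [Fintype A] [Fintype B] [Fintype L]
  [DecidableEq A] [DecidableEq B] [DecidableEq L]

/-- the measure -/
def mu (t w : G) : G := (1 - w) * (1 - 1 / (t * w))

lemma fld1 (a b c d : G) : a / b * c / d = a * c / (b * d) := by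
  rw [div_mul_eq_mul_div, div_div]

lemma mu_ne {t z z' : G} (hz' : z' ≠ 0) (h1 : z ≠ z')
    (h2 : t * z ≠ z') : mu t (z / z') ≠ 0 := by
  unfold mu
  apply mul_ne_zero
  · intro h
    apply h1
    have : z / z' = 1 := (sub_eq_zero.1 h).symm
    rwa [div_eq_one_iff_eq hz'] at this
  · intro h
    apply h2
    have h3 : 1 / (t * (z / z')) = 1 := (sub_eq_zero.1 h).symm
    have h4 : t * (z / z') = 1 := by
      rw [one_div, inv_eq_one] at h3
      exact h3
    field_simp at h4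
    exact h4

lemma mu_swap {t z z' : G} (hz : z ≠ 0) (hz' : z' ≠ 0) (ht : t ≠ 0) :
    mu t (z' / t / z) = mu t (z / z') := by
  unfold mu
  have e1 : z' / t / z = 1 / (t * (z / z')) := by field_simp
  have e2 : 1 / (t * (z' / t / z)) = z / z' := by field_simp
  rw [e2, e1]
  ring

/-- the mixed part -/
def XiW (t : G) (Z : L → G) (w : A ⊕ B ≃ L) : G :=
  ∏ a, ∏ b, (mu t (Z (w (Sum.inl a)) / Z (w (Sum.inr b))))⁻¹

lemma prod_diag (f : A → A → G) (hf : ∀ a, f a a = 1) :
    ∏ a, ∏ a', f a a' = ∏ a, ∏ a', if a ≠ a' then f a a' else 1 := by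
  apply prod_congr rfl; intro a _
  apply prod_congr rfl; intro a' _
  by_cases h : a = a'
  · subst h; simp [hf]
  · rw [if_pos h]

lemma prod_L_ne (w : A ⊕ B ≃ L) (a : A) (f : L → G) :
    ∏ l, (if l ≠ w (Sum.inl a) then f l else 1) =
      (∏ a', if a ≠ a' then f (w (Sum.inl a')) else 1) * ∏ b, f (w (Sum.inr b)) := by
  rw [← w.prod_comp, Fintype.prod_sum_type]
  congr 1
  · apply prod_congr rfl; intro a' _
    by_cases h : a = a'
    · subst h; simp
    · rw [if_pos h, if_pos]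
      intro h'
      exact h (Sum.inl_injective (w.injective h')).symm
  · apply prod_congr rfl; intro b _
    rw [if_pos]
    intro h'
    exact absurd (w.injective h') (by simp)

lemma prod_L_ne' (w : A ⊕ B ≃ L) (b : B) (f : L → G) :
    ∏ l, (if l ≠ w (Sum.inr b) then f l else 1) =
      (∏ a, f (w (Sum.inl a))) * ∏ b', if b ≠ b' then f (w (Sum.inr b')) else 1 := by
  rw [← w.prod_comp, Fintype.prod_sum_type]
  congr 1
  · apply prod_congr rfl; intro a _
    rw [if_pos]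
    intro h'
    exact absurd (w.injective h') (by simp)
  · apply prod_congr rfl; intro b' _
    by_cases h : b = b'
    · subst h; simp
    · rw [if_pos h, if_pos]
      intro h'
      exact h (Sum.inr_injective (w.injective h')).symm

/-- distinct weights in general position -/
structure Sepa (t : G) (Z : L → G) : Prop where
  t0 : t ≠ 0
  z0 : ∀ l, Z l ≠ 0
  d1 : ∀ l l', l ≠ l' → Z l ≠ Z l'
  d2 : ∀ l l', l ≠ l' → t * Z l ≠ Z l'

lemma full_tie {p t : G} (hp : p ≠ 0) (Z : L → G) (hZ : Sepa t Z) (w : A ⊕ B ≃ L) (e : L → ℤ)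
    (δ : A → ℤ) :
    (∏ a, ∏ l, Qz p t (Z (w (Sum.inl a)) / Z l) (δ a - e l)) *
      (∏ a, ∏ l, if l ≠ w (Sum.inl a) then (mu t (Z (w (Sum.inl a)) / Z l))⁻¹ else 1) *
      (∏ a, ∏ a', if a ≠ a' then Kz p t (Z (w (Sum.inl a)) / Z (w (Sum.inl a')))
        (δ a - δ a') else 1) =
    XiW t Z w * fullZ p t (fun a => Z (w (Sum.inl a))) Z e δ := by
  have hne : ∀ a a', a ≠ a' → (w (Sum.inl a) : L) ≠ w (Sum.inl a') := by
    intro a a' h h'
    exact h (Sum.inl_injective (w.injective h'))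
  have h1 : ∏ a, ∏ a', (if a ≠ a' then Kz p t (Z (w (Sum.inl a)) / Z (w (Sum.inl a')))
        (δ a - δ a') else 1) =
      (∏ a, ∏ a', if a ≠ a' then mu t (Z (w (Sum.inl a)) / Z (w (Sum.inl a'))) else 1) /
      ∏ a, ∏ a', Qz p t (Z (w (Sum.inl a)) / Z (w (Sum.inl a'))) (δ a - δ a') := by
    rw [prod_diag (fun a a' => Qz p t (Z (w (Sum.inl a)) / Z (w (Sum.inl a')))
      (δ a - δ a')) (fun a => by simp), ← prod_div_distrib]
    apply prod_congr rfl; intro a _
    rw [← prod_div_distrib]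
    apply prod_congr rfl; intro a' _
    by_cases h : a = a'
    · simp [h]
    · rw [if_pos h, if_pos h, if_pos h]
      apply Kz_eq hp hZ.t0 (div_ne_zero (hZ.z0 _) (hZ.z0 _))
      · rw [Ne, div_eq_one_iff_eq (hZ.z0 _)]
        exact hZ.d1 _ _ (hne a a' h)
      · rw [← mul_div_assoc, Ne, div_eq_one_iff_eq (hZ.z0 _)]
        exact hZ.d2 _ _ (hne a a' h)
  have h2 : ∏ a, ∏ l, (if l ≠ w (Sum.inl a) then (mu t (Z (w (Sum.inl a)) / Z l))⁻¹ else 1) =
      (∏ a, ∏ a', if a ≠ a' then mu t (Z (w (Sum.inl a)) / Z (w (Sum.inl a'))) else 1)⁻¹ *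
      XiW t Z w := by
    unfold XiW
    rw [← prod_inv_distrib, ← prod_mul_distrib]
    apply prod_congr rfl; intro a _
    rw [prod_L_ne w a (fun l => (mu t (Z (w (Sum.inl a)) / Z l))⁻¹), ← prod_inv_distrib]
    congr 1
    apply prod_congr rfl; intro a' _
    split_ifs <;> simp
  have h3 : (∏ a, ∏ a', if a ≠ a' then mu t (Z (w (Sum.inl a)) / Z (w (Sum.inl a'))) else 1) ≠
      0 := by
    rw [prod_ne_zero_iff]; intro a _
    rw [prod_ne_zero_iff]; intro a' _
    split_ifs with h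
    · exact mu_ne (hZ.z0 _) (hZ.d1 _ _ (hne a a' h)) (hZ.d2 _ _ (hne a a' h))
    · exact one_ne_zero
  rw [h1, h2]
  unfold fullZ
  field_simp

lemma full_tie' {p t : G} (hp : p ≠ 0) (Z : L → G) (hZ : Sepa t Z) (w : A ⊕ B ≃ L) (e : L → ℤ)
    (δ : B → ℤ) :
    (∏ b, ∏ l, Qz p t (Z (w (Sum.inr b)) / t / Z l) (δ b - e l)) *
      (∏ b, ∏ l, if l ≠ w (Sum.inr b) then (mu t (Z (w (Sum.inr b)) / t / Z l))⁻¹ else 1) *
      (∏ b, ∏ b', if b ≠ b' then Kz p t (Z (w (Sum.inr b)) / t / (Z (w (Sum.inr b')) / t))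
        (δ b - δ b') else 1) =
    XiW t Z w * fullZ p t (fun b => Z (w (Sum.inr b)) / t) Z e δ := by
  have hne : ∀ a a', a ≠ a' → (w (Sum.inr a) : L) ≠ w (Sum.inr a') := by
    intro a a' h h'
    exact h (Sum.inr_injective (w.injective h'))
  have ht := hZ.t0
  have hcan : ∀ b b', Z (w (Sum.inr b)) / t / (Z (w (Sum.inr b')) / t) =
      Z (w (Sum.inr b)) / Z (w (Sum.inr b')) := by
    intro b b'
    field_simp
  have h1 : ∏ b, ∏ b', (if b ≠ b' then Kz p t (Z (w (Sum.inr b)) / t / (Z (w (Sum.inr b')) / t))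
        (δ b - δ b') else 1) =
      (∏ b, ∏ b', if b ≠ b' then mu t (Z (w (Sum.inr b')) / Z (w (Sum.inr b))) else 1) /
      ∏ b, ∏ b', Qz p t (Z (w (Sum.inr b)) / t / (Z (w (Sum.inr b')) / t))
        (δ b - δ b') := by
    have h0 : (∏ b, ∏ b', if b ≠ b' then mu t (Z (w (Sum.inr b')) / Z (w (Sum.inr b))) else 1) =
        ∏ b, ∏ b', if b ≠ b' then mu t (Z (w (Sum.inr b)) / Z (w (Sum.inr b'))) else 1 := by
      rw [prod_comm]
      apply prod_congr rfl; intro b _
      apply prod_congr rfl; intro b' _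
      by_cases h : b = b'
      · simp [h]
      · rw [if_pos h, if_pos (Ne.symm h)]
    rw [h0, prod_diag (fun b b' => Qz p t (Z (w (Sum.inr b)) / t / (Z (w (Sum.inr b')) / t))
      (δ b - δ b')) (fun a => by simp), ← prod_div_distrib]
    apply prod_congr rfl; intro a _
    rw [← prod_div_distrib]
    apply prod_congr rfl; intro a' _
    by_cases h : a = a'
    · simp [h]
    · rw [if_pos h, if_pos h, if_pos h, hcan]
      apply Kz_eq hp hZ.t0 (div_ne_zero (hZ.z0 _) (hZ.z0 _))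
      · rw [Ne, div_eq_one_iff_eq (hZ.z0 _)]
        exact hZ.d1 _ _ (hne a a' h)
      · rw [← mul_div_assoc, Ne, div_eq_one_iff_eq (hZ.z0 _)]
        exact hZ.d2 _ _ (hne a a' h)
  have h2 : ∏ b, ∏ l, (if l ≠ w (Sum.inr b) then (mu t (Z (w (Sum.inr b)) / t / Z l))⁻¹ else 1) =
      XiW t Z w *
      (∏ b, ∏ b', if b ≠ b' then mu t (Z (w (Sum.inr b')) / Z (w (Sum.inr b))) else 1)⁻¹ := by
    unfold XiW
    rw [prod_comm (s := (univ : Finset A)), ← prod_inv_distrib, ← prod_mul_distrib]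
    apply prod_congr rfl; intro b _
    rw [prod_L_ne' w b (fun l => (mu t (Z (w (Sum.inr b)) / t / Z l))⁻¹), ← prod_inv_distrib]
    congr 1
    · apply prod_congr rfl; intro a _
      rw [mu_swap (hZ.z0 _) (hZ.z0 _) ht]
    · apply prod_congr rfl; intro a' _
      split_ifs
      · rw [mu_swap (hZ.z0 _) (hZ.z0 _) ht]
      · simp
  have h3 : (∏ b, ∏ b', if b ≠ b' then mu t (Z (w (Sum.inr b')) / Z (w (Sum.inr b))) else 1) ≠
      0 := by
    rw [prod_ne_zero_iff]; intro a _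
    rw [prod_ne_zero_iff]; intro a' _
    split_ifs with h
    · exact mu_ne (hZ.z0 _) (hZ.d1 _ _ (hne _ _ (Ne.symm h)))
        (hZ.d2 _ _ (hne _ _ (Ne.symm h)))
    · exact one_ne_zero
  rw [h1, h2]
  unfold fullZ
  field_simp

end field

variable {ι K I E F : Type*} [LinearOrder ι] [Field K] [Fintype I] [Fintype E] [Fintype F]
  [DecidableEq I] [DecidableEq E] [DecidableEq F] [DecidableEq K]

variable {Q : QD K I E F} {p t : K} {c : ι → I} {x : ι → K} {S : Set K}

/-- weights of the neighbours with positions -/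
noncomputable def Zl (Q : QD K I E F) (t : K) (x : ι → K) (l : Lam ι E F) : HH ι K :=
  HahnSeries.C (kap Q t x l) * (1 + yy l)

/-- degrees of the neighbours -/
def De (δ : ι → ℤ) : Lam ι E F → ℤ
  | Sum.inl q => δ q.2
  | Sum.inr (Sum.inl q) => δ q.2
  | Sum.inr (Sum.inr _) => 0

/-- the factor from the orientation -/
noncomputable def og (p t : K) (m : ℤ) : Lam ι E F → HH ι K
  | Sum.inl _ => 1
  | Sum.inr (Sum.inl _) => (HahnSeries.C p / HahnSeries.C t) ^ m
  | Sum.inr (Sum.inr _) => 1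

lemma C_ne {r : K} (h : r ≠ 0) : (HahnSeries.C r : HH ι K) ≠ 0 := by
  rw [Ne, map_eq_zero]
  exact h

lemma C_div (a b : K) : (HahnSeries.C (a / b) : HH ι K) = HahnSeries.C a / HahnSeries.C b :=
  map_div₀ _ _ _

lemma wv_div (ρ1 ρ2 : K) (z1 z2 : HH ι K) :
    wv (ρ1 / ρ2) z1 z2 = HahnSeries.C ρ1 * (1 + z1) / (HahnSeries.C ρ2 * (1 + z2)) := by
  unfold wv
  rw [C_div]
  exact fld1 _ _ _ _

lemma Sb.ne {s : ι → HH ι K} (h : Sb s) (q : ι) : 1 + s q ≠ 0 := by
  have := one_add_ne h (Pl.X (K := K) (mem_singleton_self q))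
  rwa [aeval_X] at this

lemma yy_ne (l : Lam ι E F) : (1 : HH ι K) + yy l ≠ 0 := by
  rcases l with z | z | f
  · exact Sb.u.ne z.2
  · exact Sb.u.ne z.2
  · show (1 : HH ι K) + 0 ≠ 0
    rw [add_zero]; exact one_ne_zero

/-- symmetry of the regular measure -/
lemma mr_swap {t ρ ρ' : K} (h : t * ρ * ρ' = 1) (ht1 : t ≠ 1) {z1 z2 : HH ι K}
    (h1 : 1 + z1 ≠ 0) (h2 : 1 + z2 ≠ 0) : mr t ρ' z2 z1 = mr t ρ z1 z2 := by
  have ht0 : t ≠ 0 := by rintro rfl; simp at h
  have hρ0 : ρ ≠ 0 := by rintro rfl; simp at h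
  have hρ'0 : ρ' ≠ 0 := by rintro rfl; simp at h
  have hC : HahnSeries.C t * HahnSeries.C ρ * HahnSeries.C ρ' = (1 : HH ι K) := by
    rw [← map_mul, ← map_mul, h, map_one]
  have hCt := C_ne (ι := ι) ht0
  have hCρ := C_ne (ι := ι) hρ0
  have hCρ' := C_ne (ι := ι) hρ'0
  have e1 : (1 : HH ι K) / (HahnSeries.C t * wv ρ' z2 z1) = wv ρ z1 z2 := by
    unfold wv
    rw [mul_div_assoc', one_div_div, div_eq_div_iff (mul_ne_zero hCt (mul_ne_zero hCρ' h2)) h2]
    linear_combination (-(1 + z1) * (1 + z2)) * hC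
  have e2 : (1 : HH ι K) / (HahnSeries.C t * wv ρ z1 z2) = wv ρ' z2 z1 := by
    unfold wv
    rw [mul_div_assoc', one_div_div, div_eq_div_iff (mul_ne_zero hCt (mul_ne_zero hCρ h1)) h1]
    linear_combination (-(1 + z1) * (1 + z2)) * hC
  unfold mr
  rw [e1, e2]
  by_cases h3 : ρ' = 1
  · have h4 : t * ρ = 1 := by rw [← h, h3, mul_one]
    have h5 : ρ ≠ 1 := by rintro rfl; rw [mul_one] at h4; exact ht1 h4
    rw [if_pos h3, if_neg h5, if_pos h4]
  · by_cases h4 : t * ρ' = 1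
    · have h5 : ρ = 1 := by
        have : t * ρ * ρ' = (t * ρ') * ρ := by ring
        rw [this, h4, one_mul] at h
        exact h
      rw [if_neg h3, if_pos h4, if_pos h5]
    · have h5 : ρ ≠ 1 := by
        rintro rfl
        apply h4
        rw [← h]; ring
      have h6 : t * ρ ≠ 1 := by
        intro h6
        rw [h6, one_mul] at h
        exact h3 h
      rw [if_neg h3, if_neg h4, if_neg h5, if_neg h6]
      congr 1
      exact mul_comm _ _

/-- the factor of a letter and a neighbour -/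
lemma Gv_fe (hq : Gq Q p t x S) (ht1 : t ≠ 1) (δ : ι → ℤ) {s : ι → HH ι K} (hS : Sb s) (a : ι)
    (l : Lam ι E F) (hl : ∀ z : E × ι, l = Sum.inl z → s z.2 = u z.2)
    (hl' : ∀ z : E × ι, l = Sum.inr (Sum.inl z) → s z.2 = u z.2) :
    Gv (fe Q p t x δ s) (fw Q p t x δ s) l a =
      og p t (δ a - De δ l) l * (Qz (HahnSeries.C p) (HahnSeries.C t)
        (HahnSeries.C (x a) * (1 + s a) / Zl Q t x l) (δ a - De δ l) *
        mr t (x a / kap Q t x l) (s a) (yy l)) := by
  unfold Zl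
  rw [← wv_div]
  have hte := fun e => hq.gs.ne _ (hq.eS e)
  have hx := fun r => hq.gs.ne _ (hq.xS r)
  have ht0 := hq.gs.ne _ hq.tS
  rcases l with ⟨e, r⟩ | ⟨e, q⟩ | f
  · have h1 := hl _ rfl
    simp only at h1
    simp only [Gv, fe, og, De, kap, yy, one_mul, h1]
    have : Q.te e * x a / x r = x a / (x r / Q.te e) := by
      have := hte e; have := hx r
      field_simp
    rw [this]
  · have h1 := hl' _ rfl
    simp only at h1
    simp only [Gv, fe, og, De, kap, yy, h1]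
    have hρ : t * (x a / (t * Q.te e * x q)) * (Q.te e * x q / x a) = 1 := by
      have := hte e; have := hx q; have := hx a
      field_simp
    rw [mr_swap hρ ht1 (hS.ne a) (Sb.u.ne q), ← mul_assoc]
    congr 1
    have hw : wv (x a / (t * Q.te e * x q)) (s a) (u q) ≠ (0 : HH ι K) := by
      unfold wv
      apply div_ne_zero (mul_ne_zero _ (hS.ne a)) (Sb.u.ne q)
      exact C_ne (div_ne_zero (hx a) (mul_ne_zero (mul_ne_zero ht0 (hte e)) (hx q)))
    have h2 := Qz_refl (C_ne (ι := ι) hq.gs.p0) (C_ne ht0) _ hw (δ a - δ q)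
    rw [← h2, neg_sub]
    congr 1
    have hC : HahnSeries.C t * HahnSeries.C (x a / (t * Q.te e * x q)) *
        HahnSeries.C (Q.te e * x q / x a) = (1 : HH ι K) := by
      rw [← map_mul, ← map_mul, hρ, map_one]
    unfold wv
    rw [mul_div_assoc', one_div_div, div_eq_div_iff (hS.ne a) (mul_ne_zero (C_ne ht0)
      (mul_ne_zero (C_ne (div_ne_zero (hx a) (mul_ne_zero (mul_ne_zero ht0 (hte e)) (hx q))))
        (hS.ne a)))]
    linear_combination ((1 + s a) * (1 + u q)) * hC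
  · simp only [Gv, fw, og, De, kap, yy, one_mul, sub_zero]

end Pool.Agent.Run7.h657.Res
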