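import Pool.Agent.Run7.h657.RP

/-! Values of the integrand at the poles: the product over the letters at a vertex. -/

set_option linter.unusedSectionVars false

namespace Pool.Agent.Run7.h657.Res

open Finset MvPolynomial

variable {ι K I E F : Type*} [LinearOrder ι] [Field K] [Fintype I] [Fintype E] [Fintype F]
  [DecidableEq I] [DecidableEq E] [DecidableEq F] [DecidableEq K]

variable {Q : QD K I E F} {p t : K} {c : ι → I} {x : ι → K} {S : Set K}

/-- the constant of a residue -/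
noncomputable def kc (ι : Type*) [LinearOrder ι] {K : Type*} [Field K] (t : K) : HH ι K :=
  -(1 - 1 / HahnSeries.C t)⁻¹

lemma kc_ne {t : K} (ht1 : t ≠ 1) (ht0 : t ≠ 0) : kc ι t ≠ 0 := by
  unfold kc
  apply neg_ne_zero.2
  apply inv_ne_zero
  rw [sub_ne_zero]
  intro h
  rw [eq_div_iff (C_ne ht0), one_mul] at h
  apply ht1
  apply HahnSeries.C_injective (Γ := Ex ι)
  rw [h, map_one]

lemma ratio1 {a b : K} (hb : b ≠ 0) : a / b = 1 ↔ b = a := by
  rw [div_eq_one_iff_eq hb, eq_comm]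

lemma ratio2 {a b : K} (hb : b ≠ 0) : t * (a / b) = 1 ↔ b = t * a := by
  rw [← mul_div_assoc, div_eq_one_iff_eq hb, eq_comm]

/-- the poles of one letter seen from a position -/
lemma poles_at (i : I) (Y : Finset ι) (a : ι) (l0 : Lam ι E F) (hk : ∀ l : Lam ι E F,
    kap Q t x l ≠ 0) :
    (∏ l ∈ (Ls Q c i Y).erase l0,
      ((if x a / kap Q t x l = 1 then (yy l0 - yy l : HH ι K)⁻¹ else 1) *
        (if t * (x a / kap Q t x l) = 1 then (yy l - yy l0 : HH ι K)⁻¹ else 1))) =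
      (∏ l ∈ (In Q t c x i Y (x a)).erase l0, (yy l0 - yy l))⁻¹ *
        (∏ l ∈ (In Q t c x i Y (t * x a)).erase l0, (yy l - yy l0))⁻¹ := by
  simp only [ratio1 (hk _), ratio2 (hk _)]
  rw [prod_mul_distrib, ← prod_filter, ← prod_filter, prod_inv_distrib, prod_inv_distrib]
  unfold In
  rw [filter_erase, filter_erase]

lemma let_in (hs : Sep Q t) (hL : LS Q t c x) {i : I} {Y : Finset ι} {a : ι} (ha : c a = i)
    {l0 : Lam ι E F} (hl0 : l0 ∈ In Q t c x i Y (x a)) :
    (∏ l ∈ Ls Q c i Y, mr t (x a / kap Q t x l) (yy l0 : HH ι K) (yy l)) *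
        wI (In Q t c x i Y (x a)) (In Q t c x i Y (t * x a)) yy l0 * (1 + yy l0)⁻¹ =
      kc ι t * ∏ l ∈ (Ls Q c i Y).erase l0,
        (mu (HahnSeries.C t) (HahnSeries.C (x a) * (1 + yy l0) / Zl Q t x l))⁻¹ := by
  have hk := fun l => kap_ne hs hL.x0 hL.fa0 l
  have hpos := pos_of hs hL Y ha
  have h1 := mem_In.1 hl0
  have hO : (In Q t c x i Y (t * x a)).erase l0 = In Q t c x i Y (t * x a) := by
    apply erase_eq_of_notMem
    exact fun h => (disjoint_left.1 hpos.dis) hl0 h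
  have h2 := poles_at (Q := Q) (t := t) (c := c) (x := x) i Y a l0 hk
  rw [hO] at h2
  have h3 : wI (In Q t c x i Y (x a)) (In Q t c x i Y (t * x a)) (yy : Lam ι E F → HH ι K) l0 =
      _ := h2.symm
  rw [h3, ← mul_prod_erase _ _ h1.1]
  have e0 : mr t (x a / kap Q t x l0) (yy l0 : HH ι K) (yy l0) * (1 + yy l0)⁻¹ = kc ι t := by
    have h4 : x a / kap Q t x l0 = 1 := by rw [h1.2, div_self (hL.x0 a)]
    have h5 : wv (1 : K) (yy l0 : HH ι K) (yy l0) = 1 := by
      unfold wv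
      rw [map_one, one_mul, div_self (yy_ne l0)]
    unfold mr kc
    rw [h4, if_pos rfl, h5, mul_one]
    have := yy_ne (K := K) l0
    field_simp
  have e1 : ∀ (m0 M W D : HH ι K), m0 * M * W * D = (m0 * D) * (M * W) := by
    intro m0 M W D; ring
  rw [e1, e0, ← prod_mul_distrib]
  congr 1
  apply prod_congr rfl
  intro l hl
  rw [mem_erase] at hl
  rw [mr_pole _ (yy_ne l0) (yy_ne l) hs.t1, wv_div]
  · rfl
  · intro hr hyy
    apply hl.1
    apply hpos.inj _ _ hyy.symm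
    · rw [mem_coe, mem_union, mem_In, mem_In]
      rcases hr with hr | hr
      · exact Or.inl ⟨hl.2, (ratio1 (hk l)).1 hr⟩
      · exact Or.inr ⟨hl.2, (ratio2 (hk l)).1 hr⟩
    · rw [mem_coe, mem_union]
      exact Or.inl hl0

lemma let_out (hs : Sep Q t) (hL : LS Q t c x) {i : I} {Y : Finset ι} {a : ι} (ha : c a = i)
    {l0 : Lam ι E F} (hl0 : l0 ∈ In Q t c x i Y (t * x a)) :
    (∏ l ∈ Ls Q c i Y, mr t (x a / kap Q t x l) (yy l0 : HH ι K) (yy l)) *
        wO (In Q t c x i Y (x a)) (In Q t c x i Y (t * x a)) yy l0 * (1 + yy l0)⁻¹ =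
      kc ι t * ∏ l ∈ (Ls Q c i Y).erase l0,
        (mu (HahnSeries.C t) (HahnSeries.C (x a) * (1 + yy l0) / Zl Q t x l))⁻¹ := by
  have hk := fun l => kap_ne hs hL.x0 hL.fa0 l
  have hpos := pos_of hs hL Y ha
  have h1 := mem_In.1 hl0
  have hO : (In Q t c x i Y (x a)).erase l0 = In Q t c x i Y (x a) := by
    apply erase_eq_of_notMem
    exact fun h => (disjoint_left.1 hpos.dis) h hl0
  have h2 := poles_at (Q := Q) (t := t) (c := c) (x := x) i Y a l0 hk
  rw [hO] at h2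
  have h3 : wO (In Q t c x i Y (x a)) (In Q t c x i Y (t * x a)) (yy : Lam ι E F → HH ι K) l0 =
      _ := h2.symm
  rw [h3, ← mul_prod_erase _ _ h1.1]
  have e0 : mr t (x a / kap Q t x l0) (yy l0 : HH ι K) (yy l0) * (1 + yy l0)⁻¹ = kc ι t := by
    have ht0 := hs.t0
    have hx0 := hL.x0 a
    have h4 : t * (x a / kap Q t x l0) = 1 := by
      rw [h1.2]
      field_simp
    have h6 : x a / kap Q t x l0 = 1 / t := by
      rw [h1.2]
      field_simp
    have h7 : x a / kap Q t x l0 ≠ 1 := by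
      intro h
      rw [h, mul_one] at h4
      exact hs.t1 h4
    have h5 : wv (1 / t) (yy l0 : HH ι K) (yy l0) = 1 / HahnSeries.C t := by
      unfold wv
      rw [C_div, map_one, mul_div_assoc, div_self (yy_ne l0), mul_one]
    unfold mr kc
    rw [if_neg h7, if_pos h4, h6, h5]
    have := yy_ne (K := K) l0
    field_simp
  have e1 : ∀ (m0 M W D : HH ι K), m0 * M * W * D = (m0 * D) * (M * W) := by
    intro m0 M W D; ring
  rw [e1, e0, ← prod_mul_distrib]
  congr 1
  apply prod_congr rfl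
  intro l hl
  rw [mem_erase] at hl
  rw [mr_pole _ (yy_ne l0) (yy_ne l) hs.t1, wv_div]
  · rfl
  · intro hr hyy
    apply hl.1
    apply hpos.inj _ _ hyy.symm
    · rw [mem_coe, mem_union, mem_In, mem_In]
      rcases hr with hr | hr
      · exact Or.inl ⟨hl.2, (ratio1 (hk l)).1 hr⟩
      · exact Or.inr ⟨hl.2, (ratio2 (hk l)).1 hr⟩
    · rw [mem_coe, mem_union]
      exact Or.inr hl0

/-- splitting of the regular part at a vertex -/
lemma UU_split (hl : ∀ e, Q.src e ≠ Q.tgt e) {i : I} {A Y : Finset ι}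
    (hA : ∀ a ∈ A, c a = i) (hY : ∀ r ∈ Y, c r ≠ i) (δ : ι → ℤ) {s : ι → HH ι K}
    (hsY : ∀ r ∈ Y, s r = u r) :
    UU Q p t c x (A ∪ Y) δ s = UU Q p t c x Y δ (fun q => u q) *
      ((∏ a ∈ A, ∏ l ∈ Ls Q c i Y, Gv (fe Q p t x δ s) (fw Q p t x δ s) l a) *
        (∏ a ∈ A, ∏ b ∈ A, if a ≠ b then kk p t x δ s a b else 1) * ∏ a ∈ A, (1 + s a)⁻¹) := by
  have hd : Disjoint A Y := by
    rw [disjoint_left]
    intro a ha ha'
    exact hY a ha' (hA a ha)
  unfold UU
  rw [TT_split Q hl c i A Y hA hY]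
  have h1 : TT Q c Y (fe Q p t x δ s) (fw Q p t x δ s) =
      TT Q c Y (fe Q p t x δ (fun q => u q)) (fw Q p t x δ (fun q => u q)) := by
    unfold TT
    refine congrArg₂ (fun y z : HH ι K => y * z) ?_ ?_
    · apply prod_congr rfl; intro e _
      apply prod_congr rfl; intro r hr
      apply prod_congr rfl; intro q hq
      have : fe Q p t x δ s e r q = fe Q p t x δ (fun q => u q) e r q := by
        unfold fe
        rw [hsY r hr, hsY q hq]
      rw [this]
    · apply prod_congr rfl; intro f _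
      apply prod_congr rfl; intro r hr
      have : fw Q p t x δ s f r = fw Q p t x δ (fun q => u q) f r := by
        unfold fw
        rw [hsY r hr]
      rw [this]
  have h2 : (∏ a ∈ A ∪ Y, ∏ b ∈ A ∪ Y, if c a = c b ∧ a ≠ b then kk p t x δ s a b else 1) =
      (∏ a ∈ A, ∏ b ∈ A, if a ≠ b then kk p t x δ s a b else 1) *
      ∏ a ∈ Y, ∏ b ∈ Y, if c a = c b ∧ a ≠ b then kk p t x δ (fun q => u q) a b else 1 := by
    rw [prod_union hd]
    refine congrArg₂ (fun y z : HH ι K => y * z) ?_ ?_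
    · apply prod_congr rfl; intro a ha
      rw [prod_union hd]
      have h3 : ∏ b ∈ Y, (if c a = c b ∧ a ≠ b then kk p t x δ s a b else 1) = 1 := by
        apply prod_eq_one
        intro b hb
        rw [if_neg]
        rintro ⟨h, _⟩
        exact hY b hb (h.symm.trans (hA a ha))
      rw [h3, mul_one]
      apply prod_congr rfl; intro b hb
      have : c a = c b := (hA a ha).trans (hA b hb).symm
      simp only [this, true_and]
    · apply prod_congr rfl; intro a ha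
      rw [prod_union hd]
      have h3 : ∏ b ∈ A, (if c a = c b ∧ a ≠ b then kk p t x δ s a b else 1) = 1 := by
        apply prod_eq_one
        intro b hb
        rw [if_neg]
        rintro ⟨h, _⟩
        exact hY a ha (h.trans (hA b hb))
      rw [h3, one_mul]
      apply prod_congr rfl; intro b hb
      have : kk p t x δ s a b = kk p t x δ (fun q => u q) a b := by
        unfold kk
        rw [hsY a ha, hsY b hb]
      rw [this]
  have h4 : ∏ r ∈ A ∪ Y, (1 + s r)⁻¹ = (∏ a ∈ A, (1 + s a)⁻¹) * ∏ r ∈ Y, (1 + u r)⁻¹ := by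
    rw [prod_union hd]
    refine congrArg₂ (fun y z : HH ι K => y * z) rfl ?_
    apply prod_congr rfl; intro r hr
    rw [hsY r hr]
  rw [h1, h2, h4]
  ring

/-- positions with weights -/
noncomputable def Xp (x : ι → K) {A : Finset ι} (σ : A → Lam ι E F) (a : A) : HH ι K :=
  HahnSeries.C (x a.1) * (1 + yy (σ a))

/-- the vertex part of the integrand at a pole -/
noncomputable def VPt (Q : QD K I E F) (p t : K) (c : ι → I) (x : ι → K) (i : I)
    (A Y : Finset ι) (δ : ι → ℤ) (σ : A → Lam ι E F) : HH ι K :=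
  (∏ a : A, ∏ l ∈ Ls Q c i Y, og p t (δ a - De δ l) l) * kc ι t ^ A.card *
    ((∏ a : A, ∏ l ∈ Ls Q c i Y, Qz (HahnSeries.C p) (HahnSeries.C t)
        (Xp x σ a / Zl Q t x l) (δ a - De δ l)) *
      (∏ a : A, ∏ l ∈ (Ls Q c i Y).erase (σ a),
        (mu (HahnSeries.C t) (Xp x σ a / Zl Q t x l))⁻¹) *
      (∏ a : A, ∏ b : A, if a ≠ b then Kz (HahnSeries.C p) (HahnSeries.C t)
        (Xp x σ a / Xp x σ b) (δ a - δ b) else 1))

lemma UU_tie (hs : Sep Q t) (hq : Gq Q p t x S) {i : I} {A Y : Finset ι}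
    (hA : ∀ a ∈ A, c a = i) (hY : ∀ r ∈ Y, c r ≠ i) (δ : ι → ℤ) (σ : A → Lam ι E F)
    (W : A → HH ι K)
    (hW : ∀ a : A, (∏ l ∈ Ls Q c i Y, mr t (x a.1 / kap Q t x l) (yy (σ a) : HH ι K) (yy l)) *
        W a * (1 + yy (σ a))⁻¹ =
      kc ι t * ∏ l ∈ (Ls Q c i Y).erase (σ a),
        (mu (HahnSeries.C t) (HahnSeries.C (x a.1) * (1 + yy (σ a)) / Zl Q t x l))⁻¹) :
    UU Q p t c x (A ∪ Y) δ (tie A σ) * (PiR Q t c x Y * ∏ a : A, W a) =
      UU Q p t c x Y δ (fun q => u q) * PiR Q t c x Y * VPt Q p t c x i A Y δ σ := by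
  have hsY : ∀ r ∈ Y, (tie A σ r : HH ι K) = u r := fun r hr =>
    tie_not σ (fun h => hY r hr (hA r h))
  rw [UU_split hs.hl hA hY δ hsY]
  have h1 : ∏ a ∈ A, ∏ l ∈ Ls Q c i Y,
      Gv (fe Q p t x δ (tie A σ)) (fw Q p t x δ (tie A σ)) l a =
      (∏ a : A, ∏ l ∈ Ls Q c i Y, og p t (δ a - De δ l) l) *
      ((∏ a : A, ∏ l ∈ Ls Q c i Y, Qz (HahnSeries.C p) (HahnSeries.C t)
        (Xp x σ a / Zl Q t x l) (δ a - De δ l)) *
      ∏ a : A, ∏ l ∈ Ls Q c i Y, mr t (x a.1 / kap Q t x l) (yy (σ a) : HH ι K) (yy l)) := by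
    rw [← prod_coe_sort, ← prod_mul_distrib, ← prod_mul_distrib]
    apply prod_congr rfl; intro a _
    rw [← prod_mul_distrib, ← prod_mul_distrib]
    apply prod_congr rfl; intro l hl
    rw [Gv_fe hq hs.t1 δ (tie_Sb σ) a.1 l, tie_of σ a.2]
    · rfl
    · rintro z rfl
      rw [mem_Ls_inl] at hl
      exact hsY _ hl.1
    · rintro z rfl
      rw [mem_Ls_inr] at hl
      exact hsY _ hl.1
  have h2 : (∏ a ∈ A, ∏ b ∈ A, if a ≠ b then kk p t x δ (tie A σ) a b else 1) =
      ∏ a : A, ∏ b : A, if a ≠ b then Kz (HahnSeries.C p) (HahnSeries.C t)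
        (Xp x σ a / Xp x σ b) (δ a - δ b) else 1 := by
    rw [← prod_coe_sort]
    apply prod_congr rfl; intro a _
    rw [← prod_coe_sort]
    apply prod_congr rfl; intro b _
    by_cases h : a = b
    · simp [h]
    · have h' : a.1 ≠ b.1 := fun h' => h (Subtype.ext h')
      rw [if_pos h, if_pos h']
      unfold kk
      rw [tie_of σ a.2, tie_of σ b.2, wv_div]
      rfl
  have h3 : ∏ a ∈ A, (1 + tie A σ a : HH ι K)⁻¹ = ∏ a : A, (1 + yy (σ a))⁻¹ := by
    rw [← prod_coe_sort]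
    apply prod_congr rfl; intro a _
    rw [tie_of σ a.2]
  rw [h1, h2, h3]
  have h4 : (∏ a : A, ∏ l ∈ Ls Q c i Y,
      mr t (x a.1 / kap Q t x l) (yy (σ a) : HH ι K) (yy l)) * (∏ a : A, W a) *
      (∏ a : A, (1 + yy (σ a))⁻¹) = kc ι t ^ A.card *
      ∏ a : A, ∏ l ∈ (Ls Q c i Y).erase (σ a),
        (mu (HahnSeries.C t) (Xp x σ a / Zl Q t x l))⁻¹ := by
    rw [← prod_mul_distrib, ← prod_mul_distrib, prod_congr rfl (fun a _ => hW a),
      prod_mul_distrib, prod_const, card_univ, Fintype.card_coe]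
    rfl
  unfold VPt
  have h5 : ∀ (U P O Qp M Kp D W k mm : HH ι K), M * W * D = k * mm →
      U * (O * (Qp * M) * Kp * D) * (P * W) = U * P * (O * k * (Qp * mm * Kp)) := by
    intro U P O Qp M Kp D W k mm h
    linear_combination (U * P * O * Qp * Kp) * h
  exact h5 _ _ _ _ _ _ _ _ _ _ h4

end Pool.Agent.Run7.h657.Res
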