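import Pool.Agent.Run7.h657.RQ

/-! Vanishing for negative degrees; counting of labellings. -/

set_option linter.unusedSectionVars false

namespace Pool.Agent.Run7.h657.Res

open Finset MvPolynomial

section count

variable {A B L K : Type*} [Fintype A] [Fintype B] [Fintype L] [DecidableEq A] [DecidableEq B]
  [DecidableEq L] [DecidableEq K]

lemma exists_equiv_fib {X X' : Type*} [Fintype X] [Fintype X'] (f : X → K) (g : X' → K)
    (h : ∀ χ, (univ.filter fun a => f a = χ).card = (univ.filter fun a => g a = χ).card) :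
    ∃ φ : X ≃ X', ∀ a, g (φ a) = f a := by
  classical
  have h1 : ∀ χ, Nonempty ({a // f a = χ} ≃ {a // g a = χ}) := by
    intro χ
    rw [← Fintype.card_eq, Fintype.card_subtype, Fintype.card_subtype]
    exact h χ
  have e := fun χ => (h1 χ).some
  refine ⟨((Equiv.sigmaFiberEquiv f).symm.trans (Equiv.sigmaCongrRight e)).trans
    (Equiv.sigmaFiberEquiv g), ?_⟩
  intro a
  simp only [Equiv.trans_apply]
  exact ((Equiv.sigmaCongrRight e) ((Equiv.sigmaFiberEquiv f).symm a)).2.2

/-- labellings -/
def WW (fA : A → K) (fB : B → K) (kL : L → K) : Finset (A ⊕ B ≃ L) :=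
  univ.filter fun w => (∀ a, kL (w (Sum.inl a)) = fA a) ∧ ∀ b, kL (w (Sum.inr b)) = fB b

/-- injective class preserving maps -/
noncomputable def TTs (fA : A → K) (kL : L → K) : Finset (A → L) := by
  classical exact univ.filter fun σ => Function.Injective σ ∧ ∀ a, kL (σ a) = fA a

lemma mem_WW {fA : A → K} {fB : B → K} {kL : L → K} {w : A ⊕ B ≃ L} :
    w ∈ WW fA fB kL ↔ (∀ a, kL (w (Sum.inl a)) = fA a) ∧ ∀ b, kL (w (Sum.inr b)) = fB b := by
  unfold WW
  simp

lemma mem_TTs {fA : A → K} {kL : L → K} {σ : A → L} :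
    σ ∈ TTs fA kL ↔ Function.Injective σ ∧ ∀ a, kL (σ a) = fA a := by
  unfold TTs
  simp

lemma extend (fA : A → K) (fB : B → K) (kL : L → K)
    (h : ∀ χ, (univ.filter fun l => kL l = χ).card =
      (univ.filter fun a => fA a = χ).card + (univ.filter fun b => fB b = χ).card)
    {σ : A → L} (hσ : σ ∈ TTs fA kL) :
    ∃ w ∈ WW fA fB kL, ∀ a, w (Sum.inl a) = σ a := by
  classical
  rw [mem_TTs] at hσ
  obtain ⟨hinj, hk⟩ := hσ
  have h1 : ∀ χ, (univ.filter fun b => fB b = χ).card =
      (univ.filter fun l : {l // l ∉ Set.range σ} => kL l.1 = χ).card := by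
    intro χ
    have h2 : (univ.filter fun l => kL l = χ).card =
        ((univ.filter fun l => kL l = χ).filter fun l => l ∈ Set.range σ).card +
        ((univ.filter fun l => kL l = χ).filter fun l => l ∉ Set.range σ).card := by
      rw [card_filter_add_card_filter_not]
    have h3 : ((univ.filter fun l => kL l = χ).filter fun l => l ∈ Set.range σ).card =
        (univ.filter fun a => fA a = χ).card := by
      symm
      apply card_bij (fun a _ => σ a)
      · intro a ha
        rw [mem_filter] at ha
        rw [mem_filter, mem_filter]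
        exact ⟨⟨mem_univ _, (hk a).trans ha.2⟩, ⟨a, rfl⟩⟩
      · intro a _ b _ hab
        exact hinj hab
      · intro l hl
        rw [mem_filter, mem_filter] at hl
        obtain ⟨a, rfl⟩ := hl.2
        exact ⟨a, mem_filter.2 ⟨mem_univ _, (hk a).symm.trans hl.1.2⟩, rfl⟩
    have h4 : ((univ.filter fun l => kL l = χ).filter fun l => l ∉ Set.range σ).card =
        (univ.filter fun l : {l // l ∉ Set.range σ} => kL l.1 = χ).card := by
      symm
      apply card_bij (fun l _ => l.1)
      · intro l hl
        rw [mem_filter] at hl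
        rw [mem_filter, mem_filter]
        exact ⟨⟨mem_univ _, hl.2⟩, l.2⟩
      · intro a _ b _ hab
        exact Subtype.ext hab
      · intro l hl
        rw [mem_filter, mem_filter] at hl
        exact ⟨⟨l, hl.2⟩, mem_filter.2 ⟨mem_univ _, hl.1.2⟩, rfl⟩
    have := h χ
    omega
  obtain ⟨φ, hφ⟩ := exists_equiv_fib fB (fun l : {l // l ∉ Set.range σ} => kL l.1) h1
  refine ⟨(Equiv.sumCongr (Equiv.ofInjective σ hinj) φ).trans
    (Equiv.sumCompl (fun l => l ∈ Set.range σ)), ?_, ?_⟩
  · rw [mem_WW]
    constructor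
    · intro a
      simp only [Equiv.trans_apply, Equiv.sumCongr_apply, Sum.map_inl, Equiv.sumCompl_apply_inl]
      exact hk a
    · intro b
      simp only [Equiv.trans_apply, Equiv.sumCongr_apply, Sum.map_inr, Equiv.sumCompl_apply_inr]
      exact hφ b
  · intro a
    simp only [Equiv.trans_apply, Equiv.sumCongr_apply, Sum.map_inl, Equiv.sumCompl_apply_inl]
    rfl

/-- each injective map has the same number of extensions -/
lemma count (fA : A → K) (fB : B → K) (kL : L → K)
    (h : ∀ χ, (univ.filter fun l => kL l = χ).card =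
      (univ.filter fun a => fA a = χ).card + (univ.filter fun b => fB b = χ).card) :
    ∃ N : ℕ, 0 < N ∧ ∀ (M : Type*) [AddCommMonoid M] (F : (A → L) → M),
      ∑ w ∈ WW fA fB kL, F (fun a => w (Sum.inl a)) = N • ∑ σ ∈ TTs fA kL, F σ := by
  classical
  by_cases hT : (TTs fA kL).Nonempty
  · obtain ⟨σ0, hσ0⟩ := hT
    obtain ⟨w0, hw0, hw0'⟩ := extend fA fB kL h hσ0
    set N := ((WW fA fB kL).filter fun w => (fun a => w (Sum.inl a)) = σ0).card with hN
    have hcard : ∀ σ ∈ TTs fA kL,
        ((WW fA fB kL).filter fun w => (fun a => w (Sum.inl a)) = σ).card = N := by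
      intro σ hσ
      obtain ⟨w1, hw1, hw1'⟩ := extend fA fB kL h hσ
      have hpres : ∀ (w w' : A ⊕ B ≃ L), w ∈ WW fA fB kL → w' ∈ WW fA fB kL →
          ∀ l, kL (w' (w.symm l)) = kL l := by
        intro w w' hw hw' l
        rw [mem_WW] at hw hw'
        obtain ⟨z, rfl⟩ := w.surjective l
        rw [Equiv.symm_apply_apply]
        rcases z with a | b
        · rw [hw.1, hw'.1]
        · rw [hw.2, hw'.2]
      symm
      refine card_bij' (fun w _ => w.trans (w0.symm.trans w1))
        (fun w _ => w.trans (w1.symm.trans w0)) ?_ ?_ ?_ ?_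
      · intro w hw
        rw [mem_filter] at hw ⊢
        obtain ⟨hw, hw'⟩ := hw
        refine ⟨?_, ?_⟩
        · rw [mem_WW]
          have h5 := mem_WW.1 hw
          constructor
          · intro a
            simp only [Equiv.trans_apply]
            rw [hpres w0 w1 hw0 hw1]
            exact h5.1 a
          · intro b
            simp only [Equiv.trans_apply]
            rw [hpres w0 w1 hw0 hw1]
            exact h5.2 b
        · funext a
          simp only [Equiv.trans_apply]
          have : w (Sum.inl a) = w0 (Sum.inl a) := by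
            rw [hw0' a, ← hw']
          rw [this, Equiv.symm_apply_apply, hw1']
      · intro w hw
        rw [mem_filter] at hw ⊢
        obtain ⟨hw, hw'⟩ := hw
        refine ⟨?_, ?_⟩
        · rw [mem_WW]
          have h5 := mem_WW.1 hw
          constructor
          · intro a
            simp only [Equiv.trans_apply]
            rw [hpres w1 w0 hw1 hw0]
            exact h5.1 a
          · intro b
            simp only [Equiv.trans_apply]
            rw [hpres w1 w0 hw1 hw0]
            exact h5.2 b
        · funext a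
          simp only [Equiv.trans_apply]
          have : w (Sum.inl a) = w1 (Sum.inl a) := by
            rw [hw1' a, ← hw']
          rw [this, Equiv.symm_apply_apply, hw0']
      · intro w _
        ext z
        simp
      · intro w _
        ext z
        simp
    refine ⟨N, card_pos.2 ⟨w0, mem_filter.2 ⟨hw0, funext hw0'⟩⟩, ?_⟩
    intro M _ F
    have h6 : ∀ w ∈ WW fA fB kL, (fun a => w (Sum.inl a)) ∈ TTs fA kL := by
      intro w hw
      rw [mem_TTs]
      refine ⟨fun a b hab => Sum.inl_injective (w.injective hab), (mem_WW.1 hw).1⟩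
    rw [← sum_fiberwise_of_maps_to h6, smul_sum]
    apply sum_congr rfl
    intro σ hσ
    rw [← hcard σ hσ, ← sum_const]
    apply sum_congr rfl
    intro w hw
    rw [(mem_filter.1 hw).2]
  · refine ⟨1, one_pos, ?_⟩
    intro M _ F
    rw [not_nonempty_iff_eq_empty] at hT
    have : WW fA fB kL = ∅ := by
      rw [eq_empty_iff_forall_notMem]
      intro w hw
      have : (fun a => w (Sum.inl a)) ∈ TTs fA kL := by
        rw [mem_TTs]
        exact ⟨fun a b hab => Sum.inl_injective (w.injective hab), (mem_WW.1 hw).1⟩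
      rw [hT] at this
      simp at this
    rw [hT, this]
    simp

lemma count' (fA : A → K) (fB : B → K) (kL : L → K)
    (h : ∀ χ, (univ.filter fun l => kL l = χ).card =
      (univ.filter fun a => fA a = χ).card + (univ.filter fun b => fB b = χ).card) :
    ∃ N : ℕ, 0 < N ∧ ∀ (M : Type*) [AddCommMonoid M] (F : (B → L) → M),
      ∑ w ∈ WW fA fB kL, F (fun b => w (Sum.inr b)) = N • ∑ σ ∈ TTs fB kL, F σ := by
  obtain ⟨N, hN, h1⟩ := count fB fA kL (fun χ => by rw [h χ, add_comm])
  refine ⟨N, hN, ?_⟩
  intro M _ F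
  rw [← h1 M F]
  refine sum_nbij' (fun w => (Equiv.sumComm B A).trans w) (fun w => (Equiv.sumComm A B).trans w)
    ?_ ?_ ?_ ?_ ?_
  · intro w hw
    rw [mem_WW] at hw ⊢
    exact ⟨hw.2, hw.1⟩
  · intro w hw
    rw [mem_WW] at hw ⊢
    exact ⟨hw.2, hw.1⟩
  · intro w _
    ext z
    rcases z with a | b <;> rfl
  · intro w _
    ext z
    rcases z with a | b <;> rfl
  · intro w _
    rfl

end count

variable {ι K I E F : Type*} [LinearOrder ι] [Field K] [Fintype I] [Fintype E] [Fintype F]
  [DecidableEq I] [DecidableEq E] [DecidableEq F] [DecidableEq K]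

variable {Q : QD K I E F} {p t : K} {c : ι → I} {x : ι → K} {S : Set K}

lemma J_one (hs : Sep Q t) (hL : LS Q t c x) {R : Finset ι} {d : ι} (hd : d ∉ R)
    {P : MvPolynomial ι K} :
    cf (insert d R) (aeval (fun q => (u q : HH ι K)) P * PiR Q t c x (insert d R)) =
      cf R (∑ l ∈ In Q t c x (c d) (RY c R (c d)) (x d),
        aeval (Function.update (fun q => (u q : HH ι K)) d (yy l)) P * (PiR Q t c x R *
          wI (In Q t c x (c d) (RY c R (c d)) (x d)) (In Q t c x (c d) (RY c R (c d)) (t * x d))
            yy l)) := by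
  set G : Polynomial (HH ι K) := (Th d P).map
    (aeval (Function.update (fun q => (u q : HH ι K)) d 0) : MvPolynomial ι K →ₐ[K] HH ι K).toRingHom
    with hG
  have hGe : ∀ z : HH ι K, G.eval z = aeval (Function.update (fun q => (u q : HH ι K)) d z) P := by
    intro z
    rw [hG, Polynomial.eval_map, Th_eval, Function.update_idem]
  have hfr : ∀ q, Fr d (Function.update (fun q => (u q : HH ι K)) d 0 q) := by
    intro q
    by_cases hq : q = d
    · subst hq
      rw [Function.update_self]
      exact Fr.zero _
    · rw [Function.update_of_ne hq]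
      exact Fr.u hq
  have hFG : FrP d G := by
    intro n
    rw [hG, Polynomial.coeff_map]
    exact Fr.aeval hfr _
  have hpos := pos_of hs hL (i := c d) (RY c R (c d)) (a := d) rfl
  have h1 := RES.poly hpos hFG (PiR Q t c x R) R (fr_PiR hd) hd
  rw [PiR_insert hs hL hd]
  have e1 : aeval (fun q => (u q : HH ι K)) P *
      (PiR Q t c x R * ph1 Q t c x (c d) (RY c R (c d)) d) =
      PiR Q t c x R * (G.eval (u d) * phi (In Q t c x (c d) (RY c R (c d)) (x d))
        (In Q t c x (c d) (RY c R (c d)) (t * x d)) yy (u d)) := by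
    rw [hGe]
    have : Function.update (fun q => (u q : HH ι K)) d (u d) = fun q => u q :=
      Function.update_eq_self d (fun q => (u q : HH ι K))
    rw [this]
    unfold ph1
    ring
  rw [e1, h1, mul_sum]
  congr 1
  apply sum_congr rfl
  intro l _
  rw [hGe]
  ring

lemma upd_Sb (d : ι) (l : Lam ι E F) :
    Sb (Function.update (fun q => (u q : HH ι K)) d (yy l)) := by
  intro q
  by_cases hq : q = d
  · subst hq
    rw [Function.update_self]
    rcases l with z | z | f
    · exact Or.inr ⟨z.2, rfl⟩
    · exact Or.inr ⟨z.2, rfl⟩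
    · exact Or.inl rfl
  · rw [Function.update_of_ne hq]
    exact Or.inr ⟨q, rfl⟩

lemma JU_one (hs : Sep Q t) (hL : LS Q t c x) (hq : Gq Q p t x S) {R : Finset ι} {d : ι}
    (hd : d ∉ R) (δ : ι → ℤ) :
    JU Q p t c x (insert d R) δ =
      cf R (∑ l ∈ In Q t c x (c d) (RY c R (c d)) (x d),
        UU Q p t c x (insert d R) δ (Function.update (fun q => (u q : HH ι K)) d (yy l)) *
          (PiR Q t c x R *
          wI (In Q t c x (c d) (RY c R (c d)) (x d)) (In Q t c x (c d) (RY c R (c d)) (t * x d))
            yy l)) := by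
  unfold JU
  apply transfer (UU_PP hs hq (insert d R) δ) _ _ (fun l _ => upd_Sb d l)
  · intro l _
    exact (Bd.PiR R).mul (Bd.wI _ _ _)
  · exact Bd.PiR _
  · intro P _
    exact J_one hs hL hd

lemma wv_one {z : HH ι K} (h : 1 + z ≠ 0) (r : K) : wv r z z = HahnSeries.C r := by
  unfold wv
  rw [mul_div_assoc, div_self h, mul_one]

/-- the lowest letter of negative degree -/
lemma JU_neg1 (hs : Sep Q t) (hL : LS Q t c x) (hq : Gq Q p t x S) {R : Finset ι} {d : ι}
    (hd : d ∉ R) (δ : ι → ℤ) (h0 : δ d < 0) (h1 : ∀ q ∈ R, q < d → 0 ≤ δ q) :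
    JU Q p t c x (insert d R) δ = 0 := by
  rw [JU_one hs hL hq hd]
  rw [sum_eq_zero, cf_zero]
  intro l hl
  have hz : UU Q p t c x (insert d R) δ (Function.update (fun q => (u q : HH ι K)) d (yy l)) =
      0 := by
    set s := Function.update (fun q => (u q : HH ι K)) d (yy l) with hsd
    have hsd' : s d = yy l := Function.update_self _ _ _
    have hTT : TT Q c (insert d R) (fe Q p t x δ s) (fw Q p t x δ s) = 0 := by
      have hl' := mem_In.1 hl
      have hdm : d ∈ insert d R := mem_insert_self d R
      have hte := fun e => hq.gs.ne _ (hq.eS e)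
      have hx := fun r => hq.gs.ne _ (hq.xS r)
      have ht0 := hq.gs.ne _ hq.tS
      have hp0 := C_ne (ι := ι) hq.gs.p0
      unfold TT
      rcases l with ⟨e, q⟩ | ⟨e, q⟩ | f
      · have h2 := mem_Ls_inl.1 hl'.1
        have h3 := (kap_inl hs e q d).1.1 hl'.2
        have hqR : q ∈ R := (mem_RY.1 h2.1).1
        have hqd : q ≠ d := fun h => hd (h ▸ hqR)
        have hlt := hL.mf e q d h2.2.2 h2.2.1.symm h3
        rw [mul_eq_zero]
        left
        apply prod_eq_zero (mem_univ e)
        apply prod_eq_zero (mem_insert_of_mem hqR)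
        apply prod_eq_zero hdm
        rw [if_pos ⟨h2.2.2, h2.2.1.symm⟩]
        unfold fe
        have h4 : s q = u q := Function.update_of_ne hqd _ _
        have h5 : Q.te e * x d / x q = 1 := by rw [h3, div_self (hx q)]
        rw [hsd', h4, h5]
        simp only [yy]
        rw [wv_one (Sb.u.ne q), map_one, Qz_one_neg hp0 (by have := h1 q hqR hlt; omega), zero_mul]
      · have h2 := mem_Ls_inr.1 hl'.1
        have h3 := (kap_inr hs e q d).1.1 hl'.2
        have hqR : q ∈ R := (mem_RY.1 h2.1).1
        have hqd : q ≠ d := fun h => hd (h ▸ hqR)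
        have hlt := hL.mb e d q h2.2.1.symm h2.2.2 h3
        rw [mul_eq_zero]
        left
        apply prod_eq_zero (mem_univ e)
        apply prod_eq_zero hdm
        apply prod_eq_zero (mem_insert_of_mem hqR)
        rw [if_pos ⟨h2.2.1.symm, h2.2.2⟩]
        unfold fe
        have h4 : s q = u q := Function.update_of_ne hqd _ _
        have h5 : Q.te e * x q / x d = 1 / t := by
          rw [h3]
          have := hte e; have := hx q
          field_simp
        rw [hsd', h4, h5]
        simp only [yy]
        rw [wv_one (Sb.u.ne q), C_div, map_one, Qz_t_pos (C_ne ht0)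
          (by have := h1 q hqR hlt; omega), zero_mul]
      · have h2 := mem_Ls_fr.1 hl'.1
        have h3 : Q.fa f = x d := hl'.2
        rw [mul_eq_zero]
        right
        apply prod_eq_zero (mem_univ f)
        apply prod_eq_zero hdm
        rw [if_pos h2.symm]
        unfold fw
        have h5 : x d / Q.fa f = 1 := by rw [h3, div_self (hx d)]
        rw [hsd', h5]
        simp only [yy]
        rw [wv_one (by rw [add_zero]; exact one_ne_zero), map_one, Qz_one_neg hp0 h0, zero_mul]
    unfold UU
    rw [hTT, zero_mul, zero_mul]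
  rw [hz, zero_mul]

/-- vanishing for negative degrees -/
theorem JU_neg (hs : Sep Q t) (hL : LS Q t c x) (hq : Gq Q p t x S) {R : Finset ι}
    (δ : ι → ℤ) {r : ι} (hr : r ∈ R) (h0 : δ r < 0) : JU Q p t c x R δ = 0 := by
  have hne : (R.filter fun q => δ q < 0).Nonempty := ⟨r, mem_filter.2 ⟨hr, h0⟩⟩
  set d := (R.filter fun q => δ q < 0).min' hne with hd
  have hdm := min'_mem _ hne
  rw [← hd, mem_filter] at hdm
  have h1 : ∀ q ∈ R.erase d, q < d → 0 ≤ δ q := by
    intro q hq hlt
    by_contra hcon
    push Not at hcon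
    have hmem : q ∈ R.filter fun q => δ q < 0 := mem_filter.2 ⟨mem_of_mem_erase hq, hcon⟩
    have := min'_le _ q hmem
    rw [← hd] at this
    exact absurd hlt (not_lt.2 this)
  have := JU_neg1 hs hL hq (notMem_erase d R) δ hdm.2 h1
  rwa [insert_erase hdm.1] at this

end Pool.Agent.Run7.h657.Res
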