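import Pool.Agent.Run7.h657.RU

/-! The step at a vertex: sums over labellings. -/

set_option linter.unusedSectionVars false

namespace Pool.Agent.Run7.h657.Res

open Finset MvPolynomial

variable {ι K I E F : Type*} [LinearOrder ι] [Field K] [Fintype I] [Fintype E] [Fintype F]
  [DecidableEq I] [DecidableEq E] [DecidableEq F] [DecidableEq K]

variable {Q : QD K I E F} {p t : K} {c : ι → I} {x : ι → K} {S : Set K}

/-- joining degrees -/
def jn (A : Finset ι) (δ : A → ℤ) (e : ι → ℤ) (q : ι) : ℤ :=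
  if h : q ∈ A then δ ⟨q, h⟩ else e q

lemma jn_mem {A : Finset ι} {δ : A → ℤ} {e : ι → ℤ} (a : A) : jn A δ e a.1 = δ a := by
  unfold jn
  rw [dif_pos a.2]

lemma jn_not {A : Finset ι} {δ : A → ℤ} {e : ι → ℤ} {q : ι} (h : q ∉ A) : jn A δ e q = e q := by
  unfold jn
  rw [dif_neg h]

lemma De_jn {i : I} {A Y : Finset ι} (hA : ∀ a ∈ A, c a = i) (hY : ∀ r ∈ Y, c r ≠ i)
    (δ : A → ℤ) (e : ι → ℤ) {l : Lam ι E F} (hl : l ∈ Ls Q c i Y) :
    De (jn A δ e) l = De e l := by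
  rcases l with z | z | f
  · rw [mem_Ls_inl] at hl
    exact jn_not fun h => hY _ hl.1 (hA _ h)
  · rw [mem_Ls_inr] at hl
    exact jn_not fun h => hY _ hl.1 (hA _ h)
  · rfl

/-- natural degrees of the neighbours -/
def Den (e : ι → ℕ) : Lam ι E F → ℕ
  | Sum.inl q => e q.2
  | Sum.inr (Sum.inl q) => e q.2
  | Sum.inr (Sum.inr _) => 0

lemma De_Den (e : ι → ℕ) (l : Lam ι E F) : De (fun q => (e q : ℤ)) l = (Den e l : ℤ) := by
  rcases l with z | z | f <;> rfl

lemma GS.one {p : K} (h : GS p S) (ha : ∃ a, a ∈ S) : (1 : K) ∈ S := by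
  obtain ⟨a, ha⟩ := ha
  have := h.mul _ ha _ (h.inv _ ha)
  rwa [mul_inv_cancel₀ (h.ne _ ha)] at this

lemma Gq.kap (hq : Gq Q p t x S) (l : Lam ι E F) : kap Q t x l ∈ S := by
  rcases l with ⟨e, q⟩ | ⟨e, q⟩ | f
  · exact hq.gs.div (hq.xS q) (hq.eS e)
  · exact hq.gs.mul _ (hq.gs.mul _ hq.tS _ (hq.eS e)) _ (hq.xS q)
  · exact hq.fS f

lemma yy_coeff0 (l : Lam ι E F) : (yy l : HH ι K).coeff 0 = 0 := by
  have key : ∀ r : ι, (u r : HH ι K).coeff 0 = 0 := by
    intro r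
    rw [u_coeff, if_neg]
    intro h
    have := congrArg dg h
    rw [map_zero, dg_ee] at this
    omega
  rcases l with z | z | f
  · exact key _
  · exact key _
  · rfl

lemma lin_inj {r r' : K} (hr : r ≠ 0) {l l' : Lam ι E F}
    (h : HahnSeries.C r * (1 + yy l) = (HahnSeries.C r' * (1 + yy l') : HH ι K)) :
    r = r' ∧ yy l = (yy l' : HH ι K) := by
  have h1 : r = r' := by
    have h2 := congrArg (fun f : HH ι K => f.coeff 0) h
    simp only [HahnSeries.C_mul_eq_smul, HahnSeries.coeff_smul, HahnSeries.coeff_add,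
      yy_coeff0, HahnSeries.coeff_one, if_true, smul_eq_mul, add_zero, mul_one] at h2
    exact h2
  refine ⟨h1, ?_⟩
  rw [← h1] at h
  have := mul_left_cancel₀ (C_ne hr) h
  exact add_left_cancel this

lemma Zl_ne (hq : Gq Q p t x S) (l : Lam ι E F) : Zl Q t x l ≠ (0 : HH ι K) := by
  unfold Zl
  exact mul_ne_zero (C_ne (hq.gs.ne _ (hq.kap l))) (yy_ne l)

lemma Zl_eq (hq : Gq Q p t x S) {l l' : Lam ι E F} {r : K} (hr : r ≠ 0)
    (h : HahnSeries.C r * Zl Q t x l = (Zl Q t x l' : HH ι K)) :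
    r * kap Q t x l = kap Q t x l' ∧ yy l = (yy l' : HH ι K) := by
  unfold Zl at h
  rw [← mul_assoc, ← map_mul] at h
  exact lin_inj (mul_ne_zero hr (hq.gs.ne _ (hq.kap l))) h

lemma C_zpow (r : K) (m : ℤ) : (HahnSeries.C (r ^ m) : HH ι K) = HahnSeries.C r ^ m :=
  map_zpow₀ _ _ _

lemma gz (hs : Sep Q t) (hL : LS Q t c x) (hq : Gq Q p t x S) (i : I) (Y : Finset ι) :
    Gz (HahnSeries.C p) (HahnSeries.C t) (fun l : Ls Q c i Y => (Zl Q t x l.1 : HH ι K)) where
  z0 l := Zl_ne hq l.1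
  n1 := by
    intro l l' hll j hj
    have h0 := Zl_ne (ι := ι) hq l'.1
    have h1 : HahnSeries.C (p ^ (j + 1)) * Zl Q t x l.1 = (Zl Q t x l'.1 : HH ι K) := by
      rw [C_zpow, zpow_add_one₀ (C_ne hq.gs.p0)]
      field_simp at hj
      linear_combination hj
    obtain ⟨h2, h3⟩ := Zl_eq hq (zpow_ne_zero _ hq.gs.p0) h1
    by_cases hj0 : j + 1 = 0
    · rw [hj0, zpow_zero, one_mul] at h2
      exact hll (Subtype.ext (yy_inj hs hL.x0 l.2 l'.2 h2 h3))
    · apply hq.gs.pw _ hj0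
      have h4 := hq.gs.ne _ (hq.kap l.1)
      have : p ^ (j + 1) = kap Q t x l'.1 / kap Q t x l.1 := by
        rw [← h2]; field_simp
      rw [this]
      exact hq.gs.div (hq.kap _) (hq.kap _)
  n2 := by
    intro l l' hll j hj
    have h0 := Zl_ne (ι := ι) hq l'.1
    have ht0 := hq.gs.ne _ hq.tS
    have h1 : HahnSeries.C (t * p ^ j) * Zl Q t x l.1 = (Zl Q t x l'.1 : HH ι K) := by
      rw [map_mul, C_zpow]
      field_simp at hj
      linear_combination hj
    obtain ⟨h2, h3⟩ := Zl_eq hq (mul_ne_zero ht0 (zpow_ne_zero _ hq.gs.p0)) h1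
    by_cases hj0 : j = 0
    · rw [hj0, zpow_zero, mul_one] at h2
      obtain ⟨d, _, hcd, hxd⟩ := exists_letter hL (i := i) (Y := Y) (χ := kap Q t x l.1)
        ⟨l.1, mem_In.2 ⟨l.2, rfl⟩⟩ hs ∅
      have hpos := pos_of hs hL Y hcd
      apply hll
      apply Subtype.ext
      apply hpos.inj _ _ h3
      · rw [mem_coe, mem_union, mem_In, mem_In]
        exact Or.inl ⟨l.2, hxd.symm⟩
      · rw [mem_coe, mem_union, mem_In, mem_In]
        exact Or.inr ⟨l'.2, by rw [hxd, h2]⟩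
    · apply hq.gs.pw _ hj0
      have h4 := hq.gs.ne _ (hq.kap l.1)
      have : p ^ j = kap Q t x l'.1 / (t * kap Q t x l.1) := by
        rw [← h2]; field_simp
      rw [this]
      exact hq.gs.div (hq.kap _) (hq.gs.mul _ hq.tS _ (hq.kap _))

lemma okC (hq : Gq Q p t x S) :
    Ok (HahnSeries.C p : HH ι K) (HahnSeries.C t) where
  hp := C_ne hq.gs.p0
  ht := C_ne (hq.gs.ne _ hq.tS)
  hpp := by
    intro m hm h
    apply hq.gs.pw m (by omega)
    have : p ^ m = 1 := by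
      apply HahnSeries.C_injective (Γ := Ex ι)
      rw [map_pow, h, map_one]
    rw [zpow_natCast, this]
    exact hq.gs.one ⟨t, hq.tS⟩
  htp := by
    intro l h
    apply hq.gs.pw (l + 1) (by omega)
    have : t = p ^ (l + 1) := by
      apply HahnSeries.C_injective (Γ := Ex ι)
      rw [map_pow, h]
    have h2 : p ^ ((l : ℤ) + 1) = p ^ (l + 1) := by
      rw [← zpow_natCast]; push_cast; rfl
    rw [h2, ← this]
    exact hq.tS

lemma Gz.sepa {G L : Type*} [Field G] {p t : G} {Z : L → G} (h : Gz p t Z)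
    (ok : Ok p t) : Sepa t Z where
  t0 := ok.ht
  z0 := h.z0
  d1 := by
    intro l l' hl he
    apply h.n1 l l' hl (-1)
    rw [he, div_self (h.z0 _), mul_one, zpow_neg, zpow_one]
    exact mul_inv_cancel₀ ok.hp
  d2 := by
    intro l l' hl he
    apply h.n2 l l' hl 0
    rw [zpow_zero, mul_one, ← mul_div_assoc, he, div_self (h.z0 _)]

/-- number of out type neighbours of each letter -/
def NsY (Q : QD K I E F) (c : ι → I) (i : I) (Y : Finset ι) : ℕ :=
  ∑ e, if Q.src e = i then (RA c Y (Q.tgt e)).card else 0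

/-- out type degree -/
def SeY (Q : QD K I E F) (c : ι → I) (i : I) (Y : Finset ι) (e : ι → ℤ) : ℤ :=
  ∑ b, if Q.src b = i then ∑ r ∈ RA c Y (Q.tgt b), e r else 0

lemma og_prod (i : I) (Y : Finset ι) (m : ℤ) (e : ι → ℤ) (hp : p ≠ 0) (ht : t ≠ 0) :
    ∏ l ∈ Ls Q c i Y, og p t (m - De e l) l =
      ((HahnSeries.C p / HahnSeries.C t : HH ι K)) ^ ((NsY Q c i Y : ℤ) * m - SeY Q c i Y e) := by
  have hc : (HahnSeries.C p / HahnSeries.C t : HH ι K) ≠ 0 := div_ne_zero (C_ne hp) (C_ne ht)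
  rw [prod_Ls]
  have h1 : (∏ b, ∏ r ∈ Y, if Q.tgt b = i ∧ c r = Q.src b then
      og p t (m - De e (Sum.inl (b, r) : Lam ι E F)) (Sum.inl (b, r) : Lam ι E F)
        else (1 : HH ι K)) = 1 := by
    apply prod_eq_one; intro b _
    apply prod_eq_one; intro r _
    split_ifs <;> rfl
  have h3 : (∏ f, if Q.cF f = i then
      og p t (m - De e (Sum.inr (Sum.inr f) : Lam ι E F)) (Sum.inr (Sum.inr f) : Lam ι E F)
        else (1 : HH ι K)) = 1 := by
    apply prod_eq_one; intro f _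
    split_ifs <;> rfl
  rw [h1, h3, one_mul, mul_one]
  have h2 : ∀ b, (∏ r ∈ Y, if Q.src b = i ∧ c r = Q.tgt b then
      og p t (m - De e (Sum.inr (Sum.inl (b, r)) : Lam ι E F))
        (Sum.inr (Sum.inl (b, r)) : Lam ι E F)
        else (1 : HH ι K)) =
      (HahnSeries.C p / HahnSeries.C t : HH ι K) ^ (if Q.src b = i then
        ((RA c Y (Q.tgt b)).card : ℤ) * m - ∑ r ∈ RA c Y (Q.tgt b), e r else 0) := by
    intro b
    by_cases hb : Q.src b = i
    · rw [if_pos hb]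
      simp only [hb, true_and]
      have : ((RA c Y (Q.tgt b)).card : ℤ) * m - ∑ r ∈ RA c Y (Q.tgt b), e r =
          ∑ r ∈ RA c Y (Q.tgt b), (m - e r) := by
        rw [sum_sub_distrib, sum_const, nsmul_eq_mul]
      rw [this, ← zprod hc, ← prod_filter]
      rfl
    · simp [hb]
  simp_rw [h2]
  rw [zprod hc]
  congr 1
  unfold NsY SeY
  push_cast
  rw [sum_mul, ← sum_sub_distrib]
  apply sum_congr rfl; intro b _
  split_ifs <;> ring

lemma prod_coe_L (i : I) (Y : Finset ι) (f : Lam ι E F → HH ι K) :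
    ∏ l ∈ Ls Q c i Y, f l = ∏ l : Ls Q c i Y, f l.1 := by
  rw [← prod_coe_sort]

lemma prod_coe_L' (i : I) (Y : Finset ι) (l0 : Ls Q c i Y) (f : Lam ι E F → HH ι K) :
    ∏ l ∈ (Ls Q c i Y).erase l0.1, f l = ∏ l : Ls Q c i Y, if l ≠ l0 then f l.1 else 1 := by
  have h1 : ∏ l : Ls Q c i Y, (if l ≠ l0 then f l.1 else 1) =
      ∏ l ∈ Ls Q c i Y, if l ≠ l0.1 then f l else 1 := by
    rw [← prod_coe_sort (Ls Q c i Y) (fun l => if l ≠ l0.1 then f l else 1)]
    apply prod_congr rfl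
    intro l _
    by_cases h : l = l0
    · simp [h]
    · rw [if_pos h, if_pos (fun h' => h (Subtype.ext h'))]
  rw [h1, ← prod_filter]
  congr 1
  ext l
  rw [mem_erase, mem_filter, and_comm]


end Pool.Agent.Run7.h657.Res
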