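import Pool.Agent.Run7.h657.RV

/-! The step at a vertex: the vertex part at the poles. -/

set_option linter.unusedSectionVars false

namespace Pool.Agent.Run7.h657.Res

open Finset MvPolynomial

variable {ι K I E F : Type*} [LinearOrder ι] [Field K] [Fintype I] [Fintype E] [Fintype F]
  [DecidableEq I] [DecidableEq E] [DecidableEq F] [DecidableEq K]

/-- positions of the neighbours -/
noncomputable def ZL (Q : QD K I E F) (t : K) (c : ι → I) (x : ι → K) (i : I) (Y : Finset ι)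
    (l : Ls Q c i Y) : HH ι K := Zl Q t x l.1

/-- degrees of the neighbours -/
def EL (Q : QD K I E F) (c : ι → I) (i : I) (Y : Finset ι) (e : ι → ℤ) (l : Ls Q c i Y) : ℤ :=
  De e l.1

variable {Q : QD K I E F} {p t : K} {c : ι → I} {x : ι → K} {S : Set K}

lemma og_all {i : I} {A Y : Finset ι} (hA : ∀ a ∈ A, c a = i) (hY : ∀ r ∈ Y, c r ≠ i)
    (hq : Gq Q p t x S) (δ : A → ℤ) (e : ι → ℤ) :
    (∏ a : A, ∏ l ∈ Ls Q c i Y, og p t (jn A δ e a - De (jn A δ e) l) l) =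
      (HahnSeries.C p / HahnSeries.C t : HH ι K) ^
        ((NsY Q c i Y : ℤ) * ∑ a, δ a - (A.card : ℤ) * SeY Q c i Y e) := by
  have hc : (HahnSeries.C p / HahnSeries.C t : HH ι K) ≠ 0 :=
    div_ne_zero (C_ne hq.gs.p0) (C_ne (hq.gs.ne _ hq.tS))
  have : ∀ a : A, (∏ l ∈ Ls Q c i Y, og p t (jn A δ e a - De (jn A δ e) l) l) =
      (HahnSeries.C p / HahnSeries.C t : HH ι K) ^
        ((NsY Q c i Y : ℤ) * δ a - SeY Q c i Y e) := by
    intro a
    rw [← og_prod i Y (δ a) e hq.gs.p0 (hq.gs.ne _ hq.tS)]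
    apply prod_congr rfl
    intro l hl
    rw [De_jn hA hY δ e hl, jn_mem]
  rw [prod_congr rfl (fun a _ => this a), zprod hc]
  congr 1
  rw [sum_sub_distrib, sum_const, card_univ, Fintype.card_coe, nsmul_eq_mul, mul_sum]

/-- the vertex part in terms of the positions of the neighbours -/
lemma VPt_gen {i : I} {A Y : Finset ι} (hA : ∀ a ∈ A, c a = i) (hY : ∀ r ∈ Y, c r ≠ i)
    (hq : Gq Q p t x S) (δ : A → ℤ) (e : ι → ℤ) (τ : A → Ls Q c i Y) (X : A → HH ι K)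
    (hX : ∀ a : A, HahnSeries.C (x a.1) * (1 + yy (τ a).1) = X a) :
    VPt Q p t c x i A Y (jn A δ e) (fun a => (τ a).1) =
      (HahnSeries.C p / HahnSeries.C t : HH ι K) ^
        ((NsY Q c i Y : ℤ) * ∑ a, δ a - (A.card : ℤ) * SeY Q c i Y e) * kc ι t ^ A.card *
      ((∏ a, ∏ l, Qz (HahnSeries.C p) (HahnSeries.C t) (X a / ZL Q t c x i Y l)
          (δ a - EL Q c i Y e l)) *
        (∏ a, ∏ l, if l ≠ τ a then (mu (HahnSeries.C t) (X a / ZL Q t c x i Y l))⁻¹ else 1) *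
        (∏ a, ∏ a', if a ≠ a' then Kz (HahnSeries.C p) (HahnSeries.C t) (X a / X a')
          (δ a - δ a') else 1)) := by
  have hX' : ∀ a : A, Xp x (fun a => (τ a).1) a = X a := hX
  have hDe : ∀ l ∈ Ls Q c i Y, De (jn A δ e) l = De e l := fun l hl => De_jn hA hY δ e hl
  have e1 : (∏ a : A, ∏ l ∈ Ls Q c i Y, Qz (HahnSeries.C p) (HahnSeries.C t)
      (Xp x (fun a => (τ a).1) a / Zl Q t x l) (jn A δ e a - De (jn A δ e) l)) =
      ∏ a, ∏ l, Qz (HahnSeries.C p) (HahnSeries.C t) (X a / ZL Q t c x i Y l)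
          (δ a - EL Q c i Y e l) := by
    apply prod_congr rfl; intro a _
    rw [prod_coe_L]
    apply prod_congr rfl; intro l _
    rw [hX', hDe _ l.2, jn_mem]
    rfl
  have e2 : (∏ a : A, ∏ l ∈ (Ls Q c i Y).erase (τ a).1,
      (mu (HahnSeries.C t) (Xp x (fun a => (τ a).1) a / Zl Q t x l))⁻¹) =
      ∏ a, ∏ l, if l ≠ τ a then (mu (HahnSeries.C t) (X a / ZL Q t c x i Y l))⁻¹ else 1 := by
    apply prod_congr rfl; intro a _
    rw [prod_coe_L', hX']
    rfl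
  have e3 : (∏ a : A, ∏ b : A, if a ≠ b then Kz (HahnSeries.C p) (HahnSeries.C t)
        (Xp x (fun a => (τ a).1) a / Xp x (fun a => (τ a).1) b)
          (jn A δ e a - jn A δ e b) else 1) =
      ∏ a, ∏ a', if a ≠ a' then Kz (HahnSeries.C p) (HahnSeries.C t) (X a / X a')
          (δ a - δ a') else 1 := by
    apply prod_congr rfl; intro a _
    apply prod_congr rfl; intro b _
    rw [hX', hX', jn_mem, jn_mem]
  unfold VPt
  rw [og_all hA hY hq δ e, e1, e2, e3]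

/-- the value for one labelling, first type -/
noncomputable def FA (Q : QD K I E F) (p t : K) (c : ι → I) (x : ι → K) (i : I)
    {A B Y : Finset ι} (e : ι → ℤ) (w : A ⊕ B ≃ Ls Q c i Y) (δ : A → ℤ) : HH ι K :=
  fullZ (HahnSeries.C p) (HahnSeries.C t) (fun a => ZL Q t c x i Y (w (Sum.inl a)))
    (ZL Q t c x i Y) (EL Q c i Y e) δ

/-- the value for one labelling, second type -/
noncomputable def FB (Q : QD K I E F) (p t : K) (c : ι → I) (x : ι → K) (i : I)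
    {A B Y : Finset ι} (e : ι → ℤ) (w : A ⊕ B ≃ Ls Q c i Y) (δ : B → ℤ) : HH ι K :=
  fullZ (HahnSeries.C p) (HahnSeries.C t)
    (fun b => ZL Q t c x i Y (w (Sum.inr b)) / HahnSeries.C t)
    (ZL Q t c x i Y) (EL Q c i Y e) δ

lemma gzL (hs : Sep Q t) (hL : LS Q t c x) (hq : Gq Q p t x S) (i : I) (Y : Finset ι) :
    Gz (HahnSeries.C p) (HahnSeries.C t) (ZL Q t c x i Y) := gz hs hL hq i Y

/-- the vertex part for poles of the first type -/
lemma VPt_in (hs : Sep Q t) (hL : LS Q t c x) (hq : Gq Q p t x S) {i : I} {A B Y : Finset ι}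
    (hA : ∀ a ∈ A, c a = i) (hY : ∀ r ∈ Y, c r ≠ i) (δ : A → ℤ) (e : ι → ℤ)
    {w : A ⊕ B ≃ Ls Q c i Y} (hw : ∀ a : A, kap Q t x (w (Sum.inl a)).1 = x a.1) :
    VPt Q p t c x i A Y (jn A δ e) (fun a => (w (Sum.inl a)).1) =
      (HahnSeries.C p / HahnSeries.C t : HH ι K) ^
        ((NsY Q c i Y : ℤ) * ∑ a, δ a - (A.card : ℤ) * SeY Q c i Y e) * kc ι t ^ A.card *
      (XiW (HahnSeries.C t) (ZL Q t c x i Y) w * FA Q p t c x i e w δ) := by
  have h1 := VPt_gen hA hY hq δ e (fun a => w (Sum.inl a))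
    (fun a => ZL Q t c x i Y (w (Sum.inl a))) (by
      intro a
      unfold ZL Zl
      rw [hw a])
  have h2 := full_tie (C_ne (ι := ι) hq.gs.p0) (ZL Q t c x i Y)
    (Gz.sepa (gzL hs hL hq i Y) (okC hq)) w (EL Q c i Y e) δ
  rw [h1, h2]
  rfl

/-- the vertex part for poles of the second type -/
lemma VPt_out (hs : Sep Q t) (hL : LS Q t c x) (hq : Gq Q p t x S) {i : I} {A B Y : Finset ι}
    (hB : ∀ a ∈ B, c a = i) (hY : ∀ r ∈ Y, c r ≠ i) (δ : B → ℤ) (e : ι → ℤ)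
    {w : A ⊕ B ≃ Ls Q c i Y} (hw : ∀ b : B, kap Q t x (w (Sum.inr b)).1 = t * x b.1) :
    VPt Q p t c x i B Y (jn B δ e) (fun b => (w (Sum.inr b)).1) =
      (HahnSeries.C p / HahnSeries.C t : HH ι K) ^
        ((NsY Q c i Y : ℤ) * ∑ a, δ a - (B.card : ℤ) * SeY Q c i Y e) * kc ι t ^ B.card *
      (XiW (HahnSeries.C t) (ZL Q t c x i Y) w * FB Q p t c x i e w δ) := by
  have h1 := VPt_gen hB hY hq δ e (fun b => w (Sum.inr b))
    (fun b => ZL Q t c x i Y (w (Sum.inr b)) / HahnSeries.C t) (by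
      intro b
      have := C_ne (ι := ι) (hq.gs.ne _ hq.tS)
      unfold ZL Zl
      rw [hw b, map_mul]
      field_simp)
  have h2 := full_tie' (C_ne (ι := ι) hq.gs.p0) (ZL Q t c x i Y)
    (Gz.sepa (gzL hs hL hq i Y) (okC hq)) w (EL Q c i Y e) δ
  rw [h1, h2]
  rfl

end Pool.Agent.Run7.h657.Res
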