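import Pool.Agent.Run7.h657.RW
import Pool.Agent.Run7.h657.CN

/-! The step at a vertex: residues as sums over labellings. -/

set_option linter.unusedSectionVars false

namespace Pool.Agent.Run7.h657.Res

open Finset MvPolynomial

variable {ι K I E F : Type*} [LinearOrder ι] [Field K] [Fintype I] [Fintype E] [Fintype F]
  [DecidableEq I] [DecidableEq E] [DecidableEq F] [DecidableEq K]

variable {Q : QD K I E F} {p t : K} {c : ι → I} {x : ι → K} {S : Set K}

lemma card_coe_filter {X : Type*} [DecidableEq X] (s : Finset X) (P : X → Prop)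
    [DecidablePred P] : (univ.filter fun a : s => P a.1).card = (s.filter P).card := by
  rw [card_filter, card_filter, ← sum_coe_sort s (fun a => if P a then 1 else 0)]

/-- sums over poles as sums over injective maps -/
lemma sum_TTs {i : I} {Y A : Finset ι} (f : ι → K) (g : (A → Lam ι E F) → HH ι K)
    (h0 : ∀ σ : A → Lam ι E F, (∀ a, σ a ∈ In Q t c x i Y (f a.1)) →
      ¬ Function.Injective σ → g σ = 0) :
    ∑ σ ∈ Fintype.piFinset (fun a : A => In Q t c x i Y (f a.1)), g σ =
      ∑ σ ∈ TTs (fun a : A => f a.1) (fun l : Ls Q c i Y => kap Q t x l.1),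
        g (fun a => (σ a).1) := by
  classical
  have h1 : ∑ σ ∈ Fintype.piFinset (fun a : A => In Q t c x i Y (f a.1)), g σ =
      ∑ σ ∈ (Fintype.piFinset (fun a : A => In Q t c x i Y (f a.1))).filter
        (fun σ => Function.Injective σ), g σ := by
    rw [sum_filter]
    apply sum_congr rfl
    intro σ hσ
    rw [Fintype.mem_piFinset] at hσ
    split_ifs with hi
    · rfl
    · exact h0 σ hσ hi
  rw [h1]
  symm
  apply sum_nbij (fun σ a => (σ a).1)
  · intro σ hσ
    rw [mem_TTs] at hσ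
    rw [mem_filter, Fintype.mem_piFinset]
    refine ⟨fun a => mem_In.2 ⟨(σ a).2, hσ.2 a⟩, ?_⟩
    intro a b hab
    exact hσ.1 (Subtype.ext hab)
  · intro σ _ σ' _ hh
    funext a
    exact Subtype.ext (congrFun hh a)
  · intro σ hσ
    rw [mem_coe, mem_filter, Fintype.mem_piFinset] at hσ
    refine ⟨fun a => ⟨σ a, (mem_In.1 (hσ.1 a)).1⟩, ?_, rfl⟩
    rw [mem_coe, mem_TTs]
    refine ⟨?_, fun a => (mem_In.1 (hσ.1 a)).2⟩
    intro a b hab
    exact hσ.2 (congrArg Subtype.val hab)
  · intro σ _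
    rfl

/-- balanced weights -/
def Bal (Q : QD K I E F) (t : K) (c : ι → I) (x : ι → K) (i : I) (A B Y : Finset ι) : Prop :=
  ∀ χ, (In Q t c x i Y χ).card = (A.filter fun a => x a = χ).card +
    (B.filter fun b => t * x b = χ).card

lemma Bal.fib {i : I} {A B Y : Finset ι} (h : Bal Q t c x i A B Y) (χ : K) :
    (univ.filter fun l : Ls Q c i Y => kap Q t x l.1 = χ).card =
      (univ.filter fun a : A => x a.1 = χ).card +
      (univ.filter fun b : B => t * x b.1 = χ).card := by
  have h1 := card_coe_filter (Ls Q c i Y) (fun l => kap Q t x l = χ)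
  have h2 := card_coe_filter A (fun a => x a = χ)
  have h3 := card_coe_filter B (fun b => t * x b = χ)
  rw [h1, h2, h3]
  exact h χ

lemma UU_congr {Y : Finset ι} {δ δ' : ι → ℤ} (h : ∀ q ∈ Y, δ q = δ' q) (s : ι → HH ι K) :
    UU Q p t c x Y δ s = UU Q p t c x Y δ' s := by
  unfold UU
  have h1 : TT Q c Y (fe Q p t x δ s) (fw Q p t x δ s) =
      TT Q c Y (fe Q p t x δ' s) (fw Q p t x δ' s) := by
    unfold TT
    refine congrArg₂ (fun y z : HH ι K => y * z) ?_ ?_
    · apply prod_congr rfl; intro e _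
      apply prod_congr rfl; intro r hr
      apply prod_congr rfl; intro q hq
      have : fe Q p t x δ s e r q = fe Q p t x δ' s e r q := by
        unfold fe
        rw [h r hr, h q hq]
      rw [this]
    · apply prod_congr rfl; intro f _
      apply prod_congr rfl; intro r hr
      have : fw Q p t x δ s f r = fw Q p t x δ' s f r := by
        unfold fw
        rw [h r hr]
      rw [this]
  have h2 : (∏ a ∈ Y, ∏ b ∈ Y, if c a = c b ∧ a ≠ b then kk p t x δ s a b else 1) =
      ∏ a ∈ Y, ∏ b ∈ Y, if c a = c b ∧ a ≠ b then kk p t x δ' s a b else 1 := by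
    apply prod_congr rfl; intro a ha
    apply prod_congr rfl; intro b hb
    have : kk p t x δ s a b = kk p t x δ' s a b := by
      unfold kk
      rw [h a ha, h b hb]
    rw [this]
  rw [h1, h2]

/-- the part of the integrand outside a vertex -/
noncomputable def UY (Q : QD K I E F) (p t : K) (c : ι → I) (x : ι → K) (Y : Finset ι)
    (e : ι → ℤ) : HH ι K := UU Q p t c x Y e (fun q => u q) * PiR Q t c x Y

/-- the prefactor of a labelling -/
noncomputable def pre (Q : QD K I E F) (p t : K) (c : ι → I) (x : ι → K) (i : I)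
    {A B Y : Finset ι} (e : ι → ℤ) (w : A ⊕ B ≃ Ls Q c i Y) : HH ι K :=
  UY Q p t c x Y e * XiW (HahnSeries.C t) (ZL Q t c x i Y) w

/-- the constant -/
def k0 (t : K) : K := -(1 - 1 / t)⁻¹

lemma kc_C (t : K) : kc ι t = HahnSeries.C (k0 t) := by
  unfold kc k0
  rw [map_neg, map_inv₀, map_sub, map_one, C_div, map_one]

lemma k0_ne {t : K} (ht1 : t ≠ 1) (ht0 : t ≠ 0) : k0 t ≠ 0 := by
  unfold k0
  apply neg_ne_zero.2
  apply inv_ne_zero
  rw [sub_ne_zero]
  intro h
  rw [eq_div_iff ht0, one_mul] at h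
  exact ht1 h

lemma cf_nsmul (R : Finset ι) (N : ℕ) (f : HH ι K) : cf R (N • f) = (N : K) * cf R f := by
  have h1 : N • f = HahnSeries.C (N : K) * f := by
    rw [nsmul_eq_mul, map_natCast]
  rw [h1, cf_C]

lemma CC_pow (m : ℤ) (n : ℕ) : (HahnSeries.C p / HahnSeries.C t : HH ι K) ^ m * kc ι t ^ n =
    HahnSeries.C ((p / t) ^ m * k0 t ^ n) := by
  rw [kc_C, map_mul, C_zpow, C_div, map_pow]

/-- the residue as a sum over labellings, first type -/
theorem stepA (hs : Sep Q t) (hL : LS Q t c x) (hq : Gq Q p t x S) {i : I} {A B Y : Finset ι}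
    (hA : ∀ a ∈ A, c a = i) (hY : ∀ r ∈ Y, c r ≠ i) (hbal : Bal Q t c x i A B Y) :
    ∀ (δ : A → ℤ) (e : ι → ℤ),
      ((stN (fun b : B => t * x b.1) : ℕ) : K) * JU Q p t c x (A ∪ Y) (jn A δ e) =
        ((p / t) ^ ((NsY Q c i Y : ℤ) * ∑ a, δ a - (A.card : ℤ) * SeY Q c i Y e) *
          k0 t ^ A.card) *
        ∑ w ∈ WW (fun a : A => x a.1) (fun b : B => t * x b.1)
          (fun l : Ls Q c i Y => kap Q t x l.1),
          cf Y (pre Q p t c x i e w * FA Q p t c x i e w δ) := by
  have h1 := fun M => @count_card _ _ _ _ _ _ _ _ _ _ _ (fun a : A => x a.1)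
    (fun b : B => t * x b.1)
    (fun l : Ls Q c i Y => kap Q t x l.1) hbal.fib M
  intro δ e
  rw [JU_in hs hL hq hA hY, sum_TTs (fun a => x a) (fun σ => UU Q p t c x (A ∪ Y) (jn A δ e)
    (tie A σ) * (PiR Q t c x Y *
          ∏ a : A, wI (In Q t c x i Y (x a.1)) (In Q t c x i Y (t * x a.1)) yy (σ a))),
    ← cf_nsmul, ← h1, cf_sum, mul_sum]
  · apply sum_congr rfl
    intro w hw
    rw [mem_WW] at hw
    rw [UU_tie hs hq hA hY (jn A δ e) (fun a => (w (Sum.inl a)).1)
      (fun a => wI (In Q t c x i Y (x a.1)) (In Q t c x i Y (t * x a.1)) yy (w (Sum.inl a)).1)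
      (fun a => let_in hs hL (hA a.1 a.2) (mem_In.2 ⟨(w (Sum.inl a)).2, hw.1 a⟩)),
      VPt_in hs hL hq hA hY δ e hw.1, CC_pow,
      UU_congr (fun q hq' => jn_not fun h => hY q hq' (hA q h))]
    have e1 : ∀ (U P C X Fz : HH ι K), U * P * (C * (X * Fz)) = C * (U * P * X * Fz) := by
      intro U P C X Fz; ring
    rw [e1, cf_C]
    rfl
  · intro σ hσ hinj
    unfold Function.Injective at hinj
    push Not at hinj
    obtain ⟨a, b, hab, hne⟩ := hinj
    rw [UU_zero hs hq (tie_Sb σ) (mem_union_left _ a.2) (mem_union_left _ b.2)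
      (fun h => hne (Subtype.ext h)) ((hA a.1 a.2).trans (hA b.1 b.2).symm), zero_mul]
    · have h2 := (mem_In.1 (hσ a)).2
      have h3 := (mem_In.1 (hσ b)).2
      rw [hab, h3] at h2
      exact h2.symm
    · rw [tie_of σ a.2, tie_of σ b.2]
      exact congrArg yy hab

/-- the residue as a sum over labellings, second type -/
theorem stepB (hs : Sep Q t) (hL : LS Q t c x) (hq : Gq Q p t x S) {i : I} {A B Y : Finset ι}
    (hB : ∀ a ∈ B, c a = i) (hY : ∀ r ∈ Y, c r ≠ i) (hbal : Bal Q t c x i A B Y)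
    (hZ : ∀ A' : Finset ι, (∀ a ∈ A', c a = i) → A'.card < B.card → ∀ P : MvPolynomial ι K,
      PP Q t c x (A' ∪ Y) P → J Q t c x (A' ∪ Y) P = 0) :
    ∀ (δ : B → ℤ) (e : ι → ℤ),
      ((stN (fun a : A => x a.1) : ℕ) : K) * JU Q p t c x (B ∪ Y) (jn B δ e) =
        ((p / t) ^ ((NsY Q c i Y : ℤ) * ∑ a, δ a - (B.card : ℤ) * SeY Q c i Y e) *
          k0 t ^ B.card) *
        ∑ w ∈ WW (fun a : A => x a.1) (fun b : B => t * x b.1)
          (fun l : Ls Q c i Y => kap Q t x l.1),
          cf Y (pre Q p t c x i e w * FB Q p t c x i e w δ) := by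
  have h1 := fun M => @count_card' _ _ _ _ _ _ _ _ _ _ _ (fun a : A => x a.1)
    (fun b : B => t * x b.1)
    (fun l : Ls Q c i Y => kap Q t x l.1) hbal.fib M
  intro δ e
  rw [JU_out hs hL hq hB hY hZ, sum_TTs (fun a => t * x a)
    (fun σ => UU Q p t c x (B ∪ Y) (jn B δ e)
    (tie B σ) * (PiR Q t c x Y *
          ∏ a : B, wO (In Q t c x i Y (x a.1)) (In Q t c x i Y (t * x a.1)) yy (σ a))),
    ← cf_nsmul, ← h1, cf_sum, mul_sum]
  · apply sum_congr rfl
    intro w hw
    rw [mem_WW] at hw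
    rw [UU_tie hs hq hB hY (jn B δ e) (fun a => (w (Sum.inr a)).1)
      (fun a => wO (In Q t c x i Y (x a.1)) (In Q t c x i Y (t * x a.1)) yy (w (Sum.inr a)).1)
      (fun a => let_out hs hL (hB a.1 a.2) (mem_In.2 ⟨(w (Sum.inr a)).2, hw.2 a⟩)),
      VPt_out hs hL hq hB hY δ e hw.2, CC_pow,
      UU_congr (fun q hq' => jn_not fun h => hY q hq' (hB q h))]
    have e1 : ∀ (U P C X Fz : HH ι K), U * P * (C * (X * Fz)) = C * (U * P * X * Fz) := by
      intro U P C X Fz; ring
    rw [e1, cf_C]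
    rfl
  · intro σ hσ hinj
    unfold Function.Injective at hinj
    push Not at hinj
    obtain ⟨a, b, hab, hne⟩ := hinj
    rw [UU_zero hs hq (tie_Sb σ) (mem_union_left _ a.2) (mem_union_left _ b.2)
      (fun h => hne (Subtype.ext h)) ((hB a.1 a.2).trans (hB b.1 b.2).symm), zero_mul]
    · have h2 := (mem_In.1 (hσ a)).2
      have h3 := (mem_In.1 (hσ b)).2
      rw [hab, h3] at h2
      exact (mul_left_cancel₀ hs.t0 h2).symm
    · rw [tie_of σ a.2, tie_of σ b.2]
      exact congrArg yy hab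

end Pool.Agent.Run7.h657.Res
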