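import Mathlib

/-! Positivity of real roots for a symmetric generalised Cartan matrix. -/

set_option linter.unusedSectionVars false

namespace Pool.Agent.Run7.h657

open Finset

variable {I : Type*} [Fintype I] [DecidableEq I]

/-- simple reflection: `n i j` is the number of edges -/
def rf (n : I → I → ℕ) (i : I) (α : I → ℤ) : I → ℤ :=
  Function.update α i (∑ j, (n i j : ℤ) * α j - α i)

/-- action of a word -/
def act (n : I → I → ℕ) : List I → (I → ℤ) → (I → ℤ)
  | [] => id
  | i :: u => rf n i ∘ act n u

variable {n : I → I → ℕ}

lemma act_append (u v : List I) : act n (u ++ v) = act n u ∘ act n v := by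
  induction u with
  | nil => rfl
  | cons i u ih => simp only [List.cons_append, act, ih]; rfl

lemma rf_rf (hn : ∀ i, n i i = 0) (i : I) : rf n i ∘ rf n i = id := by
  funext α
  simp only [Function.comp_apply, id]
  have h : ∑ j, (n i j : ℤ) * rf n i α j = ∑ j, (n i j : ℤ) * α j := by
    apply sum_congr rfl
    intro j _
    by_cases hj : j = i
    · subst hj; rw [hn]; simp
    · unfold rf; rw [Function.update_of_ne hj]
  funext j
  by_cases hj : j = i
  · subst hj
    rw [rf, Function.update_self, h, rf, Function.update_self]
    ring
  · rw [rf, Function.update_of_ne hj, rf, Function.update_of_ne hj]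

lemma act_pair (hn : ∀ i, n i i = 0) (i : I) : act n [i, i] = id := by
  simp only [act, Function.comp_id]
  exact rf_rf hn i

lemma rf_add (i : I) (α β : I → ℤ) : rf n i (α + β) = rf n i α + rf n i β := by
  funext j
  by_cases hj : j = i
  · subst hj
    simp only [rf, Function.update_self, Pi.add_apply, mul_add, sum_add_distrib]
    ring
  · simp [rf, Function.update_of_ne hj]

lemma rf_smul (i : I) (a : ℤ) (α : I → ℤ) : rf n i (a • α) = a • rf n i α := by
  funext j
  by_cases hj : j = i
  · subst hj
    simp only [rf, Function.update_self, Pi.smul_apply, smul_eq_mul]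
    rw [mul_sub, mul_sum]
    congr 1
    apply sum_congr rfl
    intro k _
    ring
  · simp [rf, Function.update_of_ne hj]

lemma act_add (u : List I) (α β : I → ℤ) : act n u (α + β) = act n u α + act n u β := by
  induction u with
  | nil => rfl
  | cons i u ih => simp only [act, Function.comp_apply, ih, rf_add]

lemma act_smul (u : List I) (a : ℤ) (α : I → ℤ) : act n u (a • α) = a • act n u α := by
  induction u with
  | nil => rfl
  | cons i u ih => simp only [act, Function.comp_apply, ih, rf_smul]

/-- simple root -/
abbrev sr (i : I) : I → ℤ := Pi.single i 1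

lemma rf_sr_self (hn : ∀ i, n i i = 0) (i : I) : rf n i (sr i) = -sr i := by
  funext j
  by_cases hj : j = i
  · subst hj
    have : ∑ k, (n j k : ℤ) * (sr j : I → ℤ) k = 0 := by
      apply sum_eq_zero
      intro k _
      by_cases hk : k = j
      · subst hk; simp [hn]
      · simp [Pi.single_eq_of_ne hk]
    rw [rf, Function.update_self, this]
    simp
  · simp [rf, Function.update_of_ne hj, Pi.single_eq_of_ne hj]

lemma rf_sr (hn : ∀ i, n i i = 0) (i j : I) (hij : j ≠ i) :
    rf n i (sr j) = sr j + (n i j : ℤ) • sr i := by
  funext k
  by_cases hk : k = i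
  · subst hk
    have : ∑ l, (n k l : ℤ) * (sr j : I → ℤ) l = n k j := by
      rw [sum_eq_single j]
      · simp
      · intro l _ hl
        simp [Pi.single_eq_of_ne hl]
      · simp
    rw [rf, Function.update_self, this]
    simp [Pi.single_eq_of_ne hij.symm]
  · simp [rf, Function.update_of_ne hk, Pi.single_eq_of_ne hk]

/-- combination of two simple roots -/
def cb (s t : I) (a b : ℤ) : I → ℤ := a • sr s + b • sr t

lemma rf_cb_s (hn : ∀ i, n i i = 0) {s t : I} (hst : s ≠ t) (a b : ℤ) :
    rf n s (cb s t a b) = cb s t (n s t * b - a) b := by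
  unfold cb
  rw [rf_add, rf_smul, rf_smul, rf_sr_self hn, rf_sr hn s t hst.symm]
  module

lemma rf_cb_t (hn : ∀ i, n i i = 0) (hs : ∀ i j, n i j = n j i) {s t : I} (hst : s ≠ t) (a b : ℤ) :
    rf n t (cb s t a b) = cb s t a (n s t * a - b) := by
  unfold cb
  rw [rf_add, rf_smul, rf_smul, rf_sr_self hn, rf_sr hn t s hst, hs t s]
  module

/-- alternating word ending in `t` -/
def alt (s t : I) : ℕ → List I
  | 0 => []
  | k + 1 => (if k % 2 = 0 then t else s) :: alt s t k

lemma alt_length (s t : I) (k : ℕ) : (alt s t k).length = k := by
  induction k with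
  | zero => rfl
  | succ k ih => simp [alt, ih]

lemma alt_pos (hn : ∀ i, n i i = 0) (hs : ∀ i j, n i j = n j i) {s t : I} (hst : s ≠ t)
    (hm : 2 ≤ n s t) (k : ℕ) :
    ∃ a b : ℤ, act n (alt s t k) (sr s) = cb s t a b ∧ 0 ≤ a ∧ 0 ≤ b ∧
      (if k % 2 = 0 then b ≤ a else a ≤ b) := by
  have hm' : (2 : ℤ) ≤ n s t := by exact_mod_cast hm
  induction k with
  | zero => exact ⟨1, 0, by simp [alt, act, cb], by simp⟩
  | succ k ih =>
    obtain ⟨a, b, h1, h2, h3, h4⟩ := ih
    rcases Nat.mod_two_eq_zero_or_one k with hk | hk
    · rw [if_pos hk] at h4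
      refine ⟨a, n s t * a - b, ?_, h2, by nlinarith, ?_⟩
      · simp only [alt, act, if_pos hk, Function.comp_apply, h1, rf_cb_t hn hs hst]
      · rw [if_neg (by omega)]
        nlinarith
    · rw [if_neg (by omega)] at h4
      refine ⟨n s t * b - a, b, ?_, by nlinarith, h3, ?_⟩
      · simp only [alt, act, if_neg (show ¬ k % 2 = 0 by omega), Function.comp_apply, h1,
          rf_cb_s hn hst]
      · rw [if_pos (by omega)]
        nlinarith

/-- words in two letters without repetition are alternating -/
lemma exists_alt (s t : I) (x : List I) (hx : ∀ r ∈ x, r = s ∨ r = t)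
    (h1 : ∀ y z r, x ≠ y ++ r :: r :: z) (h2 : ∀ y, x ≠ y ++ [s]) : ∃ k, x = alt s t k := by
  induction x with
  | nil => exact ⟨0, rfl⟩
  | cons r x ih =>
    obtain ⟨k, hk⟩ := ih (fun r' hr' => hx r' (List.mem_cons_of_mem _ hr'))
      (fun y z r' h => h1 (r :: y) z r' (by rw [h]; rfl)) (fun y h => h2 (r :: y) (by rw [h]; rfl))
    refine ⟨k + 1, ?_⟩
    rw [alt, ← hk]
    congr 1
    rcases k with _ | k
    · simp only [alt] at hk
      rw [if_pos (by rfl)]
      rcases hx r (by simp) with h | h
      · exfalso
        exact h2 [] (by rw [hk, h]; rfl)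
      · exact h
    · have h3 : r ≠ (if k % 2 = 0 then t else s) := by
        intro h
        apply h1 [] (alt s t k) r
        rw [hk, alt, ← h]
        rfl
      rcases Nat.mod_two_eq_zero_or_one k with hk2 | hk2
      · rw [if_pos hk2] at h3
        rw [if_neg (by omega)]
        rcases hx r (by simp) with h | h
        · exact h
        · exact absurd h h3
      · rw [if_neg (by omega)] at h3
        rw [if_pos (by omega)]
        rcases hx r (by simp) with h | h
        · exact absurd h h3
        · exact h

/-- the linear span description -/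
lemma lin2 {s t : I} (hst : s ≠ t) {f g : List I}
    (h1 : act n f (sr s) = act n g (sr s)) (h2 : act n f (sr t) = act n g (sr t))
    (h3 : ∀ j, j ≠ s → j ≠ t → act n f (sr j) = act n g (sr j)) : act n f = act n g := by
  have key : ∀ (u : List I) (α : I → ℤ), act n u α = ∑ j, α j • act n u (sr j) := by
    intro u α
    have hα : α = ∑ j, α j • (sr j : I → ℤ) := by
      funext k
      simp [Finset.sum_apply, Pi.single_apply]
    have hlin : ∀ (S : Finset I), act n u (∑ j ∈ S, α j • (sr j : I → ℤ)) =
        ∑ j ∈ S, α j • act n u (sr j) := by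
      intro S
      induction S using Finset.induction_on with
      | empty =>
        simp only [sum_empty]
        have := act_smul (n := n) u 0 0
        simpa using this
      | insert a S ha ih => rw [sum_insert ha, sum_insert ha, act_add, act_smul, ih]
    conv_lhs => rw [hα]
    exact hlin univ
  funext α
  rw [key f, key g]
  apply sum_congr rfl
  intro j _
  by_cases hjs : j = s
  · rw [hjs, h1]
  · by_cases hjt : j = t
    · rw [hjt, h2]
    · rw [h3 j hjs hjt]

lemma rf_other (hn : ∀ i, n i i = 0) {s t : I} (j : I) (hjs : j ≠ s) (hjt : j ≠ t) :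
    rf n s (sr j) = sr j + cb s t (n s j) 0 := by
  rw [rf_sr hn s j hjs]
  unfold cb
  module

/-- commutation -/
lemma comm0 (hn : ∀ i, n i i = 0) (hs : ∀ i j, n i j = n j i) {s t : I} (hst : s ≠ t)
    (hm : n s t = 0) : act n [s, t, s] = act n [t] := by
  have e1 : sr s = cb s t 1 0 := by unfold cb; module
  have e2 : sr t = cb s t 0 1 := by unfold cb; module
  apply lin2 hst
  · simp only [act, Function.comp_apply, id_eq]
    rw [e1, rf_cb_s hn hst, rf_cb_t hn hs hst, rf_cb_s hn hst, rf_cb_t hn hs hst, hm]
    simp
  · simp only [act, Function.comp_apply, id_eq]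
    rw [e2, rf_cb_s hn hst, rf_cb_t hn hs hst, rf_cb_s hn hst, rf_cb_t hn hs hst, hm]
    simp
  · intro j hjs hjt
    simp only [act, Function.comp_apply, id_eq]
    have es : rf n s (sr j) = sr j + cb s t (n s j) 0 := rf_other hn j hjs hjt
    have et : rf n t (sr j) = sr j + cb s t 0 (n t j) := by
      rw [rf_sr hn t j hjt]; unfold cb; module
    simp only [es, et, rf_add, rf_cb_s hn hst, rf_cb_t hn hs hst, hm]
    unfold cb
    push_cast
    module

/-- braid relation -/
lemma braid1 (hn : ∀ i, n i i = 0) (hs : ∀ i j, n i j = n j i) {s t : I} (hst : s ≠ t)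
    (hm : n s t = 1) : act n [t, s, t, s] = act n [s, t] := by
  have e1 : sr s = cb s t 1 0 := by unfold cb; module
  have e2 : sr t = cb s t 0 1 := by unfold cb; module
  apply lin2 hst
  · simp only [act, Function.comp_apply, id_eq]
    rw [e1]
    simp only [rf_cb_s hn hst, rf_cb_t hn hs hst, hm]
    simp
  · simp only [act, Function.comp_apply, id_eq]
    rw [e2]
    simp only [rf_cb_s hn hst, rf_cb_t hn hs hst, hm]
    simp
  · intro j hjs hjt
    simp only [act, Function.comp_apply, id_eq]
    have es : rf n s (sr j) = sr j + cb s t (n s j) 0 := rf_other hn j hjs hjt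
    have et : rf n t (sr j) = sr j + cb s t 0 (n t j) := by
      rw [rf_sr hn t j hjt]; unfold cb; module
    simp only [es, et, rf_add, rf_cb_s hn hst, rf_cb_t hn hs hst, hm]
    unfold cb
    push_cast
    module

/-- the rank two statement -/
lemma rank2 (hn : ∀ i, n i i = 0) (hs : ∀ i j, n i j = n j i) {s t : I} (hst : s ≠ t)
    (x : List I) (hx : ∀ r ∈ x, r = s ∨ r = t)
    (M1 : ∀ x', act n x' = act n x → x.length ≤ x'.length)
    (M2 : ∀ x', act n x' = act n (x ++ [s]) → x.length ≤ x'.length) :
    ∃ a b : ℤ, act n x (sr s) = cb s t a b ∧ 0 ≤ a ∧ 0 ≤ b := by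
  obtain ⟨k, rfl⟩ := exists_alt s t x hx
    (by
      rintro y z r rfl
      have h := M1 (y ++ z) (by
        rw [show y ++ r :: r :: z = y ++ ([r, r] ++ z) from rfl, act_append, act_append, act_append,
          act_pair hn]
        rfl)
      simp only [List.length_append, List.length_cons] at h
      omega)
    (by
      rintro y rfl
      have h := M2 y (by
        rw [List.append_assoc, act_append]
        show act n y = act n y ∘ act n [s, s]
        rw [act_pair hn]
        rfl)
      simp only [List.length_append, List.length_cons] at h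
      omega)
  -- long words
  have hlast : ∀ j m, ∃ y, alt s t (m + j) = y ++ alt s t j := by
    intro j m
    induction m with
    | zero => exact ⟨[], by simp⟩
    | succ m ih =>
      obtain ⟨y, hy⟩ := ih
      refine ⟨(if (m + j) % 2 = 0 then t else s) :: y, ?_⟩
      rw [show m + 1 + j = (m + j) + 1 by ring, alt, hy]
      rfl
  rcases Nat.lt_or_ge (n s t) 2 with hm | hm
  · have hm01 : n s t = 0 ∨ n s t = 1 := by omega
    rcases hm01 with hm | hm
    · rcases Nat.lt_or_ge k 2 with hk | hk
      · have : k = 0 ∨ k = 1 := by omega
        rcases this with rfl | rfl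
        · exact ⟨1, 0, by simp [alt, act, cb], by simp⟩
        · refine ⟨1, 0, ?_, by simp⟩
          show rf n t (sr s) = _
          have e1 : sr s = cb s t 1 0 := by unfold cb; module
          rw [e1, rf_cb_t hn hs hst, hm]
          simp
      · exfalso
        obtain ⟨m, rfl⟩ := Nat.exists_eq_add_of_le' hk
        obtain ⟨y, hy⟩ := hlast 2 m
        have h := M2 (y ++ [t]) (by
          rw [hy]
          show act n (y ++ [t]) = act n (y ++ [s, t] ++ [s])
          rw [List.append_assoc, act_append, act_append]
          show _ = act n y ∘ act n [s, t, s]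
          rw [comm0 hn hs hst hm])
        rw [alt_length, List.length_append, List.length_singleton] at h
        have := congrArg List.length hy
        rw [alt_length, List.length_append, alt_length] at this
        omega
    · rcases Nat.lt_or_ge k 3 with hk | hk
      · have : k = 0 ∨ k = 1 ∨ k = 2 := by omega
        have e1 : sr s = cb s t 1 0 := by unfold cb; module
        rcases this with rfl | rfl | rfl
        · exact ⟨1, 0, by simp [alt, act, cb], by simp⟩
        · refine ⟨1, 1, ?_, by simp⟩
          show rf n t (sr s) = _
          rw [e1, rf_cb_t hn hs hst, hm]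
          simp
        · refine ⟨0, 1, ?_, by simp⟩
          show rf n s (rf n t (sr s)) = _
          rw [e1, rf_cb_t hn hs hst, rf_cb_s hn hst, hm]
          simp
      · exfalso
        obtain ⟨m, rfl⟩ := Nat.exists_eq_add_of_le' hk
        obtain ⟨y, hy⟩ := hlast 3 m
        have h := M2 (y ++ [s, t]) (by
          rw [hy]
          show act n (y ++ [s, t]) = act n (y ++ [t, s, t] ++ [s])
          rw [List.append_assoc, act_append, act_append]
          show _ = act n y ∘ act n [t, s, t, s]
          rw [braid1 hn hs hst hm])
        rw [alt_length, List.length_append, List.length_cons, List.length_singleton] at h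
        have := congrArg List.length hy
        rw [alt_length, List.length_append, alt_length] at this
        omega
  · obtain ⟨a, b, h1, h2, h3, _⟩ := alt_pos hn hs hst hm k
    exact ⟨a, b, h1, h2, h3⟩

lemma act_cb (u : List I) (s t : I) (a b : ℤ) :
    act n u (cb s t a b) = a • act n u (sr s) + b • act n u (sr t) := by
  unfold cb
  rw [act_add, act_smul, act_smul]

/-- the key positivity -/
theorem pos_key (hn : ∀ i, n i i = 0) (hs : ∀ i j, n i j = n j i) (N : ℕ) :
    ∀ u : List I, u.length = N → (∀ u', act n u' = act n u → u.length ≤ u'.length) →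
    ∀ s, (∀ u', act n u' = act n (u ++ [s]) → u.length ≤ u'.length) → 0 ≤ act n u (sr s) := by
  induction N using Nat.strong_induction_on with
  | _ N ih =>
  intro u hu hred s hus
  rcases List.eq_nil_or_concat u with rfl | ⟨u₀, t, rfl⟩
  · simp only [act, id]
    intro j
    by_cases hj : j = s
    · subst hj; simp
    · simp [Pi.single_eq_of_ne hj]
  · simp only [List.concat_eq_append] at *
    have hst : s ≠ t := by
      rintro rfl
      have h := hus u₀ (by
        rw [List.append_assoc, act_append]
        show act n u₀ = act n u₀ ∘ act n [s, s]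
        rw [act_pair hn]; rfl)
      simp only [List.length_append, List.length_cons] at h
      omega
    -- minimal decomposition
    have hex : ∃ m, ∃ v x : List I, v.length = m ∧ (∀ r ∈ x, r = s ∨ r = t) ∧
        act n (v ++ x) = act n (u₀ ++ [t]) ∧ v.length + x.length = N := by
      refine ⟨u₀.length, u₀, [t], rfl, by simp, rfl, ?_⟩
      rw [← hu]; simp
    classical
    obtain ⟨v, x, hv, hx, hvx, hlen⟩ := Nat.find_spec hex
    have hmin : ∀ v' x' : List I, (∀ r ∈ x', r = s ∨ r = t) →
        act n (v' ++ x') = act n (u₀ ++ [t]) → v'.length + x'.length = N →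
        v.length ≤ v'.length := by
      intro v' x' h1 h2 h3
      rw [hv]
      exact Nat.find_min' hex ⟨v', x', rfl, h1, h2, h3⟩
    have hvN : v.length < N := by
      have h1 := hmin u₀ [t] (by simp) rfl (by rw [← hu]; simp)
      have h2 : u₀.length + 1 = N := by rw [← hu]; simp
      omega
    have hv1 : ∀ u', act n u' = act n v → v.length ≤ u'.length := by
      intro u' h
      have h1 := hred (u' ++ x) (by rw [act_append, h, ← act_append, hvx])
      rw [hu, List.length_append] at h1
      omega
    have hv2 : ∀ r, (r = s ∨ r = t) → ∀ u', act n u' = act n (v ++ [r]) →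
        v.length ≤ u'.length := by
      intro r hr u' h
      by_contra hlt
      push Not at hlt
      have e1 : act n (u' ++ (r :: x)) = act n (u₀ ++ [t]) := by
        rw [act_append, h, ← act_append, List.append_assoc, act_append]
        show act n v ∘ act n ([r, r] ++ x) = _
        rw [act_append, act_pair hn, Function.id_comp, ← act_append, hvx]
      have h1 := hred _ e1
      rw [hu, List.length_append, List.length_cons] at h1
      have h2 := hmin u' (r :: x) (by
        intro r' hr'
        rcases List.mem_cons.1 hr' with h3 | h3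
        · rw [h3]; exact hr
        · exact hx r' h3) e1 (by rw [List.length_cons]; omega)
      omega
    have ps := ih v.length hvN v rfl hv1 s (hv2 s (Or.inl rfl))
    have pt := ih v.length hvN v rfl hv1 t (hv2 t (Or.inr rfl))
    obtain ⟨a, b, hab, ha, hb⟩ := rank2 hn hs hst x hx
      (by
        intro x' h
        have h1 := hred (v ++ x') (by rw [act_append, h, ← act_append, hvx])
        rw [hu, List.length_append] at h1
        omega)
      (by
        intro x' h
        have h1 := hus (v ++ x') (by
          rw [act_append, h, ← act_append, ← List.append_assoc, act_append, hvx, ← act_append])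
        rw [hu, List.length_append] at h1
        omega)
    rw [← hvx, act_append, Function.comp_apply, hab, act_cb]
    exact add_nonneg (smul_nonneg ha ps) (smul_nonneg hb pt)

/-- real roots are positive or negative -/
theorem dichotomy (hn : ∀ i, n i i = 0) (hs : ∀ i j, n i j = n j i) (u : List I) (i : I) :
    0 ≤ act n u (sr i) ∨ act n u (sr i) ≤ 0 := by
  classical
  have hex : ∃ m, ∃ v : List I, v.length = m ∧ act n v = act n u := ⟨u.length, u, rfl, rfl⟩
  obtain ⟨v, hv, hvu⟩ := Nat.find_spec hex
  have hmin : ∀ v', act n v' = act n v → v.length ≤ v'.length := by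
    intro v' h
    rw [hv]
    exact Nat.find_min' hex ⟨v', rfl, h.trans hvu⟩
  rw [← hvu]
  by_cases h : ∀ u', act n u' = act n (v ++ [i]) → v.length ≤ u'.length
  · exact Or.inl (pos_key hn hs _ v rfl hmin i h)
  · right
    have hex2 : ∃ m, ∃ w : List I, w.length = m ∧ act n w = act n (v ++ [i]) :=
      ⟨_, v ++ [i], rfl, rfl⟩
    obtain ⟨w, hw, hwv⟩ := Nat.find_spec hex2
    have hminw : ∀ v', act n v' = act n w → w.length ≤ v'.length := by
      intro v' h
      rw [hw]
      exact Nat.find_min' hex2 ⟨v', rfl, h.trans hwv⟩
    have hlt : w.length < v.length := by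
      push Not at h
      obtain ⟨u', h1, h2⟩ := h
      have := hminw u' (h1.trans hwv.symm)
      omega
    have hwi : act n (w ++ [i]) = act n v := by
      rw [act_append, hwv, ← act_append, List.append_assoc, act_append]
      show act n v ∘ act n [i, i] = _
      rw [act_pair hn, Function.comp_id]
    have h1 := pos_key hn hs _ w rfl hminw i (by
      intro u' h2
      have := hmin u' (h2.trans hwi)
      omega)
    rw [← hwi, act_append, Function.comp_apply]
    have : act n [i] (sr i) = (-1 : ℤ) • sr i := by
      show rf n i (sr i) = _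
      rw [rf_sr_self hn]; simp
    rw [this, act_smul]
    simpa using h1

/-- a real root proportional to a simple root -/
theorem mult_one (hn : ∀ i, n i i = 0) (u : List I) (i j : I) (m : ℤ)
    (h : act n u (sr i) = m • sr j) : m ∣ 1 := by
  have hinv : ∀ u : List I, act n (u.reverse ++ u) = id := by
    intro u
    induction u with
    | nil => rfl
    | cons a u ih =>
      rw [List.reverse_cons, List.append_assoc, act_append]
      show act n u.reverse ∘ act n ([a, a] ++ u) = id
      rw [act_append, act_pair hn, Function.id_comp, ← act_append, ih]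
  have h1 := congrArg (act n u.reverse) h
  have h2 : act n u.reverse (act n u (sr i)) = sr i := by
    have := congrFun (hinv u) (sr i)
    rw [act_append] at this
    exact this
  rw [h2, act_smul] at h1
  have h3 := congrFun h1 i
  simp only [Pi.single_eq_same, Pi.smul_apply, smul_eq_mul] at h3
  exact ⟨_, h3⟩

end Pool.Agent.Run7.h657
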