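import Pool.Agent.Run7.h657.RX

/-! The step at a vertex. -/

set_option linter.unusedSectionVars false

namespace Pool.Agent.Run7.h657.Res

open Finset MvPolynomial

section series

variable {G G' : Type*} [Field G] [Field G']

lemma poch_map (f : G →+* G') (p x : G) (n : ℕ) : f (poch p x n) = poch (f p) (f x) n := by
  unfold poch
  rw [map_prod]
  apply prod_congr rfl
  intro j _
  rw [map_sub, map_one, map_mul, map_pow]

lemma ph_map (f : G →+* G') (p t u : G) (n : ℕ) : f (ph p t u n) = ph (f p) (f t) (f u) n := by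
  unfold ph
  rw [map_div₀, poch_map, poch_map, map_mul, map_mul]

lemma rser_map (f : G →+* G') (p t c : G) :
    PowerSeries.map f (rser p t c) = rser (f p) (f t) (f c) := by
  ext n
  rw [PowerSeries.coeff_map]
  unfold rser
  rw [PowerSeries.coeff_mk, PowerSeries.coeff_mk, map_mul, ph_map, map_pow, map_one]

lemma gG_map (f : G →+* G') (p t : G) (b k : ℕ) :
    PowerSeries.map f (gG p t b k) = gG (f p) (f t) b k := by
  unfold gG
  rw [map_prod]
  apply prod_congr rfl
  intro j _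
  rw [rser_map, map_pow, map_div₀]

lemma coeff_gG (f : G →+* G') (p t : G) (b k n : ℕ) :
    PowerSeries.coeff n (gG (f p) (f t) b k) = f (PowerSeries.coeff n (gG p t b k)) := by
  rw [← gG_map, PowerSeries.coeff_map]

end series

variable {ι K I E F : Type*} [LinearOrder ι] [Field K] [Fintype I] [Fintype E] [Fintype F]
  [DecidableEq I] [DecidableEq E] [DecidableEq F] [DecidableEq K]

variable {Q : QD K I E F} {p t : K} {c : ι → I} {x : ι → K} {S : Set K}

/-- sums over a box reduce to natural degrees -/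
lemma box_sum (hs : Sep Q t) (hL : LS Q t c x) (hq : Gq Q p t x S) {B Y : Finset ι}
    (e : ι → ℤ) (Ee z2 M : ℕ) (hM : Ee + z2 ≤ M) :
    ∑ δ ∈ Box B M ((Ee : ℤ) - z2), JU Q p t c x (B ∪ Y) (jn B δ e) =
      if z2 ≤ Ee then ∑ δ ∈ piAntidiag (univ : Finset B) (Ee - z2),
        JU Q p t c x (B ∪ Y) (jn B (fun b => (δ b : ℤ)) e) else 0 := by
  classical
  have h1 : ∑ δ ∈ Box B M ((Ee : ℤ) - z2), JU Q p t c x (B ∪ Y) (jn B δ e) =
      ∑ δ ∈ (Box B M ((Ee : ℤ) - z2)).filter (fun δ => ∀ b, 0 ≤ δ b),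
        JU Q p t c x (B ∪ Y) (jn B δ e) := by
    rw [sum_filter]
    apply sum_congr rfl
    intro δ _
    split_ifs with h
    · rfl
    · push Not at h
      obtain ⟨b, hb⟩ := h
      exact JU_neg hs hL hq _ (mem_union_left Y b.2) (by rw [jn_mem]; exact hb)
  rw [h1]
  split_ifs with hz
  · refine sum_nbij' (fun (δ : B → ℤ) (b : B) => (δ b).toNat)
      (fun (δ : B → ℕ) (b : B) => (δ b : ℤ)) ?_ ?_ ?_ ?_ ?_
    · intro δ hδ
      unfold Box at hδ
      simp only [mem_filter, Fintype.mem_piFinset, mem_Icc] at hδ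
      simp only [mem_piAntidiag, mem_univ, implies_true, and_true]
      zify [hz]
      have h3 : ∀ b, (((δ b).toNat : ℕ) : ℤ) = δ b := fun b => Int.toNat_of_nonneg (hδ.2 b)
      simp_rw [h3]
      exact hδ.1.2
    · intro δ hδ
      simp only [mem_piAntidiag, mem_univ, implies_true, and_true] at hδ
      have hδ' : ∑ b, δ b = Ee - z2 := hδ
      unfold Box
      simp only [mem_filter, Fintype.mem_piFinset, mem_Icc]
      refine ⟨⟨fun b => ?_, ?_⟩, fun b => by omega⟩
      · have h7 := single_le_sum (f := δ) (fun _ _ => Nat.zero_le _) (mem_univ b)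
        constructor <;> omega
      · have : ((∑ b, δ b : ℕ) : ℤ) = (Ee : ℤ) - z2 := by rw [hδ', Nat.cast_sub hz]
        rw [← this]
        push_cast
        rfl
    · intro δ hδ
      simp only [mem_filter] at hδ
      funext b
      have := hδ.2 b
      dsimp only
      omega
    · intro δ _
      funext b
      simp
    · intro δ hδ
      simp only [mem_filter] at hδ
      congr 2
      funext b
      exact (Int.toNat_of_nonneg (hδ.2 b)).symm
  · apply sum_eq_zero
    intro δ hδ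
    exfalso
    unfold Box at hδ
    simp only [mem_filter] at hδ
    have : 0 ≤ ∑ b, δ b := sum_nonneg fun b _ => hδ.2 b
    rw [hδ.1.2] at this
    omega

lemma EL_nat (i : I) (Y : Finset ι) (e : ι → ℕ) :
    EL Q c i Y (fun q => (e q : ℤ)) = fun l => ((Den e l.1 : ℕ) : ℤ) := by
  funext l
  exact De_Den e l.1

/-- total degree of the neighbours -/
def EeY (Q : QD K I E F) (c : ι → I) (i : I) (Y : Finset ι) (e : ι → ℕ) : ℕ :=
  ∑ l : Ls Q c i Y, Den e l.1

lemma sum_FA (hs : Sep Q t) (hL : LS Q t c x) (hq : Gq Q p t x S) {i : I} {A B Y : Finset ι}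
    (hBA : B.card ≤ A.card) (e : ι → ℕ) (w : A ⊕ B ≃ Ls Q c i Y) (D M : ℕ)
    (hM : EeY Q c i Y e + D ≤ M) :
    ∑ δ ∈ piAntidiag (univ : Finset A) D,
      FA Q p t c x i (fun q => (e q : ℤ)) w (fun a => (δ a : ℤ)) =
      ∑ z ∈ antidiagonal D, HahnSeries.C (PowerSeries.coeff z.1 (gG p t B.card A.card) *
        (p / t) ^ ((A.card : ℤ) * EeY Q c i Y e - ((A.card : ℤ) + B.card) * z.2)) *
        ∑ δ ∈ Box B M ((EeY Q c i Y e : ℤ) - z.2),
          FB Q p t c x i (fun q => (e q : ℤ)) w δ := by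
  have h1 := LLg (okC (ι := ι) hq) (gzL hs hL hq i Y) (by
    rw [Fintype.card_coe, Fintype.card_coe]; exact hBA) w (fun l => Den e l.1) D M hM
  unfold FA FB
  rw [EL_nat]
  rw [h1]
  apply sum_congr rfl
  intro z _
  rw [Fintype.card_coe, Fintype.card_coe, coeff_gG, map_mul, C_zpow, C_div, mul_assoc]
  have h2 : (∑ l : Ls Q c i Y, (Den e l.1 : ℤ)) = (EeY Q c i Y e : ℤ) := by
    unfold EeY
    push_cast
    rfl
  rw [h2]

/-- the step at a vertex for fixed degrees elsewhere -/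
theorem vertex_step (hs : Sep Q t) (hL : LS Q t c x) (hq : Gq Q p t x S) {i : I}
    {A B Y : Finset ι} (hA : ∀ a ∈ A, c a = i) (hB : ∀ a ∈ B, c a = i) (hY : ∀ r ∈ Y, c r ≠ i)
    (hbal : Bal Q t c x i A B Y) (hBA : B.card ≤ A.card)
    (hZ : ∀ A' : Finset ι, (∀ a ∈ A', c a = i) → A'.card < B.card → ∀ P : MvPolynomial ι K,
      PP Q t c x (A' ∪ Y) P → J Q t c x (A' ∪ Y) P = 0) :
    ∀ (e : ι → ℕ) (D : ℕ),
      ((stN (fun b : B => t * x b.1) : ℕ) : K) * k0 t ^ B.card * ∑ δ ∈ piAntidiag (univ : Finset A) D,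
        JU Q p t c x (A ∪ Y) (jn A (fun a => (δ a : ℤ)) (fun q => (e q : ℤ))) =
      ((stN (fun a : A => x a.1) : ℕ) : K) * k0 t ^ A.card * ∑ z ∈ antidiagonal D,
        PowerSeries.coeff z.1 (gG p t B.card A.card) *
        ((p / t) ^ ((NsY Q c i Y : ℤ) * z.1 +
          (2 * (NsY Q c i Y : ℤ) - A.card - B.card) * z.2 +
          ((A.card : ℤ) - NsY Q c i Y) * EeY Q c i Y e -
          ((A.card : ℤ) - B.card) * SeY Q c i Y (fun q => (e q : ℤ))) *
        if z.2 ≤ EeY Q c i Y e then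
          ∑ δ ∈ piAntidiag (univ : Finset B) (EeY Q c i Y e - z.2),
            JU Q p t c x (B ∪ Y) (jn B (fun b => (δ b : ℤ)) (fun q => (e q : ℤ)))
        else 0) := by
  have h1 := stepA hs hL hq hA hY hbal
  have h2 := stepB hs hL hq hB hY hbal hZ
  set N1 := stN (fun b : B => t * x b.1) with hN1
  set N2 := stN (fun a : A => x a.1) with hN2
  intro e D
  have hc : p / t ≠ 0 := div_ne_zero hq.gs.p0 (hq.gs.ne _ hq.tS)
  set eZ : ι → ℤ := fun q => (e q : ℤ) with heZ
  set Ns : ℤ := (NsY Q c i Y : ℤ) with hNs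
  set Se : ℤ := SeY Q c i Y eZ with hSe
  set Ee : ℕ := EeY Q c i Y e with hEe
  set M : ℕ := Ee + D with hM
  set W := WW (fun a : A => x a.1) (fun b : B => t * x b.1)
    (fun l : Ls Q c i Y => kap Q t x l.1) with hW
  -- first side
  have e1 : (N1 : K) * ∑ δ ∈ piAntidiag (univ : Finset A) D,
      JU Q p t c x (A ∪ Y) (jn A (fun a => (δ a : ℤ)) eZ) =
      ((p / t) ^ (Ns * D - (A.card : ℤ) * Se) * k0 t ^ A.card) *
      ∑ w ∈ W, cf Y (pre Q p t c x i eZ w * ∑ δ ∈ piAntidiag (univ : Finset A) D,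
        FA Q p t c x i eZ w (fun a => (δ a : ℤ))) := by
    rw [mul_sum]
    have e2 : ∀ δ ∈ piAntidiag (univ : Finset A) D,
        (N1 : K) * JU Q p t c x (A ∪ Y) (jn A (fun a => (δ a : ℤ)) eZ) =
        ((p / t) ^ (Ns * D - (A.card : ℤ) * Se) * k0 t ^ A.card) *
        ∑ w ∈ W, cf Y (pre Q p t c x i eZ w * FA Q p t c x i eZ w (fun a => (δ a : ℤ))) := by
      intro δ hδ
      rw [h1]
      simp only [mem_piAntidiag, mem_univ, implies_true, and_true] at hδ
      have : (∑ a, (δ a : ℤ)) = D := by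
        rw [← Nat.cast_sum]
        exact congrArg _ hδ
      rw [this]
    rw [sum_congr rfl e2, ← mul_sum, sum_comm]
    congr 1
    apply sum_congr rfl
    intro w _
    rw [mul_sum, cf_sum]
  -- second side
  have e3 : ∀ z ∈ antidiagonal D, ∀ δ ∈ Box B M ((Ee : ℤ) - z.2),
      k0 t ^ B.card * ∑ w ∈ W, cf Y (pre Q p t c x i eZ w * FB Q p t c x i eZ w δ) =
      (p / t) ^ (-(Ns * ((Ee : ℤ) - z.2) - (B.card : ℤ) * Se)) *
        ((N2 : K) * JU Q p t c x (B ∪ Y) (jn B δ eZ)) := by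
    intro z _ δ hδ
    unfold Box at hδ
    rw [mem_filter] at hδ
    rw [h2, hδ.2, ← mul_assoc, ← mul_assoc, ← zpow_add₀ hc]
    rw [neg_add_cancel, zpow_zero, one_mul]
  have e4 : ∑ w ∈ W, cf Y (pre Q p t c x i eZ w * ∑ δ ∈ piAntidiag (univ : Finset A) D,
        FA Q p t c x i eZ w (fun a => (δ a : ℤ))) =
      ∑ z ∈ antidiagonal D, (PowerSeries.coeff z.1 (gG p t B.card A.card) *
        (p / t) ^ ((A.card : ℤ) * Ee - ((A.card : ℤ) + B.card) * z.2)) *
        ∑ δ ∈ Box B M ((Ee : ℤ) - z.2),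
          ∑ w ∈ W, cf Y (pre Q p t c x i eZ w * FB Q p t c x i eZ w δ) := by
    have e5 : ∀ w ∈ W, cf Y (pre Q p t c x i eZ w * ∑ δ ∈ piAntidiag (univ : Finset A) D,
        FA Q p t c x i eZ w (fun a => (δ a : ℤ))) =
        ∑ z ∈ antidiagonal D, (PowerSeries.coeff z.1 (gG p t B.card A.card) *
        (p / t) ^ ((A.card : ℤ) * Ee - ((A.card : ℤ) + B.card) * z.2)) *
        ∑ δ ∈ Box B M ((Ee : ℤ) - z.2),
          cf Y (pre Q p t c x i eZ w * FB Q p t c x i eZ w δ) := by
      intro w _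
      rw [sum_FA hs hL hq hBA e w D M le_rfl, mul_sum, cf_sum]
      apply sum_congr rfl
      intro z _
      rw [mul_left_comm, cf_C, mul_sum, cf_sum]
    rw [sum_congr rfl e5, sum_comm]
    apply sum_congr rfl
    intro z _
    rw [← mul_sum, sum_comm]
  rw [mul_right_comm, e1, e4]
  have e6 : ∀ (a b S' k : K), a * b * S' * k = b * (a * (k * S')) := by
    intro a b S' k; ring
  have e6' : ∀ (n b S' : K), n * b * S' = b * (n * S') := by
    intro n b S'; ring
  rw [e6, e6']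
  congr 1
  rw [mul_sum, mul_sum, mul_sum]
  apply sum_congr rfl
  intro z hz
  have hz' := HasAntidiagonal.mem_antidiagonal.1 hz
  have e7 : k0 t ^ B.card * ((PowerSeries.coeff z.1 (gG p t B.card A.card) *
        (p / t) ^ ((A.card : ℤ) * Ee - ((A.card : ℤ) + B.card) * z.2)) *
        ∑ δ ∈ Box B M ((Ee : ℤ) - z.2),
          ∑ w ∈ W, cf Y (pre Q p t c x i eZ w * FB Q p t c x i eZ w δ)) =
      (PowerSeries.coeff z.1 (gG p t B.card A.card) *
        (p / t) ^ ((A.card : ℤ) * Ee - ((A.card : ℤ) + B.card) * z.2)) *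
        ((p / t) ^ (-(Ns * ((Ee : ℤ) - z.2) - (B.card : ℤ) * Se)) *
        ((N2 : K) * ∑ δ ∈ Box B M ((Ee : ℤ) - z.2),
          JU Q p t c x (B ∪ Y) (jn B δ eZ))) := by
    rw [mul_left_comm]
    congr 1
    rw [mul_sum, sum_congr rfl (e3 z hz), mul_sum, mul_sum]
  rw [e7, box_sum hs hL hq eZ Ee z.2 M (by omega)]
  have e8 : ∀ (a g b c' n T r : K), a * b * c' = r → a * (g * b * (c' * (n * T))) =
      n * (g * (r * T)) := by
    intro a g b c' n T r h
    rw [← h]; ring
  apply e8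
  rw [← zpow_add₀ hc, ← zpow_add₀ hc]
  congr 1
  rw [← hz']
  push_cast
  ring

end Pool.Agent.Run7.h657.Res
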