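import Pool.Agent.Run7.h657.Fin

/-! The induction step for a general series. -/

set_option linter.unusedSectionVars false

namespace Pool.Agent.Run7.h657

open Finset

variable {K : Type*} [Field K]
variable {I E F P P' : Type*} [Fintype I] [Fintype E] [Fintype F] [Fintype P] [Fintype P']
  [DecidableEq I] [DecidableEq P] [DecidableEq E] [DecidableEq F]

variable {Q : QD K I E F} {p t : K}

/-- the product formula for a series -/
def ClaimS (Q : QD K I E F) (p t : K) (c : P → I) (V : MvPowerSeries I K) : Prop :=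
  ∃ R : Finset (I →₀ ℕ), (∀ α, α ∈ R ↔ PRt Q α ∧ pr α (muv Q c) < 0) ∧
    V = PF p t R (fun α => (-pr α (muv Q c)).toNat) (bv Q c)

/-- coefficients to series -/
theorem series_step (Q : QD K I E F) {p t : K} (i : I) (hl : ∀ e, Q.src e ≠ Q.tgt e)
    (N : ℕ) (a b : ℕ) (V V' : MvPowerSeries I K)
    (h : ∀ d : I →₀ ℕ, MvPowerSeries.coeff d V = ∑ z ∈ antidiagonal (d i),
        PowerSeries.coeff z.1 (gG p t b a) *
        ((p / t) ^ ((N : ℤ) * z.1) *
        if z.2 ≤ Et Q i d + Es Q i d then
          (p / t) ^ (((2 * N : ℤ) - a - b) * z.2 +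
            ((a : ℤ) - N) * (Et Q i d + Es Q i d : ℕ) -
            ((a : ℤ) - b) * Es Q i d) *
          MvPowerSeries.coeff (d.update i (Et Q i d + Es Q i d - z.2)) V'
        else 0)) :
    V = ev (gG p t b a) (Finsupp.single i 1) ((p / t) ^ (N : ℤ)) *
      (rQ Q hl i).T (p / t) (chi Q i N a b) V' := by
  ext d
  rw [h, coeff_ev_mul]
  apply sum_congr rfl
  intro z _
  rw [mul_assoc]
  congr 1
  rw [Rfl.coeff_T]
  have hC : (rQ Q hl i).C (d.update i z.2) ↔ z.2 ≤ Et Q i d + Es Q i d := by
    unfold Rfl.C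
    rw [show (rQ Q hl i).E (d.update i z.2) = (rQ Q hl i).E d from (rQ Q hl i).hE d z.2]
    simp
  have hE1 : Et Q i (d.update i z.2) + Es Q i (d.update i z.2) = Et Q i d + Es Q i d :=
    (rQ Q hl i).hE d z.2
  have hE2 : Es Q i (d.update i z.2) = Es Q i d := by
    unfold Es
    apply sum_congr rfl
    intro e he
    rw [mem_filter] at he
    rw [Finsupp.update_apply, if_neg (fun h => hl e (he.2.trans h.symm))]
  congr 1
  · rw [zpow_mul, zpow_natCast]
  · by_cases h : z.2 ≤ Et Q i d + Es Q i d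
    · rw [if_pos h, if_pos (hC.2 h)]
      congr 1
      · congr 1
        rw [chi_apply, hE1, hE2]
        simp
      · congr 2
        ext j
        by_cases hj : j = i
        · subst hj
          show _ = ((rQ Q hl j).s (d.update j z.2)) (rQ Q hl j).i
          rw [Rfl.s_i]
          show _ = (Et Q j (d.update j z.2) + Es Q j (d.update j z.2)) - (d.update j z.2) j
          rw [hE1]
          simp
        · rw [Rfl.s_ne _ _ (by simpa using hj)]
          simp [Finsupp.update_apply, hj]
    · rw [if_neg h, if_neg (fun h' => h (hC.1 h'))]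

/-- the induction step -/
theorem claim_stepS (ok : Ok p t) (hl : ∀ e, Q.src e ≠ Q.tgt e) (i : I)
    (c : P → I) (c' : P' → I) (k k' : ℕ) (hk0 : dv c i = k)
    (hdv : dv c' = Function.update (dv c) i k')
    (hμk : muv Q c i = (k' : ℤ) - k) (hμ : muv Q c i < 0) (V V' : MvPowerSeries I K)
    (hstep : V = ev (gG p t k' k) (Finsupp.single i 1)
        ((p / t) ^ ((Es Q i (dv c) : ℕ) : ℤ)) *
      (rQ Q hl i).T (p / t) (chi Q i (Es Q i (dv c) : ℕ) k k') V')
    (ih : ClaimS Q p t c' V') : ClaimS Q p t c V := by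
  subst hk0
  set k := dv c i with hk
  obtain ⟨R', hR', hV'⟩ := ih
  rw [hV'] at hstep
  have hmuv := muv_restrict Q hl c c' i k' hdv
  have hbv := bv_restrict Q hl c c' i k' hdv
  have hdk : (dv c i : ℤ) = k := rfl
  have hnEi : (nE Q i i : ℤ) = 0 := by rw [nE_self Q hl]; rfl
  have hμi : muv Q c' i = -muv Q c i := by
    rw [hmuv, hnEi, if_pos rfl, hdk, hμk]; ring
  have hμ' : ∀ β : I →₀ ℕ, (rQ Q hl i).C β →
      pr β (muv Q c') = pr ((rQ Q hl i).s β) (muv Q c) := by
    intro β hC
    rw [pr_s Q hl i _ hC, E_cast, hμk]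
    unfold pr
    simp only [hmuv, hdk]
    simp only [mul_add, sum_add_distrib, sub_mul, mul_sub, ite_mul, zero_mul, mul_ite, mul_zero,
      sum_sub_distrib, sum_ite_eq', mem_univ, if_true, sum_mul]
    have h2 : ∀ u : ℤ, ∑ j, (β j : ℤ) * ((nE Q i j : ℤ) * u) =
        ∑ j, (nE Q i j : ℤ) * (β j : ℤ) * u := by
      intro u
      apply sum_congr rfl; intro j _; ring
    rw [h2, h2]
    ring
  obtain ⟨hR1, hR2⟩ := root_step Q hl i (muv Q c) (muv Q c') hμ hμ' hμi R' hR'
  refine ⟨insert (Finsupp.single i 1) (R'.image (rQ Q hl i).s), hR2, ?_⟩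
  rw [hstep]
  have hpf := PF_step Q ok hl i
    (chi Q i (Es Q i (dv c) : ℕ) k k') R'
    (fun α => (-pr α (muv Q c)).toNat) (fun α => (-pr α (muv Q c')).toNat) (bv Q c) (bv Q c')
    (fun β hβ => (hR1 β hβ).2)
    (fun β hβ => by rw [hμ' β (hR1 β hβ).2.1])
    (fun β hβ => by
      have hC := (hR1 β hβ).2.1
      rw [chi_apply, pr_s Q hl i _ hC]
      have h1 : Et Q i ((rQ Q hl i).s β) + Es Q i ((rQ Q hl i).s β) = Et Q i β + Es Q i β :=
        (rQ Q hl i).E_s β
      have h2 : Es Q i ((rQ Q hl i).s β) = Es Q i β := by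
        unfold Es
        apply sum_congr rfl
        intro e he
        rw [mem_filter] at he
        exact Rfl.s_ne _ _ (fun h => hl e (he.2.trans h.symm))
      have h3 : (((rQ Q hl i).s β i : ℕ) : ℤ) = (Et Q i β + Es Q i β : ℕ) - β i := by
        have h4 : (rQ Q hl i).s β i = (Et Q i β + Es Q i β) - β i := (rQ Q hl i).s_i β
        have hC' : β i ≤ Et Q i β + Es Q i β := hC
        rw [h4, Nat.cast_sub hC']
      rw [h1, h2, h3]
      have h5 : pr β (bv Q c') = pr β (bv Q c) + ((β i : ℤ) - Et Q i β) * ((k' : ℤ) - k) := by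
        unfold pr
        simp only [hbv, hdk]
        rw [Et_cast]
        simp only [mul_add, sum_add_distrib, sub_mul, mul_sub, ite_mul, zero_mul, one_mul, mul_ite,
          mul_zero, sum_sub_distrib, sum_ite_eq', mem_univ, if_true, sum_mul]
        have h6 : ∀ u : ℤ, ∑ j, (β j : ℤ) *
            (((univ.filter fun e => Q.src e = j ∧ Q.tgt e = i).card : ℤ) * u) =
            ∑ j, (β j : ℤ) * ((univ.filter fun e => Q.src e = j ∧ Q.tgt e = i).card : ℤ) * u := by
          intro u
          apply sum_congr rfl; intro j _; ring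
        rw [h6, h6]
      rw [h5]
      have h7 : bv Q c i = (k : ℤ) - Es Q i (dv c) := by
        unfold bv; rw [hdk]
      rw [h7]
      push_cast
      ring)
  rw [hpf]
  have hgg := ev_gG ok k' k i (Es Q i (dv c) : ℕ)
  rw [hgg]
  unfold PF
  rw [prod_insert]
  · congr 1
    have hsingle : ∀ ν : I → ℤ, pr (Finsupp.single i 1) ν = ν i := by
      intro ν
      unfold pr
      rw [sum_eq_single i]
      · simp
      · intro j _ hj
        simp [Finsupp.single_apply, Ne.symm hj]
      · simp
    have h8 : (-pr (Finsupp.single i 1) (muv Q c)).toNat = k - k' := by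
      rw [hsingle, hμk]; omega
    simp only [h8]
    apply prod_congr rfl
    intro l _
    congr 2
    rw [hsingle]
    unfold bv
    rw [hdk]
  · rw [mem_image]
    rintro ⟨β, hβ, hs⟩
    have h9 := (rQ Q hl i).C_s β
    rw [hs] at h9
    unfold Rfl.C at h9
    rw [rQ_E] at h9
    have h10 : Et Q i (⇑(Finsupp.single i 1)) + Es Q i (⇑(Finsupp.single i 1)) = 0 := by
      unfold Et Es
      rw [Nat.add_eq_zero_iff]
      constructor
      · apply sum_eq_zero
        intro e he
        rw [mem_filter] at he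
        rw [Finsupp.single_apply, if_neg (fun h => hl e (h.symm.trans he.2.symm))]
      · apply sum_eq_zero
        intro e he
        rw [mem_filter] at he
        rw [Finsupp.single_apply, if_neg (fun h => hl e (he.2.trans h))]
    rw [h10] at h9
    simp at h9

/-- a vertex with negative weight exists -/
lemma exists_negS {c : P → I} (hz : ZD Q c) {f : F} {r : P} (hrf' : Q.cF f = c r) :
    ∃ i, muv Q c i < 0 := by
  by_contra hcon
  push Not at hcon
  have h1 : ∑ i, (dv c i : ℤ) * muv Q c i = -∑ f, (dv c (Q.cF f) : ℤ) := by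
    have h2 : ∀ i, (dv c i : ℤ) * muv Q c i =
        (dv c i : ℤ) * ((univ.filter fun f => Q.cF f = i).card : ℤ) +
        ((dv c i : ℤ) * (∑ e with Q.tgt e = i, (dv c (Q.src e) : ℤ)) +
        (dv c i : ℤ) * (∑ e with Q.src e = i, (dv c (Q.tgt e) : ℤ))) -
        2 * ((dv c i : ℤ) * dv c i) := by
      intro i
      unfold muv Et Es
      push_cast
      ring
    simp_rw [h2]
    rw [sum_sub_distrib, sum_add_distrib, sum_add_distrib, ← mul_sum]
    have h3 : ∑ i, (dv c i : ℤ) * ∑ e with Q.tgt e = i, (dv c (Q.src e) : ℤ) =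
        ∑ e, (dv c (Q.src e) : ℤ) * dv c (Q.tgt e) := by
      simp_rw [mul_sum, sum_filter]
      rw [sum_comm]
      apply sum_congr rfl
      intro e _
      rw [sum_ite_eq, if_pos (mem_univ _)]
      ring
    have h4 : ∑ i, (dv c i : ℤ) * ∑ e with Q.src e = i, (dv c (Q.tgt e) : ℤ) =
        ∑ e, (dv c (Q.src e) : ℤ) * dv c (Q.tgt e) := by
      simp_rw [mul_sum, sum_filter]
      rw [sum_comm]
      apply sum_congr rfl
      intro e _
      rw [sum_ite_eq, if_pos (mem_univ _)]
    have h5 : ∑ i, (dv c i : ℤ) * ((univ.filter fun f => Q.cF f = i).card : ℤ) =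
        ∑ f, (dv c (Q.cF f) : ℤ) := by
      have : ∀ i, (dv c i : ℤ) * ((univ.filter fun f => Q.cF f = i).card : ℤ) =
          ∑ f, if Q.cF f = i then (dv c i : ℤ) else 0 := by
        intro i
        rw [card_filter, Nat.cast_sum, mul_sum]
        apply sum_congr rfl
        intro f _
        split_ifs <;> simp
      simp_rw [this]
      rw [sum_comm]
      apply sum_congr rfl
      intro f _
      rw [sum_ite_eq, if_pos (mem_univ _)]
    rw [h3, h4, h5]
    have h6 : (∑ e, (dv c (Q.src e) : ℤ) * dv c (Q.tgt e)) + ∑ f, (dv c (Q.cF f) : ℤ) =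
        ∑ i, (dv c i : ℤ) * dv c i := by exact_mod_cast hz
    linarith
  have h2 : 0 ≤ ∑ i, (dv c i : ℤ) * muv Q c i :=
    sum_nonneg fun i _ => mul_nonneg (Int.natCast_nonneg _) (hcon i)
  have h3 : (1 : ℤ) ≤ ∑ f, (dv c (Q.cF f) : ℤ) := by
    have h4 : (1 : ℤ) ≤ dv c (Q.cF f) := by
      have : 0 < dv c (Q.cF f) := card_pos.2 ⟨r, by simp [hrf']⟩
      exact_mod_cast this
    exact h4.trans (single_le_sum (f := fun f => (dv c (Q.cF f) : ℤ))
      (fun _ _ => Int.natCast_nonneg _) (mem_univ f))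
  omega


end Pool.Agent.Run7.h657
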