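import Pool.Agent.Run7.h657.SA
import Pool.Agent.Run7.h657.SB

/-! Sums over all degrees. -/

set_option linter.unusedSectionVars false

namespace Pool.Agent.Run7.h657.Res

open Finset MvPolynomial

variable {ι K I E F : Type*} [LinearOrder ι] [Field K] [Fintype I] [Fintype E] [Fintype F]
  [DecidableEq I] [DecidableEq E] [DecidableEq F] [DecidableEq K]

/-- extension of degrees by zero -/
def exd (R : Finset ι) (δ : R → ℕ) (q : ι) : ℕ := if h : q ∈ R then δ ⟨q, h⟩ else 0

lemma exd_mem {R : Finset ι} (δ : R → ℕ) {q : ι} (h : q ∈ R) : exd R δ q = δ ⟨q, h⟩ := by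
  unfold exd; rw [dif_pos h]

/-- the unnormalised coefficient -/
noncomputable def VJ (Q : QD K I E F) (p t : K) (c : ι → I) (x : ι → K) (R : Finset ι)
    (d : I → ℕ) : K :=
  ∑ δ ∈ DS (fun r : R => c r.1) d, JU Q p t c x R (fun q => (exd R δ q : ℤ))

variable {Q : QD K I E F} {p t : K} {c : ι → I} {x : ι → K} {S : Set K}

lemma JU_congr {R : Finset ι} {δ δ' : ι → ℤ} (h : ∀ q ∈ R, δ q = δ' q) :
    JU Q p t c x R δ = JU Q p t c x R δ' := by
  unfold JU
  rw [UU_congr h]

lemma mem_DS' {R : Finset ι} {d : I → ℕ} {δ : R → ℕ} :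
    δ ∈ DS (fun r : R => c r.1) d ↔ ∀ j, ∑ q ∈ RA c R j, exd R δ q = d j := by
  rw [mem_DS]
  apply forall_congr'
  intro j
  have : ∑ r : R with c r.1 = j, δ r = ∑ q ∈ RA c R j, exd R δ q := by
    unfold RA
    rw [sum_filter, sum_filter, ← sum_coe_sort R]
    apply sum_congr rfl
    intro r _
    rw [exd_mem δ r.2]
  rw [this]

lemma RA_ne {i j : I} {A Y : Finset ι} (hA : ∀ a ∈ A, c a = i) (hj : j ≠ i) :
    RA c (A ∪ Y) j = RA c Y j := by
  ext q
  rw [mem_RA, mem_RA, mem_union]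
  constructor
  · rintro ⟨h1 | h1, h2⟩
    · exact absurd ((hA q h1).symm.trans h2).symm hj
    · exact ⟨h1, h2⟩
  · rintro ⟨h1, h2⟩
    exact ⟨Or.inr h1, h2⟩

lemma RA_Y {i : I} {Y : Finset ι} (hY : ∀ r ∈ Y, c r ≠ i) : RA c Y i = ∅ := by
  ext q
  rw [mem_RA]
  simp only [notMem_empty, iff_false, not_and]
  exact fun h => hY q h

/-- splitting of the degrees at a vertex -/
theorem VJ_split {i : I} {A Y : Finset ι} (hA : ∀ a ∈ A, c a = i) (hY : ∀ r ∈ Y, c r ≠ i)
    (d : I → ℕ) :
    VJ Q p t c x (A ∪ Y) d = ∑ e ∈ DS (fun r : Y => c r.1) (Function.update d i 0),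
      ∑ δ ∈ piAntidiag (univ : Finset A) (d i),
        JU Q p t c x (A ∪ Y) (jn A (fun a => (δ a : ℤ)) (fun q => (exd Y e q : ℤ))) := by
  classical
  unfold VJ
  rw [← sum_product']
  have hdis : ∀ a ∈ A, a ∉ Y := fun a ha hy => hY a hy (hA a ha)
  refine sum_nbij'
    (fun (δ : ↥(A ∪ Y) → ℕ) => ((fun y : Y => δ ⟨y.1, mem_union_right A y.2⟩),
      (fun a : A => δ ⟨a.1, mem_union_left Y a.2⟩)))
    (fun z : (Y → ℕ) × (A → ℕ) => fun r : ↥(A ∪ Y) =>
      if h : r.1 ∈ A then z.2 ⟨r.1, h⟩ else exd Y z.1 r.1) ?_ ?_ ?_ ?_ ?_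
  · intro δ hδ
    rw [mem_DS'] at hδ
    rw [mem_product]
    constructor
    · rw [mem_DS']
      intro j
      by_cases hj : j = i
      · subst hj
        rw [RA_Y hY, sum_empty, Function.update_self]
      · rw [Function.update_of_ne hj, ← hδ j, RA_ne hA hj]
        apply sum_congr rfl
        intro q hq
        rw [mem_RA] at hq
        rw [exd_mem _ hq.1, exd_mem _ (mem_union_right A hq.1)]
    · simp only [mem_piAntidiag, mem_univ, implies_true, and_true]
      have h1 := hδ i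
      rw [RA_of hA hY] at h1
      rw [← h1, ← sum_coe_sort A]
      apply sum_congr rfl
      intro a _
      rw [exd_mem _ (mem_union_left Y a.2)]
  · rintro ⟨e, δ⟩ hz
    rw [mem_product, mem_DS'] at hz
    simp only [mem_piAntidiag, mem_univ, implies_true, and_true] at hz
    rw [mem_DS']
    intro j
    by_cases hj : j = i
    · subst hj
      rw [RA_of hA hY, ← hz.2, ← sum_coe_sort A]
      apply sum_congr rfl
      intro a _
      rw [exd_mem _ (mem_union_left Y a.2)]
      simp only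
      rw [dif_pos a.2]
    · rw [RA_ne hA hj]
      have h1 := hz.1 j
      rw [Function.update_of_ne hj] at h1
      rw [← h1]
      apply sum_congr rfl
      intro q hq
      rw [mem_RA] at hq
      rw [exd_mem _ (mem_union_right A hq.1)]
      simp only
      rw [dif_neg (fun h => hdis q h hq.1)]
  · intro δ _
    funext r
    simp only
    split_ifs with h
    · rfl
    · have h2 : r.1 ∈ Y := (mem_union.1 r.2).resolve_left h
      rw [exd_mem _ h2]
  · rintro ⟨e, δ⟩ _
    simp only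
    congr 1
    · funext y
      rw [dif_neg (fun h => hdis y.1 h y.2), exd_mem _ y.2]
    · funext a
      rw [dif_pos a.2]
  · intro δ _
    apply JU_congr
    intro q hq
    rw [exd_mem _ hq]
    unfold jn
    split_ifs with h
    · rfl
    · have h2 : q ∈ Y := (mem_union.1 hq).resolve_left h
      simp only
      rw [exd_mem _ h2]

lemma NsY_eq (hl : ∀ e, Q.src e ≠ Q.tgt e) {i : I} {A Y : Finset ι} (hA : ∀ a ∈ A, c a = i) :
    NsY Q c i Y = Es Q i (dv (fun r : ↥(A ∪ Y) => c r.1)) := by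
  unfold NsY Es
  rw [sum_filter]
  apply sum_congr rfl
  intro e _
  split_ifs with h
  · unfold dv
    rw [card_coe_filter (A ∪ Y) (fun r => c r = Q.tgt e)]
    have h1 : Q.tgt e ≠ i := fun h' => hl e (h.trans h'.symm)
    rw [← RA_ne hA h1]
    rfl
  · rfl

lemma SeY_eq (hl : ∀ e, Q.src e ≠ Q.tgt e) {i : I} {Y : Finset ι}
    {d : I → ℕ} {e : Y → ℕ}
    (he : e ∈ DS (fun r : Y => c r.1) (Function.update d i 0)) :
    SeY Q c i Y (fun q => (exd Y e q : ℤ)) = (Es Q i d : ℤ) := by
  rw [mem_DS'] at he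
  unfold SeY Es
  rw [sum_filter]
  push_cast
  apply sum_congr rfl
  intro b _
  split_ifs with h
  · have h1 : Q.tgt b ≠ i := fun h' => hl b (h.trans h'.symm)
    have h2 := he (Q.tgt b)
    rw [Function.update_of_ne h1] at h2
    rw [← h2]
    push_cast
    rfl
  · rfl

lemma EeY_eq (hl : ∀ e, Q.src e ≠ Q.tgt e) {i : I} {Y : Finset ι}
    {d : I → ℕ} {e : Y → ℕ}
    (he : e ∈ DS (fun r : Y => c r.1) (Function.update d i 0)) :
    EeY Q c i Y (exd Y e) = Et Q i d + Es Q i d := by
  rw [mem_DS'] at he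
  unfold EeY
  rw [sum_coe_sort (Ls Q c i Y) (fun l => Den (exd Y e) l)]
  unfold Ls
  rw [sum_disjSum, sum_disjSum]
  have h3 : ∀ s : Finset F, ∑ f ∈ s,
      Den (exd Y e) (Sum.inr (Sum.inr f) : Lam ι E F) = 0 := by
    intro s
    apply sum_eq_zero
    intro f _
    rfl
  rw [h3, add_zero]
  congr 1
  · rw [sum_filter, sum_product]
    unfold Et
    rw [sum_filter]
    apply sum_congr rfl
    intro b _
    split_ifs with h
    · have h1 : Q.src b ≠ i := fun h' => hl b (h'.trans h.symm)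
      have h2 := he (Q.src b)
      rw [Function.update_of_ne h1] at h2
      rw [← h2]
      unfold RA
      rw [sum_filter]
      apply sum_congr rfl
      intro r _
      simp only [h, true_and]
      rfl
    · apply sum_eq_zero
      intro r _
      rw [if_neg (fun h' => h h'.1)]
  · rw [sum_filter, sum_product]
    unfold Es
    rw [sum_filter]
    apply sum_congr rfl
    intro b _
    split_ifs with h
    · have h1 : Q.tgt b ≠ i := fun h' => hl b (h.trans h'.symm)
      have h2 := he (Q.tgt b)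
      rw [Function.update_of_ne h1] at h2
      rw [← h2]
      unfold RA
      rw [sum_filter]
      apply sum_congr rfl
      intro r _
      simp only [h, true_and]
      rfl
    · apply sum_eq_zero
      intro r _
      rw [if_neg (fun h' => h h'.1)]

/-- the reflection step for the coefficients -/
theorem VJ_step_card (hs : Sep Q t) (hL : LS Q t c x) (hq : Gq Q p t x S) {i : I}
    {A B Y : Finset ι} (hA : ∀ a ∈ A, c a = i) (hB : ∀ a ∈ B, c a = i) (hY : ∀ r ∈ Y, c r ≠ i)
    (hbal : Bal Q t c x i A B Y) (hBA : B.card ≤ A.card)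
    (hZ : ∀ A' : Finset ι, (∀ a ∈ A', c a = i) → A'.card < B.card → ∀ P : MvPolynomial ι K,
      PP Q t c x (A' ∪ Y) P → J Q t c x (A' ∪ Y) P = 0) :
    ∀ (d : I → ℕ),
      ((stN (fun b : B => t * x b.1) : ℕ) : K) * k0 t ^ B.card * VJ Q p t c x (A ∪ Y) d =
      ((stN (fun a : A => x a.1) : ℕ) : K) * k0 t ^ A.card * ∑ z ∈ antidiagonal (d i),
        PowerSeries.coeff z.1 (gG p t B.card A.card) *
        ((p / t) ^ ((NsY Q c i Y : ℤ) * z.1) *
        if z.2 ≤ Et Q i d + Es Q i d then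
          (p / t) ^ ((2 * (NsY Q c i Y : ℤ) - A.card - B.card) * z.2 +
            ((A.card : ℤ) - NsY Q c i Y) * (Et Q i d + Es Q i d : ℕ) -
            ((A.card : ℤ) - B.card) * Es Q i d) *
          VJ Q p t c x (B ∪ Y) (Function.update d i (Et Q i d + Es Q i d - z.2))
        else 0) := by
  have h := vertex_step hs hL hq hA hB hY hbal hBA hZ
  set N1 := stN (fun b : B => t * x b.1) with hN1
  set N2 := stN (fun a : A => x a.1) with hN2
  intro d
  have hc : p / t ≠ 0 := div_ne_zero hq.gs.p0 (hq.gs.ne _ hq.tS)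
  rw [VJ_split hA hY, mul_sum]
  have h1 : ∀ e ∈ DS (fun r : Y => c r.1) (Function.update d i 0),
      (N1 : K) * k0 t ^ B.card * ∑ δ ∈ piAntidiag (univ : Finset A) (d i),
        JU Q p t c x (A ∪ Y) (jn A (fun a => (δ a : ℤ)) (fun q => (exd Y e q : ℤ))) =
      ∑ z ∈ antidiagonal (d i), (N2 : K) * k0 t ^ A.card *
        (PowerSeries.coeff z.1 (gG p t B.card A.card) *
        ((p / t) ^ ((NsY Q c i Y : ℤ) * z.1) *
        if z.2 ≤ Et Q i d + Es Q i d then
          (p / t) ^ ((2 * (NsY Q c i Y : ℤ) - A.card - B.card) * z.2 +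
            ((A.card : ℤ) - NsY Q c i Y) * (Et Q i d + Es Q i d : ℕ) -
            ((A.card : ℤ) - B.card) * Es Q i d) *
          ∑ δ ∈ piAntidiag (univ : Finset B) (Et Q i d + Es Q i d - z.2),
            JU Q p t c x (B ∪ Y) (jn B (fun b => (δ b : ℤ)) (fun q => (exd Y e q : ℤ)))
        else 0)) := by
    intro e he
    rw [h (exd Y e) (d i), EeY_eq hs.hl he, SeY_eq hs.hl he, mul_sum]
    apply sum_congr rfl
    intro z _
    congr 2
    split_ifs with hz
    · rw [← mul_assoc, ← zpow_add₀ hc]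
      congr 2
      ring
    · rw [mul_zero, mul_zero]
  rw [sum_congr rfl h1, sum_comm, mul_sum]
  apply sum_congr rfl
  intro z _
  rw [← mul_sum, ← mul_sum, ← mul_sum]
  congr 3
  split_ifs with hz
  · rw [← mul_sum]
    congr 1
    rw [VJ_split hB hY]
    simp only [Function.update_idem, Function.update_self]
  · simp

/-- the reflection step for the coefficients, with some positive constants -/
theorem VJ_step (hs : Sep Q t) (hL : LS Q t c x) (hq : Gq Q p t x S) {i : I}
    {A B Y : Finset ι} (hA : ∀ a ∈ A, c a = i) (hB : ∀ a ∈ B, c a = i) (hY : ∀ r ∈ Y, c r ≠ i)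
    (hbal : Bal Q t c x i A B Y) (hBA : B.card ≤ A.card)
    (hZ : ∀ A' : Finset ι, (∀ a ∈ A', c a = i) → A'.card < B.card → ∀ P : MvPolynomial ι K,
      PP Q t c x (A' ∪ Y) P → J Q t c x (A' ∪ Y) P = 0) :
    ∃ N1 N2 : ℕ, 0 < N1 ∧ 0 < N2 ∧ ∀ (d : I → ℕ),
      (N1 : K) * k0 t ^ B.card * VJ Q p t c x (A ∪ Y) d =
      (N2 : K) * k0 t ^ A.card * ∑ z ∈ antidiagonal (d i),
        PowerSeries.coeff z.1 (gG p t B.card A.card) *
        ((p / t) ^ ((NsY Q c i Y : ℤ) * z.1) *
        if z.2 ≤ Et Q i d + Es Q i d then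
          (p / t) ^ ((2 * (NsY Q c i Y : ℤ) - A.card - B.card) * z.2 +
            ((A.card : ℤ) - NsY Q c i Y) * (Et Q i d + Es Q i d : ℕ) -
            ((A.card : ℤ) - B.card) * Es Q i d) *
          VJ Q p t c x (B ∪ Y) (Function.update d i (Et Q i d + Es Q i d - z.2))
        else 0) :=
  ⟨_, _, stN_pos _, stN_pos _, VJ_step_card hs hL hq hA hB hY hbal hBA hZ⟩

end Pool.Agent.Run7.h657.Res
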