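import Pool.Agent.Run7.h657.SC

/-! The affine action on dimension vectors and the vanishing of residues. -/

set_option linter.unusedSectionVars false

namespace Pool.Agent.Run7.h657.Res

open Finset MvPolynomial

section numeric

variable {K I E F : Type*} [Field K] [Fintype I] [Fintype E] [Fintype F]
  [DecidableEq I] [DecidableEq E] [DecidableEq F]

/-- edge sum at a vertex -/
def Le' (Q : QD K I E F) (D : I → ℤ) (i : I) : ℤ :=
  ∑ e, ((if Q.tgt e = i then D (Q.src e) else 0) + (if Q.src e = i then D (Q.tgt e) else 0))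

/-- framing at a vertex -/
def wf (Q : QD K I E F) (i : I) : ℤ := ((univ.filter fun f => Q.cF f = i).card : ℤ)

/-- weight entries -/
def mz (Q : QD K I E F) (D : I → ℤ) (i : I) : ℤ := wf Q i + Le' Q D i - 2 * D i

/-- affine reflection -/
def da (Q : QD K I E F) (i : I) (D : I → ℤ) : I → ℤ :=
  Function.update D i (D i + mz Q D i)

/-- linear reflection -/
def la (Q : QD K I E F) (i : I) (D : I → ℤ) : I → ℤ :=
  Function.update D i (Le' Q D i - D i)

/-- affine action of a word -/
def daw (Q : QD K I E F) : List I → (I → ℤ) → (I → ℤ)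
  | [], D => D
  | i :: u, D => daw Q u (da Q i D)

/-- linear action of a word -/
def law (Q : QD K I E F) : List I → (I → ℤ) → (I → ℤ)
  | [], D => D
  | i :: u, D => law Q u (la Q i D)

variable {Q : QD K I E F}

lemma Le'_add (D D' : I → ℤ) (i : I) : Le' Q (D + D') i = Le' Q D i + Le' Q D' i := by
  unfold Le'
  rw [← sum_add_distrib]
  apply sum_congr rfl
  intro e _
  simp only [Pi.add_apply]
  split_ifs <;> ring

lemma Le'_smul (a : ℤ) (D : I → ℤ) (i : I) : Le' Q (fun j => a * D j) i = a * Le' Q D i := by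
  unfold Le'
  rw [mul_sum]
  apply sum_congr rfl
  intro e _
  split_ifs <;> ring

lemma Le'_upd_self (hl : ∀ e, Q.src e ≠ Q.tgt e) (D : I → ℤ) (i : I) (m : ℤ) :
    Le' Q (Function.update D i m) i = Le' Q D i := by
  unfold Le'
  apply sum_congr rfl
  intro e _
  congr 1
  · split_ifs with h
    · rw [Function.update_of_ne (fun h' => hl e (h'.trans h.symm))]
    · rfl
  · split_ifs with h
    · rw [Function.update_of_ne (fun h' => hl e (h.trans h'.symm))]
    · rfl

lemma da_add (D α : I → ℤ) (i : I) : da Q i (D + α) = da Q i D + la Q i α := by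
  funext j
  unfold da la mz
  simp only [Pi.add_apply]
  by_cases hj : j = i
  · subst hj
    rw [Function.update_self, Function.update_self, Function.update_self, Le'_add]
    ring
  · rw [Function.update_of_ne hj, Function.update_of_ne hj, Function.update_of_ne hj,
      Pi.add_apply]

lemma daw_add (u : List I) : ∀ D α : I → ℤ, daw Q u (D + α) = daw Q u D + law Q u α := by
  induction u with
  | nil => intro D α; rfl
  | cons i u ih =>
    intro D α
    show daw Q u (da Q i (D + α)) = daw Q u (da Q i D) + law Q u (la Q i α)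
    rw [da_add, ih]

lemma la_smul (a : ℤ) (D : I → ℤ) (i : I) :
    la Q i (fun j => a * D j) = fun j => a * la Q i D j := by
  funext j
  unfold la
  by_cases hj : j = i
  · subst hj
    rw [Function.update_self, Function.update_self, Le'_smul]
    ring
  · rw [Function.update_of_ne hj, Function.update_of_ne hj]

lemma law_smul (u : List I) (a : ℤ) : ∀ D : I → ℤ,
    law Q u (fun j => a * D j) = fun j => a * law Q u D j := by
  induction u with
  | nil => intro D; rfl
  | cons i u ih =>
    intro D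
    show law Q u (la Q i (fun j => a * D j)) = fun j => a * law Q u (la Q i D) j
    rw [la_smul, ih]

/-- pairing of weights and dimension vectors -/
def prz (Q : QD K I E F) (D α : I → ℤ) : ℤ := ∑ j, mz Q D j * α j

lemma sum_Le' (D α : I → ℤ) : ∑ j, Le' Q D j * α j =
    ∑ e, (D (Q.src e) * α (Q.tgt e) + D (Q.tgt e) * α (Q.src e)) := by
  unfold Le'
  simp_rw [sum_mul]
  rw [sum_comm]
  apply sum_congr rfl
  intro e _
  simp_rw [add_mul, ite_mul, zero_mul]
  rw [sum_add_distrib, sum_ite_eq, sum_ite_eq, if_pos (mem_univ _), if_pos (mem_univ _)]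

lemma sum_Le'_symm (D α : I → ℤ) : ∑ j, Le' Q D j * α j = ∑ j, Le' Q α j * D j := by
  rw [sum_Le', sum_Le']
  apply sum_congr rfl
  intro e _
  ring

lemma prz_eq (D α : I → ℤ) :
    prz Q D α = ∑ j, wf Q j * α j + ∑ j, Le' Q α j * D j - 2 * ∑ j, D j * α j := by
  unfold prz mz
  rw [← sum_Le'_symm, mul_sum, ← sum_add_distrib, ← sum_sub_distrib]
  apply sum_congr rfl
  intro j _
  ring

lemma upd_eq (D : I → ℤ) (i : I) (m : ℤ) :
    Function.update D i m = D + Pi.single i (m - D i) := by
  funext j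
  rw [Pi.add_apply]
  by_cases hj : j = i
  · subst hj
    rw [Function.update_self, Pi.single_eq_same]; ring
  · rw [Function.update_of_ne hj, Pi.single_eq_of_ne hj, add_zero]

lemma sum_single_mul (f : I → ℤ) (i : I) (m : ℤ) :
    ∑ j, f j * (Pi.single i m : I → ℤ) j = f i * m := by
  rw [sum_eq_single i]
  · rw [Pi.single_eq_same]
  · intro j _ hj
    rw [Pi.single_eq_of_ne hj, mul_zero]
  · intro h; exact absurd (mem_univ i) h

lemma Le'_single_self (hl : ∀ e, Q.src e ≠ Q.tgt e) (i : I) (m : ℤ) :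
    Le' Q (Pi.single i m) i = 0 := by
  have h1 := Le'_upd_self (Q := Q) hl (0 : I → ℤ) i m
  have h2 : (Function.update (0 : I → ℤ) i m) = Pi.single i m := rfl
  rw [h2] at h1
  rw [h1]
  unfold Le'
  simp

lemma prz_inv (hl : ∀ e, Q.src e ≠ Q.tgt e) (i : I) (D α : I → ℤ) :
    prz Q (da Q i D) (la Q i α) = prz Q D α := by
  unfold da la
  rw [upd_eq D, upd_eq α]
  set m : ℤ := D i + mz Q D i - D i with hm
  set n : ℤ := Le' Q α i - α i - α i with hn
  have hm' : m = wf Q i + Le' Q D i - 2 * D i := by rw [hm]; unfold mz; ring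
  rw [prz_eq, prz_eq]
  have h1 : ∑ j, wf Q j * (α + Pi.single i n : I → ℤ) j = ∑ j, wf Q j * α j + wf Q i * n := by
    simp_rw [Pi.add_apply, mul_add]
    rw [sum_add_distrib, sum_single_mul]
  have h2 : ∑ j, Le' Q (α + Pi.single i n : I → ℤ) j * (D + Pi.single i m : I → ℤ) j =
      ∑ j, Le' Q α j * D j + Le' Q α i * m + Le' Q D i * n := by
    simp_rw [Le'_add, Pi.add_apply, mul_add, add_mul]
    rw [sum_add_distrib, sum_add_distrib, sum_add_distrib, sum_single_mul, sum_single_mul,
      Le'_single_self hl, sum_Le'_symm (Pi.single i n) D, sum_single_mul]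
    ring
  have h3 : ∑ j, (D + Pi.single i m : I → ℤ) j * (α + Pi.single i n : I → ℤ) j =
      ∑ j, D j * α j + m * α i + D i * n + m * n := by
    simp_rw [Pi.add_apply, mul_add, add_mul]
    rw [sum_add_distrib, sum_add_distrib, sum_add_distrib, sum_single_mul, sum_single_mul,
      Pi.single_eq_same]
    have : ∑ j, (Pi.single i m : I → ℤ) j * α j = m * α i := by
      have := sum_single_mul α i m
      rw [mul_comm m, ← this]
      apply sum_congr rfl
      intro j _
      ring
    rw [this]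
    ring
  rw [h1, h2, h3, hn, hm']
  ring

lemma prz_word (hl : ∀ e, Q.src e ≠ Q.tgt e) (u : List I) : ∀ D α : I → ℤ,
    prz Q (daw Q u D) (law Q u α) = prz Q D α := by
  induction u with
  | nil => intro D α; rfl
  | cons i u ih =>
    intro D α
    show prz Q (daw Q u (da Q i D)) (law Q u (la Q i α)) = _
    rw [ih, prz_inv hl]

/-- zero dimensionality -/
def ZDz (Q : QD K I E F) (D : I → ℤ) : Prop :=
  ∑ e, D (Q.src e) * D (Q.tgt e) + ∑ f, D (Q.cF f) = ∑ j, D j * D j

lemma sum_wf (D : I → ℤ) : ∑ f, D (Q.cF f) = ∑ j, wf Q j * D j := by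
  unfold wf
  have : ∀ j, (((univ.filter fun f => Q.cF f = j).card : ℕ) : ℤ) * D j =
      ∑ f, if Q.cF f = j then D j else 0 := by
    intro j
    rw [card_filter, Nat.cast_sum, sum_mul]
    apply sum_congr rfl
    intro f _
    split_ifs <;> simp
  simp_rw [this]
  rw [sum_comm]
  apply sum_congr rfl
  intro f _
  rw [sum_ite_eq, if_pos (mem_univ _)]

lemma ZDz_iff (D : I → ℤ) :
    ZDz Q D ↔ ∑ j, Le' Q D j * D j + 2 * ∑ j, wf Q j * D j = 2 * ∑ j, D j * D j := by
  unfold ZDz
  rw [sum_wf, sum_Le']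
  have : ∑ e, (D (Q.src e) * D (Q.tgt e) + D (Q.tgt e) * D (Q.src e)) =
      2 * ∑ e, D (Q.src e) * D (Q.tgt e) := by
    rw [mul_sum]
    apply sum_congr rfl
    intro e _
    ring
  rw [this]
  constructor <;> intro h <;> linarith

lemma ZDz_da (hl : ∀ e, Q.src e ≠ Q.tgt e) (i : I) (D : I → ℤ) (h : ZDz Q D) :
    ZDz Q (da Q i D) := by
  rw [ZDz_iff] at h ⊢
  unfold da
  rw [upd_eq D]
  set m : ℤ := D i + mz Q D i - D i with hm
  have hm' : m = wf Q i + Le' Q D i - 2 * D i := by rw [hm]; unfold mz; ring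
  have h1 : ∑ j, wf Q j * (D + Pi.single i m : I → ℤ) j = ∑ j, wf Q j * D j + wf Q i * m := by
    simp_rw [Pi.add_apply, mul_add]
    rw [sum_add_distrib, sum_single_mul]
  have h2 : ∑ j, Le' Q (D + Pi.single i m : I → ℤ) j * (D + Pi.single i m : I → ℤ) j =
      ∑ j, Le' Q D j * D j + 2 * (Le' Q D i * m) := by
    simp_rw [Le'_add, Pi.add_apply, mul_add, add_mul]
    rw [sum_add_distrib, sum_add_distrib, sum_add_distrib, sum_single_mul, sum_single_mul,
      Le'_single_self hl, sum_Le'_symm (Pi.single i m) D, sum_single_mul]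
    ring
  have h3 : ∑ j, (D + Pi.single i m : I → ℤ) j * (D + Pi.single i m : I → ℤ) j =
      ∑ j, D j * D j + 2 * (D i * m) + m * m := by
    simp_rw [Pi.add_apply, mul_add, add_mul]
    rw [sum_add_distrib, sum_add_distrib, sum_add_distrib, sum_single_mul, sum_single_mul,
      Pi.single_eq_same]
    have : ∑ j, (Pi.single i m : I → ℤ) j * D j = D i * m := by
      rw [← sum_single_mul D i m]
      apply sum_congr rfl
      intro j _
      ring
    rw [this]
    ring
  rw [h1, h2, h3]
  have h4 : m * m = m * (wf Q i + Le' Q D i - 2 * D i) := by rw [← hm']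
  rw [mul_add, mul_add, mul_add, ← h, h4]
  ring

lemma exists_negZ {D : I → ℤ} (hz : ZDz Q D) (h0 : ∀ j, 0 ≤ D j) (hm : ∀ i, 0 ≤ mz Q D i) :
    ∀ f, D (Q.cF f) = 0 := by
  rw [ZDz_iff] at hz
  have h1 : 0 ≤ ∑ i, D i * mz Q D i := sum_nonneg fun i _ => mul_nonneg (h0 i) (hm i)
  have h2 : ∑ i, D i * mz Q D i = -∑ j, wf Q j * D j := by
    have : ∑ i, D i * mz Q D i =
        ∑ j, wf Q j * D j + ∑ j, Le' Q D j * D j - 2 * ∑ j, D j * D j := by
      unfold mz
      rw [mul_sum, ← sum_add_distrib, ← sum_sub_distrib]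
      apply sum_congr rfl
      intro j _
      ring
    rw [this]
    linarith
  rw [h2, ← sum_wf] at h1
  have h3 : ∑ f, D (Q.cF f) = 0 := le_antisymm (by linarith) (sum_nonneg fun f _ => h0 _)
  intro f
  exact (sum_eq_zero_iff_of_nonneg (fun f _ => h0 (Q.cF f))).1 h3 f (mem_univ f)

end numeric

variable {ι K I E F : Type*} [LinearOrder ι] [Field K] [Fintype I] [Fintype E] [Fintype F]
  [DecidableEq I] [DecidableEq E] [DecidableEq F] [DecidableEq K]

variable {Q : QD K I E F} {p t : K} {c : ι → I} {x : ι → K} {S : Set K}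

lemma Zst_da (hs : Sep Q t) (hL : LS Q t c x) (i : I) {D : I → ℤ}
    (hZ : Zst Q t c x (da Q i D)) : Zst Q t c x D := by
  apply Zst_refl hs hL i (D := D) (D' := da Q i D) _ _ hZ
  · intro j hj
    unfold da
    rw [Function.update_of_ne hj]
  · unfold da mz
    rw [Function.update_self]
    unfold Le' wf
    ring

lemma Zst_daw (hs : Sep Q t) (hL : LS Q t c x) (u : List I) : ∀ {D : I → ℤ},
    Zst Q t c x (daw Q u D) → Zst Q t c x D := by
  induction u with
  | nil => intro D h; exact h
  | cons i u ih =>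
    intro D h
    exact Zst_da hs hL i (ih h)

/-- vanishing without framings -/
lemma J_nofr (hs : Sep Q t) (hL : LS Q t c x) {R : Finset ι} (hR : R.Nonempty)
    (hf : ∀ r ∈ R, ∀ f, Q.cF f ≠ c r) {P : MvPolynomial ι K} (hP : PP Q t c x R P) :
    J Q t c x R P = 0 := by
  set r := R.min' hR with hr
  have hrR : r ∈ R := R.min'_mem hR
  apply J_pigeon hs hL hP (i := c r) (χ := x r)
  have h1 : In Q t c x (c r) (RY c R (c r)) (x r) = ∅ := by
    rw [eq_empty_iff_forall_notMem]
    intro l hl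
    rcases In_cases hs hL rfl hl with ⟨_, _, f, rfl⟩ | ⟨p, hp, _, _, _, hlt⟩
    · rw [mem_In, mem_Ls_fr] at hl
      exact hf r hrR f hl.1
    · have := R.min'_le p (mem_RY.1 hp).1
      exact absurd hlt (not_lt.2 this)
  rw [h1, card_empty, card_pos]
  exact ⟨r, by rw [mem_filter, mem_RA]; exact ⟨⟨hrR, rfl⟩, rfl⟩⟩

lemma Zst_nofr (hs : Sep Q t) (hL : LS Q t c x) {D : I → ℤ} (hD : D ≠ 0)
    (hf : ∀ f, D (Q.cF f) = 0) : Zst Q t c x D := by
  intro R hR P hP
  apply J_nofr hs hL _ _ hP
  · rw [nonempty_iff_ne_empty]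
    rintro rfl
    apply hD
    funext j
    rw [← hR j]
    unfold RA
    simp
  · intro r hr f hcf
    have h1 := hR (c r)
    rw [← hcf, hf f] at h1
    have h2 : 0 < (RA c R (Q.cF f)).card := card_pos.2 ⟨r, by rw [mem_RA]; exact ⟨hr, hcf.symm⟩⟩
    omega

/-- reduction to the empty quiver variety -/
theorem word_exists (hs : Sep Q t) (hL : LS Q t c x) (n : ℕ) :
    ∀ D : I → ℤ, (∑ j, D j).toNat = n → ZDz Q D → ¬ Zst Q t c x D →
      ∃ u : List I, daw Q u D = 0 := by
  induction n using Nat.strong_induction_on with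
  | _ n ih =>
  intro D hn hz hZ
  have h0 : ∀ j, 0 ≤ D j := by
    intro j
    by_contra hj
    push Not at hj
    exact hZ (Zst_neg hj)
  by_cases hD : D = 0
  · exact ⟨[], hD⟩
  by_cases hm : ∀ i, 0 ≤ mz Q D i
  · exact absurd (Zst_nofr hs hL hD (exists_negZ hz h0 hm)) hZ
  push Not at hm
  obtain ⟨i, hi⟩ := hm
  have hZ' : ¬ Zst Q t c x (da Q i D) := fun h => hZ (Zst_da hs hL i h)
  have h0' : ∀ j, 0 ≤ da Q i D j := by
    intro j
    by_contra hj
    push Not at hj
    exact hZ' (Zst_neg hj)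
  have hsum : ∑ j, da Q i D j = ∑ j, D j + mz Q D i := by
    unfold da
    rw [upd_eq]
    simp_rw [Pi.add_apply]
    rw [sum_add_distrib]
    have := sum_single_mul (fun _ => (1 : ℤ)) i (D i + mz Q D i - D i)
    simp only [one_mul] at this
    rw [this]
    ring
  have hpos : 0 ≤ ∑ j, da Q i D j := sum_nonneg fun j _ => h0' j
  obtain ⟨u, hu⟩ := ih (∑ j, da Q i D j).toNat (by rw [← hn]; omega) (da Q i D) rfl
    (ZDz_da hs.hl i D hz) hZ'
  exact ⟨i :: u, hu⟩

/-- vanishing below a point -/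
theorem Zst_below (hs : Sep Q t) (hL : LS Q t c x) {D : I → ℤ} (hz : ZDz Q D)
    (hZ : ¬ Zst Q t c x D) {i : I} (hi : 0 < mz Q D i) (k : ℕ) (hk : 0 < k) :
    Zst Q t c x (D + fun j => -(k : ℤ) * (Pi.single i 1 : I → ℤ) j) := by
  obtain ⟨u, hu⟩ := word_exists hs hL _ D rfl hz hZ
  apply Zst_daw hs hL u
  rw [daw_add, hu, zero_add, law_smul]
  have h1 := prz_word (Q := Q) hs.hl u D (Pi.single i 1)
  have h2 : prz Q D (Pi.single i 1) = mz Q D i := by
    unfold prz
    rw [sum_single_mul, mul_one]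
  rw [h2, hu] at h1
  have h3 : ∃ j, 0 < law Q u (Pi.single i 1) j := by
    by_contra hcon
    push Not at hcon
    have h4 : prz Q 0 (law Q u (Pi.single i 1)) ≤ 0 := by
      unfold prz
      apply sum_nonpos
      intro j _
      apply mul_nonpos_of_nonneg_of_nonpos _ (hcon j)
      unfold mz wf Le'
      simp
    omega
  obtain ⟨j, hj⟩ := h3
  apply Zst_neg (j := j)
  have : (0 : ℤ) < k := by exact_mod_cast hk
  nlinarith

end Pool.Agent.Run7.h657.Res
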