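import Pool.Agent.Run7.h657.SD

/-! Normalised series, the induction. -/

set_option linter.unusedSectionVars false

namespace Pool.Agent.Run7.h657.Res

open Finset MvPolynomial

variable {ι K I E F : Type*} [LinearOrder ι] [Field K] [Fintype I] [Fintype E] [Fintype F]
  [DecidableEq I] [DecidableEq E] [DecidableEq F] [DecidableEq K]

/-- the normalised series -/
noncomputable def VN (Q : QD K I E F) (p t : K) (c : ι → I) (x : ι → K) (R : Finset ι) :
    MvPowerSeries I K :=
  fun d => VJ Q p t c x R d / VJ Q p t c x R (fun _ => 0)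

variable {Q : QD K I E F} {p t : K} {c : ι → I} {x : ι → K} {S : Set K}

lemma coeff_VN (R : Finset ι) (d : I →₀ ℕ) : MvPowerSeries.coeff d (VN Q p t c x R) =
    VJ Q p t c x R d / VJ Q p t c x R (fun _ => 0) := rfl

lemma gG_zero (p t : K) (b k : ℕ) : PowerSeries.coeff 0 (gG p t b k) = 1 := by
  rw [PowerSeries.coeff_zero_eq_constantCoeff_apply]
  unfold gG
  rw [map_prod]
  apply prod_eq_one
  intro j _
  rw [← PowerSeries.coeff_zero_eq_constantCoeff_apply]
  unfold rser
  rw [PowerSeries.coeff_mk, ph_zero, pow_zero, mul_one]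

lemma Et_zero (i : I) : Et Q i (fun _ => 0) = 0 := by
  unfold Et; simp

lemma Es_zero (i : I) : Es Q i (fun _ => 0) = 0 := by
  unfold Es; simp

/-- the step for the normalised series -/
theorem VN_step [CharZero K] (hs : Sep Q t) (hL : LS Q t c x) (hq : Gq Q p t x S) {i : I}
    {A B Y : Finset ι} (hA : ∀ a ∈ A, c a = i) (hB : ∀ a ∈ B, c a = i) (hY : ∀ r ∈ Y, c r ≠ i)
    (hbal : Bal Q t c x i A B Y) (hBA : B.card ≤ A.card)
    (hZ : ∀ A' : Finset ι, (∀ a ∈ A', c a = i) → A'.card < B.card → ∀ P : MvPolynomial ι K,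
      PP Q t c x (A' ∪ Y) P → J Q t c x (A' ∪ Y) P = 0)
    (h0 : VJ Q p t c x (A ∪ Y) (fun _ => 0) ≠ 0) :
    VJ Q p t c x (B ∪ Y) (fun _ => 0) ≠ 0 ∧
    VN Q p t c x (A ∪ Y) =
      Pool.Agent.Run7.h657.ev (gG p t B.card A.card) (Finsupp.single i 1) ((p / t) ^ ((NsY Q c i Y : ℕ) : ℤ)) *
      (rQ Q hs.hl i).T (p / t) (chi Q i (NsY Q c i Y : ℕ) A.card B.card)
        (VN Q p t c x (B ∪ Y)) := by
  obtain ⟨N1, N2, hN1, hN2, h⟩ := VJ_step hs hL hq hA hB hY hbal hBA hZ
  have ht0 : t ≠ 0 := hq.gs.ne _ hq.tS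
  have hk0 : k0 t ≠ 0 := k0_ne hs.t1 ht0
  have hn1 : (N1 : K) * k0 t ^ B.card ≠ 0 :=
    mul_ne_zero (Nat.cast_ne_zero.2 hN1.ne') (pow_ne_zero _ hk0)
  have hn2 : (N2 : K) * k0 t ^ A.card ≠ 0 :=
    mul_ne_zero (Nat.cast_ne_zero.2 hN2.ne') (pow_ne_zero _ hk0)
  have h1 := h (fun _ => 0)
  rw [Finset.Nat.antidiagonal_zero, sum_singleton, Et_zero, Es_zero, gG_zero] at h1
  simp only [Nat.cast_zero, mul_zero, zpow_zero, one_mul, le_refl, if_true, add_zero, sub_zero,
    Nat.sub_zero] at h1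
  have hupd : Function.update (fun _ : I => 0) i 0 = fun _ => 0 := by
    funext j
    by_cases hj : j = i
    · subst hj; rw [Function.update_self]
    · rw [Function.update_of_ne hj]
  rw [hupd] at h1
  have hB0 : VJ Q p t c x (B ∪ Y) (fun _ => 0) ≠ 0 := by
    intro hb
    rw [hb, mul_zero] at h1
    exact (mul_ne_zero hn1 h0) h1
  refine ⟨hB0, ?_⟩
  apply series_step Q i hs.hl
  intro d
  have h2 := h d
  rw [coeff_VN]
  rw [div_eq_iff h0]
  apply mul_left_cancel₀ hn1
  rw [h2]
  have e1 : ∀ (a b s v : K), a * (s * v) = s * (a * v) := by intros; ring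
  rw [e1 _ 0 _ _, h1]
  have e2 : ∀ (s n v : K), s * (n * v) = n * (s * v) := by intros; ring
  rw [e2]
  congr 1
  rw [sum_mul]
  apply sum_congr rfl
  intro z _
  rw [mul_assoc]
  congr 1
  rw [mul_assoc]
  congr 1
  split_ifs with hz
  · rw [mul_assoc]
    congr 1
    rw [coeff_VN, div_mul_cancel₀ _ hB0]
    congr 1
    funext j
    by_cases hj : j = i
    · subst hj
      simp
    · simp [Function.update_of_ne hj, Finsupp.update_apply, hj]
  · rw [zero_mul]

/-- the residue of the integrand is a residue of a numerator -/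
lemma JU_eq_J (hs : Sep Q t) (hq : Gq Q p t x S) (R : Finset ι) (δ : ι → ℤ) :
    ∃ P : MvPolynomial ι K, PP Q t c x R P ∧ JU Q p t c x R δ = J Q t c x R P := by
  obtain ⟨N, hN⟩ := Bd.PiR (Q := Q) (t := t) (c := c) (x := x) R
  obtain ⟨P, hP, hPa⟩ := UU_PP hs hq R δ (c := c) (N + 1)
  refine ⟨P, hP, ?_⟩
  unfold JU J
  rw [← sub_eq_zero, ← cf_sub, ← sub_mul]
  exact cf_small (hPa _ Sb.u) hN (by constructor <;> omega)

/-- dimension vector of a set of letters -/
def dR (c : ι → I) (R : Finset ι) (j : I) : ℤ := ((RA c R j).card : ℤ)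

lemma dv_R (R : Finset ι) (j : I) : dv (fun r : R => c r.1) j = (RA c R j).card :=
  card_coe_filter R (fun r => c r = j)

lemma Le'_eq (D : I → ℕ) (i : I) :
    Le' Q (fun j => (D j : ℤ)) i = ((Et Q i D + Es Q i D : ℕ) : ℤ) := by
  unfold Le' Et Es
  rw [sum_add_distrib, sum_filter, sum_filter]
  push_cast
  rfl

lemma muv_eq (R : Finset ι) (i : I) : muv Q (fun r : R => c r.1) i = mz Q (dR c R) i := by
  unfold muv mz
  have h1 : dR c R = fun j => ((dv (fun r : R => c r.1) j : ℕ) : ℤ) := by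
    funext j
    rw [dv_R]
    rfl
  rw [h1, Le'_eq]
  rfl

lemma card_Ls' (hs : Sep Q t) (R : Finset ι) (i : I) :
    ((Ls Q c i (RY c R i)).card : ℤ) = wf Q i + Le' Q (dR c R) i := by
  rw [card_Ls hs i R]
  unfold wf Le' dR
  ring

lemma Ng_ge' (f : K →₀ ℤ) (χ : K) : f χ - (f.sum fun _ n => n) ≤ Ng f := by
  have h := Ng_ge (f - Finsupp.single χ (f χ))
  have h1 : (f - Finsupp.single χ (f χ)).sum (fun _ n => n) = (f.sum fun _ n => n) - f χ := by
    rw [Finsupp.sum_sub_index (fun _ _ _ => rfl), Finsupp.sum_single_index rfl]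
  rw [h1] at h
  have h2 : Ng (f - Finsupp.single χ (f χ)) ≤ Ng f := by
    rw [Ng_eq (f - Finsupp.single χ (f χ)) f.support, Ng_eq f f.support (Finset.Subset.refl _)]
    · apply sum_le_sum
      intro k _
      rw [Finsupp.sub_apply, Finsupp.single_apply]
      split_ifs with hk
      · subst hk
        rw [sub_self, neg_zero, max_self]
        exact le_max_right _ _
      · rw [sub_zero]
    · intro k hk
      rw [Finsupp.mem_support_iff] at hk ⊢
      intro h0
      apply hk
      rw [Finsupp.sub_apply, Finsupp.single_apply, h0]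
      split_ifs with hk'
      · subst hk'; rw [h0, sub_self]
      · rw [sub_self]
  omega

/-- the second set of letters -/
lemma exists_B {i : I} {A Y : Finset ι} (hA : ∀ a ∈ A, c a = i)
    (h1 : ∀ χ, (A.filter fun a => x a = χ).card ≤ (In Q t c x i Y χ).card)
    (h2 : ∀ χ, (In Q t c x i Y χ).card ≤ (A.filter fun a => x a = χ).card +
      (A.filter fun a => t * x a = χ).card) (ht : t ≠ 0) :
    ∃ B : Finset ι, (∀ b ∈ B, c b = i) ∧ Bal Q t c x i A B Y := by
  have h3 : ∀ ψ : K, ∃ B ⊆ A.filter fun a => x a = ψ,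
      B.card = (In Q t c x i Y (t * ψ)).card - (A.filter fun a => x a = t * ψ).card := by
    intro ψ
    apply exists_subset_card_eq
    have := h2 (t * ψ)
    have h4 : (A.filter fun a => t * x a = t * ψ) = A.filter fun a => x a = ψ := by
      ext a
      simp [ht]
    rw [h4] at this
    omega
  choose g hg hgc using h3
  refine ⟨A.filter fun a => a ∈ g (x a), fun b hb => hA b (mem_filter.1 hb).1, ?_⟩
  intro χ
  have h5 : ((A.filter fun a => a ∈ g (x a)).filter fun b => t * x b = χ) = g (χ / t) := by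
    ext b
    rw [mem_filter, mem_filter]
    constructor
    · rintro ⟨⟨_, h6⟩, h7⟩
      have : x b = χ / t := by rw [← h7, mul_div_cancel_left₀ _ ht]
      rwa [this] at h6
    · intro hb
      have h6 := mem_filter.1 (hg _ hb)
      refine ⟨⟨h6.1, by rw [h6.2]; exact hb⟩, ?_⟩
      rw [h6.2, mul_div_cancel₀ _ ht]
  rw [h5, hgc, mul_div_cancel₀ _ ht]
  have := h1 χ
  omega

lemma Bal.card {i : I} {A B Y : Finset ι} (h : Bal Q t c x i A B Y) :
    (Ls Q c i Y).card = A.card + B.card := by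
  obtain ⟨φ, _⟩ := exists_equiv_fib
    (Sum.elim (fun a : A => x a.1) (fun b : B => t * x b.1))
    (fun l : Ls Q c i Y => kap Q t x l.1) (by
      intro χ
      rw [h.fib χ]
      rw [← card_disjSum]
      congr 1
      ext z
      rcases z with a | b <;> simp)
  have := Fintype.card_congr φ
  rw [Fintype.card_sum, Fintype.card_coe, Fintype.card_coe, Fintype.card_coe] at this
  omega

lemma card_class_le {i : I} {A Y : Finset ι}
    (h1 : ∀ χ, (A.filter fun a => x a = χ).card ≤ (In Q t c x i Y χ).card) :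
    A.card ≤ (Ls Q c i Y).card := by
  classical
  rw [card_eq_sum_card_fiberwise (f := x) (t := A.image x ∪ (Ls Q c i Y).image (kap Q t x))
    (fun a ha => mem_union_left _ (mem_image_of_mem x ha)),
    card_eq_sum_card_fiberwise (f := kap Q t x)
      (t := A.image x ∪ (Ls Q c i Y).image (kap Q t x))
      (fun a ha => mem_union_right _ (mem_image_of_mem _ ha))]
  exact sum_le_sum fun χ _ => h1 χ

end Pool.Agent.Run7.h657.Res
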