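import Pool.Agent.Run7.h657.SE

/-! The product formula for series of residues. -/

set_option linter.unusedSectionVars false

namespace Pool.Agent.Run7.h657.Res

open Finset MvPolynomial

variable {ι K I E F : Type*} [LinearOrder ι] [Field K] [Fintype I] [Fintype E] [Fintype F]
  [DecidableEq I] [DecidableEq E] [DecidableEq F] [DecidableEq K]

variable {Q : QD K I E F} {p t : K} {c : ι → I} {x : ι → K} {S : Set K}

lemma Gq.ok (hq : Gq Q p t x S) : Ok p t where
  hp := hq.gs.p0
  ht := hq.gs.ne _ hq.tS
  hpp m hm h := by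
    have h1 : (1 : K) ∈ S := hq.gs.one ⟨t, hq.tS⟩
    apply hq.gs.pw m (by omega)
    rw [zpow_natCast, h]
    exact h1
  htp l h := by
    apply hq.gs.pw ((l : ℤ) + 1) (by omega)
    have : p ^ ((l : ℤ) + 1) = p ^ (l + 1) := by
      rw [← zpow_natCast]; push_cast; rfl
    rw [this, ← h]
    exact hq.tS

lemma claim_emptyS (h0 : VJ Q p t c x ∅ (fun _ => 0) ≠ 0) :
    ClaimS Q p t (fun r : (∅ : Finset ι) => c r.1) (VN Q p t c x ∅) := by
  have hdv : dv (fun r : (∅ : Finset ι) => c r.1) = fun _ => 0 := by
    funext j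
    rw [dv_R]
    unfold RA
    simp
  have hmu : ∀ j, 0 ≤ muv Q (fun r : (∅ : Finset ι) => c r.1) j := by
    intro j
    unfold muv
    rw [hdv]
    simp only [Nat.cast_zero, mul_zero, sub_zero]
    positivity
  refine ⟨∅, ?_, ?_⟩
  · intro α
    simp only [notMem_empty, false_iff, not_and, not_lt]
    intro _
    exact sum_nonneg fun j _ => mul_nonneg (Int.natCast_nonneg _) (hmu j)
  · unfold PF
    rw [prod_empty]
    ext d
    rw [coeff_VN, MvPowerSeries.coeff_one]
    classical
    by_cases hd : d = 0
    · subst hd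
      rw [if_pos rfl]
      exact div_self h0
    · rw [if_neg hd]
      have : VJ Q p t c x ∅ d = 0 := by
        unfold VJ
        have hemp : DS (fun r : (∅ : Finset ι) => c r.1) (⇑d) = ∅ := by
          rw [eq_empty_iff_forall_notMem]
          intro δ hδ
          rw [mem_DS'] at hδ
          apply hd
          ext j
          rw [← hδ j]
          unfold RA
          simp
        rw [hemp, sum_empty]
      rw [this, zero_div]

/-- the product formula -/
theorem claim_R [CharZero K] (hs : Sep Q t) (hL : LS Q t c x) (hq : Gq Q p t x S) (n : ℕ) :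
    ∀ R : Finset ι, R.card = n → VJ Q p t c x R (fun _ => 0) ≠ 0 → ZDz Q (dR c R) →
      ClaimS Q p t (fun r : R => c r.1) (VN Q p t c x R) := by
  induction n using Nat.strong_induction_on with
  | _ n ih =>
  intro R hn h0 hz
  have ht0 : t ≠ 0 := hq.gs.ne _ hq.tS
  rcases R.eq_empty_or_nonempty with rfl | hne
  · exact claim_emptyS h0
  -- a numerator with nonzero residue
  have hJ : ∃ P, PP Q t c x R P ∧ J Q t c x R P ≠ 0 := by
    by_contra hcon
    push Not at hcon
    apply h0
    unfold VJ
    apply sum_eq_zero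
    intro δ _
    obtain ⟨P, hP, hP'⟩ := JU_eq_J hs hq R (fun q => (exd R δ q : ℤ)) (c := c)
    rw [hP', hcon P hP]
  obtain ⟨P0, hP0, hJ0⟩ := hJ
  have hnZ : ¬ Zst Q t c x (dR c R) := fun hZ => hJ0 (hZ R (fun j => rfl) P0 hP0)
  -- the vertex
  have hneg : ∃ i, mz Q (dR c R) i < 0 := by
    by_contra hcon
    push Not at hcon
    have h1 := exists_negZ hz (fun j => Int.natCast_nonneg _) hcon
    apply hJ0
    apply J_nofr hs hL hne _ hP0
    intro r hr f hcf
    have h2 := h1 f
    unfold dR at h2
    have h3 : 0 < (RA c R (Q.cF f)).card := card_pos.2 ⟨r, by rw [mem_RA]; exact ⟨hr, hcf.symm⟩⟩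
    omega
  obtain ⟨i, hi⟩ := hneg
  set A := RA c R i with hAdef
  set Y := RY c R i with hYdef
  have hR : A ∪ Y = R := RA_union c R i
  have hA : ∀ a ∈ A, c a = i := fun a ha => (mem_RA.1 ha).2
  have hY : ∀ r ∈ Y, c r ≠ i := fun r hr => (mem_RY.1 hr).2
  have hdisj : Disjoint A Y := RA_disj c R i
  have hLs : ((Ls Q c i Y).card : ℤ) = wf Q i + Le' Q (dR c R) i := card_Ls' hs R i
  have hmz : mz Q (dR c R) i = (Ls Q c i Y).card - 2 * (A.card : ℤ) := by
    rw [hLs]
    unfold mz
    rfl
  -- classes
  have h1 : ∀ χ, (A.filter fun a => x a = χ).card ≤ (In Q t c x i Y χ).card := by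
    intro χ
    by_contra hcon
    push Not at hcon
    exact hJ0 (J_pigeon hs hL hP0 hcon)
  have hAL : A.card ≤ (Ls Q c i Y).card := card_class_le h1
  -- the reflected dimension vector
  set D' := da Q i (dR c R) with hD'
  have hD'i : D' i = (Ls Q c i Y).card - (A.card : ℤ) := by
    rw [hD']
    unfold da
    rw [Function.update_self, hmz]
    show (A.card : ℤ) + _ = _
    ring
  have hD'j : ∀ j, j ≠ i → D' j = dR c R j := by
    intro j hj
    rw [hD']
    unfold da
    rw [Function.update_of_ne hj]
  have hnZ' : ¬ Zst Q t c x D' := fun hZ => hnZ (Zst_da hs hL i hZ)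
  have hz' : ZDz Q D' := ZDz_da hs.hl i _ hz
  have hmz' : 0 < mz Q D' i := by
    have : mz Q D' i = -mz Q (dR c R) i := by
      unfold mz
      rw [hD'i, hD']
      unfold da
      rw [Le'_upd_self hs.hl]
      have h2 : dR c R i = (A.card : ℤ) := rfl
      rw [h2]
      linarith
    omega
  have hbelow : ∀ k : ℕ, 0 < k → ∀ A' : Finset ι, (∀ a ∈ A', c a = i) →
      (A'.card : ℤ) = D' i - k → ∀ P : MvPolynomial ι K,
      PP Q t c x (A' ∪ Y) P → J Q t c x (A' ∪ Y) P = 0 := by
    intro k hk A' hA' hcard P hP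
    refine Zst_below hs hL hz' hnZ' hmz' k hk (A' ∪ Y) ?_ P hP
    intro j
    rw [Pi.add_apply]
    by_cases hj : j = i
    · subst hj
      rw [RA_of hA' hY, hcard, Pi.single_eq_same]
      ring
    · rw [RA_ne hA' hj, Pi.single_eq_of_ne hj, hD'j j hj, mul_zero, add_zero]
      unfold dR
      rw [← hR, RA_ne hA hj]
  -- the classes are bounded
  have h2 : ∀ χ, (In Q t c x i Y χ).card ≤ (A.filter fun a => x a = χ).card +
      (A.filter fun a => t * x a = χ).card := by
    intro χ
    by_contra hcon
    push Not at hcon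
    rcases Nat.eq_zero_or_pos ((Ls Q c i Y).card - A.card) with hb | hb
    · -- no room
      have hLA : (Ls Q c i Y).card = A.card := by omega
      have h3 : ∑ ψ ∈ A.image x ∪ (Ls Q c i Y).image (kap Q t x),
          (A.filter fun a => x a = ψ).card =
          ∑ ψ ∈ A.image x ∪ (Ls Q c i Y).image (kap Q t x), (In Q t c x i Y ψ).card := by
        have e1 := card_eq_sum_card_fiberwise (f := x) (s := A)
          (t := A.image x ∪ (Ls Q c i Y).image (kap Q t x))
          (fun a ha => mem_union_left _ (mem_image_of_mem x ha))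
        have e2 := card_eq_sum_card_fiberwise (f := kap Q t x) (s := Ls Q c i Y)
          (t := A.image x ∪ (Ls Q c i Y).image (kap Q t x))
          (fun a ha => mem_union_right _ (mem_image_of_mem _ ha))
        rw [← e1, ← hLA, e2]
        rfl
      have h4 := (sum_eq_sum_iff_of_le (fun ψ _ => h1 ψ)).1 h3
      have h5 : χ ∈ A.image x ∪ (Ls Q c i Y).image (kap Q t x) := by
        have : 0 < (In Q t c x i Y χ).card := by omega
        obtain ⟨l, hl⟩ := card_pos.1 this
        rw [mem_In] at hl
        exact mem_union_right _ (mem_image.2 ⟨l, hl.1, hl.2⟩)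
      have := h4 χ h5
      omega
    · -- one letter too many
      apply hJ0
      have h3 := Z_down hs hL (n' := (Ls Q c i Y).card - A.card - 1) hY (by
        intro A' hA' hcard P hP
        refine hbelow 1 one_pos A' hA' ?_ P hP
        rw [hcard, hD'i]
        push_cast
        omega) (2 * A.card - (Ls Q c i Y).card + 1) A hA (by omega) (by
          have h4 := Ng_ge' (rk Q t c x i A Y) χ
          rw [rk_sum, rk_apply] at h4
          have h5 : 0 < 2 * (A.card : ℤ) - (Ls Q c i Y).card := by omega
          have h6 : ((2 * A.card - (Ls Q c i Y).card + 1 : ℕ) : ℤ) =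
              2 * (A.card : ℤ) - (Ls Q c i Y).card + 1 := by
            push_cast
            omega
          rw [h6]
          omega) P0 (by rw [hR]; exact hP0)
      rw [hR] at h3
      exact h3
  obtain ⟨B, hB, hbal⟩ := exists_B (c := c) hA h1 h2 ht0
  have hBc : (Ls Q c i Y).card = A.card + B.card := hbal.card
  have hBA : B.card < A.card := by omega
  have hZ : ∀ A' : Finset ι, (∀ a ∈ A', c a = i) → A'.card < B.card → ∀ P : MvPolynomial ι K,
      PP Q t c x (A' ∪ Y) P → J Q t c x (A' ∪ Y) P = 0 := by
    intro A' hA' hlt P hP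
    refine hbelow (B.card - A'.card) (by omega) A' hA' ?_ P hP
    rw [hD'i, hBc]
    push_cast
    omega
  obtain ⟨hB0, hstep⟩ := VN_step hs hL hq hA hB hY hbal hBA.le hZ (by rw [hR]; exact h0)
  have hdRB : dR c (B ∪ Y) = D' := by
    funext j
    by_cases hj : j = i
    · subst hj
      unfold dR
      rw [RA_of hB hY, hD'i, hBc]
      push_cast
      ring
    · unfold dR
      rw [RA_ne hB hj, hD'j j hj]
      unfold dR
      rw [← hR, RA_ne hA hj]
  have hdisB : Disjoint B Y := by
    rw [disjoint_left]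
    exact fun b hb hy => hY b hy (hB b hb)
  have hcard : (B ∪ Y).card < n := by
    rw [← hn, ← hR, card_union_of_disjoint hdisj, card_union_of_disjoint hdisB]
    omega
  have hih := ih (B ∪ Y).card hcard (B ∪ Y) rfl hB0 (by rw [hdRB]; exact hz')
  rw [NsY_eq hs.hl hA] at hstep
  rw [hR] at hstep
  refine claim_stepS hq.ok hs.hl i (fun r : R => c r.1) (fun r : ↥(B ∪ Y) => c r.1)
    A.card B.card (dv_R R i) ?_ ?_ ?_ (VN Q p t c x R) (VN Q p t c x (B ∪ Y)) hstep hih
  · funext j
    rw [dv_R]
    by_cases hj : j = i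
    · subst hj
      rw [Function.update_self, RA_of hB hY]
    · rw [Function.update_of_ne hj, dv_R, RA_ne hB hj, ← RA_ne hA hj, hR]
  · rw [muv_eq, hmz, hBc]
    push_cast
    ring
  · rw [muv_eq]
    exact hi

end Pool.Agent.Run7.h657.Res
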