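import Pool.Agent.Run7.h657.SF

/-! Embedding of the field attached to finitely many letters. -/

set_option linter.unusedSectionVars false

namespace Pool.Agent.Run7.h657.Res

open Finset

variable {P ι K : Type*} [LinearOrder P] [LinearOrder ι] [Field K]

/-- the map of exponents -/
noncomputable def exh (f : P ↪o ι) : Ex P →+ Ex ι where
  toFun γ := toLex ((ofLex γ).mapDomain f)
  map_zero' := by
    show toLex ((0 : P →₀ ℤ).mapDomain f) = 0
    rw [Finsupp.mapDomain_zero]; rfl
  map_add' a b := by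
    show toLex ((ofLex a + ofLex b).mapDomain f) = _
    rw [Finsupp.mapDomain_add]; rfl

lemma exh_apply (f : P ↪o ι) (γ : Ex P) (r : P) : (ofLex (exh f γ)) (f r) = (ofLex γ) r :=
  Finsupp.mapDomain_apply f.injective _ _

lemma exh_off (f : P ↪o ι) (γ : Ex P) {j : ι} (h : j ∉ Set.range f) :
    (ofLex (exh f γ)) j = 0 :=
  Finsupp.mapDomain_of_notMem_range _ _ h

lemma exh_lt (f : P ↪o ι) (a b : Ex P) (h : a < b) : exh f a < exh f b := by
  rw [Finsupp.Lex.lt_iff] at h ⊢
  obtain ⟨i, h1, h2⟩ := h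
  refine ⟨f i, fun j hj => ?_, ?_⟩
  · by_cases hr : j ∈ Set.range f
    · obtain ⟨r, rfl⟩ := hr
      rw [exh_apply, exh_apply]
      exact h1 r (f.lt_iff_lt.1 hj)
    · rw [exh_off f a hr, exh_off f b hr]
  · rw [exh_apply, exh_apply]
    exact h2

lemma exh_inj (f : P ↪o ι) : Function.Injective (exh f) := by
  intro a b h
  rcases lt_trichotomy a b with h1 | h1 | h1
  · exact absurd h (exh_lt f a b h1).ne
  · exact h1
  · exact absurd h (exh_lt f b a h1).ne'

lemma exh_le (f : P ↪o ι) (a b : Ex P) : exh f a ≤ exh f b ↔ a ≤ b := by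
  constructor
  · intro h
    by_contra hcon
    push Not at hcon
    exact absurd (exh_lt f b a hcon) (not_lt.2 h)
  · intro h
    rcases h.lt_or_eq with h1 | h1
    · exact (exh_lt f a b h1).le
    · rw [h1]

/-- the embedding of fields -/
noncomputable def emb (f : P ↪o ι) : HH P K →+* HH ι K :=
  HahnSeries.embDomainRingHom (exh f) (exh_inj f) (exh_le f)

lemma emb_coeff (f : P ↪o ι) (g : HH P K) (γ : Ex P) :
    (emb f g).coeff (exh f γ) = g.coeff γ :=
  HahnSeries.embDomain_coeff (f := ⟨⟨exh f, exh_inj f⟩, exh_le f _ _⟩)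

lemma exh_ee (f : P ↪o ι) (r : P) : exh f (ee r) = ee (f r) := by
  show toLex ((Finsupp.single r (1 : ℤ)).mapDomain f) = toLex (Finsupp.single (f r) 1)
  rw [Finsupp.mapDomain_single]

lemma emb_u (f : P ↪o ι) (r : P) : emb f (u r : HH P K) = u (f r) := by
  unfold u
  rw [← exh_ee]
  exact HahnSeries.embDomain_single (f := ⟨⟨exh f, exh_inj f⟩, exh_le f _ _⟩)

lemma emb_C (f : P ↪o ι) (k : K) : emb f (HahnSeries.C k : HH P K) = HahnSeries.C k :=
  HahnSeries.embDomainRingHom_C

lemma exh_mo (f : P ↪o ι) (R : Finset P) : exh f (mo R) = mo (R.map f.toEmbedding) := by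
  unfold mo
  rw [map_neg, map_sum, sum_map]
  congr 1
  apply sum_congr rfl
  intro r _
  exact exh_ee f r

lemma cf_emb (f : P ↪o ι) (R : Finset P) (g : HH P K) :
    cf (R.map f.toEmbedding) (emb f g) = cf R g := by
  unfold cf
  rw [← exh_mo, emb_coeff]

end Pool.Agent.Run7.h657.Res
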