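import Pool.Agent.Run7.h657.SG
import Pool.Agent.Run7.h657.MF

/-! A universe of letters. -/

set_option linter.unusedSectionVars false

namespace Pool.Agent.Run7.h657.Res

open Finset Vx

universe u1 u2 u3 u4 u5

variable {K : Type u1} {V : Type u2} {A : Type u3} {W : Type u4} {P : Type u5} [Field K] [Fintype V] [Fintype A] [Fintype W] [Fintype P]
  [DecidableEq V] [DecidableEq A] [DecidableEq W]

/-- exponents of weights -/
abbrev Wx (A W : Type*) := ℤ × (A → ℤ) × (W → ℤ)

/-- monomials in the parameters -/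
def mon (T : Par K A W) (g : Wx A W) : Kˣ :=
  T.hb ^ g.1 * (∏ e, T.τ e ^ g.2.1 e) * ∏ f, T.a f ^ g.2.2 f

/-- level of an exponent -/
def lev (g : Wx A W) : ℤ := -2 * g.1 - ∑ e, g.2.1 e

lemma mon_add (T : Par K A W) (g g' : Wx A W) : mon T (g + g') = mon T g * mon T g' := by
  unfold mon
  simp only [Prod.fst_add, Prod.snd_add, Pi.add_apply, zpow_add, prod_mul_distrib]
  ac_rfl

lemma mon_neg (T : Par K A W) (g : Wx A W) : mon T (-g) = (mon T g)⁻¹ := by
  have h := mon_add T g (-g)
  have h0 : mon T (0 : Wx A W) = 1 := by unfold mon; simp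
  rw [add_neg_cancel, h0] at h
  exact (eq_inv_of_mul_eq_one_right h.symm)

lemma mon_zero (T : Par K A W) : mon T (0 : Wx A W) = 1 := by unfold mon; simp

lemma lev_add (g g' : Wx A W) : lev (g + g') = lev g + lev g' := by
  unfold lev
  simp only [Prod.fst_add, Prod.snd_add, Pi.add_apply, sum_add_distrib]
  ring

lemma lev_neg (g : Wx A W) : lev (-g) = -lev g := by
  unfold lev
  simp only [Prod.fst_neg, Prod.snd_neg, Pi.neg_apply, sum_neg_distrib]
  ring

lemma mon_one {T : Par K A W} (hT : Independent T) {g : Wx A W} (h : mon T g = 1) : g = 0 := by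
  obtain ⟨_, h1, h2, h3⟩ := hT 0 g.1 g.2.1 g.2.2 (by
    rw [zpow_zero, one_mul]; exact h)
  exact Prod.ext h1 (Prod.ext h2 h3)

lemma mon_inj {T : Par K A W} (hT : Independent T) {g g' : Wx A W} (h : mon T g = mon T g') :
    g = g' := by
  have h1 : mon T (g + -g') = 1 := by
    rw [mon_add, mon_neg, h, mul_inv_cancel]
  have h2 := mon_one hT h1
  rwa [← sub_eq_add_neg, sub_eq_zero] at h2

/-- exponent of `ħ` -/
def hE (A W : Type*) : Wx A W := (1, 0, 0)

/-- exponent of an arrow weight -/
def tE (W : Type*) (e : A) : Wx A W := (0, Pi.single e 1, 0)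

/-- exponent of a framing weight -/
def aE (A : Type*) (f : W) : Wx A W := (0, 0, Pi.single f 1)

lemma prod_pi_single {X : Type*} [Fintype X] [DecidableEq X] (f : X → Kˣ) (e : X) :
    ∏ x, f x ^ (Pi.single e (1 : ℤ) : X → ℤ) x = f e := by
  rw [prod_eq_single e]
  · simp
  · intro y _ hy
    rw [Pi.single_eq_of_ne hy, zpow_zero]
  · intro h; exact absurd (mem_univ e) h

lemma mon_hE (T : Par K A W) : mon T (hE A W) = T.hb := by
  unfold mon hE; simp

lemma mon_tE (T : Par K A W) (e : A) : mon T (tE W e) = T.τ e := by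
  unfold mon tE
  simp only [zpow_zero, one_mul, Pi.zero_apply, prod_const_one, mul_one]
  exact prod_pi_single T.τ e

lemma mon_aE (T : Par K A W) (f : W) : mon T (aE A f) = T.a f := by
  unfold mon aE
  simp only [zpow_zero, one_mul, Pi.zero_apply, prod_const_one]
  exact prod_pi_single T.a f

lemma lev_hE : lev (hE A W) = -2 := by unfold lev hE; simp

lemma lev_tE (e : A) : lev (tE W e) = -1 := by
  unfold lev tE
  simp

lemma lev_aE (f : W) : lev (aE A f) = 0 := by unfold lev aE; simp

/-- letters -/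
structure Lt (P N : Type*) where
  val : P ⊕ N

lemma hasLevel_mon {T : Par K A W} {y : Kˣ} {g : Wx A W} (h : mon T g = y) :
    HasLevel T y (lev g) := ⟨g.1, g.2.1, g.2.2, h.symm, rfl⟩

lemma hasLevel_eq {T : Par K A W} (hT : Independent T) {g : Wx A W} {k : ℤ}
    (h : HasLevel T (mon T g) k) : k = lev g := by
  obtain ⟨l, m, n, h1, rfl⟩ := h
  have h2 : mon T g = mon T ((l, m, n) : Wx A W) := h1
  rw [mon_inj hT h2]
  rfl

/-- values of monomials -/
def SK (T : Par K A W) : Set K := {k | ∃ g : Wx A W, k = (mon T g : K)}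

lemma gsS {T : Par K A W} (hT : Independent T) : GS (T.q : K)⁻¹ (SK T) where
  p0 := inv_ne_zero T.q.ne_zero
  ne := by
    rintro a ⟨g, rfl⟩
    exact (mon T g).ne_zero
  mul := by
    rintro a ⟨g, rfl⟩ b ⟨g', rfl⟩
    exact ⟨g + g', by rw [mon_add]; push_cast; rfl⟩
  inv := by
    rintro a ⟨g, rfl⟩
    exact ⟨-g, by rw [mon_neg]; push_cast; rfl⟩
  pw := by
    rintro m hm ⟨g, hg⟩
    apply hm
    have h1 : T.q ^ (-m) = mon T g := by
      apply Units.ext
      rw [← hg]
      push_cast
      rw [zpow_neg, inv_zpow]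
    have h2 := hT m g.1 g.2.1 g.2.2 (by
      have h3 : T.q ^ m * mon T g = 1 := by rw [← h1, ← zpow_add]; simp
      rw [← h3]
      unfold mon
      simp only [mul_assoc])
    exact h2.1

/-- the universe of letters -/
theorem exists_universe [LinearOrder P] (Γ : FQuiver V A W) (T : Par K A W)
    (hT : Independent T) (c : P → V) (x : P → Kˣ)
    (hx : ∀ r, ∃ g : Wx A W, mon T g = x r ∧ 0 ≤ lev g) (hord : LevelOrder T x) :
    ∃ (N : Type (max u2 u3 u4)) (_ : LinearOrder (Lt P N)) (f : P ↪o Lt P N) (cι : Lt P N → V)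
      (xι : Lt P N → K),
      LS (QQ Γ T) (T.hb : K)⁻¹ cι xι ∧ Gq (QQ Γ T) (T.q : K)⁻¹ (T.hb : K)⁻¹ xι (SK T) ∧
      (∀ r, cι (f r) = c r) ∧ ∀ r, xι (f r) = (x r : K) := by
  classical
  choose gP hg hg0 using hx
  let N := V × {g : Wx A W // 0 ≤ lev g} × ℕ
  let _ : LinearOrder N := linearOrderOfSTO (WellOrderingRel : N → N → Prop)
  let gU : Lt P N → Wx A W := fun z => Sum.elim gP (fun n => n.2.1.1) z.val
  let cU : Lt P N → V := fun z => Sum.elim c (fun n => n.1) z.val
  let key : Lt P N → ℤ ×ₗ (P ⊕ₗ N) := fun z => toLex (lev (gU z), toLex z.val)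
  have hkey : Function.Injective key := by
    intro z z' h
    have h1 := congrArg (fun w : ℤ ×ₗ (P ⊕ₗ N) => ofLex (ofLex w).2) h
    rcases z with ⟨z⟩
    rcases z' with ⟨z'⟩
    have h2 : z = z' := h1
    rw [h2]
  let inst : LinearOrder (Lt P N) := LinearOrder.lift' key hkey
  have hlt : ∀ z z' : Lt P N, lev (gU z) < lev (gU z') → z < z' := by
    intro z z' h
    show key z < key z'
    rw [Prod.Lex.lt_iff]
    exact Or.inl h
  have hg0' : ∀ z, 0 ≤ lev (gU z) := by
    rintro ⟨r | n⟩
    · exact hg0 r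
    · exact n.2.1.2
  have hmono : ∀ r r' : P, r < r' → (⟨Sum.inl r⟩ : Lt P N) < ⟨Sum.inl r'⟩ := by
    intro r r' h
    have h1 := hord r r' _ _ h (hasLevel_mon (hg r)) (hasLevel_mon (hg r'))
    show key ⟨Sum.inl r⟩ < key ⟨Sum.inl r'⟩
    rw [Prod.Lex.lt_iff]
    rcases h1.lt_or_eq with h2 | h2
    · exact Or.inl h2
    · refine Or.inr ⟨h2, ?_⟩
      exact Sum.Lex.inl_lt_inl_iff.2 h
  let f : P ↪o Lt P N := OrderEmbedding.ofStrictMono (fun r => ⟨Sum.inl r⟩) hmono
  let xU : Lt P N → K := fun z => (mon T (gU z) : K)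
  have xeq : ∀ z z' : Lt P N, ∀ g : Wx A W, (mon T g : K) * xU z = xU z' →
      lev (gU z') = lev g + lev (gU z) := by
    intro z z' g h
    have h1 : mon T (g + gU z) = mon T (gU z') := by
      rw [mon_add]
      apply Units.ext
      push_cast
      exact h
    rw [← mon_inj hT h1, lev_add]
  have hh : (T.hb : K)⁻¹ = (mon T (-hE A W) : K) := by
    rw [mon_neg, mon_hE]; push_cast; rfl
  have hfresh : ∀ (v : V) (g : {g : Wx A W // 0 ≤ lev g}) (R : Finset (Lt P N)),
      ∃ n : ℕ, (⟨Sum.inr (v, g, n)⟩ : Lt P N) ∉ R := by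
    intro v g R
    have hinj : Function.Injective (fun n : ℕ => (⟨Sum.inr (v, g, n)⟩ : Lt P N)) := by
      intro n n' h
      have h1 := congrArg Lt.val h
      have h2 : ((v, g, n) : N) = (v, g, n') := Sum.inr.inj h1
      exact (Prod.mk.inj (Prod.mk.inj h2).2).2
    by_contra hcon
    push Not at hcon
    exact Set.infinite_range_of_injective hinj (R.finite_toSet.subset (by
      rintro _ ⟨n, rfl⟩
      exact hcon n))
  refine ⟨N, inst, f, cU, xU, ?_, ?_, fun r => rfl, fun r => ?_⟩
  · constructor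
    · intro z
      exact (mon T (gU z)).ne_zero
    · intro e r p _ _ h
      apply hlt
      have h1 : (mon T (tE W e) : K) * xU p = xU r := by rw [mon_tE]; exact h
      have h2 := xeq p r _ h1
      rw [lev_tE] at h2
      omega
    · intro e r p _ _ h
      apply hlt
      have h1 : (mon T (-hE A W + tE W e) : K) * xU p = xU r := by
        rw [mon_add]
        push_cast
        rw [← hh, mon_tE]
        exact h.symm
      have h2 := xeq p r _ h1
      rw [lev_add, lev_neg, lev_hE, lev_tE] at h2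
      omega
    · intro w p _ h
      have h1 : mon T (aE A w) = mon T (-hE A W + gU p) := by
        apply Units.ext
        rw [mon_add]
        push_cast
        rw [← hh, mon_aE]
        exact h
      have h2 := congrArg lev (mon_inj hT h1)
      rw [lev_add, lev_neg, lev_hE, lev_aE] at h2
      have := hg0' p
      omega
    · intro p R
      obtain ⟨n, hn⟩ := hfresh (cU p) ⟨gU p, hg0' p⟩ R
      exact ⟨_, hn, rfl, rfl⟩
    · intro e r _
      refine ⟨⟨Sum.inr ((QQ Γ T).tgt e, ⟨gU r + -tE W e, ?_⟩, 0)⟩, rfl, ?_⟩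
      · rw [lev_add, lev_neg, lev_tE]
        have := hg0' r
        omega
      · show (T.τ e : K) * (mon T (gU r + -tE W e) : K) = (mon T (gU r) : K)
        rw [← mon_tE T e, ← Units.val_mul, ← mon_add]
        congr 2
        abel
    · intro e p _
      refine ⟨⟨Sum.inr ((QQ Γ T).src e, ⟨(-hE A W + tE W e) + gU p, ?_⟩, 0)⟩, rfl, ?_⟩
      · rw [lev_add, lev_add, lev_neg, lev_tE, lev_hE]
        have := hg0' p
        omega
      · show (mon T ((-hE A W + tE W e) + gU p) : K) = (T.hb : K)⁻¹ * (T.τ e : K) * _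
        rw [mon_add, mon_add]
        push_cast
        rw [← hh, mon_tE]
    · intro w
      refine ⟨⟨Sum.inr ((QQ Γ T).cF w, ⟨aE A w, ?_⟩, 0)⟩, rfl, ?_⟩
      · rw [lev_aE]
      · show (mon T (aE A w) : K) = (T.a w : K)
        rw [mon_aE]
  · constructor
    · exact gsS hT
    · exact ⟨-hE A W, hh⟩
    · intro e
      exact ⟨tE W e, by rw [mon_tE]; rfl⟩
    · intro w
      exact ⟨aE A w, by rw [mon_aE]; rfl⟩
    · intro z
      exact ⟨gU z, rfl⟩
  · show (mon T (gP r) : K) = x r
    rw [hg r]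

lemma sepQ (Γ : FQuiver V A W) (hl : ∀ e, Γ.tail e ≠ Γ.head e) (T : Par K A W)
    (hT : Independent T) : Sep (QQ Γ T) (T.hb : K)⁻¹ where
  hl := hl
  te0 e := (T.τ e).ne_zero
  t0 := inv_ne_zero T.hb.ne_zero
  tt k hk h := by
    have h1 : mon T ((-(k : ℤ)) • hE A W) = 1 := by
      apply Units.ext
      have h2 : mon T ((-(k : ℤ)) • hE A W) = T.hb ^ (-(k : ℤ)) := by
        unfold mon hE; simp
      rw [h2]
      push_cast
      rw [zpow_neg, zpow_natCast, ← inv_pow]
      exact h
    have h3 := congrArg Prod.fst (mon_one hT h1)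
    unfold hE at h3
    simp at h3
    omega
  ee e e' _ _ h := by
    have h1 : mon T (tE W e) = mon T (tE W e') := by
      rw [mon_tE, mon_tE]; exact Units.ext h
    have h2 := congrArg (fun g : Wx A W => g.2.1 e) (mon_inj hT h1)
    simp only [tE, Pi.single_eq_same] at h2
    by_contra hne
    rw [Pi.single_eq_of_ne hne] at h2
    exact one_ne_zero h2
  eo e e' _ _ h := by
    have h1 : mon T (-hE A W + tE W e + tE W e') = 1 := by
      apply Units.ext
      rw [mon_add, mon_add, mon_neg, mon_hE, mon_tE, mon_tE]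
      push_cast
      exact h
    have h2 := congrArg Prod.fst (mon_one hT h1)
    simp [hE, tE] at h2
  ff f f' _ h := by
    have h1 : mon T (aE A f) = mon T (aE A f') := by
      rw [mon_aE, mon_aE]; exact Units.ext h
    have h2 := congrArg (fun g : Wx A W => g.2.2 f) (mon_inj hT h1)
    simp only [aE, Pi.single_eq_same] at h2
    by_contra hne
    rw [Pi.single_eq_of_ne hne] at h2
    exact one_ne_zero h2

end Pool.Agent.Run7.h657.Res
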