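import Pool.Agent.Run7.h657.SH

/-! The summand for integer degrees, over a general field. -/

set_option linter.unusedSectionVars false

namespace Pool.Agent.Run7.h657.Res

open Finset Vx

section gen

variable {K V A W P : Type*} [Field K] [Fintype V] [Fintype A] [Fintype W] [Fintype P]
  [DecidableEq V] [DecidableEq A] [DecidableEq W] [DecidableEq P]

/-- numerator of the summand -/
def WtN (Γ : FQuiver V A W) (T : Par K A W) (c : P → V) (X : P → Kˣ) (δ : P → ℤ) : K :=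
  (∏ e, ∏ r, ∏ r', if c r = Γ.tail e ∧ c r' = Γ.head e then
      Qz (T.q : K)⁻¹ (T.hb : K)⁻¹ ((T.τ e : K) * X r' / X r) (δ r' - δ r) else 1) *
    ∏ f, ∏ r, if c r = Γ.fr f then
      Qz (T.q : K)⁻¹ (T.hb : K)⁻¹ ((X r : K) / T.a f) (δ r) else 1

/-- denominator of the summand -/
def WtD (T : Par K A W) (c : P → V) (X : P → Kˣ) (δ : P → ℤ) : K :=
  ∏ r, ∏ r', if c r = c r' ∧ r ≠ r' then
    Qz (T.q : K)⁻¹ (T.hb : K)⁻¹ ((X r : K) / X r') (δ r - δ r') else 1

lemma contribZ (Γ : FQuiver V A W) (T : Par K A W) (c : P → V) (X : P → Kˣ) (δ : P → ℤ) :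
    contrib Γ T c X δ =
      (-(T.h : K)) ^ degPol Γ c δ * (WtN Γ T c X δ / WtD T c X δ) := by
  have hs := T.s.ne_zero
  have hh := T.h.ne_zero
  have hk : -((T.h : K) / T.s) ≠ 0 := neg_ne_zero.2 (div_ne_zero hh hs)
  unfold contrib WtN
  have e1 : (∏ e, ∏ r, ∏ r', if c r = Γ.tail e ∧ c r' = Γ.head e then
      br T (T.τ e * X r' / X r) (δ r' - δ r) else 1) =
      (∏ e, ∏ r, ∏ r', if c r = Γ.tail e ∧ c r' = Γ.head e then
      Qz (T.q : K)⁻¹ (T.hb : K)⁻¹ ((T.τ e : K) * X r' / X r) (δ r' - δ r) else 1) *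
      (-((T.h : K) / T.s)) ^ (∑ e, ∑ r, ∑ r', if c r = Γ.tail e ∧ c r' = Γ.head e then
        δ r' - δ r else 0) := by
    rw [← zprod' hk, ← prod_mul_distrib]
    apply prod_congr rfl; intro e _
    rw [← zprod' hk, ← prod_mul_distrib]
    apply prod_congr rfl; intro r _
    rw [← zprod' hk, ← prod_mul_distrib]
    apply prod_congr rfl; intro r' _
    split_ifs with h
    · rw [br_eq, Units.val_div_eq_div_val, Units.val_mul]
    · simp
  have e2 : (∏ f, ∏ r, if c r = Γ.fr f then br T (X r / T.a f) (δ r) else 1) =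
      (∏ f, ∏ r, if c r = Γ.fr f then
        Qz (T.q : K)⁻¹ (T.hb : K)⁻¹ ((X r : K) / T.a f) (δ r) else 1) *
      (-((T.h : K) / T.s)) ^ (∑ f, ∑ r, if c r = Γ.fr f then δ r else 0) := by
    rw [← zprod' hk, ← prod_mul_distrib]
    apply prod_congr rfl; intro f _
    rw [← zprod' hk, ← prod_mul_distrib]
    apply prod_congr rfl; intro r _
    split_ifs with h
    · rw [br_eq, Units.val_div_eq_div_val]
    · simp
  have e3 : (∏ r, ∏ r', if c r = c r' then br T (X r' / X r) (δ r' - δ r) else 1) =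
      WtD T c X δ *
      (-((T.h : K) / T.s)) ^ (∑ r, ∑ r', if c r = c r' then δ r' - δ r else 0) := by
    unfold WtD
    rw [prod_comm (f := fun r r' => if c r = c r' ∧ r ≠ r' then
        Qz (T.q : K)⁻¹ (T.hb : K)⁻¹ ((X r : K) / X r') (δ r - δ r') else 1)]
    rw [← zprod' hk, ← prod_mul_distrib]
    apply prod_congr rfl; intro r _
    rw [← zprod' hk, ← prod_mul_distrib]
    apply prod_congr rfl; intro r' _
    by_cases h : c r = c r'
    · rw [if_pos h, if_pos h, br_eq, Units.val_div_eq_div_val]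
      by_cases hr : r = r'
      · subst hr
        simp
      · rw [if_pos ⟨h.symm, fun h' => hr h'.symm⟩]
    · rw [if_neg h, if_neg h, if_neg (fun h' => h h'.1.symm)]
      simp
  rw [e1, e2, e3]
  set a1 := (∑ e, ∑ r, ∑ r', if c r = Γ.tail e ∧ c r' = Γ.head e then
        δ r' - δ r else 0) with ha1
  set a2 := (∑ f, ∑ r, if c r = Γ.fr f then δ r else 0) with ha2
  set a3 := (∑ r, ∑ r', if c r = c r' then δ r' - δ r else 0) with ha3
  have hdeg : degPol Γ c δ = a1 + a2 - a3 := rfl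
  rw [hdeg]
  have e4 : ∀ m : ℤ, (-(T.h : K)) ^ m = (T.s : K) ^ m * (-((T.h : K) / T.s)) ^ m := by
    intro m
    rw [← mul_zpow]
    congr 1
    field_simp
  rw [e4, zpow_sub₀ hk, zpow_add₀ hk]
  have key : ∀ E1 E2 D b1 b2 b3 S : K, S * ((E1 * b1) * (E2 * b2) / (D * b3)) =
      S * (b1 * b2 / b3) * ((E1 * E2) / D) := by
    intro E1 E2 D b1 b2 b3 S
    simp only [div_eq_mul_inv, mul_inv]
    ring
  exact key _ _ _ _ _ _ _

lemma Qz_map {G G' : Type*} [Field G] [Field G'] (f : G →+* G') (p t w : G) (d : ℤ) :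
    f (Qz p t w d) = Qz (f p) (f t) (f w) d := by
  obtain ⟨n, rfl | rfl⟩ := Int.eq_nat_or_neg d
  · rw [Qz_nat, Qz_nat, ph_map]
  · rw [Qz_neg, Qz_neg, map_inv₀, ph_map, map_mul, map_inv₀, map_pow]

end gen

end Pool.Agent.Run7.h657.Res
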