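import Pool.Agent.Run7.h657.SI

/-! The residue series in terms of the general theory. -/

set_option linter.unusedSectionVars false

namespace Pool.Agent.Run7.h657.Res

open Finset Vx

section prods

variable {X Y Z L : Type*} [Fintype X] [Fintype Y] [Fintype Z] [Field L]

lemma ite_mul_inv (C : Prop) [Decidable C] (a b : L) :
    (if C then a * b⁻¹ else 1) = (if C then a else 1) * (if C then b else 1)⁻¹ := by
  split_ifs <;> simp

lemma prod2_mul_inv (C : X → Y → Prop) [∀ x y, Decidable (C x y)] (a b : X → Y → L) :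
    ∏ x, ∏ y, (if C x y then a x y * (b x y)⁻¹ else 1) =
      (∏ x, ∏ y, if C x y then a x y else 1) * (∏ x, ∏ y, if C x y then b x y else 1)⁻¹ := by
  rw [← prod_inv_distrib, ← prod_mul_distrib]
  apply prod_congr rfl
  intro x _
  rw [← prod_inv_distrib, ← prod_mul_distrib]
  apply prod_congr rfl
  intro y _
  exact ite_mul_inv _ _ _

lemma prod3_mul_inv (C : X → Y → Z → Prop) [∀ x y z, Decidable (C x y z)] (a b : X → Y → Z → L) :
    ∏ x, ∏ y, ∏ z, (if C x y z then a x y z * (b x y z)⁻¹ else 1) =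
      (∏ x, ∏ y, ∏ z, if C x y z then a x y z else 1) *
        (∏ x, ∏ y, ∏ z, if C x y z then b x y z else 1)⁻¹ := by
  rw [← prod_inv_distrib, ← prod_mul_distrib]
  apply prod_congr rfl
  intro x _
  exact prod2_mul_inv _ _ _

end prods

lemma fldw {G : Type*} [Field G] (a b c d e : G) :
    a * (b * c) / (d * e) = a * b / d * c / e := by
  simp only [div_eq_mul_inv, mul_inv]; ring

lemma fldw2 {G : Type*} [Field G] (b c d e : G) :
    b * c / (d * e) = b / d * c / e := by
  simp only [div_eq_mul_inv, mul_inv]; ring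

lemma fld_main {G : Type*} [Field G] (U N1 N2 D1 D2 g q d : G) :
    (N1 * D1⁻¹) * (N2 * D2⁻¹) * (g * q⁻¹) * U * d =
      U * (g / (D1 * D2)) * (d * (N1 * N2 / q)) := by
  simp only [div_eq_mul_inv, mul_inv]; ring

variable {K V A W P ι : Type*} [Field K] [Fintype V] [Fintype A] [Fintype W] [Fintype P]
  [DecidableEq V] [DecidableEq A] [DecidableEq W] [LinearOrder P] [LinearOrder ι] [DecidableEq K]

variable {Γ : FQuiver V A W} {T : Par K A W} {f : P ↪o ι} {c : P → V} {x : P → Kˣ} {cι : ι → V}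
  {xι : ι → K} {S : Set K}

/-- the letters of the basis -/
def Rf (f : P ↪o ι) : Finset ι := univ.map f.toEmbedding

lemma TT_map {M : Type*} [CommMonoid M] {I E F : Type*} [Fintype I] [Fintype E] [Fintype F]
    [DecidableEq I] (Q : QD K I E F) {c : P → I} {cι : ι → I} (hc : ∀ r, cι (f r) = c r)
    (G : E → ι → ι → M) (Gf : F → ι → M) :
    TT Q cι (Rf f) G Gf =
      (∏ e, ∏ r, ∏ r', if c r = Q.src e ∧ c r' = Q.tgt e then G e (f r) (f r') else 1) *
        ∏ w, ∏ r, if c r = Q.cF w then Gf w (f r) else 1 := by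
  unfold TT Rf
  congr 1
  · apply prod_congr rfl
    intro e _
    rw [prod_map]
    apply prod_congr rfl
    intro r _
    rw [prod_map]
    apply prod_congr rfl
    intro r' _
    show (if cι (f r) = _ ∧ cι (f r') = _ then G e (f r) (f r') else 1) = _
    rw [hc, hc]
  · apply prod_congr rfl
    intro e _
    rw [prod_map]
    apply prod_congr rfl
    intro r _
    show (if cι (f r) = _ then Gf e (f r) else 1) = _
    rw [hc]

lemma TT_mul {M : Type*} [CommMonoid M] {I E F : Type*} [Fintype I] [Fintype E] [Fintype F]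
    [DecidableEq I] (Q : QD K I E F) (cι : ι → I) (R : Finset ι)
    (G G' : E → ι → ι → M) (Gf Gf' : F → ι → M) :
    TT Q cι R G Gf * TT Q cι R G' Gf' =
      TT Q cι R (fun e r p => G e r p * G' e r p) (fun w r => Gf w r * Gf' w r) := by
  unfold TT
  rw [mul_mul_mul_comm, ← prod_mul_distrib, ← prod_mul_distrib]
  congr 1
  · apply prod_congr rfl; intro e _
    rw [← prod_mul_distrib]
    apply prod_congr rfl; intro r _
    rw [← prod_mul_distrib]
    apply prod_congr rfl; intro p _
    split_ifs <;> simp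
  · apply prod_congr rfl; intro e _
    rw [← prod_mul_distrib]
    apply prod_congr rfl; intro r _
    split_ifs <;> simp

lemma emb_root (r : P) : emb f ((chernRoot x r : (Ser P K)ˣ) : Ser P K) =
    HahnSeries.C (x r : K) * (1 + u (f r)) := by
  unfold chernRoot
  rw [Units.val_mul, map_mul]
  congr 1
  · exact emb_C f _
  · rw [Units.val_mk0, map_add, map_one]
    congr 1
    exact emb_u f r

lemma emb_tau (e : A) : emb f (((constPar P T).τ e : (Ser P K)ˣ) : Ser P K) =
    HahnSeries.C (T.τ e : K) := emb_C f _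

lemma emb_a (w : W) : emb f (((constPar P T).a w : (Ser P K)ˣ) : Ser P K) =
    HahnSeries.C (T.a w : K) := emb_C f _

lemma emb_h : emb f (((constPar P T).h : (Ser P K)ˣ) : Ser P K) =
    HahnSeries.C (T.h : K) := emb_C f _

lemma emb_hb : emb f (((constPar P T).hb : (Ser P K)ˣ) : Ser P K) =
    HahnSeries.C (T.hb : K) := by
  unfold Par.hb
  push_cast
  rw [map_pow, emb_h, map_pow]

lemma emb_q : emb f (((constPar P T).q : (Ser P K)ˣ) : Ser P K) =
    HahnSeries.C (T.q : K) := by
  unfold Par.q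
  push_cast
  rw [map_pow, map_pow]
  congr 1
  exact emb_C f _

lemma C_inv (k : K) : (HahnSeries.C k⁻¹ : HH ι K) = (HahnSeries.C k)⁻¹ :=
  map_inv₀ (HahnSeries.C : K →+* HH ι K) k

/-- weight of a pair -/
lemma emb_w1 (e : A) (r r' : P) :
    emb f (((constPar P T).τ e : Ser P K) * (chernRoot x r' : Ser P K) /
      (chernRoot x r : Ser P K)) =
      wv ((T.τ e : K) * x r' / x r) (u (f r')) (u (f r)) := by
  rw [map_div₀, map_mul, emb_tau, emb_root, emb_root]
  unfold wv
  rw [C_div, map_mul]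
  exact fldw _ _ _ _ _

lemma emb_w2 (w : W) (r : P) :
    emb f ((chernRoot x r : Ser P K) / ((constPar P T).a w : Ser P K)) =
      wv ((x r : K) / T.a w) (u (f r)) 0 := by
  rw [map_div₀, emb_a, emb_root]
  unfold wv
  rw [C_div, add_zero, div_one]
  simp only [div_eq_mul_inv]
  ring

lemma emb_w3 (r r' : P) :
    emb f ((chernRoot x r : Ser P K) / (chernRoot x r' : Ser P K)) =
      wv ((x r : K) / x r') (u (f r)) (u (f r')) := by
  rw [map_div₀, emb_root, emb_root]
  unfold wv
  rw [C_div]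
  exact fldw2 _ _ _ _

lemma emb_euler (w : (Ser P K)ˣ) : emb f (euler (constPar P T) w) =
    mu (HahnSeries.C (T.hb : K)⁻¹) (emb f (w : Ser P K)) := by
  unfold euler mu
  rw [map_mul, map_sub, map_sub, map_one, map_div₀, emb_hb, C_inv]
  congr 2
  have h : (HahnSeries.C (T.hb : K) : HH ι K) ≠ 0 := C_ne T.hb.ne_zero
  have h2 : emb f (w : Ser P K) ≠ 0 := by
    rw [Ne, map_eq_zero]
    exact w.ne_zero
  field_simp

lemma emb_Qz (w : Ser P K) (d : ℤ) :
    emb f (Qz (((constPar P T).q : Ser P K))⁻¹ (((constPar P T).hb : Ser P K))⁻¹ w d) =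
      Qz (HahnSeries.C (T.q : K)⁻¹) (HahnSeries.C (T.hb : K)⁻¹) (emb f w) d := by
  rw [Qz_map, map_inv₀, map_inv₀, emb_q, emb_hb, C_inv, C_inv]

/-- the matter part -/
noncomputable def MT (Γ : FQuiver V A W) (f : P ↪o ι) (c : P → V) (a : HH ι K → ℤ → HH ι K)
    (T : Par K A W) (x : P → Kˣ) (δ : P → ℤ) : HH ι K :=
  (∏ e, ∏ r, ∏ r', if c r = Γ.tail e ∧ c r' = Γ.head e then
      a (wv ((T.τ e : K) * x r' / x r) (u (f r')) (u (f r))) (δ r' - δ r) else 1) *
    ∏ w, ∏ r, if c r = Γ.fr w then a (wv ((x r : K) / T.a w) (u (f r)) 0) (δ r) else 1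

/-- the gauge part -/
noncomputable def GT (f : P ↪o ι) (c : P → V) (a : HH ι K → ℤ → HH ι K)
    (x : P → Kˣ) (δ : P → ℤ) : HH ι K :=
  ∏ r, ∏ r', if c r = c r' ∧ r ≠ r' then
    a (wv ((x r : K) / x r') (u (f r)) (u (f r'))) (δ r - δ r') else 1

lemma emb_WtN (δ : P → ℤ) : emb f (WtN Γ (constPar P T) c (chernRoot x) δ) =
    MT Γ f c (fun w d => Qz (HahnSeries.C (T.q : K)⁻¹) (HahnSeries.C (T.hb : K)⁻¹) w d) T x δ := by
  unfold WtN MT
  rw [map_mul, map_prod, map_prod]
  congr 1
  · apply prod_congr rfl; intro e _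
    rw [map_prod]
    apply prod_congr rfl; intro r _
    rw [map_prod]
    apply prod_congr rfl; intro r' _
    split_ifs
    · rw [emb_Qz, emb_w1]
    · exact map_one _
  · apply prod_congr rfl; intro e _
    rw [map_prod]
    apply prod_congr rfl; intro r _
    split_ifs
    · rw [emb_Qz, emb_w2]
    · exact map_one _

lemma emb_WtD (δ : P → ℤ) : emb f (WtD (constPar P T) c (chernRoot x) δ) =
    GT f c (fun w d => Qz (HahnSeries.C (T.q : K)⁻¹) (HahnSeries.C (T.hb : K)⁻¹) w d) x δ := by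
  unfold WtD GT
  rw [map_prod]
  apply prod_congr rfl; intro r _
  rw [map_prod]
  apply prod_congr rfl; intro r' _
  split_ifs
  · rw [emb_Qz, emb_w3]
  · exact map_one _

lemma emb_matter (δ : P → ℤ) : emb f (eulerMatter Γ (constPar P T) c (chernRoot x)) =
    MT Γ f c (fun w _ => mu (HahnSeries.C (T.hb : K)⁻¹) w) T x δ := by
  unfold eulerMatter MT
  rw [map_mul, map_prod, map_prod]
  congr 1
  · apply prod_congr rfl; intro e _
    rw [map_prod]
    apply prod_congr rfl; intro r _
    rw [map_prod]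
    apply prod_congr rfl; intro r' _
    split_ifs
    · rw [emb_euler, Units.val_div_eq_div_val, Units.val_mul, emb_w1]
    · exact map_one _
  · apply prod_congr rfl; intro e _
    rw [map_prod]
    apply prod_congr rfl; intro r _
    split_ifs
    · rw [emb_euler, Units.val_div_eq_div_val, emb_w2]
    · exact map_one _

lemma emb_gauge (δ : P → ℤ) : emb f (eulerGauge (constPar P T) c (chernRoot x)) =
    GT f c (fun w _ => mu (HahnSeries.C (T.hb : K)⁻¹) w) x δ := by
  unfold eulerGauge GT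
  rw [map_prod, prod_comm (f := fun r r' => if c r = c r' ∧ r ≠ r' then
    mu (HahnSeries.C (T.hb : K)⁻¹) (wv ((x r : K) / x r') (u (f r)) (u (f r'))) else 1)]
  apply prod_congr rfl; intro r _
  rw [map_prod]
  apply prod_congr rfl; intro r' _
  by_cases h : c r = c r' ∧ r ≠ r'
  · rw [if_pos h, if_pos ⟨h.1.symm, h.2.symm⟩, emb_euler, Units.val_div_eq_div_val, emb_w3]
  · rw [if_neg h, if_neg (fun h' => h ⟨h'.1.symm, h'.2.symm⟩)]
    exact map_one _

/-- the image of the integrand -/
lemma emb_integrand (δ : P → ℤ) : emb f (integrand Γ T c x δ) =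
    (∏ r, (1 + u (f r) : HH ι K)⁻¹) *
    (GT f c (fun w _ => mu (HahnSeries.C (T.hb : K)⁻¹) w) x δ /
      MT Γ f c (fun w _ => mu (HahnSeries.C (T.hb : K)⁻¹) w) T x δ) *
    ((-HahnSeries.C (T.h : K)) ^ degPol Γ c δ *
      (MT Γ f c (fun w d => Qz (HahnSeries.C (T.q : K)⁻¹) (HahnSeries.C (T.hb : K)⁻¹) w d) T x δ /
        GT f c (fun w d => Qz (HahnSeries.C (T.q : K)⁻¹) (HahnSeries.C (T.hb : K)⁻¹) w d) x δ)) := by
  unfold integrand
  rw [contribZ, map_mul, map_mul, map_mul, map_div₀, map_div₀, emb_matter δ, emb_gauge δ,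
    emb_WtN, emb_WtD, map_zpow₀, map_neg, emb_h, map_prod]
  congr 2
  apply prod_congr rfl
  intro r _
  rw [map_inv₀, map_add, map_one]
  congr 2
  exact emb_u f r

end Pool.Agent.Run7.h657.Res
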