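import Pool.Agent.Run7.h657.SJ

/-! The residue series in terms of the general theory, second part. -/

set_option linter.unusedSectionVars false

namespace Pool.Agent.Run7.h657.Res

open Finset Vx

section pairs

variable {ι K I E F : Type*} [LinearOrder ι] [Field K] [Fintype I] [Fintype E] [Fintype F]
  [DecidableEq I] [DecidableEq E] [DecidableEq F] [DecidableEq K]
  {Q : QD K I E F} {p t : K} {c : ι → I} {x : ι → K} {S : Set K}

lemma one_add_u (r : ι) : (1 + u r : HH ι K) ≠ 0 := Sb.u.ne r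

lemma fe_pg (hs : Sep Q t) (hL : LS Q t c x) (δ : ι → ℤ) {e : E} {r q : ι}
    (hr : c r = Q.src e) (hq : c q = Q.tgt e) :
    fe Q p t x δ (fun q => u q) e r q * pg Q t x e r q =
      Qz (HahnSeries.C p) (HahnSeries.C t) (wv (Q.te e * x q / x r) (u q) (u r)) (δ q - δ r) *
        (mu (HahnSeries.C t) (wv (Q.te e * x q / x r) (u q) (u r)))⁻¹ := by
  have hx := hL.x0 r
  have hne : (u q : HH ι K) ≠ u r := by
    intro h
    have := u_injective h
    subst this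
    exact hs.hl e (hr.symm.trans hq)
  have h1 : Q.te e * x q / x r = 1 ↔ Q.te e * x q = x r := div_eq_one_iff_eq hx
  have h2 : t * (Q.te e * x q / x r) = 1 ↔ x r = t * Q.te e * x q := by
    rw [← mul_div_assoc, div_eq_one_iff_eq hx, mul_assoc]
    exact eq_comm
  have h3 := mr_pole (t := t) (ρ := Q.te e * x q / x r) (z1 := (u q : HH ι K)) (z2 := u r)
    (fun _ => hne) (one_add_u q) (one_add_u r) hs.t1
  unfold fe pg mu
  rw [mul_assoc]
  congr 1
  rw [← h3]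
  congr 2
  · simp only [h1]
  · simp only [h2]

lemma fw_pf (hs : Sep Q t) (hL : LS Q t c x) (δ : ι → ℤ) {w : F} {r : ι}
    (hr : c r = Q.cF w) :
    fw Q p t x δ (fun q => u q) w r * pf' Q x w r =
      Qz (HahnSeries.C p) (HahnSeries.C t) (wv (x r / Q.fa w) (u r) 0) (δ r) *
        (mu (HahnSeries.C t) (wv (x r / Q.fa w) (u r) 0))⁻¹ := by
  have hf0 := hL.fa0 w
  have h1 : x r / Q.fa w = 1 ↔ Q.fa w = x r := by
    rw [div_eq_one_iff_eq hf0]; exact eq_comm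
  have h2 : ¬ t * (x r / Q.fa w) = 1 := by
    rw [← mul_div_assoc, div_eq_one_iff_eq hf0]
    exact fun h => hL.nofr w r hr h.symm
  have h3 := mr_pole (t := t) (ρ := x r / Q.fa w) (z1 := (u r : HH ι K)) (z2 := 0)
    (fun _ => u_ne r) (one_add_u r) (by simp) hs.t1
  rw [if_neg h2, mul_one] at h3
  unfold fw pf' mu
  rw [mul_assoc]
  congr 1
  rw [← h3]
  congr 1
  simp only [h1, sub_zero]

lemma wv_ne_zero {ρ : K} (h : ρ ≠ 0) (a b : ι) : (wv ρ (u a) (u b) : HH ι K) ≠ 0 :=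
  div_ne_zero (mul_ne_zero (C_ne h) (one_add_u a)) (one_add_u b)

lemma wv_ne_one {a b : ι} (hab : a ≠ b) {r r' : K} (hr : r ≠ 0) (hr' : r' ≠ 0) :
    (wv (r / r') (u a) (u b) : HH ι K) ≠ 1 := by
  intro h
  rw [wv_div, div_eq_one_iff_eq (mul_ne_zero (C_ne hr') (one_add_u b))] at h
  have h1 := (lin_inj (E := Unit) (F := Unit) hr (l := Sum.inl ((), a))
    (l' := Sum.inl ((), b)) h).2
  exact hab (u_injective h1)

lemma kk_eq (hp : p ≠ 0) (ht : t ≠ 0) (hx : ∀ r, x r ≠ 0) (δ : ι → ℤ) {a b : ι} (hab : a ≠ b) :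
    kk p t x δ (fun q => u q) a b =
      mu (HahnSeries.C t) (wv (x a / x b) (u a) (u b)) *
        (Qz (HahnSeries.C p) (HahnSeries.C t) (wv (x a / x b) (u a) (u b)) (δ a - δ b))⁻¹ := by
  unfold kk
  rw [Kz_eq (C_ne hp) (C_ne ht) (wv_ne_zero (div_ne_zero (hx a) (hx b)) a b)
    (wv_ne_one hab (hx a) (hx b)), div_eq_mul_inv]
  · rfl
  · intro h
    have h1 : HahnSeries.C t * wv (x a / x b) (u a) (u b) =
        (wv (t * x a / x b) (u a) (u b) : HH ι K) := by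
      unfold wv
      rw [mul_div_assoc t, map_mul]
      simp only [mul_assoc, mul_div_assoc]
    rw [h1] at h
    exact wv_ne_one hab (mul_ne_zero ht (hx a)) (hx b) h

end pairs

variable {K V A W P ι : Type*} [Field K] [Fintype V] [Fintype A] [Fintype W] [Fintype P]
  [DecidableEq V] [DecidableEq A] [DecidableEq W] [LinearOrder P] [LinearOrder ι] [DecidableEq K]

variable {Γ : FQuiver V A W} {T : Par K A W} {f : P ↪o ι} {c : P → V} {x : P → Kˣ} {cι : ι → V}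
  {xι : ι → K} {S : Set K}

lemma MT_mul_inv (a b : HH ι K → ℤ → HH ι K) (δ : P → ℤ) :
    MT Γ f c (fun w d => a w d * (b w d)⁻¹) T x δ = MT Γ f c a T x δ * (MT Γ f c b T x δ)⁻¹ := by
  unfold MT
  rw [mul_inv, mul_mul_mul_comm]
  congr 1
  · exact prod3_mul_inv _ _ _
  · exact prod2_mul_inv _ _ _

lemma GT_mul_inv (a b : HH ι K → ℤ → HH ι K) (δ : P → ℤ) :
    GT f c (fun w d => a w d * (b w d)⁻¹) x δ = GT f c a x δ * (GT f c b x δ)⁻¹ := by
  unfold GT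
  exact prod2_mul_inv _ _ _

lemma TT_congr {M : Type*} [CommMonoid M] {I E F : Type*} [Fintype I] [Fintype E] [Fintype F]
    [DecidableEq I] (Q : QD K I E F) (cι : ι → I) (R : Finset ι)
    (G G' : E → ι → ι → M) (Gf Gf' : F → ι → M)
    (h1 : ∀ e r p, cι r = Q.src e → cι p = Q.tgt e → G e r p = G' e r p)
    (h2 : ∀ w r, cι r = Q.cF w → Gf w r = Gf' w r) :
    TT Q cι R G Gf = TT Q cι R G' Gf' := by
  unfold TT
  congr 1
  · apply prod_congr rfl; intro e _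
    apply prod_congr rfl; intro r _
    apply prod_congr rfl; intro p _
    by_cases h : cι r = Q.src e ∧ cι p = Q.tgt e
    · rw [if_pos h, if_pos h, h1 e r p h.1 h.2]
    · rw [if_neg h, if_neg h]
  · apply prod_congr rfl; intro e _
    apply prod_congr rfl; intro r _
    by_cases h : cι r = Q.cF e
    · rw [if_pos h, if_pos h, h2 e r h]
    · rw [if_neg h, if_neg h]

/-- products over the letters as matter parts -/
lemma TT_MT (hc : ∀ r, cι (f r) = c r) (hx : ∀ r, xι (f r) = (x r : K)) (δ : P → ℤ)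
    (δ' : ι → ℤ) (hδ : ∀ r, δ' (f r) = δ r) (a : HH ι K → ℤ → HH ι K) :
    TT (QQ Γ T) cι (Rf f)
      (fun e r q => a (wv ((QQ Γ T).te e * xι q / xι r) (u q) (u r)) (δ' q - δ' r))
      (fun w r => a (wv (xι r / (QQ Γ T).fa w) (u r) 0) (δ' r)) = MT Γ f c a T x δ := by
  rw [TT_map (QQ Γ T) hc]
  unfold MT
  refine congrArg₂ (fun y z : HH ι K => y * z) ?_ ?_
  · apply prod_congr rfl; intro e _
    apply prod_congr rfl; intro r _
    apply prod_congr rfl; intro r' _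
    by_cases h : c r = Γ.tail e ∧ c r' = Γ.head e
    · rw [if_pos h]
      have h' : c r = (QQ Γ T).src e ∧ c r' = (QQ Γ T).tgt e := h
      rw [if_pos h', hx, hx, hδ, hδ]
      rfl
    · rw [if_neg h]
      have h' : ¬ (c r = (QQ Γ T).src e ∧ c r' = (QQ Γ T).tgt e) := h
      rw [if_neg h']
  · apply prod_congr rfl; intro e _
    apply prod_congr rfl; intro r _
    by_cases h : c r = Γ.fr e
    · rw [if_pos h]
      have h' : c r = (QQ Γ T).cF e := h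
      rw [if_pos h', hx, hδ]
      rfl
    · rw [if_neg h]
      have h' : ¬ c r = (QQ Γ T).cF e := h
      rw [if_neg h']

/-- products over pairs of letters as gauge parts -/
lemma KK_GT (hc : ∀ r, cι (f r) = c r) (hx : ∀ r, xι (f r) = (x r : K)) (δ : P → ℤ)
    (δ' : ι → ℤ) (hδ : ∀ r, δ' (f r) = δ r) (a : HH ι K → ℤ → HH ι K)
    (g : ι → ι → HH ι K)
    (hg : ∀ r r', r ≠ r' → g r r' = a (wv (xι r / xι r') (u r) (u r')) (δ' r - δ' r')) :
    (∏ r ∈ Rf f, ∏ r' ∈ Rf f, if cι r = cι r' ∧ r ≠ r' then g r r' else 1) =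
      GT f c a x δ := by
  unfold GT Rf
  rw [prod_map]
  apply prod_congr rfl; intro r _
  rw [prod_map]
  apply prod_congr rfl; intro r' _
  by_cases h : c r = c r' ∧ r ≠ r'
  · have h' : cι (f r) = cι (f r') ∧ f r ≠ f r' :=
      ⟨by rw [hc, hc]; exact h.1, fun h'' => h.2 (f.injective h'')⟩
    rw [if_pos h]
    show (if cι (f r) = cι (f r') ∧ f r ≠ f r' then g (f r) (f r') else 1) = _
    rw [if_pos h', hg _ _ h'.2, hx, hx, hδ, hδ]
  · have h' : ¬ (cι (f r) = cι (f r') ∧ f r ≠ f r') := by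
      rintro ⟨h1, h2⟩
      rw [hc, hc] at h1
      exact h ⟨h1, fun h'' => h2 (by rw [h''])⟩
    rw [if_neg h]
    show (if cι (f r) = cι (f r') ∧ f r ≠ f r' then g (f r) (f r') else 1) = _
    rw [if_neg h']

lemma fld_e0 {G : Type*} [Field G] {a b c d a' b' c' : G} (h1 : a * d = a') (h2 : b = b')
    (h3 : c = c') : a * b * c * d = a' * b' * c' := by
  rw [← h1, ← h2, ← h3]; ring


/-- the `q`-factor -/
noncomputable def aQ (ι : Type*) [LinearOrder ι] (T : Par K A W) (w : HH ι K) (d : ℤ) : HH ι K :=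
  Qz (HahnSeries.C (T.q : K)⁻¹) (HahnSeries.C (T.hb : K)⁻¹) w d

/-- the measure factor -/
noncomputable def aM (ι : Type*) [LinearOrder ι] (T : Par K A W) (w : HH ι K) (_ : ℤ) : HH ι K :=
  mu (HahnSeries.C (T.hb : K)⁻¹) w

/-- the integrand of the general theory -/
lemma UU_PiR0 (hs : Sep (QQ Γ T) (T.hb : K)⁻¹) (hL : LS (QQ Γ T) (T.hb : K)⁻¹ cι xι)
    (hc : ∀ r, cι (f r) = c r) (hx : ∀ r, xι (f r) = (x r : K)) (δ : P → ℤ) (δ' : ι → ℤ)
    (hδ : ∀ r, δ' (f r) = δ r) :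
    UU (QQ Γ T) (T.q : K)⁻¹ (T.hb : K)⁻¹ cι xι (Rf f) δ' (fun q => u q) *
      PiR (QQ Γ T) (T.hb : K)⁻¹ cι xι (Rf f) =
    MT Γ f c (fun w d => aQ ι T w d * (aM ι T w d)⁻¹) T x δ *
    GT f c (fun w d => aM ι T w d * (aQ ι T w d)⁻¹) x δ *
      ∏ r, (1 + u (f r) : HH ι K)⁻¹ := by
  unfold UU PiR
  refine fld_e0 ?_ ?_ ?_
  · rw [TT_mul, ← TT_MT hc hx δ δ' hδ]
    apply TT_congr
    · intro e r q hr hq
      exact fe_pg hs hL δ' hr hq
    · intro w r hr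
      exact fw_pf hs hL δ' hr
  · refine KK_GT hc hx δ δ' hδ _ _ ?_
    intro r r' hne
    exact kk_eq (inv_ne_zero T.q.ne_zero) (inv_ne_zero T.hb.ne_zero) hL.x0 δ' hne
  · unfold Rf
    rw [prod_map]
    rfl

lemma UU_PiR (hs : Sep (QQ Γ T) (T.hb : K)⁻¹) (hL : LS (QQ Γ T) (T.hb : K)⁻¹ cι xι)
    (hc : ∀ r, cι (f r) = c r) (hx : ∀ r, xι (f r) = (x r : K)) (δ : P → ℤ) (δ' : ι → ℤ)
    (hδ : ∀ r, δ' (f r) = δ r) :
    UU (QQ Γ T) (T.q : K)⁻¹ (T.hb : K)⁻¹ cι xι (Rf f) δ' (fun q => u q) *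
      PiR (QQ Γ T) (T.hb : K)⁻¹ cι xι (Rf f) =
    (MT Γ f c (aQ ι T) T x δ * (MT Γ f c (aM ι T) T x δ)⁻¹) *
    (GT f c (aM ι T) x δ * (GT f c (aQ ι T) x δ)⁻¹) *
      ∏ r, (1 + u (f r) : HH ι K)⁻¹ := by
  rw [UU_PiR0 hs hL hc hx δ δ' hδ, MT_mul_inv, GT_mul_inv]

lemma fld_fin {G : Type*} [Field G] (U N D g q d : G) :
    U * (g / D) * (d * (N / q)) = d * (N * D⁻¹ * (g * q⁻¹) * U) := by
  simp only [div_eq_mul_inv]; ring

/-- the image of the integrand -/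
lemma emb_integrand' (hs : Sep (QQ Γ T) (T.hb : K)⁻¹) (hL : LS (QQ Γ T) (T.hb : K)⁻¹ cι xι)
    (hc : ∀ r, cι (f r) = c r) (hx : ∀ r, xι (f r) = (x r : K)) (δ : P → ℤ) (δ' : ι → ℤ)
    (hδ : ∀ r, δ' (f r) = δ r) :
    emb f (integrand Γ T c x δ) = HahnSeries.C ((-(T.h : K)) ^ degPol Γ c δ) *
      (UU (QQ Γ T) (T.q : K)⁻¹ (T.hb : K)⁻¹ cι xι (Rf f) δ' (fun q => u q) *
      PiR (QQ Γ T) (T.hb : K)⁻¹ cι xι (Rf f)) := by
  rw [emb_integrand, UU_PiR hs hL hc hx δ δ' hδ, C_zpow, map_neg]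
  exact fld_fin _ _ _ _ _ _

lemma mo_univ : (mo (univ : Finset P)) =
    toLex (Finsupp.equivFunOnFinite.symm fun _ => (-1 : ℤ)) := by
  apply ofLex.injective
  ext r
  have h := ev_mo r (univ : Finset P)
  rw [if_pos (mem_univ r)] at h
  exact h

/-- the iterated residue of the integrand -/
theorem iterRes_eq (hs : Sep (QQ Γ T) (T.hb : K)⁻¹) (hL : LS (QQ Γ T) (T.hb : K)⁻¹ cι xι)
    (hc : ∀ r, cι (f r) = c r) (hx : ∀ r, xι (f r) = (x r : K)) (δ : P → ℤ) (δ' : ι → ℤ)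
    (hδ : ∀ r, δ' (f r) = δ r) :
    iterRes (integrand Γ T c x δ) = (-(T.h : K)) ^ degPol Γ c δ *
      JU (QQ Γ T) (T.q : K)⁻¹ (T.hb : K)⁻¹ cι xι (Rf f) δ' := by
  have h1 : iterRes (integrand Γ T c x δ) = cf univ (integrand Γ T c x δ) := by
    unfold iterRes cf
    rw [mo_univ]
  rw [h1, ← cf_emb f, emb_integrand' hs hL hc hx δ δ' hδ, cf_C]
  rfl

end Pool.Agent.Run7.h657.Res
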