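import Pool.Agent.Run7.h657.SK

/-! The residue series is the normalised series. -/

set_option linter.unusedSectionVars false

namespace Pool.Agent.Run7.h657.Res

open Finset Vx

variable {K V A W P ι : Type*} [Field K] [Fintype V] [Fintype A] [Fintype W] [Fintype P]
  [DecidableEq V] [DecidableEq A] [DecidableEq W] [LinearOrder P] [LinearOrder ι] [DecidableEq K]

variable {Γ : FQuiver V A W} {T : Par K A W} {f : P ↪o ι} {c : P → V} {x : P → Kˣ} {cι : ι → V}
  {xι : ι → K} {S : Set K}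

/-- the basis as letters -/
noncomputable def eqR (f : P ↪o ι) : P ≃ ↥(Rf f) where
  toFun r := ⟨f r, mem_map.2 ⟨r, mem_univ r, rfl⟩⟩
  invFun q := (mem_map.1 q.2).choose
  left_inv r := by
    have h := (mem_map.1 (⟨f r, mem_map.2 ⟨r, mem_univ r, rfl⟩⟩ : ↥(Rf f)).2).choose_spec
    exact f.injective h.2
  right_inv q := Subtype.ext (mem_map.1 q.2).choose_spec.2

/-- degrees of the letters -/
noncomputable def exf (f : P ↪o ι) (δ : P → ℤ) : ι → ℤ := Function.extend f δ 0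

lemma exf_apply (δ : P → ℤ) (r : P) : exf f δ (f r) = δ r := f.injective.extend_apply _ _ _

lemma VJ_P (hc : ∀ r, cι (f r) = c r) (Q : QD K V A W) (p t : K) (d : V → ℕ) :
    VJ Q p t cι xι (Rf f) d = ∑ δ ∈ DS c d, JU Q p t cι xι (Rf f) (exf f fun r => (δ r : ℤ)) := by
  unfold VJ
  have hcc : (fun r : ↥(Rf f) => cι r.1) ∘ eqR f = c := by
    funext r
    exact hc r
  refine sum_nbij' (fun (δ : ↥(Rf f) → ℕ) => (δ ∘ eqR f : P → ℕ))
    (fun (δ : P → ℕ) => (δ ∘ (eqR f).symm : ↥(Rf f) → ℕ)) ?_ ?_ ?_ ?_ ?_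
  · intro δ hδ
    have := (DS_equiv (fun r : ↥(Rf f) => cι r.1) (eqR f) d δ).2 hδ
    rwa [hcc] at this
  · intro δ hδ
    rw [← DS_equiv (fun r : ↥(Rf f) => cι r.1) (eqR f) d, hcc]
    have : (δ ∘ (eqR f).symm) ∘ eqR f = δ := by
      funext r
      simp
    rw [this]
    exact hδ
  · intro δ _
    funext r
    simp
  · intro δ _
    funext r
    simp
  · intro δ _
    apply JU_congr
    intro q hq
    obtain ⟨r, _, rfl⟩ := mem_map.1 hq
    rw [exd_mem δ hq]
    show ((δ ⟨f r, hq⟩ : ℕ) : ℤ) = exf f _ (f r)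
    rw [exf_apply]
    rfl

lemma VJ_zero {I E F : Type*} [Fintype I] [Fintype E] [Fintype F] [DecidableEq I]
    [DecidableEq E] [DecidableEq F] (Q : QD K I E F) (p t : K) (c : ι → I) (x : ι → K)
    (R : Finset ι) : VJ Q p t c x R (fun _ => 0) = JU Q p t c x R (fun _ => 0) := by
  unfold VJ
  have h : DS (fun r : R => c r.1) (fun _ => 0) = {fun _ => 0} := by
    ext δ
    rw [mem_DS, mem_singleton]
    constructor
    · intro h
      funext r
      have h1 := h (c r.1)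
      rw [sum_eq_zero_iff] at h1
      exact h1 r (by simp)
    · rintro rfl j
      simp
  rw [h, sum_singleton]
  apply JU_congr
  intro q hq
  rw [exd_mem _ hq]
  rfl

/-- the residue series -/
theorem resVertex_eq (hs : Sep (QQ Γ T) (T.hb : K)⁻¹) (hL : LS (QQ Γ T) (T.hb : K)⁻¹ cι xι)
    (hq : Gq (QQ Γ T) (T.q : K)⁻¹ (T.hb : K)⁻¹ xι S)
    (hc : ∀ r, cι (f r) = c r) (hx : ∀ r, xι (f r) = (x r : K)) :
    resVertex Γ T c x = VN (QQ Γ T) (T.q : K)⁻¹ (T.hb : K)⁻¹ cι xι (Rf f) ∧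
    iterRes (integrand Γ T c x 0) =
      VJ (QQ Γ T) (T.q : K)⁻¹ (T.hb : K)⁻¹ cι xι (Rf f) (fun _ => 0) := by
  classical
  have hh := T.h.ne_zero
  have hI : ∀ δ : P → ℤ, iterRes (integrand Γ T c x δ) = (-(T.h : K)) ^ degPol Γ c δ *
      JU (QQ Γ T) (T.q : K)⁻¹ (T.hb : K)⁻¹ cι xι (Rf f) (exf f δ) := fun δ =>
    iterRes_eq hs hL hc hx δ (exf f δ) (exf_apply δ)
  have h0 : iterRes (integrand Γ T c x 0) =
      VJ (QQ Γ T) (T.q : K)⁻¹ (T.hb : K)⁻¹ cι xι (Rf f) (fun _ => 0) := by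
    rw [VJ_zero, hI 0]
    have hd : degPol Γ c (0 : P → ℤ) = 0 := by
      unfold degPol
      simp
    rw [hd, zpow_zero, one_mul]
    apply JU_congr
    intro q hq'
    obtain ⟨r, _, rfl⟩ := mem_map.1 hq'
    exact exf_apply _ r
  refine ⟨?_, h0⟩
  ext d
  rw [coeff_VN]
  show (-(T.h : K)⁻¹) ^ (∑ i, av Γ c i * (d i : ℤ)) *
    (∑ᶠ δ ∈ {δ : P → ℤ | ∀ i, ∑ r with c r = i, δ r = d i}, iterRes (integrand Γ T c x δ)) /
      iterRes (integrand Γ T c x 0) = _
  rw [h0]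
  congr 1
  have hset : ∑ᶠ δ ∈ {δ : P → ℤ | ∀ i, ∑ r with c r = i, δ r = d i},
      iterRes (integrand Γ T c x δ) =
      ∑ᶠ δ ∈ (↑((DS c d).image (fun δ : P → ℕ => fun r => (δ r : ℤ))) : Set (P → ℤ)),
        iterRes (integrand Γ T c x δ) := by
    apply finsum_mem_inter_support_eq
    ext δ
    simp only [Set.mem_inter_iff, Set.mem_ofPred_eq, coe_image, Set.mem_image, Function.mem_support,
      mem_coe, mem_DS]
    constructor
    · rintro ⟨h1, h2⟩
      refine ⟨?_, h2⟩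
      have h3 : ∀ r, 0 ≤ δ r := by
        intro r
        by_contra hcon
        push Not at hcon
        apply h2
        rw [hI]
        have h4 : f r ∈ Rf f := mem_map.2 ⟨r, mem_univ r, rfl⟩
        rw [JU_neg hs hL hq (exf f δ) h4 (by rw [exf_apply]; exact hcon), mul_zero]
      have h5 : ∀ r, ((δ r).toNat : ℤ) = δ r := fun r => Int.toNat_of_nonneg (h3 r)
      refine ⟨fun r => (δ r).toNat, fun i => ?_, funext h5⟩
      have h4 : ∑ r with c r = i, (((δ r).toNat : ℕ) : ℤ) = d i := by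
        rw [← h1 i]
        exact sum_congr rfl fun r _ => h5 r
      exact_mod_cast h4
    · rintro ⟨⟨δ', h1, rfl⟩, h2⟩
      refine ⟨fun i => ?_, h2⟩
      show ∑ r with c r = i, ((δ' r : ℕ) : ℤ) = d i
      exact_mod_cast h1 i
  rw [hset, finsum_mem_coe_finset, sum_image, VJ_P hc, mul_sum]
  · apply sum_congr rfl
    intro δ hδ
    rw [mem_DS] at hδ
    rw [hI, deg_eq Γ c (fun r => (δ r : ℤ)) (fun i => (d i : ℤ))
      (fun i => by exact_mod_cast hδ i), ← mul_assoc, ← mul_zpow]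
    have : -(T.h : K)⁻¹ * -(T.h : K) = 1 := by field_simp
    rw [this, one_zpow, one_mul]
  · intro δ _ δ' _ hh
    funext r
    exact Int.ofNat.inj (congrFun hh r)

end Pool.Agent.Run7.h657.Res
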