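import Pool.Agent.Run7.h657.SL

/-! Linear algebra at a vertex of a torus fixed point. -/

set_option linter.unusedSectionVars false

namespace Pool.Agent.Run7.h657.Res

open Finset Module

variable {K I E F P : Type*} [Field K] [Fintype I] [Fintype E] [Fintype F] [Fintype P]
  [DecidableEq I] [DecidableEq P] [DecidableEq E] [DecidableEq F]

/-- a torus fixed point in a basis of weight vectors -/
structure Fx (Q : QD K I E F) (t : K) (c : P → I) (x : P → K) (Ma Mb : E → Matrix P P K)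
    (Mi : Matrix P F K) (Mj : Matrix F P K) : Prop where
  mod : Mod Q c Ma Mb Mi Mj
  ax : ∀ e r' r, Ma e r' r ≠ 0 → Q.te e * x r' = x r
  bx : ∀ e r' r, Mb e r' r ≠ 0 → x r' = t * Q.te e * x r
  ix : ∀ r f, Mi r f ≠ 0 → x r = Q.fa f
  jx : ∀ f r, Mj f r ≠ 0 → Q.fa f = t * x r

/-- incoming maps -/
def Gi (Ma Mb : E → Matrix P P K) (Mi : Matrix P F K) (a : P) : Lam P E F → K
  | Sum.inl z => Ma z.1 a z.2
  | Sum.inr (Sum.inl z) => Mb z.1 a z.2
  | Sum.inr (Sum.inr f) => Mi a f

/-- outgoing maps -/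
def Ho (Ma Mb : E → Matrix P P K) (Mj : Matrix F P K) (a : P) : Lam P E F → K
  | Sum.inl z => Mb z.1 z.2 a
  | Sum.inr (Sum.inl z) => -Ma z.1 z.2 a
  | Sum.inr (Sum.inr f) => Mj f a

/-- neighbours -/
def Nb (Q : QD K I E F) (c : P → I) (i : I) : Lam P E F → Prop
  | Sum.inl z => Q.tgt z.1 = i ∧ c z.2 = Q.src z.1
  | Sum.inr (Sum.inl z) => Q.src z.1 = i ∧ c z.2 = Q.tgt z.1
  | Sum.inr (Sum.inr f) => Q.cF f = i

/-- weights of the neighbours -/
def kaP (Q : QD K I E F) (t : K) (x : P → K) : Lam P E F → K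
  | Sum.inl z => x z.2 / Q.te z.1
  | Sum.inr (Sum.inl z) => t * Q.te z.1 * x z.2
  | Sum.inr (Sum.inr f) => Q.fa f

variable {Q : QD K I E F} {t : K} {c : P → I} {x : P → K} {Ma Mb : E → Matrix P P K}
  {Mi : Matrix P F K} {Mj : Matrix F P K}

lemma Fx.gi (h : Fx Q t c x Ma Mb Mi Mj) (hte : ∀ e, Q.te e ≠ 0) {a : P} {l : Lam P E F}
    (hne : Gi Ma Mb Mi a l ≠ 0) : Nb Q c (c a) l ∧ kaP Q t x l = x a := by
  rcases l with ⟨e, q⟩ | ⟨e, q⟩ | f
  · have h1 := h.mod.sa e a q hne
    have h2 := h.ax e a q hne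
    refine ⟨⟨h1.1.symm, h1.2⟩, ?_⟩
    show x q / Q.te e = x a
    rw [div_eq_iff (hte e), ← h2, mul_comm]
  · have h1 := h.mod.sb e a q hne
    have h2 := h.bx e a q hne
    exact ⟨⟨h1.1.symm, h1.2⟩, h2.symm⟩
  · have h1 := h.mod.si a f hne
    have h2 := h.ix a f hne
    exact ⟨h1.symm, h2.symm⟩

lemma Fx.ho (h : Fx Q t c x Ma Mb Mi Mj) (hte : ∀ e, Q.te e ≠ 0) {a : P} {l : Lam P E F}
    (hne : Ho Ma Mb Mj a l ≠ 0) : Nb Q c (c a) l ∧ kaP Q t x l = t * x a := by
  rcases l with ⟨e, q⟩ | ⟨e, q⟩ | f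
  · have h1 := h.mod.sb e q a hne
    have h2 := h.bx e q a hne
    refine ⟨⟨h1.2.symm, h1.1⟩, ?_⟩
    show x q / Q.te e = t * x a
    rw [div_eq_iff (hte e), h2]
    ring
  · have hne' : Ma e q a ≠ 0 := neg_ne_zero.1 hne
    have h1 := h.mod.sa e q a hne'
    have h2 := h.ax e q a hne'
    refine ⟨⟨h1.2.symm, h1.1⟩, ?_⟩
    show t * Q.te e * x q = t * x a
    rw [← h2, mul_assoc]
  · have h1 := h.mod.sj f a hne
    have h2 := h.jx f a hne
    exact ⟨h1.symm, h2⟩

lemma sum_Lam {M : Type*} [AddCommMonoid M] (g : Lam P E F → M) :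
    ∑ l, g l = (∑ e, ∑ q, g (Sum.inl (e, q))) + ((∑ e, ∑ q, g (Sum.inr (Sum.inl (e, q)))) +
      ∑ f, g (Sum.inr (Sum.inr f))) := by
  rw [Fintype.sum_sum_type, Fintype.sum_sum_type, Fintype.sum_prod_type, Fintype.sum_prod_type]

lemma Fx.gh (h : Fx Q t c x Ma Mb Mi Mj) (a a' : P) :
    ∑ l, Gi Ma Mb Mi a l * Ho Ma Mb Mj a' l = 0 := by
  rw [sum_Lam]
  have h1 := congrFun (congrFun h.mod.mom a) a'
  rw [Matrix.add_apply, Matrix.sum_apply] at h1
  simp only [Matrix.sub_apply, Matrix.mul_apply, Matrix.zero_apply] at h1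
  rw [← h1, ← add_assoc, ← sum_add_distrib]
  congr 1
  · apply sum_congr rfl
    intro e _
    rw [sub_eq_add_neg, ← sum_neg_distrib]
    congr 1
    apply sum_congr rfl
    intro q _
    show Mb e a q * -Ma e q a' = -(Mb e a q * Ma e q a')
    ring

/-- incoming maps are jointly surjective -/
lemma Fx.surj (h : Fx Q t c x Ma Mb Mi Mj) (i : I) (v : P → K) :
    ∃ y : Lam P E F → K, ∀ a, c a = i → v a = ∑ l, Gi Ma Mb Mi a l * y l := by
  let U : Submodule K (P → K) :=
    { carrier := {u | ∃ y : Lam P E F → K, ∀ a, c a = i → u a = ∑ l, Gi Ma Mb Mi a l * y l}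
      add_mem' := by
        rintro u u' ⟨y, hy⟩ ⟨y', hy'⟩
        refine ⟨y + y', fun a ha => ?_⟩
        rw [Pi.add_apply, hy a ha, hy' a ha, ← sum_add_distrib]
        apply sum_congr rfl
        intro l _
        rw [Pi.add_apply, mul_add]
      zero_mem' := ⟨0, fun a _ => by simp⟩
      smul_mem' := by
        rintro k u ⟨y, hy⟩
        refine ⟨k • y, fun a ha => ?_⟩
        rw [Pi.smul_apply, hy a ha, smul_sum]
        apply sum_congr rfl
        intro l _
        simp only [Pi.smul_apply, smul_eq_mul]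
        ring }
  have hU : U = ⊤ := by
    apply h.mod.st
    · rintro j u ⟨y, hy⟩
      by_cases hj : j = i
      · subst hj
        refine ⟨y, fun a ha => ?_⟩
        simp only [ha, if_true]
        exact hy a ha
      · refine ⟨0, fun a ha => ?_⟩
        have : ¬ c a = j := fun h' => hj (h'.symm.trans ha)
        simp [this]
    · intro f
      refine ⟨Pi.single (Sum.inr (Sum.inr f)) 1, fun a _ => ?_⟩
      rw [sum_eq_single (Sum.inr (Sum.inr f))]
      · rw [Pi.single_eq_same, mul_one]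
        rfl
      · intro l _ hl
        rw [Pi.single_eq_of_ne hl, mul_zero]
      · intro h'; exact absurd (mem_univ _) h'
    · intro e u _
      refine ⟨Sum.elim (fun z => if z.1 = e then u z.2 else 0) 0, fun a _ => ?_⟩
      rw [sum_Lam]
      simp only [Sum.elim_inl, Sum.elim_inr, Pi.zero_apply, mul_zero, sum_const_zero, add_zero]
      rw [sum_eq_single e]
      · simp only [if_true]
        rfl
      · intro e' _ he'
        simp [he']
      · intro h'; exact absurd (mem_univ _) h'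
    · intro e u _
      refine ⟨Sum.elim 0 (Sum.elim (fun z => if z.1 = e then u z.2 else 0) 0), fun a _ => ?_⟩
      rw [sum_Lam]
      simp only [Sum.elim_inl, Sum.elim_inr, Pi.zero_apply, mul_zero, sum_const_zero, add_zero,
        zero_add]
      rw [sum_eq_single e]
      · simp only [if_true]
        rfl
      · intro e' _ he'
        simp [he']
      · intro h'; exact absurd (mem_univ _) h'
  have : v ∈ U := by rw [hU]; trivial
  exact this

/-- a basis of the outgoing columns -/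
lemma exists_cols (H : P → Lam P E F → K) (i : I) (c : P → I) :
    ∃ B : Finset P, (∀ b ∈ B, c b = i) ∧
      LinearIndependent K (fun b : B => H b.1) ∧
      ∀ r, c r = i → ∃ γ : P → K, ∀ l, H r l = ∑ b ∈ B, γ b * H b l := by
  obtain ⟨κ, a, ha, hspan, hind⟩ :=
    exists_linearIndependent' K (fun r : {r : P // c r = i} => H r.1)
  have : Finite κ := Finite.of_injective a ha
  have : Fintype κ := Fintype.ofFinite κ
  have hinj : Function.Injective (fun k => (a k).1) := Subtype.val_injective.comp ha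
  let B : Finset P := univ.image (fun k => (a k).1)
  have hmem : ∀ k, (a k).1 ∈ B := fun k => mem_image_of_mem _ (mem_univ k)
  let e : κ ≃ B := Equiv.ofBijective (fun k => ⟨(a k).1, hmem k⟩) ⟨by
    intro k k' h
    exact hinj (congrArg (fun z : B => z.1) h), by
    rintro ⟨b, hb⟩
    obtain ⟨k, _, hk⟩ := mem_image.1 hb
    exact ⟨k, Subtype.ext hk⟩⟩
  refine ⟨B, ?_, ?_, ?_⟩
  · intro b hb
    obtain ⟨k, _, rfl⟩ := mem_image.1 hb
    exact (a k).2
  · rw [← linearIndependent_equiv e]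
    exact hind
  · intro r hr
    have h1 : H r ∈ Submodule.span K (Set.range ((fun r : {r : P // c r = i} => H r.1) ∘ a)) := by
      rw [hspan]
      exact Submodule.subset_span ⟨⟨r, hr⟩, rfl⟩
    rw [Submodule.mem_span_range_iff_exists_fun] at h1
    obtain ⟨g, hg⟩ := h1
    refine ⟨fun b => if hb : b ∈ B then g (e.symm ⟨b, hb⟩) else 0, fun l => ?_⟩
    rw [← hg, Finset.sum_apply, ← sum_coe_sort B, ← Equiv.sum_comp e]
    apply sum_congr rfl
    intro k _
    have h2 : (e k).1 ∈ B := (e k).2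
    show _ = (if hb : (e k).1 ∈ B then g (e.symm ⟨(e k).1, hb⟩) else 0) * _
    rw [dif_pos h2]
    have h3 : e.symm ⟨(e k).1, h2⟩ = k := by
      rw [Subtype.coe_eta, Equiv.symm_apply_apply]
    rw [h3]
    rfl

end Pool.Agent.Run7.h657.Res
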