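import Pool.Agent.Run7.h657.SM

/-! Counting weights at a vertex, and the quotient by the kernel of the outgoing maps. -/

set_option linter.unusedSectionVars false

namespace Pool.Agent.Run7.h657.Res

open Finset Module

variable {K I E F P : Type*} [Field K] [Fintype I] [Fintype E] [Fintype F] [Fintype P]
  [DecidableEq I] [DecidableEq P] [DecidableEq E] [DecidableEq F]

variable {Q : QD K I E F} {t : K} {c : P → I} {x : P → K} {Ma Mb : E → Matrix P P K}
  {Mi : Matrix P F K} {Mj : Matrix F P K}

open Classical in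
/-- dimension count for one weight -/
lemma Fx.count (h : Fx Q t c x Ma Mb Mi Mj) (hte : ∀ e, Q.te e ≠ 0) {i : I}
    {B : Finset P} (hB : ∀ b ∈ B, c b = i)
    (hind : LinearIndependent K (fun b : B => Ho Ma Mb Mj b.1)) (χ : K) :
    (univ.filter fun a => c a = i ∧ x a = χ).card + (B.filter fun b => t * x b = χ).card ≤
      (univ.filter fun l => Nb Q c i l ∧ kaP Q t x l = χ).card := by
  let LX := {l : Lam P E F // Nb Q c i l ∧ kaP Q t x l = χ}
  let AX := {a : P // c a = i ∧ x a = χ}
  let BX := {b : B // t * x b.1 = χ}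
  let Th : (LX → K) →ₗ[K] (AX → K) :=
    Matrix.mulVecLin (Matrix.of fun (a : AX) (l : LX) => Gi Ma Mb Mi a.1 l.1)
  have hTh : ∀ (y : LX → K) (a : AX), Th y a = ∑ l : LX, Gi Ma Mb Mi a.1 l.1 * y l := by
    intro y a
    rfl
  -- sums over all neighbours
  have hsum : ∀ (a : AX) (y : Lam P E F → K),
      ∑ l : LX, Gi Ma Mb Mi a.1 l.1 * y l.1 = ∑ l, Gi Ma Mb Mi a.1 l * y l := by
    intro a y
    have h1 : ∑ l : LX, Gi Ma Mb Mi a.1 l.1 * y l.1 =
        ∑ l ∈ univ.filter (fun l => Nb Q c i l ∧ kaP Q t x l = χ), Gi Ma Mb Mi a.1 l * y l := by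
      symm
      apply sum_subtype
      intro l
      simp
    rw [h1, sum_filter]
    apply sum_congr rfl
    intro l _
    split_ifs with hl
    · rfl
    · by_cases h0 : Gi Ma Mb Mi a.1 l = 0
      · rw [h0, zero_mul]
      · exfalso
        apply hl
        obtain ⟨h2, h3⟩ := h.gi hte h0
        rw [a.2.1] at h2
        rw [a.2.2] at h3
        exact ⟨h2, h3⟩
  have hsurj : Function.Surjective Th := by
    intro v
    obtain ⟨y, hy⟩ := h.surj i (fun a => if ha : c a = i ∧ x a = χ then v ⟨a, ha⟩ else 0)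
    refine ⟨fun l => y l.1, ?_⟩
    funext a
    rw [hTh, hsum a y, ← hy a.1 a.2.1, dif_pos a.2]
  have hker : ∀ b : BX, (fun l : LX => Ho Ma Mb Mj b.1.1 l.1) ∈ LinearMap.ker Th := by
    intro b
    rw [LinearMap.mem_ker]
    funext a
    rw [hTh, hsum a (Ho Ma Mb Mj b.1.1), h.gh]
    rfl
  have hlin : LinearIndependent K
      (fun b : BX => (⟨fun l : LX => Ho Ma Mb Mj b.1.1 l.1, hker b⟩ : LinearMap.ker Th)) := by
    apply LinearIndependent.of_comp (LinearMap.ker Th).subtype
    rw [Fintype.linearIndependent_iff]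
    intro g hg b0
    rw [Fintype.linearIndependent_iff] at hind
    have h1 : ∑ b : B, (if hb : t * x b.1 = χ then g ⟨b, hb⟩ else 0) • Ho Ma Mb Mj b.1 = 0 := by
      funext l
      rw [Finset.sum_apply, Pi.zero_apply]
      have e1 : ∑ b : B, ((if hb : t * x b.1 = χ then g ⟨b, hb⟩ else 0) • Ho Ma Mb Mj b.1) l =
          ∑ b : BX, g b * Ho Ma Mb Mj b.1.1 l := by
        have e2 : ∑ b : BX, g b * Ho Ma Mb Mj b.1.1 l =
            ∑ b : BX, (fun b : B => ((if hb : t * x b.1 = χ then g ⟨b, hb⟩ else 0) •
              Ho Ma Mb Mj b.1) l) b.1 := by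
          apply sum_congr rfl
          intro b _
          show _ = ((if hb : t * x b.1.1 = χ then g ⟨b.1, hb⟩ else 0) • Ho Ma Mb Mj b.1.1) l
          rw [dif_pos b.2]
          rfl
        rw [e2]
        rw [← sum_subtype (univ.filter fun b : B => t * x b.1 = χ) (by simp)
          (fun b : B => ((if hb : t * x b.1 = χ then g ⟨b, hb⟩ else 0) • Ho Ma Mb Mj b.1) l),
          sum_filter]
        apply sum_congr rfl
        intro b _
        by_cases hb : t * x b.1 = χ
        · rw [if_pos hb]
        · rw [if_neg hb, dif_neg hb, zero_smul]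
          rfl
      rw [e1]
      by_cases hl : Nb Q c i l ∧ kaP Q t x l = χ
      · have h2 := congrFun hg ⟨l, hl⟩
        rw [Finset.sum_apply] at h2
        exact h2
      · apply sum_eq_zero
        intro b _
        by_cases h0 : Ho Ma Mb Mj b.1.1 l = 0
        · rw [h0, mul_zero]
        · exfalso
          apply hl
          obtain ⟨h2, h3⟩ := h.ho hte h0
          rw [hB b.1.1 b.1.2] at h2
          rw [b.2] at h3
          exact ⟨h2, h3⟩
    have h2 := hind _ h1 b0.1
    rw [dif_pos b0.2] at h2
    exact h2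
  have hc1 := hlin.fintype_card_le_finrank
  have hrk := LinearMap.finrank_range_add_finrank_ker Th
  rw [LinearMap.range_eq_top.2 hsurj, finrank_top, Module.finrank_fintype_fun_eq_card,
    Module.finrank_fintype_fun_eq_card] at hrk
  have e1 : Fintype.card AX = (univ.filter fun a => c a = i ∧ x a = χ).card :=
    Fintype.card_subtype _
  have e2 : Fintype.card LX = (univ.filter fun l => Nb Q c i l ∧ kaP Q t x l = χ).card :=
    Fintype.card_subtype _
  have e3 : Fintype.card BX = (B.filter fun b => t * x b = χ).card := by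
    rw [Fintype.card_subtype]
    exact card_coe_filter B (fun b => t * x b = χ)
  omega

/-- homogeneous coefficients -/
lemma Fx.coef (h : Fx Q t c x Ma Mb Mi Mj) (hte : ∀ e, Q.te e ≠ 0) (ht : t ≠ 0) {i : I}
    {B : Finset P}
    (hsp : ∀ r, c r = i → ∃ γ : P → K, ∀ l, Ho Ma Mb Mj r l = ∑ b ∈ B, γ b * Ho Ma Mb Mj b l) :
    ∀ r, c r = i → ∃ γ : P → K, (∀ b, γ b ≠ 0 → x b = x r) ∧
      ∀ l, Ho Ma Mb Mj r l = ∑ b ∈ B, γ b * Ho Ma Mb Mj b l := by
  classical
  intro r hr
  obtain ⟨γ, hγ⟩ := hsp r hr
  refine ⟨fun b => if x b = x r then γ b else 0, fun b hb => ?_, fun l => ?_⟩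
  · by_contra hne
    exact hb (if_neg hne)
  · by_cases hl : kaP Q t x l = t * x r
    · rw [hγ l]
      apply sum_congr rfl
      intro b _
      simp only
      by_cases hb : x b = x r
      · rw [if_pos hb]
      · rw [if_neg hb, zero_mul]
        by_cases h0 : Ho Ma Mb Mj b l = 0
        · rw [h0, mul_zero]
        · exfalso
          apply hb
          have h3 := (h.ho hte h0).2
          rw [hl] at h3
          exact (mul_left_cancel₀ ht h3).symm
    · have h1 : Ho Ma Mb Mj r l = 0 := by
        by_contra h0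
        exact hl (h.ho hte h0).2
      rw [h1]
      symm
      apply sum_eq_zero
      intro b _
      simp only
      by_cases hb : x b = x r
      · have h2 : Ho Ma Mb Mj b l = 0 := by
          by_contra h0
          apply hl
          rw [(h.ho hte h0).2, hb]
        rw [h2, mul_zero]
      · rw [if_neg hb, zero_mul]

end Pool.Agent.Run7.h657.Res
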