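import Pool.Agent.Run7.h657.SN

/-! The quotient of a torus fixed point by the kernel of the outgoing maps at a vertex. -/

set_option linter.unusedSectionVars false

namespace Pool.Agent.Run7.h657.Res

open Finset Module

variable {K I E F P : Type*} [Field K] [Fintype I] [Fintype E] [Fintype F] [Fintype P]
  [DecidableEq I] [DecidableEq P] [DecidableEq E] [DecidableEq F]

variable {Q : QD K I E F} {t : K} {c : P → I} {x : P → K} {Ma Mb : E → Matrix P P K}
  {Mi : Matrix P F K} {Mj : Matrix F P K}

/-- projection matrix -/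
def rho (c : P → I) (i : I) (B : Finset P) (γ : P → P → K) : Matrix P P K := fun r' r =>
  if c r = i ∧ r ∉ B then (if r' ∈ B then γ r r' else 0) else (if r' = r then 1 else 0)

/-- the index set of the quotient -/
abbrev PQ (c : P → I) (i : I) (B : Finset P) := {r : P // ¬ c r = i ∨ r ∈ B}

variable {i : I} {B : Finset P} {γ : P → P → K}

lemma rho_supp (hB : ∀ b ∈ B, c b = i)
    (hγ : ∀ r, c r = i → ∀ b, γ r b ≠ 0 → x b = x r) {r' r : P}
    (h : rho c i B γ r' r ≠ 0) :
    (¬ c r' = i ∨ r' ∈ B) ∧ c r' = c r ∧ x r' = x r := by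
  unfold rho at h
  split_ifs at h with h1 h2 h3
  · exact ⟨Or.inr h2, by rw [hB r' h2, h1.1], hγ r h1.1 r' h⟩
  · exact absurd rfl h
  · subst h3
    refine ⟨?_, rfl, rfl⟩
    rw [not_and_or, not_not] at h1
    exact h1
  · exact absurd rfl h

lemma rho_id {r : P} (hr : ¬ c r = i ∨ r ∈ B) (r' : P) :
    rho c i B γ r' r = if r' = r then 1 else 0 := by
  unfold rho
  rw [if_neg]
  rintro ⟨h1, h2⟩
  rcases hr with h | h
  · exact h h1
  · exact h2 h

lemma mul_rho {Z : Type*} (N : Matrix Z P K)
    (hN : ∀ z r, c r = i → N z r = ∑ b ∈ B, γ r b * N z b) : N * rho c i B γ = N := by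
  ext z r
  rw [Matrix.mul_apply]
  by_cases hr : ¬ c r = i ∨ r ∈ B
  · simp_rw [rho_id hr]
    rw [sum_eq_single r]
    · rw [if_pos rfl, mul_one]
    · intro s _ hs
      rw [if_neg hs, mul_zero]
    · intro h; exact absurd (mem_univ r) h
  · rw [not_or, not_not] at hr
    rw [hN z r hr.1]
    have : ∀ s, N z s * rho c i B γ s r = if s ∈ B then γ r s * N z s else 0 := by
      intro s
      unfold rho
      rw [if_pos hr]
      split_ifs
      · ring
      · ring
    simp_rw [this]
    rw [sum_ite_mem, univ_inter]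

/-- quotient of a matrix -/
def quo (c : P → I) (i : I) (B : Finset P) (γ : P → P → K) (N : Matrix P P K) :
    Matrix (PQ c i B) (PQ c i B) K := (rho c i B γ * N).submatrix Subtype.val Subtype.val

lemma rho_row (hB : ∀ b ∈ B, c b = i)
    (hγ : ∀ r, c r = i → ∀ b, γ r b ≠ 0 → x b = x r) {Z : Type*} (N : Matrix P Z K) {s : P}
    (hs : ¬ (¬ c s = i ∨ s ∈ B)) (z : Z) : (rho c i B γ * N) s z = 0 := by
  rw [Matrix.mul_apply]
  apply sum_eq_zero
  intro r _
  by_cases h0 : rho c i B γ s r = 0
  · rw [h0, zero_mul]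
  · exact absurd (rho_supp hB hγ h0).1 hs

lemma sum_PQ (g : P → K) (hg : ∀ s, ¬ (¬ c s = i ∨ s ∈ B) → g s = 0) :
    ∑ s : PQ c i B, g s.1 = ∑ s, g s := by
  classical
  rw [← sum_subtype (univ.filter fun s : P => ¬ c s = i ∨ s ∈ B) (by simp) g, sum_filter]
  apply sum_congr rfl
  intro s _
  split_ifs with h
  · rfl
  · exact (hg s h).symm

lemma quo_mul (hB : ∀ b ∈ B, c b = i)
    (hγ : ∀ r, c r = i → ∀ b, γ r b ≠ 0 → x b = x r) (M N : Matrix P P K)
    (hM : M * rho c i B γ = M) : quo c i B γ M * quo c i B γ N = quo c i B γ (M * N) := by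
  ext r r'
  rw [Matrix.mul_apply]
  unfold quo
  simp only [Matrix.submatrix_apply]
  rw [sum_PQ (c := c) (i := i) (B := B)
    (fun s => (rho c i B γ * M) r.1 s * (rho c i B γ * N) s r'.1)
    (fun s hs => by rw [rho_row hB hγ N hs, mul_zero])]
  rw [← Matrix.mul_apply, Matrix.mul_assoc, ← Matrix.mul_assoc M, hM]

lemma quo_sub (M N : Matrix P P K) : quo c i B γ (M - N) = quo c i B γ M - quo c i B γ N := by
  ext r r'
  unfold quo
  rw [Matrix.mul_sub]
  rfl

lemma quo_add (M N : Matrix P P K) : quo c i B γ (M + N) = quo c i B γ M + quo c i B γ N := by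
  ext r r'
  unfold quo
  rw [Matrix.mul_add]
  rfl

lemma quo_zero : quo c i B γ (0 : Matrix P P K) = 0 := by
  ext r r'
  unfold quo
  rw [Matrix.mul_zero]
  rfl

lemma quo_sum {Z : Type*} (s : Finset Z) (M : Z → Matrix P P K) :
    quo c i B γ (∑ z ∈ s, M z) = ∑ z ∈ s, quo c i B γ (M z) := by
  classical
  induction s using Finset.induction_on with
  | empty => rw [sum_empty, sum_empty, quo_zero]
  | insert a s ha ih => rw [sum_insert ha, sum_insert ha, quo_add, ih]

/-- the quotient of a fixed point -/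
theorem Fx.quot (h : Fx Q t c x Ma Mb Mi Mj) (hB : ∀ b ∈ B, c b = i)
    (hγ : ∀ r, c r = i → ∀ b, γ r b ≠ 0 → x b = x r)
    (hH : ∀ r, c r = i → ∀ l, Ho Ma Mb Mj r l = ∑ b ∈ B, γ r b * Ho Ma Mb Mj b l) :
    Fx Q t (fun r : PQ c i B => c r.1) (fun r : PQ c i B => x r.1)
      (fun e => quo c i B γ (Ma e)) (fun e => quo c i B γ (Mb e))
      ((rho c i B γ * Mi).submatrix Subtype.val id) (Mj.submatrix id Subtype.val) := by
  have hMa : ∀ e, Ma e * rho c i B γ = Ma e := by
    intro e
    apply mul_rho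
    intro z r hr
    have h1 := hH r hr (Sum.inr (Sum.inl (e, z)))
    have h2 : -Ma e z r = ∑ b ∈ B, γ r b * -Ma e z b := h1
    rw [← neg_inj, h2, ← sum_neg_distrib]
    apply sum_congr rfl
    intro b _
    ring
  have hMb : ∀ e, Mb e * rho c i B γ = Mb e := by
    intro e
    apply mul_rho
    intro z r hr
    exact hH r hr (Sum.inl (e, z))
  have hMj : Mj * rho c i B γ = Mj := by
    apply mul_rho
    intro z r hr
    exact hH r hr (Sum.inr (Sum.inr z))
  have hex : ∀ {Z : Type _} (N : Matrix P Z K) (r' : P) (z : Z),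
      (rho c i B γ * N) r' z ≠ 0 → ∃ s, rho c i B γ r' s ≠ 0 ∧ N s z ≠ 0 := by
    intro Z N r' z hne
    rw [Matrix.mul_apply] at hne
    obtain ⟨s, _, hs⟩ := exists_ne_zero_of_sum_ne_zero hne
    exact ⟨s, left_ne_zero_of_mul hs, right_ne_zero_of_mul hs⟩
  have hexF : ∀ (r' : P) (z : F),
      (rho c i B γ * Mi) r' z ≠ 0 → ∃ s, rho c i B γ r' s ≠ 0 ∧ Mi s z ≠ 0 := by
    intro r' z hne
    rw [Matrix.mul_apply] at hne
    obtain ⟨s, _, hs⟩ := exists_ne_zero_of_sum_ne_zero hne
    exact ⟨s, left_ne_zero_of_mul hs, right_ne_zero_of_mul hs⟩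
  refine ⟨⟨?_, ?_, ?_, ?_, ?_, ?_⟩, ?_, ?_, ?_, ?_⟩
  · intro e r' r hne
    obtain ⟨s, h1, h2⟩ := hex (Ma e) r'.1 r.1 hne
    have h3 := h.mod.sa e s r.1 h2
    exact ⟨(rho_supp hB hγ h1).2.1.trans h3.1, h3.2⟩
  · intro e r' r hne
    obtain ⟨s, h1, h2⟩ := hex (Mb e) r'.1 r.1 hne
    have h3 := h.mod.sb e s r.1 h2
    exact ⟨(rho_supp hB hγ h1).2.1.trans h3.1, h3.2⟩
  · intro r f hne
    obtain ⟨s, h1, h2⟩ := hexF r.1 f hne
    exact (rho_supp hB hγ h1).2.1.trans (h.mod.si s f h2)
  · intro f r hne
    exact h.mod.sj f r.1 hne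
  · have h1 : (rho c i B γ * Mi).submatrix (Subtype.val : PQ c i B → P) id *
        Mj.submatrix id (Subtype.val : PQ c i B → P) = quo c i B γ (Mi * Mj) := by
      ext r r'
      unfold quo
      rw [← Matrix.mul_assoc]
      rfl
    rw [h1]
    have h2 : ∀ e, quo c i B γ (Ma e) * quo c i B γ (Mb e) -
        quo c i B γ (Mb e) * quo c i B γ (Ma e) =
        quo c i B γ (Ma e * Mb e - Mb e * Ma e) := by
      intro e
      rw [quo_mul hB hγ _ _ (hMa e), quo_mul hB hγ _ _ (hMb e), quo_sub]
    simp_rw [h2]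
    rw [← quo_sum, ← quo_add, h.mod.mom, quo_zero]
  · intro U hU1 hU2 hU3 hU4
    -- preimage of the subspace
    let pr' : (P → K) → (PQ c i B → K) := fun u r => (rho c i B γ).mulVec u r.1
    have hpr_add : ∀ u v, pr' (u + v) = pr' u + pr' v := by
      intro u v
      funext r
      show (rho c i B γ).mulVec (u + v) r.1 = _
      rw [Matrix.mulVec_add]
      rfl
    have hpr_smul : ∀ (k : K) u, pr' (k • u) = k • pr' u := by
      intro k u
      funext r
      show (rho c i B γ).mulVec (k • u) r.1 = _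
      rw [Matrix.mulVec_smul]
      rfl
    let U' : Submodule K (P → K) :=
      { carrier := {u | pr' u ∈ U}
        add_mem' := fun {a b} ha hb => by
          show pr' (a + b) ∈ U
          rw [hpr_add]
          exact U.add_mem ha hb
        zero_mem' := by
          show pr' 0 ∈ U
          have : pr' 0 = 0 := by
            funext r
            show (rho c i B γ).mulVec 0 r.1 = 0
            rw [Matrix.mulVec_zero]
            rfl
          rw [this]
          exact U.zero_mem
        smul_mem' := fun k u hu => by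
          show pr' (k • u) ∈ U
          rw [hpr_smul]
          exact U.smul_mem k hu }
    have hstab : ∀ (N : Matrix P P K), N * rho c i B γ = N → ∀ u,
        pr' (N.mulVec u) = (quo c i B γ N).mulVec (pr' u) := by
      intro N hN u
      funext r
      show (rho c i B γ).mulVec (N.mulVec u) r.1 =
        ∑ s : PQ c i B, (rho c i B γ * N) r.1 s.1 * (rho c i B γ).mulVec u s.1
      rw [sum_PQ (c := c) (i := i) (B := B)
        (fun s => (rho c i B γ * N) r.1 s * (rho c i B γ).mulVec u s)]
      · have : ∑ s, (rho c i B γ * N) r.1 s * (rho c i B γ).mulVec u s =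
            (rho c i B γ * N).mulVec ((rho c i B γ).mulVec u) r.1 := rfl
        rw [this, Matrix.mulVec_mulVec, Matrix.mulVec_mulVec, Matrix.mul_assoc, hN]
      · intro s hs
        have : (rho c i B γ).mulVec u s = 0 := by
          show ∑ r, rho c i B γ s r * u r = 0
          apply sum_eq_zero
          intro r _
          by_cases h0 : rho c i B γ s r = 0
          · rw [h0, zero_mul]
          · exact absurd (rho_supp hB hγ h0).1 hs
        rw [this, mul_zero]
    have hU' : U' = ⊤ := by
      apply h.mod.st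
      · intro j u hu
        show pr' (fun r => if c r = j then u r else 0) ∈ U
        have h1 := hU1 j (pr' u) hu
        have h2 : pr' (fun r => if c r = j then u r else 0) =
            fun r : PQ c i B => if c r.1 = j then pr' u r else 0 := by
          funext r
          show ∑ s, rho c i B γ r.1 s * (if c s = j then u s else 0) =
            if c r.1 = j then ∑ s, rho c i B γ r.1 s * u s else 0
          by_cases hj : c r.1 = j
          · rw [if_pos hj]
            apply sum_congr rfl
            intro s _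
            by_cases h0 : rho c i B γ r.1 s = 0
            · rw [h0, zero_mul, zero_mul]
            · rw [if_pos ((rho_supp hB hγ h0).2.1.symm.trans hj)]
          · rw [if_neg hj]
            apply sum_eq_zero
            intro s _
            by_cases h0 : rho c i B γ r.1 s = 0
            · rw [h0, zero_mul]
            · rw [if_neg (fun h' => hj ((rho_supp hB hγ h0).2.1.trans h')), mul_zero]
        rw [h2]
        exact h1
      · intro f
        exact hU2 f
      · intro e u hu
        show pr' ((Ma e).mulVec u) ∈ U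
        rw [hstab (Ma e) (hMa e)]
        exact hU3 e _ hu
      · intro e u hu
        show pr' ((Mb e).mulVec u) ∈ U
        rw [hstab (Mb e) (hMb e)]
        exact hU4 e _ hu
    rw [eq_top_iff]
    intro w _
    have h1 : (fun r => if hr : ¬ c r = i ∨ r ∈ B then w ⟨r, hr⟩ else 0) ∈ U' := by
      rw [hU']; trivial
    have h2 : pr' (fun r => if hr : ¬ c r = i ∨ r ∈ B then w ⟨r, hr⟩ else 0) = w := by
      funext r
      show ∑ s, rho c i B γ r.1 s * (if hr : ¬ c s = i ∨ s ∈ B then w ⟨s, hr⟩ else 0) = w r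
      rw [sum_eq_single r.1]
      · rw [rho_id r.2, if_pos rfl, dif_pos r.2, one_mul]
      · intro s _ hs
        by_cases hr : ¬ c s = i ∨ s ∈ B
        · rw [rho_id hr, if_neg hs.symm, zero_mul]
        · rw [dif_neg hr, mul_zero]
      · intro h'; exact absurd (mem_univ _) h'
    rw [← h2]
    exact h1
  · intro e r' r hne
    obtain ⟨s, h1, h2⟩ := hex (Ma e) r'.1 r.1 hne
    rw [(rho_supp hB hγ h1).2.2]
    exact h.ax e s r.1 h2
  · intro e r' r hne
    obtain ⟨s, h1, h2⟩ := hex (Mb e) r'.1 r.1 hne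
    rw [(rho_supp hB hγ h1).2.2]
    exact h.bx e s r.1 h2
  · intro r f hne
    obtain ⟨s, h1, h2⟩ := hexF r.1 f hne
    rw [(rho_supp hB hγ h1).2.2]
    exact h.ix s f h2
  · intro f r hne
    exact h.jx f r.1 hne

end Pool.Agent.Run7.h657.Res
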