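import Pool.Agent.Run7.h657.SO

/-! Numerical consequences for the quotient. -/

set_option linter.unusedSectionVars false

namespace Pool.Agent.Run7.h657.Res

open Finset Module

variable {K I E F P : Type*} [Field K] [Fintype I] [Fintype E] [Fintype F] [Fintype P]
  [DecidableEq I] [DecidableEq P] [DecidableEq E] [DecidableEq F] [DecidableEq K]

variable {Q : QD K I E F} {t : K} {c : P → I} {x : P → K} {Ma Mb : E → Matrix P P K}
  {Mi : Matrix P F K} {Mj : Matrix F P K} {i : I} {B : Finset P}

lemma dv_PQ (hB : ∀ b ∈ B, c b = i) :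
    dv (fun r : PQ c i B => c r.1) = Function.update (dv c) i B.card := by
  classical
  funext j
  by_cases hj : j = i
  · subst hj
    rw [Function.update_self]
    unfold dv
    rw [← Fintype.card_subtype, ← Fintype.card_coe]
    apply Fintype.card_congr
    refine ⟨fun r => ⟨r.1.1, r.1.2.resolve_left (not_not.2 r.2)⟩,
      fun b => ⟨⟨b.1, Or.inr b.2⟩, hB b.1 b.2⟩, ?_, ?_⟩
    · rintro ⟨⟨r, hr⟩, hr'⟩; rfl
    · rintro ⟨b, hb⟩; rfl
  · rw [Function.update_of_ne hj]
    unfold dv
    rw [← Fintype.card_subtype, ← Fintype.card_subtype]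
    apply Fintype.card_congr
    refine ⟨fun r => ⟨r.1.1, r.2⟩, fun b => ⟨⟨b.1, Or.inl ?_⟩, b.2⟩, ?_, ?_⟩
    · rw [b.2]; exact hj
    · rintro ⟨⟨r, hr⟩, hr'⟩; rfl
    · rintro ⟨b, hb⟩; rfl

open Classical in
lemma card_Nb (Q : QD K I E F) (c : P → I) (i : I) :
    (univ.filter fun l : Lam P E F => Nb Q c i l).card =
      Et Q i (dv c) + Es Q i (dv c) + (univ.filter fun f => Q.cF f = i).card := by
  rw [card_filter, sum_Lam, add_assoc]
  congr 1
  · unfold Et dv
    rw [sum_filter]
    apply sum_congr rfl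
    intro e _
    split_ifs with h
    · rw [card_filter]
      apply sum_congr rfl
      intro q _
      have : Nb Q c i (Sum.inl (e, q)) ↔ c q = Q.src e :=
        ⟨fun h' => h'.2, fun h' => ⟨h, h'⟩⟩
      simp only [this]
    · apply sum_eq_zero
      intro q _
      have : ¬ Nb Q c i (Sum.inl (e, q)) := fun h' => h h'.1
      rw [if_neg this]
  · congr 1
    · unfold Es dv
      rw [sum_filter]
      apply sum_congr rfl
      intro e _
      split_ifs with h
      · rw [card_filter]
        apply sum_congr rfl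
        intro q _
        have : Nb Q c i (Sum.inr (Sum.inl (e, q))) ↔ c q = Q.tgt e :=
          ⟨fun h' => h'.2, fun h' => ⟨h, h'⟩⟩
        simp only [this]
      · apply sum_eq_zero
        intro q _
        have : ¬ Nb Q c i (Sum.inr (Sum.inl (e, q))) := fun h' => h h'.1
        rw [if_neg this]
    · rw [card_filter]
      apply sum_congr rfl
      intro f _
      exact if_congr Iff.rfl rfl rfl

/-- all weights -/
def allW (Q : QD K I E F) (t : K) (x : P → K) : Finset K :=
  univ.image x ∪ (univ.image (fun a => t * x a) ∪ univ.image (kaP Q t x))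

lemma fib_A (j : I) : dv c j =
    ∑ χ ∈ allW Q t x, (univ.filter fun a => c a = j ∧ x a = χ).card := by
  unfold dv
  rw [card_eq_sum_card_fiberwise (f := x) (t := allW Q t x)
    (fun a _ => mem_union_left _ (mem_image_of_mem x (mem_univ a)))]
  apply sum_congr rfl
  intro χ _
  rw [filter_filter]

lemma fib_B (B : Finset P) : B.card =
    ∑ χ ∈ allW Q t x, (B.filter fun b => t * x b = χ).card := by
  exact card_eq_sum_card_fiberwise (f := fun a => t * x a) (t := allW Q t x)
    (fun a _ => mem_union_right _ (mem_union_left _ (mem_image_of_mem (fun a => t * x a)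
      (mem_univ a))))

open Classical in
lemma fib_L (i : I) : (univ.filter fun l : Lam P E F => Nb Q c i l).card =
    ∑ χ ∈ allW Q t x, (univ.filter fun l => Nb Q c i l ∧ kaP Q t x l = χ).card := by
  rw [card_eq_sum_card_fiberwise (f := kaP Q t x) (t := allW Q t x)
    (fun a _ => mem_union_right _ (mem_union_right _ (mem_image_of_mem _ (mem_univ a))))]
  apply sum_congr rfl
  intro χ _
  rw [filter_filter]

open Classical in
/-- numerical consequences -/
theorem Fx.numerics (h : Fx Q t c x Ma Mb Mi Mj) (hl : ∀ e, Q.src e ≠ Q.tgt e)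
    (hte : ∀ e, Q.te e ≠ 0) (hz : ZD Q c) (hμ : muv Q c i < 0)
    (hB : ∀ b ∈ B, c b = i)
    (hind : LinearIndependent K (fun b : B => Ho Ma Mb Mj b.1))
    {Ma' Mb' : E → Matrix (PQ c i B) (PQ c i B) K} {Mi' : Matrix (PQ c i B) F K}
    {Mj' : Matrix F (PQ c i B) K}
    (h' : Mod Q (fun r : PQ c i B => c r.1) Ma' Mb' Mi' Mj') :
    (univ.filter fun l : Lam P E F => Nb Q c i l).card = dv c i + B.card ∧
    B.card < dv c i ∧
    ZD Q (fun r : PQ c i B => c r.1) ∧
    ∀ χ, (univ.filter fun a => c a = i ∧ x a = χ).card + (B.filter fun b => t * x b = χ).card =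
      (univ.filter fun l => Nb Q c i l ∧ kaP Q t x l = χ).card := by
  obtain ⟨R, S, T', hRST⟩ := euler_update Q hl i (dv c)
  have h1 := hRST (dv c i)
  rw [Function.update_eq_self] at h1
  have h2 := hRST B.card
  rw [← dv_PQ hB] at h2
  have h3 := dim_ineq h'
  have hN := card_Nb Q c i
  have hcount : ∀ χ, (univ.filter fun a => c a = i ∧ x a = χ).card +
      (B.filter fun b => t * x b = χ).card ≤
      (univ.filter fun l => Nb Q c i l ∧ kaP Q t x l = χ).card := by
    intro χ
    convert h.count hte hB hind χ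
  have h4 : dv c i + B.card ≤ (univ.filter fun l : Lam P E F => Nb Q c i l).card := by
    rw [fib_A (c := c) (Q := Q) (t := t) (x := x) i, fib_B (Q := Q) (t := t) (x := x) B,
      fib_L (Q := Q) (t := t) (x := x) (c := c) i, ← sum_add_distrib]
    exact sum_le_sum fun χ _ => hcount χ
  have h5 : B.card ≤ dv c i := by
    unfold dv
    apply card_le_card
    intro b hb
    rw [mem_filter]
    exact ⟨mem_univ b, hB b hb⟩
  have hμ0 := hμ
  unfold ZD at hz ⊢
  unfold muv at hμ
  rw [h1.1, h1.2.1, h1.2.2] at hz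
  rw [h2.1, h2.2.1, h2.2.2] at h3 ⊢
  have hcore : (univ.filter fun l : Lam P E F => Nb Q c i l).card = dv c i + B.card ∧
      B.card < dv c i ∧
      R + B.card * (Et Q i (dv c) + Es Q i (dv c)) +
        (S + B.card * (univ.filter fun f => Q.cF f = i).card) = T' + B.card * B.card := by
    rw [hN] at h4 ⊢
    set k := dv c i with hk
    set k' := B.card with hk'
    set EE := Et Q i (dv c) + Es Q i (dv c) with hEE
    set NF := (univ.filter fun f => Q.cF f = i).card with hNF
    have hμ' : NF + EE < 2 * k := by omega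
    obtain ⟨s, hs⟩ := Nat.exists_eq_add_of_le h5
    have hs0 : 0 < s := by omega
    rw [hs] at hz h4 hμ' ⊢
    have h6 : s * (EE + NF) ≤ s * (2 * k' + s) := by nlinarith
    have h7 : EE + NF ≤ 2 * k' + s := Nat.le_of_mul_le_mul_left h6 hs0
    have h8 : EE + NF = 2 * k' + s := by omega
    refine ⟨by omega, by omega, ?_⟩
    nlinarith
  obtain ⟨g1, g2, g3⟩ := hcore
  refine ⟨g1, g2, g3, ?_⟩
  have hsum : ∑ χ ∈ allW Q t x, ((univ.filter fun a => c a = i ∧ x a = χ).card +
      (B.filter fun b => t * x b = χ).card) =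
      ∑ χ ∈ allW Q t x, (univ.filter fun l => Nb Q c i l ∧ kaP Q t x l = χ).card := by
    rw [sum_add_distrib, ← fib_A, ← fib_B, ← fib_L, g1]
  have heq := (sum_eq_sum_iff_of_le (fun χ _ => hcount χ)).1 hsum
  intro χ
  by_cases hχ : χ ∈ allW Q t x
  · exact heq χ hχ
  · have e1 : (univ.filter fun l => Nb Q c i l ∧ kaP Q t x l = χ).card = 0 := by
      rw [card_eq_zero, filter_eq_empty_iff]
      rintro l _ ⟨_, h9⟩
      apply hχ
      rw [← h9]
      exact mem_union_right _ (mem_union_right _ (mem_image_of_mem _ (mem_univ l)))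
    have := hcount χ
    omega

end Pool.Agent.Run7.h657.Res
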