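import Pool.Agent.Run7.h657.SQ

/-! Assembly. -/

set_option linter.unusedSectionVars false

namespace Pool.Agent.Run7.h657.Res

open Finset Vx

universe u1 u2 u3 u4 u5

variable {K : Type u1} {V : Type u2} {A : Type u3} {W : Type u4} {P : Type u5} [Field K]
  [Fintype V] [Fintype A] [Fintype W] [Fintype P] [DecidableEq V]

variable {Γ : FQuiver V A W} {T : Par K A W} {c : P → V} {x : P → Kˣ} {M : Rep K A W P}

/-- the weights of a stable point are monomials of nonnegative level -/
lemma weight_level [DecidableEq A] [DecidableEq W] (hM : IsPoint Γ c M)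
    (hx : TorusFixed T x M) (r0 : P) : ∃ g : Wx A W, mon T g = x r0 ∧ 0 ≤ lev g := by
  classical
  let G : Kˣ → Prop := fun y => ∃ g : Wx A W, mon T g = y ∧ 0 ≤ lev g
  let U : Submodule K (P → K) :=
    { carrier := {v | ∀ r, ¬ G (x r) → v r = 0}
      add_mem' := fun {a b} ha hb r hr => by simp [ha r hr, hb r hr]
      zero_mem' := fun r _ => rfl
      smul_mem' := fun k a ha r hr => by simp [ha r hr] }
  have hU : U = ⊤ := by
    apply hM.stable
    · intro i v hv r hr
      show (if c r = i then v r else 0) = 0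
      rw [hv r hr]; simp
    · intro w r hr
      by_contra hne
      apply hr
      have h1 := hx.wtI r w hne
      rw [div_eq_one] at h1
      exact ⟨aE A w, by rw [mon_aE, h1], by rw [lev_aE]⟩
    · intro e v hv r hr
      show ∑ s, M.X e r s * v s = 0
      apply sum_eq_zero
      intro s _
      by_cases hne : M.X e r s = 0
      · rw [hne, zero_mul]
      · have h1 := hx.wtX e r s hne
        rw [div_eq_one] at h1
        rw [hv s, mul_zero]
        rintro ⟨g, hg, hg0⟩
        apply hr
        refine ⟨g + -tE W e, ?_, ?_⟩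
        · rw [mon_add, mon_neg, mon_tE, hg, ← h1]
          rw [mul_comm, inv_mul_cancel_left]
        · rw [lev_add, lev_neg, lev_tE]
          omega
    · intro e v hv r hr
      show ∑ s, M.Y e r s * v s = 0
      apply sum_eq_zero
      intro s _
      by_cases hne : M.Y e r s = 0
      · rw [hne, zero_mul]
      · have h1 := hx.wtY e r s hne
        rw [div_eq_one] at h1
        rw [hv s, mul_zero]
        rintro ⟨g, hg, hg0⟩
        apply hr
        refine ⟨g + (-hE A W + tE W e), ?_, ?_⟩
        · rw [mon_add, mon_add, mon_neg, mon_tE, mon_hE, hg]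
          have : x r = T.hb⁻¹ * (T.τ e * x s) := by rw [← h1, inv_mul_cancel_left]
          rw [this]
          rw [mul_comm (x s), mul_assoc]
        · rw [lev_add, lev_add, lev_neg, lev_tE, lev_hE]
          omega
  have h1 : (Pi.single r0 1 : P → K) ∈ U := by rw [hU]; trivial
  by_contra hcon
  have := h1 r0 hcon
  simp at this

/-- the point in the form of the helper files -/
lemma toFx (hM : IsPoint Γ c M) (hx : TorusFixed T x M) :
    Fx (QQ Γ T) (T.hb : K)⁻¹ c (fun r => (x r : K)) M.X M.Y M.I M.J where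
  mod :=
    { sa := fun e r' r h => ⟨(hM.suppX e r' r h).2, (hM.suppX e r' r h).1⟩
      sb := fun e r' r h => ⟨(hM.suppY e r' r h).2, (hM.suppY e r' r h).1⟩
      si := fun r f h => hM.suppI r f h
      sj := fun f r h => hM.suppJ f r h
      mom := hM.moment
      st := hM.stable }
  ax e r' r h := by
    have h1 := hx.wtX e r' r h
    rw [div_eq_one] at h1
    show (T.τ e : K) * x r' = x r
    rw [← h1]
    push_cast
    rfl
  bx e r' r h := by
    have h1 := hx.wtY e r' r h
    rw [div_eq_one] at h1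
    have h2 := congrArg (fun z : Kˣ => (z : K)) h1
    simp only [Units.val_mul] at h2
    show (x r' : K) = (T.hb : K)⁻¹ * T.τ e * x r
    rw [mul_assoc, ← h2, inv_mul_cancel_left₀ T.hb.ne_zero]
  ix r f h := by
    have h1 := hx.wtI r f h
    rw [div_eq_one] at h1
    show (x r : K) = T.a f
    rw [h1]
  jx f r h := by
    have h1 := hx.wtJ f r h
    rw [div_eq_one] at h1
    have h2 := congrArg (fun z : Kˣ => (z : K)) h1
    simp only [Units.val_mul] at h2
    show (T.a f : K) = (T.hb : K)⁻¹ * x r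
    rw [← h2, inv_mul_cancel_left₀ T.hb.ne_zero]

lemma muv_dv {I E F : Type*} {P P' : Type*} [Fintype I] [Fintype E] [Fintype F] [Fintype P]
    [Fintype P'] [DecidableEq I] [DecidableEq E] [DecidableEq F] (Q : QD K I E F)
    {c : P → I} {c' : P' → I} (h : dv c = dv c') :
    Pool.Agent.Run7.h657.muv Q c = Pool.Agent.Run7.h657.muv Q c' ∧
      Pool.Agent.Run7.h657.bv Q c = Pool.Agent.Run7.h657.bv Q c' := by
  constructor
  · funext j
    unfold Pool.Agent.Run7.h657.muv
    rw [h]
  · funext j
    unfold Pool.Agent.Run7.h657.bv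
    rw [h]

/-- the product formula in the form of the helper files -/
theorem main_PF [CharZero K] [LinearOrder P] (hl : ∀ e, Γ.tail e ≠ Γ.head e)
    (hT : Independent T) (hM : IsPoint Γ c M) (hd : DimZero Γ c)
    (hx : TorusFixed T x M) (hord : LevelOrder T x) :
    iterRes (integrand Γ T c x 0) ≠ 0 ∧
    ∃ R : Finset (V →₀ ℕ), (∀ α, α ∈ R ↔ PRt (QQ Γ T) α ∧
        pr α (Pool.Agent.Run7.h657.muv (QQ Γ T) c) < 0) ∧
      resVertex Γ T c x = PF (T.q : K)⁻¹ (T.hb : K)⁻¹ R
        (fun α => (-pr α (Pool.Agent.Run7.h657.muv (QQ Γ T) c)).toNat)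
        (Pool.Agent.Run7.h657.bv (QQ Γ T) c) := by
  classical
  obtain ⟨N, inst, f, cι, xι, hL, hq, hc, hxx⟩ :=
    exists_universe Γ T hT c x (weight_level hM hx) hord
  have hs := sepQ Γ hl T hT
  obtain ⟨h1, h2⟩ := resVertex_eq hs hL hq hc hxx
  have hcc : (fun r => cι (f.toEmbedding r)) = c := funext hc
  have hxc : (fun r => xι (f.toEmbedding r)) = fun r => (x r : K) := funext hxx
  have hFx : Fx (QQ Γ T) (T.hb : K)⁻¹ (fun r => cι (f.toEmbedding r))
      (fun r => xι (f.toEmbedding r)) M.X M.Y M.I M.J := by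
    rw [hcc, hxc]
    exact toFx hM hx
  have hZD : ZD (QQ Γ T) (fun r => cι (f.toEmbedding r)) := by
    rw [hcc]
    exact zd hd
  obtain ⟨_, hne⟩ := NZ hs hL hq _ P f.toEmbedding M.X M.Y M.I M.J rfl hFx hZD
  have hne' : VJ (QQ Γ T) (T.q : K)⁻¹ (T.hb : K)⁻¹ cι xι (Rf f) (fun _ => 0) ≠ 0 := hne
  refine ⟨by rw [h2]; exact hne', ?_⟩
  have hzz : ZDz (QQ Γ T) (dR cι (Rf f)) := ZDz_map (f := f.toEmbedding) hZD
  obtain ⟨R, hR, hV⟩ := claim_R hs hL hq _ (Rf f) rfl hne' hzz
  have hdv : dv (fun r : ↥(Rf f) => cι r.1) = dv c := by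
    funext j
    rw [dv_R]
    have h3 := dv_map (f := f.toEmbedding) (cι := cι) j
    rw [hcc] at h3
    exact h3.symm
  obtain ⟨h3, h4⟩ := muv_dv (QQ Γ T) hdv
  rw [h3] at hR
  rw [h3, h4] at hV
  exact ⟨R, hR, by rw [h1, hV]⟩

end Pool.Agent.Run7.h657.Res
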