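import Pool.Agent.Run7.h657.ST

/-! The product formula in terms of the function `Φ`, and the comparison with localization. -/

set_option linter.unusedSectionVars false

namespace Pool.Agent.Run7.h657.Vx

open Finset Res

universe u1 u2 u3 u4 u5

variable {K : Type u1} {V : Type u2} {A : Type u3} {W : Type u4} {P : Type u5} [Field K]
  [Fintype V] [Fintype A] [Fintype W] [Fintype P] [DecidableEq V]

variable {Γ : FQuiver V A W} {T : Par K A W} {c : P → V} {x : P → Kˣ} {M : Rep K A W P}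

lemma Independent.generic (hT : Independent T) : Generic T := by
  classical
  intro m hm hmem
  apply hm
  have h1 : ∀ y ∈ Subgroup.closure ({T.hb} ∪ Set.range T.τ ∪ Set.range T.a),
      ∃ g : Wx A W, mon T g = y := by
    intro y hy
    induction hy using Subgroup.closure_induction with
    | mem z hz =>
      rcases hz with (hz | ⟨e, rfl⟩) | ⟨f, rfl⟩
      · rw [Set.mem_singleton_iff] at hz
        subst hz
        exact ⟨hE A W, mon_hE T⟩
      · exact ⟨tE W e, mon_tE T e⟩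
      · exact ⟨aE A f, mon_aE T f⟩
    | one => exact ⟨0, mon_zero T⟩
    | mul a b _ _ ha hb =>
      obtain ⟨g, rfl⟩ := ha
      obtain ⟨g', rfl⟩ := hb
      exact ⟨g + g', mon_add T g g'⟩
    | inv a _ ha =>
      obtain ⟨g, rfl⟩ := ha
      exact ⟨-g, mon_neg T g⟩
  obtain ⟨g, hg⟩ := h1 _ hmem
  have h2 := hT (-m) g.1 g.2.1 g.2.2 (by
    have h3 : T.q ^ (-m) * mon T g = 1 := by rw [hg, ← zpow_add]; simp
    rw [← h3]
    unfold mon
    simp only [mul_assoc])
  have := h2.1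
  omega

lemma MultFree.fixed (h : MultFree Γ T c x M) : TorusFixed T x M where
  wtX e r' r hne := ((h.wtX e r' r).1 hne).2
  wtY e r' r hne := ((h.wtY e r' r).1 hne).2
  wtI r f hne := ((h.wtI r f).1 hne).2
  wtJ f r hne := ((h.wtJ f r).1 hne).2

/-- the product formula in terms of `Φ` -/
lemma PF_Phi (hT : Generic T) (hl : ∀ e, Γ.tail e ≠ Γ.head e) (V0 : MvPowerSeries V K)
    (R : Finset (V →₀ ℕ)) (hR : ∀ α ∈ R, PRt (QQ Γ T) α)
    (hV : V0 = PF (T.q : K)⁻¹ (T.hb : K)⁻¹ R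
        (fun α => (-pr α (Pool.Agent.Run7.h657.muv (QQ Γ T) c)).toNat)
        (Pool.Agent.Run7.h657.bv (QQ Γ T) c)) :
    V0 * ∏ α ∈ R, ∏ i ∈ range (-pair α (muv Γ c)).toNat,
          PhiAt (T.q : K) α (((T.hb : K) / T.q) ^ i * ((T.q : K) / T.hb) ^ pair α (bv Γ c)) =
        ∏ α ∈ R, ∏ i ∈ range (-pair α (muv Γ c)).toNat,
          PhiAt (T.q : K) α
            (T.hb * (((T.hb : K) / T.q) ^ i * ((T.q : K) / T.hb) ^ pair α (bv Γ c))) := by
  classical
  have hok := ok hT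
  have hq0 := T.q.ne_zero
  have hh0 := T.hb.ne_zero
  have hq : ∀ m : ℕ, 0 < m → (T.q : K) ^ m ≠ 1 := by
    intro m hm hh
    apply hok.hpp m hm
    rw [inv_pow, hh, inv_one]
  have hmu : Pool.Agent.Run7.h657.muv (QQ Γ T) c = muv Γ c := funext mu_eq
  have hbv : Pool.Agent.Run7.h657.bv (QQ Γ T) c = bv Γ c := funext bv_eq
  have hpr : ∀ (α : V →₀ ℕ) (y : V → ℤ), pr α y = pair α y := fun _ _ => rfl
  rw [hmu, hbv] at hV
  rw [hV]
  unfold PF
  rw [← prod_mul_distrib]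
  apply prod_congr rfl
  intro α hα
  have hα0 : α ≠ 0 := PRt_ne (QQ Γ T) hl (hR α hα)
  simp only [hpr]
  rw [← prod_mul_distrib]
  apply prod_congr rfl
  intro i _
  have e1 : ((T.q : K)⁻¹ / (T.hb : K)⁻¹) ^ ((i : ℤ) + 1 - pair α (bv Γ c)) =
      ((T.q : K)⁻¹ / (T.hb : K)⁻¹) *
        (((T.hb : K) / T.q) ^ i * ((T.q : K) / T.hb) ^ pair α (bv Γ c)) := by
    have h1 : (T.q : K)⁻¹ / (T.hb : K)⁻¹ = (T.hb : K) / T.q := by field_simp
    have h2 : (T.hb : K) / T.q ≠ 0 := div_ne_zero hh0 hq0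
    rw [h1, zpow_sub₀ h2, zpow_add_one₀ h2, zpow_natCast]
    have h3 : ((T.q : K) / T.hb) ^ pair α (bv Γ c) =
        (((T.hb : K) / T.q) ^ pair α (bv Γ c))⁻¹ := by
      rw [← inv_zpow, inv_div]
    rw [h3]
    have := zpow_ne_zero (pair α (bv Γ c)) h2
    field_simp
  rw [e1]
  exact ev_factor hq0 hh0 hq hα0 _

/-- the localization series in the form of the helper files -/
lemma loc_PF (hl : ∀ e, Γ.tail e ≠ Γ.head e)
    (hT : Independent T) (hM : IsPoint Γ c M) (hd : DimZero Γ c)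
    (hx : MultFree Γ T c x M) :
    ∃ R : Finset (V →₀ ℕ), (∀ α, α ∈ R ↔ PRt (QQ Γ T) α ∧
        pr α (Pool.Agent.Run7.h657.muv (QQ Γ T) c) < 0) ∧
      vertex Γ T c x M = PF (T.q : K)⁻¹ (T.hb : K)⁻¹ R
        (fun α => (-pr α (Pool.Agent.Run7.h657.muv (QQ Γ T) c)).toNat)
        (Pool.Agent.Run7.h657.bv (QQ Γ T) c) := by
  classical
  have hG := Independent.generic hT
  obtain ⟨R', hR', hV'⟩ := claim_all (Q := QQ Γ T) (ok hG) hl (fun e => (T.τ e).ne_zero)
    (Fintype.card P) P c (fun r => (x r : K)) M.X M.Y M.I M.J rfl (good hM hx hG) (zd hd)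
  have hvs : vertex Γ T c x M = Vs (QQ Γ T) (T.q : K)⁻¹ (T.hb : K)⁻¹ c
      (fun r => (x r : K)) := by
    ext d
    rw [coeff_vertex hM hx, coeff_Vs]
  exact ⟨R', hR', by rw [hvs, hV']⟩

/-- in the multiplicity free case the residue series is the localization series -/
theorem res_eq_loc [CharZero K] [LinearOrder P] (hl : ∀ e, Γ.tail e ≠ Γ.head e)
    (hT : Independent T) (hM : IsPoint Γ c M) (hd : DimZero Γ c)
    (hx : MultFree Γ T c x M) (hord : LevelOrder T x) :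
    resVertex Γ T c x = vertex Γ T c x M := by
  obtain ⟨_, R, hR, hV⟩ := main_PF hl hT hM hd (MultFree.fixed hx) hord
  obtain ⟨R', hR', hV'⟩ := loc_PF hl hT hM hd hx
  have hRR : R = R' := by
    ext α
    rw [hR, hR']
  rw [hV, hV', hRR]

/-- **The product formula.** -/
theorem product_formula [CharZero K] [LinearOrder P] (hl : ∀ e, Γ.tail e ≠ Γ.head e)
    (hT : Independent T) (hM : IsPoint Γ c M) (hd : DimZero Γ c)
    (hx : TorusFixed T x M) (hord : LevelOrder T x) :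
    iterRes (integrand Γ T c x 0) ≠ 0 ∧
    ∃ R : Finset (V →₀ ℕ),
      (∀ α, α ∈ R ↔ IsRealRoot Γ (fun i => (α i : ℤ)) ∧ pair α (muv Γ c) < 0) ∧
      resVertex Γ T c x *
        ∏ α ∈ R, ∏ i ∈ range (-pair α (muv Γ c)).toNat,
          PhiAt (T.q : K) α (((T.hb : K) / T.q) ^ i * ((T.q : K) / T.hb) ^ pair α (bv Γ c)) =
        ∏ α ∈ R, ∏ i ∈ range (-pair α (muv Γ c)).toNat,
          PhiAt (T.q : K) α
            (T.hb * (((T.hb : K) / T.q) ^ i * ((T.q : K) / T.hb) ^ pair α (bv Γ c))) := by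
  obtain ⟨h0, R, hR, hV⟩ := main_PF hl hT hM hd hx hord
  refine ⟨h0, R, ?_, PF_Phi (Independent.generic hT) hl _ R (fun α hα => ((hR α).1 hα).1) hV⟩
  have hmu : Pool.Agent.Run7.h657.muv (QQ Γ T) c = muv Γ c := funext mu_eq
  intro α
  rw [hR, root_iff, hmu]
  rfl

end Pool.Agent.Run7.h657.Vx
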