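import Mathlib

/-! The monomial twist attached to a simple reflection. -/

set_option linter.unusedSectionVars false

namespace Pool.Agent.Run7.h657

open Finset

variable {K : Type*} [Field K] {I : Type*} [Fintype I] [DecidableEq I]

/-- data of a simple reflection on exponents -/
structure Rfl (I : Type*) [DecidableEq I] where
  i : I
  E : (I →₀ ℕ) →+ ℕ
  hE : ∀ d m, E (d.update i m) = E d

/-- the reflected exponent -/
noncomputable def Rfl.s (r : Rfl I) (d : I →₀ ℕ) : I →₀ ℕ := d.update r.i (r.E d - d r.i)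

/-- the cone where the reflection makes sense -/
def Rfl.C (r : Rfl I) (d : I →₀ ℕ) : Prop := d r.i ≤ r.E d

noncomputable instance (r : Rfl I) (d : I →₀ ℕ) : Decidable (r.C d) := Nat.decLe _ _

lemma Rfl.s_i (r : Rfl I) (d : I →₀ ℕ) : r.s d r.i = r.E d - d r.i := by
  simp [Rfl.s]

lemma Rfl.s_ne (r : Rfl I) (d : I →₀ ℕ) {j : I} (hj : j ≠ r.i) : r.s d j = d j := by
  simp [Rfl.s, Finsupp.update_apply, hj]

lemma Rfl.E_s (r : Rfl I) (d : I →₀ ℕ) : r.E (r.s d) = r.E d := r.hE _ _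

lemma Rfl.C_s (r : Rfl I) (d : I →₀ ℕ) : r.C (r.s d) := by
  unfold Rfl.C
  rw [r.s_i, r.E_s]
  omega

lemma Rfl.s_s (r : Rfl I) {d : I →₀ ℕ} (h : r.C d) : r.s (r.s d) = d := by
  ext j
  by_cases hj : j = r.i
  · subst hj
    rw [r.s_i, r.E_s, r.s_i]
    unfold Rfl.C at h
    omega
  · rw [r.s_ne _ hj, r.s_ne _ hj]

lemma Rfl.C_add (r : Rfl I) {d d' : I →₀ ℕ} (h : r.C d) (h' : r.C d') : r.C (d + d') := by
  unfold Rfl.C at *
  rw [map_add, Finsupp.add_apply]
  omega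

lemma Rfl.s_add (r : Rfl I) {d d' : I →₀ ℕ} (h : r.C d) (h' : r.C d') :
    r.s (d + d') = r.s d + r.s d' := by
  ext j
  rw [Finsupp.add_apply]
  by_cases hj : j = r.i
  · subst hj
    rw [r.s_i, r.s_i, r.s_i, map_add, Finsupp.add_apply]
    unfold Rfl.C at h h'
    omega
  · rw [r.s_ne _ hj, r.s_ne _ hj, r.s_ne _ hj, Finsupp.add_apply]

lemma Rfl.C_zero (r : Rfl I) : r.C 0 := by
  unfold Rfl.C
  simp

lemma Rfl.s_zero (r : Rfl I) : r.s 0 = 0 := by
  ext j
  by_cases hj : j = r.i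
  · subst hj
    rw [r.s_i]
    simp
  · rw [r.s_ne _ hj]

lemma Rfl.C_nsmul (r : Rfl I) {d : I →₀ ℕ} (h : r.C d) (m : ℕ) : r.C (m • d) := by
  induction m with
  | zero => rw [zero_smul]; exact r.C_zero
  | succ m ih => rw [succ_nsmul]; exact r.C_add ih h

lemma Rfl.s_nsmul (r : Rfl I) {d : I →₀ ℕ} (h : r.C d) (m : ℕ) : r.s (m • d) = m • r.s d := by
  induction m with
  | zero => rw [zero_smul, zero_smul]; exact r.s_zero
  | succ m ih => rw [succ_nsmul, succ_nsmul, r.s_add (r.C_nsmul h m) h, ih]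

/-- the twist operator -/
noncomputable def Rfl.T (r : Rfl I) (c : K) (χ : (I →₀ ℕ) →+ ℤ) (f : MvPowerSeries I K) :
    MvPowerSeries I K :=
  fun d => if r.C d then c ^ χ d * MvPowerSeries.coeff (r.s d) f else 0

lemma Rfl.coeff_T (r : Rfl I) (c : K) (χ : (I →₀ ℕ) →+ ℤ) (f : MvPowerSeries I K) (d : I →₀ ℕ) :
    MvPowerSeries.coeff d (r.T c χ f) =
      if r.C d then c ^ χ d * MvPowerSeries.coeff (r.s d) f else 0 := rfl

/-- supported in the cone -/
def Rfl.Sup (r : Rfl I) (f : MvPowerSeries I K) : Prop :=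
  ∀ d, ¬ r.C d → MvPowerSeries.coeff d f = 0

lemma Rfl.Sup_mul (r : Rfl I) {f g : MvPowerSeries I K} (hf : r.Sup f) (hg : r.Sup g) :
    r.Sup (f * g) := by
  intro d hd
  rw [MvPowerSeries.coeff_mul]
  apply sum_eq_zero
  intro z hz
  rw [HasAntidiagonal.mem_antidiagonal] at hz
  by_cases h1 : r.C z.1
  · by_cases h2 : r.C z.2
    · exact absurd (hz ▸ r.C_add h1 h2) hd
    · rw [hg _ h2, mul_zero]
  · rw [hf _ h1, zero_mul]

lemma Rfl.Sup_one (r : Rfl I) : r.Sup (1 : MvPowerSeries I K) := by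
  intro d hd
  rw [MvPowerSeries.coeff_one, if_neg]
  rintro rfl
  exact hd r.C_zero

lemma Rfl.T_mul (r : Rfl I) {c : K} (hc : c ≠ 0) (χ : (I →₀ ℕ) →+ ℤ) {f g : MvPowerSeries I K}
    (hf : r.Sup f) (hg : r.Sup g) : r.T c χ (f * g) = r.T c χ f * r.T c χ g := by
  ext d
  rw [r.coeff_T, MvPowerSeries.coeff_mul, MvPowerSeries.coeff_mul]
  by_cases hd : r.C d
  · rw [if_pos hd]
    have h1 : ∑ z ∈ antidiagonal (r.s d), MvPowerSeries.coeff z.1 f * MvPowerSeries.coeff z.2 g =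
        ∑ z ∈ antidiagonal (r.s d) with r.C z.1 ∧ r.C z.2,
          MvPowerSeries.coeff z.1 f * MvPowerSeries.coeff z.2 g := by
      rw [sum_filter]
      apply sum_congr rfl
      intro z _
      split_ifs with h
      · rfl
      · rw [not_and_or] at h
        rcases h with h | h
        · rw [hf _ h, zero_mul]
        · rw [hg _ h, mul_zero]
    have h2 : ∑ z ∈ antidiagonal d, MvPowerSeries.coeff z.1 (r.T c χ f) *
        MvPowerSeries.coeff z.2 (r.T c χ g) =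
        ∑ z ∈ antidiagonal d with r.C z.1 ∧ r.C z.2,
          MvPowerSeries.coeff z.1 (r.T c χ f) * MvPowerSeries.coeff z.2 (r.T c χ g) := by
      rw [sum_filter]
      apply sum_congr rfl
      intro z _
      split_ifs with h
      · rfl
      · rw [not_and_or] at h
        rcases h with h | h
        · rw [r.coeff_T, if_neg h, zero_mul]
        · rw [r.coeff_T c χ g, if_neg h, mul_zero]
    rw [h1, h2, mul_sum]
    refine sum_nbij' (fun z => (r.s z.1, r.s z.2)) (fun z => (r.s z.1, r.s z.2)) ?_ ?_ ?_ ?_ ?_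
    · intro z hz
      rw [mem_filter, HasAntidiagonal.mem_antidiagonal] at hz ⊢
      refine ⟨?_, r.C_s _, r.C_s _⟩
      rw [← r.s_add hz.2.1 hz.2.2, hz.1, r.s_s hd]
    · intro z hz
      rw [mem_filter, HasAntidiagonal.mem_antidiagonal] at hz ⊢
      refine ⟨?_, r.C_s _, r.C_s _⟩
      rw [← r.s_add hz.2.1 hz.2.2, hz.1]
    · intro z hz
      rw [mem_filter] at hz
      simp only [r.s_s hz.2.1, r.s_s hz.2.2]
    · intro z hz
      rw [mem_filter] at hz
      simp only [r.s_s hz.2.1, r.s_s hz.2.2]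
    · intro z hz
      rw [mem_filter, HasAntidiagonal.mem_antidiagonal] at hz
      rw [r.coeff_T, r.coeff_T, if_pos (r.C_s _), if_pos (r.C_s _), r.s_s hz.2.1, r.s_s hz.2.2]
      have : c ^ χ d = c ^ χ (r.s z.1) * c ^ χ (r.s z.2) := by
        rw [← zpow_add₀ hc, ← map_add, ← r.s_add hz.2.1 hz.2.2, hz.1, r.s_s hd]
      rw [this]
      ring
  · rw [if_neg hd]
    symm
    apply sum_eq_zero
    intro z hz
    rw [HasAntidiagonal.mem_antidiagonal] at hz
    rw [r.coeff_T, r.coeff_T]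
    by_cases h1 : r.C z.1
    · by_cases h2 : r.C z.2
      · exact absurd (hz ▸ r.C_add h1 h2) hd
      · rw [if_neg h2, mul_zero]
    · rw [if_neg h1, zero_mul]

lemma Rfl.T_one (r : Rfl I) (c : K) (χ : (I →₀ ℕ) →+ ℤ) :
    r.T c χ (1 : MvPowerSeries I K) = 1 := by
  ext d
  rw [r.coeff_T, MvPowerSeries.coeff_one, MvPowerSeries.coeff_one]
  by_cases hd : d = 0
  · subst hd
    rw [if_pos r.C_zero, r.s_zero, map_zero, zpow_zero]
    simp
  · rw [if_neg hd]
    split_ifs with h1 h2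
    · exfalso
      apply hd
      rw [← r.s_s h1, h2, r.s_zero]
    · rw [mul_zero]
    · rfl

lemma Rfl.T_prod (r : Rfl I) {c : K} (hc : c ≠ 0) (χ : (I →₀ ℕ) →+ ℤ) {ι : Type*}
    (S : Finset ι) (f : ι → MvPowerSeries I K) (hf : ∀ a ∈ S, r.Sup (f a)) :
    r.T c χ (∏ a ∈ S, f a) = ∏ a ∈ S, r.T c χ (f a) ∧ r.Sup (∏ a ∈ S, f a) := by
  classical
  induction S using Finset.induction_on with
  | empty => simpa using ⟨r.T_one c χ, r.Sup_one⟩
  | insert a S ha ih =>
    have h1 := hf a (mem_insert_self a S)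
    have h2 := ih fun b hb => hf b (mem_insert_of_mem hb)
    rw [prod_insert ha, prod_insert ha, r.T_mul hc χ h1 h2.2, h2.1]
    exact ⟨rfl, r.Sup_mul h1 h2.2⟩

/-- a one-variable series evaluated at `u z^β` -/
noncomputable def ev (F : PowerSeries K) (β : I →₀ ℕ) (u : K) : MvPowerSeries I K :=
  F.subst (MvPowerSeries.monomial β u)

lemma hasSubst_mon {β : I →₀ ℕ} (hβ : β ≠ 0) (u : K) :
    PowerSeries.HasSubst (MvPowerSeries.monomial β u) := by
  apply PowerSeries.HasSubst.of_constantCoeff_zero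
  rw [← MvPowerSeries.coeff_zero_eq_constantCoeff_apply, MvPowerSeries.coeff_monomial,
    if_neg (Ne.symm hβ)]

lemma coeff_ev_smul (F : PowerSeries K) {β : I →₀ ℕ} (hβ : β ≠ 0) (u : K) (m : ℕ) :
    MvPowerSeries.coeff (m • β) (ev F β u) = PowerSeries.coeff m F * u ^ m := by
  unfold ev
  rw [PowerSeries.coeff_subst (hasSubst_mon hβ u), finsum_eq_single _ m]
  · rw [MvPowerSeries.monomial_pow, MvPowerSeries.coeff_monomial, if_pos rfl, smul_eq_mul]
  · intro n hn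
    rw [MvPowerSeries.monomial_pow, MvPowerSeries.coeff_monomial, if_neg, smul_zero]
    intro h
    apply hn
    obtain ⟨j, hj⟩ := Finsupp.ne_iff.1 hβ
    have := DFunLike.congr_fun h j
    simp only [Finsupp.smul_apply, smul_eq_mul] at this
    exact (Nat.eq_of_mul_eq_mul_right (Nat.pos_of_ne_zero hj) this).symm

lemma coeff_ev_not (F : PowerSeries K) {β : I →₀ ℕ} (hβ : β ≠ 0) (u : K) (d : I →₀ ℕ)
    (hd : ∀ m : ℕ, d ≠ m • β) : MvPowerSeries.coeff d (ev F β u) = 0 := by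
  unfold ev
  rw [PowerSeries.coeff_subst (hasSubst_mon hβ u)]
  apply finsum_eq_zero_of_forall_eq_zero
  intro n
  rw [MvPowerSeries.monomial_pow, MvPowerSeries.coeff_monomial, if_neg (hd n), smul_zero]

lemma Rfl.Sup_ev (r : Rfl I) (F : PowerSeries K) {β : I →₀ ℕ} (hβ : β ≠ 0) (hC : r.C β) (u : K) :
    r.Sup (ev F β u) := by
  intro d hd
  apply coeff_ev_not F hβ
  rintro m rfl
  exact hd (r.C_nsmul hC m)

lemma Rfl.s_ne_zero (r : Rfl I) {β : I →₀ ℕ} (hβ : β ≠ 0) (hC : r.C β) : r.s β ≠ 0 := by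
  intro h
  apply hβ
  rw [← r.s_s hC, h, r.s_zero]

lemma Rfl.T_ev (r : Rfl I) {c : K} (hc : c ≠ 0) (χ : (I →₀ ℕ) →+ ℤ) (F : PowerSeries K)
    {β : I →₀ ℕ} (hβ : β ≠ 0) (hC : r.C β) (u : K) :
    r.T c χ (ev F β u) = ev F (r.s β) (u * c ^ χ (r.s β)) := by
  ext d
  rw [r.coeff_T]
  have hβ' := r.s_ne_zero hβ hC
  by_cases hd : ∃ m : ℕ, d = m • r.s β
  · obtain ⟨m, rfl⟩ := hd
    rw [if_pos (r.C_nsmul (r.C_s β) m), coeff_ev_smul F hβ', r.s_nsmul (r.C_s β), r.s_s hC,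
      coeff_ev_smul F hβ, map_nsmul, nsmul_eq_mul, mul_comm (m : ℤ), zpow_mul, zpow_natCast, mul_pow]
    ring
  · push Not at hd
    rw [coeff_ev_not F hβ' _ d hd]
    split_ifs with h1
    · rw [coeff_ev_not F hβ, mul_zero]
      intro m hm
      apply hd m
      rw [← r.s_s h1, hm, r.s_nsmul hC]
    · rfl

end Pool.Agent.Run7.h657
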