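import Pool.Agent.Run7.h657.Glob
import Pool.Agent.Run7.h657.Tw
import Pool.Agent.Run7.h657.Root

/-! The reflection step for the generating series and the product. -/

set_option linter.unusedSectionVars false

namespace Pool.Agent.Run7.h657

open Finset

variable {K : Type*} [Field K]
variable {I E F P A B Y : Type*} [Fintype I] [Fintype E] [Fintype F] [Fintype P] [Fintype A]
  [Fintype B] [Fintype Y] [DecidableEq I] [DecidableEq P] [DecidableEq A] [DecidableEq B]
  [DecidableEq Y] [DecidableEq E] [DecidableEq F]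

/-- pairing of an exponent with an integer vector -/
def pr (d : I →₀ ℕ) (a : I → ℤ) : ℤ := ∑ j, (d j : ℤ) * a j

/-- the same as an additive map -/
def prh (a : I → ℤ) : (I →₀ ℕ) →+ ℤ where
  toFun d := pr d a
  map_zero' := by simp [pr]
  map_add' d d' := by
    simp only [pr, Finsupp.add_apply, Nat.cast_add, add_mul, sum_add_distrib]

@[simp] lemma prh_apply (a : I → ℤ) (d : I →₀ ℕ) : prh a d = pr d a := rfl

/-- number of edges between two vertices -/
def nE (Q : QD K I E F) (i j : I) : ℕ :=
  (univ.filter fun e => Q.tgt e = i ∧ Q.src e = j).card +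
  (univ.filter fun e => Q.src e = i ∧ Q.tgt e = j).card

lemma sum_edge_in (Q : QD K I E F) (i : I) (d : I → ℤ) :
    ∑ b with Q.tgt b = i, d (Q.src b) =
      ∑ j, ((univ.filter fun e => Q.tgt e = i ∧ Q.src e = j).card : ℤ) * d j := by
  have : ∀ j, ((univ.filter fun e => Q.tgt e = i ∧ Q.src e = j).card : ℤ) * d j =
      ∑ e, if Q.tgt e = i ∧ Q.src e = j then d (Q.src e) else 0 := by
    intro j
    rw [← sum_filter, ← nsmul_eq_mul, ← sum_const]
    apply sum_congr rfl
    intro e he
    rw [mem_filter] at he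
    rw [he.2.2]
  simp_rw [this]
  rw [sum_comm, sum_filter]
  apply sum_congr rfl
  intro e _
  by_cases h : Q.tgt e = i
  · simp [h]
  · simp [h]

lemma sum_edge_out (Q : QD K I E F) (i : I) (d : I → ℤ) :
    ∑ b with Q.src b = i, d (Q.tgt b) =
      ∑ j, ((univ.filter fun e => Q.src e = i ∧ Q.tgt e = j).card : ℤ) * d j := by
  have : ∀ j, ((univ.filter fun e => Q.src e = i ∧ Q.tgt e = j).card : ℤ) * d j =
      ∑ e, if Q.src e = i ∧ Q.tgt e = j then d (Q.tgt e) else 0 := by
    intro j
    rw [← sum_filter, ← nsmul_eq_mul, ← sum_const]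
    apply sum_congr rfl
    intro e he
    rw [mem_filter] at he
    rw [he.2.2]
  simp_rw [this]
  rw [sum_comm, sum_filter]
  apply sum_congr rfl
  intro e _
  by_cases h : Q.src e = i
  · simp [h]
  · simp [h]

lemma E_cast (Q : QD K I E F) (i : I) (d : I → ℕ) :
    ((Et Q i d + Es Q i d : ℕ) : ℤ) = ∑ j, (nE Q i j : ℤ) * d j := by
  unfold Et Es nE
  push_cast
  rw [sum_edge_in Q i (fun j => (d j : ℤ)), sum_edge_out Q i (fun j => (d j : ℤ)),
    ← sum_add_distrib]
  apply sum_congr rfl
  intro j _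
  ring

lemma Es_cast (Q : QD K I E F) (i : I) (d : I → ℕ) :
    (Es Q i d : ℤ) =
      ∑ j, ((univ.filter fun e => Q.src e = i ∧ Q.tgt e = j).card : ℤ) * d j := by
  unfold Es
  push_cast
  rw [sum_edge_out Q i (fun j => (d j : ℤ))]

/-- the reflection attached to a vertex -/
def rQ (Q : QD K I E F) (hl : ∀ e, Q.src e ≠ Q.tgt e) (i : I) : Rfl I where
  i := i
  E :=
    { toFun := fun d => Et Q i d + Es Q i d
      map_zero' := by simp [Et, Es]
      map_add' := fun d d' => by
        simp only [Et, Es, Finsupp.add_apply, sum_add_distrib]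
        ring }
  hE := by
    intro d m
    simp only [AddMonoidHom.coe_mk, ZeroHom.coe_mk, Et, Es]
    congr 1
    · apply sum_congr rfl
      intro e he
      rw [mem_filter] at he
      rw [Finsupp.update_apply, if_neg (fun h => hl e (h.trans he.2.symm))]
    · apply sum_congr rfl
      intro e he
      rw [mem_filter] at he
      rw [Finsupp.update_apply, if_neg (fun h => hl e (he.2.trans h.symm))]

@[simp] lemma rQ_i (Q : QD K I E F) (hl : ∀ e, Q.src e ≠ Q.tgt e) (i : I) :
    (rQ Q hl i).i = i := rfl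

@[simp] lemma rQ_E (Q : QD K I E F) (hl : ∀ e, Q.src e ≠ Q.tgt e) (i : I) (d : I →₀ ℕ) :
    (rQ Q hl i).E d = Et Q i d + Es Q i d := rfl

/-- the generating series -/
noncomputable def Vs (Q : QD K I E F) (p t : K) (c : P → I) (x : P → K) : MvPowerSeries I K :=
  fun d => Vc Q p t c x d

lemma coeff_Vs (Q : QD K I E F) (p t : K) (c : P → I) (x : P → K) (d : I →₀ ℕ) :
    MvPowerSeries.coeff d (Vs Q p t c x) = Vc Q p t c x d := rfl

lemma single_ne (i : I) : Finsupp.single i 1 ≠ 0 := by
  intro h
  have := DFunLike.congr_fun h i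
  simp at this

/-- multiplication by a one-variable series -/
lemma coeff_ev_mul (G : PowerSeries K) (i : I) (u : K) (f : MvPowerSeries I K) (d : I →₀ ℕ) :
    MvPowerSeries.coeff d (ev G (Finsupp.single i 1) u * f) =
      ∑ z ∈ antidiagonal (d i), PowerSeries.coeff z.1 G * u ^ z.1 *
        MvPowerSeries.coeff (d.update i z.2) f := by
  rw [MvPowerSeries.coeff_mul]
  classical
  have h1 : ∑ z ∈ antidiagonal d, MvPowerSeries.coeff z.1 (ev G (Finsupp.single i 1) u) *
      MvPowerSeries.coeff z.2 f =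
      ∑ z ∈ antidiagonal d with ∃ m : ℕ, z.1 = m • Finsupp.single i 1,
      MvPowerSeries.coeff z.1 (ev G (Finsupp.single i 1) u) * MvPowerSeries.coeff z.2 f := by
    rw [sum_filter]
    apply sum_congr rfl
    intro z _
    split_ifs with h
    · rfl
    · push Not at h
      rw [coeff_ev_not G (single_ne i) u _ h, zero_mul]
  rw [h1]
  refine sum_nbij' (fun z => (z.1 i, z.2 i))
    (fun z => (z.1 • Finsupp.single i 1, d.update i z.2)) ?_ ?_ ?_ ?_ ?_
  · intro z hz
    rw [mem_filter, HasAntidiagonal.mem_antidiagonal] at hz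
    rw [HasAntidiagonal.mem_antidiagonal, ← hz.1]
    simp
  · intro z hz
    rw [HasAntidiagonal.mem_antidiagonal] at hz
    rw [mem_filter, HasAntidiagonal.mem_antidiagonal]
    refine ⟨?_, z.1, rfl⟩
    ext j
    by_cases hj : j = i
    · subst hj
      simp [hz]
    · simp [Finsupp.update_apply, hj, Finsupp.single_apply, Ne.symm hj]
  · intro z hz
    rw [mem_filter, HasAntidiagonal.mem_antidiagonal] at hz
    obtain ⟨hz1, m, hm⟩ := hz
    have e1 : z.1 i = m := by rw [hm]; simp
    have e2 : d.update i (z.2 i) = z.2 := by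
      ext j
      rw [← hz1]
      by_cases hj : j = i
      · subst hj; simp
      · simp [Finsupp.update_apply, hj, hm, Finsupp.single_apply, Ne.symm hj]
    show (z.1 i • Finsupp.single i 1, d.update i (z.2 i)) = z
    rw [e1, e2, ← hm]
  · intro z _
    simp
  · intro z hz
    rw [mem_filter, HasAntidiagonal.mem_antidiagonal] at hz
    obtain ⟨hz1, m, hm⟩ := hz
    have e1 : z.1 i = m := by rw [hm]; simp
    have e2 : d.update i (z.2 i) = z.2 := by
      ext j
      rw [← hz1]
      by_cases hj : j = i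
      · subst hj; simp
      · simp [Finsupp.update_apply, hj, hm, Finsupp.single_apply, Ne.symm hj]
    simp only [e1, e2]
    rw [hm, coeff_ev_smul G (single_ne i)]

/-- the twist of the reflection step -/
def chi (Q : QD K I E F) (i : I) (Ns k k' : ℤ) : (I →₀ ℕ) →+ ℤ :=
  prh fun j => (if j = i then 2 * Ns - k - k' else 0) + (k - Ns) * nE Q i j -
    (k - k') * ((univ.filter fun e => Q.src e = i ∧ Q.tgt e = j).card : ℤ)

lemma chi_apply (Q : QD K I E F) (i : I) (Ns k k' : ℤ) (d : I →₀ ℕ) :
    chi Q i Ns k k' d = (2 * Ns - k - k') * d i + (k - Ns) * (Et Q i d + Es Q i d : ℕ) -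
      (k - k') * Es Q i d := by
  unfold chi
  rw [prh_apply, pr, E_cast, Es_cast]
  simp only [mul_sub, mul_add, sum_sub_distrib, sum_add_distrib, mul_ite, mul_zero,
    sum_ite_eq', mem_univ, if_true, mul_sum]
  congr 1
  · congr 1
    · ring
    · apply sum_congr rfl; intro j _; ring
  · apply sum_congr rfl; intro j _; ring

/-- the reflection step for the series -/
theorem Vs_step (Q : QD K I E F) {p t : K} (ok : Ok p t) (i : I) (hl : ∀ e, Q.src e ≠ Q.tgt e)
    (hte : ∀ e, Q.te e ≠ 0) (cY : Y → I) (hc : ∀ r, cY r ≠ i)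
    (xA : A → K) (xY : Y → K) (hxA : ∀ a, xA a ≠ 0) (hxY : ∀ r, xY r ≠ 0) (κ : B → A)
    (h0 : ∃ w : A ⊕ B ≃ Lf Q i cY, Lab p t xA (Ly Q t i cY xY) κ w) :
    Vs Q p t (Sum.elim (fun _ => i) cY) (Sum.elim xA xY) =
      ev (gG p t (Fintype.card B) (Fintype.card A)) (Finsupp.single i 1)
        ((p / t) ^ (Ns Q i cY : ℤ)) *
      (rQ Q hl i).T (p / t) (chi Q i (Ns Q i cY) (Fintype.card A) (Fintype.card B))
        (Vs Q p t (Sum.elim (fun _ => i) cY) (Sum.elim (fun b => xA (κ b)) xY)) := by
  ext d
  rw [coeff_Vs, Vc_step Q ok i hl hte cY hc xA xY hxA hxY κ h0, coeff_ev_mul]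
  apply sum_congr rfl
  intro z _
  rw [mul_assoc]
  congr 1
  rw [Rfl.coeff_T]
  have hC : (rQ Q hl i).C (d.update i z.2) ↔ z.2 ≤ Et Q i d + Es Q i d := by
    unfold Rfl.C
    rw [show (rQ Q hl i).E (d.update i z.2) = (rQ Q hl i).E d from (rQ Q hl i).hE d z.2]
    simp
  have hE1 : Et Q i (d.update i z.2) + Es Q i (d.update i z.2) = Et Q i d + Es Q i d :=
    (rQ Q hl i).hE d z.2
  have hE2 : Es Q i (d.update i z.2) = Es Q i d := by
    unfold Es
    apply sum_congr rfl
    intro e he
    rw [mem_filter] at he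
    rw [Finsupp.update_apply, if_neg (fun h => hl e (he.2.trans h.symm))]
  congr 1
  · rw [zpow_mul, zpow_natCast]
  · by_cases h : z.2 ≤ Et Q i d + Es Q i d
    · rw [if_pos h, if_pos (hC.2 h)]
      congr 1
      · congr 1
        rw [chi_apply, hE1, hE2]
        simp
      · rw [coeff_Vs]
        congr 1
        funext j
        by_cases hj : j = i
        · subst hj
          rw [Function.update_self]
          show _ = ((rQ Q hl j).s (d.update j z.2)) (rQ Q hl j).i
          rw [Rfl.s_i]
          show _ = (Et Q j (d.update j z.2) + Es Q j (d.update j z.2)) - (d.update j z.2) j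
          rw [hE1]
          simp
        · rw [Function.update_of_ne hj, Rfl.s_ne _ _ (by simpa using hj)]
          simp [Finsupp.update_apply, hj]
    · rw [if_neg h, if_neg (fun h' => h (hC.1 h'))]

end Pool.Agent.Run7.h657
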