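import Pool.Agent.Run7.h657.Dim
import Pool.Agent.Run7.h657.Ser

/-! Combinatorial structure at a vertex and restriction to a quotient. -/

set_option linter.unusedSectionVars false

namespace Pool.Agent.Run7.h657

open Finset Module

variable {K : Type*} [Field K]
variable {I E F P A B Y : Type*} [Fintype I] [Fintype E] [Fintype F] [Fintype P] [Fintype A]
  [Fintype B] [Fintype Y] [DecidableEq I] [DecidableEq P] [DecidableEq A] [DecidableEq B]
  [DecidableEq Y] [DecidableEq E] [DecidableEq F]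

/-- a torus fixed point of a quiver variety with multiplicity free weights -/
structure Good (Q : QD K I E F) (p t : K) (c : P → I) (x : P → K) (Ma Mb : E → Matrix P P K)
    (Mi : Matrix P F K) (Mj : Matrix F P K) : Prop where
  x0 : ∀ r, x r ≠ 0
  thin : ∀ r r', c r = c r' → x r = x r' → r = r'
  a_iff : ∀ e r' r, Ma e r' r ≠ 0 ↔ (c r' = Q.tgt e ∧ c r = Q.src e) ∧ Q.te e * x r' = x r
  b_iff : ∀ e r' r, Mb e r' r ≠ 0 ↔ (c r' = Q.src e ∧ c r = Q.tgt e) ∧ x r' = t * Q.te e * x r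
  i_iff : ∀ r f, Mi r f ≠ 0 ↔ c r = Q.cF f ∧ x r = Q.fa f
  j_iff : ∀ f r, Mj f r ≠ 0 ↔ c r = Q.cF f ∧ Q.fa f = t * x r
  mom : ∑ e, (Ma e * Mb e - Mb e * Ma e) + Mi * Mj = 0
  st : Stab c Ma Mb Mi
  fr : ∀ r r', c r = c r' → ∀ j : ℤ, j ≠ 0 → x r ≠ x r' * p ^ j
  frt : ∀ r r', c r = c r' → ∀ j : ℤ, j ≠ 0 → x r ≠ t * x r' * p ^ j

variable {Q : QD K I E F} {p t : K} {c : P → I} {x : P → K} {Ma Mb : E → Matrix P P K}
  {Mi : Matrix P F K} {Mj : Matrix F P K}

lemma Good.toMod (h : Good Q p t c x Ma Mb Mi Mj) : Mod Q c Ma Mb Mi Mj where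
  sa e r' r hh := ((h.a_iff e r' r).1 hh).1
  sb e r' r hh := ((h.b_iff e r' r).1 hh).1
  si r f hh := ((h.i_iff r f).1 hh).1
  sj f r hh := ((h.j_iff f r).1 hh).1
  mom := h.mom
  st := h.st

/-- every basis element has an incoming arrow -/
lemma Good.has_in (h : Good Q p t c x Ma Mb Mi Mj) (r0 : P) :
    (∃ f, Mi r0 f ≠ 0) ∨ (∃ e s, Ma e r0 s ≠ 0) ∨ (∃ e s, Mb e r0 s ≠ 0) := by
  by_contra hcon
  push Not at hcon
  obtain ⟨h1, h2, h3⟩ := hcon
  have hU := h.st (LinearMap.ker (LinearMap.proj r0 : (P → K) →ₗ[K] K)) ?_ ?_ ?_ ?_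
  · have h4 : (Pi.single r0 1 : P → K) ∈ LinearMap.ker (LinearMap.proj r0 : (P → K) →ₗ[K] K) := by
      rw [hU]; trivial
    rw [LinearMap.mem_ker, LinearMap.proj_apply] at h4
    simp at h4
  · intro i u hu
    rw [LinearMap.mem_ker, LinearMap.proj_apply] at hu ⊢
    rw [hu]; simp
  · intro f
    rw [LinearMap.mem_ker, LinearMap.proj_apply]
    exact h1 f
  · intro e u _
    rw [LinearMap.mem_ker, LinearMap.proj_apply, Matrix.mulVec, dotProduct]
    apply sum_eq_zero
    intro s _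
    rw [h2 e s, zero_mul]
  · intro e u _
    rw [LinearMap.mem_ker, LinearMap.proj_apply, Matrix.mulVec, dotProduct]
    apply sum_eq_zero
    intro s _
    rw [h3 e s, zero_mul]

/-- a framing arrow exists -/
lemma Good.has_fr (h : Good Q p t c x Ma Mb Mi Mj) (r0 : P) : ∃ r f, Mi r f ≠ 0 := by
  by_contra hcon
  push Not at hcon
  have hU := h.st ⊥ ?_ ?_ ?_ ?_
  · have h4 : (Pi.single r0 1 : P → K) ∈ (⊥ : Submodule K (P → K)) := by
      rw [hU]; trivial
    rw [Submodule.mem_bot] at h4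
    have := congrFun h4 r0
    simp at this
  · intro i u hu
    rw [Submodule.mem_bot] at hu ⊢
    rw [hu]; funext r; simp
  · intro f
    rw [Submodule.mem_bot]
    funext r
    exact hcon r f
  · intro e u hu
    rw [Submodule.mem_bot] at hu ⊢
    rw [hu, Matrix.mulVec_zero]
  · intro e u hu
    rw [Submodule.mem_bot] at hu ⊢
    rw [hu, Matrix.mulVec_zero]

/-- some outgoing arrow -/
def Out (Ma Mb : E → Matrix P P K) (Mj : Matrix F P K) (r : P) : Prop :=
  (∃ f, Mj f r ≠ 0) ∨ (∃ e s, Ma e s r ≠ 0) ∨ (∃ e s, Mb e s r ≠ 0)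

/-- elements at the vertex -/
abbrev VA (c : P → I) (i : I) := {r : P // c r = i}

/-- elements elsewhere -/
abbrev VY (c : P → I) (i : I) := {r : P // ¬ c r = i}

/-- the neighbours -/
abbrev VL (Q : QD K I E F) (c : P → I) (i : I) := Lf Q i (fun y : VY c i => c y.1)

/-- weights of the neighbours -/
abbrev Pw (Q : QD K I E F) (t : K) (c : P → I) (x : P → K) (i : I) : VL Q c i → K :=
  Ly Q t i (fun y : VY c i => c y.1) (fun y => x y.1)

lemma Good.in_l (h : Good Q p t c x Ma Mb Mi Mj) (hl : ∀ e, Q.src e ≠ Q.tgt e)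
    (hte : ∀ e, Q.te e ≠ 0) (i : I) (a : VA c i) : ∃ l, Pw Q t c x i l = x a.1 := by
  rcases h.has_in a.1 with ⟨f, hf⟩ | ⟨e, s, hs⟩ | ⟨e, s, hs⟩
  · rw [h.i_iff] at hf
    exact ⟨Sum.inr (Sum.inr ⟨f, hf.1.symm.trans a.2⟩), hf.2.symm⟩
  · rw [h.a_iff] at hs
    obtain ⟨⟨h1, h2⟩, h3⟩ := hs
    have h4 : ¬ c s = i := fun h' => hl e ((h2.symm.trans h').trans (a.2.symm.trans h1))
    refine ⟨Sum.inl ⟨(e, ⟨s, h4⟩), h1.symm.trans a.2, h2⟩, ?_⟩
    show x s / Q.te e = x a.1
    rw [← h3]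
    field_simp [hte e]
  · rw [h.b_iff] at hs
    obtain ⟨⟨h1, h2⟩, h3⟩ := hs
    have h4 : ¬ c s = i := fun h' => hl e ((h1.symm.trans a.2).trans (h'.symm.trans h2))
    exact ⟨Sum.inr (Sum.inl ⟨(e, ⟨s, h4⟩), h1.symm.trans a.2, h2⟩), h3.symm⟩

lemma Good.out_l (h : Good Q p t c x Ma Mb Mi Mj) (hl : ∀ e, Q.src e ≠ Q.tgt e)
    (hte : ∀ e, Q.te e ≠ 0) (ht : t ≠ 0) (i : I) (a : VA c i) :
    Out Ma Mb Mj a.1 ↔ ∃ l, Pw Q t c x i l = t * x a.1 := by
  constructor
  · rintro (⟨f, hf⟩ | ⟨e, s, hs⟩ | ⟨e, s, hs⟩)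
    · rw [h.j_iff] at hf
      exact ⟨Sum.inr (Sum.inr ⟨f, hf.1.symm.trans a.2⟩), hf.2⟩
    · rw [h.a_iff] at hs
      obtain ⟨⟨h1, h2⟩, h3⟩ := hs
      have h4 : ¬ c s = i := fun h' => hl e ((h2.symm.trans a.2).trans (h'.symm.trans h1))
      refine ⟨Sum.inr (Sum.inl ⟨(e, ⟨s, h4⟩), h2.symm.trans a.2, h1⟩), ?_⟩
      show t * Q.te e * x s = t * x a.1
      rw [← h3]; ring
    · rw [h.b_iff] at hs
      obtain ⟨⟨h1, h2⟩, h3⟩ := hs
      have h4 : ¬ c s = i := fun h' => hl e ((h1.symm.trans h').trans (a.2.symm.trans h2))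
      refine ⟨Sum.inl ⟨(e, ⟨s, h4⟩), h2.symm.trans a.2, h1⟩, ?_⟩
      show x s / Q.te e = t * x a.1
      rw [h3]
      field_simp [hte e]
  · rintro ⟨l, hll⟩
    rcases l with ⟨⟨e, s⟩, hb, hr⟩ | ⟨⟨e, s⟩, hb, hr⟩ | ⟨f, hf⟩
    · right; right
      refine ⟨e, s.1, ?_⟩
      rw [h.b_iff]
      refine ⟨⟨hr, a.2.trans hb.symm⟩, ?_⟩
      have h5 : x s.1 / Q.te e = t * x a.1 := hll
      rw [div_eq_iff (hte e)] at h5
      rw [h5]; ring
    · right; left
      refine ⟨e, s.1, ?_⟩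
      rw [h.a_iff]
      refine ⟨⟨hr, a.2.trans hb.symm⟩, ?_⟩
      have h5 : t * Q.te e * x s.1 = t * x a.1 := hll
      apply mul_left_cancel₀ ht
      rw [← h5]; ring
    · left
      refine ⟨f, ?_⟩
      rw [h.j_iff]
      exact ⟨a.2.trans hf.symm, hll⟩

/-- the moment map forbids exactly one intermediate step -/
lemma Good.two (h : Good Q p t c x Ma Mb Mi Mj) (hl : ∀ e, Q.src e ≠ Q.tgt e)
    (hte : ∀ e, Q.te e ≠ 0) (ht : t ≠ 0) (i : I) (a b : VA c i) (hab : x a.1 = t * x b.1)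
    (l0 : VL Q c i) (hl0 : Pw Q t c x i l0 = x a.1) :
    ∃ l, l ≠ l0 ∧ Pw Q t c x i l = x a.1 := by
  by_contra hcon
  push Not at hcon
  have huniq : ∀ l, Pw Q t c x i l = x a.1 → l = l0 := by
    intro l hh
    by_contra hne
    exact hcon l hne hh
  let g : (E × P) ⊕ ((E × P) ⊕ F) → K := fun τ => match τ with
    | Sum.inl z => Ma z.1 a.1 z.2 * Mb z.1 z.2 b.1
    | Sum.inr (Sum.inl z) => -(Mb z.1 a.1 z.2 * Ma z.1 z.2 b.1)
    | Sum.inr (Sum.inr f) => Mi a.1 f * Mj f b.1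
  let ι : VL Q c i → (E × P) ⊕ ((E × P) ⊕ F) := fun l => match l with
    | Sum.inl z => Sum.inl (z.1.1, z.1.2.1)
    | Sum.inr (Sum.inl z) => Sum.inr (Sum.inl (z.1.1, z.1.2.1))
    | Sum.inr (Sum.inr f) => Sum.inr (Sum.inr f.1)
  have hsum : ∑ τ, g τ = 0 := by
    have h1 := congrFun (congrFun h.mom a.1) b.1
    rw [Matrix.add_apply, Matrix.sum_apply, Matrix.mul_apply, Matrix.zero_apply] at h1
    rw [Fintype.sum_sum_type, Fintype.sum_sum_type, Fintype.sum_prod_type, Fintype.sum_prod_type,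
      ← add_assoc, ← sum_add_distrib]
    refine Eq.trans ?_ h1
    congr 1
    apply sum_congr rfl
    intro e _
    rw [Matrix.sub_apply, Matrix.mul_apply, Matrix.mul_apply, sub_eq_add_neg, ← sum_neg_distrib]
  have hex : ∀ τ, g τ ≠ 0 → ∃ l, ι l = τ ∧ Pw Q t c x i l = x a.1 := by
    intro τ hτ
    rcases τ with ⟨e, s⟩ | ⟨e, s⟩ | f
    · have h1 := (h.a_iff e a.1 s).1 (left_ne_zero_of_mul hτ)
      obtain ⟨⟨h2, h3⟩, h4⟩ := h1
      have h5 : ¬ c s = i := fun h' => hl e ((h3.symm.trans h').trans (a.2.symm.trans h2))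
      refine ⟨Sum.inl ⟨(e, ⟨s, h5⟩), h2.symm.trans a.2, h3⟩, rfl, ?_⟩
      show x s / Q.te e = x a.1
      rw [← h4]
      field_simp [hte e]
    · have h1 := (h.b_iff e a.1 s).1 (left_ne_zero_of_mul (neg_ne_zero.1 hτ))
      obtain ⟨⟨h2, h3⟩, h4⟩ := h1
      have h5 : ¬ c s = i := fun h' => hl e ((h2.symm.trans a.2).trans (h'.symm.trans h3))
      exact ⟨Sum.inr (Sum.inl ⟨(e, ⟨s, h5⟩), h2.symm.trans a.2, h3⟩), rfl, h4.symm⟩
    · have h1 := (h.i_iff a.1 f).1 (left_ne_zero_of_mul hτ)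
      exact ⟨Sum.inr (Sum.inr ⟨f, h1.1.symm.trans a.2⟩), rfl, h1.2.symm⟩
  have hne : g (ι l0) ≠ 0 := by
    rcases l0 with ⟨⟨e, s⟩, hb, hr⟩ | ⟨⟨e, s⟩, hb, hr⟩ | ⟨f, hf⟩
    · have h5 : x s.1 / Q.te e = x a.1 := hl0
      rw [div_eq_iff (hte e)] at h5
      refine mul_ne_zero ((h.a_iff e a.1 s.1).2 ⟨⟨a.2.trans hb.symm, hr⟩, ?_⟩)
        ((h.b_iff e s.1 b.1).2 ⟨⟨hr, b.2.trans hb.symm⟩, ?_⟩)
      · rw [h5]; ring
      · rw [h5, hab]; ring
    · have h5 : t * Q.te e * x s.1 = x a.1 := hl0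
      refine neg_ne_zero.2 (mul_ne_zero ((h.b_iff e a.1 s.1).2 ⟨⟨a.2.trans hb.symm, hr⟩, h5.symm⟩)
        ((h.a_iff e s.1 b.1).2 ⟨⟨hr, b.2.trans hb.symm⟩, ?_⟩))
      apply mul_left_cancel₀ ht
      rw [← hab, ← h5]; ring
    · have h5 : Q.fa f = x a.1 := hl0
      exact mul_ne_zero ((h.i_iff a.1 f).2 ⟨a.2.trans hf.symm, h5.symm⟩)
        ((h.j_iff f b.1).2 ⟨b.2.trans hf.symm, h5.trans hab⟩)
  have h6 : ∑ τ, g τ = g (ι l0) := by
    apply sum_eq_single
    · intro τ _ hτ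
      by_contra hg
      obtain ⟨l, h7, h8⟩ := hex τ hg
      apply hτ
      rw [← h7, huniq l h8]
    · intro hh; exact absurd (mem_univ _) hh
  exact hne (h6.symm.trans hsum)

/-- the non-socle elements at the vertex -/
abbrev VB (Q : QD K I E F) (t : K) (c : P → I) (x : P → K) (i : I) :=
  {a : VA c i // ∃ l, Pw Q t c x i l = t * x a.1}

open Classical in
lemma Good.inj (h : Good Q p t c x Ma Mb Mi Mj) (hl : ∀ e, Q.src e ≠ Q.tgt e)
    (hte : ∀ e, Q.te e ≠ 0) (ht : t ≠ 0) (i : I) :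
    ∃ j : VA c i ⊕ VB Q t c x i → VL Q c i, Function.Injective j ∧
      (∀ a, Pw Q t c x i (j (Sum.inl a)) = x a.1) ∧
      (∀ b, Pw Q t c x i (j (Sum.inr b)) = t * x b.1.1) := by
  choose la hla using h.in_l hl hte i
  have hb : ∀ b : VB Q t c x i, ∃ l, Pw Q t c x i l = t * x b.1.1 ∧
      ∀ a : VA c i, x a.1 = t * x b.1.1 → l ≠ la a := by
    intro b
    by_cases hex : ∃ a : VA c i, x a.1 = t * x b.1.1
    · obtain ⟨a, ha⟩ := hex
      obtain ⟨l, h1, h2⟩ := h.two hl hte ht i a b.1 ha (la a) (hla a)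
      refine ⟨l, h2.trans ha, ?_⟩
      intro a' ha'
      have : a' = a := Subtype.ext (h.thin _ _ (a'.2.trans a.2.symm) (ha'.trans ha.symm))
      rw [this]
      exact h1
    · obtain ⟨l, hl'⟩ := b.2
      exact ⟨l, hl', fun a ha => absurd ⟨a, ha⟩ hex⟩
  choose lb hlb1 hlb2 using hb
  refine ⟨Sum.elim la lb, ?_, hla, hlb1⟩
  intro u v huv
  rcases u with a | b <;> rcases v with a' | b'
  · have h1 := congrArg (Pw Q t c x i) huv
    simp only [Sum.elim_inl] at h1
    rw [hla, hla] at h1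
    congr 1
    exact Subtype.ext (h.thin _ _ (a.2.trans a'.2.symm) h1)
  · exfalso
    have h1 := congrArg (Pw Q t c x i) huv
    simp only [Sum.elim_inl, Sum.elim_inr] at h1 huv
    rw [hla, hlb1] at h1
    exact hlb2 b' a h1 huv.symm
  · exfalso
    have h1 := congrArg (Pw Q t c x i) huv
    simp only [Sum.elim_inl, Sum.elim_inr] at h1 huv
    rw [hla, hlb1] at h1
    exact hlb2 b a' h1.symm huv
  · have h1 := congrArg (Pw Q t c x i) huv
    simp only [Sum.elim_inr] at h1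
    rw [hlb1, hlb1] at h1
    have h2 := mul_left_cancel₀ ht h1
    congr 1
    exact Subtype.ext (Subtype.ext (h.thin _ _ (b.1.2.trans b'.1.2.symm) h2))

lemma card_VL (Q : QD K I E F) (hl : ∀ e, Q.src e ≠ Q.tgt e) (c : P → I) (i : I) :
    Fintype.card (VL Q c i) = Et Q i (dv c) + Es Q i (dv c) +
      (univ.filter fun f => Q.cF f = i).card := by
  have hin : Fintype.card {q : E × VY c i // Q.tgt q.1 = i ∧ c q.2.1 = Q.src q.1} =
      Et Q i (dv c) := by
    rw [Fintype.card_subtype, card_filter, Fintype.sum_prod_type]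
    unfold Et
    rw [sum_filter]
    apply sum_congr rfl; intro e _
    by_cases he : Q.tgt e = i
    · rw [if_pos he]
      simp only [he, true_and]
      unfold dv
      rw [card_filter]
      have := sum_sub (fun r : P => ¬ c r = i) (fun r => if c r = Q.src e then (1 : ℕ) else 0)
      rw [this]
      apply sum_congr rfl; intro r _
      by_cases hr : c r = i
      · rw [if_neg (not_not.2 hr), if_neg (fun h' => hl e ((h'.symm.trans hr).trans he.symm))]
      · rw [if_pos hr]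
    · rw [if_neg he]
      simp [he]
  have hout : Fintype.card {q : E × VY c i // Q.src q.1 = i ∧ c q.2.1 = Q.tgt q.1} =
      Es Q i (dv c) := by
    rw [Fintype.card_subtype, card_filter, Fintype.sum_prod_type]
    unfold Es
    rw [sum_filter]
    apply sum_congr rfl; intro e _
    by_cases he : Q.src e = i
    · rw [if_pos he]
      simp only [he, true_and]
      unfold dv
      rw [card_filter]
      have := sum_sub (fun r : P => ¬ c r = i) (fun r => if c r = Q.tgt e then (1 : ℕ) else 0)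
      rw [this]
      apply sum_congr rfl; intro r _
      by_cases hr : c r = i
      · rw [if_neg (not_not.2 hr), if_neg (fun h' => hl e (he.trans (hr.symm.trans h')))]
      · rw [if_pos hr]
    · rw [if_neg he]
      simp [he]
  rw [Fintype.card_sum, Fintype.card_sum, hin, hout, Fintype.card_subtype, add_assoc]

lemma card_out (Q : QD K I E F) (hl : ∀ e, Q.src e ≠ Q.tgt e) (c : P → I) (i : I) :
    Ns Q i (fun y : VY c i => c y.1) = Es Q i (dv c) := by
  unfold Ns
  rw [Fintype.card_subtype, card_filter, Fintype.sum_prod_type]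
  unfold Es
  rw [sum_filter]
  apply sum_congr rfl; intro e _
  by_cases he : Q.src e = i
  · rw [if_pos he]
    simp only [he, true_and]
    unfold dv
    rw [card_filter]
    have := sum_sub (fun r : P => ¬ c r = i) (fun r => if c r = Q.tgt e then (1 : ℕ) else 0)
    rw [this]
    apply sum_congr rfl; intro r _
    by_cases hr : c r = i
    · rw [if_neg (not_not.2 hr), if_neg (fun h' => hl e (he.trans (hr.symm.trans h')))]
    · rw [if_pos hr]
  · rw [if_neg he]
    simp [he]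

open Classical in
lemma Good.lab (h : Good Q p t c x Ma Mb Mi Mj) (hl : ∀ e, Q.src e ≠ Q.tgt e)
    (hte : ∀ e, Q.te e ≠ 0) (ht : t ≠ 0) (i : I)
    (hcard : Fintype.card (VL Q c i) ≤ Fintype.card (VA c i) + Fintype.card (VB Q t c x i)) :
    ∃ w : VA c i ⊕ VB Q t c x i ≃ VL Q c i,
      Lab p t (fun a : VA c i => x a.1) (Pw Q t c x i) Subtype.val w := by
  obtain ⟨j, hj, h1, h2⟩ := h.inj hl hte ht i
  have hb : Function.Bijective j := by
    rw [Fintype.bijective_iff_injective_and_card]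
    refine ⟨hj, ?_⟩
    have := Fintype.card_le_of_injective j hj
    rw [Fintype.card_sum] at this ⊢
    omega
  refine ⟨Equiv.ofBijective j hb, ?_⟩
  refine ⟨fun a => h.x0 _, fun a a' hh => Subtype.ext (h.thin _ _ (a.2.trans a'.2.symm) hh),
    Subtype.val_injective, fun a a' => h.fr _ _ (a.2.trans a'.2.symm),
    fun a a' => h.frt _ _ (a.2.trans a'.2.symm), h1, h2, ?_⟩
  intro a a' hh
  obtain ⟨l, hl'⟩ := h.in_l hl hte i a'
  exact ⟨⟨a, l, hl'.trans hh⟩, rfl⟩

/-- the quotient by the socle at the vertex -/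
abbrev VP (c : P → I) (i : I) (Ma Mb : E → Matrix P P K) (Mj : Matrix F P K) :=
  {r : P // ¬ c r = i ∨ Out Ma Mb Mj r}

open Classical in
lemma Good.restrict (h : Good Q p t c x Ma Mb Mi Mj) (i : I) :
    Good Q p t (fun r : VP c i Ma Mb Mj => c r.1) (fun r => x r.1)
      (fun e => (Ma e).submatrix Subtype.val Subtype.val)
      (fun e => (Mb e).submatrix Subtype.val Subtype.val)
      (Mi.submatrix Subtype.val id) (Mj.submatrix id Subtype.val) := by
  have hna : ∀ e r s, ¬ (¬ c s = i ∨ Out Ma Mb Mj s) → Ma e r s = 0 := by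
    intro e r s hs
    by_contra hne
    exact hs (Or.inr (Or.inr (Or.inl ⟨e, r, hne⟩)))
  have hnb : ∀ e r s, ¬ (¬ c s = i ∨ Out Ma Mb Mj s) → Mb e r s = 0 := by
    intro e r s hs
    by_contra hne
    exact hs (Or.inr (Or.inr (Or.inr ⟨e, r, hne⟩)))
  refine ⟨fun r => h.x0 _, fun r r' h1 h2 => Subtype.ext (h.thin _ _ h1 h2),
    fun e r' r => h.a_iff e r'.1 r.1, fun e r' r => h.b_iff e r'.1 r.1,
    fun r f => h.i_iff r.1 f, fun f r => h.j_iff f r.1, ?_, ?_,
    fun r r' => h.fr r.1 r'.1, fun r r' => h.frt r.1 r'.1⟩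
  · ext r' r
    have h1 := congrFun (congrFun h.mom r'.1) r.1
    rw [Matrix.add_apply, Matrix.sum_apply, Matrix.mul_apply, Matrix.zero_apply] at h1 ⊢
    refine Eq.trans ?_ h1
    congr 1
    apply sum_congr rfl
    intro e _
    rw [Matrix.sub_apply, Matrix.mul_apply, Matrix.mul_apply, Matrix.sub_apply, Matrix.mul_apply,
      Matrix.mul_apply]
    congr 1
    · have := sum_sub (fun s : P => ¬ c s = i ∨ Out Ma Mb Mj s) (fun s => Ma e r'.1 s * Mb e s r.1)
      refine this.trans ?_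
      apply sum_congr rfl
      intro s _
      split_ifs with hs
      · rfl
      · rw [hna e _ s hs, zero_mul]
    · have := sum_sub (fun s : P => ¬ c s = i ∨ Out Ma Mb Mj s) (fun s => Mb e r'.1 s * Ma e s r.1)
      refine this.trans ?_
      apply sum_congr rfl
      intro s _
      split_ifs with hs
      · rfl
      · rw [hnb e _ s hs, zero_mul]
  · intro U' hg hi ha hb
    have hU := h.st (U'.comap (LinearMap.funLeft K K (Subtype.val : VP c i Ma Mb Mj → P)))
      ?_ ?_ ?_ ?_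
    · rw [eq_top_iff]
      intro u _
      have h2 : (fun r => if hr : ¬ c r = i ∨ Out Ma Mb Mj r then u ⟨r, hr⟩ else 0) ∈
          U'.comap (LinearMap.funLeft K K (Subtype.val : VP c i Ma Mb Mj → P)) := by
        rw [hU]; trivial
      rw [Submodule.mem_comap] at h2
      convert h2 using 1
      funext r
      rw [LinearMap.funLeft_apply, dif_pos r.2]
    · intro j u hu
      rw [Submodule.mem_comap] at hu ⊢
      exact hg j _ hu
    · intro f
      rw [Submodule.mem_comap]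
      exact hi f
    · intro e u hu
      rw [Submodule.mem_comap] at hu ⊢
      convert ha e _ hu using 1
      funext r
      rw [LinearMap.funLeft_apply, Matrix.mulVec, Matrix.mulVec, dotProduct, dotProduct]
      have := sum_sub (fun s : P => ¬ c s = i ∨ Out Ma Mb Mj s) (fun s => Ma e r.1 s * u s)
      refine Eq.trans ?_ this.symm
      apply sum_congr rfl
      intro s _
      split_ifs with hs
      · rfl
      · rw [hna e _ s hs, zero_mul]
    · intro e u hu
      rw [Submodule.mem_comap] at hu ⊢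
      convert hb e _ hu using 1
      funext r
      rw [LinearMap.funLeft_apply, Matrix.mulVec, Matrix.mulVec, dotProduct, dotProduct]
      have := sum_sub (fun s : P => ¬ c s = i ∨ Out Ma Mb Mj s) (fun s => Mb e r.1 s * u s)
      refine Eq.trans ?_ this.symm
      apply sum_congr rfl
      intro s _
      split_ifs with hs
      · rfl
      · rw [hnb e _ s hs, zero_mul]

end Pool.Agent.Run7.h657
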