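import Pool.Agent.Run7.h657.PA

/-! Specialisation of the generic identity. -/

set_option linter.unusedSectionVars false

namespace Pool.Agent.Run7.h657

open Finset Polynomial

variable {K : Type*} [Field K]

/-- the big field -/
abbrev LL (K : Type*) [Field K] := HahnSeries ℤ K

/-- `u` specialises to `v` -/
def Sp (u : LL K) (v : K) : Prop :=
  ∃ f : PowerSeries K, HahnSeries.ofPowerSeries ℤ K f = u ∧ PowerSeries.constantCoeff f = v

/-- constants -/
noncomputable def io : K →+* LL K := (HahnSeries.ofPowerSeries ℤ K).comp PowerSeries.C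

/-- polynomials -/
noncomputable def po : K[X] →+* LL K :=
  (HahnSeries.ofPowerSeries ℤ K).comp Polynomial.coeToPowerSeries.ringHom

lemma po_inj : Function.Injective (po : K[X] →+* LL K) := by
  unfold po
  rw [RingHom.coe_comp]
  refine HahnSeries.ofPowerSeries_injective.comp ?_
  intro a b h
  exact Polynomial.coe_injective K h

lemma po_C (c : K) : po (C c) = io c := by
  simp [po, io]

lemma Sp.unique {u : LL K} {v v' : K} (h : Sp u v) (h' : Sp u v') : v = v' := by
  obtain ⟨f, h1, h2⟩ := h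
  obtain ⟨f', h1', h2'⟩ := h'
  have : f = f' := HahnSeries.ofPowerSeries_injective (h1.trans h1'.symm)
  rw [← h2, ← h2', this]

lemma Sp.const (c : K) : Sp (io c) c := ⟨PowerSeries.C c, rfl, by simp⟩

lemma Sp.poly (f : K[X]) : Sp (po f) (f.eval 0) :=
  ⟨f, rfl, by rw [Polynomial.constantCoeff_coe, Polynomial.coeff_zero_eq_eval_zero]⟩

lemma Sp.one : Sp (1 : LL K) 1 := ⟨1, by simp, by simp⟩

lemma Sp.zero : Sp (0 : LL K) 0 := ⟨0, by simp, by simp⟩

lemma Sp.add {u u' : LL K} {v v' : K} (h : Sp u v) (h' : Sp u' v') : Sp (u + u') (v + v') := by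
  obtain ⟨f, rfl, rfl⟩ := h
  obtain ⟨f', rfl, rfl⟩ := h'
  exact ⟨f + f', by simp, by simp⟩

lemma Sp.sub {u u' : LL K} {v v' : K} (h : Sp u v) (h' : Sp u' v') : Sp (u - u') (v - v') := by
  obtain ⟨f, rfl, rfl⟩ := h
  obtain ⟨f', rfl, rfl⟩ := h'
  exact ⟨f - f', by simp, by simp⟩

lemma Sp.mul {u u' : LL K} {v v' : K} (h : Sp u v) (h' : Sp u' v') : Sp (u * u') (v * v') := by
  obtain ⟨f, rfl, rfl⟩ := h
  obtain ⟨f', rfl, rfl⟩ := h'
  exact ⟨f * f', by simp, by simp⟩

lemma Sp.inv {u : LL K} {v : K} (h : Sp u v) (hv : v ≠ 0) : Sp u⁻¹ v⁻¹ := by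
  obtain ⟨f, rfl, rfl⟩ := h
  refine ⟨f⁻¹, ?_, by simp⟩
  have h1 : f * f⁻¹ = 1 := PowerSeries.mul_inv_cancel f hv
  have h2 := congrArg (HahnSeries.ofPowerSeries ℤ K) h1
  rw [map_mul, map_one] at h2
  exact eq_inv_of_mul_eq_one_right h2

lemma Sp.div {u u' : LL K} {v v' : K} (h : Sp u v) (h' : Sp u' v') (hv : v' ≠ 0) :
    Sp (u / u') (v / v') := by
  rw [div_eq_mul_inv, div_eq_mul_inv]; exact h.mul (h'.inv hv)

lemma Sp.pow {u : LL K} {v : K} (h : Sp u v) (n : ℕ) : Sp (u ^ n) (v ^ n) := by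
  induction n with
  | zero => simpa using Sp.one
  | succ n ih => rw [pow_succ, pow_succ]; exact ih.mul h

lemma Sp.prod {ι : Type*} (s : Finset ι) (u : ι → LL K) (v : ι → K)
    (h : ∀ i ∈ s, Sp (u i) (v i)) : Sp (∏ i ∈ s, u i) (∏ i ∈ s, v i) := by
  classical
  induction s using Finset.induction_on with
  | empty => simpa using Sp.one
  | insert a s ha ih =>
    rw [prod_insert ha, prod_insert ha]
    exact (h a (mem_insert_self a s)).mul (ih fun i hi => h i (mem_insert_of_mem hi))

lemma Sp.sum {ι : Type*} (s : Finset ι) (u : ι → LL K) (v : ι → K)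
    (h : ∀ i ∈ s, Sp (u i) (v i)) : Sp (∑ i ∈ s, u i) (∑ i ∈ s, v i) := by
  classical
  induction s using Finset.induction_on with
  | empty => simpa using Sp.zero
  | insert a s ha ih =>
    rw [sum_insert ha, sum_insert ha]
    exact (h a (mem_insert_self a s)).add (ih fun i hi => h i (mem_insert_of_mem hi))

lemma Sp.poch {p x : LL K} {p' x' : K} (hp : Sp p p') (hx : Sp x x') (n : ℕ) :
    Sp (poch p x n) (poch p' x' n) :=
  Sp.prod _ _ _ fun j _ => Sp.one.sub (hx.mul (hp.pow j))

lemma Sp.ph {p t x : LL K} {p' t' x' : K} (hp : Sp p p') (ht : Sp t t') (hx : Sp x x') (n : ℕ)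
    (hn : Pool.Agent.Run7.h657.poch p' (p' * x') n ≠ 0) : Sp (ph p t x n) (ph p' t' x' n) :=
  ((hp.poch (ht.mul hx) n).div (hp.poch (hp.mul hx) n) hn)

variable {I J : Type*} [Fintype I] [Fintype J] [DecidableEq I] [DecidableEq J]

/-- nonvanishing of the denominators -/
structure Reg (p : K) (x : I → K) (y : J → K) : Prop where
  hx : ∀ a, x a ≠ 0
  hy : ∀ b, y b ≠ 0
  xx : ∀ a a', a ≠ a' → ∀ m : ℤ, x a ≠ x a' * p ^ m
  yy : ∀ b b', b ≠ b' → ∀ m : ℤ, y b ≠ y b' * p ^ m
  nv : ∀ a b, ∀ l : ℕ, x a * y b * p ^ (l + 1) ≠ 1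

lemma Reg.symm {p : K} {x : I → K} {y : J → K} (h : Reg p x y) : Reg p y x :=
  ⟨h.hy, h.hx, h.yy, h.xx, fun b a l => by rw [mul_comm (y b)]; exact h.nv a b l⟩

lemma Sp.cf {p t : K} (hp : p ≠ 0) (hpp : ∀ m : ℕ, 0 < m → p ^ m ≠ 1) {x : I → K} {y : J → K}
    (h : Reg p x y) {x' : I → LL K} {y' : J → LL K} (hx' : ∀ a, Sp (x' a) (x a))
    (hy' : ∀ b, Sp (y' b) (y b)) (n : ℕ) :
    Sp (cf (io p) (io t) x' y' n) (cf p t x y n) := by
  unfold Pool.Agent.Run7.h657.cf
  apply Sp.sum
  intro d _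
  unfold trm
  apply Sp.mul
  · unfold wt
    apply Sp.prod; intro a _
    apply Sp.prod; intro a' _
    apply Sp.ph (Sp.const p) (Sp.const t)
    · apply Sp.div ((hx' a).mul ((Sp.const p).pow _)) ((hx' a').mul ((Sp.const p).pow _))
      exact mul_ne_zero (h.hx a') (pow_ne_zero _ hp)
    · apply poch_ne_zero
      intro j _ hh
      have h1 := pow_ne_zero (d a') hp
      have h2 := h.hx a'
      by_cases haa : a = a'
      · subst haa
        rw [div_self (mul_ne_zero h2 h1), mul_one, ← pow_succ'] at hh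
        exact hpp _ (Nat.succ_pos j) hh
      · apply h.xx a a' haa ((d a' : ℤ) - (d a : ℤ) - ((j + 1 : ℕ) : ℤ))
        rw [zpow_sub₀ hp, zpow_sub₀ hp, zpow_natCast, zpow_natCast, zpow_natCast]
        have h3 := pow_ne_zero (d a) hp
        have h4 := pow_ne_zero (j + 1) hp
        field_simp at hh ⊢
        rw [pow_succ]
        linear_combination hh
  · unfold cr
    apply Sp.prod; intro a _
    apply Sp.prod; intro b _
    apply Sp.ph (Sp.const p) (Sp.const t) ((hx' a).mul (hy' b))
    apply poch_ne_zero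
    intro j _ hh
    apply h.nv a b j
    rw [pow_succ]; linear_combination hh

lemma ph_io (p t c : K) (n : ℕ) : ph (io p) (io t) (io c) n = io (ph p t c n) := by
  unfold ph poch
  simp only [map_div₀, map_prod, map_sub, map_mul, map_pow, map_one]

lemma gser_io (p t : K) (k : ℕ) :
    gser (io p) (io t) k = PowerSeries.map (io : K →+* LL K) (gser p t k) := by
  unfold gser
  rw [map_prod]
  apply prod_congr rfl
  intro j _
  ext n
  simp only [rser, PowerSeries.coeff_mk, PowerSeries.coeff_map]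
  rw [map_mul, ← ph_io, map_pow, map_pow, map_div₀, map_one]

lemma Sp.idn {p t : K} (hp : p ≠ 0) (hpp : ∀ m : ℕ, 0 < m → p ^ m ≠ 1) {x : I → K} {y : J → K}
    (h : Reg p x y) {x' : I → LL K} {y' : J → LL K} (hx' : ∀ a, Sp (x' a) (x a))
    (hy' : ∀ b, Sp (y' b) (y b)) (n : ℕ) :
    Sp (idn (io p) (io t) x' y' n) (idn p t x y n) := by
  unfold Pool.Agent.Run7.h657.idn
  apply Sp.sub
  · apply Sp.sum; intro z _
    rw [gser_io, PowerSeries.coeff_map]
    exact (Sp.const _).mul (Sp.cf hp hpp h hx' hy' _)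
  · apply Sp.sum; intro z _
    rw [gser_io, PowerSeries.coeff_map]
    exact (Sp.const _).mul (Sp.cf hp hpp h.symm hy' hx' _)

lemma pow_eq {c c' : K} (hc : c ≠ 0) (hc' : c' ≠ 0) {n n' : ℕ}
    (h : io c * po ((1 + X) ^ n) = io c' * po ((1 + X : K[X]) ^ n')) : n = n' := by
  rw [← po_C, ← po_C, ← map_mul, ← map_mul] at h
  have h1 := congrArg natDegree (po_inj h)
  rw [natDegree_C_mul hc, natDegree_C_mul hc', natDegree_pow, natDegree_pow] at h1
  have h2 : (1 + X : K[X]).natDegree = 1 := by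
    rw [add_comm]
    exact natDegree_X_add_C (1 : K) |>.symm ▸ rfl
  rw [h2] at h1
  omega

theorem idn_spec {p t : K} (hp : p ≠ 0) (hpp : ∀ m : ℕ, 0 < m → p ^ m ≠ 1) (ht : t ≠ 0)
    (htp : ∀ l : ℕ, t ≠ p ^ (l + 1)) (x : I → K) (y : J → K) (h : Reg p x y) (n : ℕ) :
    idn p t x y n = 0 := by
  have hio : Function.Injective (io : K →+* LL K) := RingHom.injective _
  set k := Fintype.card I + 1 with hk
  set N : I → ℕ := fun a => (Fintype.equivFin I a : ℕ) with hN
  set M : J → ℕ := fun b => k * (Fintype.equivFin J b : ℕ) with hM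
  set x' : I → LL K := fun a => io (x a) * po ((1 + X) ^ N a) with hx'
  set y' : J → LL K := fun b => io (y b) * po ((1 + X) ^ M b) with hy'
  have hNi : ∀ a a', N a = N a' → a = a' := fun a a' hh =>
    (Fintype.equivFin I).injective (Fin.ext hh)
  have hMi : ∀ b b', M b = M b' → b = b' := fun b b' hh => by
    apply (Fintype.equivFin J).injective
    apply Fin.ext
    exact Nat.eq_of_mul_eq_mul_left (by omega) hh
  have hNM : ∀ a b a' b', N a + M b = N a' + M b' → a = a' ∧ b = b' := by
    intro a b a' b' hh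
    have l1 : N a < k := by have := (Fintype.equivFin I a).2; simp only [hN, hk]; omega
    have l2 : N a' < k := by have := (Fintype.equivFin I a').2; simp only [hN, hk]; omega
    have e1 : N a = N a' := by
      have := congrArg (· % k) hh
      simp only [hM, Nat.add_mul_mod_self_left, Nat.mod_eq_of_lt l1, Nat.mod_eq_of_lt l2] at this
      exact this
    exact ⟨hNi _ _ e1, hMi _ _ (by omega)⟩
  have spx : ∀ a, Sp (x' a) (x a) := by
    intro a
    have := (Sp.const (x a)).mul (Sp.poly ((1 + X : K[X]) ^ N a))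
    show Sp (io (x a) * po ((1 + X) ^ N a)) (x a)
    simpa using this
  have spy : ∀ b, Sp (y' b) (y b) := by
    intro b
    have := (Sp.const (y b)).mul (Sp.poly ((1 + X : K[X]) ^ M b))
    show Sp (io (y b) * po ((1 + X) ^ M b)) (y b)
    simpa using this
  have hG : Gen (io p) (io t) x' y' := by
    have hpo : ∀ n : ℕ, po ((1 + X : K[X]) ^ n) ≠ 0 := by
      intro n hh
      have := Sp.poly ((1 + X : K[X]) ^ n)
      rw [hh] at this
      have h2 := this.unique Sp.zero
      simp at h2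
    have hio0 : ∀ c : K, c ≠ 0 → io c ≠ (0 : LL K) := fun c hc hh => hc (hio (by simpa using hh))
    refine ⟨?_, ?_, ?_, ?_, ?_⟩
    · intro a; exact mul_ne_zero (hio0 _ (h.hx a)) (hpo _)
    · intro a; exact mul_ne_zero (hio0 _ (h.hy a)) (hpo _)
    · intro a a' hne l m hh
      apply hne
      apply hNi
      apply pow_eq (h.hx a) (mul_ne_zero (mul_ne_zero (h.hx a') (zpow_ne_zero l ht))
        (zpow_ne_zero m hp))
      rw [map_mul io, map_mul io, map_zpow₀, map_zpow₀]
      simp only [hx'] at hh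
      linear_combination hh
    · intro a a' hne l m hh
      apply hne
      apply hMi
      apply pow_eq (h.hy a) (mul_ne_zero (mul_ne_zero (h.hy a') (zpow_ne_zero l ht))
        (zpow_ne_zero m hp))
      rw [map_mul io, map_mul io, map_zpow₀, map_zpow₀]
      simp only [hy'] at hh
      linear_combination hh
    · intro a b a' b' hne m hh
      apply hne
      have := hNM a b a' b' (by
        apply pow_eq (mul_ne_zero (h.hx a) (h.hy b)) (mul_ne_zero (mul_ne_zero (h.hx a') (h.hy b'))
          (zpow_ne_zero m hp))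
        rw [map_mul io, map_mul io, map_mul io, map_zpow₀, pow_add, pow_add, map_mul po,
          map_mul po]
        simp only [hx', hy'] at hh
        linear_combination hh)
      rw [this.1, this.2]
  have hnv : NV (io p) x' y' := by
    intro a b l hh
    apply h.nv a b l
    have h1 := ((spx a).mul (spy b)).mul ((Sp.const p).pow (l + 1))
    rw [hh] at h1
    exact h1.unique Sp.one
  have h0 := idn_gen (p := (io p : LL K)) (t := io t)
    (fun hh => hp (hio (by simpa using hh)))
    (fun m hm hh => hpp m hm (hio (by rw [map_pow, map_one]; exact hh)))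
    (fun hh => ht (hio (by simpa using hh)))
    (fun l hh => htp l (hio (by rw [map_pow]; exact hh))) x' y' hG hnv n
  have h1 := Sp.idn (t := t) hp hpp h spx spy n
  rw [h0] at h1
  exact (Sp.zero.unique h1).symm

end Pool.Agent.Run7.h657
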