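import Pool.Agent.Run7.h657.Dim

/-! Rigidity: the stable point of a zero dimensional quiver variety is unique. -/

set_option linter.unusedSectionVars false

namespace Pool.Agent.Run7.h657

open Finset Module

variable {K : Type*} [Field K]

/-- exactness in the middle by dimension count -/
lemma iso_exact {G G' : Type*} [AddCommGroup G] [Module K G] [FiniteDimensional K G]
    [AddCommGroup G'] [Module K G'] [FiniteDimensional K G'] {N : Type*} [Fintype N]
    (φ1 φ2 : G →ₗ[K] (N → K)) (ψ1 ψ2 : G' →ₗ[K] (N → K))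
    (hsym : ∀ g g', ∑ z, φ1 g z * ψ2 g' z = ∑ z, φ2 g z * ψ1 g' z)
    (hφ : ∀ g, φ1 g = 0 → φ2 g = 0 → g = 0) (hψ : ∀ g, ψ1 g = 0 → ψ2 g = 0 → g = 0)
    (hG : finrank K G = Fintype.card N) (hG' : finrank K G' = Fintype.card N)
    (s1 s2 : N → K) (hs : ∀ g', ∑ z, s1 z * ψ2 g' z = ∑ z, s2 z * ψ1 g' z) :
    ∃ g, φ1 g = s1 ∧ φ2 g = s2 := by
  classical
  let Φ : G →ₗ[K] (N → K) × (N → K) := φ1.prod φ2
  let Ψ : G' →ₗ[K] (N → K) × (N → K) := ψ2.prod (-ψ1)
  let B : (N → K) × (N → K) →ₗ[K] Dual K G' :=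
    { toFun := fun u =>
        { toFun := fun g' => ∑ z, u.1 z * ψ2 g' z - ∑ z, u.2 z * ψ1 g' z
          map_add' := fun a b => by
            simp only [map_add, Pi.add_apply, mul_add, sum_add_distrib]; ring
          map_smul' := fun a b => by
            simp only [map_smul, Pi.smul_apply, smul_eq_mul, RingHom.id_apply, mul_sub, mul_sum]
            congr 1
            · apply sum_congr rfl; intro z _; ring
            · apply sum_congr rfl; intro z _; ring }
      map_add' := fun a b => by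
        apply LinearMap.ext
        intro g'
        simp only [Prod.fst_add, Prod.snd_add, Pi.add_apply, add_mul, sum_add_distrib,
          LinearMap.coe_mk, AddHom.coe_mk, LinearMap.add_apply]
        ring
      map_smul' := fun a b => by
        apply LinearMap.ext
        intro g'
        simp only [Prod.smul_fst, Prod.smul_snd, Pi.smul_apply, smul_eq_mul, LinearMap.coe_mk,
          AddHom.coe_mk, RingHom.id_apply, LinearMap.smul_apply, mul_sub, mul_sum]
        congr 1
        · apply sum_congr rfl; intro z _; ring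
        · apply sum_congr rfl; intro z _; ring }
  have hB : ∀ u g', B u g' = ∑ z, u.1 z * ψ2 g' z - ∑ z, u.2 z * ψ1 g' z := fun _ _ => rfl
  have hΨ : Function.Injective Ψ := by
    rw [injective_iff_map_eq_zero]
    intro g hg
    have h1 : ψ2 g = 0 := congrArg Prod.fst hg
    have h2 : -ψ1 g = 0 := congrArg Prod.snd hg
    exact hψ g (neg_eq_zero.1 h2) h1
  have hΦ : Function.Injective Φ := by
    rw [injective_iff_map_eq_zero]
    intro g hg
    exact hφ g (congrArg Prod.fst hg) (congrArg Prod.snd hg)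
  have hsurj : Function.Surjective B := by
    intro l
    obtain ⟨L, hL⟩ := LinearMap.dualMap_surjective_of_injective hΨ l
    refine ⟨(fun z => L (Pi.single z 1, 0), fun z => L (0, Pi.single z 1)), ?_⟩
    apply LinearMap.ext
    intro g'
    rw [hB, ← hL, LinearMap.dualMap_apply]
    have h1 : Ψ g' = ∑ z, ψ2 g' z • ((Pi.single z 1, 0) : (N → K) × (N → K)) +
        ∑ z, (-ψ1 g' z) • ((0, Pi.single z 1) : (N → K) × (N → K)) := by
      refine Prod.ext ?_ ?_
      · rw [Prod.fst_add, Prod.fst_sum, Prod.fst_sum]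
        simp only [Prod.smul_fst, smul_zero, sum_const_zero, add_zero]
        funext w
        rw [Finset.sum_apply, sum_eq_single w]
        · simp only [Pi.smul_apply, Pi.single_eq_same, smul_eq_mul, mul_one]
          rfl
        · intro b _ hb
          simp only [Pi.smul_apply, Pi.single_eq_of_ne hb.symm, smul_zero]
        · intro h; exact absurd (mem_univ w) h
      · rw [Prod.snd_add, Prod.snd_sum, Prod.snd_sum]
        simp only [Prod.smul_snd, smul_zero, sum_const_zero, zero_add]
        funext w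
        rw [Finset.sum_apply, sum_eq_single w]
        · simp only [Pi.smul_apply, Pi.single_eq_same, smul_eq_mul, mul_one]
          rfl
        · intro b _ hb
          simp only [Pi.smul_apply, Pi.single_eq_of_ne hb.symm, smul_zero]
        · intro h; exact absurd (mem_univ w) h
    rw [h1, map_add, map_sum, map_sum]
    simp only [map_smul, smul_eq_mul, neg_mul, sum_neg_distrib]
    rw [← sub_eq_add_neg]
    congr 1
    · apply sum_congr rfl; intro z _; ring
    · apply sum_congr rfl; intro z _; ring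
  have hle : LinearMap.range Φ ≤ LinearMap.ker B := by
    rintro _ ⟨g, rfl⟩
    rw [LinearMap.mem_ker]
    apply LinearMap.ext
    intro g'
    rw [hB, LinearMap.zero_apply, sub_eq_zero]
    exact hsym g g'
  have hrk := LinearMap.finrank_range_add_finrank_ker B
  rw [LinearMap.range_eq_top.2 hsurj, finrank_top, Subspace.dual_finrank_eq, hG',
    Module.finrank_prod, Module.finrank_fintype_fun_eq_card] at hrk
  have hrΦ := LinearMap.finrank_range_of_inj hΦ
  rw [hG] at hrΦ
  have heq : LinearMap.range Φ = LinearMap.ker B :=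
    Submodule.eq_of_le_of_finrank_eq hle (by omega)
  have hmem : ((s1, s2) : (N → K) × (N → K)) ∈ LinearMap.ker B := by
    rw [LinearMap.mem_ker]
    apply LinearMap.ext
    intro g'
    rw [hB, LinearMap.zero_apply, sub_eq_zero]
    exact hs g'
  rw [← heq] at hmem
  obtain ⟨g, hg⟩ := hmem
  exact ⟨g, congrArg Prod.fst hg, congrArg Prod.snd hg⟩

variable {I E F P : Type*} [Fintype I] [Fintype E] [Fintype F] [Fintype P] [DecidableEq I]
  [DecidableEq P] [DecidableEq E] [DecidableEq F]

/-- first half of the difference of two representations -/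
def sg1 (Q : QD K I E F) (c : P → I) (Ma Ma' : E → Matrix P P K) (Mi : Matrix P F K) :
    ({z : P × P // c z.1 = c z.2} → K) →ₗ[K] (NI Q c → K) where
  toFun g z := match z with
    | Sum.inl z => (toM c g * Ma z.1.1 - Ma' z.1.1 * toM c g) z.1.2.1 z.1.2.2
    | Sum.inr z => (toM c g * Mi) z.1.1 z.1.2
  map_add' g g' := by
    funext z
    rcases z with z | z
    · simp only [map_add, Matrix.add_mul, Matrix.mul_add, Pi.add_apply, Matrix.sub_apply,
        Matrix.add_apply]
      ring
    · simp only [map_add, Matrix.add_mul, Pi.add_apply, Matrix.add_apply]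
  map_smul' a g := by
    funext z
    rcases z with z | z
    · simp only [map_smul, Matrix.smul_mul, Matrix.mul_smul, Pi.smul_apply, Matrix.sub_apply,
        Matrix.smul_apply, RingHom.id_apply, smul_eq_mul]
      ring
    · simp only [map_smul, Matrix.smul_mul, Pi.smul_apply, Matrix.smul_apply, RingHom.id_apply]

/-- second half of the difference of two representations -/
def sg2 (Q : QD K I E F) (c : P → I) (Mb Mb' : E → Matrix P P K) (Mj' : Matrix F P K) :
    ({z : P × P // c z.1 = c z.2} → K) →ₗ[K] (NI Q c → K) where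
  toFun g z := match z with
    | Sum.inl z => (toM c g * Mb z.1.1 - Mb' z.1.1 * toM c g) z.1.2.2 z.1.2.1
    | Sum.inr z => -(Mj' * toM c g) z.1.2 z.1.1
  map_add' g g' := by
    funext z
    rcases z with z | z
    · simp only [map_add, Matrix.add_mul, Matrix.mul_add, Pi.add_apply, Matrix.sub_apply,
        Matrix.add_apply]
      ring
    · simp only [map_add, Matrix.mul_add, Pi.add_apply, Matrix.add_apply]
      ring
  map_smul' a g := by
    funext z
    rcases z with z | z
    · simp only [map_smul, Matrix.smul_mul, Matrix.mul_smul, Pi.smul_apply, Matrix.sub_apply,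
        Matrix.smul_apply, RingHom.id_apply, smul_eq_mul]
      ring
    · simp only [map_smul, Matrix.mul_smul, Pi.smul_apply, Matrix.smul_apply, RingHom.id_apply,
        smul_eq_mul]
      ring

section two

variable {Q : QD K I E F} {c : P → I} {Ma Mb Ma' Mb' : E → Matrix P P K} {Mi Mi' : Matrix P F K}
    {Mj Mj' : Matrix F P K}

lemma supp_ga2 (h : Mod Q c Ma Mb Mi Mj) (h' : Mod Q c Ma' Mb' Mi' Mj')
    (g : {z : P × P // c z.1 = c z.2} → K) (e : E)
    (r' r : P) (hne : (toM c g * Ma e - Ma' e * toM c g) r' r ≠ 0) :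
    c r' = Q.tgt e ∧ c r = Q.src e := by
  by_contra hcon
  apply hne
  rw [Matrix.sub_apply, Matrix.mul_apply, Matrix.mul_apply, sub_eq_zero]
  rw [sum_eq_zero, sum_eq_zero]
  · intro s _
    by_contra h1
    have h2 := h'.sa e r' s (left_ne_zero_of_mul h1)
    have h3 := toM_supp c g (right_ne_zero_of_mul h1)
    exact hcon ⟨h2.1, h3.symm.trans h2.2⟩
  · intro s _
    by_contra h1
    have h2 := h.sa e s r (right_ne_zero_of_mul h1)
    have h3 := toM_supp c g (left_ne_zero_of_mul h1)
    exact hcon ⟨h3.trans h2.1, h2.2⟩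

lemma supp_gb2 (h : Mod Q c Ma Mb Mi Mj) (h' : Mod Q c Ma' Mb' Mi' Mj')
    (g : {z : P × P // c z.1 = c z.2} → K) (e : E)
    (r' r : P) (hne : (toM c g * Mb e - Mb' e * toM c g) r' r ≠ 0) :
    c r' = Q.src e ∧ c r = Q.tgt e := by
  by_contra hcon
  apply hne
  rw [Matrix.sub_apply, Matrix.mul_apply, Matrix.mul_apply, sub_eq_zero]
  rw [sum_eq_zero, sum_eq_zero]
  · intro s _
    by_contra h1
    have h2 := h'.sb e r' s (left_ne_zero_of_mul h1)
    have h3 := toM_supp c g (right_ne_zero_of_mul h1)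
    exact hcon ⟨h2.1, h3.symm.trans h2.2⟩
  · intro s _
    by_contra h1
    have h2 := h.sb e s r (right_ne_zero_of_mul h1)
    have h3 := toM_supp c g (left_ne_zero_of_mul h1)
    exact hcon ⟨h3.trans h2.1, h2.2⟩

lemma supp_gj (h : Mod Q c Ma Mb Mi Mj) (g : {z : P × P // c z.1 = c z.2} → K)
    (r : P) (f : F) (hne : (Mj * toM c g) f r ≠ 0) : c r = Q.cF f := by
  by_contra hcon
  apply hne
  rw [Matrix.mul_apply]
  apply sum_eq_zero
  intro s _
  by_contra h1
  exact hcon ((toM_supp c g (right_ne_zero_of_mul h1)).symm.trans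
    (h.sj f s (left_ne_zero_of_mul h1)))

/-- pairing of matrices on the index set -/
lemma pair_inl (X : E → Matrix P P K) (Z : E → Matrix P P K)
    (hX : ∀ e r' r, X e r' r ≠ 0 → c r' = Q.tgt e ∧ c r = Q.src e) :
    ∑ z : {z : E × P × P // c z.2.1 = Q.tgt z.1 ∧ c z.2.2 = Q.src z.1},
      X z.1.1 z.1.2.1 z.1.2.2 * Z z.1.1 z.1.2.2 z.1.2.1 = ∑ e, Matrix.trace (X e * Z e) := by
  have e1 := sum_sub (fun z : E × P × P => c z.2.1 = Q.tgt z.1 ∧ c z.2.2 = Q.src z.1)
    (fun z => X z.1 z.2.1 z.2.2 * Z z.1 z.2.2 z.2.1)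
  refine e1.trans ?_
  rw [Fintype.sum_prod_type]
  apply sum_congr rfl; intro e _
  rw [Fintype.sum_prod_type, Matrix.trace]
  apply sum_congr rfl; intro r' _
  rw [Matrix.diag_apply, Matrix.mul_apply]
  apply sum_congr rfl; intro r _
  split_ifs with hh
  · rfl
  · symm
    apply mul_eq_zero_of_left
    by_contra h1
    exact hh (hX e r' r h1)

lemma pair_inr (X : Matrix P F K) (Z : Matrix F P K)
    (hX : ∀ r f, X r f ≠ 0 → c r = Q.cF f) :
    ∑ z : {z : P × F // c z.1 = Q.cF z.2}, X z.1.1 z.1.2 * Z z.1.2 z.1.1 =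
      Matrix.trace (X * Z) := by
  have e1 := sum_sub (fun z : P × F => c z.1 = Q.cF z.2) (fun z => X z.1 z.2 * Z z.2 z.1)
  refine e1.trans ?_
  rw [Fintype.sum_prod_type, Matrix.trace]
  apply sum_congr rfl; intro r _
  rw [Matrix.diag_apply, Matrix.mul_apply]
  apply sum_congr rfl; intro f _
  split_ifs with hh
  · rfl
  · symm
    apply mul_eq_zero_of_left
    by_contra h1
    exact hh (hX r f h1)

lemma trace_id2 (g g' A B A' B' : Matrix P P K) :
    Matrix.trace ((g * A - A' * g) * (g' * B' - B * g')) -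
      Matrix.trace ((g * B - B' * g) * (g' * A' - A * g')) =
    Matrix.trace (g * g' * (A' * B' - B' * A')) - Matrix.trace (g' * g * (A * B - B * A)) := by
  simp only [Matrix.sub_mul, Matrix.mul_sub, Matrix.trace_sub]
  have c1 : ∀ X Z : Matrix P P K, Matrix.trace (X * Z) = Matrix.trace (Z * X) :=
    fun X Z => Matrix.trace_mul_comm X Z
  have e1 : Matrix.trace (g * A * (g' * B')) = Matrix.trace (B' * g * (A * g')) := by
    rw [← Matrix.mul_assoc (g * A), c1 _ B']
    simp only [Matrix.mul_assoc]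
  have e2 : Matrix.trace (A' * g * (B * g')) = Matrix.trace (g * B * (g' * A')) := by
    rw [Matrix.mul_assoc A', c1 A']
    simp only [Matrix.mul_assoc]
  have e3 : Matrix.trace (g * A * (B * g')) = Matrix.trace (g' * g * (A * B)) := by
    rw [← Matrix.mul_assoc (g * A), c1 _ g']
    simp only [Matrix.mul_assoc]
  have e4 : Matrix.trace (A' * g * (g' * B')) = Matrix.trace (g * g' * (B' * A')) := by
    rw [Matrix.mul_assoc A', c1 A']
    simp only [Matrix.mul_assoc]
  have e5 : Matrix.trace (g * B * (A * g')) = Matrix.trace (g' * g * (B * A)) := by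
    rw [← Matrix.mul_assoc (g * B), c1 _ g']
    simp only [Matrix.mul_assoc]
  have e6 : Matrix.trace (B' * g * (g' * A')) = Matrix.trace (g * g' * (A' * B')) := by
    rw [Matrix.mul_assoc B', c1 B']
    simp only [Matrix.mul_assoc]
  rw [e1, e2, e3, e4, e5, e6]
  ring

lemma sg_pair (h : Mod Q c Ma Mb Mi Mj) (h' : Mod Q c Ma' Mb' Mi' Mj')
    (g g' : {z : P × P // c z.1 = c z.2} → K) :
    ∑ z, sg1 Q c Ma Ma' Mi g z * sg2 Q c Mb' Mb Mj g' z =
      ∑ z, sg2 Q c Mb Mb' Mj' g z * sg1 Q c Ma' Ma Mi' g' z := by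
  rw [Fintype.sum_sum_type, Fintype.sum_sum_type]
  have l1 : ∑ z : {z : E × P × P // c z.2.1 = Q.tgt z.1 ∧ c z.2.2 = Q.src z.1},
      sg1 Q c Ma Ma' Mi g (Sum.inl z) * sg2 Q c Mb' Mb Mj g' (Sum.inl z) =
      ∑ e, Matrix.trace ((toM c g * Ma e - Ma' e * toM c g) *
        (toM c g' * Mb' e - Mb e * toM c g')) :=
    pair_inl (fun e => toM c g * Ma e - Ma' e * toM c g)
      (fun e => toM c g' * Mb' e - Mb e * toM c g') (supp_ga2 h h' g)
  have l2 : ∑ z : {z : P × F // c z.1 = Q.cF z.2},
      sg1 Q c Ma Ma' Mi g (Sum.inr z) * sg2 Q c Mb' Mb Mj g' (Sum.inr z) =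
      Matrix.trace (toM c g * Mi * -(Mj * toM c g')) :=
    pair_inr (toM c g * Mi) (-(Mj * toM c g')) (supp_gi h g)
  have l3 : ∑ z : {z : E × P × P // c z.2.1 = Q.tgt z.1 ∧ c z.2.2 = Q.src z.1},
      sg2 Q c Mb Mb' Mj' g (Sum.inl z) * sg1 Q c Ma' Ma Mi' g' (Sum.inl z) =
      ∑ e, Matrix.trace ((toM c g' * Ma' e - Ma e * toM c g') *
        (toM c g * Mb e - Mb' e * toM c g)) := by
    rw [← pair_inl (fun e => toM c g' * Ma' e - Ma e * toM c g')
      (fun e => toM c g * Mb e - Mb' e * toM c g) (supp_ga2 h' h g')]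
    apply sum_congr rfl
    intro z _
    exact mul_comm _ _
  have l4 : ∑ z : {z : P × F // c z.1 = Q.cF z.2},
      sg2 Q c Mb Mb' Mj' g (Sum.inr z) * sg1 Q c Ma' Ma Mi' g' (Sum.inr z) =
      Matrix.trace (toM c g' * Mi' * -(Mj' * toM c g)) := by
    rw [← pair_inr (toM c g' * Mi') (-(Mj' * toM c g)) (supp_gi h' g')]
    apply sum_congr rfl
    intro z _
    exact mul_comm _ _
  rw [l1, l2, l3, l4, ← sub_eq_zero]
  have m1 : Matrix.trace (toM c g * Mi * -(Mj * toM c g')) =
      -Matrix.trace (toM c g' * toM c g * (Mi * Mj)) := by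
    rw [Matrix.mul_neg, Matrix.trace_neg, ← Matrix.mul_assoc (toM c g * Mi),
      Matrix.trace_mul_comm _ (toM c g')]
    simp only [Matrix.mul_assoc]
  have m2 : Matrix.trace (toM c g' * Mi' * -(Mj' * toM c g)) =
      -Matrix.trace (toM c g * toM c g' * (Mi' * Mj')) := by
    rw [Matrix.mul_neg, Matrix.trace_neg, ← Matrix.mul_assoc (toM c g' * Mi'),
      Matrix.trace_mul_comm _ (toM c g)]
    simp only [Matrix.mul_assoc]
  have m3 : (∑ e, Matrix.trace ((toM c g * Ma e - Ma' e * toM c g) *
        (toM c g' * Mb' e - Mb e * toM c g'))) -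
      ∑ e, Matrix.trace ((toM c g' * Ma' e - Ma e * toM c g') *
        (toM c g * Mb e - Mb' e * toM c g)) =
      Matrix.trace (toM c g * toM c g' * ∑ e, (Ma' e * Mb' e - Mb' e * Ma' e)) -
      Matrix.trace (toM c g' * toM c g * ∑ e, (Ma e * Mb e - Mb e * Ma e)) := by
    rw [Matrix.mul_sum, Matrix.mul_sum, Matrix.trace_sum, Matrix.trace_sum, ← sum_sub_distrib,
      ← sum_sub_distrib]
    apply sum_congr rfl
    intro e _
    rw [← trace_id2, Matrix.trace_mul_comm (toM c g' * Ma' e - Ma e * toM c g')]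
  have m4 : Matrix.trace (toM c g * toM c g' * ∑ e, (Ma' e * Mb' e - Mb' e * Ma' e)) +
      Matrix.trace (toM c g * toM c g' * (Mi' * Mj')) = 0 := by
    rw [← Matrix.trace_add, ← Matrix.mul_add, h'.mom, Matrix.mul_zero, Matrix.trace_zero]
  have m5 : Matrix.trace (toM c g' * toM c g * ∑ e, (Ma e * Mb e - Mb e * Ma e)) +
      Matrix.trace (toM c g' * toM c g * (Mi * Mj)) = 0 := by
    rw [← Matrix.trace_add, ← Matrix.mul_add, h.mom, Matrix.mul_zero, Matrix.trace_zero]
  rw [m1, m2]
  linear_combination m3 + m4 - m5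

lemma sg_inj (h : Mod Q c Ma Mb Mi Mj) (h' : Mod Q c Ma' Mb' Mi' Mj')
    (g : {z : P × P // c z.1 = c z.2} → K)
    (h1 : sg1 Q c Ma Ma' Mi g = 0) (h2 : sg2 Q c Mb Mb' Mj' g = 0) : g = 0 := by
  apply toM_inj
  have ha : ∀ e, toM c g * Ma e = Ma' e * toM c g := by
    intro e
    rw [← sub_eq_zero]
    ext r' r
    by_contra hne
    have hs := supp_ga2 h h' g e r' r hne
    exact hne (congrFun h1 (Sum.inl ⟨(e, r', r), hs⟩))
  have hb : ∀ e, toM c g * Mb e = Mb' e * toM c g := by
    intro e
    rw [← sub_eq_zero]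
    ext r' r
    by_contra hne
    have hs := supp_gb2 h h' g e r' r hne
    exact hne (congrFun h2 (Sum.inl ⟨(e, r, r'), hs.2, hs.1⟩))
  have hi : toM c g * Mi = 0 := by
    ext r f
    by_contra hne
    have hs := supp_gi h g r f hne
    exact hne (congrFun h1 (Sum.inr ⟨(r, f), hs⟩))
  have hU := h.st (LinearMap.ker (Matrix.mulVecLin (toM c g))) ?_ ?_ ?_ ?_
  · ext r r'
    have h3 : (Pi.single r' 1 : P → K) ∈ LinearMap.ker (Matrix.mulVecLin (toM c g)) := by
      rw [hU]; trivial
    rw [LinearMap.mem_ker, Matrix.mulVecLin_apply] at h3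
    have h4 := congrFun h3 r
    simpa using h4
  · intro i u hu
    rw [LinearMap.mem_ker, Matrix.mulVecLin_apply] at hu ⊢
    funext r
    have h3 := congrFun hu r
    simp only [Matrix.mulVec, dotProduct, Pi.zero_apply] at h3 ⊢
    by_cases hr : c r = i
    · rw [← h3]
      apply sum_congr rfl
      intro s _
      by_cases hs : c s = i
      · rw [if_pos hs]
      · rw [if_neg hs]
        have : toM c g r s = 0 := by
          by_contra h5
          exact hs ((toM_supp c g h5).symm.trans hr)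
        rw [this]; ring
    · apply sum_eq_zero
      intro s _
      by_cases hs : c s = i
      · have : toM c g r s = 0 := by
          by_contra h5
          exact hr ((toM_supp c g h5).trans hs)
        rw [this]; ring
      · rw [if_neg hs]; ring
  · intro f
    rw [LinearMap.mem_ker, Matrix.mulVecLin_apply]
    funext r
    have h3 := congrFun (congrFun hi r) f
    rw [Matrix.mul_apply] at h3
    simpa [Matrix.mulVec, dotProduct] using h3
  · intro e u hu
    rw [LinearMap.mem_ker, Matrix.mulVecLin_apply] at hu ⊢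
    rw [Matrix.mulVec_mulVec, ha, ← Matrix.mulVec_mulVec, hu, Matrix.mulVec_zero]
  · intro e u hu
    rw [LinearMap.mem_ker, Matrix.mulVecLin_apply] at hu ⊢
    rw [Matrix.mulVec_mulVec, hb, ← Matrix.mulVec_mulVec, hu, Matrix.mulVec_zero]

/-- **Rigidity**: two stable points of the same dimension vectors are isomorphic when the
dimension of the variety is zero. -/
theorem rigid (h : Mod Q c Ma Mb Mi Mj) (h' : Mod Q c Ma' Mb' Mi' Mj')
    (hz : ∑ e, dv c (Q.src e) * dv c (Q.tgt e) + ∑ f, dv c (Q.cF f) = ∑ i, dv c i * dv c i) :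
    ∃ g : Matrix P P K, IsUnit g ∧ (∀ r r', g r r' ≠ 0 → c r = c r') ∧
      (∀ e, g * Ma e = Ma' e * g) ∧ (∀ e, g * Mb e = Mb' e * g) ∧ g * Mi = Mi' ∧
      Mj' * g = Mj := by
  have hcard : finrank K ({z : P × P // c z.1 = c z.2} → K) = Fintype.card (NI Q c) := by
    rw [Module.finrank_fintype_fun_eq_card, card_NI, hz, card_pair c c]
    rfl
  obtain ⟨g, hg1, hg2⟩ := iso_exact (sg1 Q c Ma Ma' Mi) (sg2 Q c Mb Mb' Mj')
    (sg1 Q c Ma' Ma Mi') (sg2 Q c Mb' Mb Mj) (sg_pair h h') (sg_inj h h') (sg_inj h' h)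
    hcard hcard (Sum.elim (fun _ => 0) (fun z => Mi' z.1.1 z.1.2))
    (Sum.elim (fun _ => 0) (fun z => -Mj z.1.2 z.1.1)) (by
      intro g'
      rw [Fintype.sum_sum_type, Fintype.sum_sum_type]
      simp only [Sum.elim_inl, Sum.elim_inr, zero_mul, sum_const_zero, zero_add]
      have l1 : ∑ z : {z : P × F // c z.1 = Q.cF z.2},
          Mi' z.1.1 z.1.2 * sg2 Q c Mb' Mb Mj g' (Sum.inr z) =
          Matrix.trace (Mi' * -(Mj * toM c g')) := pair_inr Mi' (-(Mj * toM c g')) h'.si
      have l2 : ∑ z : {z : P × F // c z.1 = Q.cF z.2},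
          -Mj z.1.2 z.1.1 * sg1 Q c Ma' Ma Mi' g' (Sum.inr z) =
          Matrix.trace (toM c g' * Mi' * -Mj) := by
        rw [← pair_inr (toM c g' * Mi') (-Mj) (supp_gi h' g')]
        apply sum_congr rfl
        intro z _
        exact mul_comm _ _
      rw [l1, l2, Matrix.mul_neg, Matrix.mul_neg, Matrix.trace_neg, Matrix.trace_neg,
        ← Matrix.mul_assoc, Matrix.trace_mul_comm _ (toM c g'), Matrix.mul_assoc])
  have ha : ∀ e, toM c g * Ma e = Ma' e * toM c g := by
    intro e
    rw [← sub_eq_zero]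
    ext r' r
    by_contra hne
    have hs := supp_ga2 h h' g e r' r hne
    exact hne (congrFun hg1 (Sum.inl ⟨(e, r', r), hs⟩))
  have hb : ∀ e, toM c g * Mb e = Mb' e * toM c g := by
    intro e
    rw [← sub_eq_zero]
    ext r' r
    by_contra hne
    have hs := supp_gb2 h h' g e r' r hne
    exact hne (congrFun hg2 (Sum.inl ⟨(e, r, r'), hs.2, hs.1⟩))
  have hi : toM c g * Mi = Mi' := by
    ext r f
    by_cases hs : c r = Q.cF f
    · exact congrFun hg1 (Sum.inr ⟨(r, f), hs⟩)
    · have h3 : Mi' r f = 0 := by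
        by_contra h5
        exact hs (h'.si r f h5)
      have h4 : (toM c g * Mi) r f = 0 := by
        by_contra h5
        exact hs (supp_gi h g r f h5)
      rw [h3, h4]
  have hj : Mj' * toM c g = Mj := by
    ext f r
    by_cases hs : c r = Q.cF f
    · have h3 := congrFun hg2 (Sum.inr ⟨(r, f), hs⟩)
      have h4 : -(Mj' * toM c g) f r = -Mj f r := h3
      exact neg_inj.1 h4
    · have h3 : Mj f r = 0 := by
        by_contra h5
        exact hs (h.sj f r h5)
      have h4 : (Mj' * toM c g) f r = 0 := by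
        by_contra h5
        exact hs (supp_gj h' g r f h5)
      rw [h3, h4]
  refine ⟨toM c g, ?_, fun r r' hne => toM_supp c g hne, ha, hb, hi, hj⟩
  have hU := h'.st (LinearMap.range (Matrix.mulVecLin (toM c g))) ?_ ?_ ?_ ?_
  · rw [← Matrix.mulVec_surjective_iff_isUnit]
    intro v
    have h3 : v ∈ LinearMap.range (Matrix.mulVecLin (toM c g)) := by rw [hU]; trivial
    obtain ⟨u, hu⟩ := h3
    exact ⟨u, hu⟩
  · rintro i _ ⟨u, rfl⟩
    refine ⟨fun r => if c r = i then u r else 0, ?_⟩
    rw [Matrix.mulVecLin_apply, Matrix.mulVecLin_apply]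
    funext r
    simp only [Matrix.mulVec, dotProduct]
    by_cases hr : c r = i
    · rw [if_pos hr]
      apply sum_congr rfl
      intro s _
      by_cases hs : c s = i
      · rw [if_pos hs]
      · rw [if_neg hs]
        have : toM c g r s = 0 := by
          by_contra h5
          exact hs ((toM_supp c g h5).symm.trans hr)
        rw [this]; ring
    · rw [if_neg hr]
      apply sum_eq_zero
      intro s _
      by_cases hs : c s = i
      · have : toM c g r s = 0 := by
          by_contra h5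
          exact hr ((toM_supp c g h5).trans hs)
        rw [this]; ring
      · rw [if_neg hs]; ring
  · intro f
    refine ⟨fun r => Mi r f, ?_⟩
    rw [Matrix.mulVecLin_apply]
    funext r
    have h3 := congrFun (congrFun hi r) f
    rw [Matrix.mul_apply] at h3
    exact h3
  · rintro e _ ⟨u, rfl⟩
    refine ⟨(Ma e).mulVec u, ?_⟩
    rw [Matrix.mulVecLin_apply, Matrix.mulVecLin_apply, Matrix.mulVec_mulVec, ha,
      ← Matrix.mulVec_mulVec]
  · rintro e _ ⟨u, rfl⟩
    refine ⟨(Mb e).mulVec u, ?_⟩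
    rw [Matrix.mulVecLin_apply, Matrix.mulVecLin_apply, Matrix.mulVec_mulVec, hb,
      ← Matrix.mulVec_mulVec]

end two

end Pool.Agent.Run7.h657
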