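import Pool.Agent.Run7.h657.SU
import Pool.Agent.Run7.h657.UA
import Pool.Agent.Run7.h657.Def2

/-! Every point of a zero dimensional quiver variety has a basis of weight vectors. -/

set_option linter.unusedSectionVars false

namespace Pool.Agent.Run7.h657.Vx

open Finset Res Module

universe u1 u2 u3 u4 u5

variable {K : Type u1} {V : Type u2} {A : Type u3} {W : Type u4} {P : Type u5} [Field K]
  [Fintype V] [Fintype A] [Fintype W] [Fintype P] [DecidableEq V]

variable {Γ : FQuiver V A W} {T : Par K A W} {c : P → V} {x : P → Kˣ} {M M' : Rep K A W P}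

lemma toMod (T : Par K A W) (hM : IsPoint Γ c M) : Mod (QQ Γ T) c M.X M.Y M.I M.J where
  sa := fun e r' r h => ⟨(hM.suppX e r' r h).2, (hM.suppX e r' r h).1⟩
  sb := fun e r' r h => ⟨(hM.suppY e r' r h).2, (hM.suppY e r' r h).1⟩
  si := fun r f h => hM.suppI r f h
  sj := fun f r h => hM.suppJ f r h
  mom := hM.moment
  st := hM.stable

/-- some value of the parameters -/
def triv (K A W : Type*) [Field K] : Par K A W := ⟨1, 1, fun _ => 1, fun _ => 1⟩

/-- two stable points are isomorphic in dimension zero -/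
theorem point_unique (hM : IsPoint Γ c M) (hM' : IsPoint Γ c M') (hd : DimZero Γ c) :
    Iso c M M' := by
  classical
  obtain ⟨g, hu, hc, ha, hb, hi, hj⟩ := rigid (toMod (triv K A W) hM') (toMod (triv K A W) hM)
    (zd hd)
  refine ⟨g, ?_, hc, ha, hb, hi, hj.symm⟩
  intro u h
  have h1 := (Matrix.mulVec_injective_iff_isUnit.2 hu)
  apply h1
  rw [h, Matrix.mulVec_zero]

/-- the twist of a point by the torus -/
def twist (T : Par K A W) (M : Rep K A W P) : Rep K A W P where
  X e := ((T.τ e : K)⁻¹) • M.X e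
  Y e := ((T.τ e : K) * (T.hb : K)⁻¹) • M.Y e
  I := Matrix.of fun r f => (T.a f : K) * M.I r f
  J := Matrix.of fun f r => (T.hb : K)⁻¹ * (T.a f : K)⁻¹ * M.J f r

lemma twist_point (T : Par K A W) (hM : IsPoint Γ c M) : IsPoint Γ c (twist T M) where
  suppX e r' r h := hM.suppX e r' r (fun h0 => h (by
    show (T.τ e : K)⁻¹ * M.X e r' r = 0
    rw [h0, mul_zero]))
  suppY e r' r h := hM.suppY e r' r (fun h0 => h (by
    show ((T.τ e : K) * (T.hb : K)⁻¹) * M.Y e r' r = 0
    rw [h0, mul_zero]))
  suppI r f h := hM.suppI r f (fun h0 => h (by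
    show (T.a f : K) * M.I r f = 0
    rw [h0, mul_zero]))
  suppJ f r h := hM.suppJ f r (fun h0 => h (by
    show (T.hb : K)⁻¹ * (T.a f : K)⁻¹ * M.J f r = 0
    rw [h0, mul_zero]))
  moment := by
    have e1 : ∀ e, (twist T M).X e * (twist T M).Y e - (twist T M).Y e * (twist T M).X e =
        (T.hb : K)⁻¹ • (M.X e * M.Y e - M.Y e * M.X e) := by
      intro e
      show ((T.τ e : K)⁻¹ • M.X e) * (((T.τ e : K) * (T.hb : K)⁻¹) • M.Y e) -
        (((T.τ e : K) * (T.hb : K)⁻¹) • M.Y e) * ((T.τ e : K)⁻¹ • M.X e) = _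
      have h0 : (T.τ e : K) ≠ 0 := (T.τ e).ne_zero
      rw [Matrix.smul_mul, Matrix.mul_smul, smul_smul, Matrix.smul_mul, Matrix.mul_smul,
        smul_smul, smul_sub]
      congr 2
      · field_simp
      · field_simp
    have e2 : (twist T M).I * (twist T M).J = (T.hb : K)⁻¹ • (M.I * M.J) := by
      ext r r'
      rw [Matrix.smul_apply, Matrix.mul_apply, Matrix.mul_apply, smul_sum]
      apply sum_congr rfl
      intro f _
      show (T.a f : K) * M.I r f * ((T.hb : K)⁻¹ * (T.a f : K)⁻¹ * M.J f r') =
        (T.hb : K)⁻¹ * (M.I r f * M.J f r')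
      have h0 : (T.a f : K) ≠ 0 := (T.a f).ne_zero
      field_simp
    rw [sum_congr rfl (fun e _ => e1 e), ← smul_sum, e2, ← smul_add, hM.moment, smul_zero]
  stable := by
    intro U h1 h2 h3 h4
    apply hM.stable U h1
    · intro f
      have h5 := U.smul_mem (T.a f : K)⁻¹ (h2 f)
      have h6 : (T.a f : K)⁻¹ • (fun r => (twist T M).I r f) = fun r => M.I r f := by
        funext r
        show (T.a f : K)⁻¹ * ((T.a f : K) * M.I r f) = M.I r f
        rw [inv_mul_cancel_left₀ (T.a f).ne_zero]
      rwa [h6] at h5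
    · intro e u hu
      have h5 := U.smul_mem (T.τ e : K) (h3 e u hu)
      have h6 : (T.τ e : K) • ((twist T M).X e).mulVec u = (M.X e).mulVec u := by
        show (T.τ e : K) • ((T.τ e : K)⁻¹ • M.X e).mulVec u = _
        rw [Matrix.smul_mulVec, smul_smul, mul_inv_cancel₀ (T.τ e).ne_zero, one_smul]
      rwa [h6] at h5
    · intro e u hu
      have h5 := U.smul_mem ((T.τ e : K)⁻¹ * (T.hb : K)) (h4 e u hu)
      have h6 : ((T.τ e : K)⁻¹ * (T.hb : K)) • ((twist T M).Y e).mulVec u =
          (M.Y e).mulVec u := by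
        show ((T.τ e : K)⁻¹ * (T.hb : K)) •
          (((T.τ e : K) * (T.hb : K)⁻¹) • M.Y e).mulVec u = _
        have h7 : ((T.τ e : K)⁻¹ * (T.hb : K)) * ((T.τ e : K) * (T.hb : K)⁻¹) = 1 := by
          have := (T.τ e).ne_zero
          have := (T.hb).ne_zero
          field_simp
        rw [Matrix.smul_mulVec, smul_smul, h7, one_smul]
      rwa [h6] at h5

/-- homogeneous eigenvectors -/
def HE (c : P → V) (g : Matrix P P K) (u : P → K) : Prop :=
  (∃ i, ∀ r, u r ≠ 0 → c r = i) ∧ ∃ y : Kˣ, g.mulVec u = (y : K) • u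

/-- the homogeneous eigenvectors of the twist span -/
lemma span_HE (hM : IsPoint Γ c M) {g : Matrix P P K}
    (hX : ∀ e, g * M.X e = (twist T M).X e * g) (hY : ∀ e, g * M.Y e = (twist T M).Y e * g)
    (hI : g * M.I = (twist T M).I) :
    Submodule.span K {u : P → K | HE c g u} = ⊤ := by
  apply hM.stable
  · intro i u hu
    induction hu using Submodule.span_induction with
    | mem u hu =>
      obtain ⟨⟨j, hj⟩, hy⟩ := hu
      by_cases hij : j = i
      · subst hij
        have : (fun r => if c r = j then u r else 0) = u := by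
          funext r
          by_cases h0 : u r = 0
          · rw [h0]; simp
          · rw [if_pos (hj r h0)]
        rw [this]
        exact Submodule.subset_span ⟨⟨j, hj⟩, hy⟩
      · have : (fun r => if c r = i then u r else 0) = 0 := by
          funext r
          by_cases h0 : u r = 0
          · rw [h0]; simp
          · rw [if_neg (fun h => hij ((hj r h0).symm.trans h))]; rfl
        rw [this]
        exact Submodule.zero_mem _
    | zero =>
      have : (fun r => if c r = i then (0 : P → K) r else 0) = 0 := by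
        funext r; simp
      rw [this]
      exact Submodule.zero_mem _
    | add a b _ _ ha hb =>
      have : (fun r => if c r = i then (a + b) r else 0) =
          (fun r => if c r = i then a r else 0) + fun r => if c r = i then b r else 0 := by
        funext r
        simp only [Pi.add_apply]
        split_ifs <;> simp
      rw [this]
      exact Submodule.add_mem _ ha hb
    | smul k a _ ha =>
      have : (fun r => if c r = i then (k • a) r else 0) =
          k • fun r => if c r = i then a r else 0 := by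
        funext r
        simp only [Pi.smul_apply]
        split_ifs <;> simp
      rw [this]
      exact Submodule.smul_mem _ k ha
  · intro f
    apply Submodule.subset_span
    refine ⟨⟨Γ.fr f, fun r hr => hM.suppI r f hr⟩, T.a f, ?_⟩
    funext r
    have h1 := congrFun (congrFun hI r) f
    rw [Matrix.mul_apply] at h1
    exact h1
  · intro e u hu
    induction hu using Submodule.span_induction with
    | mem u hu =>
      obtain ⟨⟨j, hj⟩, y, hy⟩ := hu
      apply Submodule.subset_span
      refine ⟨⟨Γ.head e, ?_⟩, (T.τ e)⁻¹ * y, ?_⟩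
      · intro r hr
        obtain ⟨s, _, hs⟩ := exists_ne_zero_of_sum_ne_zero hr
        exact (hM.suppX e r s (left_ne_zero_of_mul hs)).2
      · rw [Matrix.mulVec_mulVec, hX, ← Matrix.mulVec_mulVec, hy, Matrix.mulVec_smul]
        show (y : K) • ((T.τ e : K)⁻¹ • M.X e).mulVec u = _
        rw [Matrix.smul_mulVec, smul_smul, Units.val_mul, Units.val_inv_eq_inv_val, mul_comm]
    | zero => rw [Matrix.mulVec_zero]; exact Submodule.zero_mem _
    | add a b _ _ ha hb => rw [Matrix.mulVec_add]; exact Submodule.add_mem _ ha hb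
    | smul k a _ ha => rw [Matrix.mulVec_smul]; exact Submodule.smul_mem _ k ha
  · intro e u hu
    induction hu using Submodule.span_induction with
    | mem u hu =>
      obtain ⟨⟨j, hj⟩, y, hy⟩ := hu
      apply Submodule.subset_span
      refine ⟨⟨Γ.tail e, ?_⟩, T.τ e * T.hb⁻¹ * y, ?_⟩
      · intro r hr
        obtain ⟨s, _, hs⟩ := exists_ne_zero_of_sum_ne_zero hr
        exact (hM.suppY e r s (left_ne_zero_of_mul hs)).2
      · rw [Matrix.mulVec_mulVec, hY, ← Matrix.mulVec_mulVec, hy, Matrix.mulVec_smul]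
        show (y : K) • (((T.τ e : K) * (T.hb : K)⁻¹) • M.Y e).mulVec u = _
        rw [Matrix.smul_mulVec, smul_smul, Units.val_mul, Units.val_mul,
          Units.val_inv_eq_inv_val, mul_comm]
    | zero => rw [Matrix.mulVec_zero]; exact Submodule.zero_mem _
    | add a b _ _ ha hb => rw [Matrix.mulVec_add]; exact Submodule.add_mem _ ha hb
    | smul k a _ ha => rw [Matrix.mulVec_smul]; exact Submodule.smul_mem _ k ha

/-- a basis of homogeneous eigenvectors, indexed compatibly with the colours -/
lemma exists_HE_basis {g : Matrix P P K}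
    (hspan : Submodule.span K {u : P → K | HE c g u} = ⊤) :
    ∃ (v : P → P → K) (x : P → Kˣ), LinearIndependent K v ∧
      (∀ k r, v k r ≠ 0 → c r = c k) ∧ ∀ k, g.mulVec (v k) = (x k : K) • v k := by
  classical
  obtain ⟨κ, a, ha, hsp, hind⟩ :=
    exists_linearIndependent' K (fun u : {u : P → K // HE c g u} => u.1)
  have hrange : Set.range (fun u : {u : P → K // HE c g u} => u.1) = {u : P → K | HE c g u} :=
    Subtype.range_val
  rw [hrange, hspan] at hsp
  let b : Basis κ K (P → K) := Basis.mk hind (by rw [hsp])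
  have : Finite κ := Module.Finite.finite_basis b
  have : Fintype κ := Fintype.ofFinite κ
  have hcard : Fintype.card κ = Fintype.card P := by
    rw [← Module.finrank_eq_card_basis b, Module.finrank_fintype_fun_eq_card]
  set w : κ → P → K := fun k => (a k).1 with hw
  have hind' : LinearIndependent K w := hind
  choose ci hci using fun k => (a k).2.1
  choose y hy using fun k => (a k).2.2
  -- count of colours
  have hle : ∀ i, (univ.filter fun k => ci k = i).card ≤ (univ.filter fun r => c r = i).card := by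
    intro i
    have h1 : LinearIndependent K
        (fun (k : {k // ci k = i}) (r : {r // c r = i}) => w k.1 r.1) := by
      rw [Fintype.linearIndependent_iff]
      intro α hα k0
      have h2 : LinearIndependent K (fun k : {k // ci k = i} => w k.1) :=
        hind'.comp _ Subtype.val_injective
      rw [Fintype.linearIndependent_iff] at h2
      apply h2 α
      funext r
      rw [Finset.sum_apply]
      by_cases hr : c r = i
      · have h3 := congrFun hα ⟨r, hr⟩
        rw [Finset.sum_apply] at h3
        exact h3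
      · rw [Pi.zero_apply]
        apply sum_eq_zero
        intro k _
        have h4 : w k.1 r = 0 := by
          by_contra h5
          exact hr ((hci k.1 r h5).trans k.2)
        rw [Pi.smul_apply, h4, smul_zero]
    have h3 := h1.fintype_card_le_finrank
    rw [Module.finrank_fintype_fun_eq_card, Fintype.card_subtype, Fintype.card_subtype] at h3
    exact h3
  have hsum : ∑ i, (univ.filter fun k => ci k = i).card =
      ∑ i, (univ.filter fun r => c r = i).card := by
    rw [← card_eq_sum_card_fiberwise (f := ci) (t := univ) (fun _ _ => mem_univ _),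
      ← card_eq_sum_card_fiberwise (f := c) (t := univ) (fun _ _ => mem_univ _), card_univ,
      card_univ, hcard]
  have heq := (sum_eq_sum_iff_of_le (fun i _ => hle i)).1 hsum
  obtain ⟨φ, hφ⟩ := exists_equiv_fib c ci (fun i => (heq i (mem_univ i)).symm)
  refine ⟨fun k => w (φ k), fun k => y (φ k), hind'.comp _ φ.injective, ?_, ?_⟩
  · intro k r hr
    rw [← hφ k]
    exact hci _ r hr
  · intro k
    exact hy (φ k)

/-- the representation in another basis -/
lemma exists_conj [DecidableEq P] (M : Rep K A W P) {g : Matrix P P K} (hg : IsUnit g)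
    (hc : ∀ r' r, g r' r ≠ 0 → c r' = c r) :
    ∃ M' : Rep K A W P, Iso c M M' ∧ (∀ e, g * M'.X e = M.X e * g) ∧
      (∀ e, g * M'.Y e = M.Y e * g) ∧ g * M'.I = M.I ∧ M'.J = M.J * g := by
  obtain ⟨u, hu⟩ := hg
  have h1 : g * (↑u⁻¹ : Matrix P P K) = 1 := by rw [← hu]; exact u.mul_inv
  refine ⟨⟨fun e => (↑u⁻¹ : Matrix P P K) * (M.X e * g), fun e => (↑u⁻¹ : Matrix P P K) *
    (M.Y e * g), (↑u⁻¹ : Matrix P P K) * M.I, M.J * g⟩, ⟨g, ?_, hc, ?_, ?_, ?_, rfl⟩,
    ?_, ?_, ?_, rfl⟩
  · intro v hv
    have h2 : (↑u⁻¹ : Matrix P P K) * g = 1 := by rw [← hu]; exact u.inv_mul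
    rw [← Matrix.one_mulVec v, ← h2, ← Matrix.mulVec_mulVec, hv, Matrix.mulVec_zero]
  · intro e
    show g * ((↑u⁻¹ : Matrix P P K) * (M.X e * g)) = M.X e * g
    rw [← Matrix.mul_assoc, h1, Matrix.one_mul]
  · intro e
    show g * ((↑u⁻¹ : Matrix P P K) * (M.Y e * g)) = M.Y e * g
    rw [← Matrix.mul_assoc, h1, Matrix.one_mul]
  · show g * ((↑u⁻¹ : Matrix P P K) * M.I) = M.I
    rw [← Matrix.mul_assoc, h1, Matrix.one_mul]
  · intro e
    show g * ((↑u⁻¹ : Matrix P P K) * (M.X e * g)) = M.X e * g
    rw [← Matrix.mul_assoc, h1, Matrix.one_mul]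
  · intro e
    show g * ((↑u⁻¹ : Matrix P P K) * (M.Y e * g)) = M.Y e * g
    rw [← Matrix.mul_assoc, h1, Matrix.one_mul]
  · show g * ((↑u⁻¹ : Matrix P P K) * M.I) = M.I
    rw [← Matrix.mul_assoc, h1, Matrix.one_mul]

/-- the inverse of a colour preserving matrix -/
lemma inv_graded [DecidableEq P] {g h : Matrix P P K} (hgh : g * h = 1)
    (hhg : h * g = 1) (hc : ∀ r' r, g r' r ≠ 0 → c r' = c r) :
    ∀ r' r, h r' r ≠ 0 → c r' = c r := by
  have h1 : g * (Matrix.of fun r' r => if c r' = c r then h r' r else 0) = 1 := by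
    ext r' r
    have h2 := congrFun (congrFun hgh r') r
    rw [Matrix.mul_apply] at h2 ⊢
    by_cases hr : c r' = c r
    · rw [← h2]
      apply sum_congr rfl
      intro s _
      by_cases h0 : g r' s = 0
      · rw [h0, zero_mul, zero_mul]
      · congr 1
        show (if c s = c r then h s r else 0) = h s r
        rw [if_pos ((hc r' s h0).symm.trans hr)]
    · rw [Matrix.one_apply_ne (fun h' => hr (congrArg c h'))]
      apply sum_eq_zero
      intro s _
      by_cases h0 : g r' s = 0
      · rw [h0, zero_mul]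
      · show g r' s * (if c s = c r then h s r else 0) = 0
        rw [if_neg (fun h' => hr ((hc r' s h0).trans h')), mul_zero]
  have h3 : (Matrix.of fun r' r => if c r' = c r then h r' r else 0) = h := by
    rw [← Matrix.one_mul (Matrix.of fun r' r => if c r' = c r then h r' r else 0), ← hhg,
      Matrix.mul_assoc, h1, Matrix.mul_one]
  intro r' r hne
  by_contra hr
  apply hne
  rw [← h3]
  show (if c r' = c r then h r' r else 0) = 0
  rw [if_neg hr]

/-- points in another basis -/
theorem Iso.point (hM : IsPoint Γ c M) (hi : Iso c M M') : IsPoint Γ c M' := by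
  classical
  obtain ⟨g, hinj, hc, hX, hY, hI, hJ⟩ := hi
  have hu : IsUnit g := by
    rw [← Matrix.mulVec_injective_iff_isUnit]
    intro a b hab
    have h1 : g.mulVec (a - b) = 0 := by
      rw [Matrix.mulVec_sub, sub_eq_zero]
      exact hab
    exact sub_eq_zero.1 (hinj _ h1)
  obtain ⟨u, hu⟩ := hu
  set k : Matrix P P K := (↑u⁻¹ : Matrix P P K) with hk
  have hgk : g * k = 1 := by rw [← hu]; exact u.mul_inv
  have hkg : k * g = 1 := by rw [← hu]; exact u.inv_mul
  have hkc := inv_graded hgk hkg hc
  have hX' : ∀ e, M'.X e = k * M.X e * g := by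
    intro e
    rw [Matrix.mul_assoc, ← hX, ← Matrix.mul_assoc, hkg, Matrix.one_mul]
  have hY' : ∀ e, M'.Y e = k * M.Y e * g := by
    intro e
    rw [Matrix.mul_assoc, ← hY, ← Matrix.mul_assoc, hkg, Matrix.one_mul]
  have hI' : M'.I = k * M.I := by
    rw [← hI, ← Matrix.mul_assoc, hkg, Matrix.one_mul]
  refine ⟨?_, ?_, ?_, ?_, ?_, ?_⟩
  · intro e r' r hne
    rw [hX', Matrix.mul_apply] at hne
    obtain ⟨s, _, hs⟩ := exists_ne_zero_of_sum_ne_zero hne
    have h1 := left_ne_zero_of_mul hs
    rw [Matrix.mul_apply] at h1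
    obtain ⟨s', _, hs'⟩ := exists_ne_zero_of_sum_ne_zero h1
    have h2 := hM.suppX e s' s (right_ne_zero_of_mul hs')
    have h3 := hkc r' s' (left_ne_zero_of_mul hs')
    have h4 := hc s r (right_ne_zero_of_mul hs)
    exact ⟨h4.symm.trans h2.1, h3.trans h2.2⟩
  · intro e r' r hne
    rw [hY', Matrix.mul_apply] at hne
    obtain ⟨s, _, hs⟩ := exists_ne_zero_of_sum_ne_zero hne
    have h1 := left_ne_zero_of_mul hs
    rw [Matrix.mul_apply] at h1
    obtain ⟨s', _, hs'⟩ := exists_ne_zero_of_sum_ne_zero h1
    have h2 := hM.suppY e s' s (right_ne_zero_of_mul hs')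
    have h3 := hkc r' s' (left_ne_zero_of_mul hs')
    have h4 := hc s r (right_ne_zero_of_mul hs)
    exact ⟨h4.symm.trans h2.1, h3.trans h2.2⟩
  · intro r f hne
    rw [hI', Matrix.mul_apply] at hne
    obtain ⟨s, _, hs⟩ := exists_ne_zero_of_sum_ne_zero hne
    exact (hkc r s (left_ne_zero_of_mul hs)).trans (hM.suppI s f (right_ne_zero_of_mul hs))
  · intro f r hne
    rw [hJ, Matrix.mul_apply] at hne
    obtain ⟨s, _, hs⟩ := exists_ne_zero_of_sum_ne_zero hne
    exact (hc s r (right_ne_zero_of_mul hs)).symm.trans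
      (hM.suppJ f s (left_ne_zero_of_mul hs))
  · have e1 : ∀ e, M'.X e * M'.Y e - M'.Y e * M'.X e =
        k * (M.X e * M.Y e - M.Y e * M.X e) * g := by
      intro e
      rw [hX', hY']
      have e2 : ∀ (a b : Matrix P P K), k * a * g * (k * b * g) = k * (a * b) * g := by
        intro a b
        calc k * a * g * (k * b * g) = k * a * (g * k) * b * g := by
              simp only [Matrix.mul_assoc]
          _ = k * (a * b) * g := by rw [hgk]; simp only [Matrix.mul_assoc, Matrix.one_mul]
      rw [e2, e2, Matrix.mul_sub, Matrix.sub_mul]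
    rw [sum_congr rfl (fun e _ => e1 e), hI', hJ, ← Matrix.sum_mul, ← Matrix.mul_sum]
    have e3 : k * M.I * (M.J * g) = k * (M.I * M.J) * g := by simp only [Matrix.mul_assoc]
    rw [e3, ← Matrix.add_mul, ← Matrix.mul_add, hM.moment, Matrix.mul_zero, Matrix.zero_mul]
  · intro U h1 h2 h3 h4
    have hU := hM.stable (U.map (Matrix.mulVecLin g)) ?_ ?_ ?_ ?_
    · rw [eq_top_iff]
      intro v _
      have h5 : g.mulVec v ∈ U.map (Matrix.mulVecLin g) := by rw [hU]; trivial
      obtain ⟨v', hv', h6⟩ := h5
      rw [Matrix.mulVecLin_apply] at h6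
      have h7 : g.mulVec (v' - v) = 0 := by rw [Matrix.mulVec_sub, h6, sub_self]
      rw [← sub_eq_zero.1 (hinj _ h7)]
      exact hv'
    · rintro i _ ⟨v, hv, rfl⟩
      refine ⟨fun r => if c r = i then v r else 0, h1 i v hv, ?_⟩
      rw [Matrix.mulVecLin_apply, Matrix.mulVecLin_apply]
      funext r
      simp only [Matrix.mulVec, dotProduct]
      by_cases hr : c r = i
      · rw [if_pos hr]
        apply sum_congr rfl
        intro s _
        by_cases h0 : g r s = 0
        · rw [h0, zero_mul, zero_mul]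
        · rw [if_pos ((hc r s h0).symm.trans hr)]
      · rw [if_neg hr]
        apply sum_eq_zero
        intro s _
        by_cases h0 : g r s = 0
        · rw [h0, zero_mul]
        · rw [if_neg (fun h' => hr ((hc r s h0).trans h')), mul_zero]
    · intro f
      refine ⟨fun r => M'.I r f, h2 f, ?_⟩
      rw [Matrix.mulVecLin_apply]
      funext r
      have h5 := congrFun (congrFun hI r) f
      rw [Matrix.mul_apply] at h5
      exact h5
    · rintro e _ ⟨v, hv, rfl⟩
      refine ⟨(M'.X e).mulVec v, h3 e v hv, ?_⟩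
      rw [Matrix.mulVecLin_apply, Matrix.mulVecLin_apply, Matrix.mulVec_mulVec, hX,
        ← Matrix.mulVec_mulVec]
    · rintro e _ ⟨v, hv, rfl⟩
      refine ⟨(M'.Y e).mulVec v, h4 e v hv, ?_⟩
      rw [Matrix.mulVecLin_apply, Matrix.mulVecLin_apply, Matrix.mulVec_mulVec, hY,
        ← Matrix.mulVec_mulVec]

/-- **Weight bases exist.** -/
theorem exists_weights (T : Par K A W) (hM : IsPoint Γ c M) (hd : DimZero Γ c) :
    ∃ (x : P → Kˣ) (M' : Rep K A W P), Iso c M M' ∧ TorusFixed T x M' := by
  classical
  obtain ⟨g, hu, hc, hX, hY, hI, hJ⟩ := rigid (toMod T hM) (toMod T (twist_point T hM)) (zd hd)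
  obtain ⟨v, x, hind, hv, hg⟩ := exists_HE_basis (span_HE hM hX hY hI)
  set b : Matrix P P K := Matrix.of fun r' r => v r r' with hb
  have hbu : IsUnit b := by
    rw [← Matrix.mulVec_injective_iff_isUnit]
    intro α β hαβ
    have h1 : b.mulVec (α - β) = 0 := by
      rw [Matrix.mulVec_sub, sub_eq_zero]
      exact hαβ
    rw [Fintype.linearIndependent_iff] at hind
    have h2 := hind (α - β) (by
      rw [← h1]
      funext r
      rw [Finset.sum_apply]
      show _ = ∑ s, v s r * (α - β) s
      apply sum_congr rfl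
      intro s _
      rw [Pi.smul_apply, smul_eq_mul, mul_comm])
    funext s
    exact sub_eq_zero.1 (h2 s)
  have hbc : ∀ r' r, b r' r ≠ 0 → c r' = c r := fun r' r h => hv r r' h
  obtain ⟨M', hiso, hX', hY', hI', hJ'⟩ := exists_conj M hbu hbc
  refine ⟨x, M', hiso, ?_⟩
  obtain ⟨u, hu'⟩ := hbu
  set k : Matrix P P K := (↑u⁻¹ : Matrix P P K) with hk
  have hkb : k * b = 1 := by rw [← hu']; exact u.inv_mul
  -- eigenvalue equation
  have hgb : g * b = b * Matrix.diagonal (fun r => (x r : K)) := by
    ext r' r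
    rw [Matrix.mul_diagonal]
    have h1 := congrFun (hg r) r'
    rw [Pi.smul_apply, smul_eq_mul, mul_comm] at h1
    exact h1
  have key : ∀ (N N' : Matrix P P K) (z : K), g * N = z • (N * g) → b * N' = N * b →
      ∀ r' r, (x r' : K) * N' r' r = z * (N' r' r * x r) := by
    intro N N' z h1 h2 r' r
    have h3 : b * (Matrix.diagonal (fun r => (x r : K)) * N') =
        b * (z • (N' * Matrix.diagonal (fun r => (x r : K)))) := by
      rw [← Matrix.mul_assoc, ← hgb, Matrix.mul_assoc, h2, ← Matrix.mul_assoc, h1,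
        Matrix.smul_mul, Matrix.mul_assoc, hgb, ← Matrix.mul_assoc, ← h2, Matrix.mul_smul,
        Matrix.mul_assoc]
    have h4 := congrArg (fun N => k * N) h3
    simp only [← Matrix.mul_assoc, hkb, Matrix.one_mul] at h4
    have h5 := congrFun (congrFun h4 r') r
    rw [Matrix.diagonal_mul, Matrix.smul_apply, Matrix.mul_diagonal, smul_eq_mul] at h5
    exact h5
  refine ⟨?_, ?_, ?_, ?_⟩
  · intro e r' r hne
    have h1 := key (M.X e) (M'.X e) (T.τ e : K)⁻¹ (by
      rw [hX e]
      show ((T.τ e : K)⁻¹ • M.X e) * g = _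
      rw [Matrix.smul_mul]) (hX' e) r' r
    rw [div_eq_one]
    apply Units.ext
    rw [Units.val_mul]
    have h0 := (T.τ e).ne_zero
    have h2 : (x r' : K) * M'.X e r' r = ((T.τ e : K)⁻¹ * x r) * M'.X e r' r := by
      rw [h1]; ring
    have h3 := mul_right_cancel₀ hne h2
    rw [h3, mul_inv_cancel_left₀ h0]
  · intro e r' r hne
    have h1 := key (M.Y e) (M'.Y e) ((T.τ e : K) * (T.hb : K)⁻¹) (by
      rw [hY e]
      show (((T.τ e : K) * (T.hb : K)⁻¹) • M.Y e) * g = _
      rw [Matrix.smul_mul]) (hY' e) r' r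
    rw [div_eq_one]
    apply Units.ext
    rw [Units.val_mul, Units.val_mul]
    have h0 := (T.hb).ne_zero
    have h2 : (x r' : K) * M'.Y e r' r = ((T.τ e : K) * (T.hb : K)⁻¹ * x r) * M'.Y e r' r := by
      rw [h1]; ring
    have h3 := mul_right_cancel₀ hne h2
    rw [h3]
    field_simp
  · intro r f hne
    have h1 : b * (Matrix.diagonal (fun r => (x r : K)) * M'.I) = g * M.I := by
      rw [← Matrix.mul_assoc, ← hgb, Matrix.mul_assoc, hI']
    have h2 : g * M.I = b * Matrix.of fun r f => (T.a f : K) * M'.I r f := by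
      rw [hI]
      ext r f
      rw [Matrix.mul_apply]
      show (T.a f : K) * M.I r f = ∑ s, b r s * ((T.a f : K) * M'.I s f)
      rw [← hI', Matrix.mul_apply, mul_sum]
      apply sum_congr rfl
      intro s _
      ring
    rw [h2] at h1
    have h4 := congrArg (fun N => k * N) h1
    simp only [← Matrix.mul_assoc, hkb, Matrix.one_mul] at h4
    have h5 := congrFun (congrFun h4 r) f
    rw [Matrix.diagonal_mul] at h5
    rw [div_eq_one]
    apply Units.ext
    exact mul_right_cancel₀ hne h5
  · intro f r hne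
    have h1 : (M.J * b) f r = (T.hb : K)⁻¹ * (T.a f : K)⁻¹ * ((M'.J f r) * x r) := by
      have h2 : M.J * b = (Matrix.of fun f r => (T.hb : K)⁻¹ * (T.a f : K)⁻¹ * M'.J f r) *
          Matrix.diagonal (fun r => (x r : K)) := by
        have h3 : M.J * b = (twist T M).J * (g * b) := by
          rw [← Matrix.mul_assoc, hJ]
        rw [h3, hgb, ← Matrix.mul_assoc]
        congr 1
        ext f r
        rw [Matrix.mul_apply]
        show ∑ s, (T.hb : K)⁻¹ * (T.a f : K)⁻¹ * M.J f s * b s r =
          (T.hb : K)⁻¹ * (T.a f : K)⁻¹ * M'.J f r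
        rw [hJ', Matrix.mul_apply, mul_sum]
        apply sum_congr rfl
        intro s _
        ring
      rw [h2, Matrix.mul_diagonal]
      show (T.hb : K)⁻¹ * (T.a f : K)⁻¹ * M'.J f r * x r = _
      ring
    rw [← hJ'] at h1
    rw [div_eq_one]
    apply Units.ext
    rw [Units.val_mul]
    have h0 := (T.hb).ne_zero
    have h00 := (T.a f).ne_zero
    have h2 : M'.J f r * ((T.hb : K) * T.a f) = M'.J f r * x r := by
      conv_lhs => rw [h1]
      field_simp
    exact mul_left_cancel₀ hne h2

/-- the order by level -/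
theorem exists_order (hT : Independent T) (hM : IsPoint Γ c M) (hx : TorusFixed T x M) :
    ∃ _ : LinearOrder P, LevelOrder T x := by
  classical
  choose g hg hg0 using fun r => weight_level hM hx r
  obtain ⟨e⟩ := Fintype.truncEquivFin P
  let key : P → ℤ ×ₗ Fin (Fintype.card P) := fun r => toLex (lev (g r), e r)
  have hkey : Function.Injective key := by
    intro r r' h
    have h1 : (lev (g r), e r) = (lev (g r'), e r') := toLex.injective h
    exact e.injective (Prod.ext_iff.1 h1).2
  refine ⟨LinearOrder.lift' key hkey, ?_⟩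
  intro r r' k k' hlt hk hk'
  have hlv : ∀ (r : P) (k : ℤ), HasLevel T (x r) k → k = lev (g r) := by
    rintro r k ⟨l, m, n, h1, h2⟩
    have h3 : mon T (l, m, n) = mon T (g r) := by
      rw [hg r, h1]
      rfl
    have h4 := mon_inj hT h3
    rw [h2, ← h4]
    rfl
  rw [hlv r k hk, hlv r' k' hk']
  have h5 : key r < key r' := hlt
  rcases Prod.Lex.lt_iff.1 h5 with h6 | h6
  · exact h6.le
  · exact h6.1.le

end Pool.Agent.Run7.h657.Vx
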