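import Pool.Agent.Run7.h657.UB

/-! The value of the normalisation. -/

set_option linter.unusedSectionVars false

namespace Pool.Agent.Run7.h657.Res

open Finset Module

universe u0

section words

variable {ι K I E F : Type*} [LinearOrder ι] [Field K] [Fintype I] [Fintype E] [Fintype F]
  [DecidableEq I] [DecidableEq E] [DecidableEq F] [DecidableEq K]

variable {Q : QD K I E F} {p t : K} {c : ι → I} {x : ι → K} {S : Set K}

lemma VJ_empty_one : VJ Q p t c x ∅ (fun _ => 0) = 1 := by
  rw [VJ_zero]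
  unfold JU UU PiR TT
  simp only [prod_empty, prod_const_one, mul_one]
  have h : cf (∅ : Finset ι) (1 : HH ι K) = 1 := by
    unfold cf mo
    rw [sum_empty, neg_zero, HahnSeries.coeff_one, if_pos rfl]
  rw [h]

lemma mf_pair {A : Finset ι} {i : I} (hA : ∀ a ∈ A, c a = i) :
    mf A (fun q => (c q, x q)) = mf A x := by
  rw [mf_congr (f' := fun q => (i, x q)) (fun r hr => by rw [hA r hr])]
  exact mf_comp (f := x) (j := fun z => (i, z)) (fun a _ b _ h => (Prod.ext_iff.1 h).2)

lemma mf_mul {A : Finset ι} (ht : t ≠ 0) : mf A (fun q => t * x q) = mf A x :=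
  mf_comp (f := x) (j := fun z => t * z) (fun a _ b _ h => mul_left_cancel₀ ht h)

lemma mf_AY {A Y : Finset ι} {i : I} (hA : ∀ a ∈ A, c a = i) (hY : ∀ r ∈ Y, c r ≠ i) :
    mf (A ∪ Y) (fun q => (c q, x q)) = mf A x * mf Y (fun q => (c q, x q)) := by
  rw [mf_union, mf_pair hA]
  intro a ha y hy h
  exact hY y hy ((Prod.ext_iff.1 h).1.symm.trans (hA a ha))

/-- comparison of the constant terms -/
theorem VJ_zero_val [CharZero K] (hs : Sep Q t) (hL : LS Q t c x) (hq : Gq Q p t x S) {i : I}
    {A B Y : Finset ι} (hA : ∀ a ∈ A, c a = i) (hB : ∀ a ∈ B, c a = i) (hY : ∀ r ∈ Y, c r ≠ i)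
    (hbal : Bal Q t c x i A B Y) (hBA : B.card ≤ A.card)
    (hZ : ∀ A' : Finset ι, (∀ a ∈ A', c a = i) → A'.card < B.card → ∀ P : MvPolynomial ι K,
      PP Q t c x (A' ∪ Y) P → J Q t c x (A' ∪ Y) P = 0)
    (h0 : VJ Q p t c x (B ∪ Y) (fun _ => 0) =
      ((mf (B ∪ Y) (fun q => (c q, x q)) : ℕ) : K) * k0 t ^ (B ∪ Y).card) :
    VJ Q p t c x (A ∪ Y) (fun _ => 0) =
      ((mf (A ∪ Y) (fun q => (c q, x q)) : ℕ) : K) * k0 t ^ (A ∪ Y).card := by
  have h := VJ_step_card hs hL hq hA hB hY hbal hBA hZ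
  have ht0 : t ≠ 0 := hq.gs.ne _ hq.tS
  have hk0 : k0 t ≠ 0 := k0_ne hs.t1 ht0
  have h1 := h (fun _ => 0)
  rw [Finset.Nat.antidiagonal_zero, sum_singleton, Et_zero, Es_zero, gG_zero] at h1
  simp only [Nat.cast_zero, mul_zero, zpow_zero, one_mul, le_refl, if_true, add_zero, sub_zero,
    Nat.sub_zero] at h1
  have hupd : Function.update (fun _ : I => 0) i 0 = fun _ => 0 := by
    funext j
    by_cases hj : j = i
    · subst hj; rw [Function.update_self]
    · rw [Function.update_of_ne hj]
  have hN1 : stN (fun b : B => t * x b.1) = mf B x := by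
    rw [stN_coe B (fun q => t * x q), mf_mul ht0]
  have hN2 : stN (fun a : A => x a.1) = mf A x := stN_coe A x
  rw [hupd, h0, hN1, hN2, mf_AY hB hY, card_union_of_disjoint (by
    rw [disjoint_left]
    intro b hb hy
    exact hY b hy (hB b hb))] at h1
  rw [mf_AY hA hY, card_union_of_disjoint (by
    rw [disjoint_left]
    intro b hb hy
    exact hY b hy (hA b hb))]
  have hB0 : ((mf B x : ℕ) : K) ≠ 0 := Nat.cast_ne_zero.2 (mf_pos B x).ne'
  have hkB := pow_ne_zero B.card hk0
  apply mul_left_cancel₀ (mul_ne_zero hB0 hkB)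
  rw [h1]
  push_cast
  ring

end words

variable {ι K I E F : Type*} [LinearOrder ι] [Field K] [Fintype I] [Fintype E] [Fintype F]
  [DecidableEq I] [DecidableEq E] [DecidableEq F] [DecidableEq K]

variable {Q : QD K I E F} {p t : K} {cι : ι → I} {xι : ι → K} {S : Set K}

/-- value of the normalisation at torus fixed points -/
theorem NZ_card [CharZero K] (hs : Sep Q t) (hL : LS Q t cι xι) (hq : Gq Q p t xι S) (n : ℕ) :
    ∀ (P : Type u0) [Fintype P] [DecidableEq P] (f : P ↪ ι) (Ma Mb : E → Matrix P P K)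
      (Mi : Matrix P F K) (Mj : Matrix F P K), Fintype.card P = n →
      Fx Q t (fun r => cι (f r)) (fun r => xι (f r)) Ma Mb Mi Mj →
      ZD Q (fun r => cι (f r)) →
      (∃ w, daw Q w (dR cι (univ.map f)) = 0) ∧
        VJ Q p t cι xι (univ.map f) (fun _ => 0) =
          ((mf (univ.map f) (fun q => (cι q, xι q)) : ℕ) : K) * k0 t ^ (univ.map f).card := by
  induction n using Nat.strong_induction_on with
  | _ n ih =>
  intro P _ _ f Ma Mb Mi Mj hn h hz
  have ht0 : t ≠ 0 := hq.gs.ne _ hq.tS
  rcases isEmpty_or_nonempty P with hP | ⟨⟨r0⟩⟩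
  · have : (univ.map f : Finset ι) = ∅ := by
      rw [univ_eq_empty, map_empty]
    rw [this]
    refine ⟨⟨[], ?_⟩, by rw [VJ_empty_one, mf_empty, card_empty, pow_zero, Nat.cast_one, mul_one]⟩
    funext j
    show ((RA cι ∅ j).card : ℤ) = 0
    unfold RA
    simp
  -- the vertex
  have hzz := ZDz_map (f := f) hz
  have hneg : ∃ i, mz Q (dR cι (univ.map f)) i < 0 := by
    by_contra hcon
    push Not at hcon
    have h1 := exists_negZ hzz (fun j => Int.natCast_nonneg _) hcon
    have h2 : ∀ r w, Mi r w = 0 := by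
      intro r w
      by_contra hne
      have h3 := h.mod.si r w hne
      have h4 := h1 w
      rw [dR_map] at h4
      have h5 : 0 < dv (fun r => cι (f r)) (Q.cF w) :=
        card_pos.2 ⟨r, by rw [mem_filter]; exact ⟨mem_univ r, h3⟩⟩
      have h6 : ((dv (fun r => cι (f r)) (Q.cF w) : ℕ) : ℤ) = 0 := h4
      omega
    have h3 : (⊥ : Submodule K (P → K)) = ⊤ := by
      apply h.mod.st
      · intro j v hv
        rw [Submodule.mem_bot] at hv
        subst hv
        rw [Submodule.mem_bot]
        funext r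
        simp
      · intro w
        rw [Submodule.mem_bot]
        funext r
        exact h2 r w
      · intro e v hv
        rw [Submodule.mem_bot] at hv
        subst hv
        rw [Submodule.mem_bot, Matrix.mulVec_zero]
      · intro e v hv
        rw [Submodule.mem_bot] at hv
        subst hv
        rw [Submodule.mem_bot, Matrix.mulVec_zero]
    have h4 : (Pi.single r0 1 : P → K) ∈ (⊥ : Submodule K (P → K)) := by rw [h3]; trivial
    rw [Submodule.mem_bot] at h4
    have h5 := congrFun h4 r0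
    rw [Pi.single_eq_same] at h5
    exact one_ne_zero h5
  obtain ⟨i, hi⟩ := hneg
  have hμ : muv Q (fun r => cι (f r)) i < 0 := by rw [← mz_map]; exact hi
  -- the quotient
  obtain ⟨B, hB, hind, hsp⟩ := exists_cols (Ho Ma Mb Mj) i (fun r => cι (f r))
  have hcoef := h.coef hs.te0 ht0 hsp
  choose! γ hγ hH using hcoef
  have hFx := h.quot hB (fun r hr b => hγ r hr b) hH
  obtain ⟨g1, g2, g3, g4⟩ := h.numerics hs.hl hs.te0 hz hμ hB hind hFx.mod
  let f' : PQ (fun r => cι (f r)) i B ↪ ι := (Function.Embedding.subtype _).trans f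
  have hlt : Fintype.card (PQ (fun r => cι (f r)) i B) < n := by
    rw [← hn]
    have : ∃ a, cι (f a) = i ∧ a ∉ B := by
      by_contra hcon
      push Not at hcon
      have : dv (fun r => cι (f r)) i ≤ B.card := by
        unfold dv
        apply card_le_card
        intro a ha
        rw [mem_filter] at ha
        exact hcon a ha.2
      omega
    obtain ⟨a, ha1, ha2⟩ := this
    apply Fintype.card_subtype_lt (x := a)
    rintro (h1 | h1)
    · exact h1 ha1
    · exact ha2 h1
  obtain ⟨⟨w, hw⟩, hV⟩ := ih _ hlt (PQ (fun r => cι (f r)) i B) f' _ _ _ _ rfl hFx g3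
  -- the letters
  have hR' : (univ.map f' : Finset ι) = B.map f ∪ RY cι (univ.map f) i := by
    ext q
    rw [mem_union, mem_map, mem_map, mem_RY, mem_map]
    constructor
    · rintro ⟨⟨r, hr⟩, _, rfl⟩
      rcases hr with hr | hr
      · exact Or.inr ⟨⟨r, mem_univ r, rfl⟩, hr⟩
      · exact Or.inl ⟨r, hr, rfl⟩
    · rintro (⟨r, hr, rfl⟩ | ⟨⟨r, _, rfl⟩, hr⟩)
      · exact ⟨⟨r, Or.inr hr⟩, mem_univ _, rfl⟩
      · exact ⟨⟨r, Or.inl hr⟩, mem_univ _, rfl⟩
  have hA : ∀ a ∈ RA cι (univ.map f) i, cι a = i := fun a ha => (mem_RA.1 ha).2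
  have hY : ∀ r ∈ RY cι (univ.map f) i, cι r ≠ i := fun r hr => (mem_RY.1 hr).2
  have hBm : ∀ b ∈ B.map f, cι b = i := by
    intro b hb
    obtain ⟨r, hr, rfl⟩ := mem_map.1 hb
    exact hB r hr
  have hbal : Bal Q t cι xι i (RA cι (univ.map f) i) (B.map f) (RY cι (univ.map f) i) := by
    intro χ
    rw [In_card hs.hl, ← g4 χ]
    congr 1
    · rw [RA_map, filter_map, card_map, filter_filter]
      rfl
    · rw [filter_map, card_map]
      rfl
  have hAc : (RA cι (univ.map f) i).card = dv (fun r => cι (f r)) i := (dv_map i).symm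
  have hBc : (B.map f).card = B.card := card_map f
  have hdR : da Q i (dR cι (univ.map f)) = dR cι (univ.map f') := by
    funext j
    rw [hR']
    unfold dR
    by_cases hj : j = i
    · subst hj
      rw [RA_of hBm hY]
      unfold da
      rw [Function.update_self]
      have h1 := hbal.card
      have h2 := card_Ls' hs (univ.map f) j (c := cι)
      have h3 : mz Q (fun j => ((RA cι (univ.map f) j).card : ℤ)) j =
          wf Q j + Le' Q (dR cι (univ.map f)) j - 2 * ((RA cι (univ.map f) j).card : ℤ) := rfl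
      rw [h3, ← h2, h1]
      push_cast
      ring
    · rw [RA_ne hBm hj]
      unfold da
      rw [Function.update_of_ne hj]
      have h9 : RA cι (RA cι (univ.map f) i ∪ RY cι (univ.map f) i) j =
          RA cι (RY cι (univ.map f) i) j := RA_ne hA hj
      rw [RA_union] at h9
      rw [h9]
  have hmz' : 0 < mz Q (dR cι (univ.map f')) i := by
    have h1 : mz Q (dR cι (univ.map f')) i = -mz Q (dR cι (univ.map f)) i := by
      rw [← hdR]
      unfold mz da
      rw [Le'_upd_self hs.hl, Function.update_self]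
      unfold mz
      ring
    omega
  refine ⟨⟨i :: w, ?_⟩, ?_⟩
  · show daw Q w (da Q i (dR cι (univ.map f))) = 0
    rw [hdR, hw]
  · rw [← RA_union cι (univ.map f) i]
    rw [hR'] at hV
    refine VJ_zero_val hs hL hq hA hBm hY hbal (by rw [hAc, hBc]; omega) ?_ hV
    intro A' hA' hlt' P' hP'
    refine Zst_below' hs hL hw hmz' ((B.map f).card - A'.card) (by omega) (A' ∪ _) ?_ P' hP'
    intro j
    rw [Pi.add_apply, hR']
    unfold dR
    by_cases hj : j = i
    · subst hj
      rw [RA_of hA' hY, RA_of hBm hY, Pi.single_eq_same]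
      push_cast [Nat.cast_sub hlt'.le]
      ring
    · rw [RA_ne hA' hj, RA_ne hBm hj, Pi.single_eq_of_ne hj]
      ring

end Pool.Agent.Run7.h657.Res
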