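import Pool.Agent.Run7.h657.UC

/-! Assembly of the second version of the product formula. -/

set_option linter.unusedSectionVars false

namespace Pool.Agent.Run7.h657.Vx

open Finset Res

universe u1 u2 u3 u4 u5

variable {K : Type u1} {V : Type u2} {A : Type u3} {W : Type u4} {P : Type u5} [Field K]
  [Fintype V] [Fintype A] [Fintype W] [Fintype P] [DecidableEq V]

variable {Γ : FQuiver V A W} {T : Par K A W} {c : P → V} {x : P → Kˣ} {M M' : Rep K A W P}

lemma stabOrder_eq [DecidableEq P] [DecidableEq K] (c : P → V) (x : P → Kˣ) :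
    stabOrder c x = mf univ (fun r => (c r, (x r : K))) := by
  classical
  have h1 : mf univ (fun r => (c r, (x r : K))) = mf univ (fun r => (c r, x r)) :=
    mf_comp (f := fun r => (c r, x r)) (j := fun z : V × Kˣ => (z.1, (z.2 : K)))
      (fun a _ b _ h => by
        have h2 := Prod.ext_iff.1 h
        exact Prod.ext h2.1 (Units.ext h2.2))
  rw [h1, ← stN_mf]
  unfold stabOrder stN
  apply Nat.card_congr
  apply Equiv.subtypeEquivRight
  intro σ
  apply forall_congr'
  intro r
  show c (σ r) = c r ∧ x (σ r) = x r ↔ (c (σ r), x (σ r)) = (c r, x r)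
  rw [Prod.mk.injEq]

lemma stabOrder_pos (c : P → V) (x : P → Kˣ) : 0 < stabOrder c x := by
  classical
  rw [stabOrder_eq]
  exact mf_pos _ _

lemma hb_ne_one (hT : Independent T) : (T.hb : K) - 1 ≠ 0 := by
  intro h
  have h1 : T.hb = 1 := Units.ext (by rw [Units.val_one]; exact sub_eq_zero.1 h)
  have h2 := hT 0 1 0 0 (by simp [h1])
  exact one_ne_zero h2.2.1

/-- the value of the residue in degree zero, and vanishing for negative degrees -/
theorem norm_value [CharZero K] [LinearOrder P] (hl : ∀ e, Γ.tail e ≠ Γ.head e)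
    (hT : Independent T) (hM : IsPoint Γ c M) (hd : DimZero Γ c)
    (hx : TorusFixed T x M) (hord : LevelOrder T x) :
    iterRes (integrand Γ T c x 0) =
      (stabOrder c x : K) * (((T.hb : K) - 1)⁻¹) ^ Fintype.card P ∧
    ∀ δ, iterRes (integrand Γ T c x δ) ≠ 0 → ∀ r, 0 ≤ δ r := by
  classical
  obtain ⟨N, inst, f, cι, xι, hL, hq, hc, hxx⟩ :=
    exists_universe Γ T hT c x (weight_level hM hx) hord
  have hs := sepQ Γ hl T hT
  obtain ⟨_, h2⟩ := resVertex_eq hs hL hq hc hxx
  have hcc : (fun r => cι (f.toEmbedding r)) = c := funext hc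
  have hxc : (fun r => xι (f.toEmbedding r)) = fun r => (x r : K) := funext hxx
  have hFx : Fx (QQ Γ T) (T.hb : K)⁻¹ (fun r => cι (f.toEmbedding r))
      (fun r => xι (f.toEmbedding r)) M.X M.Y M.I M.J := by
    rw [hcc, hxc]
    exact toFx hM hx
  have hZD : ZD (QQ Γ T) (fun r => cι (f.toEmbedding r)) := by
    rw [hcc]
    exact zd hd
  constructor
  · obtain ⟨_, hv⟩ := NZ_card hs hL hq _ P f.toEmbedding M.X M.Y M.I M.J rfl hFx hZD
    have h3 : VJ (QQ Γ T) (T.q : K)⁻¹ (T.hb : K)⁻¹ cι xι (Rf f) (fun _ => 0) =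
      ((mf (univ.map f.toEmbedding) (fun q => (cι q, xι q)) : ℕ) : K) *
        k0 (T.hb : K)⁻¹ ^ (univ.map f.toEmbedding).card := hv
    rw [h2, h3, mf_map, card_map, card_univ, stabOrder_eq]
    have h4 : (fun r => (cι (f.toEmbedding r), xι (f.toEmbedding r))) =
        fun r => (c r, (x r : K)) := by
      funext r
      exact Prod.ext (hc r) (hxx r)
    have h5 : k0 (T.hb : K)⁻¹ = ((T.hb : K) - 1)⁻¹ := by
      unfold k0
      rw [one_div, inv_inv, ← inv_neg, neg_sub]
    rw [h4, h5]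
  · intro δ hne r
    by_contra hcon
    push Not at hcon
    apply hne
    have h4 : f r ∈ Rf f := mem_map.2 ⟨r, mem_univ r, rfl⟩
    rw [iterRes_eq hs hL hc hxx δ (exf f δ) (exf_apply δ),
      JU_neg hs hL hq (exf f δ) h4 (by rw [exf_apply]; exact hcon), mul_zero]

/-- the two forms of the residue series agree -/
theorem intVertex_eq [CharZero K] [LinearOrder P] (hl : ∀ e, Γ.tail e ≠ Γ.head e)
    (hT : Independent T) (hM : IsPoint Γ c M) (hd : DimZero Γ c)
    (hx : TorusFixed T x M) (hord : LevelOrder T x) :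
    intVertex Γ T c x = resVertex Γ T c x := by
  obtain ⟨h1, _⟩ := norm_value hl hT hM hd hx hord
  have hs : ((stabOrder c x : ℕ) : K) ≠ 0 := Nat.cast_ne_zero.2 (stabOrder_pos c x).ne'
  have hb := hb_ne_one hT
  funext d
  unfold intVertex resVertex
  rw [h1, inv_pow]
  have hb' := pow_ne_zero (Fintype.card P) hb
  field_simp

/-- **The product formula at every point.** -/
theorem product_formula_all [CharZero K] (hl : ∀ e, Γ.tail e ≠ Γ.head e)
    (hT : Independent T) (hM : IsPoint Γ c M) (hd : DimZero Γ c) :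
    (∃ (_ : LinearOrder P) (x : P → Kˣ) (M' : Rep K A W P),
      Iso c M M' ∧ TorusFixed T x M' ∧ LevelOrder T x) ∧
    ∀ [LinearOrder P] (x : P → Kˣ) (M' : Rep K A W P),
      Iso c M M' → TorusFixed T x M' → LevelOrder T x →
      (∀ δ, iterRes (integrand Γ T c x δ) ≠ 0 → ∀ r, 0 ≤ δ r) ∧
      (MultFree Γ T c x M' → intVertex Γ T c x = vertex Γ T c x M') ∧
      ∃ R : Finset (V →₀ ℕ),
        (∀ α, α ∈ R ↔ IsRealRoot Γ (fun i => (α i : ℤ)) ∧ pair α (muv Γ c) < 0) ∧
        intVertex Γ T c x *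
          ∏ α ∈ R, ∏ i ∈ range (-pair α (muv Γ c)).toNat,
            PhiAt (T.q : K) α (((T.hb : K) / T.q) ^ i *
              ((T.q : K) / T.hb) ^ pair α (bv Γ c)) =
          ∏ α ∈ R, ∏ i ∈ range (-pair α (muv Γ c)).toNat,
            PhiAt (T.q : K) α (T.hb * (((T.hb : K) / T.q) ^ i *
              ((T.q : K) / T.hb) ^ pair α (bv Γ c))) := by
  constructor
  · obtain ⟨x, M', h1, h2⟩ := exists_weights T hM hd
    obtain ⟨o, ho⟩ := exists_order hT (Iso.point hM h1) h2
    exact ⟨o, x, M', h1, h2, ho⟩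
  · intro _ x M' h1 h2 h3
    have hM' := Iso.point hM h1
    refine ⟨(norm_value hl hT hM' hd h2 h3).2, ?_, ?_⟩
    · intro hm
      rw [intVertex_eq hl hT hM' hd h2 h3]
      exact res_eq_loc hl hT hM' hd hm h3
    · rw [intVertex_eq hl hT hM' hd h2 h3]
      exact (product_formula hl hT hM' hd h2 h3).2

end Pool.Agent.Run7.h657.Vx
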